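import Pool.Agent.MP_337c4e_co.Bridge

set_option linter.unusedSectionVars false
set_option linter.unusedVariables false

namespace Pool.Agent.MP_337c4e_co

open Finset Matrix

variable {F : Type} [Field F] [Fintype F] [DecidableEq F]

lemma prop_of_minors (u w : Fin 3 → F) (hu : u ≠ 0) (h : ∀ i j, u i * w j = u j * w i) :
    ∃ t : F, w = t • u := by
  obtain ⟨i, hi⟩ := Function.ne_iff.1 hu
  have hi' : u i ≠ 0 := hi
  refine ⟨w i / u i, ?_⟩
  ext j
  simp only [Pi.smul_apply, smul_eq_mul]
  field_simp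
  linear_combination h i j

/-- an affine plane -/
def aplane (a : Fin 3 → F) (c : F) : Finset (Fin 3 → F) := univ.filter (fun x => a ⬝ᵥ x = c)

lemma mem_aplane {a x : Fin 3 → F} {c : F} : x ∈ aplane a c ↔ a ⬝ᵥ x = c := by simp [aplane]

/-- all affine planes -/
def aplanes (F : Type) [Field F] [Fintype F] [DecidableEq F] : Finset (Finset (Fin 3 → F)) :=
  univ.filter (fun H => ∃ a c, a ≠ 0 ∧ H = aplane a c)

lemma mem_aplanes {H : Finset (Fin 3 → F)} : H ∈ aplanes F ↔ ∃ a c, a ≠ 0 ∧ H = aplane a c := by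
  simp only [aplanes, mem_filter, mem_univ, true_and]

lemma aplane_smul (a : Fin 3 → F) (c t : F) (ht : t ≠ 0) : aplane (t • a) (t * c) = aplane a c := by
  ext x
  simp [mem_aplane, ht]

lemma card_aplane (a : Fin 3 → F) (ha : a ≠ 0) (c : F) :
    (aplane a c).card = Fintype.card F ^ 2 := by
  obtain ⟨i, hi⟩ := Function.ne_iff.1 ha
  have hi' : a i ≠ 0 := hi
  let e : Fin 3 → F := Pi.single i (a i)⁻¹
  have he : a ⬝ᵥ e = 1 := by simp [e, hi']
  have h1 : ∀ c, (aplane a c).card = (aplane a 0).card := by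
    intro c
    symm
    apply card_bij (fun x _ => x + c • e)
    · intro x hx
      rw [mem_aplane] at hx ⊢
      simp [hx, he]
    · intro x _ y _ h; simpa using h
    · intro y hy
      rw [mem_aplane] at hy
      exact ⟨y - c • e, by rw [mem_aplane]; simp [hy, he], by simp⟩
  have h2 : (univ : Finset (Fin 3 → F)).card = ∑ c : F, (aplane a c).card :=
    card_eq_sum_card_fiberwise (f := fun x => a ⬝ᵥ x) (fun x _ => mem_univ _)
  simp only [h1, sum_const, card_univ, smul_eq_mul, Fintype.card_fun, Fintype.card_fin] at h2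
  rw [h1]
  apply Nat.eq_of_mul_eq_mul_left (Fintype.card_pos (α := F))
  rw [← h2]; ring

lemma aplanes_elim : Elim (aplanes F) := by
  intro H1 h1 H2 h2 hne x hx1 hx2
  obtain ⟨a, c, ha, rfl⟩ := mem_aplanes.1 h1
  obtain ⟨a', c', ha', rfl⟩ := mem_aplanes.1 h2
  rw [mem_aplane, ← ne_eq, ← sub_ne_zero] at hx1 hx2
  set u := a ⬝ᵥ x - c with hu
  set u' := a' ⬝ᵥ x - c' with hu'
  have hx : (u • a' - u' • a) ⬝ᵥ x = u * c' - u' * c := by
    simp only [sub_dotProduct, smul_dotProduct, smul_eq_mul]
    rw [hu, hu']; ring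
  refine ⟨aplane (u • a' - u' • a) (u * c' - u' * c), mem_aplanes.2 ⟨_, _, ?_, rfl⟩, ?_,
    mem_aplane.2 hx⟩
  · intro h0
    apply hne
    rw [h0, zero_dotProduct, eq_comm, sub_eq_zero] at hx
    rw [sub_eq_zero] at h0
    rw [← aplane_smul a c u' hx2, ← aplane_smul a' c' u hx1, h0, hx]
  · intro y hy
    rw [mem_inter, mem_aplane, mem_aplane] at hy
    rw [mem_aplane]
    simp [hy.1, hy.2]

lemma aplanes_pair (X : Finset (Fin 3 → F)) (hX : X.card = 2) :
    ((aplanes F).filter (fun H => X ⊆ H)).card = Fintype.card F + 1 := by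
  obtain ⟨x, y, hxy, rfl⟩ := card_eq_two.1 hX
  have hp : y - x ≠ 0 := sub_ne_zero.2 hxy.symm
  let l : Finset (Fin 3 → F) := univ.image (fun t : F => x + t • (y - x))
  have hl : l.card = Fintype.card F := by
    rw [card_image_of_injective, card_univ]
    intro s t h
    simp only [add_right_inj] at h
    exact smul_left_injective F hp h
  have hxl : x ∈ l := mem_image.2 ⟨0, mem_univ _, by simp⟩
  have hyl : y ∈ l := mem_image.2 ⟨1, mem_univ _, by simp⟩
  have hsub : ∀ a c, x ∈ aplane a c → y ∈ aplane a c → l ⊆ aplane a c := by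
    intro a c h1 h2 w hw
    obtain ⟨t, -, rfl⟩ := mem_image.1 hw
    rw [mem_aplane] at h1 h2 ⊢
    simp [h1, h2]
  have e1 : (aplanes F).filter (fun H => {x, y} ⊆ H) = (aplanes F).filter (fun H => l ⊆ H) := by
    apply filter_congr
    intro H hH
    obtain ⟨a, c, ha, rfl⟩ := mem_aplanes.1 hH
    constructor
    · intro h; exact hsub a c (h (by simp)) (h (by simp))
    · intro h; exact insert_subset (h hxl) (singleton_subset_iff.2 (h hyl))
  have hk : ∀ H ∈ aplanes F, H.card = Fintype.card F ^ 2 := by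
    intro H hH
    obtain ⟨a, c, ha, rfl⟩ := mem_aplanes.1 hH
    exact card_aplane a ha c
  have h1 := fam_double_count (aplanes F) _ hk l
  rw [sum_congr rfl (g := fun _ => 1)] at h1
  · rw [sum_const, card_sdiff_of_subset (subset_univ _), card_univ, hl, Fintype.card_fun,
      Fintype.card_fin, smul_eq_mul, mul_one] at h1
    rw [e1]
    have hq : 1 < Fintype.card F := Fintype.one_lt_card
    generalize Fintype.card F = q at h1 hq ⊢
    obtain ⟨m, rfl⟩ : ∃ m, q = m + 1 := ⟨q - 1, by omega⟩
    have e2 : (m + 1) ^ 2 - (m + 1) = (m + 1) * m := by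
      have : (m + 1) ^ 2 = (m + 1) * m + (m + 1) := by ring
      omega
    have e3 : (m + 1) ^ 3 - (m + 1) = (m + 1 + 1) * ((m + 1) * m) := by
      have : (m + 1) ^ 3 = (m + 1 + 1) * ((m + 1) * m) + (m + 1) := by ring
      omega
    rw [e2, e3] at h1
    exact (Nat.eq_of_mul_eq_mul_right (Nat.mul_pos (by omega) (by omega)) h1).symm
  · intro z hz
    have hz' : z ∉ l := (mem_sdiff.1 hz).2
    let p := y - x
    let s := z - x
    let n : Fin 3 → F := ![p 1 * s 2 - p 2 * s 1, p 2 * s 0 - p 0 * s 2, p 0 * s 1 - p 1 * s 0]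
    have hn : n ≠ 0 := by
      intro h0
      have n0 : p 1 * s 2 - p 2 * s 1 = 0 := congrFun h0 0
      have n1 : p 2 * s 0 - p 0 * s 2 = 0 := congrFun h0 1
      have n2 : p 0 * s 1 - p 1 * s 0 = 0 := congrFun h0 2
      obtain ⟨t, ht⟩ := prop_of_minors p s hp (by
        intro i j
        fin_cases i <;> fin_cases j <;> simp <;>
          first
          | linear_combination n0
          | linear_combination -n0
          | linear_combination n1
          | linear_combination -n1
          | linear_combination n2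
          | linear_combination -n2)
      apply hz'
      refine mem_image.2 ⟨t, mem_univ _, ?_⟩
      have : z - x = t • (y - x) := ht
      rw [← this]; simp
    have hnp : n ⬝ᵥ p = 0 := by simp [n, dotProduct, Fin.sum_univ_three]; ring
    have hns : n ⬝ᵥ s = 0 := by simp [n, dotProduct, Fin.sum_univ_three]; ring
    rw [card_eq_one]
    refine ⟨aplane n (n ⬝ᵥ x), eq_singleton_iff_unique_mem.2 ⟨?_, ?_⟩⟩
    · rw [mem_filter]
      refine ⟨mem_aplanes.2 ⟨_, _, hn, rfl⟩, insert_subset ?_ (hsub _ _ (mem_aplane.2 rfl) ?_)⟩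
      · rw [mem_aplane, ← sub_eq_zero, ← dotProduct_sub]; exact hns
      · rw [mem_aplane, ← sub_eq_zero, ← dotProduct_sub]; exact hnp
    · intro H hH
      rw [mem_filter] at hH
      obtain ⟨a, c, ha, rfl⟩ := mem_aplanes.1 hH.1
      have m1 := mem_aplane.1 (hH.2 (mem_insert_of_mem hxl))
      have m2 := mem_aplane.1 (hH.2 (mem_insert_of_mem hyl))
      have m3 := mem_aplane.1 (hH.2 (mem_insert_self _ _))
      have ap : a ⬝ᵥ p = 0 := by simp only [p, dotProduct_sub, m1, m2, sub_self]
      have as : a ⬝ᵥ s = 0 := by simp only [s, dotProduct_sub, m1, m3, sub_self]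
      simp only [dotProduct, Fin.sum_univ_three] at ap as
      obtain ⟨t, ht⟩ := prop_of_minors a n ha (by
        intro i j
        fin_cases i <;> fin_cases j <;> simp [n] <;>
          first
          | linear_combination (p 2) * as - (s 2) * ap
          | linear_combination (s 2) * ap - (p 2) * as
          | linear_combination (p 1) * as - (s 1) * ap
          | linear_combination (s 1) * ap - (p 1) * as
          | linear_combination (p 0) * as - (s 0) * ap
          | linear_combination (s 0) * ap - (p 0) * as)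
      have ht0 : t ≠ 0 := by
        rintro rfl
        exact hn (by rw [ht, zero_smul])
      rw [ht, smul_dotProduct, m1, smul_eq_mul, aplane_smul _ _ _ ht0]

theorem matroidal_affine (F : Type) [Field F] [Fintype F] (q : ℕ) (hq : Fintype.card F = q) :
    Matroidal (q ^ 3 + q ^ 2 + q) (q ^ 3) (q ^ 2 + q + 1) (q ^ 2) (q + 1) := by
  classical
  have hq1 : 1 < q := hq ▸ Fintype.one_lt_card
  apply matroidal_of_family (aplanes F)
  · rw [Fintype.card_fun, Fintype.card_fin, hq]
  · exact Nat.pow_lt_pow_right hq1 (by norm_num)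
  · nlinarith
  · intro H hH
    obtain ⟨a, c, ha, rfl⟩ := mem_aplanes.1 hH
    rw [card_aplane a ha c, hq]
  · exact aplanes_elim
  · intro X hX; rw [aplanes_pair X hX, hq]
  · obtain ⟨m, rfl⟩ : ∃ m, q = m + 1 := ⟨q - 1, by omega⟩
    have e2 : (m + 1) ^ 2 - 1 = (m + 2) * m := by
      have : (m + 1) ^ 2 = (m + 2) * m + 1 := by ring
      omega
    have e3 : (m + 1) ^ 3 - 1 = (m ^ 2 + 3 * m + 3) * m := by
      have : (m + 1) ^ 3 = (m ^ 2 + 3 * m + 3) * m + 1 := by ring
      omega
    rw [e2, e3]; ring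
  · ring

theorem matroidal_affine_primePow (q : ℕ) (hq : IsPrimePow q) :
    Matroidal (q ^ 3 + q ^ 2 + q) (q ^ 3) (q ^ 2 + q + 1) (q ^ 2) (q + 1) := by
  obtain ⟨p, n, hp, hn, rfl⟩ := (isPrimePow_nat_iff q).1 hq
  have : Fact p.Prime := ⟨hp⟩
  let _ : Fintype (GaloisField p n) := Fintype.ofFinite _
  apply matroidal_affine (GaloisField p n)
  rw [← Nat.card_eq_fintype_card, GaloisField.card p n hn.ne']

end Pool.Agent.MP_337c4e_co
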