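import Pool.Agent.MP_337c4e_co.Bridge

set_option linter.unusedSectionVars false
set_option linter.unusedVariables false

namespace Pool.Agent.MP_337c4e_co

open Finset RkFn

variable {α : Type} [Fintype α] [DecidableEq α]

/-- In a family of equal-sized sets with strong elimination, two disjoint members whose union
contains no third member cannot both be met by a member. -/
lemma no_skew_pair (𝓓 : Finset (Finset α)) (d : ℕ) (hd : ∀ D ∈ 𝓓, D.card = d)
    (hSE : ∀ D ∈ 𝓓, ∀ D' ∈ 𝓓, ∀ e f, e ∈ D → e ∈ D' → f ∈ D → f ∉ D' →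
      ∃ D'' ∈ 𝓓, D'' ⊆ D ∪ D' ∧ e ∉ D'' ∧ f ∈ D'')
    (D1 D2 : Finset α) (h1 : D1 ∈ 𝓓) (h2 : D2 ∈ 𝓓) (hdisj : Disjoint D1 D2)
    (honly : ∀ D ∈ 𝓓, D ⊆ D1 ∪ D2 → D = D1 ∨ D = D2)
    (hmeet : ∃ D ∈ 𝓓, (∃ x ∈ D, x ∈ D1) ∧ (∃ y ∈ D, y ∈ D2)) : False := by
  classical
  have anti : ∀ D ∈ 𝓓, ∀ D' ∈ 𝓓, D ⊆ D' → D = D' := fun D hD D' hD' h =>
    eq_of_subset_of_card_le h (by rw [hd D hD, hd D' hD'])
  rw [disjoint_left] at hdisj
  let T := 𝓓.filter (fun D => (∃ x ∈ D, x ∈ D1) ∧ (∃ y ∈ D, y ∈ D2))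
  have hT : T.Nonempty := by
    obtain ⟨D, hD, h⟩ := hmeet
    exact ⟨D, mem_filter.2 ⟨hD, h⟩⟩
  obtain ⟨D, hD, hmin⟩ := T.exists_min_image (fun D => (D \ (D1 ∪ D2)).card) hT
  simp only [T, mem_filter] at hD hmin
  obtain ⟨hD, ⟨x, hx, hx1⟩, ⟨y, hy, hy2⟩⟩ := hD
  set P := D \ (D1 ∪ D2) with hP
  have hx2 : x ∉ D2 := hdisj hx1
  have hy1 : y ∉ D1 := fun h => hdisj h hy2
  have hPne : P.Nonempty := by
    rw [hP, sdiff_nonempty]
    intro h
    rcases honly D hD h with h' | h'
    · exact hy1 (h' ▸ hy)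
    · exact hx2 (h' ▸ hx)
  -- a member inside `D ∪ D1 ∪ D2` missing a point of `P` does not meet both
  have small : ∀ E ∈ 𝓓, E ⊆ D ∪ (D1 ∪ D2) → ∀ f ∈ P, f ∉ E →
      ¬ ((∃ x ∈ E, x ∈ D1) ∧ (∃ y ∈ E, y ∈ D2)) := by
    intro E hE hsub f hf hfE hb
    have h3 := hmin E ⟨hE, hb⟩
    have h4 : E \ (D1 ∪ D2) ⊆ P.erase f := by
      intro z hz
      rw [mem_sdiff] at hz
      rw [mem_erase, hP, mem_sdiff]
      refine ⟨fun h => hfE (h ▸ hz.1), ?_, hz.2⟩
      exact (mem_union.1 (hsub hz.1)).resolve_right hz.2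
    have h5 := card_le_card h4
    rw [card_erase_of_mem hf] at h5
    have := card_pos.2 hPne
    omega
  -- a member inside the union missing a point of `P` is `D1` or `D2`
  have small2 : ∀ E ∈ 𝓓, E ⊆ D ∪ (D1 ∪ D2) → ∀ e ∈ P, e ∉ E → E = D1 ∨ E = D2 := by
    intro E hE hsub e he heE
    apply honly E hE
    intro f hf
    by_contra hf'
    have hfD : f ∈ D := (mem_union.1 (hsub hf)).resolve_right hf'
    have hfP : f ∈ P := mem_sdiff.2 ⟨hfD, hf'⟩
    have h3 := small E hE hsub e he heE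
    rw [not_and_or] at h3
    rcases h3 with h3 | h3
    · push Not at h3
      obtain ⟨D'', hD'', h4, h5, h6⟩ := hSE D hD E hE f x hfD hf hx (fun h => h3 x h hx1)
      have h7 : D'' ⊆ D ∪ (D1 ∪ D2) := h4.trans (union_subset subset_union_left hsub)
      have h8 := small D'' hD'' h7 f hfP h5
      have h9 : D'' ⊆ D := by
        intro z hz
        rcases mem_union.1 (h4 hz) with h | h
        · exact h
        · rcases mem_union.1 (hsub h) with h' | h'
          · exact h'
          · rcases mem_union.1 h' with h'' | h''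
            · exact absurd h'' (h3 z h)
            · exact absurd ⟨⟨x, h6, hx1⟩, ⟨z, hz, h''⟩⟩ h8
      exact h5 ((anti _ hD'' _ hD h9) ▸ hfD)
    · push Not at h3
      obtain ⟨D'', hD'', h4, h5, h6⟩ := hSE D hD E hE f y hfD hf hy (fun h => h3 y h hy2)
      have h7 : D'' ⊆ D ∪ (D1 ∪ D2) := h4.trans (union_subset subset_union_left hsub)
      have h8 := small D'' hD'' h7 f hfP h5
      have h9 : D'' ⊆ D := by
        intro z hz
        rcases mem_union.1 (h4 hz) with h | h
        · exact h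
        · rcases mem_union.1 (hsub h) with h' | h'
          · exact h'
          · rcases mem_union.1 h' with h'' | h''
            · exact absurd ⟨⟨z, hz, h''⟩, ⟨y, h6, hy2⟩⟩ h8
            · exact absurd h'' (h3 z h)
      exact h5 ((anti _ hD'' _ hD h9) ▸ hfD)
  -- the symmetric half-size lemma
  have half : ∀ A B : Finset α, A ∈ 𝓓 → B ∈ 𝓓 → A ∪ B = D1 ∪ D2 → (∀ z, z ∈ A → z ∉ B) →
      (∀ E ∈ 𝓓, E ⊆ D ∪ (D1 ∪ D2) → ∀ e ∈ P, e ∉ E → E = A ∨ E = B) →
      ∀ a ∈ D, a ∈ A → ∀ c ∈ D, c ∈ B → d ≤ 2 * (D ∩ A).card := by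
    intro A B hA hB hAB hdis hsm a ha haA c hc hcB
    have hcA : c ∉ A := fun h => hdis c h hcB
    have hBD : ¬ B ⊆ D := by
      intro h
      have := anti _ hB _ hD h
      exact hdis a haA (this ▸ ha)
    obtain ⟨D3, hD3, h4, h5, h6⟩ := hSE D hD A hA a c ha haA hc hcA
    have h7 : D3 ⊆ D ∪ (D1 ∪ D2) := by
      rw [← hAB]; exact h4.trans (union_subset_union_right subset_union_left)
    have hB3 : ¬ B ⊆ D ∪ D3 := by
      intro h
      apply hBD
      intro z hz
      rcases mem_union.1 (h hz) with h' | h'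
      · exact h'
      · rcases mem_union.1 (h4 h') with h'' | h''
        · exact h''
        · exact absurd hz (hdis z h'')
    have hP3 : P ⊆ D3 := by
      intro e he
      by_contra he'
      rcases hsm D3 hD3 h7 e he he' with h | h
      · exact hcA (h ▸ h6)
      · exact hB3 (h ▸ subset_union_right)
    obtain ⟨f, hf⟩ := hPne
    have hfD : f ∈ D := (mem_sdiff.1 hf).1
    -- `A ⊆ D ∪ D3`
    have hA3 : A ⊆ D ∪ D3 := by
      obtain ⟨E, hE, h8, h9, h10⟩ := hSE D hD D3 hD3 f a hfD (hP3 hf) ha h5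
      have h11 : E ⊆ D ∪ (D1 ∪ D2) := h8.trans (union_subset subset_union_left h7)
      rcases hsm E hE h11 f hf h9 with h | h
      · exact h ▸ h8
      · exact absurd (h ▸ h8) hB3
    have hB3' : D ∩ B ⊆ D3 := by
      intro z hz
      rw [mem_inter] at hz
      by_contra hz'
      obtain ⟨E, hE, h8, h9, h10⟩ := hSE D hD D3 hD3 f z hfD (hP3 hf) hz.1 hz'
      have h11 : E ⊆ D ∪ (D1 ∪ D2) := h8.trans (union_subset subset_union_left h7)
      rcases hsm E hE h11 f hf h9 with h | h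
      · exact hdis z (h ▸ h10) hz.2
      · exact hB3 (h ▸ h8)
    -- count
    have c1 : (D \ A) ∪ (A \ D) ⊆ D3 := by
      intro z hz
      rcases mem_union.1 hz with h | h
      · rw [mem_sdiff] at h
        by_cases hzB : z ∈ B
        · exact hB3' (mem_inter.2 ⟨h.1, hzB⟩)
        · apply hP3
          rw [hP, ← hAB, mem_sdiff, mem_union]
          tauto
      · rw [mem_sdiff] at h
        exact (mem_union.1 (hA3 h.1)).resolve_left h.2
    have c2 := card_le_card c1
    rw [card_union_of_disjoint (disjoint_sdiff_sdiff), hd D3 hD3] at c2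
    have c3 := card_sdiff_add_card_inter D A
    have c4 := card_sdiff_add_card_inter A D
    rw [inter_comm A D, hd A hA] at c4
    rw [hd D hD] at c3
    omega
  have e1 := half D1 D2 h1 h2 rfl (fun z => @hdisj z) small2 x hx hx1 y hy hy2
  have e2 := half D2 D1 h2 h1 (union_comm _ _) (fun z h h' => hdisj h' h)
    (fun E hE h e he he' => (small2 E hE h e he he').symm) y hy hy2 x hx hx1
  have c1 := card_sdiff_add_card_inter D (D1 ∪ D2)
  rw [inter_union_distrib_left, card_union_of_disjoint, hd D hD] at c1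
  · have := card_pos.2 hPne
    rw [← hP] at c1
    omega
  · rw [disjoint_left]
    intro z h h'
    exact hdisj (mem_inter.1 h).2 (mem_inter.1 h').2

namespace IsDes

variable {R : RkFn α} {b v r k lam : ℕ}

lemma double (h : IsDes R b v r k lam) (X : Finset α) :
    ∑ x ∈ univ \ X, R.deg (insert x X) = R.deg X * (k - X.card) :=
  fam_double_count R.hyp k h.hk X

lemma k_lt (h : IsDes R b v r k lam) (hb : v < b) : k + 2 ≤ v := by
  have h1 : R.hyp ⊆ powersetCard k univ := by
    intro H hH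
    rw [mem_powersetCard]
    exact ⟨subset_univ _, h.hk H hH⟩
  have h2 := card_le_card h1
  rw [card_powersetCard, card_univ, h.hv, h.hb] at h2
  obtain ⟨H, hH⟩ : R.hyp.Nonempty := card_pos.1 (by rw [h.hb]; omega)
  have h3 := card_lt_card (ssubset_univ_iff.2 (hyp_ne_univ hH))
  rw [card_univ, h.hv, h.hk H hH] at h3
  by_contra hc
  have h4 : v = k + 1 := by omega
  rw [h4, Nat.choose_succ_self_right] at h2
  omega

lemma eq_bk (h : IsDes R b v r k lam) : b * k = r * v := by
  have h1 := h.double ∅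
  simp only [sdiff_empty, insert_empty_eq, h.hr, sum_const, card_univ, h.hv, smul_eq_mul,
    card_empty, Nat.sub_zero] at h1
  have h2 : R.deg ∅ = b := by simp [deg, h.hb]
  rw [h2] at h1
  rw [← h1, mul_comm]

lemma eq_rk (h : IsDes R b v r k lam) (x : α) : r * (k - 1) = lam * (v - 1) := by
  have h1 := h.double {x}
  rw [h.hr, card_singleton, Finset.sum_congr rfl (g := fun _ => lam)] at h1
  · rw [sum_const, card_sdiff_of_subset (subset_univ _), card_univ, h.hv, card_singleton,
      smul_eq_mul] at h1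
    rw [← h1, mul_comm]
  · intro y hy
    apply h.hl
    intro hyx
    simp [hyx] at hy

lemma exists_pair (h : IsDes R b v r k lam) (hb : v < b) : ∃ x y : α, x ≠ y := by
  have := h.k_lt hb
  rw [← Fintype.one_lt_card_iff, h.hv]; omega

lemma two_le_k (h : IsDes R b v r k lam) (hb : v < b) (hl : 1 ≤ lam) : 2 ≤ k := by
  obtain ⟨x, y, hxy⟩ := h.exists_pair hb
  have h1 := h.hl x y hxy
  obtain ⟨H, hH⟩ : (R.hyp.filter (fun H => {x, y} ⊆ H)).Nonempty := card_pos.1 (by
    unfold deg at h1; omega)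
  rw [mem_filter] at hH
  have := card_le_card hH.2
  rwa [card_pair hxy, h.hk H hH.1] at this

lemma k_lt_r (h : IsDes R b v r k lam) (hb : v < b) (hl : 1 ≤ lam) : k < r := by
  have h1 := h.eq_bk
  have h2 := h.two_le_k hb hl
  by_contra hc
  push Not at hc
  have : r * v < b * k := by nlinarith
  omega

lemma lam_lt_r (h : IsDes R b v r k lam) (hb : v < b) (hl : 1 ≤ lam) : lam < r := by
  obtain ⟨x, y, hxy⟩ := h.exists_pair hb
  have h1 := h.eq_rk x
  have h2 := h.two_le_k hb hl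
  have h3 := h.k_lt hb
  by_contra hc
  push Not at hc
  have h4 : r * (k - 1) ≤ lam * (k - 1) := Nat.mul_le_mul_right _ hc
  have h5 : lam * (k - 1) < lam * (v - 1) := Nat.mul_lt_mul_of_pos_left (by omega) (by omega)
  omega

lemma r_lt_b (h : IsDes R b v r k lam) (hb : v < b) : r < b := by
  have h1 := h.eq_bk
  have h3 := h.k_lt hb
  by_contra hc
  push Not at hc
  have : b * k < r * v := by nlinarith
  omega

lemma flat_empty (h : IsDes R b v r k lam) (hb : v < b) : R.Flat ∅ := by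
  apply subset_antisymm _ (empty_subset _)
  intro x hx
  exfalso
  have h1 : R.deg (R.cl ∅) ≤ R.deg {x} := deg_anti (singleton_subset_iff.2 hx)
  have h2 : R.deg ∅ = b := by simp [deg, h.hb]
  have h3 : R.deg {x} ≤ R.deg ∅ := deg_anti (empty_subset _)
  rw [deg_cl, h2, h.hr] at h1
  have := h.r_lt_b hb
  omega

lemma rk_single (h : IsDes R b v r k lam) (hb : v < b) (x : α) : R.rk {x} = 1 := by
  have := (h.flat_empty hb).rk_insert (notMem_empty x)
  rwa [insert_empty_eq, R.rk_empty] at this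

lemma flat_single (h : IsDes R b v r k lam) (hb : v < b) (hl : 1 ≤ lam) (x : α) :
    R.Flat {x} := by
  apply subset_antisymm _ (subset_cl _)
  intro y hy
  by_contra hyx
  rw [mem_singleton] at hyx
  have h1 : R.deg (R.cl {x}) ≤ R.deg {y, x} :=
    deg_anti (insert_subset hy (subset_cl _))
  rw [deg_cl, h.hr, h.hl y x hyx] at h1
  have := h.lam_lt_r hb hl
  omega

lemma rk_pair (h : IsDes R b v r k lam) (hb : v < b) (hl : 1 ≤ lam) {x y : α} (hxy : x ≠ y) :
    R.rk {x, y} = 2 := by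
  have := (h.flat_single hb hl y).rk_insert (x := x) (by simpa using hxy)
  rwa [h.rk_single hb] at this

lemma four_le_rank (h : IsDes R b v r k lam) (hb : v < b) (hl : 2 ≤ lam) : 4 ≤ R.rk univ := by
  obtain ⟨x, y, hxy⟩ := h.exists_pair hb
  have h1 := h.rk_pair hb (by omega) hxy
  have h2 := h.hl x y hxy
  by_contra hc
  by_cases h3 : R.rk univ = 3
  · rw [deg_eq_one (by omega)] at h2; omega
  · rw [deg_eq_zero (by omega)] at h2; omega

/-- every line (flat of rank two) has degree `lam` and at least two points -/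
lemma line_deg (h : IsDes R b v r k lam) (hb : v < b) (hl : 1 ≤ lam) {L : Finset α}
    (hL : R.Flat L) (hr : R.rk L = 2) : R.deg L = lam ∧ 2 ≤ L.card := by
  have h1 : 2 ≤ L.card := hr ▸ rk_le_card L
  obtain ⟨x, hx, y, hy, hxy⟩ := one_lt_card.1 (show 1 < L.card by omega)
  have h2 : R.cl {x, y} = L := by
    apply (cl_flat _).eq_of_subset_of_rk_le
      (hL.cl_subset (insert_subset hx (singleton_subset_iff.2 hy)))
    rw [rk_cl, h.rk_pair hb hl hxy, hr]
  refine ⟨?_, h1⟩
  rw [← h2, deg_cl, h.hl x y hxy]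

lemma flat_card_lt (h : IsDes R b v r k lam) {F : Finset α} (hF : R.Flat F)
    (hr : R.rk F + 2 ≤ R.rk univ) : F.card < k := by
  obtain ⟨H, hH1, hH2, -, hH3⟩ := hF.exists_rk flat_univ (subset_univ _) (R.rk univ - 1)
    (by omega) (by omega)
  have hH : H ∈ R.hyp := mem_hyp.2 ⟨hH1, by omega⟩
  rw [← h.hk H hH]
  apply card_lt_card
  refine ⟨hH2, fun h' => ?_⟩
  have := R.mono h'
  omega

lemma coline_eq (h : IsDes R b v r k lam) {C : Finset α} (hC : R.Flat C)
    (hr : R.rk C + 2 = R.rk univ) : R.deg C * (k - C.card) = v - C.card := by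
  have h1 := h.double C
  rw [Finset.sum_congr rfl (g := fun _ => 1)] at h1
  · rw [sum_const, card_sdiff_of_subset (subset_univ _), card_univ, h.hv, smul_eq_mul,
      mul_one] at h1
    exact h1.symm
  · intro x hx
    apply deg_eq_one
    rw [hC.rk_insert (mem_sdiff.1 hx).2]; omega

lemma avoid_count (h : IsDes R b v r k lam) {x y : α} (hxy : x ≠ y) :
    (R.hyp.filter (fun H => x ∉ H ∧ y ∉ H)).card + 2 * r = b + lam := by
  have h1 := h.hr x
  have h2 := h.hr y
  have h3 := h.hl x y hxy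
  unfold deg at h1 h2 h3
  have h4 := card_union_add_card_inter (R.hyp.filter (fun H => {x} ⊆ H))
    (R.hyp.filter (fun H => {y} ⊆ H))
  have h5 : (R.hyp.filter (fun H => {x} ⊆ H)) ∩ (R.hyp.filter (fun H => {y} ⊆ H)) =
      R.hyp.filter (fun H => {x, y} ⊆ H) := by
    ext H; simp only [mem_inter, mem_filter, singleton_subset_iff, insert_subset_iff]; tauto
  have h6 : (R.hyp.filter (fun H => {x} ⊆ H)) ∪ (R.hyp.filter (fun H => {y} ⊆ H)) =
      R.hyp.filter (fun H => ¬ (x ∉ H ∧ y ∉ H)) := by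
    ext H; simp only [mem_union, mem_filter, singleton_subset_iff]; tauto
  have h7 := card_filter_add_card_filter_not (s := R.hyp) (fun H => x ∉ H ∧ y ∉ H)
  rw [h5, h6, h1, h2, h3] at h4
  rw [h.hb] at h7
  omega

lemma exists_avoid_pair (h : IsDes R b v r k lam) (hb : v < b) {x y : α} (hxy : x ≠ y) :
    ∃ H ∈ R.hyp, x ∉ H ∧ y ∉ H := by
  obtain ⟨H, hH⟩ : R.hyp.Nonempty := card_pos.1 (by rw [h.hb]; omega)
  have h1 : 1 < Hᶜ.card := by
    rw [card_compl, h.hv, h.hk H hH]
    have := h.k_lt hb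
    omega
  obtain ⟨x', hx', y', hy', hxy'⟩ := one_lt_card.1 h1
  have h2 := h.avoid_count hxy
  have h3 := h.avoid_count hxy'
  have h4 : 0 < (R.hyp.filter (fun H => x' ∉ H ∧ y' ∉ H)).card :=
    card_pos.2 ⟨H, mem_filter.2 ⟨hH, mem_compl.1 hx', mem_compl.1 hy'⟩⟩
  obtain ⟨H', hH'⟩ : (R.hyp.filter (fun H => x ∉ H ∧ y ∉ H)).Nonempty := card_pos.1 (by omega)
  exact ⟨H', (mem_filter.1 hH').1, (mem_filter.1 hH').2⟩

/-- every coline lies in at least three hyperplanes -/
lemma three_le_deg (h : IsDes R b v r k lam) (hb : v < b) {C : Finset α} (hC : R.Flat C)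
    (hr : R.rk C + 2 = R.rk univ) : 3 ≤ R.deg C := by
  classical
  have h1 := h.coline_eq hC hr
  have h2 := h.flat_card_lt hC (by omega)
  have h3 := h.k_lt hb
  have h4 : 2 ≤ R.deg C := by
    by_contra hc
    have : R.deg C * (k - C.card) ≤ 1 * (k - C.card) := Nat.mul_le_mul_right _ (by omega)
    omega
  by_contra hc
  have h5 : R.deg C = 2 := by omega
  unfold deg at h5
  obtain ⟨H1, H2, hne, hH⟩ := card_eq_two.1 h5
  have m1 : H1 ∈ R.hyp.filter (fun H => C ⊆ H) := by rw [hH]; simp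
  have m2 : H2 ∈ R.hyp.filter (fun H => C ⊆ H) := by rw [hH]; simp
  rw [mem_filter] at m1 m2
  have hcover : ∀ z, z ∈ H1 ∨ z ∈ H2 := by
    intro z
    by_cases hz : z ∈ C
    · exact Or.inl (m1.2 hz)
    · have : R.cl (insert z C) ∈ R.hyp.filter (fun H => C ⊆ H) := by
        rw [mem_filter]
        refine ⟨cl_mem_hyp ?_, subset_cl_insert _ _⟩
        rw [hC.rk_insert hz]; omega
      rw [hH, mem_insert, mem_singleton] at this
      rcases this with h' | h'
      · exact Or.inl (h' ▸ mem_cl_insert _ _)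
      · exact Or.inr (h' ▸ mem_cl_insert _ _)
  apply no_skew_pair (R.hyp.image compl) (v - k) _ _ H1ᶜ H2ᶜ (mem_image_of_mem _ m1.1)
    (mem_image_of_mem _ m2.1)
  · rw [disjoint_left]
    intro z hz hz'
    rw [mem_compl] at hz hz'
    rcases hcover z with h' | h'
    · exact hz h'
    · exact hz' h'
  · intro D hD hsub
    obtain ⟨H, hH', rfl⟩ := mem_image.1 hD
    have : H ∈ R.hyp.filter (fun H => C ⊆ H) := by
      rw [mem_filter]
      refine ⟨hH', ?_⟩
      intro z hz
      by_contra hz'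
      have := hsub (mem_compl.2 hz')
      rw [mem_union, mem_compl, mem_compl] at this
      rcases this with h' | h'
      · exact h' (m1.2 hz)
      · exact h' (m2.2 hz)
    rw [hH, mem_insert, mem_singleton] at this
    rcases this with h' | h'
    · exact Or.inl (by rw [h'])
    · exact Or.inr (by rw [h'])
  · obtain ⟨x, hx⟩ : ∃ x, x ∉ H1 := by
      by_contra hc
      push Not at hc
      exact hyp_ne_univ m1.1 (eq_univ_iff_forall.2 hc)
    obtain ⟨y, hy⟩ : ∃ y, y ∉ H2 := by
      by_contra hc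
      push Not at hc
      exact hyp_ne_univ m2.1 (eq_univ_iff_forall.2 hc)
    have hxy : x ≠ y := by
      rintro rfl
      rcases hcover x with h' | h'
      · exact hx h'
      · exact hy h'
    obtain ⟨H, hH', h6, h7⟩ := h.exists_avoid_pair hb hxy
    exact ⟨Hᶜ, mem_image_of_mem _ hH', ⟨x, mem_compl.2 h6, mem_compl.2 hx⟩,
      ⟨y, mem_compl.2 h7, mem_compl.2 hy⟩⟩
  · intro D hD
    obtain ⟨H, hH', rfl⟩ := mem_image.1 hD
    rw [card_compl, h.hv, h.hk H hH']
  · intro D hD D' hD' e f he he' hf hf'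
    obtain ⟨H, hH', rfl⟩ := mem_image.1 hD
    obtain ⟨H', hH'', rfl⟩ := mem_image.1 hD'
    rw [mem_compl] at he he' hf hf'
    push Not at hf'
    obtain ⟨H3, h6, h7, h8, h9⟩ := strong_elim hH' hH'' he he' hf hf'
    refine ⟨H3ᶜ, mem_image_of_mem _ h6, ?_, by simpa using h8, by simpa using h9⟩
    rw [← compl_inter]
    exact compl_subset_compl.2 h7

end IsDes

end Pool.Agent.MP_337c4e_co
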