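import Mathlib

set_option linter.unusedSectionVars false
set_option linter.unusedVariables false

namespace Pool.Agent.MP_337c4e_co

open Finset

/-- A matroid rank function on the finsets of a finite type. -/
structure RkFn (α : Type) [DecidableEq α] where
  rk : Finset α → ℕ
  rk_empty : rk ∅ = 0
  rk_insert_le : ∀ x X, rk (insert x X) ≤ rk X + 1
  mono : ∀ {X Y}, X ⊆ Y → rk X ≤ rk Y
  submod : ∀ X Y, rk (X ∩ Y) + rk (X ∪ Y) ≤ rk X + rk Y

namespace RkFn

variable {α : Type} [Fintype α] [DecidableEq α] (R : RkFn α)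

def cl (X : Finset α) : Finset α := univ.filter (fun x => R.rk (insert x X) = R.rk X)

def Flat (F : Finset α) : Prop := R.cl F = F

instance (F : Finset α) : Decidable (R.Flat F) := by unfold Flat; infer_instance

variable {R}

lemma mem_cl {X : Finset α} {x : α} : x ∈ R.cl X ↔ R.rk (insert x X) = R.rk X := by
  simp [cl]

lemma subset_cl (X : Finset α) : X ⊆ R.cl X := by
  intro x hx
  rw [mem_cl, insert_eq_of_mem hx]

lemma rk_insert_of_notMem_cl {X : Finset α} {x : α} (h : x ∉ R.cl X) :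
    R.rk (insert x X) = R.rk X + 1 := by
  rw [mem_cl] at h
  have h1 := R.rk_insert_le x X
  have h2 := R.mono (subset_insert x X)
  omega

lemma cl_mono {X Y : Finset α} (h : X ⊆ Y) : R.cl X ⊆ R.cl Y := by
  intro x hx
  rw [mem_cl] at hx ⊢
  have h1 := R.submod (insert x X) Y
  have h2 : R.rk X ≤ R.rk (insert x X ∩ Y) :=
    R.mono (subset_inter (subset_insert _ _) h)
  have h3 : insert x X ∪ Y = insert x Y := by
    ext z; simp only [mem_union, mem_insert]
    constructor
    · rintro ((h' | h') | h')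
      · exact Or.inl h'
      · exact Or.inr (h h')
      · exact Or.inr h'
    · rintro (h' | h')
      · exact Or.inl (Or.inl h')
      · exact Or.inr h'
  rw [h3] at h1
  have h4 := R.mono (subset_insert x Y)
  omega

lemma rk_union_of_subset_cl {X Z : Finset α} (h : Z ⊆ R.cl X) : R.rk (X ∪ Z) = R.rk X := by
  induction Z using Finset.induction_on with
  | empty => simp
  | insert a Z ha ih =>
    have h1 : Z ⊆ R.cl X := (subset_insert _ _).trans h
    have h2 : a ∈ R.cl (X ∪ Z) := cl_mono subset_union_left (h (mem_insert_self _ _))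
    rw [mem_cl] at h2
    rw [union_insert, h2, ih h1]

lemma rk_cl (X : Finset α) : R.rk (R.cl X) = R.rk X := by
  have := rk_union_of_subset_cl (R := R) (X := X) (Z := R.cl X) subset_rfl
  rwa [union_eq_right.2 (subset_cl X)] at this

lemma cl_flat (X : Finset α) : R.Flat (R.cl X) := by
  apply subset_antisymm _ (subset_cl _)
  intro x hx
  rw [mem_cl] at hx ⊢
  have h1 : R.rk (insert x X) ≤ R.rk (insert x (R.cl X)) :=
    R.mono (insert_subset_insert _ (subset_cl X))
  have h2 := R.mono (subset_insert x X)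
  rw [rk_cl] at hx
  omega

lemma Flat.cl_subset {F X : Finset α} (hF : R.Flat F) (h : X ⊆ F) : R.cl X ⊆ F := by
  have := cl_mono (R := R) h
  rwa [hF] at this

lemma Flat.rk_insert {F : Finset α} {x : α} (hF : R.Flat F) (h : x ∉ F) :
    R.rk (insert x F) = R.rk F + 1 := by
  apply rk_insert_of_notMem_cl
  rwa [hF]

lemma flat_iff {F : Finset α} : R.Flat F ↔ ∀ x, x ∉ F → R.rk (insert x F) = R.rk F + 1 := by
  constructor
  · intro h x hx; exact h.rk_insert hx
  · intro h
    apply subset_antisymm _ (subset_cl _)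
    intro x hx
    by_contra hx'
    have := h x hx'
    rw [mem_cl] at hx
    omega

lemma flat_univ : R.Flat univ := by
  rw [flat_iff]; intro x hx; exact absurd (mem_univ x) hx

lemma Flat.eq_of_subset_of_rk_le {F G : Finset α} (hF : R.Flat F) (h : F ⊆ G)
    (hr : R.rk G ≤ R.rk F) : F = G := by
  apply subset_antisymm h
  intro x hx
  by_contra hx'
  have h1 := hF.rk_insert hx'
  have h2 : R.rk (insert x F) ≤ R.rk G := R.mono (insert_subset hx h)
  omega

lemma Flat.inter {F G : Finset α} (hF : R.Flat F) (hG : R.Flat G) : R.Flat (F ∩ G) := by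
  apply subset_antisymm _ (subset_cl _)
  exact subset_inter (hF.cl_subset inter_subset_left) (hG.cl_subset inter_subset_right)

lemma exchange {X : Finset α} {x y : α} (h1 : y ∈ R.cl (insert x X)) (h2 : y ∉ R.cl X) :
    x ∈ R.cl (insert y X) := by
  have h3 := rk_insert_of_notMem_cl h2
  rw [mem_cl] at h1 ⊢
  have h4 := R.rk_insert_le x X
  have h5 : R.rk (insert y X) ≤ R.rk (insert x (insert y X)) := R.mono (subset_insert _ _)
  rw [insert_comm] at h1
  omega

lemma rk_le_card (X : Finset α) : R.rk X ≤ X.card := by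
  induction X using Finset.induction_on with
  | empty => simp [R.rk_empty]
  | insert a X ha ih =>
    rw [card_insert_of_notMem ha]
    have := R.rk_insert_le a X
    omega

lemma rk_le_univ (X : Finset α) : R.rk X ≤ R.rk univ := R.mono (subset_univ _)

lemma Flat.rk_cl_insert {F : Finset α} {x : α} (hF : R.Flat F) (h : x ∉ F) :
    R.rk (R.cl (insert x F)) = R.rk F + 1 := by
  rw [rk_cl, hF.rk_insert h]

lemma subset_cl_insert (F : Finset α) (x : α) : F ⊆ R.cl (insert x F) :=
  (subset_insert _ _).trans (subset_cl _)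

lemma mem_cl_insert (F : Finset α) (x : α) : x ∈ R.cl (insert x F) :=
  subset_cl _ (mem_insert_self _ _)

/-- a flat covering `F` is the closure of `F` and any of its new points -/
lemma Flat.eq_cl_insert {F G : Finset α} {x : α} (hF : R.Flat F) (hG : R.Flat G) (h : F ⊆ G)
    (hr : R.rk G = R.rk F + 1) (hx : x ∈ G) (hx' : x ∉ F) : R.cl (insert x F) = G := by
  apply (cl_flat _).eq_of_subset_of_rk_le (hG.cl_subset (insert_subset hx h))
  rw [hF.rk_cl_insert hx', hr]

/-- projecting from a point outside `T` is injective on subflats of `T` -/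
lemma Flat.cl_insert_inter {F T : Finset α} {z : α} (hF : R.Flat F) (hT : R.Flat T) (h : F ⊆ T)
    (hz : z ∉ T) : R.cl (insert z F) ∩ T = F := by
  apply subset_antisymm _ (subset_inter (subset_cl_insert _ _) h)
  intro y hy
  rw [mem_inter] at hy
  by_contra hy'
  have h1 : y ∉ R.cl F := by rwa [hF]
  have h2 := exchange hy.1 h1
  exact hz (hT.cl_subset (insert_subset hy.2 h) h2)

lemma exists_notMem_of_rk_lt {F T : Finset α} (h : R.rk F < R.rk T) : ∃ x ∈ T, x ∉ F := by
  by_contra hc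
  push Not at hc
  have := R.mono (X := T) (Y := F) hc
  omega

/-- a maximal flat inside `T` containing `F` and avoiding `x` -/
lemma Flat.exists_avoid {F T : Finset α} {x : α} (hF : R.Flat F) (hT : R.Flat T) (h : F ⊆ T)
    (hx : x ∈ T) (hx' : x ∉ F) :
    ∃ G, R.Flat G ∧ F ⊆ G ∧ G ⊆ T ∧ x ∉ G ∧ R.rk G + 1 = R.rk T := by
  generalize hm : R.rk T - R.rk F = m
  induction m generalizing F with
  | zero =>
    exfalso
    have := hF.eq_of_subset_of_rk_le h (by omega)
    exact hx' (this ▸ hx)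
  | succ m ih =>
    by_cases hm0 : m = 0
    · exact ⟨F, hF, subset_rfl, h, hx', by omega⟩
    · have h1 : R.rk (R.cl (insert x F)) < R.rk T := by rw [hF.rk_cl_insert hx']; omega
      obtain ⟨y, hyT, hy⟩ := exists_notMem_of_rk_lt h1
      have hyF : y ∉ F := fun hh => hy (subset_cl_insert _ _ hh)
      have hxy : x ∉ R.cl (insert y F) := by
        intro hh
        exact hy (exchange hh (by rwa [hF]))
      obtain ⟨G, hG, hG1, hG2, hG3, hG4⟩ := ih (cl_flat (insert y F))
        (hT.cl_subset (insert_subset hyT h)) hxy (by rw [hF.rk_cl_insert hyF]; omega)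
      exact ⟨G, hG, (subset_cl_insert _ _).trans hG1, hG2, hG3, hG4⟩

/-- flats of every intermediate rank -/
lemma Flat.exists_rk {F T : Finset α} (hF : R.Flat F) (hT : R.Flat T) (h : F ⊆ T) (j : ℕ)
    (h1 : R.rk F ≤ j) (h2 : j ≤ R.rk T) : ∃ G, R.Flat G ∧ F ⊆ G ∧ G ⊆ T ∧ R.rk G = j := by
  induction j with
  | zero => exact ⟨F, hF, subset_rfl, h, by omega⟩
  | succ j ih =>
    by_cases hj : R.rk F = j + 1
    · exact ⟨F, hF, subset_rfl, h, hj⟩
    · obtain ⟨G, hG, hG1, hG2, hG3⟩ := ih (by omega) (by omega)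
      obtain ⟨y, hyT, hy⟩ := exists_notMem_of_rk_lt (R := R) (F := G) (T := T) (by omega)
      refine ⟨R.cl (insert y G), cl_flat _, hG1.trans (subset_cl_insert _ _),
        hT.cl_subset (insert_subset hyT hG2), ?_⟩
      rw [hG.rk_cl_insert hy, hG3]

variable (R)

/-- flats covering `F` and contained in `T` -/
def cov (F T : Finset α) : Finset (Finset α) :=
  univ.filter (fun G => R.Flat G ∧ F ⊆ G ∧ G ⊆ T ∧ R.rk G = R.rk F + 1)

/-- the hyperplanes -/
def hyp : Finset (Finset α) := univ.filter (fun H => R.Flat H ∧ R.rk H + 1 = R.rk univ)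

/-- number of hyperplanes containing `X` -/
def deg (X : Finset α) : ℕ := (R.hyp.filter (fun H => X ⊆ H)).card

variable {R}

lemma mem_cov {F T G : Finset α} :
    G ∈ R.cov F T ↔ R.Flat G ∧ F ⊆ G ∧ G ⊆ T ∧ R.rk G = R.rk F + 1 := by simp [cov]

lemma mem_hyp {H : Finset α} : H ∈ R.hyp ↔ R.Flat H ∧ R.rk H + 1 = R.rk univ := by simp [hyp]

lemma cl_insert_mem_cov {F T : Finset α} {x : α} (hF : R.Flat F) (hT : R.Flat T) (h : F ⊆ T)
    (hx : x ∈ T) (hx' : x ∉ F) : R.cl (insert x F) ∈ R.cov F T :=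
  mem_cov.2 ⟨cl_flat _, subset_cl_insert _ _, hT.cl_subset (insert_subset hx h),
    hF.rk_cl_insert hx'⟩

lemma sum_cov {F T : Finset α} (hF : R.Flat F) (hT : R.Flat T) (h : F ⊆ T) (f : Finset α → ℕ) :
    ∑ x ∈ T \ F, f (R.cl (insert x F)) = ∑ G ∈ R.cov F T, (G \ F).card * f G := by
  rw [← Finset.sum_fiberwise_of_maps_to (g := fun x => R.cl (insert x F)) (t := R.cov F T)]
  · apply Finset.sum_congr rfl
    intro G hG
    rw [mem_cov] at hG
    have : (T \ F).filter (fun x => R.cl (insert x F) = G) = G \ F := by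
      ext x
      simp only [mem_filter, mem_sdiff]
      constructor
      · rintro ⟨⟨h1, h2⟩, h3⟩
        exact ⟨h3 ▸ mem_cl_insert _ _, h2⟩
      · rintro ⟨h1, h2⟩
        exact ⟨⟨hG.2.2.1 h1, h2⟩, hF.eq_cl_insert hG.1 hG.2.1 hG.2.2.2 h1 h2⟩
    rw [Finset.sum_congr rfl (g := fun _ => f G), this]
    · simp
    · intro x hx
      rw [mem_filter] at hx
      rw [hx.2]
  · intro x hx
    rw [mem_sdiff] at hx
    exact cl_insert_mem_cov hF hT h hx.1 hx.2

lemma sum_cov_card {F T : Finset α} (hF : R.Flat F) (hT : R.Flat T) (h : F ⊆ T) :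
    ∑ G ∈ R.cov F T, (G \ F).card = (T \ F).card := by
  have := sum_cov hF hT h (fun _ => 1)
  simpa using this.symm

lemma deg_cl (X : Finset α) : R.deg (R.cl X) = R.deg X := by
  unfold deg
  congr 1
  ext H
  simp only [mem_filter, mem_hyp]
  constructor
  · rintro ⟨h1, h2⟩; exact ⟨h1, (subset_cl X).trans h2⟩
  · rintro ⟨h1, h2⟩; exact ⟨h1, h1.1.cl_subset h2⟩

lemma deg_anti {X Y : Finset α} (h : X ⊆ Y) : R.deg Y ≤ R.deg X := by
  unfold deg
  apply card_le_card
  intro H hH
  rw [mem_filter] at hH ⊢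
  exact ⟨hH.1, h.trans hH.2⟩

/-- double counting -/
lemma sum_deg_insert (X : Finset α) :
    ∑ x ∈ univ \ X, R.deg (insert x X) = ∑ H ∈ R.hyp.filter (fun H => X ⊆ H), (H \ X).card := by
  unfold deg
  simp only [card_eq_sum_ones]
  rw [Finset.sum_comm' (t' := R.hyp.filter (fun H => X ⊆ H)) (s' := fun H => H \ X)]
  intro x H
  simp only [mem_sdiff, mem_univ, true_and, mem_filter, insert_subset_iff]
  tauto

lemma hyp_eq_of_subset {H H' : Finset α} (hH : H ∈ R.hyp) (hH' : H' ∈ R.hyp) (h : H ⊆ H') :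
    H = H' := by
  rw [mem_hyp] at hH hH'
  exact hH.1.eq_of_subset_of_rk_le h (by omega)

lemma exists_hyp_avoid {F : Finset α} {x : α} (hF : R.Flat F) (hx : x ∉ F) :
    ∃ H ∈ R.hyp, F ⊆ H ∧ x ∉ H := by
  obtain ⟨G, hG, h1, -, h3, h4⟩ := hF.exists_avoid flat_univ (subset_univ _) (mem_univ x) hx
  exact ⟨G, mem_hyp.2 ⟨hG, h4⟩, h1, h3⟩

lemma hyp_ne_univ {H : Finset α} (hH : H ∈ R.hyp) : H ≠ univ := by
  rintro rfl
  rw [mem_hyp] at hH
  omega

/-- a set of rank `n - 1` lies in exactly one hyperplane -/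
lemma hyp_eq_cl {X H : Finset α} (hX : R.rk X + 1 = R.rk univ) (hH : H ∈ R.hyp) (h : X ⊆ H) :
    H = R.cl X := by
  rw [mem_hyp] at hH
  symm
  apply (cl_flat X).eq_of_subset_of_rk_le (hH.1.cl_subset h)
  rw [rk_cl]; omega

lemma cl_mem_hyp {X : Finset α} (hX : R.rk X + 1 = R.rk univ) : R.cl X ∈ R.hyp :=
  mem_hyp.2 ⟨cl_flat X, by rw [rk_cl]; exact hX⟩

lemma deg_eq_one {X : Finset α} (hX : R.rk X + 1 = R.rk univ) : R.deg X = 1 := by
  unfold deg
  rw [card_eq_one]
  refine ⟨R.cl X, ?_⟩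
  ext H
  simp only [mem_filter, mem_singleton]
  constructor
  · rintro ⟨h1, h2⟩; exact hyp_eq_cl hX h1 h2
  · rintro rfl; exact ⟨cl_mem_hyp hX, subset_cl X⟩

lemma deg_eq_zero {X : Finset α} (hX : R.rk univ ≤ R.rk X) : R.deg X = 0 := by
  unfold deg
  rw [card_eq_zero, filter_eq_empty_iff]
  intro H hH hX'
  rw [mem_hyp] at hH
  have := R.mono hX'
  omega

/-- strong hyperplane elimination -/
lemma strong_elim {H1 H2 : Finset α} (h1 : H1 ∈ R.hyp) (h2 : H2 ∈ R.hyp) {e f : α}
    (he1 : e ∉ H1) (he2 : e ∉ H2) (hf1 : f ∉ H1) (hf2 : f ∈ H2) :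
    ∃ H ∈ R.hyp, H1 ∩ H2 ⊆ H ∧ e ∈ H ∧ f ∉ H := by
  rw [mem_hyp] at h1 h2
  have hI : R.Flat (H1 ∩ H2) := h1.1.inter h2.1
  have hf : f ∉ R.cl (insert e (H1 ∩ H2)) := by
    intro hh
    have h3 : f ∉ R.cl (H1 ∩ H2) := by rw [hI]; intro h; exact hf1 (mem_inter.1 h).1
    have h4 := exchange hh h3
    exact he2 (h2.1.cl_subset (insert_subset hf2 inter_subset_right) h4)
  obtain ⟨H, hH, h3, h4⟩ := exists_hyp_avoid (cl_flat _) hf
  exact ⟨H, hH, (subset_cl_insert _ _).trans h3, h3 (mem_cl_insert _ _), h4⟩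

/-- for a coline the hyperplanes above it are its covers -/
lemma cov_eq_of_coline {C : Finset α} (hC : R.rk C + 2 = R.rk univ) :
    R.cov C univ = R.hyp.filter (fun H => C ⊆ H) := by
  ext H
  simp only [mem_cov, mem_filter, mem_hyp, subset_univ, true_and]
  constructor
  · rintro ⟨h1, h2, h3⟩; exact ⟨⟨h1, by omega⟩, h2⟩
  · rintro ⟨⟨h1, h3⟩, h2⟩; exact ⟨h1, h2, by omega⟩

/-- the basic inequality -/
lemma deg_ineq {G π : Finset α} {x : α} (hπ : π ∈ R.hyp) (hGπ : G ⊆ π)
    (hx : x ∉ π) (𝒞 : Finset (Finset α))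
    (h𝒞 : ∀ l ∈ 𝒞, R.Flat l ∧ G ⊆ l ∧ l ⊆ π ∧ R.rk l + 2 = R.rk univ) :
    R.deg (insert x G) + 1 + ∑ l ∈ 𝒞, (R.deg l - 2) ≤ R.deg G := by
  classical
  set A := R.hyp.filter (fun H => insert x G ⊆ H) with hA
  set B : Finset α → Finset (Finset α) :=
    fun l => R.hyp.filter (fun H => l ⊆ H ∧ x ∉ H ∧ H ≠ π) with hB
  have hBcard : ∀ l ∈ 𝒞, R.deg l - 2 ≤ (B l).card := by
    intro l hl
    obtain ⟨hl1, hl2, hl3, hl4⟩ := h𝒞 l hl
    have hxl : x ∉ l := fun h => hx (hl3 h)
    have : R.hyp.filter (fun H => l ⊆ H) ⊆ insert π (insert (R.cl (insert x l)) (B l)) := by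
      intro H hH
      rw [mem_filter] at hH
      simp only [mem_insert, hB, mem_filter]
      by_cases h1 : H = π
      · exact Or.inl h1
      · by_cases h2 : x ∈ H
        · right; left
          apply hyp_eq_cl _ hH.1 (insert_subset h2 hH.2)
          rw [hl1.rk_insert hxl]; omega
        · exact Or.inr (Or.inr ⟨hH.1, hH.2, h2, h1⟩)
    have h1 := card_le_card this
    have h2 := card_insert_le π (insert (R.cl (insert x l)) (B l))
    have h3 := card_insert_le (R.cl (insert x l)) (B l)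
    unfold deg
    omega
  have hdisj : (𝒞 : Set (Finset α)).PairwiseDisjoint B := by
    intro l hl l' hl' hne
    rw [Function.onFun, disjoint_left]
    intro H h1 h2
    simp only [hB, mem_filter] at h1 h2
    obtain ⟨hl1, hl2, hl3, hl4⟩ := h𝒞 l hl
    obtain ⟨hl1', hl2', hl3', hl4'⟩ := h𝒞 l' hl'
    have : ∃ y ∈ l', y ∉ l := by
      by_contra hc
      push Not at hc
      exact hne (hl1'.eq_of_subset_of_rk_le hc (by omega)).symm
    obtain ⟨y, hy, hy'⟩ := this
    have hr : R.rk (insert y l) + 1 = R.rk univ := by rw [hl1.rk_insert hy']; omega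
    have e1 := hyp_eq_cl hr h1.1 (insert_subset (h2.2.1 hy) h1.2.1)
    have e2 := hyp_eq_cl hr hπ (insert_subset (hl3' hy) hl3)
    exact h1.2.2.2 (e1.trans e2.symm)
  have hsub : A ∪ insert π (𝒞.biUnion B) ⊆ R.hyp.filter (fun H => G ⊆ H) := by
    intro H hH
    simp only [mem_union, mem_insert, mem_biUnion, hA, hB, mem_filter] at hH ⊢
    rcases hH with h | h | ⟨l, hl, h⟩
    · exact ⟨h.1, (subset_insert _ _).trans h.2⟩
    · exact h ▸ ⟨hπ, hGπ⟩
    · exact ⟨h.1, (h𝒞 l hl).2.1.trans h.2.1⟩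
  have hd1 : Disjoint A (insert π (𝒞.biUnion B)) := by
    rw [disjoint_left]
    intro H h1 h2
    simp only [mem_insert, mem_biUnion, hA, hB, mem_filter] at h1 h2
    have hxH : x ∈ H := h1.2 (mem_insert_self _ _)
    rcases h2 with h | ⟨l, hl, h⟩
    · exact hx (h ▸ hxH)
    · exact h.2.2.1 hxH
  have hd2 : π ∉ 𝒞.biUnion B := by
    simp only [mem_biUnion, hB, mem_filter]
    rintro ⟨l, hl, h⟩
    exact h.2.2.2 rfl
  have h1 := card_le_card hsub
  rw [card_union_of_disjoint hd1, card_insert_of_notMem hd2, card_biUnion hdisj] at h1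
  have h2 : ∑ l ∈ 𝒞, (R.deg l - 2) ≤ ∑ l ∈ 𝒞, (B l).card := sum_le_sum hBcard
  have h3 : A.card = R.deg (insert x G) := rfl
  have h4 : (R.hyp.filter (fun H => G ⊆ H)).card = R.deg G := rfl
  omega

end RkFn

end Pool.Agent.MP_337c4e_co
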