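import Pool.Agent.MP_337c4e_co.Defs
import Pool.Agent.MP_337c4e_co.RkFn

set_option linter.unusedSectionVars false
set_option linter.unusedVariables false

namespace Pool.Agent.MP_337c4e_co

open Finset

variable {α : Type} [Fintype α] [DecidableEq α]

lemma eRk_ne_top (M : Matroid α) (X : Set α) : M.eRk X ≠ ⊤ := by
  have h1 := M.eRk_le_encard X
  have h2 : X.encard < ⊤ := (Set.toFinite X).encard_lt_top
  exact (lt_of_le_of_lt h1 h2).ne

lemma coe_toNat_eRk (M : Matroid α) (X : Set α) : ((M.eRk X).toNat : ℕ∞) = M.eRk X :=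
  ENat.natCast_toNat (eRk_ne_top M X)

/-- the rank function of a matroid -/
noncomputable def rkOf (M : Matroid α) : RkFn α where
  rk X := (M.eRk (X : Set α)).toNat
  rk_empty := by simp
  rk_insert_le x X := by
    have h := M.eRk_insert_le_add_one x (X : Set α)
    rw [← coe_toNat_eRk M, ← coe_toNat_eRk M (X : Set α)] at h
    rw [coe_insert]
    exact_mod_cast h
  mono {X Y} h := by
    have h := M.eRk_mono (show (X : Set α) ⊆ Y from h)
    rw [← coe_toNat_eRk M, ← coe_toNat_eRk M (Y : Set α)] at h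
    exact_mod_cast h
  submod X Y := by
    have h := M.eRk_inter_add_eRk_union_le (X : Set α) (Y : Set α)
    rw [← coe_toNat_eRk M (_ ∩ _), ← coe_toNat_eRk M (_ ∪ _), ← coe_toNat_eRk M (X : Set α),
      ← coe_toNat_eRk M (Y : Set α)] at h
    rw [coe_inter, coe_union]
    exact_mod_cast h

lemma rkOf_rk (M : Matroid α) (X : Finset α) : (((rkOf M).rk X : ℕ) : ℕ∞) = M.eRk (X : Set α) :=
  coe_toNat_eRk M _

lemma rkOf_cl (M : Matroid α) (hE : M.E = Set.univ) (X : Finset α) :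
    (((rkOf M).cl X : Finset α) : Set α) = M.closure X := by
  ext x
  rw [mem_coe, RkFn.mem_cl]
  constructor
  · intro h
    by_contra hx
    have h1 := M.eRk_insert_eq_add_one (e := x) (X := (X : Set α)) ⟨by simp [hE], hx⟩
    rw [← coe_insert, ← rkOf_rk, ← rkOf_rk] at h1
    have h2 : (rkOf M).rk (insert x X) = (rkOf M).rk X + 1 := by exact_mod_cast h1
    omega
  · intro h
    have h1 : M.eRk (insert x (X : Set α)) = M.eRk (X : Set α) := by
      rw [← M.eRk_closure_eq, Matroid.closure_insert_eq_of_mem_closure h, M.eRk_closure_eq]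
    rw [← coe_insert, ← rkOf_rk, ← rkOf_rk] at h1
    exact_mod_cast h1

lemma rkOf_flat (M : Matroid α) (hE : M.E = Set.univ) (F : Finset α) :
    (rkOf M).Flat F ↔ M.IsFlat (F : Set α) := by
  rw [Matroid.isFlat_iff_closure_eq, ← rkOf_cl M hE, RkFn.Flat, coe_inj]

lemma rkOf_univ (M : Matroid α) : (((rkOf M).rk univ : ℕ) : ℕ∞) = M.eRank := by
  rw [rkOf_rk, coe_univ, M.eRk_univ_eq]

lemma rkOf_hyp (M : Matroid α) (hE : M.E = Set.univ) (H : Finset α) :
    H ∈ (rkOf M).hyp ↔ IsHyperplane M (H : Set α) := by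
  rw [RkFn.mem_hyp, IsHyperplane, rkOf_flat M hE, ← rkOf_rk, ← rkOf_univ]
  norm_cast

lemma ncard_hyp_filter (M : Matroid α) (hE : M.E = Set.univ) (P : Set α → Prop)
    (Q : Finset α → Prop) [DecidablePred Q] (hPQ : ∀ H : Finset α, Q H ↔ P (H : Set α)) :
    {H : Set α | IsHyperplane M H ∧ P H}.ncard = ((rkOf M).hyp.filter Q).card := by
  classical
  rw [← Set.ncard_coe_finset, ← Set.ncard_image_of_injective _ (coe_injective (α := α))]
  congr 1
  ext H
  simp only [Set.mem_ofPred_eq, Set.mem_image, mem_coe, mem_filter]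
  constructor
  · rintro ⟨h1, h2⟩
    refine ⟨H.toFinset, ⟨?_, ?_⟩, by simp⟩
    · rw [rkOf_hyp M hE]; simpa using h1
    · rw [hPQ]; simpa using h2
  · rintro ⟨H', ⟨h1, h2⟩, rfl⟩
    exact ⟨(rkOf_hyp M hE _).1 h1, (hPQ _).1 h2⟩

/-- the design conditions in terms of a rank function -/
structure IsDes (R : RkFn α) (b v r k lam : ℕ) : Prop where
  hv : Fintype.card α = v
  hb : R.hyp.card = b
  hk : ∀ H ∈ R.hyp, H.card = k
  hr : ∀ x, R.deg {x} = r
  hl : ∀ x y, x ≠ y → R.deg {x, y} = lam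

lemma isMatroidDesign_iff (M : Matroid α) (hE : M.E = Set.univ) (b v r k lam : ℕ) :
    IsMatroidDesign M b v r k lam ↔ IsDes (rkOf M) b v r k lam := by
  classical
  have e1 : {H : Set α | IsHyperplane M H}.ncard = (rkOf M).hyp.card := by
    have := ncard_hyp_filter M hE (fun _ => True) (fun _ => True) (by simp)
    simpa using this
  have e2 : ∀ x, {H : Set α | IsHyperplane M H ∧ x ∈ H}.ncard = (rkOf M).deg {x} := by
    intro x
    exact ncard_hyp_filter M hE (fun H => x ∈ H) _ (by simp)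
  have e3 : ∀ x y, {H : Set α | IsHyperplane M H ∧ x ∈ H ∧ y ∈ H}.ncard = (rkOf M).deg {x, y} := by
    intro x y
    exact ncard_hyp_filter M hE (fun H => x ∈ H ∧ y ∈ H) _ (by simp [insert_subset_iff])
  constructor
  · rintro ⟨-, h1, h2, h3, h4, h5⟩
    refine ⟨h1, e1 ▸ h2, ?_, fun x => e2 x ▸ h4 x, fun x y h => e3 x y ▸ h5 x y h⟩
    intro H hH
    have := h3 H ((rkOf_hyp M hE H).1 hH)
    simpa using this
  · rintro ⟨h1, h2, h3, h4, h5⟩
    refine ⟨hE, h1, e1 ▸ h2, ?_, fun x => e2 x ▸ h4 x, fun x y h => e3 x y ▸ h5 x y h⟩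
    intro H hH
    have := h3 H.toFinset ((rkOf_hyp M hE _).2 (by simpa using hH))
    rw [← this, Set.ncard_eq_toFinset_card']

lemma Matroidal.exists_des {b v r k lam : ℕ} (h : Matroidal b v r k lam) :
    ∃ (α : Type) (_ : Fintype α) (_ : DecidableEq α) (R : RkFn α), IsDes R b v r k lam := by
  classical
  obtain ⟨α, _, M, hM⟩ := h
  exact ⟨α, inferInstance, inferInstance, rkOf M, (isMatroidDesign_iff M hM.1 _ _ _ _ _).1 hM⟩

/-! Construction of a matroid from its hyperplanes -/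

/-- weak hyperplane elimination -/
def Elim (𝓗 : Finset (Finset α)) : Prop :=
  ∀ H1 ∈ 𝓗, ∀ H2 ∈ 𝓗, H1 ≠ H2 → ∀ x, x ∉ H1 → x ∉ H2 → ∃ H ∈ 𝓗, H1 ∩ H2 ⊆ H ∧ x ∈ H

lemma aug_of_elim {𝓗 : Finset (Finset α)} (hE : Elim 𝓗) (I J : Finset α)
    (hI : ∀ H ∈ 𝓗, ¬ Hᶜ ⊆ I) (hJ : ∀ H ∈ 𝓗, ¬ Hᶜ ⊆ J) (hIJ : I.card < J.card) :
    ∃ e ∈ J, e ∉ I ∧ ∀ H ∈ 𝓗, ¬ Hᶜ ⊆ insert e I := by
  classical
  by_contra hcon
  push Not at hcon
  let T : Finset (Finset α) :=
    univ.filter (fun K => K ⊆ I ∪ J ∧ (∀ H ∈ 𝓗, ¬ Hᶜ ⊆ K) ∧ I.card < K.card)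
  have hT : T.Nonempty := ⟨J, by simp only [T, mem_filter, mem_univ, true_and]; exact ⟨subset_union_right, hJ, hIJ⟩⟩
  obtain ⟨K, hK, hmin⟩ := T.exists_min_image (fun K => (I \ K).card) hT
  simp only [T, mem_filter, mem_univ, true_and] at hK hmin
  obtain ⟨hK1, hK2, hK3⟩ := hK
  have hKI : ∃ g ∈ K, g ∉ I := by
    by_contra hc
    push Not at hc
    have := card_le_card (show K ⊆ I from hc)
    omega
  by_cases hIK : I ⊆ K
  · obtain ⟨g, hg, hgI⟩ := hKI
    have hgJ : g ∈ J := by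
      have := hK1 hg
      rw [mem_union] at this
      tauto
    obtain ⟨H, hH, hH'⟩ := hcon g hgJ hgI
    exact hK2 H hH (hH'.trans (insert_subset hg hIK))
  · obtain ⟨e, heI, heK⟩ := not_subset.1 hIK
    have key : ∀ f ∈ K, f ∉ I → ∃ H ∈ 𝓗, Hᶜ ⊆ insert e (K.erase f) := by
      intro f hf hfI
      by_contra hc
      push Not at hc
      have h1 := hmin (insert e (K.erase f)) ⟨?_, hc, ?_⟩
      · have h2 : I \ insert e (K.erase f) = (I \ K).erase e := by
          ext z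
          simp only [mem_sdiff, mem_insert, mem_erase, not_or, not_and]
          constructor
          · rintro ⟨h1, h2, h3⟩
            exact ⟨h2, h1, h3 (fun h => hfI (h ▸ h1))⟩
          · rintro ⟨h1, h2, h3⟩
            exact ⟨h2, h1, fun _ => h3⟩
        rw [h2, card_erase_of_mem (mem_sdiff.2 ⟨heI, heK⟩)] at h1
        have h3 : 0 < (I \ K).card := card_pos.2 ⟨e, mem_sdiff.2 ⟨heI, heK⟩⟩
        omega
      · exact insert_subset (mem_union_left _ heI) ((erase_subset _ _).trans hK1)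
      · rw [card_insert_of_notMem (fun h => heK (mem_of_mem_erase h)), card_erase_of_mem hf]
        have : 0 < K.card := card_pos.2 ⟨f, hf⟩
        omega
    have keye : ∀ f, ∀ H ∈ 𝓗, Hᶜ ⊆ insert e (K.erase f) → e ∉ H := by
      intro f H hH hsub heH
      apply hK2 H hH
      intro z hz
      have := hsub hz
      rw [mem_insert] at this
      rcases this with h | h
      · rw [h, mem_compl] at hz; exact absurd heH hz
      · exact mem_of_mem_erase h
    obtain ⟨g, hg, hgI⟩ := hKI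
    obtain ⟨Hg, hHg, hHg'⟩ := key g hg hgI
    obtain ⟨h, hh1, hh2⟩ := not_subset.1 (hI Hg hHg)
    have hhK : h ∈ K := by
      have := hHg' hh1
      rw [mem_insert] at this
      rcases this with h' | h'
      · exact absurd (h' ▸ heI) hh2
      · exact mem_of_mem_erase h'
    obtain ⟨Hh, hHh, hHh'⟩ := key h hhK hh2
    have hne : Hg ≠ Hh := by
      intro heq
      have := hHh' (heq ▸ hh1)
      rw [mem_insert] at this
      rcases this with h' | h'
      · exact hh2 (h' ▸ heI)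
      · exact notMem_erase _ _ h'
    obtain ⟨H, hH, hH1, hH2⟩ := hE Hg hHg Hh hHh hne e (keye g Hg hHg hHg') (keye h Hh hHh hHh')
    apply hK2 H hH
    intro z hz
    rw [mem_compl] at hz
    have hze : z ≠ e := fun h' => hz (h' ▸ hH2)
    have : z ∉ Hg ∨ z ∉ Hh := by
      by_contra hc
      push Not at hc
      exact hz (hH1 (mem_inter.2 hc))
    rcases this with h' | h'
    · have := hHg' (mem_compl.2 h')
      rw [mem_insert] at this
      exact mem_of_mem_erase (this.resolve_left hze)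
    · have := hHh' (mem_compl.2 h')
      rw [mem_insert] at this
      exact mem_of_mem_erase (this.resolve_left hze)

/-- the matroid whose circuits are the complements of the members of the family -/
noncomputable def coMat (𝓗 : Finset (Finset α)) (hE : Elim 𝓗) (hU : univ ∉ 𝓗) : Matroid α :=
  (IndepMatroid.ofFinset Set.univ (fun I : Finset α => ∀ H ∈ 𝓗, ¬ Hᶜ ⊆ I)
    (by
      intro H hH h
      rw [subset_empty, compl_eq_empty_iff] at h
      exact hU (h ▸ hH))
    (by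
      intro I J hJ hIJ H hH h
      exact hJ H hH (h.trans hIJ))
    (by
      intro I J hI hJ hIJ
      exact aug_of_elim hE I J hI hJ hIJ)
    (by intro I _; exact Set.subset_univ _)).matroid

lemma coMat_E (𝓗 : Finset (Finset α)) (hE : Elim 𝓗) (hU : univ ∉ 𝓗) :
    (coMat 𝓗 hE hU).E = Set.univ := rfl

lemma coMat_indep (𝓗 : Finset (Finset α)) (hE : Elim 𝓗) (hU : univ ∉ 𝓗) (I : Finset α) :
    (coMat 𝓗 hE hU).Indep (I : Set α) ↔ ∀ H ∈ 𝓗, ¬ Hᶜ ⊆ I := by
  simp [coMat]

lemma dual_coMat_rk (𝓗 : Finset (Finset α)) (hE : Elim 𝓗) (hU : univ ∉ 𝓗) (X : Finset α) :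
    (rkOf (coMat 𝓗 hE hU)✶).rk X < (rkOf (coMat 𝓗 hE hU)✶).rk univ ↔ ∃ H ∈ 𝓗, X ⊆ H := by
  set M := (coMat 𝓗 hE hU)✶ with hM
  have hME : M.E = Set.univ := rfl
  have : M.Finite := ⟨Set.toFinite _⟩
  have h1 : M.Spanning (X : Set α) ↔ M.eRank ≤ M.eRk X :=
    Matroid.spanning_iff_eRk_le (by simp [hME])
  have h2 : M.Spanning (X : Set α) ↔ M.Coindep (M.E \ X) :=
    Matroid.spanning_iff_compl_coindep (by simp [hME])
  have h3 : M.E \ (X : Set α) = ((Xᶜ : Finset α) : Set α) := by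
    rw [hME]; ext z; simp
  rw [h3, Matroid.Coindep, hM, Matroid.dual_dual, coMat_indep] at h2
  rw [← hM, h1, ← rkOf_rk, ← rkOf_univ] at h2
  have h4 : (rkOf M).rk univ ≤ (rkOf M).rk X ↔ ∀ H ∈ 𝓗, ¬ Hᶜ ⊆ Xᶜ := by
    rw [← h2]; norm_cast
  rw [← not_le, h4]
  simp only [compl_subset_compl]
  push Not
  rfl

lemma dual_coMat_hyp (𝓗 : Finset (Finset α)) (hE : Elim 𝓗) (hU : univ ∉ 𝓗)
    (hanti : ∀ H ∈ 𝓗, ∀ H' ∈ 𝓗, H ⊆ H' → H = H') :
    (rkOf (coMat 𝓗 hE hU)✶).hyp = 𝓗 := by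
  have key := dual_coMat_rk 𝓗 hE hU
  set R := rkOf (coMat 𝓗 hE hU)✶
  ext H
  rw [RkFn.mem_hyp]
  constructor
  · rintro ⟨h1, h2⟩
    obtain ⟨H', hH', h3⟩ := (key H).1 (by omega)
    have h4 := (key H').2 ⟨H', hH', subset_rfl⟩
    have := h1.eq_of_subset_of_rk_le h3 (by omega)
    exact this ▸ hH'
  · intro hH
    have h1 := (key H).2 ⟨H, hH, subset_rfl⟩
    have h2 : ∀ x, x ∉ H → R.rk (insert x H) = R.rk univ := by
      intro x hx
      apply le_antisymm (RkFn.rk_le_univ _)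
      rw [← not_lt, key]
      rintro ⟨H', hH', h3⟩
      have := hanti H hH H' hH' ((subset_insert _ _).trans h3)
      exact hx (this ▸ h3 (mem_insert_self _ _))
    have h3 : ∃ x, x ∉ H := by
      by_contra hc
      push Not at hc
      exact hU ((eq_univ_iff_forall.2 hc) ▸ hH)
    obtain ⟨x, hx⟩ := h3
    have h4 := R.rk_insert_le x H
    have h5 := h2 x hx
    refine ⟨?_, by omega⟩
    rw [RkFn.flat_iff]
    intro y hy
    rw [h2 y hy]; omega

/-- double counting for a uniform family -/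
lemma fam_double_count (𝓗 : Finset (Finset α)) (k : ℕ) (hk : ∀ H ∈ 𝓗, H.card = k)
    (X : Finset α) :
    ∑ x ∈ univ \ X, (𝓗.filter (fun H => insert x X ⊆ H)).card =
      (𝓗.filter (fun H => X ⊆ H)).card * (k - X.card) := by
  have : ∑ x ∈ univ \ X, (𝓗.filter (fun H => insert x X ⊆ H)).card =
      ∑ H ∈ 𝓗.filter (fun H => X ⊆ H), (H \ X).card := by
    simp only [card_eq_sum_ones]
    rw [Finset.sum_comm' (t' := 𝓗.filter (fun H => X ⊆ H)) (s' := fun H => H \ X)]
    intro x H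
    simp only [mem_sdiff, mem_univ, true_and, mem_filter, insert_subset_iff]
    tauto
  rw [this, Finset.sum_congr rfl (g := fun _ => k - X.card)]
  · simp
  · intro H hH
    rw [mem_filter] at hH
    rw [card_sdiff_of_subset hH.2, hk H hH.1]

/-- step down from `j + 1` to `j` in a design -/
lemma fam_step_down (𝓗 : Finset (Finset α)) (v k j c c' : ℕ) (hv : Fintype.card α = v)
    (hk : ∀ H ∈ 𝓗, H.card = k)
    (hjk : j < k) (hc : c' * (k - j) = c * (v - j))
    (h : ∀ X : Finset α, X.card = j + 1 → (𝓗.filter (fun H => X ⊆ H)).card = c) :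
    ∀ X : Finset α, X.card = j → (𝓗.filter (fun H => X ⊆ H)).card = c' := by
  intro X hX
  have h1 := fam_double_count 𝓗 k hk X
  rw [Finset.sum_congr rfl (g := fun _ => c)] at h1
  · rw [sum_const, card_sdiff_of_subset (subset_univ _), card_univ, hv, hX, smul_eq_mul] at h1
    have h2 : 0 < k - j := by omega
    apply Nat.eq_of_mul_eq_mul_right h2
    rw [← h1, hc, mul_comm]
  · intro x hx
    apply h
    rw [card_insert_of_notMem (mem_sdiff.1 hx).2, hX]

theorem matroidal_of_family (𝓗 : Finset (Finset α)) (b v r k lam : ℕ)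
    (hv : Fintype.card α = v) (hkv : k < v) (h2k : 2 ≤ k) (hk : ∀ H ∈ 𝓗, H.card = k)
    (hE : Elim 𝓗)
    (hl : ∀ X : Finset α, X.card = 2 → (𝓗.filter (fun H => X ⊆ H)).card = lam)
    (hr : r * (k - 1) = lam * (v - 1)) (hb : b * k = r * v) : Matroidal b v r k lam := by
  have hU : univ ∉ 𝓗 := by
    intro h
    have := hk _ h
    rw [card_univ] at this
    omega
  have hanti : ∀ H ∈ 𝓗, ∀ H' ∈ 𝓗, H ⊆ H' → H = H' := by
    intro H hH H' hH' h
    exact eq_of_subset_of_card_le h (by rw [hk H hH, hk H' hH'])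
  have hhyp := dual_coMat_hyp 𝓗 hE hU hanti
  have h1 := fam_step_down 𝓗 v k 1 lam r hv hk (by omega) hr hl
  have h0 := fam_step_down 𝓗 v k 0 r b hv hk (by omega) (by simpa using hb) h1
  refine ⟨α, inferInstance, (coMat 𝓗 hE hU)✶, ?_⟩
  rw [isMatroidDesign_iff _ rfl]
  refine ⟨hv, ?_, ?_, ?_, ?_⟩
  · rw [hhyp]; simpa using h0 ∅ rfl
  · rw [hhyp]; exact hk
  · intro x; unfold RkFn.deg; rw [hhyp]; exact h1 _ (by simp)
  · intro x y hxy; unfold RkFn.deg; rw [hhyp]; exact hl _ (card_pair hxy)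

end Pool.Agent.MP_337c4e_co
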