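import Pool.Agent.MP_337c4e_co.Bridge

set_option linter.unusedSectionVars false
set_option linter.unusedVariables false

namespace Pool.Agent.MP_337c4e_co

open Finset

section Steiner

variable {α : Type} [Fintype α] [DecidableEq α]

/-- a packing with the right number of blocks is a Steiner system -/
lemma steiner_cover (𝓗 : Finset (Finset α)) (t k v : ℕ) (hv : Fintype.card α = v)
    (hk : ∀ H ∈ 𝓗, H.card = k)
    (hint : ∀ H ∈ 𝓗, ∀ H' ∈ 𝓗, H ≠ H' → (H ∩ H').card < t)
    (hcount : 𝓗.card * k.choose t = v.choose t) :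
    ∀ T : Finset α, T.card = t → (𝓗.filter (fun H => T ⊆ H)).card = 1 := by
  have h1 : 𝓗.biUnion (fun H => powersetCard t H) = powersetCard t univ := by
    apply eq_of_subset_of_card_le
    · intro T hT
      obtain ⟨H, -, h⟩ := mem_biUnion.1 hT
      rw [mem_powersetCard] at h ⊢
      exact ⟨subset_univ _, h.2⟩
    · rw [card_biUnion, card_powersetCard, card_univ, hv, ← hcount,
        sum_congr rfl (g := fun _ => k.choose t)]
      · simp
      · intro H hH; rw [card_powersetCard, hk H hH]
      · intro H hH H' hH' hne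
        rw [Function.onFun, disjoint_left]
        intro T h1 h2
        rw [mem_powersetCard] at h1 h2
        have h3 := card_le_card (subset_inter h1.1 h2.1)
        have h4 := hint H hH H' hH' hne
        omega
  intro T hT
  have h2 : T ∈ 𝓗.biUnion (fun H => powersetCard t H) := by
    rw [h1, mem_powersetCard]; exact ⟨subset_univ _, hT⟩
  obtain ⟨H, hH, h3⟩ := mem_biUnion.1 h2
  rw [mem_powersetCard] at h3
  rw [card_eq_one]
  refine ⟨H, eq_singleton_iff_unique_mem.2 ⟨mem_filter.2 ⟨hH, h3.1⟩, ?_⟩⟩
  intro H' hH'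
  rw [mem_filter] at hH'
  by_contra hne
  have h4 := card_le_card (subset_inter hH'.2 h3.1)
  have h5 := hint H' hH'.1 H hH hne
  omega

lemma steiner_elim (𝓗 : Finset (Finset α)) (t : ℕ) (ht : t ≤ Fintype.card α)
    (hint : ∀ H ∈ 𝓗, ∀ H' ∈ 𝓗, H ≠ H' → (H ∩ H').card < t)
    (hcov : ∀ T : Finset α, T.card = t → (𝓗.filter (fun H => T ⊆ H)).card = 1) : Elim 𝓗 := by
  intro H1 h1 H2 h2 hne x hx1 hx2
  have h3 : (insert x (H1 ∩ H2)).card ≤ t := by
    have := card_insert_le x (H1 ∩ H2)
    have := hint H1 h1 H2 h2 hne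
    omega
  obtain ⟨T, hT1, -, hT2⟩ := exists_subsuperset_card_eq (subset_univ _) h3 ht
  obtain ⟨H, hH⟩ := card_pos.1 (by rw [hcov T hT2]; omega :
    0 < (𝓗.filter (fun H => T ⊆ H)).card)
  rw [mem_filter] at hH
  exact ⟨H, hH.1, (subset_insert _ _).trans (hT1.trans hH.2), hH.2 (hT1 (mem_insert_self _ _))⟩

end Steiner

/-- the finset encoded by a bit mask -/
def ofMask (v m : ℕ) : Finset (Fin v) := univ.filter (fun i => m.testBit i.val)

lemma mem_ofMask {v m : ℕ} {i : Fin v} : i ∈ ofMask v m ↔ m.testBit i.val = true := by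
  simp [ofMask]

lemma ofMask_land (v a b : ℕ) : ofMask v (a &&& b) = ofMask v a ∩ ofMask v b := by
  ext i; simp [mem_ofMask]

lemma ofMask_zero (v : ℕ) : ofMask v 0 = ∅ := by
  ext i; simp [mem_ofMask]

lemma lowbit_unique (i j m : ℕ) (h1 : m.testBit i = true) (h2 : (m - 1).testBit i = false)
    (h3 : m.testBit j = true) (h4 : (m - 1).testBit j = false) : i = j := by
  have key0 : ∀ j m : ℕ, m.testBit 0 = true → m.testBit (j + 1) = true →
      (m - 1).testBit (j + 1) = true := by
    intro j m h1 h2
    rw [Nat.testBit_zero, decide_eq_true_eq] at h1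
    rw [Nat.testBit_succ] at h2 ⊢
    have : (m - 1) / 2 = m / 2 := by omega
    rwa [this]
  induction i generalizing j m with
  | zero =>
    cases j with
    | zero => rfl
    | succ j => rw [key0 j m h1 h3] at h4; exact absurd h4 (by simp)
  | succ i ih =>
    cases j with
    | zero => rw [key0 i m h3 h1] at h2; exact absurd h2 (by simp)
    | succ j =>
      rw [Nat.testBit_succ] at h1 h2 h3 h4
      by_cases hm : m % 2 = 1
      · have : (m - 1) / 2 = m / 2 := by omega
        rw [this, h1] at h2
        exact absurd h2 (by simp)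
      · have : (m - 1) / 2 = m / 2 - 1 := by omega
        rw [this] at h2 h4
        rw [ih j (m / 2) h1 h2 h3 h4]

lemma card_ofMask_le (v m : ℕ) : (ofMask v m).card ≤ (ofMask v (m &&& (m - 1))).card + 1 := by
  have h1 := card_sdiff_add_card_inter (ofMask v m) (ofMask v (m - 1))
  have h2 : (ofMask v m \ ofMask v (m - 1)).card ≤ 1 := by
    rw [card_le_one]
    intro i hi j hj
    simp only [mem_sdiff, mem_ofMask, Bool.not_eq_true] at hi hj
    exact Fin.ext (lowbit_unique _ _ m hi.1 hi.2 hj.1 hj.2)
  rw [ofMask_land]; omega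

/-- at most `t` bits are set -/
noncomputable def fewBits (t : ℕ) : ℕ → Bool :=
  Nat.rec (fun m => Nat.beq m 0) (fun _ ih m => ih (Nat.land m (Nat.sub m 1))) t

lemma card_le_of_fewBits (v t m : ℕ) (h : fewBits t m = true) : (ofMask v m).card ≤ t := by
  induction t generalizing m with
  | zero =>
    have h' : Nat.beq m 0 = true := h
    rw [Nat.eq_of_beq_eq_true h', ofMask_zero]; simp
  | succ t ih =>
    have := ih (m &&& (m - 1)) h
    have := card_ofMask_le v m
    omega

/-- number of bits below `n` -/
def pc : ℕ → ℕ → ℕ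
  | 0, _ => 0
  | n + 1, m => pc n m + (m.testBit n).toNat

lemma card_ofMask (v m : ℕ) : (ofMask v m).card = pc v m := by
  unfold ofMask
  rw [card_filter, Fin.sum_univ_eq_sum_range (fun i => if m.testBit i = true then 1 else 0)]
  induction v with
  | zero => rfl
  | succ n ih =>
    rw [sum_range_succ, ih, pc]
    cases m.testBit n <;> rfl

/-- a Boolean test on all members of a list -/
noncomputable def allL (P : ℕ → Bool) (l : List ℕ) : Bool :=
  List.rec true (fun a _ ih => Bool.rec false ih (P a)) l

lemma forall_of_allL (P : ℕ → Bool) (L : List ℕ) (h : allL P L = true) : ∀ a ∈ L, P a = true := by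
  induction L with
  | nil => simp
  | cons a l ih =>
    have h' : (Bool.rec false (allL P l) (P a) : Bool) = true := h
    cases hP : P a with
    | false => rw [hP] at h'; exact absurd h' (by simp)
    | true =>
      rw [hP] at h'
      intro c hc
      rcases List.mem_cons.1 hc with rfl | hc
      · exact hP
      · exact ih h' c hc

/-- a Boolean test of a pairwise condition -/
noncomputable def allPairs (P : ℕ → ℕ → Bool) (l : List ℕ) : Bool :=
  List.rec true (fun a l ih => Bool.rec false ih (allL (P a) l)) l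

lemma pairwise_of_allPairs (P : ℕ → ℕ → Bool) (L : List ℕ) (h : allPairs P L = true) :
    L.Pairwise (fun a b => P a b = true) := by
  induction L with
  | nil => exact List.Pairwise.nil
  | cons a l ih =>
    have h' : (Bool.rec false (allPairs P l) (allL (P a) l) : Bool) = true := h
    cases hP : allL (P a) l with
    | false => rw [hP] at h'; exact absurd h' (by simp)
    | true =>
      rw [hP] at h'
      exact List.Pairwise.cons (forall_of_allL _ _ hP) (ih h')

/-- the family encoded by a list of masks -/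
def famOf (v : ℕ) (L : List ℕ) : Finset (Finset (Fin v)) := (L.map (ofMask v)).toFinset

lemma mem_famOf {v : ℕ} {L : List ℕ} {H : Finset (Fin v)} :
    H ∈ famOf v L ↔ ∃ m ∈ L, ofMask v m = H := by simp [famOf]

lemma famOf_pair {v : ℕ} {L : List ℕ} (Q : Finset (Fin v) → Finset (Fin v) → Prop)
    (hs : ∀ a b, Q a b → Q b a) (h : L.Pairwise (fun a b => Q (ofMask v a) (ofMask v b))) :
    ∀ H ∈ famOf v L, ∀ H' ∈ famOf v L, H ≠ H' → Q H H' := by
  intro H hH H' hH' hne
  have h1 : (L.map (ofMask v)).Pairwise Q := List.pairwise_map.2 h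
  have : Std.Symm Q := ⟨hs⟩
  exact h1.forall (List.mem_toFinset.1 hH) (List.mem_toFinset.1 hH') hne

/-- the test for a Steiner system `S(t + 1, k, v)` -/
noncomputable def steinerTest (v t k : ℕ) (L : List ℕ) : Bool :=
  L.all (fun m => pc v m == k) && allPairs (fun a b => fewBits t (Nat.land a b)) L &&
    (L.length * k.choose (t + 1) == v.choose (t + 1))

lemma steiner_of_test (v t k : ℕ) (L : List ℕ) (htk : t < k) (h : steinerTest v t k L = true) :
    (∀ H ∈ famOf v L, H.card = k) ∧
    (∀ H ∈ famOf v L, ∀ H' ∈ famOf v L, H ≠ H' → (H ∩ H').card < t + 1) ∧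
    (∀ T : Finset (Fin v), T.card = t + 1 → ((famOf v L).filter (fun H => T ⊆ H)).card = 1) := by
  simp only [steinerTest, Bool.and_eq_true, List.all_eq_true, beq_iff_eq] at h
  obtain ⟨⟨h1, h2⟩, h3⟩ := h
  have h4 : L.Pairwise (fun a b => (ofMask v a ∩ ofMask v b).card < t + 1) := by
    refine (pairwise_of_allPairs _ _ h2).imp ?_
    intro a b hab
    rw [← ofMask_land]
    exact Nat.lt_succ_of_le (card_le_of_fewBits v t _ hab)
  have hk : ∀ H ∈ famOf v L, H.card = k := by
    intro H hH
    obtain ⟨m, hm, rfl⟩ := mem_famOf.1 hH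
    rw [card_ofMask, h1 m hm]
  have hint := famOf_pair (fun H H' => (H ∩ H').card < t + 1)
    (fun a b h => by rwa [inter_comm]) h4
  refine ⟨hk, hint, steiner_cover _ (t + 1) k v (Fintype.card_fin v) hk hint ?_⟩
  rw [← h3, famOf, List.toFinset_card_of_nodup, List.length_map]
  rw [List.Nodup, List.pairwise_map]
  refine List.Pairwise.imp_of_mem ?_ h4
  intro a b ha hb hab heq
  rw [← heq, inter_self, card_ofMask, h1 a ha] at hab
  omega

theorem matroidal_of_steiner3 (b v r k lam : ℕ) (L : List ℕ) (h : steinerTest v 2 k L = true)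
    (h3 : 3 ≤ k) (hkv : k < v) (hl : lam * (k - 2) = 1 * (v - 2))
    (hr : r * (k - 1) = lam * (v - 1)) (hb : b * k = r * v) : Matroidal b v r k lam := by
  obtain ⟨h1, h2, h4⟩ := steiner_of_test v 2 k L (by omega) h
  exact matroidal_of_family (famOf v L) b v r k lam (Fintype.card_fin v) hkv (by omega) h1
    (steiner_elim _ 3 (by rw [Fintype.card_fin]; omega) h2 h4)
    (fam_step_down _ v k 2 1 lam (Fintype.card_fin v) h1 (by omega) hl h4) hr hb

theorem matroidal_of_steiner4 (b v r k lam c : ℕ) (L : List ℕ) (h : steinerTest v 3 k L = true)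
    (h3 : 4 ≤ k) (hkv : k < v) (hc : c * (k - 3) = 1 * (v - 3)) (hl : lam * (k - 2) = c * (v - 2))
    (hr : r * (k - 1) = lam * (v - 1)) (hb : b * k = r * v) : Matroidal b v r k lam := by
  obtain ⟨h1, h2, h4⟩ := steiner_of_test v 3 k L (by omega) h
  exact matroidal_of_family (famOf v L) b v r k lam (Fintype.card_fin v) hkv (by omega) h1
    (steiner_elim _ 4 (by rw [Fintype.card_fin]; omega) h2 h4)
    (fam_step_down _ v k 2 c lam (Fintype.card_fin v) h1 (by omega) hl
      (fam_step_down _ v k 3 1 c (Fintype.card_fin v) h1 (by omega) hc h4)) hr hb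

/-- union of the members of `L` containing `I` -/
noncomputable def unionOver (I : ℕ) (l : List ℕ) : ℕ :=
  List.rec 0 (fun a _ ih => Bool.rec ih (Nat.lor a ih) (Nat.beq (Nat.land I a) I)) l

lemma exists_of_unionOver (I : ℕ) (L : List ℕ) (i : ℕ) (h : (unionOver I L).testBit i = true) :
    ∃ a ∈ L, I &&& a = I ∧ a.testBit i = true := by
  induction L with
  | nil => simp [unionOver] at h
  | cons a l ih =>
    have h' : Nat.testBit (Bool.rec (unionOver I l) (a ||| unionOver I l)
      (Nat.beq (I &&& a) I)) i = true := h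
    cases h1 : Nat.beq (I &&& a) I with
    | true =>
      rw [h1] at h'
      simp only at h'
      rw [Nat.testBit_or, Bool.or_eq_true] at h'
      rcases h' with h | h
      · exact ⟨a, List.mem_cons_self, Nat.eq_of_beq_eq_true h1, h⟩
      · obtain ⟨c, hc, h2⟩ := ih h
        exact ⟨c, List.mem_cons_of_mem _ hc, h2⟩
    | false =>
      rw [h1] at h'
      obtain ⟨c, hc, h2⟩ := ih h'
      exact ⟨c, List.mem_cons_of_mem _ hc, h2⟩

/-- number of members of `L` containing `I` -/
noncomputable def countOver (I : ℕ) (l : List ℕ) : ℕ :=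
  List.rec 0 (fun a _ ih => Bool.rec ih (Nat.succ ih) (Nat.beq (Nat.land I a) I)) l

lemma countOver_eq (I : ℕ) (L : List ℕ) : countOver I L = L.countP (fun a => I &&& a == I) := by
  induction L with
  | nil => rfl
  | cons a l ih =>
    have h' : countOver I (a :: l) = Bool.rec (countOver I l) (countOver I l + 1)
      (Nat.beq (I &&& a) I) := rfl
    rw [h', List.countP_cons, ih]
    cases h1 : Nat.beq (I &&& a) I with
    | true => simp [Nat.eq_of_beq_eq_true h1]
    | false => simp [Nat.ne_of_beq_eq_false h1]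

lemma pair_land (i j m : ℕ) : ((2 ^ i ||| 2 ^ j) &&& m = 2 ^ i ||| 2 ^ j) ↔
    (m.testBit i = true ∧ m.testBit j = true) := by
  constructor
  · intro h
    have h1 := congrArg (fun x => Nat.testBit x i) h
    have h2 := congrArg (fun x => Nat.testBit x j) h
    simp [Nat.testBit_two_pow] at h1 h2
    exact ⟨h1, h2⟩
  · rintro ⟨h1, h2⟩
    apply Nat.eq_of_testBit_eq
    intro x
    simp only [Nat.testBit_and, Nat.testBit_or, Nat.testBit_two_pow]
    by_cases e1 : i = x
    · subst e1; simp [h1]
    · by_cases e2 : j = x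
      · subst e2; simp [h2]
      · simp [e1, e2]

/-- strict application -/
noncomputable def strict (f : ℕ → Bool) (x : ℕ) : Bool :=
  Nat.rec (f 0) (fun n _ => f (Nat.succ n)) x

lemma strict_eq (f : ℕ → Bool) (x : ℕ) : strict f x = f x := by cases x <;> rfl

/-- the general test for a matroid design -/
noncomputable def designTest (v k lam : ℕ) (L : List ℕ) : Bool :=
  L.all (fun m => pc v m == k) &&
    allPairs (fun a b => strict (fun I => Bool.rec false (Nat.beq (unionOver I L) (2 ^ v - 1))
      (fewBits (k - 1) I)) (Nat.land a b)) L &&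
    (List.range v).all (fun i => (List.range i).all (fun j =>
      strict (fun I => Nat.beq (countOver I L) lam) (2 ^ i ||| 2 ^ j)))

theorem matroidal_of_test (b v r k lam : ℕ) (L : List ℕ) (h : designTest v k lam L = true)
    (h2k : 2 ≤ k) (hkv : k < v)
    (hr : r * (k - 1) = lam * (v - 1)) (hb : b * k = r * v) : Matroidal b v r k lam := by
  simp only [designTest, Bool.and_eq_true, List.all_eq_true, beq_iff_eq, List.mem_range] at h
  obtain ⟨⟨h1, h2⟩, h3⟩ := h
  have h2' : L.Pairwise (fun a b => fewBits (k - 1) (a &&& b) = true ∧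
      unionOver (a &&& b) L = 2 ^ v - 1) := by
    refine (pairwise_of_allPairs _ _ h2).imp ?_
    intro a b hab
    rw [strict_eq] at hab
    have hab' : (Bool.rec false (Nat.beq (unionOver (a &&& b) L) (2 ^ v - 1))
      (fewBits (k - 1) (a &&& b)) : Bool) = true := hab
    cases h4 : fewBits (k - 1) (a &&& b) with
    | false => rw [h4] at hab'; exact absurd hab' (by simp)
    | true => rw [h4] at hab'; exact ⟨rfl, Nat.eq_of_beq_eq_true hab'⟩
  have hk : ∀ H ∈ famOf v L, H.card = k := by
    intro H hH
    obtain ⟨m, hm, rfl⟩ := mem_famOf.1 hH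
    rw [card_ofMask, h1 m hm]
  have hnd : (L.map (ofMask v)).Nodup := by
    rw [List.Nodup, List.pairwise_map]
    refine List.Pairwise.imp_of_mem ?_ h2'
    intro a b ha hb hab heq
    have := card_le_of_fewBits v _ _ hab.1
    rw [ofMask_land, ← heq, inter_self, card_ofMask, h1 a ha] at this
    omega
  refine matroidal_of_family (famOf v L) b v r k lam (Fintype.card_fin v) hkv h2k hk ?_ ?_ hr hb
  · have := famOf_pair (L := L)
      (fun H H' : Finset (Fin v) => ∀ x, ∃ H3 ∈ famOf v L, H ∩ H' ⊆ H3 ∧ x ∈ H3)
      (fun a b h => by rwa [inter_comm]) (h2'.imp (by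
        intro a b hab x
        obtain ⟨c, hc, h4, h5⟩ := exists_of_unionOver (a &&& b) L x.val (by
          rw [hab.2, Nat.testBit_two_pow_sub_one]; simp)
        refine ⟨ofMask v c, mem_famOf.2 ⟨c, hc, rfl⟩, ?_, mem_ofMask.2 h5⟩
        rw [← ofMask_land, ← h4, ofMask_land]
        exact inter_subset_right))
    intro H1 m1 H2 m2 hne x _ _
    exact this H1 m1 H2 m2 hne x
  · have key : ∀ i j : Fin v, j < i → ((famOf v L).filter (fun H => {i, j} ⊆ H)).card = lam := by
      intro i j hij
      have e : (famOf v L).filter (fun H => {i, j} ⊆ H) =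
          ((L.map (ofMask v)).filter (fun H => decide ({i, j} ⊆ H))).toFinset := by
        rw [List.toFinset_filter, famOf]; simp
      have h4 := h3 i.val i.2 j.val hij
      rw [strict_eq] at h4
      have h5 := Nat.eq_of_beq_eq_true h4
      rw [← h5, countOver_eq, e,
        List.toFinset_card_of_nodup (hnd.filter _), ← List.countP_eq_length_filter,
        List.countP_map]
      congr 1
      ext m
      rw [Bool.eq_iff_iff]
      simp [insert_subset_iff, mem_ofMask, pair_land]
    intro X hX
    obtain ⟨i, j, hij, rfl⟩ := card_eq_two.1 hX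
    rcases lt_or_gt_of_ne hij with h | h
    · rw [pair_comm]; exact key j i h
    · exact key i j h

end Pool.Agent.MP_337c4e_co
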