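import Pool.Agent.MP_337c4e_co.Basic

section

/-! Independent sets, bases and towers of flats for a rank function. -/

set_option linter.unusedSectionVars false
set_option linter.unusedVariables false

namespace Pool.Agent.MP_337c4e_co

open Finset

namespace RkFn

variable {α : Type} [Fintype α] [DecidableEq α] {R : RkFn α}

/-- independent sets -/
def Ind (R : RkFn α) (X : Finset α) : Prop := R.rk X = X.card

/-- `submod` for `X` and `Y \ X`, `rk_le_card`. -/
lemma Ind.subset {X Y : Finset α} (h : R.Ind Y) (hX : X ⊆ Y) : R.Ind X := by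
  have h1 := R.submod X (Y \ X)
  have h2 := rk_le_card (R := R) (Y \ X)
  have h3 := rk_le_card (R := R) X
  have h4 := card_sdiff_add_card_eq_card hX
  rw [union_sdiff_of_subset hX] at h1
  unfold Ind at h ⊢
  omega

/-- Take `Y` of maximal size; then `F ⊆ cl Y`. -/
lemma exists_ind_between {X F : Finset α} (hX : R.Ind X) (hXF : X ⊆ F) :
    ∃ Y, X ⊆ Y ∧ Y ⊆ F ∧ R.Ind Y ∧ Y.card = R.rk F := by
  classical
  obtain ⟨Y, hY, hmax⟩ := exists_max_image
    (univ.filter (fun Y : Finset α => X ⊆ Y ∧ Y ⊆ F ∧ R.Ind Y)) card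
    ⟨X, mem_filter.2 ⟨mem_univ _, subset_rfl, hXF, hX⟩⟩
  obtain ⟨-, h1, h2, h3⟩ := mem_filter.1 hY
  refine ⟨Y, h1, h2, h3, ?_⟩
  have h4 : F ⊆ R.cl Y := by
    intro x hx
    by_contra hx'
    have hxY : x ∉ Y := fun h => hx' (subset_cl _ h)
    have h5 : R.Ind (insert x Y) := by
      unfold Ind at h3 ⊢
      rw [rk_insert_of_notMem_cl hx', card_insert_of_notMem hxY, h3]
    have h6 := hmax (insert x Y)
      (mem_filter.2 ⟨mem_univ _, h1.trans (subset_insert _ _), insert_subset hx h2, h5⟩)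
    rw [card_insert_of_notMem hxY] at h6
    omega
  have h5 := R.mono h4
  have h6 := R.mono h2
  rw [rk_cl] at h5
  unfold Ind at h3
  omega

lemma Ind.rk_sdiff {Y T : Finset α} (hY : R.Ind Y) (hT : T ⊆ Y) :
    R.rk (Y \ T) + T.card = Y.card := by
  have h1 : R.rk (Y \ T) = (Y \ T).card := hY.subset sdiff_subset
  rw [h1, card_sdiff_add_card_eq_card hT]

lemma Ind.notMem_cl {Y T : Finset α} {y : α} (hY : R.Ind Y) (hy : y ∈ Y) (hT : y ∈ T) :
    y ∉ R.cl (Y \ T) := by
  intro h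
  have h1 : R.rk (Y \ T) = (Y \ T).card := hY.subset sdiff_subset
  have h2 : R.rk (insert y (Y \ T)) = (insert y (Y \ T)).card :=
    hY.subset (insert_subset hy sdiff_subset)
  rw [mem_cl, h1, h2, card_insert_of_notMem (fun h' => (mem_sdiff.1 h').2 hT)] at h
  omega

/-- `cl A ∩ cl B = cl (A ∩ B)` for subsets of an independent set (`submod` for the closures). -/
lemma Ind.cl_inter {Y A B : Finset α} (hY : R.Ind Y) (hA : A ⊆ Y) (hB : B ⊆ Y) :
    R.cl A ∩ R.cl B = R.cl (A ∩ B) := by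
  symm
  apply (cl_flat _).eq_of_subset_of_rk_le
    (subset_inter (cl_mono inter_subset_left) (cl_mono inter_subset_right))
  have h1 := R.submod (R.cl A) (R.cl B)
  have h2 : R.rk (A ∪ B) ≤ R.rk (R.cl A ∪ R.cl B) :=
    R.mono (union_subset_union (subset_cl _) (subset_cl _))
  have h3 : R.rk A = A.card := hY.subset hA
  have h4 : R.rk B = B.card := hY.subset hB
  have h5 : R.rk (A ∪ B) = (A ∪ B).card := hY.subset (union_subset hA hB)
  have h6 : R.rk (A ∩ B) = (A ∩ B).card := hY.subset (inter_subset_left.trans hA)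
  have h7 := card_union_add_card_inter A B
  rw [rk_cl, rk_cl] at h1
  rw [rk_cl]
  omega

/-- Induction on `T` with `Ind.cl_inter`. -/
lemma Ind.mem_cl_sdiff {Y T : Finset α} {x : α} (hY : R.Ind Y) (hT : T ⊆ Y) (hx : x ∈ R.cl Y)
    (h : ∀ y ∈ T, x ∈ R.cl (Y.erase y)) : x ∈ R.cl (Y \ T) := by
  induction T using Finset.induction_on with
  | empty => simpa using hx
  | insert a T ha ih =>
    have h1 := ih ((subset_insert _ _).trans hT) (fun y hy => h y (mem_insert_of_mem hy))
    have h2 := h a (mem_insert_self _ _)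
    have h3 : Y \ insert a T = (Y \ T) ∩ Y.erase a := by
      ext z
      simp only [mem_sdiff, mem_insert, mem_inter, mem_erase]
      tauto
    rw [h3, ← hY.cl_inter sdiff_subset (erase_subset _ _)]
    exact mem_inter.2 ⟨h1, h2⟩

/-- A basis of `T` adapted to a flat `F ⊆ T`. -/
lemma Flat.exists_basis {F T : Finset α} (hF : R.Flat F) (hT : R.Flat T) (h : F ⊆ T) :
    ∃ Y S, R.Ind Y ∧ R.cl Y = T ∧ Y.card = R.rk T ∧ S ⊆ Y ∧ S.card + R.rk F = R.rk T ∧
      R.cl (Y \ S) = F := by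
  have h0 : R.Ind ∅ := by
    unfold Ind
    rw [R.rk_empty, card_empty]
  obtain ⟨X, -, hXF, hX, cX⟩ := exists_ind_between h0 (empty_subset F)
  obtain ⟨Y, hXY, hYT, hY, cY⟩ := exists_ind_between hX (hXF.trans h)
  have h1 := card_sdiff_add_card_eq_card hXY
  refine ⟨Y, Y \ X, hY, ?_, cY, sdiff_subset, by omega, ?_⟩
  · apply (cl_flat _).eq_of_subset_of_rk_le (hT.cl_subset hYT)
    rw [rk_cl, hY, cY]
  · rw [Finset.sdiff_sdiff_eq_self hXY]
    apply (cl_flat _).eq_of_subset_of_rk_le (hF.cl_subset hXF)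
    rw [rk_cl, hX, cX]

/-- A point `x` of `cl Y \ Y` misses some `cl (Y.erase y)` (`mem_cl_sdiff` with `T = Y`), and so
does `y`. -/
lemma Ind.free (h0 : R.Flat ∅) {Y : Finset α} (hY : R.Ind Y)
    (h : ∀ y ∈ Y, (R.cl (Y.erase y)).card + 1 = (R.cl Y).card) : R.cl Y = Y := by
  apply subset_antisymm _ (subset_cl _)
  intro x hx
  by_contra hxY
  obtain ⟨y, hy, hxy⟩ : ∃ y ∈ Y, x ∉ R.cl (Y.erase y) := by
    by_contra hc
    push Not at hc
    have h1 := hY.mem_cl_sdiff subset_rfl hx hc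
    rw [Finset.sdiff_self, h0] at h1
    exact notMem_empty _ h1
  have h1 : y ∉ R.cl (Y.erase y) := by
    rw [← sdiff_singleton_eq_erase]
    exact hY.notMem_cl hy (mem_singleton_self _)
  have hne : x ≠ y := fun e => hxY (e ▸ hy)
  have h2 : insert x (insert y (R.cl (Y.erase y))) ⊆ R.cl Y :=
    insert_subset hx (insert_subset (subset_cl _ hy) (cl_mono (erase_subset _ _)))
  have h3 := card_le_card h2
  rw [card_insert_of_notMem (by simp [hne, hxy]), card_insert_of_notMem h1] at h3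
  have h4 := h y hy
  omega

/-- `Flat.exists_basis` and `Ind.free`. -/
lemma free_of_card (h0 : R.Flat ∅) {j s : ℕ} (hn : j ≤ R.rk univ)
    (hB : ∀ G, R.Flat G → R.rk G = j → G.card = s)
    (hC : ∀ F, R.Flat F → R.rk F + 1 = j → F.card + 1 = s) : s = j := by
  obtain ⟨G, hG, -, -, rG⟩ := h0.exists_rk flat_univ (subset_univ _) j
    (by rw [R.rk_empty]; omega) hn
  obtain ⟨Y, S, hY, cY, nY, -⟩ := h0.exists_basis hG (empty_subset G)
  have h1 := hB G hG rG
  have h2 : R.cl Y = Y := by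
    refine hY.free h0 fun y hy => ?_
    rw [cY, h1]
    apply hC _ (cl_flat _)
    have h3 : R.rk (Y.erase y) = (Y.erase y).card := hY.subset (erase_subset _ _)
    rw [rk_cl, h3, card_erase_add_one hy, nY, rG]
  rw [← h1, ← cY, h2, nY, rG]

/-- If the flats of rank `j` have `j` points then sets with `j + 1` points are independent
(otherwise `Flat.exists_rk` gives a flat of rank `j` containing the set). -/
lemma ind_of_free {j : ℕ} (hn : j ≤ R.rk univ) (hB : ∀ G, R.Flat G → R.rk G = j → G.card = j)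
    {X : Finset α} (hX : X.card ≤ j + 1) : R.Ind X := by
  by_contra hc
  have h1 := rk_le_card (R := R) X
  unfold Ind at hc
  obtain ⟨G, hG, h2, -, rG⟩ := (cl_flat (R := R) X).exists_rk flat_univ (subset_univ _) j
    (by rw [rk_cl]; omega) hn
  have h3 : R.Ind G := by
    unfold Ind
    rw [hB G hG rG, rG]
  exact hc (h3.subset ((subset_cl X).trans h2))

/-- Induction on `(L' \ L).card`: take a flat `F` of rank `j - 1` between `L ∩ L'` and `L`
(`Flat.exists_rk`), a point `x ∈ L' \ L`, and pass to `cl (insert x F)`. -/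
lemma flat_connected (P : Finset α → Prop) {j : ℕ}
    (hP : ∀ F L L', R.Flat F → R.rk F + 1 = j → L ∈ R.cov F univ → L' ∈ R.cov F univ → P L → P L')
    {L L' : Finset α} (hL : R.Flat L) (hr : R.rk L = j) (hL' : R.Flat L') (hr' : R.rk L' = j)
    (h : P L) : P L' := by
  generalize hm : (L' \ L).card = m
  induction m using Nat.strong_induction_on generalizing L with
  | _ m ih =>
    by_cases hsub : L' ⊆ L
    · rwa [hL'.eq_of_subset_of_rk_le hsub (by omega)]
    · obtain ⟨x, hx, hxL⟩ := not_subset.1 hsub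
      have h1 : R.rk (L ∩ L') < j := by
        by_contra hc
        have h2 := (hL.inter hL').eq_of_subset_of_rk_le inter_subset_right (by omega)
        rw [← h2] at hx
        exact hxL (mem_inter.1 hx).1
      obtain ⟨F, hF, h2, h3, rF⟩ := (hL.inter hL').exists_rk hL inter_subset_left (j - 1)
        (by omega) (by omega)
      have hxF : x ∉ F := fun h => hxL (h3 h)
      have h4 := cl_insert_mem_cov hF flat_univ (subset_univ _) (mem_univ x) hxF
      have h5 : L ∈ R.cov F univ := mem_cov.2 ⟨hL, h3, subset_univ _, by omega⟩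
      have h6 := hP F L _ hF (by omega) h5 h4 h
      refine ih (L' \ R.cl (insert x F)).card ?_ (cl_flat _) ?_ h6 rfl
      · rw [← hm]
        apply card_lt_card
        refine ⟨fun z hz => ?_, fun hz => ?_⟩
        · rw [mem_sdiff] at hz ⊢
          exact ⟨hz.1, fun hzL => hz.2 (subset_cl_insert _ _ (h2 (mem_inter.2 ⟨hzL, hz.1⟩)))⟩
        · exact (mem_sdiff.1 (hz (mem_sdiff.2 ⟨hx, hxL⟩))).2 (mem_cl_insert _ _)
      · rw [hF.rk_cl_insert hxF]
        omega

/-- Two different covers of a flat meet in the flat. -/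
lemma cov_inter {F T T' L L' : Finset α} (hF : R.Flat F) (hL : L ∈ R.cov F T)
    (hL' : L' ∈ R.cov F T') (hne : L ≠ L') : L ∩ L' = F := by
  rw [mem_cov] at hL hL'
  apply subset_antisymm _ (subset_inter hL.2.1 hL'.2.1)
  intro x hx
  by_contra hxF
  rw [mem_inter] at hx
  exact hne ((hF.eq_cl_insert hL.1 hL.2.1 hL.2.2.2 hx.1 hxF).symm.trans
    (hF.eq_cl_insert hL'.1 hL'.2.1 hL'.2.2.2 hx.2 hxF))

/-- Two different covers of a flat of corank three lie in a hyperplane. -/
lemma exists_hyp_cov {F L L' : Finset α} (hF : R.Flat F) (hr : R.rk F + 3 = R.rk univ)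
    (hL : L ∈ R.cov F univ) (hL' : L' ∈ R.cov F univ) : ∃ H ∈ R.hyp, L ⊆ H ∧ L' ⊆ H := by
  rw [mem_cov] at hL hL'
  obtain ⟨x, hx, hxF⟩ := exists_notMem_of_rk_lt (R := R) (F := F) (T := L') (by omega)
  have h1 := R.rk_insert_le x L
  obtain ⟨H, hH, h2, -, rH⟩ := (cl_flat (R := R) (insert x L)).exists_rk flat_univ
    (subset_univ _) (R.rk univ - 1) (by rw [rk_cl]; omega) (by omega)
  refine ⟨H, mem_hyp.2 ⟨hH, by omega⟩, (subset_cl_insert _ _).trans h2, ?_⟩
  rw [← hF.eq_cl_insert hL'.1 hL'.2.1 hL'.2.2.2 hx hxF]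
  exact (cl_mono (insert_subset_insert _ hL.2.1)).trans h2

/-- Projection from a point of `L` outside `K`. -/
lemma base_proj {F K L : Finset α} (hF : R.Flat F) (hr : R.rk F + 3 = R.rk univ)
    (hK : K ∈ R.hyp) (hFK : F ⊆ K) (hL : L ∈ R.cov F univ) (hLK : ¬ L ⊆ K) :
    ∃ z, z ∉ K ∧ (∀ G ∈ R.cov F K, R.cl (insert z G) ∈ R.hyp.filter (fun H => L ⊆ H)) ∧
      ∀ G ∈ R.cov F K, R.cl (insert z G) ∩ K = G := by
  obtain ⟨z, hz, hzK⟩ := not_subset.1 hLK
  rw [mem_cov] at hL
  refine ⟨z, hzK, fun G hG => ?_, fun G hG => ?_⟩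
  · rw [mem_cov] at hG
    have hzG : z ∉ G := fun h => hzK (hG.2.2.1 h)
    refine mem_filter.2 ⟨cl_mem_hyp ?_, ?_⟩
    · rw [hG.1.rk_insert hzG]
      omega
    · rw [← hF.eq_cl_insert hL.1 hL.2.1 hL.2.2.2 hz (fun h => hzK (hFK h))]
      exact cl_mono (insert_subset_insert _ hG.2.1)
  · rw [mem_cov] at hG
    exact hG.1.cl_insert_inter (mem_hyp.1 hK).1 hG.2.2.1 hzK

/-- Take `z ∈ L \ K`; the map `G ↦ cl (insert z G)` is injective on `cov F K`
(`Flat.cl_insert_inter`) with values among the hyperplanes containing `L`. -/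
lemma cov_le_deg {F K L : Finset α} (hF : R.Flat F) (hr : R.rk F + 3 = R.rk univ)
    (hK : K ∈ R.hyp) (hFK : F ⊆ K) (hL : L ∈ R.cov F univ) (hLK : ¬ L ⊆ K) :
    (R.cov F K).card ≤ R.deg L := by
  obtain ⟨z, -, h1, h2⟩ := base_proj hF hr hK hFK hL hLK
  refine card_le_card_of_injOn (fun G => R.cl (insert z G)) (fun G hG => ?_) fun G hG G' hG' e => ?_
  · exact mem_coe.2 (h1 G (mem_coe.1 hG))
  · have e' : R.cl (insert z G) = R.cl (insert z G') := e
    rw [← h2 G (mem_coe.1 hG), ← h2 G' (mem_coe.1 hG'), e']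

/-- As `cov_le_deg`; the hyperplane `H` is not a value. -/
lemma cov_lt_deg {F K L H : Finset α} (hF : R.Flat F) (hr : R.rk F + 3 = R.rk univ)
    (hK : K ∈ R.hyp) (hFK : F ⊆ K) (hL : L ∈ R.cov F univ) (hLK : ¬ L ⊆ K) (hH : H ∈ R.hyp)
    (hLH : L ⊆ H) (hHK : H ∩ K = F) : (R.cov F K).card < R.deg L := by
  obtain ⟨z, -, h1, h2⟩ := base_proj hF hr hK hFK hL hLK
  have hm : H ∈ R.hyp.filter (fun H => L ⊆ H) := mem_filter.2 ⟨hH, hLH⟩
  have h3 : (R.cov F K).card ≤ ((R.hyp.filter (fun H => L ⊆ H)).erase H).card := by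
    refine card_le_card_of_injOn (fun G => R.cl (insert z G)) (fun G hG => ?_)
      fun G hG G' hG' e => ?_
    · refine mem_coe.2 (mem_erase.2 ⟨fun e => ?_, h1 G (mem_coe.1 hG)⟩)
      have e' : R.cl (insert z G) = H := e
      have h4 := h2 G (mem_coe.1 hG)
      rw [e', hHK] at h4
      have h5 := (mem_cov.1 (mem_coe.1 hG)).2.2.2
      rw [← h4] at h5
      omega
    · have e' : R.cl (insert z G) = R.cl (insert z G') := e
      rw [← h2 G (mem_coe.1 hG), ← h2 G' (mem_coe.1 hG'), e']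
  have h4 := card_erase_add_one hm
  unfold deg
  omega

/-- `sum_cov_card` when all covers inside `T` have the same size. -/
lemma cov_card_mul {F T : Finset α} {w : ℕ} (hF : R.Flat F) (hT : R.Flat T) (h : F ⊆ T)
    (hw : ∀ G ∈ R.cov F T, G.card = F.card + w) : (R.cov F T).card * w + F.card = T.card := by
  have h1 := sum_cov_card hF hT h
  rw [sum_congr rfl (g := fun _ => w), sum_const, smul_eq_mul] at h1
  · rw [h1, card_sdiff_add_card_eq_card h]
  · intro G hG
    have h2 := card_sdiff_add_card_eq_card (mem_cov.1 hG).2.1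
    have h3 := hw G hG
    omega

/-- `cov_card_mul` in a flat of rank `j + 1` containing `F`. -/
lemma weight_dvd {j s q : ℕ} (hn : j + 1 ≤ R.rk univ)
    (hA : ∀ G, R.Flat G → R.rk G = j + 1 → G.card = s + q)
    (hB : ∀ G, R.Flat G → R.rk G = j → G.card = s) {F : Finset α} (hF : R.Flat F)
    (hr : R.rk F + 1 = j) : F.card < s ∧ s - F.card ∣ q := by
  obtain ⟨T, hT, hFT, -, rT⟩ := hF.exists_rk flat_univ (subset_univ _) (j + 1) (by omega) hn
  obtain ⟨G, hG, hFG, -, rG⟩ := hF.exists_rk flat_univ (subset_univ _) j (by omega) (by omega)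
  have h1 : F.card < s := by
    rw [← hB G hG rG]
    refine card_lt_card ⟨hFG, fun h => ?_⟩
    have := R.mono h
    omega
  refine ⟨h1, ?_⟩
  have h2 := cov_card_mul (w := s - F.card) hF hT hFT (fun G' hG' => by
    rw [mem_cov] at hG'
    rw [hB G' hG'.1 (by omega)]
    omega)
  rw [hA T hT rT] at h2
  have h3 : (R.cov F T).card * (s - F.card) = (s - F.card) + q := by omega
  exact (Nat.dvd_add_right dvd_rfl).1 (h3 ▸ Dvd.intro_left _ rfl)

end RkFn

end Pool.Agent.MP_337c4e_co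

end

section

/-! Two consecutive levels of flats of constant size. -/

set_option linter.unusedSectionVars false
set_option linter.unusedVariables false

namespace Pool.Agent.MP_337c4e_co

open Finset

namespace RkFn

variable {α : Type} [Fintype α] [DecidableEq α] {R : RkFn α}

/-- Put `a = |F \ G|`, `a' = |F' \ G|`, so `a = a' + q - w > w`.  For `z ∉ F` the flat
`Fz = cl (insert z G)` meets `F` in `G` and lies in `cl (insert z F)`, so `|Fz \ G| ≤ w`, hence
`|Fz| + q = s`.  Take a flat `H` of rank `j + 1` containing `G` and missing a point of `F \ G`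
(`Flat.exists_avoid` inside a flat of rank `j + 2`), so `H ∩ F = G`.  Take `z1 ∈ H \ G`,
`z2 ∈ H \ Fz1`, `L1 = cl (insert z2 Fz1)`, `W = H \ L1` (`q` points), `z3 ∈ W`.  Both
`cl (insert z3 Fz1)` and `cl (insert z3 Fz2)` contain `W` (count), they are different covers of
`Fz3`, so `W ⊆ Fz3 \ G` and `q ≤ w`. -/
lemma tower_mix {j s q w : ℕ} (hn : j + 2 ≤ R.rk univ) (hw0 : 1 ≤ w) (hw : 2 * w ≤ q)
    (hA : ∀ G, R.Flat G → R.rk G = j + 1 → G.card = s + q)
    (hB : ∀ G, R.Flat G → R.rk G = j → G.card = s)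
    (hC : ∀ F, R.Flat F → R.rk F + 1 = j → F.card + w = s ∨ F.card + q = s)
    {G F F' : Finset α} (hG : R.Flat G) (hr : R.rk G + 2 = j) (hF : F ∈ R.cov G univ)
    (hF' : F' ∈ R.cov G univ) (h1 : F.card + w = s) (h2 : F'.card + q = s) : False := by
  obtain ⟨hFf, hGF, -, hFr⟩ := mem_cov.1 hF
  obtain ⟨hF'f, hGF', -, hF'r⟩ := mem_cov.1 hF'
  have hlt : G.card < F'.card := by
    obtain ⟨x, hx, hx'⟩ := exists_notMem_of_rk_lt (R := R) (F := G) (T := F') (by omega)
    exact card_lt_card ⟨hGF', fun h => hx' (h hx)⟩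
  -- the covers of `G` other than `F` are small
  have key : ∀ z, z ∉ F → (R.cl (insert z G)).card + q = s ∧
      (R.cl (insert z G) \ G).card ≤ w := by
    intro z hz
    have hzG : z ∉ G := fun h => hz (hGF h)
    have e1 : R.cl (insert z G) ∩ F = G := hG.cl_insert_inter hFf hGF hz
    have e2 : (R.cl (insert z F)).card = s :=
      hB _ (cl_flat _) (by rw [hFf.rk_cl_insert hz]; omega)
    have e3 : R.cl (insert z G) \ G ⊆ R.cl (insert z F) \ F := by
      intro y hy
      rw [mem_sdiff] at hy ⊢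
      refine ⟨cl_mono (insert_subset_insert _ hGF) hy.1, fun h => hy.2 ?_⟩
      rw [← e1]; exact mem_inter.2 ⟨hy.1, h⟩
    have e4 := card_le_card e3
    have e5 := card_sdiff_add_card_eq_card (subset_cl_insert (R := R) F z)
    have e6 := card_sdiff_add_card_eq_card (subset_cl_insert (R := R) G z)
    rcases hC _ (cl_flat (insert z G)) (by rw [hG.rk_cl_insert hzG]; omega) with h | h
    · omega
    · exact ⟨h, by omega⟩
  obtain ⟨x, hxF, hxG⟩ := exists_notMem_of_rk_lt (R := R) (F := G) (T := F) (by omega)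
  obtain ⟨T, hT, hFT, -, hTr⟩ := hFf.exists_rk flat_univ (subset_univ _) (j + 2) (by omega) hn
  obtain ⟨H, hH, hGH, -, hxH, hHr⟩ := hG.exists_avoid hT (hGF.trans hFT) (hFT hxF) hxG
  have hHc : H.card = s + q := hA H hH (by omega)
  have hHF : ∀ z ∈ H, z ∉ G → z ∉ F := by
    intro z hz hzG hzF
    have e := hG.eq_cl_insert hFf hGF hFr hzF hzG
    have : F ⊆ H := e ▸ hH.cl_subset (insert_subset hz hGH)
    exact hxH (this hxF)
  obtain ⟨z1, hz1H, hz1⟩ := exists_notMem_of_rk_lt (R := R) (F := G) (T := H) (by omega)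
  obtain ⟨F1, hF1⟩ : ∃ F1, F1 = R.cl (insert z1 G) := ⟨_, rfl⟩
  have hF1f : R.Flat F1 := hF1 ▸ cl_flat _
  have hF1r : R.rk F1 + 1 = j := by rw [hF1, hG.rk_cl_insert hz1]; omega
  have hF1H : F1 ⊆ H := hF1 ▸ hH.cl_subset (insert_subset hz1H hGH)
  have hGF1 : G ⊆ F1 := hF1 ▸ subset_cl_insert _ _
  have hF1c : F1.card + q = s := hF1 ▸ (key z1 (hHF z1 hz1H hz1)).1
  obtain ⟨z2, hz2H, hz2⟩ := exists_notMem_of_rk_lt (R := R) (F := F1) (T := H) (by omega)
  have hz2G : z2 ∉ G := fun h => hz2 (hGF1 h)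
  obtain ⟨F2, hF2⟩ : ∃ F2, F2 = R.cl (insert z2 G) := ⟨_, rfl⟩
  have hF2f : R.Flat F2 := hF2 ▸ cl_flat _
  have hF2r : R.rk F2 + 1 = j := by rw [hF2, hG.rk_cl_insert hz2G]; omega
  have hGF2 : G ⊆ F2 := hF2 ▸ subset_cl_insert _ _
  have hz2F2 : z2 ∈ F2 := hF2 ▸ mem_cl_insert _ _
  have hF2c : F2.card + q = s := hF2 ▸ (key z2 (hHF z2 hz2H hz2G)).1
  obtain ⟨L, hL⟩ : ∃ L, L = R.cl (insert z2 F1) := ⟨_, rfl⟩
  have hLf : R.Flat L := hL ▸ cl_flat _
  have hLr : R.rk L = j := by rw [hL, hF1f.rk_cl_insert hz2]; omega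
  have hLH : L ⊆ H := hL ▸ hH.cl_subset (insert_subset hz2H hF1H)
  have hF1L : F1 ⊆ L := hL ▸ subset_cl_insert _ _
  have hz2L : z2 ∈ L := hL ▸ mem_cl_insert _ _
  have hGL : G ⊆ L := hGF1.trans hF1L
  have hF2L : F2 ⊆ L := hF2 ▸ hLf.cl_subset (insert_subset hz2L hGL)
  have hLc : L.card = s := hB L hLf hLr
  have hW : (H \ L).card = q := by
    have := card_sdiff_add_card_eq_card hLH
    omega
  obtain ⟨z3, hz3H, hz3⟩ := exists_notMem_of_rk_lt (R := R) (F := L) (T := H) (by omega)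
  have hz3G : z3 ∉ G := fun h => hz3 (hGL h)
  have main : ∀ E, R.Flat E → R.rk E + 1 = j → G ⊆ E → E ⊆ L → E.card + q = s →
      R.cl (insert z3 E) ∩ L = E ∧ H \ L ⊆ R.cl (insert z3 E) ∧
        R.cl (insert z3 E) ∈ R.cov (R.cl (insert z3 G)) univ := by
    intro E hE hEr hGE hEL hEc
    have hz3E : z3 ∉ E := fun h => hz3 (hEL h)
    have e1 : R.cl (insert z3 E) ∩ L = E := hE.cl_insert_inter hLf hEL hz3
    have e2 : R.rk (R.cl (insert z3 E)) = j := by rw [hE.rk_cl_insert hz3E]; omega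
    have e3 : (R.cl (insert z3 E)).card = s := hB _ (cl_flat _) e2
    have e4 : R.cl (insert z3 E) ⊆ H := hH.cl_subset (insert_subset hz3H (hEL.trans hLH))
    have e5 := card_sdiff_add_card_inter (R.cl (insert z3 E)) L
    rw [e1] at e5
    have e6 : R.cl (insert z3 E) \ L = H \ L :=
      eq_of_subset_of_card_le (sdiff_subset_sdiff e4 subset_rfl) (by omega)
    refine ⟨e1, e6 ▸ sdiff_subset, mem_cov.2 ⟨cl_flat _, cl_mono (insert_subset_insert _ hGE),
      subset_univ _, ?_⟩⟩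
    rw [e2, hG.rk_cl_insert hz3G]; omega
  obtain ⟨a1, b1, c1⟩ := main F1 hF1f hF1r hGF1 hF1L hF1c
  obtain ⟨a2, b2, c2⟩ := main F2 hF2f hF2r hGF2 hF2L hF2c
  have hne : R.cl (insert z3 F1) ≠ R.cl (insert z3 F2) := by
    intro h
    rw [h, a2] at a1
    exact hz2 (a1 ▸ hz2F2)
  have e := cov_inter (cl_flat _) c1 c2 hne
  have hsub : H \ L ⊆ R.cl (insert z3 G) \ G := by
    intro y hy
    refine mem_sdiff.2 ⟨?_, fun h => (mem_sdiff.1 hy).2 (hGL h)⟩
    rw [← e]; exact mem_inter.2 ⟨b1 hy, b2 hy⟩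
  have e7 := card_le_card hsub
  have e8 := (key z3 (hHF z3 hz3H hz3G)).2
  omega

/-- By `flat_connected` and `tower_mix` all flats of rank `j - 1` have the same size.  Suppose it
is `s - q`.  Take a flat `H` of rank `j + 1` with basis `Y`, `y1 ∈ Y` and a point `x ≠ y1` of
`H \ cl (Y.erase y1)` (`q ≥ 2` points).  For `y ∈ Y`, `y ≠ y1`, the flats `cl (Y.erase y1)` and
`cl (Y.erase y)` meet in `cl (Y \ {y1, y})` of size `s - q`, so they cover `H`; thus
`x ∈ cl (Y \ Y.erase y1) = {y1}` (`Ind.mem_cl_sdiff`). -/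
lemma tower (h1 : ∀ x, R.Flat {x}) {j s q w : ℕ} (hj : 1 ≤ j) (hn : j + 2 ≤ R.rk univ)
    (hw0 : 1 ≤ w) (hw : 2 * w ≤ q)
    (hA : ∀ G, R.Flat G → R.rk G = j + 1 → G.card = s + q)
    (hB : ∀ G, R.Flat G → R.rk G = j → G.card = s)
    (hC : ∀ F, R.Flat F → R.rk F + 1 = j → F.card + w = s ∨ F.card + q = s)
    {F : Finset α} (hF : R.Flat F) (hr : R.rk F + 1 = j) : F.card + w = s := by
  rcases hC F hF hr with h | hq
  · exact h
  exfalso
  have hall : ∀ L, R.Flat L → R.rk L + 1 = j → L.card + q = s := by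
    intro L hL hLr
    refine flat_connected (R := R) (fun L => L.card + q = s) (j := j - 1) ?_ hF (by omega) hL
      (by omega) hq
    intro G L1 L2 hG hGr h1' h2' hP
    obtain ⟨h2f, -, -, h2r⟩ := mem_cov.1 h2'
    rcases hC L2 h2f (by omega) with h | h
    · exact (tower_mix hn hw0 hw hA hB hC hG (by omega) h2' h1' h hP).elim
    · exact h
  obtain ⟨H, hH, -, -, hHr⟩ := hF.exists_rk flat_univ (subset_univ _) (j + 1) (by omega)
    (by omega)
  have hHc : H.card = s + q := hA H hH hHr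
  obtain ⟨Y, -, hYH, hY, hYc⟩ := exists_ind_between (R := R) (X := ∅) (F := H)
    (by simp [Ind, R.rk_empty]) (empty_subset _)
  have hcl : R.cl Y = H := by
    apply (cl_flat Y).eq_of_subset_of_rk_le (hH.cl_subset hYH)
    rw [rk_cl, hY, hYc]
  have hsubH : ∀ A, A ⊆ Y → R.cl A ⊆ H := fun A hA' => hH.cl_subset (hA'.trans hYH)
  have hrk : ∀ A, A ⊆ Y → R.rk (R.cl A) = A.card := fun A hA' => by
    rw [rk_cl]; exact hY.subset hA'
  have hers : ∀ y ∈ Y, (R.cl (Y.erase y)).card = s := by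
    intro y hy
    apply hB _ (cl_flat _)
    rw [hrk _ (erase_subset _ _), card_erase_of_mem hy]; omega
  obtain ⟨y1, hy1⟩ : Y.Nonempty := card_pos.1 (by omega)
  have hW : 1 < (H \ R.cl (Y.erase y1)).card := by
    have := card_sdiff_add_card_eq_card (hsubH _ (erase_subset y1 Y))
    have := hers y1 hy1
    omega
  obtain ⟨x, hx, hxy⟩ := exists_mem_ne hW y1
  rw [mem_sdiff] at hx
  have hx' : x ∈ R.cl (Y \ Y.erase y1) := by
    apply hY.mem_cl_sdiff (erase_subset _ _) (hcl ▸ hx.1)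
    intro y hy
    have hyY : y ∈ Y := mem_of_mem_erase hy
    have e1 := hY.cl_inter (erase_subset y1 Y) (erase_subset y Y)
    have e2 : Y.erase y1 ∩ Y.erase y = (Y.erase y1).erase y := by
      ext t; simp only [mem_inter, mem_erase]; tauto
    have e3 : (R.cl (Y.erase y1 ∩ Y.erase y)).card + q = s := by
      apply hall _ (cl_flat _)
      rw [hrk _ (inter_subset_left.trans (erase_subset _ _)), e2, card_erase_of_mem hy,
        card_erase_of_mem hy1]
      omega
    have e4 := card_union_add_card_inter (R.cl (Y.erase y1)) (R.cl (Y.erase y))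
    rw [e1, hers y1 hy1, hers y hyY] at e4
    have e5 : R.cl (Y.erase y1) ∪ R.cl (Y.erase y) = H :=
      eq_of_subset_of_card_le
        (union_subset (hsubH _ (erase_subset _ _)) (hsubH _ (erase_subset _ _))) (by omega)
    have e6 : x ∈ R.cl (Y.erase y1) ∪ R.cl (Y.erase y) := e5 ▸ hx.1
    exact (mem_union.1 e6).resolve_left hx.2
  have e7 : Y \ Y.erase y1 = {y1} := sdiff_erase_self hy1
  rw [e7, h1 y1] at hx'
  exact hxy (mem_singleton.1 hx')

/-- `weight_dvd`, `tower` with `w = 1`, `free_of_card`. -/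
lemma tower_prime (h0 : R.Flat ∅) (h1 : ∀ x, R.Flat {x}) {j s q : ℕ} (hj : 1 ≤ j)
    (hn : j + 2 ≤ R.rk univ) (hq : q.Prime)
    (hA : ∀ G, R.Flat G → R.rk G = j + 1 → G.card = s + q)
    (hB : ∀ G, R.Flat G → R.rk G = j → G.card = s) : s = j := by
  have hC : ∀ F, R.Flat F → R.rk F + 1 = j → F.card + 1 = s ∨ F.card + q = s := by
    intro F hF hr
    obtain ⟨a, b⟩ := weight_dvd (by omega) hA hB hF hr
    rcases (Nat.dvd_prime hq).1 b with h | h
    · left; omega
    · right; omega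
  have h2 := hq.two_le
  exact free_of_card h0 (by omega) hB
    (fun F hF hr => tower h1 hj hn le_rfl (by omega) hA hB hC hF hr)

end RkFn

end Pool.Agent.MP_337c4e_co

end

section

/-! Colines of a matroid design; `c = v - k`. -/

set_option linter.unusedSectionVars false
set_option linter.unusedVariables false

namespace Pool.Agent.MP_337c4e_co

open Finset RkFn

namespace IsDes

variable {α : Type} [Fintype α] [DecidableEq α] {R : RkFn α} {b v r k lam c : ℕ}

lemma three_le_rank (h : IsDes R b v r k lam) (hb : v < b) (hl : 1 ≤ lam) : 3 ≤ R.rk univ := by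
  obtain ⟨x, y, hxy⟩ := h.exists_pair hb
  have h1 := h.rk_pair hb hl hxy
  have h2 := h.hl x y hxy
  by_contra hc
  rw [deg_eq_zero (by omega)] at h2
  omega

lemma rank_le (h : IsDes R b v r k lam) (hb : v < b) : R.rk univ ≤ k + 1 := by
  obtain ⟨H, hH⟩ : R.hyp.Nonempty := card_pos.1 (by rw [h.hb]; omega)
  have h1 := rk_le_card (R := R) H
  have h2 := (mem_hyp.1 hH).2
  rw [h.hk H hH] at h1
  omega

/-- Every `k`-set is independent (`ind_of_free`) and a flat, so `hyp = powersetCard k univ`. -/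
lemma complete_of_rank (h : IsDes R b v r k lam) (hb : v < b) (hn : R.rk univ = k + 1) :
    b = v.choose k := by
  have hI : ∀ X : Finset α, X.card ≤ k + 1 → R.rk X = X.card := fun X hX =>
    ind_of_free (j := k) (by omega) (fun G hG hr => h.hk G (mem_hyp.2 ⟨hG, by omega⟩)) hX
  have e : R.hyp = powersetCard k univ := by
    ext X
    rw [mem_powersetCard]
    refine ⟨fun hX => ⟨subset_univ _, h.hk X hX⟩, fun hX => ?_⟩
    have h1 := hI X (by omega)
    refine mem_hyp.2 ⟨flat_iff.2 fun x hx => ?_, by omega⟩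
    have h2 := card_insert_of_notMem hx
    rw [hI _ (by omega), h1, h2]
  rw [← h.hb, e, card_powersetCard, card_univ, h.hv]

/-- `eq_bk`, `eq_rk`, `Nat.add_one_mul_choose_eq`. -/
lemma complete_params (h : IsDes R b v r k lam) (hb : v < b) (hl : 1 ≤ lam)
    (hk : b = v.choose k) : r = (v - 1).choose (k - 1) ∧ lam = (v - 2).choose (k - 2) := by
  obtain ⟨x, -⟩ := h.exists_pair hb
  have h1 := h.eq_bk
  have h2 := h.eq_rk x
  have h3 := h.two_le_k hb hl
  have h4 := h.k_lt hb
  obtain ⟨k, rfl⟩ : ∃ j, k = j + 2 := ⟨k - 2, by omega⟩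
  obtain ⟨v, rfl⟩ : ∃ j, v = j + 2 := ⟨v - 2, by omega⟩
  have e1 := Nat.add_one_mul_choose_eq (v + 1) (k + 1)
  have e2 := Nat.add_one_mul_choose_eq v k
  have a1 : r = (v + 1).choose (k + 1) :=
    Nat.eq_of_mul_eq_mul_right (Nat.succ_pos (v + 1)) (by
      rw [← h1, hk]
      exact e1.symm.trans (mul_comm _ _))
  refine ⟨a1, Nat.eq_of_mul_eq_mul_right (Nat.succ_pos v) ?_⟩
  show lam * (v + 1) = v.choose k * (v + 1)
  rw [mul_comm (v.choose k), e2, ← a1]
  exact h2.symm

/-- `coline_eq`, `three_le_deg`, `flat_card_lt`. -/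
lemma coline_d (h : IsDes R b v r k lam) (hb : v < b) (hc : v = k + c) {L : Finset α}
    (hL : R.Flat L) (hr : R.rk L + 2 = R.rk univ) :
    ∃ d, 1 ≤ d ∧ L.card + d = k ∧ d ∣ c ∧ 2 * d ≤ c ∧ R.deg L * d = c + d := by
  have h1 := h.coline_eq hL hr
  have h2 := h.three_le_deg hb hL hr
  have h3 := h.flat_card_lt hL hr.le
  obtain ⟨d, hd⟩ : ∃ d, L.card + d = k := ⟨k - L.card, by omega⟩
  rw [show k - L.card = d by omega, show v - L.card = c + d by omega] at h1
  have h4 := Nat.mul_le_mul_right d h2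
  refine ⟨d, by omega, hd, ?_, by omega, h1⟩
  exact (Nat.dvd_add_left (dvd_refl d)).1 (h1 ▸ Dvd.intro_left _ rfl)

/-- `free_of_card` with `j = rk univ - 1`. -/
lemma rank_of_d_one (h : IsDes R b v r k lam) (hb : v < b) (hl : 1 ≤ lam)
    (hd : ∀ L, R.Flat L → R.rk L + 2 = R.rk univ → L.card + 1 = k) : R.rk univ = k + 1 := by
  have h3 := h.three_le_rank hb hl
  have := free_of_card (h.flat_empty hb) (j := R.rk univ - 1) (s := k) (by omega)
    (fun G hG hr => h.hk G (mem_hyp.2 ⟨hG, by omega⟩)) fun F hF hr => hd F hF (by omega)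
  omega

lemma des_ins (h : IsDes R b v r k lam) {L : Finset α} (hL : R.Flat L)
    (hr : R.rk L + 2 = R.rk univ) (hd : L.card + 1 = k) {z : α} (hz : z ∉ L) :
    R.cl (insert z L) = insert z L ∧ insert z L ∈ R.hyp := by
  have h1 : R.cl (insert z L) ∈ R.hyp := cl_mem_hyp (by rw [hL.rk_insert hz]; omega)
  have h2 : insert z L = R.cl (insert z L) := eq_of_subset_of_card_le (subset_cl _)
    (by rw [h.hk _ h1, card_insert_of_notMem hz, hd])
  exact ⟨h2.symm, h2 ▸ h1⟩

lemma des_cover (h : IsDes R b v r k lam) {F L L' : Finset α} (hF : R.Flat F)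
    (hr : R.rk F + 3 = R.rk univ) (hL : L ∈ R.cov F univ) (hd : L.card + 1 = k)
    (hL' : L' ∈ R.cov F univ) {z : α} (hz : z ∈ L') (hz' : z ∉ L) : L' = insert z F := by
  obtain ⟨a1, a2, -, a3⟩ := mem_cov.1 hL
  obtain ⟨b1, b2, -, b3⟩ := mem_cov.1 hL'
  have h1 := cov_inter hF hL hL' fun e => hz' (e ▸ hz)
  have h2 := hF.eq_cl_insert b1 b2 b3 hz fun e => hz' (a2 e)
  have h3 : L' ⊆ insert z L := by
    rw [← h2, ← (h.des_ins a1 (by omega) hd hz').1]
    exact cl_mono (insert_subset_insert _ a2)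
  refine subset_antisymm (fun y hy => ?_) (insert_subset hz b2)
  rcases mem_insert.1 (h3 hy) with e | e
  · exact mem_insert.2 (Or.inl e)
  · exact mem_insert_of_mem (h1 ▸ mem_inter.2 ⟨e, hy⟩)

/-- For `z ∉ L` the hyperplane `cl (insert z L)` is `insert z L`, so a cover of `F` through `z`
is `insert z F`. -/
lemma apex_card (h : IsDes R b v r k lam) (hb : v < b) {F L L' : Finset α} (hF : R.Flat F)
    (hr : R.rk F + 3 = R.rk univ) (hL : L ∈ R.cov F univ) (hd : L.card + 1 = k)
    (hL' : L' ∈ R.cov F univ) (hne : L' ≠ L) : L'.card = F.card + 1 := by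
  obtain ⟨a1, a2, -, a3⟩ := mem_cov.1 hL
  obtain ⟨b1, b2, -, b3⟩ := mem_cov.1 hL'
  obtain ⟨z, hz, hz'⟩ := not_subset.1 fun e => hne (b1.eq_of_subset_of_rk_le e (by omega))
  rw [h.des_cover hF hr hL hd hL' hz hz', card_insert_of_notMem fun e => hz' (a2 e)]

/-- All covers of `F` other than `L` have the size of `L'`.  Take a hyperplane `K ⊇ F` not
containing `L` (`exists_hyp_avoid`); it has `d + 1` covers of `F`, one point each
(`cov_card_mul`).  Since `d + 1 < c + 1` there is `z` outside `L ∪ K`; apply `cov_lt_deg` to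
`insert z F` and the hyperplane `insert z L`; `coline_d` gives `deg * d = c + d`. -/
lemma apex (h : IsDes R b v r k lam) (hb : v < b) (hc : v = k + c) {F L L' : Finset α} {d : ℕ}
    (hF : R.Flat F) (hr : R.rk F + 3 = R.rk univ) (hL : L ∈ R.cov F univ) (hd : L.card + 1 = k)
    (hL' : L' ∈ R.cov F univ) (hne : L' ≠ L) (hd' : L'.card + d = k) : d * (d + 1) ≤ c := by
  obtain ⟨a1, a2, -, a3⟩ := mem_cov.1 hL
  obtain ⟨b1, b2, -, b3⟩ := mem_cov.1 hL'
  have c1 := h.apex_card hb hF hr hL hd hL' hne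
  obtain ⟨x, hx, hx'⟩ := exists_notMem_of_rk_lt (R := R) (F := F) (T := L) (by omega)
  obtain ⟨K, hK, hFK, hxK⟩ := exists_hyp_avoid hF hx'
  have hK1 := (mem_hyp.1 hK).1
  have c2 := cov_card_mul (w := 1) hF hK1 hFK fun G hG => by
    obtain ⟨g1, g2, g3, g4⟩ := mem_cov.1 hG
    exact h.apex_card hb hF hr hL hd (mem_cov.2 ⟨g1, g2, subset_univ _, g4⟩)
      fun e => hxK (g3 (e ▸ hx))
  have c3 := h.hk K hK
  obtain ⟨d1, e1, e2, -, e3, -⟩ := h.coline_d hb hc b1 (by omega)
  have hI : F = L ∩ K := by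
    refine hF.eq_of_subset_of_rk_le (subset_inter a2 hFK) ?_
    by_contra hlt
    have := (a1.inter hK1).eq_of_subset_of_rk_le inter_subset_left (by omega)
    exact hxK (mem_inter.1 (this.symm ▸ hx : x ∈ L ∩ K)).2
  have c4 := card_union_add_card_inter L K
  rw [← hI] at c4
  obtain ⟨z, -, hz⟩ := exists_mem_notMem_of_card_lt_card (s := L ∪ K) (t := univ)
    (by rw [card_univ, h.hv]; omega)
  rw [mem_union, not_or] at hz
  have hzF : z ∉ F := fun e => hz.1 (a2 e)
  have m1 := cl_insert_mem_cov hF flat_univ (subset_univ _) (mem_univ z) hzF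
  rw [h.des_cover hF hr hL hd m1 (mem_cl_insert F z) hz.1] at m1
  have c5 := cov_lt_deg hF hr hK hFK m1 (fun e => hz.2 (e (mem_insert_self _ _)))
    (h.des_ins a1 (by omega) hd hz.1).2 (insert_subset_insert _ a2)
    (by rw [insert_inter_of_notMem hz.2, ← hI])
  obtain ⟨m2, -, -, m3⟩ := mem_cov.1 m1
  obtain ⟨d2, -, f2, -, -, f3⟩ := h.coline_d hb hc m2 (by omega)
  rw [card_insert_of_notMem hzF] at f2
  obtain rfl : d2 = d := by omega
  have c6 := Nat.mul_le_mul_right d2 (show d2 + 2 ≤ R.deg (insert z F) by omega)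
  rw [f3] at c6
  linarith only [c6]

/-- `double` -/
lemma deg_down (h : IsDes R b v r k lam) {j δ : ℕ}
    (hδ : ∀ X : Finset α, X.card = j + 1 → R.deg X = δ) {X : Finset α} (hX : X.card = j) :
    R.deg X * (k - j) = (v - j) * δ := by
  rw [← hX, ← h.double X, sum_congr rfl fun x hx => hδ _ (by
    rw [card_insert_of_notMem (mem_sdiff.1 hx).2, hX]), sum_const,
    card_sdiff_of_subset (subset_univ _), card_univ, h.hv, smul_eq_mul]

lemma des_count {x : α} {l : ℕ}
    (hl : ∀ y, y ≠ x → (R.hyp.filter (fun H => x ∉ H ∧ y ∉ H)).card = l) {S : Finset α}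
    (hx : x ∉ S) : ∑ H ∈ R.hyp.filter (fun H => x ∉ H), (S \ H).card = S.card * l := by
  simp only [sdiff_eq_filter, card_filter]
  rw [sum_comm, ← smul_eq_mul, ← sum_const]
  refine sum_congr rfl fun y hy => ?_
  rw [← card_filter, filter_filter]
  exact hl y fun e => hx (e ▸ hy)

/-- The numbers `r'` of hyperplanes missing `x` and `l'` of hyperplanes missing two given points
(`avoid_count`, `exists_avoid_pair`; count pairs `(H, y)` with `x, y ∉ H`). -/
lemma avoid_eq (h : IsDes R b v r k lam) (hb : v < b) (hc : v = k + c) (x : α) :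
    ∃ l', 1 ≤ l' ∧ (∀ y, y ≠ x → (R.hyp.filter (fun H => x ∉ H ∧ y ∉ H)).card = l') ∧
      (R.hyp.filter (fun H => x ∉ H)).card * (c - 1) = l' * (v - 1) := by
  obtain ⟨y0, hy0⟩ := Fintype.exists_ne_of_one_lt_card
    (by rw [h.hv]; have := h.k_lt hb; omega) x
  have h1 : ∀ y, y ≠ x → (R.hyp.filter (fun H => x ∉ H ∧ y ∉ H)).card =
      (R.hyp.filter (fun H => x ∉ H ∧ y0 ∉ H)).card := fun y hy => by
    have a1 := h.avoid_count hy.symm
    have a2 := h.avoid_count hy0.symm
    omega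
  obtain ⟨H, hH, hH'⟩ := h.exists_avoid_pair hb hy0.symm
  refine ⟨_, card_pos.2 ⟨H, mem_filter.2 ⟨hH, hH'⟩⟩, h1, ?_⟩
  have h2 := des_count h1 (notMem_erase x univ)
  rw [card_erase_of_mem (mem_univ x), card_univ, h.hv, mul_comm] at h2
  rw [← h2, ← smul_eq_mul, ← sum_const]
  refine sum_congr rfl fun K hK => ?_
  rw [mem_filter] at hK
  rw [card_sdiff_of_subset (subset_erase.2 ⟨subset_univ _, hK.2⟩), card_erase_of_mem (mem_univ x),
    card_univ, h.hv, h.hk K hK.1]
  omega

/-- `r' ≤ |S| * l'`. -/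
lemma avoid_le (h : IsDes R b v r k lam) (hb : v < b) (hc : v = k + c) {x : α} {S : Finset α}
    (hx : x ∉ S) (hS : ∀ H ∈ R.hyp, x ∉ H → ∃ y ∈ S, y ∉ H) : v - 1 ≤ S.card * (c - 1) := by
  obtain ⟨l, h1, h2, h3⟩ := h.avoid_eq hb hc x
  have h4 : (R.hyp.filter (fun H => x ∉ H)).card ≤ S.card * l := by
    rw [← des_count h2 hx, card_eq_sum_ones]
    refine sum_le_sum fun K hK => ?_
    obtain ⟨y, a1, a2⟩ := hS K (mem_filter.1 hK).1 (mem_filter.1 hK).2
    exact card_pos.2 ⟨y, mem_sdiff.2 ⟨a1, a2⟩⟩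
  refine Nat.le_of_mul_le_mul_left ?_ h1
  rw [← h3, ← mul_assoc, mul_comm l]
  exact Nat.mul_le_mul_right _ h4

/-- `r' < |S| * l'`: the sum over the hyperplanes missing `x` of `|S \ H|` is `|S| * l'`. -/
lemma avoid_lt (h : IsDes R b v r k lam) (hb : v < b) (hc : v = k + c) {x : α} {S : Finset α}
    (hx : x ∉ S) (hS : ∀ H ∈ R.hyp, x ∉ H → ∃ y ∈ S, y ∉ H) {H : Finset α} (hH : H ∈ R.hyp)
    (hxH : x ∉ H) {y y' : α} (hy : y ∈ S) (hy' : y' ∈ S) (hne : y ≠ y') (h1 : y ∉ H)
    (h2 : y' ∉ H) : v - 1 < S.card * (c - 1) := by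
  obtain ⟨l, a1, a2, a3⟩ := h.avoid_eq hb hc x
  have h4 : (R.hyp.filter (fun H => x ∉ H)).card < S.card * l := by
    rw [← des_count a2 hx, card_eq_sum_ones]
    refine sum_lt_sum (fun K hK => ?_) ⟨H, mem_filter.2 ⟨hH, hxH⟩,
      one_lt_card.2 ⟨y, mem_sdiff.2 ⟨hy, h1⟩, y', mem_sdiff.2 ⟨hy', h2⟩, hne⟩⟩
    obtain ⟨y, b1, b2⟩ := hS K (mem_filter.1 hK).1 (mem_filter.1 hK).2
    exact card_pos.2 ⟨y, mem_sdiff.2 ⟨b1, b2⟩⟩
  refine Nat.lt_of_mul_lt_mul_left (a := l) ?_
  rw [← a3, ← mul_assoc, mul_comm l]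
  have := h.k_lt hb
  exact Nat.mul_lt_mul_of_pos_right h4 (by omega)

end IsDes

/-- `matroidal_of_family` for `powersetCard k univ` on `Fin v`. -/
theorem matroidal_complete {v k : ℕ} (h2 : 2 ≤ k) (hk : k < v) :
    Matroidal (v.choose k) v ((v - 1).choose (k - 1)) k ((v - 2).choose (k - 2)) := by
  have hcard : (univ : Finset (Fin v)).card = v := by rw [card_univ, Fintype.card_fin]
  refine matroidal_of_family (powersetCard k (univ : Finset (Fin v))) _ _ _ _ _
    (Fintype.card_fin v) hk h2 (fun H hH => (mem_powersetCard.1 hH).2) ?_ ?_ ?_ ?_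
  · intro H1 h1 H2 h2' hne x _ _
    have a1 := (mem_powersetCard.1 h1).2
    have a2 := (mem_powersetCard.1 h2').2
    have a3 : (H1 ∩ H2).card < H1.card := card_lt_card ⟨inter_subset_left, fun e =>
      hne (eq_of_subset_of_card_le (e.trans inter_subset_right) (by omega))⟩
    have a4 := card_insert_le x (H1 ∩ H2)
    obtain ⟨H, b1, b2, b3⟩ := exists_subsuperset_card_eq (subset_univ (insert x (H1 ∩ H2)))
      (n := k) (by omega) (by omega)
    exact ⟨H, mem_powersetCard.2 ⟨b2, b3⟩, (subset_insert _ _).trans b1, b1 (mem_insert_self _ _)⟩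
  · intro X hX
    rw [card_filter_powersetCard_subset X univ k (subset_univ _) (by omega), hcard, hX]
  · obtain ⟨k, rfl⟩ : ∃ j, k = j + 2 := ⟨k - 2, by omega⟩
    obtain ⟨v, rfl⟩ : ∃ j, v = j + 2 := ⟨v - 2, by omega⟩
    exact (Nat.add_one_mul_choose_eq v k).symm.trans (mul_comm _ _)
  · obtain ⟨k, rfl⟩ : ∃ j, k = j + 1 := ⟨k - 1, by omega⟩
    obtain ⟨v, rfl⟩ : ∃ j, v = j + 1 := ⟨v - 1, by omega⟩
    exact (Nat.add_one_mul_choose_eq v k).symm.trans (mul_comm _ _)

end Pool.Agent.MP_337c4e_co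

end

section

/-! Designs all of whose colines miss at most two points of a hyperplane. -/

set_option linter.unusedSectionVars false
set_option linter.unusedVariables false

namespace Pool.Agent.MP_337c4e_co

open Finset RkFn

namespace IsDes

variable {α : Type} [Fintype α] [DecidableEq α] {R : RkFn α} {b v r k lam c : ℕ}

lemma small_aux (h : IsDes R b v r k lam) (hb : v < b)
    (hd : ∀ L, R.Flat L → R.rk L + 2 = R.rk univ → k ≤ L.card + 2) {F L1 : Finset α}
    (hF : R.Flat F) (hr : R.rk F + 3 = R.rk univ) (h4 : F.card + 4 = k) (h1 : L1 ∈ R.cov F univ)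
    (c1 : L1.card + 2 = k) : ∀ L ∈ R.cov F univ, L.card + 2 = k := by
  intro L hL
  obtain ⟨f1, -, -, f2⟩ := mem_cov.1 hL
  have g1 := hd L f1 (by omega)
  have g2 := h.flat_card_lt f1 (by omega)
  by_contra hc
  have := h.apex_card hb hF hr hL (by omega) h1 (by rintro rfl; omega)
  omega

/-- A flat `F` of corank three with `k - 4` points and two covers with `k - 2` points: a cover
with `k - 1` points is excluded by `apex_card`. -/
lemma small_four (h : IsDes R b v r k lam) (hb : v < b)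
    (hd : ∀ L, R.Flat L → R.rk L + 2 = R.rk univ → k ≤ L.card + 2) {F L1 L2 : Finset α}
    (hF : R.Flat F) (hr : R.rk F + 3 = R.rk univ) (h4 : F.card + 4 = k) (h1 : L1 ∈ R.cov F univ)
    (h2 : L2 ∈ R.cov F univ) (hne : L1 ≠ L2) (c1 : L1.card + 2 = k) (c2 : L2.card + 2 = k) :
    ∀ L ∈ R.cov F univ, L.card + 2 = k :=
  small_aux h hb hd hF hr h4 h1 c1

lemma small_other {F K : Finset α} {u : α} (hF : F ⊆ K) (hu : u ∈ K) (hu' : u ∉ F)
    (hc : K.card = F.card + 2) : ∃ w, w ≠ u ∧ w ∉ F ∧ K = insert w (insert u F) := by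
  have h1 : insert u F ⊆ K := insert_subset hu hF
  obtain ⟨w, hw, hw'⟩ := exists_mem_notMem_of_card_lt_card (s := insert u F) (t := K)
    (by rw [card_insert_of_notMem hu']; omega)
  refine ⟨w, fun e => hw' (e ▸ mem_insert_self _ _), fun e => hw' (mem_insert_of_mem e), ?_⟩
  refine (eq_of_subset_of_card_le (insert_subset hw h1) ?_).symm
  rw [card_insert_of_notMem hw', card_insert_of_notMem hu']
  omega

/-- every point outside `H` has a partner in the closure of `G` and the point -/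
lemma small_pair (h : IsDes R b v r k lam) (hb : v < b)
    (hd : ∀ L, R.Flat L → R.rk L + 2 = R.rk univ → k ≤ L.card + 2) {H L F1 F2 : Finset α}
    (hH : R.Flat H) (hL : R.Flat L) (hLH : L ⊆ H) (rL : R.rk L + 2 = R.rk univ)
    (cL : L.card + 2 = k) (h1 : R.Flat F1) (s1 : F1 ⊆ L) (r1 : R.rk F1 + 3 = R.rk univ)
    (c1 : F1.card + 4 = k) (h2 : R.Flat F2) (s2 : F2 ⊆ L) (r2 : R.rk F2 + 3 = R.rk univ)
    (c2 : F2.card + 4 = k) (rG : R.rk (F1 ∩ F2) + 4 = R.rk univ) {u : α} (hu : u ∉ H) :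
    ∃ w, w ≠ u ∧ w ∉ H ∧ w ∈ R.cl (insert u (F1 ∩ F2)) := by
  have huL : u ∉ L := fun e => hu (hLH e)
  have hK : R.cl (insert u L) ∈ R.hyp := cl_mem_hyp (by rw [hL.rk_insert huL]; omega)
  obtain ⟨w, w1, w2, w3⟩ := small_other (subset_cl_insert L u) (mem_cl_insert L u) huL
    (by rw [h.hk _ hK]; omega)
  have key : ∀ F, R.Flat F → F ⊆ L → R.rk F + 3 = R.rk univ → F.card + 4 = k →
      w ∈ R.cl (insert u F) := fun F hF s r c => by
    have huF : u ∉ F := fun e => huL (s e)
    have e1 := small_aux h hb hd hF r c (mem_cov.2 ⟨hL, s, subset_univ _, by omega⟩) cL _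
      (cl_insert_mem_cov hF flat_univ (subset_univ _) (mem_univ u) huF)
    obtain ⟨z, z1, z2, z3⟩ := small_other (subset_cl_insert (R := R) F u) (mem_cl_insert F u) huF
      (by omega)
    have z4 : z ∈ R.cl (insert u F) := by rw [z3]; exact mem_insert_self _ _
    have z5 := cl_mono (insert_subset_insert u s) z4
    rw [w3, mem_insert, mem_insert] at z5
    rcases z5 with rfl | rfl | z5
    · exact z4
    · exact absurd rfl z1
    · exact absurd (hF.cl_insert_inter hL s huL ▸ mem_inter.2 ⟨z4, z5⟩) z2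
  have hG := h1.inter h2
  have huG : u ∉ F1 ∩ F2 := fun e => huL (s1 (mem_inter.1 e).1)
  have hu1 : u ∉ F1 := fun e => huL (s1 e)
  have hJ : R.cl (insert u (F1 ∩ F2)) = R.cl (insert u F1) ∩ R.cl (insert u F2) := by
    refine (cl_flat _).eq_of_subset_of_rk_le (subset_inter
      (cl_mono (insert_subset_insert u inter_subset_left))
      (cl_mono (insert_subset_insert u inter_subset_right))) ?_
    by_contra hc
    have e1 := ((cl_flat (R := R) (insert u F1)).inter
      (cl_flat (insert u F2))).eq_of_subset_of_rk_le inter_subset_left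
      (by rw [hG.rk_cl_insert huG] at hc; rw [h1.rk_cl_insert hu1]; omega)
    have e2 : F1 ⊆ F2 := by
      rw [← h2.cl_insert_inter hL s2 huL]
      exact subset_inter (((subset_cl_insert F1 u).trans e1.symm.subset).trans
        inter_subset_right) s1
    rw [inter_eq_left.2 e2] at rG
    omega
  refine ⟨w, w1, fun e => w2 ?_, hJ ▸ mem_inter.2 ⟨key _ h1 s1 r1 c1, key _ h2 s2 r2 c2⟩⟩
  rw [← hL.cl_insert_inter hH hLH hu]
  exact mem_inter.2 ⟨by rw [w3]; exact mem_insert_self _ _, e⟩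

lemma small_core (h : IsDes R b v r k lam) (hb : v < b) (hc : v = k + c) (h4 : 4 ≤ c)
    {H E : Finset α} (hH : H ∈ R.hyp) (hE : R.Flat E) (hEH : E ⊆ H)
    (rE : R.rk E + 3 = R.rk univ) (cE : E.card + 3 = k)
    (hp : ∀ u, u ∉ H → ∃ w, w ≠ u ∧ w ∉ H ∧ w ∈ R.cl (insert u E)) : False := by
  have key : ∀ u, u ∉ H → R.cl (insert u E) ∈ R.cov E univ ∧ (R.cl (insert u E)).card + 1 = k := by
    intro u hu
    obtain ⟨w, w1, w2, w3⟩ := hp u hu
    have huE : u ∉ E := fun e => hu (hEH e)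
    have e1 := h.flat_card_lt (cl_flat (R := R) (insert u E))
      (by rw [hE.rk_cl_insert huE]; omega)
    have e2 := card_le_card (insert_subset w3 (subset_cl (R := R) (insert u E)))
    rw [card_insert_of_notMem (by simp only [mem_insert, not_or]; exact ⟨w1, fun e => w2 (hEH e)⟩),
      card_insert_of_notMem huE] at e2
    exact ⟨cl_insert_mem_cov hE flat_univ (subset_univ _) (mem_univ u) huE, by omega⟩
  have cH : Hᶜ.card = c := by rw [card_compl, h.hv, h.hk H hH]; omega
  obtain ⟨u, hu⟩ : Hᶜ.Nonempty := card_pos.1 (by omega)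
  rw [mem_compl] at hu
  obtain ⟨k1, k2⟩ := key u hu
  have e3 : (R.cl (insert u E) \ E).card < Hᶜ.card := by
    rw [card_sdiff_of_subset (subset_cl_insert E u)]
    omega
  obtain ⟨t, ht, ht'⟩ := exists_mem_notMem_of_card_lt_card e3
  rw [mem_compl] at ht
  obtain ⟨k3, k4⟩ := key t ht
  have := h.apex_card hb hE rE k1 k2 k3 fun e =>
    ht' (mem_sdiff.2 ⟨e ▸ mem_cl_insert E t, fun e' => ht (hEH e')⟩)
  omega

lemma small_two (h : IsDes R b v r k lam) (hb : v < b) (hl : 1 ≤ lam) {Y : Finset α}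
    (hY : R.Ind Y) {x : α} (hx : x ∈ R.cl Y) (hxY : x ∉ Y) :
    ∃ y ∈ Y, ∃ y' ∈ Y, y ≠ y' ∧ x ∉ R.cl (Y \ {y}) ∧ x ∉ R.cl (Y \ {y'}) := by
  set T := Y.filter fun y => x ∈ R.cl (Y.erase y) with hT
  have h1 := hY.mem_cl_sdiff (T := T) (filter_subset _ _) hx fun y hy => (mem_filter.1 hy).2
  have h2 : 1 < (Y \ T).card := by
    by_contra hc
    have : Nonempty α := ⟨x⟩
    have h3 : R.Flat (Y \ T) := by
      rcases card_le_one_iff_subset_singleton.1 (not_lt.1 hc) with ⟨z, hz⟩
      rcases subset_singleton_iff.1 hz with e | e <;> rw [e]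
      · exact h.flat_empty hb
      · exact h.flat_single hb hl z
    rw [h3] at h1
    exact hxY (mem_sdiff.1 h1).1
  obtain ⟨y, hy, y', hy', hne⟩ := one_lt_card.1 h2
  simp only [hT, mem_sdiff, mem_filter, not_and] at hy hy'
  simp only [sdiff_singleton_eq_erase]
  exact ⟨y, hy.1, y', hy'.1, hne, hy.2 hy.1, hy'.2 hy'.1⟩

/-- If every coline misses at most two points of a hyperplane then the rank is at least `k`. -/
lemma small_d (h : IsDes R b v r k lam) (hb : v < b) (hl : 1 ≤ lam) (hc : v = k + c) (h4 : 4 ≤ c)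
    (hd : ∀ L, R.Flat L → R.rk L + 2 = R.rk univ → k ≤ L.card + 2) : k ≤ R.rk univ := by
  by_contra hn
  obtain ⟨H, hH⟩ : R.hyp.Nonempty := card_pos.1 (by rw [h.hb]; omega)
  obtain ⟨fH, rH⟩ := mem_hyp.1 hH
  have cH := h.hk H hH
  obtain ⟨Y, -, hY, eY, cY, -⟩ := fH.exists_basis fH subset_rfl
  have sY : Y ⊆ H := eY ▸ subset_cl Y
  have hrk : ∀ T ⊆ Y, R.rk (R.cl (Y \ T)) + T.card + 1 = R.rk univ := fun T hT => by
    have := hY.rk_sdiff hT
    rw [rk_cl]
    omega
  have hin : ∀ T T', R.cl (Y \ T) ∩ R.cl (Y \ T') = R.cl (Y \ (T ∪ T')) := fun T T' => by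
    rw [hY.cl_inter sdiff_subset sdiff_subset, sdiff_union_distrib]
  have hsub : ∀ T, R.cl (Y \ T) ⊆ H := fun T => fH.cl_subset (sdiff_subset.trans sY)
  have hD : ∀ y ∈ Y, ∀ x ∈ H, x ∉ Y → x ∉ R.cl (Y \ {y}) → R.cl (Y \ {y}) = H \ {y, x} := by
    intro y hy x hx hxY hx'
    have e1 := hrk {y} (singleton_subset_iff.2 hy)
    rw [card_singleton] at e1
    have e2 := hd _ (cl_flat _) (by omega : R.rk (R.cl (Y \ {y})) + 2 = R.rk univ)
    have e3 : y ≠ x := fun e => hxY (e ▸ hy)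
    refine eq_of_subset_of_card_le (fun z hz => mem_sdiff.2 ⟨hsub _ hz, ?_⟩) ?_
    · simp only [mem_insert, mem_singleton, not_or]
      exact ⟨fun e => hY.notMem_cl hy (mem_singleton_self y) (e ▸ hz), fun e => hx' (e ▸ hz)⟩
    · rw [card_sdiff_of_subset (insert_subset (sY hy) (singleton_subset_iff.2 hx)), card_pair e3]
      omega
  obtain ⟨a', ha', e', he', hae⟩ := one_lt_card.1 (show 1 < (H \ Y).card by
    rw [card_sdiff_of_subset sY]; omega)
  rw [mem_sdiff] at ha' he'
  obtain ⟨a1, m1, a2, m2, n12, p1, p2⟩ := small_two h hb hl hY (eY ▸ ha'.1) ha'.2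
  obtain ⟨e1, m3, -, -, -, p3, -⟩ := small_two h hb hl hY (eY ▸ he'.1) he'.2
  have d1 := hD a1 m1 a' ha'.1 ha'.2 p1
  have d2 := hD a2 m2 a' ha'.1 ha'.2 p2
  have d3 := hD e1 m3 e' he'.1 he'.2 p3
  have ne : ∀ y ∈ Y, y ≠ a' ∧ y ≠ e' := fun y hy =>
    ⟨fun e => ha'.2 (e ▸ hy), fun e => he'.2 (e ▸ hy)⟩
  have q : ∀ y ∈ Y, a' ∉ R.cl (Y \ {y}) → y ≠ e1 := by
    rintro y hy p rfl
    rw [d3] at p
    exact p (mem_sdiff.2 ⟨ha'.1, by simp [(ne y hy).1.symm, hae]⟩)
  have n13 := q a1 m1 p1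
  have n23 := q a2 m2 p2
  have hcard : ∀ S S' : Finset α, S ⊆ H → S' ⊆ H →
      ((H \ S) ∩ (H \ S')).card + (S ∪ S').card = k := fun S S' s s' => by
    rw [← sdiff_union_distrib, card_sdiff_add_card_eq_card (union_subset s s'), cH]
  have sp : ∀ y ∈ Y, ∀ x ∈ H, ({y, x} : Finset α) ⊆ H := fun y hy x hx =>
    insert_subset (sY hy) (singleton_subset_iff.2 hx)
  have hF : ∀ y ∈ Y, y ≠ e1 → R.cl (Y \ {y}) = H \ {y, a'} →
      R.rk (R.cl (Y \ ({y} ∪ {e1}))) + 3 = R.rk univ ∧ (R.cl (Y \ ({y} ∪ {e1}))).card + 4 = k := by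
    intro y hy n d
    have t1 := hrk ({y} ∪ {e1}) (union_subset (singleton_subset_iff.2 hy) (singleton_subset_iff.2 m3))
    have t2 := hcard _ _ (sp y hy a' ha'.1) (sp e1 m3 e' he'.1)
    rw [card_union_of_disjoint (by simpa using n), card_singleton, card_singleton] at t1
    rw [card_union_of_disjoint (by simp [n.symm, hae.symm, (ne y hy).2.symm, (ne e1 m3).1]),
      card_pair (ne y hy).1, card_pair (ne e1 m3).2, ← d, ← d3, hin] at t2
    exact ⟨by omega, t2⟩
  obtain ⟨r1, c1⟩ := hF a1 m1 n13 d1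
  obtain ⟨r2, c2⟩ := hF a2 m2 n23 d2
  have rL := hrk {e1} (singleton_subset_iff.2 m3)
  have cL : (R.cl (Y \ {e1})).card + 2 = k := by
    rw [d3, ← card_pair (ne e1 m3).2, card_sdiff_add_card_eq_card (sp e1 m3 e' he'.1), cH]
  have rE := hrk ({a1} ∪ {a2}) (union_subset (singleton_subset_iff.2 m1) (singleton_subset_iff.2 m2))
  have cE := hcard _ _ (sp a1 m1 a' ha'.1) (sp a2 m2 a' ha'.1)
  have u3 : ({a1, a'} ∪ {a2, a'} : Finset α) = {a1, a2, a'} := by
    ext z
    simp only [mem_union, mem_insert, mem_singleton]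
    tauto
  have u4 : ({a1} ∪ {e1} ∪ ({a2} ∪ {e1}) : Finset α) = {a1, a2, e1} := by
    ext z
    simp only [mem_union, mem_insert, mem_singleton]
    tauto
  have rG := hrk {a1, a2, e1} (insert_subset m1 (insert_subset m2 (singleton_subset_iff.2 m3)))
  rw [card_eq_three.2 ⟨_, _, _, n12, n13, n23, rfl⟩, ← u4, ← hin] at rG
  rw [card_singleton] at rL
  rw [card_union_of_disjoint (by simpa using n12), card_singleton, card_singleton] at rE
  rw [u3, card_eq_three.2 ⟨_, _, _, n12, (ne a1 m1).1, (ne a2 m2).1, rfl⟩, ← d1, ← d2, hin] at cE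
  refine small_core h hb hc h4 hH (cl_flat _) (hsub _) (by omega) cE fun u hu => ?_
  obtain ⟨w, w1, w2, w3⟩ := small_pair h hb hd fH (cl_flat _) (hsub {e1}) (by omega) cL (cl_flat _)
    (cl_mono (sdiff_subset_sdiff subset_rfl subset_union_right)) r1 c1 (cl_flat _)
    (cl_mono (sdiff_subset_sdiff subset_rfl subset_union_right)) r2 c2 (by omega) hu
  refine ⟨w, w1, w2, cl_mono (insert_subset_insert u ?_) w3⟩
  rw [hin]
  exact cl_mono (sdiff_subset_sdiff subset_rfl (union_subset_union subset_union_left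
    subset_union_left))

end IsDes

end Pool.Agent.MP_337c4e_co

end

section

/-! `v - k` a prime, the square of a prime, and the case `v - k = 8` with a coline of type four. -/

set_option linter.unusedSectionVars false
set_option linter.unusedVariables false

namespace Pool.Agent.MP_337c4e_co

open Finset RkFn

namespace IsDes

variable {α : Type} [Fintype α] [DecidableEq α] {R : RkFn α} {b v r k lam c : ℕ}

lemma sq_deg_empty (h : IsDes R b v r k lam) : R.deg ∅ = b := by simp [deg, h.hb]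

lemma sq_exists (h : IsDes R b v r k lam) {j : ℕ} (hj : j ≤ v) : ∃ X : Finset α, X.card = j := by
  obtain ⟨X, -, hX⟩ := Finset.exists_subset_card_eq (s := (univ : Finset α)) (n := j)
    (by rwa [card_univ, h.hv])
  exact ⟨X, hX⟩

lemma sq_step (h : IsDes R b v r k lam) {j δ a e : ℕ} (hk : k = j + a) (hv : v = j + e)
    (hδ : ∀ X : Finset α, X.card = j + 1 → R.deg X = δ) {X : Finset α} (hX : X.card = j) :
    R.deg X * a = e * δ := by
  have h1 := h.deg_down hδ hX
  rwa [show k - j = a by omega, show v - j = e by omega] at h1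

lemma sq_flat (h : IsDes R b v r k lam) (hb : v < b) {j : ℕ} (hj : j ≤ R.rk univ) :
    ∃ G, R.Flat G ∧ R.rk G = j := by
  obtain ⟨G, hG, -, -, hr⟩ := (h.flat_empty hb).exists_rk flat_univ (subset_univ _) j
    (by rw [R.rk_empty]; omega) hj
  exact ⟨G, hG, hr⟩

lemma sq_dvd_eight {d : ℕ} (h1 : d ∣ 8) (h2 : 2 * d ≤ 8) : d = 1 ∨ d = 2 ∨ d = 4 := by
  have h3 : d ≤ 4 := by omega
  interval_cases d <;> simp_all

lemma sq_eight_d (h : IsDes R b v r k lam) (hb : v < b) (hc : v = k + 8) {L : Finset α}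
    (hL : R.Flat L) (hr : R.rk L + 2 = R.rk univ) :
    L.card + 1 = k ∨ L.card + 2 = k ∨ (L.card + 4 = k ∧ R.deg L = 3) := by
  obtain ⟨d, -, h1, h2, h3, h4⟩ := h.coline_d hb hc hL hr
  rcases sq_dvd_eight h2 h3 with rfl | rfl | rfl <;> omega

lemma sq_union_le (h : IsDes R b v r k lam) {F L L' : Finset α} (hF : R.Flat F)
    (hr : R.rk F + 3 = R.rk univ) (hL : L ∈ R.cov F univ) (hL' : L' ∈ R.cov F univ)
    (hne : L ≠ L') : ∃ H ∈ R.hyp, L ∪ L' ⊆ H ∧ H.card = k ∧
      (L ∪ L').card + F.card = L.card + L'.card := by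
  obtain ⟨H, hH, h1, h2⟩ := exists_hyp_cov hF hr hL hL'
  refine ⟨H, hH, union_subset h1 h2, h.hk H hH, ?_⟩
  rw [← card_union_add_card_inter L L', cov_inter hF hL hL' hne]

lemma sq_cov_lt {F T L : Finset α} (hL : L ∈ R.cov F T) : F.card < L.card := by
  rw [mem_cov] at hL
  refine card_lt_card ⟨hL.2.1, fun h' => ?_⟩
  have := R.mono h'
  omega

lemma sq_cov_univ {F T L : Finset α} (hL : L ∈ R.cov F T) : L ∈ R.cov F univ := by
  rw [mem_cov] at hL ⊢
  exact ⟨hL.1, hL.2.1, subset_univ _, hL.2.2.2⟩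

/-- `coline_d`, `rank_of_d_one`, `complete_of_rank`. -/
theorem prime_case (h : IsDes R b v r k lam) (hb : v < b) (hl : 1 ≤ lam) (hc : v = k + c)
    (hp : c.Prime) : b = v.choose k := by
  refine h.complete_of_rank hb (h.rank_of_d_one hb hl fun L hL hr => ?_)
  obtain ⟨d, -, h1, h2, h3, -⟩ := h.coline_d hb hc hL hr
  have h4 := hp.pos
  rcases (Nat.dvd_prime hp).1 h2 with h5 | h5 <;> omega

/-- Colines have `d = 1` or `d = p`.  By `apex` and `flat_connected`, if one has `d = 1` all have,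
and the design is complete.  Otherwise `tower_prime` (`j = n - 2`) gives `k = n - 2 + p` and by
`ind_of_free` every set with `n - 2` points has degree `p + 1`.  `deg_down`: sets with `n - 3`
points have degree `p ^ 2 + p + 1` (for `n = 3` this is `b = v`); for sets with `n - 4` points
`δ * (p + 2) = (p ^ 2 + p + 2) * (p ^ 2 + p + 1)`, so `p + 2 ∣ 12`, `p = 2`, `δ = 14`; for `n ≥ 5`
one more step gives `5 ∣ 126`. -/
theorem sq_case (h : IsDes R b v r k lam) (hb : v < b) (hl : 1 ≤ lam) {p : ℕ} (hp : p.Prime)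
    (hc : v = k + p ^ 2) : b = v.choose k ∨ (p = 2 ∧ v = 8 ∧ b = 14) := by
  have h3 := h.three_le_rank hb hl
  have hp2 := hp.two_le
  have hd : ∀ L, R.Flat L → R.rk L + 2 = R.rk univ →
      L.card + 1 = k ∨ (L.card + p = k ∧ R.deg L = p + 1) := by
    intro L hL hr
    obtain ⟨d, -, h1, h2, h4, h5⟩ := h.coline_d hb hc hL hr
    obtain ⟨i, hi, rfl⟩ := (Nat.dvd_prime_pow hp).1 h2
    interval_cases i
    · exact Or.inl (by simpa using h1)
    · rw [pow_one] at h1 h5
      refine Or.inr ⟨h1, Nat.eq_of_mul_eq_mul_right hp.pos ?_⟩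
      rw [h5]
      ring
    · have : 0 < p ^ 2 := by positivity
      omega
  by_cases hA : ∃ L, R.Flat L ∧ R.rk L + 2 = R.rk univ ∧ L.card + 1 = k
  · obtain ⟨L0, hL0, hr0, hk0⟩ := hA
    refine Or.inl (h.complete_of_rank hb (h.rank_of_d_one hb hl fun L hL hr => ?_))
    refine flat_connected (R := R) (fun L => L.card + 1 = k) (j := R.rk L0) ?_ hL0 rfl hL
      (by omega) hk0
    intro F L1 L2 hF hrF h1 h2 hP
    by_cases hne : L2 = L1
    · rwa [hne]
    · have h2' := mem_cov.1 h2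
      rcases hd L2 h2'.1 (by omega) with h4 | h4
      · exact h4
      · have h5 := h.apex hb hc hF (by omega) h1 hP h2 hne h4.1
        nlinarith
  · right
    have hB : ∀ L, R.Flat L → R.rk L + 2 = R.rk univ → L.card + p = k ∧ R.deg L = p + 1 :=
      fun L hL hr => (hd L hL hr).resolve_left fun h' => hA ⟨L, hL, hr, h'⟩
    obtain ⟨m, hm⟩ : ∃ m, R.rk univ = m + 3 := ⟨R.rk univ - 3, by omega⟩
    obtain ⟨G0, hG0, hr0⟩ := h.sq_flat hb (j := m + 1) (by omega)
    have hs := (hB G0 hG0 (by omega)).1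
    have ht := tower_prime (h.flat_empty hb) (h.flat_single hb hl) (j := m + 1) (s := G0.card)
      (by omega) (by omega) hp
      (fun G hG hr => by rw [hs]; exact h.hk G (mem_hyp.2 ⟨hG, by omega⟩))
      (fun G hG hr => by have := (hB G hG (by omega)).1; omega)
    have d1 : ∀ X : Finset α, X.card = m + 1 → R.deg X = p + 1 := by
      intro X hX
      have hI : R.Ind X := ind_of_free (j := m + 1) (by omega)
        (fun G hG hr => by have := (hB G hG (by omega)).1; omega) (by omega)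
      rw [← deg_cl]
      exact (hB _ (cl_flat X) (by rw [rk_cl, hI]; omega)).2
    have d2 : ∀ X : Finset α, X.card = m → R.deg X = p ^ 2 + p + 1 := fun X hX =>
      Nat.eq_of_mul_eq_mul_right (Nat.succ_pos p)
        (h.sq_step (a := p + 1) (e := p ^ 2 + p + 1) (by omega) (by omega) d1 hX)
    rcases m with _ | m
    · have := d2 ∅ rfl
      rw [h.sq_deg_empty] at this
      omega
    have d3 : ∀ X : Finset α, X.card = m →
        R.deg X * (p + 2) = (p ^ 2 + p + 2) * (p ^ 2 + p + 1) := fun X hX =>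
      h.sq_step (by omega) (by omega) d2 hX
    obtain ⟨X0, hX0⟩ := h.sq_exists (j := m) (by omega)
    have hdv : p + 2 ∣ 12 := by
      have e1 : ((p + 2 : ℕ) : ℤ) ∣ (((p ^ 2 + p + 2) * (p ^ 2 + p + 1) : ℕ) : ℤ) :=
        Int.natCast_dvd_natCast.2 (Dvd.intro_left _ (d3 X0 hX0))
      have e2 : (((p ^ 2 + p + 2) * (p ^ 2 + p + 1) : ℕ) : ℤ) =
          ((p + 2 : ℕ) : ℤ) * ((p : ℤ) ^ 3 + 4 * p - 5) + ((12 : ℕ) : ℤ) := by
        push_cast
        ring
      rw [e2] at e1
      exact Int.natCast_dvd_natCast.1 ((dvd_add_right (Dvd.intro _ rfl)).1 e1)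
    have hp' : p = 2 := by
      have h4 := Nat.le_of_dvd (by norm_num) hdv
      have h5 : p ≤ 10 := by omega
      interval_cases p <;> first | rfl | exact absurd hp (by decide) | exact absurd hdv (by decide)
    subst hp'
    have d4 : ∀ X : Finset α, X.card = m → R.deg X = 14 := fun X hX => by
      have := d3 X hX
      omega
    rcases m with _ | m
    · have := d4 ∅ rfl
      rw [h.sq_deg_empty] at this
      omega
    · obtain ⟨X1, hX1⟩ := h.sq_exists (j := m) (by omega)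
      have := h.sq_step (a := 5) (e := 9) (by omega) (by omega) d4 hX1
      omega

/-- Let `s = k - |F|`.  No cover of `F` has `d = 1` (`apex`), so covers have `s - 4` (light) or
`s - 2` (heavy) new points; `exists_hyp_cov` and `cov_inter` give `s ≤ 6` and show that `L'` is the
only heavy cover.  Take a hyperplane `K ⊇ F` not containing `L'` and `z ∉ K ∪ L'`; the light cover
`cl (insert z F)` has degree three.  `s = 5`: `K` has five covers, against `cov_le_deg`.  `s = 6`:
`K` has three covers, and the hyperplane through `L'` and `z` meets `K` in `F` (count), against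
`cov_lt_deg`. -/
lemma eight_mix (h : IsDes R b v r k lam) (hb : v < b) (hc : v = k + 8) {F L L' : Finset α}
    (hF : R.Flat F) (hr : R.rk F + 3 = R.rk univ) (hL : L ∈ R.cov F univ) (hL' : L' ∈ R.cov F univ)
    (h4 : L.card + 4 = k) (h2 : L'.card + 2 = k) : False := by
  have hne : L ≠ L' := fun e => by rw [e] at h4; omega
  have hf1 := sq_cov_lt hL
  have hs : k ≤ F.card + 6 := by
    obtain ⟨H, -, h5, h6, h7⟩ := h.sq_union_le hF hr hL hL' hne
    have := card_le_card h5
    omega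
  have light : ∀ G ∈ R.cov F univ, G ≠ L' → G.card + 4 = k ∧ R.deg G = 3 := by
    intro G hG hGL
    have hG' := mem_cov.1 hG
    rcases h.sq_eight_d hb hc hG'.1 (by omega) with h5 | h5 | h5
    · have := h.apex hb hc hF hr hG h5 hL (fun e => by rw [e] at h4; omega) h4
      omega
    · obtain ⟨H, -, h6, h7, h8⟩ := h.sq_union_le hF hr hG hL' hGL
      have := card_le_card h6
      omega
    · exact h5
  have hL'' := mem_cov.1 hL'
  obtain ⟨x, hx, hxF⟩ := exists_notMem_of_rk_lt (R := R) (F := F) (T := L') (by omega)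
  obtain ⟨K, hK, hFK, hxK⟩ := exists_hyp_avoid hF hxF
  have hKf := (mem_hyp.1 hK).1
  have hKk := h.hk K hK
  have hcov := cov_card_mul hF hKf hFK (w := k - 4 - F.card) fun G hG => by
    have := (light G (sq_cov_univ hG) fun e => hxK ((mem_cov.1 hG).2.2.1 (e ▸ hx))).1
    omega
  have hL'K : L' ∩ K = F := by
    rw [← hF.eq_cl_insert hL''.1 hL''.2.1 hL''.2.2.2 hx hxF]
    exact hF.cl_insert_inter hKf hFK hxK
  obtain ⟨z, hz⟩ : ∃ z, z ∉ L' ∪ K := by
    by_contra hcon
    push Not at hcon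
    have h5 := card_union_add_card_inter L' K
    rw [eq_univ_iff_forall.2 hcon, card_univ, h.hv, hL'K] at h5
    omega
  rw [mem_union, not_or] at hz
  have hzF : z ∉ F := fun h' => hz.2 (hFK h')
  have hZ := cl_insert_mem_cov hF flat_univ (subset_univ _) (mem_univ z) hzF
  have hZne : R.cl (insert z F) ≠ L' := fun e => hz.1 (e ▸ mem_cl_insert F z)
  have hZK : ¬ R.cl (insert z F) ⊆ K := fun e => hz.2 (e (mem_cl_insert F z))
  obtain ⟨z1, z2⟩ := light _ hZ hZne
  by_cases h5 : k = F.card + 5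
  · have := cov_le_deg hF hr hK hFK hZ hZK
    rw [show k - 4 - F.card = 1 by omega] at hcov
    omega
  · obtain ⟨H, hH, h6, h7, h8⟩ := h.sq_union_le hF hr hZ hL' hZne
    have h9 := eq_of_subset_of_card_le h6 (by omega)
    have := cov_lt_deg hF hr hK hFK hZ hZK hH (subset_union_left.trans h6) (by
      rw [← h9, union_inter_distrib_right, hL'K, hF.cl_insert_inter hKf hFK hz.2, union_self])
    rw [show k - 4 - F.card = 2 by omega] at hcov
    omega

/-- By `apex`, `eight_mix`, `flat_connected` all colines have `k - 4` points and degree three.  A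
flat of corank three has `k - 5` (excluded by `cov_le_deg`), `k - 6` or `k - 8` points
(`weight_dvd`); `tower` (`q = 4`, `w = 2`) gives `k - 6`, `tower_prime` (`j = n - 3`, `q = 2`)
gives `k - 6 = n - 3`.  By `ind_of_free` sets with `n - 2` points have degree three (`deg_cl`);
`deg_down` gives degrees `7`, `15` (for `n = 4` this is `b = v`), `30`, and `9 ∣ 510` if `n ≥ 6`. -/
theorem eight_four (h : IsDes R b v r k lam) (hb : v < b) (hl : 2 ≤ lam) (hc : v = k + 8)
    {L : Finset α} (hL : R.Flat L) (hr : R.rk L + 2 = R.rk univ) (h4 : L.card + 4 = k) :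
    v = 16 ∧ b = 30 := by
  have hn := h.four_le_rank hb hl
  have hl1 : 1 ≤ lam := by omega
  obtain ⟨m, hm⟩ : ∃ m, R.rk univ = m + 4 := ⟨R.rk univ - 4, by omega⟩
  have hB : ∀ G, R.Flat G → R.rk G = m + 2 → G.card = L.card ∧ R.deg G = 3 := by
    intro G hG hrG
    have h5 : G.card + 4 = k := by
      refine flat_connected (R := R) (fun L => L.card + 4 = k) (j := m + 2) ?_ hL (by omega) hG
        hrG h4
      intro F L1 L2 hF hrF h1 h2 hP
      have h2' := mem_cov.1 h2
      rcases h.sq_eight_d hb hc h2'.1 (by omega) with h6 | h6 | h6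
      · have := h.apex hb hc hF (by omega) h2 h6 h1 (fun e => by rw [e] at hP; omega) hP
        omega
      · exact (h.eight_mix hb hc hF (by omega) h1 h2 hP h6).elim
      · exact h6.1
    rcases h.sq_eight_d hb hc hG (by omega) with h6 | h6 | h6 <;> omega
  have hA : ∀ G, R.Flat G → R.rk G = m + 2 + 1 → G.card = L.card + 4 := fun G hG hrG => by
    rw [h4]
    exact h.hk G (mem_hyp.2 ⟨hG, by omega⟩)
  have hC : ∀ F, R.Flat F → R.rk F + 1 = m + 2 →
      F.card + 2 = L.card ∨ F.card + 4 = L.card := by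
    intro F hF hrF
    obtain ⟨h5, h6⟩ := weight_dvd (j := m + 2) (by omega) hA (fun G hG hrG => (hB G hG hrG).1) hF
      hrF
    have h7 := Nat.le_of_dvd (by norm_num) h6
    rcases sq_dvd_eight (h6.trans (by norm_num)) (by omega) with h8 | h8 | h8
    · exfalso
      obtain ⟨x, -, hxF⟩ := exists_notMem_of_rk_lt (R := R) (F := F) (T := univ) (by omega)
      obtain ⟨K, hK, hFK, hxK⟩ := exists_hyp_avoid hF hxF
      have hKk := h.hk K hK
      have hcov := cov_card_mul hF (mem_hyp.1 hK).1 hFK (w := 1) fun G hG => by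
        have hG' := mem_cov.1 hG
        have := (hB G hG'.1 (by omega)).1
        omega
      have hX := cl_insert_mem_cov hF flat_univ (subset_univ _) (mem_univ x) hxF
      have hX' := mem_cov.1 hX
      have h9 := cov_le_deg hF (by omega) hK hFK hX fun e => hxK (e (mem_cl_insert F x))
      have := (hB _ hX'.1 (by omega)).2
      omega
    · omega
    · omega
  have hD : ∀ F, R.Flat F → R.rk F = m + 1 → F.card + 2 = L.card := fun F hF hrF =>
    tower (h.flat_single hb hl1) (j := m + 2) (q := 4) (w := 2) (by omega) (by omega) (by omega)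
      (by omega) hA (fun G hG hrG => (hB G hG hrG).1) hC hF (by omega)
  obtain ⟨G0, hG0, hr0⟩ := h.sq_flat hb (j := m + 1) (by omega)
  have hs := hD G0 hG0 hr0
  have ht := tower_prime (h.flat_empty hb) (h.flat_single hb hl1) (j := m + 1) (s := G0.card)
    (by omega) (by omega) Nat.prime_two
    (fun G hG hrG => by rw [hs]; exact (hB G hG hrG).1)
    (fun G hG hrG => by have := hD G hG hrG; omega)
  have d1 : ∀ X : Finset α, X.card = m + 1 + 1 → R.deg X = 3 := by
    intro X hX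
    have hI : R.Ind X := ind_of_free (j := m + 1) (by omega)
      (fun G hG hrG => by have := hD G hG hrG; omega) (by omega)
    rw [← deg_cl]
    exact (hB _ (cl_flat X) (by rw [rk_cl, hI]; omega)).2
  have d2 : ∀ X : Finset α, X.card = m + 1 → R.deg X = 7 := fun X hX => by
    have := h.sq_step (a := 6) (e := 14) (by omega) (by omega) d1 hX
    omega
  have d3 : ∀ X : Finset α, X.card = m → R.deg X = 15 := fun X hX => by
    have := h.sq_step (a := 7) (e := 15) (by omega) (by omega) d2 hX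
    omega
  rcases m with _ | m
  · have := d3 ∅ rfl
    rw [h.sq_deg_empty] at this
    omega
  have d4 : ∀ X : Finset α, X.card = m → R.deg X = 30 := fun X hX => by
    have := h.sq_step (a := 8) (e := 16) (by omega) (by omega) d3 hX
    omega
  rcases m with _ | m
  · have := d4 ∅ rfl
    rw [h.sq_deg_empty] at this
    omega
  · obtain ⟨X1, hX1⟩ := h.sq_exists (j := m) (by omega)
    have := h.sq_step (a := 9) (e := 17) (by omega) (by omega) d4 hX1
    omega

end IsDes

end Pool.Agent.MP_337c4e_co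

end
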