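import Pool.Agent.MP_337c4e_co.CoA

section

/-! The complements of the hyperplanes: families of circuits of constant size. -/

set_option linter.unusedSectionVars false
set_option linter.unusedVariables false

namespace Pool.Agent.MP_337c4e_co

open Finset RkFn

variable {α β : Type} [Fintype α] [DecidableEq α] [Fintype β] [DecidableEq β]

/-- circuits of size `c` of a matroid of rank at most `ρ` -/
structure Cf (cir : Finset α → Prop) (c ρ : ℕ) : Prop where
  card : ∀ C, cir C → C.card = c
  elim : ∀ C C' e f, cir C → cir C' → e ∈ C → e ∈ C' → f ∈ C → f ∉ C' →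
    ∃ Z, cir Z ∧ Z ⊆ C ∪ C' ∧ e ∉ Z ∧ f ∈ Z
  big : ∀ U : Finset α, U.card = ρ + 1 → ∃ C, C ⊆ U ∧ cir C

/-- all `c`-subsets are circuits -/
def Full (cir : Finset α → Prop) (c : ℕ) (U : Finset α) : Prop := ∀ C, C ⊆ U → C.card = c → cir C

/-- no circuit has exactly one point outside `F` -/
def Closed (cir : Finset α → Prop) (F : Finset α) : Prop := ∀ C, cir C → (C \ F).card ≠ 1

/-- `strong_elim`; a set with `n - 1` points lies in a hyperplane. -/
lemma IsDes.cf {R : RkFn α} {b v r k lam c ρ : ℕ} (h : IsDes R b v r k lam) (hb : v < b)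
    (hc : v = k + c) (hρ : v = R.rk univ + ρ) : Cf (fun C => Cᶜ ∈ R.hyp) c ρ := by
  refine ⟨?_, ?_, ?_⟩
  · intro C hC
    have h1 := h.hk _ hC
    have h2 := card_add_card_compl C
    have h3 := h.hv
    omega
  · intro C C' e f hC hC' he he' hf hf'
    obtain ⟨H, hH, h1, h2, h3⟩ := strong_elim hC hC' (e := e) (f := f) (by simpa using he)
      (by simpa using he') (by simpa using hf) (by simpa using hf')
    refine ⟨Hᶜ, by simpa using hH, ?_, by simpa using h2, by simpa using h3⟩
    intro x hx
    rw [mem_compl] at hx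
    by_contra hn
    rw [mem_union, not_or] at hn
    exact hx (h1 (mem_inter.2 ⟨mem_compl.2 hn.1, mem_compl.2 hn.2⟩))
  · intro U hU
    have h2 := card_add_card_compl U
    have h3 := h.hv
    have h4 := rk_le_card (R := R) Uᶜ
    have h5 : R.rk (R.cl Uᶜ) < R.rk univ := by rw [rk_cl]; omega
    obtain ⟨x, -, hx⟩ := exists_notMem_of_rk_lt h5
    obtain ⟨H, hH, h6, -⟩ := exists_hyp_avoid (cl_flat _) hx
    refine ⟨Hᶜ, ?_, by simpa using hH⟩
    intro y hy
    by_contra hn
    exact (mem_compl.1 hy) (h6 (subset_cl _ (mem_compl.2 hn)))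

/-- `hyp = powersetCard k univ` -/
lemma IsDes.complete_of_full {R : RkFn α} {b v r k lam c : ℕ} (h : IsDes R b v r k lam)
    (hc : v = k + c) (hF : Full (fun C => Cᶜ ∈ R.hyp) c univ) : b = v.choose k := by
  have h1 : R.hyp = powersetCard k univ := by
    ext H
    rw [mem_powersetCard]
    constructor
    · intro hH; exact ⟨subset_univ _, h.hk H hH⟩
    · rintro ⟨-, hH⟩
      have h2 := card_add_card_compl H
      have h3 := h.hv
      have := hF Hᶜ (subset_univ _) (by omega)
      simpa using this
  rw [← h.hb, h1, card_powersetCard, card_univ, h.hv]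

/-- `avoid_le` with `S = Fᶜ.erase x`. -/
lemma IsDes.closed_le {R : RkFn α} {b v r k lam c : ℕ} (h : IsDes R b v r k lam) (hb : v < b)
    (hc : v = k + c) {F : Finset α} (hF : Closed (fun C => Cᶜ ∈ R.hyp) F) (hne : F ≠ univ) :
    v - 1 ≤ (v - F.card - 1) * (c - 1) := by
  obtain ⟨x, hx⟩ : ∃ x, x ∉ F := by
    by_contra hn
    push Not at hn
    exact hne (eq_univ_of_forall hn)
  have h1 : (Fᶜ.erase x).card = v - F.card - 1 := by
    rw [card_erase_of_mem (mem_compl.2 hx), card_compl, h.hv]
  rw [← h1]
  apply h.avoid_le hb hc (notMem_erase x _)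
  intro H hH hxH
  by_contra hn
  push Not at hn
  apply hF Hᶜ (by simpa using hH)
  rw [card_eq_one]
  refine ⟨x, ?_⟩
  ext y
  simp only [mem_sdiff, mem_compl, mem_singleton]
  constructor
  · rintro ⟨h2, h3⟩
    by_contra hy
    exact h2 (hn y (mem_erase.2 ⟨hy, mem_compl.2 h3⟩))
  · rintro rfl; exact ⟨hxH, hx⟩

namespace Cf

variable {cir : Finset α → Prop} {c ρ : ℕ}

lemma map (h : Cf cir c ρ) (f : β ↪ α) : Cf (fun S : Finset β => cir (S.map f)) c ρ := by
  refine ⟨?_, ?_, ?_⟩
  · intro C hC
    have := h.card _ hC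
    rwa [card_map] at this
  · intro C C' e g hC hC' he he' hg hg'
    obtain ⟨Z, hZ, h1, h2, h3⟩ := h.elim _ _ (f e) (f g) hC hC' (mem_map_of_mem f he)
      (mem_map_of_mem f he') (mem_map_of_mem f hg) (by simpa using hg')
    rw [← map_union, subset_map_iff] at h1
    obtain ⟨Z', h4, rfl⟩ := h1
    exact ⟨Z', hZ, h4, by simpa using h2, by simpa using h3⟩
  · intro U hU
    obtain ⟨C, h1, h2⟩ := h.big (U.map f) (by rw [card_map, hU])
    rw [subset_map_iff] at h1
    obtain ⟨C', h4, rfl⟩ := h1
    exact ⟨C', h4, h2⟩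

lemma eq_of_subset (h : Cf cir c ρ) {C C' : Finset α} (hC : cir C) (hC' : cir C') (hs : C ⊆ C') :
    C = C' := by
  apply eq_of_subset_of_card_le hs
  rw [h.card _ hC, h.card _ hC']

lemma cf_full_self (h : Cf cir c ρ) {C : Finset α} (hC : cir C) : Full cir c C := by
  intro C' h1 h2
  have : C' = C := eq_of_subset_of_card_le h1 (by rw [h.card _ hC, h2])
  exact this ▸ hC

/-- weak elimination -/
lemma elim' (h : Cf cir c ρ) {C C' : Finset α} {e : α} (hC : cir C) (hC' : cir C') (hne : C ≠ C')
    (he : e ∈ C) (he' : e ∈ C') : ∃ Z, cir Z ∧ Z ⊆ (C ∪ C').erase e := by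
  obtain ⟨f, hf, hf'⟩ : ∃ f ∈ C, f ∉ C' := by
    by_contra hn
    push Not at hn
    exact hne (h.eq_of_subset hC hC' hn)
  obtain ⟨Z, hZ, h1, h2, -⟩ := h.elim C C' e f hC hC' he he' hf hf'
  exact ⟨Z, hZ, subset_erase.2 ⟨h1, h2⟩⟩

/-- Induction on `(Z \ insert x S).card`, eliminating one point at a time. -/
lemma elim_down (h : Cf cir c ρ) {Z S : Finset α} {x : α} (hZ : cir Z) (hx : x ∈ Z) (hxS : x ∉ S)
    (hE : ∀ e ∈ Z, e ≠ x → e ∉ S → ∃ K, cir K ∧ e ∈ K ∧ K ⊆ insert e S) :
    ∃ Z', cir Z' ∧ x ∈ Z' ∧ Z' ⊆ insert x S := by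
  generalize hm : (Z \ insert x S).card = m
  induction m using Nat.strong_induction_on generalizing Z with
  | _ m ih =>
    by_cases hs : Z ⊆ insert x S
    · exact ⟨Z, hZ, hx, hs⟩
    · obtain ⟨e, he, he'⟩ := not_subset.1 hs
      have he1 : e ≠ x := fun hh => he' (hh ▸ mem_insert_self _ _)
      have he2 : e ∉ S := fun hh => he' (mem_insert_of_mem hh)
      obtain ⟨K, hK, heK, hKS⟩ := hE e he he1 he2
      have hxK : x ∉ K := by
        intro hh
        rcases mem_insert.1 (hKS hh) with h1 | h1
        · exact he1 h1.symm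
        · exact hxS h1
      obtain ⟨Z', hZ', h1, h2, h3⟩ := h.elim Z K e x hZ hK he heK hx hxK
      have key : ∀ y ∈ Z', y ∉ S → y ∈ Z := by
        intro y hy hyS
        rcases mem_union.1 (h1 hy) with h4 | h4
        · exact h4
        · rcases mem_insert.1 (hKS h4) with h5 | h5
          · exact absurd (h5 ▸ hy) h2
          · exact absurd h5 hyS
      refine ih (Z' \ insert x S).card ?_ hZ' h3 (fun y hy hyx hyS => hE y (key y hy hyS) hyx hyS) rfl
      rw [← hm]
      apply card_lt_card
      refine ⟨?_, ?_⟩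
      · intro y hy
        rw [mem_sdiff] at hy ⊢
        exact ⟨key y hy.1 (fun hh => hy.2 (mem_insert_of_mem hh)), hy.2⟩
      · intro hh
        exact h2 (mem_sdiff.1 (hh (mem_sdiff.2 ⟨he, he'⟩))).1

/-- `elim_down` with `S` any subset of `U` with `c - 1` points. -/
lemma full_insert (h : Cf cir c ρ) {U Z : Finset α} {x : α} (hU : Full cir c U) (hZ : cir Z)
    (hx : x ∈ Z) (hs : Z ⊆ insert x U) : Full cir c (insert x U) := by
  by_cases hxU : x ∈ U
  · rwa [insert_eq_of_mem hxU]
  intro C hC hcard
  by_cases hxC : x ∈ C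
  · have hS : C.erase x ⊆ U := by
      intro y hy
      rw [mem_erase] at hy
      exact (mem_insert.1 (hC hy.2)).resolve_left hy.1
    have hcS := card_erase_add_one hxC
    obtain ⟨Z', hZ', -, h2⟩ := h.elim_down (S := C.erase x) hZ hx (notMem_erase _ _) (by
      intro e he hex heS
      have heU : e ∈ U := (mem_insert.1 (hs he)).resolve_left hex
      refine ⟨insert e (C.erase x), hU _ (insert_subset heU hS) ?_, mem_insert_self _ _, subset_rfl⟩
      rw [card_insert_of_notMem heS]; omega)
    rw [insert_erase hxC] at h2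
    have : Z' = C := eq_of_subset_of_card_le h2 (by rw [h.card _ hZ', hcard])
    exact this ▸ hZ'
  · apply hU C _ hcard
    intro y hy
    exact (mem_insert.1 (hC hy)).resolve_left (fun hh => hxC (hh ▸ hy))

/-- Insert the points of `U'` one at a time. -/
lemma full_union (h : Cf cir c ρ) (hc : 1 ≤ c) {U U' : Finset α} (hU : Full cir c U)
    (hU' : Full cir c U') (hi : c ≤ (U ∩ U').card + 1) : Full cir c (U ∪ U') := by
  obtain ⟨S, hS, hcS⟩ := exists_subset_card_eq (s := U ∩ U') (n := c - 1) (by omega)
  have key : ∀ T : Finset α, T ⊆ U' → Full cir c (U ∪ T) := by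
    intro T
    induction T using Finset.induction_on with
    | empty => intro _; simpa using hU
    | insert y T hy ih =>
      intro hT
      have h1 := ih ((subset_insert _ _).trans hT)
      rw [union_insert]
      by_cases hyU : y ∈ U
      · rwa [insert_eq_of_mem (mem_union_left _ hyU)]
      have hyS : y ∉ S := fun hh => hyU (mem_inter.1 (hS hh)).1
      have hZ : cir (insert y S) := by
        apply hU' _ (insert_subset (hT (mem_insert_self _ _)) (hS.trans inter_subset_right))
        rw [card_insert_of_notMem hyS]; omega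
      exact h.full_insert h1 hZ (mem_insert_self _ _)
        (insert_subset_insert _ ((hS.trans inter_subset_left).trans subset_union_left))
  exact key U' subset_rfl

/-- A maximal full superset is closed (`full_insert`). -/
lemma exists_closed (h : Cf cir c ρ) {U : Finset α} (hU : Full cir c U) :
    ∃ F, U ⊆ F ∧ Full cir c F ∧ Closed cir F := by
  classical
  obtain ⟨F, hF, hmax⟩ := exists_max_image (univ.filter (fun F => U ⊆ F ∧ Full cir c F)) Finset.card
    ⟨U, by simp [hU]⟩
  simp only [mem_filter, mem_univ, true_and] at hF hmax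
  refine ⟨F, hF.1, hF.2, ?_⟩
  intro C hC h1
  obtain ⟨x, hx⟩ := card_eq_one.1 h1
  have hx1 : x ∈ C \ F := hx ▸ mem_singleton_self x
  rw [mem_sdiff] at hx1
  have h2 : C ⊆ insert x F := by
    intro y hy
    by_cases hyF : y ∈ F
    · exact mem_insert_of_mem hyF
    · have : y ∈ C \ F := mem_sdiff.2 ⟨hy, hyF⟩
      rw [hx, mem_singleton] at this
      exact this ▸ mem_insert_self _ _
  have h3 := hmax (insert x F) ⟨hF.1.trans (subset_insert _ _), h.full_insert hF.2 hC hx1.1 h2⟩
  rw [card_insert_of_notMem hx1.2] at h3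
  omega

/-- Take `C` meeting `F`, not inside `F`, with `X = C \ F` minimal; `2 ≤ |X| < c`.  Every subset
`A` of `F` with `c - 1` points contains exactly one set `W` such that `W ∪ X` is a circuit
(existence: `elim_down` with `S = A ∪ X.erase x`; uniqueness: eliminate `x ∈ X`; both use the
minimality).  Take such `A`, `W`, a point `w ∈ W` and `Z = A.erase w`, which contains no such set.
For `f ∈ F \ Z` let `W f ⊆ insert f Z`; then `f ∈ W f`, the sets `Z \ W f` are nonempty and pairwise
disjoint (if `z` lay in two of them, `W f` and `W f'` would lie in `insert f (insert f' (Z.erase z))`).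
So `|F| - (c - 2) ≤ c - 2`. -/
lemma block_bound (h : Cf cir c ρ) {F C : Finset α} (hF : Full cir c F) (hcl : Closed cir F)
    (hc : c ≤ F.card + 1) (hC : cir C) (h1 : (C ∩ F).Nonempty) (h2 : ¬ C ⊆ F) :
    F.card + 4 ≤ 2 * c := by
  classical
  obtain ⟨C0, hC0, hmin⟩ := exists_min_image
    (univ.filter (fun Z => cir Z ∧ (Z ∩ F).Nonempty ∧ ¬ Z ⊆ F)) (fun Z => (Z \ F).card)
    ⟨C, by simp [hC, h1, h2]⟩
  simp only [mem_filter, mem_univ, true_and] at hC0 hmin
  obtain ⟨hC0, hC1, hC2⟩ := hC0
  set X := C0 \ F with hX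
  have hXF : ∀ y ∈ X, y ∉ F := fun y hy => (mem_sdiff.1 hy).2
  have hXne : X.Nonempty := sdiff_nonempty.2 hC2
  have hX2 : 2 ≤ X.card := by
    have a1 := card_pos.2 hXne
    have a2 := hcl C0 hC0
    rw [← hX] at a2
    omega
  have hXc : X.card < c := by
    have a1 := card_pos.2 hC1
    have a2 := card_sdiff_add_card_inter C0 F
    have a3 := h.card _ hC0
    rw [← hX] at a2
    omega
  have small : ∀ Z, cir Z → (Z \ F).card < X.card → Z ⊆ F := by
    intro Z hZ hlt
    by_contra hn
    have a2 := card_sdiff_add_card_inter Z F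
    have a3 := h.card _ hZ
    have a4 : (Z ∩ F).Nonempty := card_pos.1 (by omega)
    have := hmin Z ⟨hZ, a4, hn⟩
    omega
  obtain ⟨x, hx⟩ := hXne
  have hxF := hXF x hx
  -- existence
  have ex : ∀ A : Finset α, A ⊆ F → A.card + 1 = c → ∃ Z, cir Z ∧ X ⊆ Z ∧ Z ⊆ A ∪ X := by
    intro A hA hcA
    obtain ⟨Z, hZ, a1, a2⟩ := h.elim_down (S := A ∪ X.erase x) hC0 (mem_sdiff.1 hx).1
      (by
        intro hh
        rcases mem_union.1 hh with a | a
        · exact hxF (hA a)
        · exact notMem_erase _ _ a)
      (by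
        intro e he hex heS
        rw [mem_union, not_or] at heS
        have heF : e ∈ F := by
          by_contra hn
          exact heS.2 (mem_erase.2 ⟨hex, mem_sdiff.2 ⟨he, hn⟩⟩)
        refine ⟨insert e A, hF _ (insert_subset heF hA) ?_, mem_insert_self _ _,
          insert_subset_insert _ subset_union_left⟩
        rw [card_insert_of_notMem heS.1]; omega)
    have a3 : Z ⊆ A ∪ X := by
      intro y hy
      rcases mem_insert.1 (a2 hy) with a | a
      · exact mem_union_right _ (a ▸ hx)
      · rcases mem_union.1 a with a | a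
        · exact mem_union_left _ a
        · exact mem_union_right _ (mem_of_mem_erase a)
    refine ⟨Z, hZ, ?_, a3⟩
    have a4 : Z \ F ⊆ X := by
      intro y hy
      rw [mem_sdiff] at hy
      exact (mem_union.1 (a3 hy.1)).resolve_left (fun hh => hy.2 (hA hh))
    have a5 : ¬ (Z \ F).card < X.card := fun hh => hxF (small Z hZ hh a1)
    have a6 : Z \ F = X := eq_of_subset_of_card_le a4 (by omega)
    rw [← a6]; exact sdiff_subset
  -- uniqueness
  have uniq : ∀ A : Finset α, A ⊆ F → A.card < c → ∀ Z Z', cir Z → cir Z' → X ⊆ Z → X ⊆ Z' →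
      Z ⊆ A ∪ X → Z' ⊆ A ∪ X → Z = Z' := by
    intro A hA hcA Z Z' hZ hZ' a1 a2 a3 a4
    by_contra hne
    obtain ⟨Y, hY, a5⟩ := h.elim' hZ hZ' hne (a1 hx) (a2 hx)
    have a6 : ∀ y ∈ Y, y ≠ x ∧ y ∈ A ∪ X := by
      intro y hy
      have := mem_erase.1 (a5 hy)
      exact ⟨this.1, union_subset a3 a4 this.2⟩
    have a7 : Y \ F ⊆ X.erase x := by
      intro y hy
      rw [mem_sdiff] at hy
      exact mem_erase.2 ⟨(a6 y hy.1).1,
        (mem_union.1 (a6 y hy.1).2).resolve_left (fun hh => hy.2 (hA hh))⟩
    have a8 := card_le_card a7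
    have a9 := card_erase_add_one hx
    have b1 := small Y hY (by omega)
    have b2 : Y ⊆ A := by
      intro y hy
      exact (mem_union.1 (a6 y hy).2).resolve_right (fun hh => hXF y hh (b1 hy))
    have b3 := card_le_card b2
    have b4 := h.card _ hY
    omega
  obtain ⟨A, hA, hcA⟩ := exists_subset_card_eq (s := F) (n := c - 1) (by omega)
  obtain ⟨Z0, hZ0, hXZ0, hZ0A⟩ := ex A hA (by omega)
  obtain ⟨w, hw, hwX⟩ : ∃ w ∈ Z0, w ∉ X := by
    by_contra hn
    push Not at hn
    have a1 := card_le_card (show Z0 ⊆ X from hn)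
    have a2 := h.card _ hZ0
    omega
  have hwA : w ∈ A := (mem_union.1 (hZ0A hw)).resolve_right hwX
  set B := A.erase w with hB
  have hcB : B.card + 1 = A.card := card_erase_add_one hwA
  have hBF : B ⊆ F := (erase_subset _ _).trans hA
  have none : ∀ Z, cir Z → X ⊆ Z → ¬ Z ⊆ B ∪ X := by
    intro Z hZ a1 a2
    have a3 := uniq A hA (by omega) Z Z0 hZ hZ0 a1 hXZ0
      (a2.trans (union_subset_union_left (erase_subset _ _))) hZ0A
    rcases mem_union.1 (a2 (a3 ▸ hw)) with a | a
    · exact notMem_erase _ _ a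
    · exact hwX a
  have step : ∀ f, ∃ z, ∃ Z, f ∈ F \ B → z ∈ B ∧ cir Z ∧ X ⊆ Z ∧ f ∈ Z ∧
      Z ⊆ insert f (B.erase z) ∪ X := by
    intro f
    by_cases hf : f ∈ F \ B
    swap
    · exact ⟨f, ∅, fun hh => absurd hh hf⟩
    have hf' := mem_sdiff.1 hf
    obtain ⟨Z, hZ, a1, a2⟩ := ex (insert f B) (insert_subset hf'.1 hBF)
      (by rw [card_insert_of_notMem hf'.2]; omega)
    have a3 : f ∈ Z := by
      by_contra hn
      apply none Z hZ a1
      intro y hy
      rcases mem_union.1 (a2 hy) with a | a
      · exact mem_union_left _ ((mem_insert.1 a).resolve_left (fun hh => hn (hh ▸ hy)))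
      · exact mem_union_right _ a
    obtain ⟨z, hz, hzZ⟩ : ∃ z ∈ B, z ∉ Z := by
      by_contra hn
      push Not at hn
      have a4 : insert f B ∪ X ⊆ Z := union_subset (insert_subset a3 hn) a1
      have a5 := card_le_card a4
      have a6 : Disjoint (insert f B) X := by
        rw [disjoint_right]
        intro y hy hy'
        exact hXF y hy (insert_subset hf'.1 hBF hy')
      rw [card_union_of_disjoint a6, card_insert_of_notMem hf'.2, h.card _ hZ] at a5
      omega
    refine ⟨z, Z, fun _ => ⟨hz, hZ, a1, a3, ?_⟩⟩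
    intro y hy
    rcases mem_union.1 (a2 hy) with a | a
    · apply mem_union_left
      rcases mem_insert.1 a with a | a
      · exact a ▸ mem_insert_self _ _
      · exact mem_insert_of_mem (mem_erase.2 ⟨fun hh => hzZ (hh ▸ hy), a⟩)
    · exact mem_union_right _ a
  choose g W hg using step
  have hle : (F \ B).card ≤ B.card := by
    apply card_le_card_of_injOn g
    · intro f hf
      exact (hg f (mem_coe.1 hf)).1
    · intro f hf f' hf' hgg
      by_contra hne
      obtain ⟨a1, a2, a3, a4, a5⟩ := hg f (mem_coe.1 hf)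
      obtain ⟨b1, b2, b3, b4, b5⟩ := hg f' (mem_coe.1 hf')
      rw [← hgg] at b5
      have hf1 := mem_sdiff.1 (mem_coe.1 hf)
      have hf2 := mem_sdiff.1 (mem_coe.1 hf')
      have c1 := card_insert_le f (insert f' (B.erase (g f)))
      have c2 := card_insert_le f' (B.erase (g f))
      have c3 := card_erase_add_one a1
      have c4 := uniq (insert f (insert f' (B.erase (g f))))
        (insert_subset hf1.1 (insert_subset hf2.1 ((erase_subset _ _).trans hBF))) (by omega)
        (W f) (W f') a2 b2 a3 b3
        (a5.trans (union_subset_union_left (insert_subset_insert _ (subset_insert _ _))))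
        (b5.trans (union_subset_union_left (subset_insert _ _)))
      rcases mem_union.1 (b5 (c4 ▸ a4)) with a | a
      · rcases mem_insert.1 a with a | a
        · exact hne a
        · exact hf1.2 (mem_of_mem_erase a)
      · exact hXF f a hf1.1
  have := card_sdiff_add_card_eq_card hBF
  omega

open Classical in
/-- Two circuits in a set with `c + 1` points make it full (`full_union`). -/
lemma count_succ (h : Cf cir c c) (hc : 1 ≤ c) {W : Finset α} (hW : W.card = c + 1) :
    (W.powerset.filter cir).card = if Full cir c W then c + 1 else 1 := by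
  split_ifs with hfull
  · have : W.powerset.filter cir = powersetCard c W := by
      ext C
      rw [mem_filter, mem_powerset, mem_powersetCard]
      exact ⟨fun hh => ⟨hh.1, h.card _ hh.2⟩, fun hh => ⟨hh.1, hfull C hh.1 hh.2⟩⟩
    rw [this, card_powersetCard, hW, Nat.choose_succ_self_right]
  · obtain ⟨C, hCW, hC⟩ := h.big W hW
    rw [card_eq_one]
    refine ⟨C, ?_⟩
    ext C'
    rw [mem_filter, mem_powerset, mem_singleton]
    refine ⟨fun hh => ?_, fun hh => hh ▸ ⟨hCW, hC⟩⟩
    by_contra hne
    apply hfull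
    have a1 := card_le_card (union_subset hCW hh.1)
    have a2 := card_union_add_card_inter C C'
    have a3 := h.card _ hC
    have a4 := h.card _ hh.2
    have a5 : C.card < (C ∪ C').card := by
      apply card_lt_card
      refine ⟨subset_union_left, fun hs => hne ?_⟩
      exact h.eq_of_subset hh.2 hC (subset_union_right.trans hs)
    have a6 : C ∪ C' = W := eq_of_subset_of_card_le (union_subset hCW hh.1) (by omega)
    rw [← a6]
    exact h.full_union hc (cf_full_self h hC) (cf_full_self h hh.2) (by omega)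

open Classical in
/-- Count pairs `C ⊆ W ⊆ U` with `C` a circuit and `|W| = c + 1`. -/
lemma count (h : Cf cir c c) (hc : 1 ≤ c) (U : Finset α) :
    (U.powerset.filter cir).card * (U.card - c) =
      U.card.choose (c + 1) + c * ((powersetCard (c + 1) U).filter (Full cir c)).card := by
  have key : ∑ W ∈ powersetCard (c + 1) U, (W.powerset.filter cir).card =
      ∑ C ∈ U.powerset.filter cir, ((powersetCard (c + 1) U).filter (fun W => C ⊆ W)).card := by
    have e1 : ∀ W ∈ powersetCard (c + 1) U, (W.powerset.filter cir).card =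
        ∑ C ∈ U.powerset.filter cir, if C ⊆ W then 1 else 0 := by
      intro W hW
      rw [← card_filter]
      congr 1
      ext C
      simp only [mem_filter, mem_powerset]
      exact ⟨fun hh => ⟨⟨hh.1.trans (mem_powersetCard.1 hW).1, hh.2⟩, hh.1⟩,
        fun hh => ⟨hh.2, hh.1.2⟩⟩
    rw [sum_congr rfl e1, sum_comm]
    exact sum_congr rfl (fun C _ => (card_filter _ _).symm)
  have e2 : ∀ C ∈ U.powerset.filter cir,
      ((powersetCard (c + 1) U).filter (fun W => C ⊆ W)).card = U.card - c := by
    intro C hC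
    rw [mem_filter, mem_powerset] at hC
    have a1 := h.card _ hC.2
    rw [← a1, ← card_sdiff_of_subset hC.1]
    symm
    apply card_bij (fun y _ => insert y C)
    · intro y hy
      rw [mem_sdiff] at hy
      rw [mem_filter, mem_powersetCard]
      exact ⟨⟨insert_subset hy.1 hC.1, card_insert_of_notMem hy.2⟩, subset_insert _ _⟩
    · intro y hy y' hy' hyy
      rw [mem_sdiff] at hy
      have : y ∈ insert y' C := hyy ▸ mem_insert_self _ _
      exact (mem_insert.1 this).resolve_right hy.2
    · intro W hW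
      rw [mem_filter, mem_powersetCard] at hW
      obtain ⟨y, hy, hy'⟩ := exists_mem_notMem_of_card_lt_card (show C.card < W.card by omega)
      refine ⟨y, mem_sdiff.2 ⟨hW.1.1 hy, hy'⟩, ?_⟩
      apply eq_of_subset_of_card_le (insert_subset hy hW.2)
      rw [card_insert_of_notMem hy']; omega
  rw [sum_congr rfl e2, sum_const, smul_eq_mul] at key
  rw [← key]
  have e3 : ∀ W ∈ powersetCard (c + 1) U, (W.powerset.filter cir).card =
      1 + c * (if Full cir c W then 1 else 0) := by
    intro W hW
    rw [h.count_succ hc (mem_powersetCard.1 hW).2]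
    split_ifs <;> omega
  rw [sum_congr rfl e3, sum_add_distrib, ← mul_sum, ← card_filter, sum_const, card_powersetCard,
    smul_eq_mul, mul_one]

/-- Each `y ∉ T` gives `t ∈ T` with `insert y (T.erase t)` a circuit; two points with the same `t`
give a full set with `c + 1` points. -/
lemma card_le_two_mul (h : Cf cir c c) (hc : 1 ≤ c) {T : Finset α} (hT : T.card = c)
    (hn : ¬ cir T) (hf : ∀ W : Finset α, W.card = c + 1 → ¬ Full cir c W) :
    Fintype.card α ≤ 2 * c := by
  have step : ∀ y, ∃ t, y ∈ Tᶜ → t ∈ T ∧ cir (insert y (T.erase t)) := by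
    intro y
    by_cases hy : y ∈ Tᶜ
    swap
    · exact ⟨y, fun hh => absurd hh hy⟩
    have hy' := mem_compl.1 hy
    obtain ⟨C, hC1, hC⟩ := h.big (insert y T) (by rw [card_insert_of_notMem hy', hT])
    have a1 := h.card _ hC
    obtain ⟨t, ht, htC⟩ : ∃ t ∈ T, t ∉ C := by
      by_contra hh
      push Not at hh
      have : T = C := eq_of_subset_of_card_le hh (by omega)
      exact hn (this ▸ hC)
    refine ⟨t, fun _ => ⟨ht, ?_⟩⟩
    have a2 : C ⊆ insert y (T.erase t) := by
      intro z hz
      rcases mem_insert.1 (hC1 hz) with a | a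
      · exact a ▸ mem_insert_self _ _
      · exact mem_insert_of_mem (mem_erase.2 ⟨fun hh => htC (hh ▸ hz), a⟩)
    have a3 := card_insert_le y (T.erase t)
    have a4 := card_erase_add_one ht
    have : C = insert y (T.erase t) := eq_of_subset_of_card_le a2 (by omega)
    exact this ▸ hC
  choose g hg using step
  have hle : Tᶜ.card ≤ T.card := by
    apply card_le_card_of_injOn g
    · intro y hy
      exact (hg y (mem_coe.1 hy)).1
    · intro y hy y' hy' hgg
      by_contra hne
      obtain ⟨a1, a2⟩ := hg y (mem_coe.1 hy)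
      obtain ⟨b1, b2⟩ := hg y' (mem_coe.1 hy')
      rw [← hgg] at b2
      have c1 := card_erase_add_one a1
      have c2 : T.erase (g y) ⊆ insert y (T.erase (g y)) ∩ insert y' (T.erase (g y)) :=
        subset_inter (subset_insert _ _) (subset_insert _ _)
      have c3 := card_le_card c2
      have c4 := h.full_union hc (cf_full_self h a2) (cf_full_self h b2) (by omega)
      refine hf _ ?_ c4
      have d1 : y ∉ T := mem_compl.1 (mem_coe.1 hy)
      have d2 : y' ∉ T := mem_compl.1 (mem_coe.1 hy')
      have : insert y (T.erase (g y)) ∪ insert y' (T.erase (g y)) =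
          insert y (insert y' (T.erase (g y))) := by
        ext z; simp only [mem_union, mem_insert]; tauto
      rw [this, card_insert_of_notMem, card_insert_of_notMem]
      · omega
      · exact fun hh => d2 (mem_of_mem_erase hh)
      · intro hh
        rcases mem_insert.1 hh with a | a
        · exact hne a
        · exact d1 (mem_of_mem_erase a)
  have := card_add_card_compl T
  omega

end Cf

end Pool.Agent.MP_337c4e_co

end

section

/-! For each value of `v - k` there are finitely many designs that are not complete. -/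

set_option linter.unusedSectionVars false
set_option linter.unusedVariables false

namespace Pool.Agent.MP_337c4e_co

open Finset RkFn

variable {α : Type} [Fintype α] [DecidableEq α]

/-- The characteristic vectors in `B → ZMod p` are linearly independent (pair with each of them). -/
lemma odd_town {p : ℕ} (hp : p.Prime) (B : Finset α) (𝓐 : Finset (Finset α))
    (hB : ∀ A ∈ 𝓐, A ⊆ B) (h1 : ∀ A ∈ 𝓐, ¬ p ∣ A.card)
    (h2 : ∀ A ∈ 𝓐, ∀ A' ∈ 𝓐, A ≠ A' → p ∣ (A ∩ A').card) : 𝓐.card ≤ B.card := by
  have := Fact.mk hp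
  let χ : 𝓐 → B → ZMod p := fun A x => if (x : α) ∈ (A : Finset α) then 1 else 0
  have dot : ∀ A A' : 𝓐, ∑ x : B, χ A x * χ A' x = (((A : Finset α) ∩ A').card : ZMod p) := by
    intro A A'
    have e1 : ∀ x : B, χ A x * χ A' x = if (x : α) ∈ (A : Finset α) ∩ A' then 1 else 0 := by
      intro x
      simp only [χ, mem_inter]
      by_cases a : (x : α) ∈ (A : Finset α) <;> by_cases a' : (x : α) ∈ (A' : Finset α) <;>
        simp [a, a']
    rw [sum_congr rfl (fun x _ => e1 x),
      sum_coe_sort B (fun x => if x ∈ (A : Finset α) ∩ A' then (1 : ZMod p) else 0), sum_boole]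
    congr 2
    ext x
    rw [mem_filter]
    exact ⟨fun hh => hh.2, fun hh => ⟨hB _ A.2 (mem_inter.1 hh).1, hh⟩⟩
  have hli : LinearIndependent (ZMod p) χ := by
    rw [Fintype.linearIndependent_iff]
    intro g hg A
    have e1 : ∑ x : B, (∑ A', g A' • χ A') x * χ A x = 0 := by rw [hg]; simp
    simp only [Finset.sum_apply, Pi.smul_apply, smul_eq_mul, sum_mul, mul_assoc] at e1
    rw [sum_comm] at e1
    simp only [← mul_sum, dot] at e1
    rw [sum_eq_single A] at e1
    · rw [inter_self] at e1
      rcases mul_eq_zero.1 e1 with a | a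
      · exact a
      · exact absurd ((ZMod.natCast_eq_zero_iff _ _).1 a) (h1 _ A.2)
    · intro A' _ hne
      rw [(ZMod.natCast_eq_zero_iff _ _).2 (h2 _ A'.2 _ A.2 (fun hh => hne (Subtype.ext hh))),
        mul_zero]
    · intro hh; exact absurd (mem_univ A) hh
  have := hli.fintype_card_le_finrank
  simpa using this

namespace IsDes

variable {R : RkFn α} {b v r k lam c ρ : ℕ}

lemma bound_basis (R : RkFn α) : ∃ Y, R.Ind Y ∧ Y.card = R.rk univ := by
  obtain ⟨Y, -, -, h1, h2⟩ := exists_ind_between (R := R) (X := ∅) (F := univ)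
    (by simp [Ind, R.rk_empty]) (empty_subset _)
  exact ⟨Y, h1, h2⟩

lemma bound_val (h : IsDes R b v r k lam) (hc : v = k + c) {Y : Finset α} (hY : R.Ind Y)
    (hn : Y.card = R.rk univ) {y : α} (hy : y ∈ Y) :
    R.cl (Y.erase y) ∈ R.hyp ∧ y ∉ R.cl (Y.erase y) ∧
      ((R.cl (Y.erase y))ᶜ.erase y).card = c - 1 ∧ (R.cl (Y.erase y))ᶜ.erase y ⊆ Yᶜ := by
  have a1 : R.rk (Y.erase y) = (Y.erase y).card := hY.subset (erase_subset _ _)
  have a2 := card_erase_add_one hy
  have a3 : R.cl (Y.erase y) ∈ R.hyp := cl_mem_hyp (by omega)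
  have a4 : y ∉ R.cl (Y.erase y) := by
    have := hY.notMem_cl hy (mem_singleton_self y)
    rwa [sdiff_singleton_eq_erase] at this
  refine ⟨a3, a4, ?_, ?_⟩
  · have b1 := h.hk _ a3
    have b2 := h.hv
    rw [card_erase_of_mem (mem_compl.2 a4), card_compl]
    omega
  · intro x hx
    rw [mem_erase, mem_compl] at hx
    rw [mem_compl]
    exact fun hh => hx.2 (subset_cl _ (mem_erase.2 ⟨hx.1, hh⟩))

/-- Take a basis `Y`.  For `x ∉ Y` let `S x = {y ∈ Y | x ∉ cl (Y.erase y)}`; then `x ∈ cl (S x)`
(`Ind.mem_cl_sdiff`), so `avoid_le` gives `v - 1 ≤ |S x| * (c - 1)`.  The sum of the `|S x|` is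
`|Y| * (c - 1)`, and `|Y| ≤ v - 1`. -/
lemma corank_le (h : IsDes R b v r k lam) (hb : v < b) (hc : v = k + c)
    (hρ : v = R.rk univ + ρ) : ρ ≤ (c - 1) ^ 2 := by
  obtain ⟨Y, hY, hn⟩ := bound_basis R
  have hv := h.hv
  have hk2 := h.k_lt hb
  have hrk := h.rank_le hb
  have hYc : Yᶜ.card = ρ := by
    have := card_add_card_compl Y
    omega
  have a1 : ∀ x ∈ Yᶜ, v - 1 ≤ (Y.filter (fun y => x ∉ R.cl (Y.erase y))).card * (c - 1) := by
    intro x hx
    apply h.avoid_le hb hc (x := x) (fun hh => mem_compl.1 hx (mem_filter.1 hh).1)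
    intro H hH hxH
    by_contra hcon
    push Not at hcon
    have hxY : x ∈ R.cl Y := by
      rw [mem_cl]
      have b1 := rk_le_univ (R := R) (insert x Y)
      have b2 := R.mono (subset_insert x Y)
      have b3 : R.rk Y = Y.card := hY
      omega
    have b1 := hY.mem_cl_sdiff (filter_subset (fun y => x ∈ R.cl (Y.erase y)) Y) hxY
      (fun y hy => (mem_filter.1 hy).2)
    apply hxH
    refine (mem_hyp.1 hH).1.cl_subset ?_ b1
    intro y hy
    rw [mem_sdiff] at hy
    exact hcon y (mem_filter.2 ⟨hy.1, fun hh => hy.2 (mem_filter.2 ⟨hy.1, hh⟩)⟩)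
  have a2 : ∑ x ∈ Yᶜ, (Y.filter (fun y => x ∉ R.cl (Y.erase y))).card ≤ Y.card * (c - 1) := by
    simp only [card_filter]
    rw [sum_comm, ← smul_eq_mul, ← sum_const]
    apply sum_le_sum
    intro y hy
    rw [← card_filter, ← (bound_val h hc hY hn hy).2.2.1]
    apply card_le_card
    intro x hx
    rw [mem_filter] at hx
    exact mem_erase.2 ⟨fun hh => mem_compl.1 hx.1 (hh ▸ hy), mem_compl.2 hx.2⟩
  have a3 := sum_le_sum a1
  rw [sum_const, smul_eq_mul, hYc, ← sum_mul] at a3
  have a4 : ρ * (v - 1) ≤ (c - 1) ^ 2 * (v - 1) := by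
    calc ρ * (v - 1) ≤ Y.card * (c - 1) * (c - 1) := a3.trans (Nat.mul_le_mul_right _ a2)
      _ ≤ (v - 1) * (c - 1) * (c - 1) :=
        Nat.mul_le_mul_right _ (Nat.mul_le_mul_right _ (by omega))
      _ = (c - 1) ^ 2 * (v - 1) := by ring
  exact Nat.le_of_mul_le_mul_right a4 (by omega)

/-- `exists_closed`, `complete_of_full`, `exists_avoid_pair`, `block_bound`. -/
lemma full_le (h : IsDes R b v r k lam) (hb : v < b) (hc : v = k + c) (hk : b ≠ v.choose k)
    {U : Finset α} (hU : Full (fun C => Cᶜ ∈ R.hyp) c U) (hcU : c ≤ U.card + 1) :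
    U.card + 4 ≤ 2 * c := by
  have hv := h.hv
  have hk2 := h.k_lt hb
  have hr := rk_le_card (R := R) univ
  rw [card_univ] at hr
  have hcf := h.cf (ρ := v - R.rk univ) hb hc (by omega)
  obtain ⟨F, hUF, hF, hcl⟩ := hcf.exists_closed hU
  have hle := card_le_card hUF
  obtain ⟨x, hx⟩ : ∃ x, x ∉ F := by
    by_contra hn
    push Not at hn
    rw [eq_univ_of_forall hn] at hF
    exact hk (h.complete_of_full hc hF)
  obtain ⟨y, hy⟩ : F.Nonempty := card_pos.1 (by omega)
  obtain ⟨H, hH, h1, h2⟩ := h.exists_avoid_pair hb (x := x) (y := y) (fun hh => hx (hh ▸ hy))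
  have := hcf.block_bound (C := Hᶜ) hF hcl (by omega) (by simpa using hH)
    ⟨y, mem_inter.2 ⟨mem_compl.2 h2, hy⟩⟩ (fun hh => hx (hh (mem_compl.2 h1)))
  omega

/-- For a basis `Y` the map `y ↦ (cl (Y.erase y))ᶜ.erase y` takes values in the subsets of `Yᶜ`
with `c - 1` points; a fibre `T` over `A` makes `A ∪ T` full (`full_insert`), so it has at most
`c - 3` points by `full_le`. -/
lemma rank_le_image (h : IsDes R b v r k lam) (hb : v < b) (hc : v = k + c)
    (hk : b ≠ v.choose k) {Y : Finset α} (hY : R.Ind Y) (hn : Y.card = R.rk univ) :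
    Y.card ≤ (c - 3) * (Y.image fun y => (R.cl (Y.erase y))ᶜ.erase y).card := by
  have hv := h.hv
  have hk2 := h.k_lt hb
  have hr := rk_le_card (R := R) univ
  rw [card_univ] at hr
  have hcf := h.cf (ρ := v - R.rk univ) hb hc (by omega)
  apply card_le_mul_card_image
  intro A hA
  obtain ⟨y0, hy0, hA0⟩ := mem_image.1 hA
  obtain ⟨-, -, hcA, hAY⟩ := bound_val h hc hY hn hy0
  rw [hA0] at hcA hAY
  have key : ∀ T : Finset α, T ⊆ Y.filter (fun y => (R.cl (Y.erase y))ᶜ.erase y = A) →
      Full (fun C => Cᶜ ∈ R.hyp) c (A ∪ T) := by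
    intro T
    induction T using Finset.induction_on with
    | empty =>
      intro _ C hC hcC
      rw [union_empty] at hC
      have := card_le_card hC
      omega
    | insert y T hy ih =>
      intro hT
      have h1 := ih ((subset_insert _ _).trans hT)
      have h2 := mem_filter.1 (hT (mem_insert_self _ _))
      obtain ⟨b1, b2, -, -⟩ := bound_val h hc hY hn h2.1
      rw [union_insert]
      refine hcf.full_insert (Z := (R.cl (Y.erase y))ᶜ) h1 (by simpa using b1) (mem_compl.2 b2) ?_
      rw [← insert_erase (mem_compl.2 b2), h2.2]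
      exact insert_subset_insert _ subset_union_left
  have hd : Disjoint A (Y.filter (fun y => (R.cl (Y.erase y))ᶜ.erase y = A)) := by
    rw [disjoint_left]
    intro x hx hx'
    exact mem_compl.1 (hAY hx) (mem_filter.1 hx').1
  have := h.full_le hb hc hk (key _ subset_rfl) (by rw [card_union_of_disjoint hd]; omega)
  rw [card_union_of_disjoint hd] at this
  omega

/-- `v = ρ + n ≤ (c - 1) ^ 2 + (c - 3) * ρ.choose (c - 1)`, `Nat.choose_le_pow`. -/
theorem bound (h : IsDes R b v r k lam) (hb : v < b) (hc : v = k + c) (hk : b ≠ v.choose k) :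
    v ≤ c ^ (2 * c) := by
  obtain ⟨Y, hY, hn⟩ := bound_basis R
  have hv := h.hv
  have hk2 := h.k_lt hb
  have hYc := card_add_card_compl Y
  have a1 := h.corank_le (ρ := Yᶜ.card) hb hc (by omega)
  have a2 := h.rank_le_image hb hc hk hY hn
  have a3 : (Y.image fun y => (R.cl (Y.erase y))ᶜ.erase y) ⊆ powersetCard (c - 1) Yᶜ := by
    intro A hA
    obtain ⟨y, hy, rfl⟩ := mem_image.1 hA
    obtain ⟨-, -, b1, b2⟩ := bound_val h hc hY hn hy
    exact mem_powersetCard.2 ⟨b2, b1⟩
  have a4 := card_le_card a3
  rw [card_powersetCard] at a4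
  have a5 := Nat.choose_le_pow Yᶜ.card (c - 1)
  have a6 : Yᶜ.card ≤ c ^ 2 := a1.trans (Nat.pow_le_pow_left (by omega) 2)
  have a7 : Yᶜ.card ^ (c - 1) ≤ (c ^ 2) ^ (c - 1) := Nat.pow_le_pow_left a6 _
  have a8 : c ^ 2 ≤ (c ^ 2) ^ (c - 1) := Nat.le_self_pow (by omega) _
  have a9 : c ^ (2 * c) = c ^ 2 * (c ^ 2) ^ (c - 1) := by
    rw [← pow_succ', ← pow_mul]
    congr 2
    omega
  have b1 : Y.card ≤ (c - 3) * (c ^ 2) ^ (c - 1) :=
    a2.trans (Nat.mul_le_mul_left _ (a4.trans (a5.trans a7)))
  have b2 : c - 3 + 1 ≤ c ^ 2 := le_trans (by omega) (Nat.le_self_pow (by omega) c)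
  calc v = Y.card + Yᶜ.card := by omega
    _ ≤ (c - 3) * (c ^ 2) ^ (c - 1) + (c ^ 2) ^ (c - 1) := Nat.add_le_add b1 (a6.trans a8)
    _ = (c - 3 + 1) * (c ^ 2) ^ (c - 1) := by ring
    _ ≤ c ^ (2 * c) := by rw [a9]; exact Nat.mul_le_mul_right _ b2

/-- Two different values `A`, `A'` of the map in `rank_le_image` meet in `c - d` points, where
`d ≥ 2` divides `c` (`coline_d` for `cl (Y \ {y, y'})`, `Ind.cl_inter`); `odd_town` gives at most
`ρ` values, so `v ≤ (c - 2) * ρ`. -/
theorem bound_primePow (h : IsDes R b v r k lam) (hb : v < b) (hc : v = k + c)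
    (hk : b ≠ v.choose k) (hp : IsPrimePow c) : v ≤ (c - 2) * (c - 1) ^ 2 := by
  obtain ⟨Y, hY, hn⟩ := bound_basis R
  have hv := h.hv
  have hk2 := h.k_lt hb
  have hYc := card_add_card_compl Y
  have a1 := h.corank_le (ρ := Yᶜ.card) hb hc (by omega)
  have a2 := h.rank_le_image hb hc hk hY hn
  obtain ⟨p, m, hp, hm, hpm⟩ := (isPrimePow_nat_iff c).1 hp
  have hpc : p ∣ c := hpm ▸ dvd_pow_self p (by omega)
  have a3 : (Y.image fun y => (R.cl (Y.erase y))ᶜ.erase y).card ≤ Yᶜ.card := by
    apply odd_town hp
    · intro A hA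
      obtain ⟨y, hy, rfl⟩ := mem_image.1 hA
      exact (bound_val h hc hY hn hy).2.2.2
    · intro A hA
      obtain ⟨y, hy, rfl⟩ := mem_image.1 hA
      rw [(bound_val h hc hY hn hy).2.2.1]
      intro hh
      have : p ∣ c - (c - 1) := Nat.dvd_sub hpc hh
      rw [show c - (c - 1) = 1 by omega] at this
      exact hp.one_lt.ne' (Nat.dvd_one.1 this)
    · intro A hA A' hA' hne
      obtain ⟨y, hy, rfl⟩ := mem_image.1 hA
      obtain ⟨y', hy', rfl⟩ := mem_image.1 hA'
      have hyy : y ≠ y' := fun hh => hne (by rw [hh])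
      obtain ⟨b1, b2, b3, b4⟩ := bound_val h hc hY hn hy
      obtain ⟨c1, c2, c3, c4⟩ := bound_val h hc hY hn hy'
      have d1 := hY.cl_inter (erase_subset y Y) (erase_subset y' Y)
      have d2 : Y.erase y ∩ Y.erase y' = (Y.erase y).erase y' := by
        ext z; simp only [mem_inter, mem_erase]; tauto
      have d3 : y' ∈ Y.erase y := mem_erase.2 ⟨hyy.symm, hy'⟩
      have d4 : y ∈ Y.erase y' := mem_erase.2 ⟨hyy, hy⟩
      have d5 : R.rk ((Y.erase y).erase y') = ((Y.erase y).erase y').card :=
        hY.subset ((erase_subset _ _).trans (erase_subset _ _))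
      have d6 := card_erase_add_one d3
      have d7 := card_erase_add_one hy
      rw [d2] at d1
      obtain ⟨d, e1, e2, e3, e4, -⟩ := h.coline_d hb hc (cl_flat ((Y.erase y).erase y'))
        (by rw [rk_cl]; omega)
      rw [← d1] at e2
      have f1 : (R.cl (Y.erase y))ᶜ.erase y ∩ (R.cl (Y.erase y'))ᶜ.erase y' =
          (R.cl (Y.erase y) ∪ R.cl (Y.erase y'))ᶜ := by
        ext z
        simp only [mem_inter, mem_erase, mem_compl, mem_union, not_or]
        refine ⟨fun hh => ⟨hh.1.2, hh.2.2⟩, fun hh => ⟨⟨?_, hh.1⟩, ?_, hh.2⟩⟩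
        · rintro rfl; exact hh.2 (subset_cl _ d4)
        · rintro rfl; exact hh.1 (subset_cl _ d3)
      have f2 := card_add_card_compl (R.cl (Y.erase y) ∪ R.cl (Y.erase y'))
      have f3 := card_union_add_card_inter (R.cl (Y.erase y)) (R.cl (Y.erase y'))
      have f4 := h.hk _ b1
      have f5 := h.hk _ c1
      have f6 : ((R.cl (Y.erase y))ᶜ.erase y ∩ (R.cl (Y.erase y'))ᶜ.erase y').card = c - d := by
        rw [f1]; omega
      have f7 : d ≠ 1 := by
        rintro rfl
        apply hne
        have g1 := eq_of_subset_of_card_le (inter_subset_left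
          (s₁ := (R.cl (Y.erase y))ᶜ.erase y) (s₂ := (R.cl (Y.erase y'))ᶜ.erase y')) (by omega)
        have g2 := eq_of_subset_of_card_le (inter_subset_right
          (s₁ := (R.cl (Y.erase y))ᶜ.erase y) (s₂ := (R.cl (Y.erase y'))ᶜ.erase y')) (by omega)
        exact g1.symm.trans g2
      rw [f6]
      rw [← hpm] at e3
      obtain ⟨i, -, hi⟩ := (Nat.dvd_prime_pow hp).1 e3
      have hi0 : i ≠ 0 := by
        rintro rfl
        exact f7 (by simpa using hi)
      exact Nat.dvd_sub hpc (hi ▸ dvd_pow_self p hi0)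
  have a4 : Y.card ≤ (c - 3) * Yᶜ.card := a2.trans (Nat.mul_le_mul_left _ a3)
  by_cases h3 : 3 ≤ c
  · calc v = Y.card + Yᶜ.card := by omega
      _ ≤ (c - 3) * Yᶜ.card + Yᶜ.card := Nat.add_le_add_right a4 _
      _ = (c - 2) * Yᶜ.card := by rw [show c - 2 = c - 3 + 1 by omega]; ring
      _ ≤ (c - 2) * (c - 1) ^ 2 := Nat.mul_le_mul_left _ a1
  · have hc2 : c = 2 := by omega
    subst hc2
    norm_num at a1 a4
    rw [a4, card_empty] at hYc
    rw [a4] at a1
    simp only [compl_empty, card_univ] at a1 hYc
    omega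

end IsDes

end Pool.Agent.MP_337c4e_co

end

section

/-! The case `v - k = 8`. -/

set_option linter.unusedSectionVars false
set_option linter.unusedVariables false

namespace Pool.Agent.MP_337c4e_co

open Finset RkFn

variable {α : Type} [Fintype α] [DecidableEq α]

open Classical in
/-- `count`: `3 * m = 55 + 8 * f`. -/
lemma Cf.eleven {cir : Finset α → Prop} (h : Cf cir 8 8) {U : Finset α} (hU : U.card = 11) :
    ((powersetCard 9 U).filter (Full cir 8)).card % 3 = 1 := by
  have h1 := h.count (by norm_num) U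
  rw [hU] at h1
  have h2 : Nat.choose 11 (8 + 1) = 55 := by decide
  rw [h2] at h1
  norm_num at h1
  omega

lemma eight_full_mono {cir : Finset α → Prop} {c : ℕ} {U W : Finset α} (hU : Full cir c U)
    (hW : W ⊆ U) : Full cir c W := fun C hC hc => hU C (hC.trans hW) hc

lemma eight_inter {A B U : Finset α} (hA : A ⊆ U) (hB : B ⊆ U) :
    A.card + B.card ≤ U.card + (A ∩ B).card := by
  have h1 := card_union_add_card_inter A B
  have h2 : (A ∪ B).card ≤ U.card := card_le_card (union_subset hA hB)
  omega

lemma eight_union_lt {A B : Finset α} (hAB : ¬ B ⊆ A) : A.card < (A ∪ B).card := by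
  apply card_lt_card
  refine ⟨subset_union_left, fun h => hAB (subset_union_right.trans h)⟩

open Classical in
lemma eight_sum (cir : Finset α → Prop) {U : Finset α} (hU : U.card = 13) :
    ∑ W ∈ powersetCard 11 U, ((powersetCard 9 W).filter (Full cir 8)).card =
      6 * ((powersetCard 9 U).filter (Full cir 8)).card := by
  have h1 : ∀ W ∈ powersetCard 11 U, ((powersetCard 9 W).filter (Full cir 8)).card =
      ∑ A ∈ (powersetCard 9 U).filter (Full cir 8), if A ⊆ W then 1 else 0 := by
    intro W hW
    rw [mem_powersetCard] at hW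
    rw [← card_filter]
    congr 1
    ext A
    simp only [mem_filter, mem_powersetCard]
    constructor
    · rintro ⟨⟨h1, h2⟩, h3⟩
      exact ⟨⟨⟨h1.trans hW.1, h2⟩, h3⟩, h1⟩
    · rintro ⟨⟨⟨-, h2⟩, h3⟩, h4⟩
      exact ⟨⟨h4, h2⟩, h3⟩
  rw [Finset.sum_congr rfl h1, Finset.sum_comm, mul_comm, ← smul_eq_mul, ← sum_const]
  refine Finset.sum_congr rfl fun A hA => ?_
  rw [mem_filter, mem_powersetCard] at hA
  rw [← card_filter, card_filter_powersetCard_subset A U 11 hA.1.1 (by omega), hU, hA.1.2]
  decide

/-- Let `f W` be the number of full 9-subsets of `W`.  The sum of `f W` over the 78 subsets `W` of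
`U` with 11 points is `6 * f U`, and `5 ∣ f U` by `count`.  Two full subsets of `W` with 9 points
have a full union (`full_union`).  If `U` has no full 10-subset then `f W = 1` always and
`f U = 13`.  Otherwise the full 10-subset `T` is unique, `f W = 10` for the three `W ⊇ T` and
`f W = 1` for the others, and `6 ∣ 105`. -/
lemma Cf.thirteen {cir : Finset α → Prop} (h : Cf cir 8 8) {U : Finset α} (hU : U.card = 13) :
    ∃ W, W ⊆ U ∧ W.card = 11 ∧ Full cir 8 W := by
  classical
  by_contra hcon
  push Not at hcon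
  have hbig : ∀ X, X ⊆ U → Full cir 8 X → X.card ≤ 10 := by
    intro X hX hF
    by_contra hc
    obtain ⟨W, hW, hW'⟩ := exists_subset_card_eq (s := X) (n := 11) (by omega)
    exact hcon W (hW.trans hX) hW' (eight_full_mono hF hW)
  have hone : ∀ W ∈ powersetCard 11 U, (∀ T, T ⊆ W → T.card = 10 → ¬ Full cir 8 T) →
      ((powersetCard 9 W).filter (Full cir 8)).card = 1 := by
    intro W hW hT
    rw [mem_powersetCard] at hW
    have h1 := h.eleven hW.2
    have h2 : ((powersetCard 9 W).filter (Full cir 8)).card ≤ 1 := by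
      rw [card_le_one]
      intro A hA B hB
      rw [mem_filter, mem_powersetCard] at hA hB
      by_contra hne
      have h3 := eight_inter hA.1.1 hB.1.1
      have h4 := h.full_union (by norm_num) hA.2 hB.2 (by omega)
      have h5 : A ∪ B ⊆ W := union_subset hA.1.1 hB.1.1
      have h6 := hbig _ (h5.trans hW.1) h4
      have h7 : ¬ B ⊆ A := fun hs => hne (eq_of_subset_of_card_le hs (by omega)).symm
      have h8 := eight_union_lt h7
      exact hT _ h5 (by omega) h4
    omega
  have hsum := eight_sum cir hU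
  have hcard : (powersetCard 11 U).card = 78 := by
    rw [card_powersetCard, hU]
    decide
  by_cases hex : ∃ T, T ⊆ U ∧ T.card = 10 ∧ Full cir 8 T
  · obtain ⟨T, hTU, hT, hTF⟩ := hex
    have huniq : ∀ X, X ⊆ U → Full cir 8 X → 7 ≤ (T ∩ X).card → X ⊆ T := by
      intro X hX hXF h7
      by_contra hs
      have h1 := h.full_union (by norm_num) hTF hXF (by omega)
      have h2 := hbig _ (union_subset hTU hX) h1
      have h3 := eight_union_lt hs
      omega
    have hall : ∀ W ∈ powersetCard 11 U, ((powersetCard 9 W).filter (Full cir 8)).card =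
        1 + if T ⊆ W then 9 else 0 := by
      intro W hW
      have hW' := mem_powersetCard.1 hW
      split_ifs with hTW
      · have h1 : (powersetCard 9 W).filter (Full cir 8) = powersetCard 9 T := by
          ext A
          simp only [mem_filter, mem_powersetCard]
          constructor
          · rintro ⟨⟨h1, h2⟩, h3⟩
            have h4 := eight_inter hTW h1
            exact ⟨huniq A (h1.trans hW'.1) h3 (by omega), h2⟩
          · rintro ⟨h1, h2⟩
            exact ⟨⟨h1.trans hTW, h2⟩, eight_full_mono hTF h1⟩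
        rw [h1, card_powersetCard, hT]
        decide
      · refine hone W hW fun T' h1 h2 h3 => hTW ?_
        have h4 := eight_inter hTU (h1.trans hW'.1)
        have h5 := huniq T' (h1.trans hW'.1) h3 (by omega)
        rw [← eq_of_subset_of_card_le h5 (by omega)]
        exact h1
    rw [Finset.sum_congr rfl hall, sum_add_distrib, sum_const, hcard, ← sum_filter, sum_const,
      card_filter_powersetCard_subset T U 11 hTU (by omega), hU, hT] at hsum
    have h3 : Nat.choose (13 - 10) (11 - 10) = 3 := by decide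
    rw [h3] at hsum
    simp only [smul_eq_mul] at hsum
    omega
  · push Not at hex
    rw [Finset.sum_congr rfl (fun W hW => hone W hW fun T h1 h2 =>
      hex T (h1.trans (mem_powersetCard.1 hW).1) h2), sum_const, hcard, smul_eq_mul] at hsum
    have h1 := h.count (by norm_num) U
    rw [hU] at h1
    have h2 : Nat.choose 13 (8 + 1) = 715 := by decide
    rw [h2] at h1
    norm_num at h1
    omega

namespace IsDes

variable {R : RkFn α} {b v r k lam : ℕ}

/-- `v = n + 8 ≥ 12`.  If `v = 12` the colines are the lines, all of degree `lam` (`line_deg`);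
`eleven` gives a full 9-set `W`, and `Wᶜ` lies in nine hyperplanes; it has three points and rank
two, so `lam = 9`, all colines have `d = 1` (`coline_d`) and `rank_of_d_one` applies.  If `v ≥ 13`,
`thirteen` and `exists_closed` give a closed full `F` with at least 11 points, `F ≠ univ`
(`complete_of_full`), `closed_le` gives three points outside `F`; apply `thirteen` to these and ten
points of `F`, and `full_union` contradicts closedness. -/
lemma eight_nu (h : IsDes R b v r k lam) (hb : v < b) (hl : 2 ≤ lam) (hc : v = k + 8)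
    (hn : R.rk univ = k) : b = v.choose k := by
  classical
  have hcf : Cf (fun C => Cᶜ ∈ R.hyp) 8 8 := h.cf hb hc (by omega)
  have h4 := h.four_le_rank hb hl
  have hv : (univ : Finset α).card = v := by rw [card_univ, h.hv]
  by_cases h12 : k = 4
  · exfalso
    obtain ⟨U, -, hU⟩ := exists_subset_card_eq (s := (univ : Finset α)) (n := 11) (by omega)
    have h1 := hcf.eleven hU
    obtain ⟨W, hW⟩ : ((powersetCard 9 U).filter (Full (fun C => Cᶜ ∈ R.hyp) 8)).Nonempty := by
      rw [← card_pos]
      omega
    rw [mem_filter, mem_powersetCard] at hW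
    have h2 : Wᶜ.card = 3 := by
      rw [card_compl, h.hv, hW.1.2]
      omega
    have h3 : 9 ≤ R.deg Wᶜ := by
      have h5 : (powersetCard 8 W).card = 9 := by
        rw [card_powersetCard, hW.1.2]
        decide
      rw [← h5]
      unfold deg
      refine card_le_card_of_injOn (fun C => Cᶜ) ?_ (fun C _ C' _ hCC => compl_injective hCC)
      intro C hC
      rw [mem_coe, mem_powersetCard] at hC
      rw [mem_coe, mem_filter]
      exact ⟨hW.2 C hC.1 hC.2, compl_subset_compl.2 hC.1⟩
    have h5 : R.rk Wᶜ = 2 := by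
      have h6 := R.rk_le_card Wᶜ
      obtain ⟨x, hx, y, hy, hxy⟩ := one_lt_card.1 (show 1 < Wᶜ.card by omega)
      have h7 : R.rk {x, y} ≤ R.rk Wᶜ :=
        R.mono (insert_subset hx (singleton_subset_iff.2 hy))
      rw [h.rk_pair hb (by omega) hxy] at h7
      by_contra h8
      have h9 := deg_eq_one (R := R) (X := Wᶜ) (by omega)
      omega
    have h6 := (h.line_deg hb (by omega) (cl_flat Wᶜ) (by rw [rk_cl, h5])).1
    rw [deg_cl] at h6
    have h7 := h.rank_of_d_one hb (by omega) fun L hL hr => by
      obtain ⟨d, d1, d2, -, -, d5⟩ := h.coline_d hb hc hL hr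
      rw [(h.line_deg hb (by omega) hL (by omega)).1] at d5
      have h8 : 9 * d ≤ lam * d := Nat.mul_le_mul_right d (by omega)
      omega
    omega
  · obtain ⟨U, -, hU⟩ := exists_subset_card_eq (s := (univ : Finset α)) (n := 13) (by omega)
    obtain ⟨W, -, hW, hWF⟩ := hcf.thirteen hU
    obtain ⟨F, hWF', hF, hcl⟩ := hcf.exists_closed hWF
    by_cases hne : F = univ
    · exact h.complete_of_full hc (hne ▸ hF)
    exfalso
    have h1 := h.closed_le hb hc hcl hne
    have h2 : 11 ≤ F.card := hW ▸ card_le_card hWF'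
    have h3 : 3 ≤ Fᶜ.card := by
      rw [card_compl, h.hv]
      omega
    obtain ⟨X, hX, hX'⟩ := exists_subset_card_eq h3
    obtain ⟨Y, hY, hY'⟩ := exists_subset_card_eq (s := F) (n := 10) (by omega)
    have hd : Disjoint X Y := Disjoint.mono hX hY disjoint_compl_left
    obtain ⟨V, hV, hV', hVF⟩ := hcf.thirteen (U := X ∪ Y)
      (by rw [card_union_of_disjoint hd, hX', hY'])
    have h5 := eight_inter hV (subset_union_right : Y ⊆ X ∪ Y)
    rw [card_union_of_disjoint hd] at h5
    have h6 : (V ∩ Y).card ≤ (F ∩ V).card :=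
      card_le_card (subset_inter (inter_subset_right.trans hY) inter_subset_left)
    have h7 := hcf.full_union (by norm_num) hF hVF (by omega)
    obtain ⟨x, hxV, hxY⟩ : ∃ x ∈ V, x ∉ Y := by
      by_contra h8
      push Not at h8
      have h9 := card_le_card (show V ⊆ Y from h8)
      omega
    have hxF : x ∉ F := by
      have h8 := mem_union.1 (hV hxV)
      exact mem_compl.1 (hX (h8.resolve_right hxY))
    obtain ⟨A, hA, hA'⟩ := exists_subset_card_eq (s := F) (n := 7) (by omega)
    have h8 := h7 (insert x A) (insert_subset (mem_union_right _ hxV) (hA.trans subset_union_left))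
      (by rw [card_insert_of_notMem (fun hx => hxF (hA hx)), hA'])
    apply hcl _ h8
    rw [insert_sdiff_of_notMem _ hxF, sdiff_eq_empty_iff_subset.2 hA]
    rfl

/-- `coline_d`, `eight_four`, `small_d`, `rank_le`, `complete_of_rank`, `eight_nu`. -/
theorem eight_case (h : IsDes R b v r k lam) (hb : v < b) (hl : 2 ≤ lam) (hc : v = k + 8) :
    b = v.choose k ∨ (v = 16 ∧ b = 30) := by
  by_cases hex : ∃ L, R.Flat L ∧ R.rk L + 2 = R.rk univ ∧ L.card + 4 = k
  · obtain ⟨L, hL, hr, h4⟩ := hex
    exact Or.inr (h.eight_four hb hl hc hL hr h4)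
  left
  push Not at hex
  have h1 := h.small_d hb (by omega) hc (by norm_num) fun L hL hr => by
    obtain ⟨d, d1, d2, d3, d4, -⟩ := h.coline_d hb hc hL hr
    have h2 := hex L hL hr
    have h3 : d ≠ 3 := by
      rintro rfl
      omega
    omega
  have h2 := h.rank_le hb
  by_cases h3 : R.rk univ = k + 1
  · exact h.complete_of_rank hb h3
  · exact h.eight_nu hb hl hc (by omega)

end IsDes

end Pool.Agent.MP_337c4e_co

end

section

/-! A family of rank six with a full 7-set is determined by its members with at most two points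
outside that set. -/

set_option linter.unusedSectionVars false
set_option linter.unusedVariables false

namespace Pool.Agent.MP_337c4e_co

open Finset

variable {α : Type} [Fintype α] [DecidableEq α]

lemma uniq_sum_insert {x : α} {A : Finset α} (hx : x ∉ A) (a : ℕ)
    (g : Finset α → ℤ) :
    ∑ W ∈ powersetCard (a + 1) (insert x A), g W =
      ∑ W ∈ powersetCard (a + 1) A, g W + ∑ W ∈ powersetCard a A, g (insert x W) := by
  rw [powersetCard_succ_insert hx, sum_union, sum_image]
  · intro W hW W' hW' he
    have h1 : x ∉ W := fun hh => hx ((mem_powersetCard.1 hW).1 hh)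
    have h2 : x ∉ W' := fun hh => hx ((mem_powersetCard.1 hW').1 hh)
    rw [← erase_insert h1, he, erase_insert h2]
  · rw [disjoint_left]
    intro W hW hW'
    obtain ⟨V, _, rfl⟩ := mem_image.1 hW'
    exact hx ((mem_powersetCard.1 hW).1 (mem_insert_self _ _))

/-- Injectivity of the inclusion matrix.  Induction on `a`: for `x ≠ y` in `F` the function
`W ↦ g (insert x W) - g (insert y W)` satisfies the hypothesis on `F \ {x, y}`, so `g` is invariant
under exchanging a point, hence constant on the `a`-subsets of an `(a + 1)`-set. -/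
lemma incl_inj (a : ℕ) (F : Finset α) (hF : 2 * a + 1 ≤ F.card) (g : Finset α → ℤ)
    (h : ∀ A, A ⊆ F → A.card = a + 1 → ∑ W ∈ powersetCard a A, g W = 0) :
    ∀ W, W ⊆ F → W.card = a → g W = 0 := by
  induction a generalizing F g with
  | zero =>
    intro W _ hW
    obtain ⟨x, hx⟩ : F.Nonempty := by
      rw [← card_pos]; omega
    have := h {x} (by simpa using hx) (by simp)
    rw [card_eq_zero] at hW
    subst hW
    simpa using this
  | succ a ih =>
    have key : ∀ x ∈ F, ∀ A, A ⊆ F → x ∉ A → A.card = a + 1 →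
        ∑ W ∈ powersetCard a A, g (insert x W) = - g A := by
      intro x hx A hA hxA hc
      have h1 := h (insert x A) (insert_subset hx hA) (by rw [card_insert_of_notMem hxA, hc])
      rw [uniq_sum_insert hxA] at h1
      have h2 : powersetCard (a + 1) A = {A} := by
        rw [← hc, powersetCard_self]
      rw [h2, sum_singleton] at h1
      linarith
    have exch : ∀ x ∈ F, ∀ y ∈ F, x ≠ y → ∀ W, W ⊆ F → x ∉ W → y ∉ W → W.card = a →
        g (insert x W) = g (insert y W) := by
      intro x hx y hy hxy W hW hxW hyW hc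
      have hcard : ((F.erase x).erase y).card + 2 = F.card := by
        rw [card_erase_of_mem (mem_erase.2 ⟨hxy.symm, hy⟩), card_erase_of_mem hx]
        omega
      have := ih ((F.erase x).erase y) (by omega) (fun W => g (insert x W) - g (insert y W))
        (by
          intro A hA hAc
          have hAF : A ⊆ F := hA.trans ((erase_subset _ _).trans (erase_subset _ _))
          have hxA : x ∉ A := fun hh => by
            have := hA hh
            simp at this
          have hyA : y ∉ A := fun hh => by
            have := hA hh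
            simp at this
          rw [sum_sub_distrib, key x hx A hAF hxA hAc, key y hy A hAF hyA hAc, sub_self])
        W (by
          intro w hw
          refine mem_erase.2 ⟨?_, mem_erase.2 ⟨?_, hW hw⟩⟩
          · rintro rfl; exact hyW hw
          · rintro rfl; exact hxW hw) hc
      linarith
    intro W hW hc
    obtain ⟨z, hzF, hzW⟩ : ∃ z ∈ F, z ∉ W := by
      by_contra hcon
      push Not at hcon
      have := card_le_card (show F ⊆ W from hcon)
      omega
    have h1 := h (insert z W) (insert_subset hzF hW) (by rw [card_insert_of_notMem hzW, hc])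
    have h2 : ∀ W' ∈ powersetCard (a + 1) (insert z W), g W' = g W := by
      intro W' hW'
      rw [mem_powersetCard] at hW'
      by_cases hz : z ∈ W'
      · have h3 : W'.erase z ⊆ W := by
          intro w hw
          have := hW'.1 (mem_of_mem_erase hw)
          rcases mem_insert.1 this with rfl | h4
          · simp at hw
          · exact h4
        have h4 : (W'.erase z).card = a := by
          rw [card_erase_of_mem hz, hW'.2]; rfl
        obtain ⟨t, htW, ht⟩ : ∃ t ∈ W, t ∉ W'.erase z := by
          by_contra hcon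
          push Not at hcon
          have := card_le_card (show W ⊆ W'.erase z from hcon)
          omega
        have h5 : insert t (W'.erase z) = W := by
          apply eq_of_subset_of_card_le (insert_subset htW h3)
          rw [card_insert_of_notMem ht]; omega
        have h6 := exch z hzF t (hW htW) (by rintro rfl; exact hzW htW) (W'.erase z)
          (h3.trans hW) (by simp) ht h4
        rw [insert_erase hz, h5] at h6
        exact h6
      · have h3 : W' ⊆ W := (subset_insert_iff_of_notMem hz).1 hW'.1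
        rw [eq_of_subset_of_card_le h3 (by omega)]
    rw [sum_congr rfl h2, sum_const, card_powersetCard, card_insert_of_notMem hzW, hc,
      Nat.choose_succ_self_right, nsmul_eq_mul] at h1
    rcases mul_eq_zero.1 h1 with h3 | h3
    · exfalso
      have : ((a + 1 + 1 : ℕ) : ℤ) ≠ 0 := by positivity
      exact this h3
    · exact h3

lemma uniq_count {cir cir' : Finset α → Prop} (h : Cf cir 6 6) (h' : Cf cir' 6 6)
    {A Y : Finset α} (hdis : Disjoint A Y) (hU : (A ∪ Y).card = 6 + 1) (hY : 2 ≤ Y.card)
    (hold : ∀ C, C ⊆ A ∪ Y → ¬ Y ⊆ C → (cir C ↔ cir' C)) (hf : Full cir 6 (A ∪ Y)) :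
    Full cir' 6 (A ∪ Y) := by
  classical
  by_contra hn
  have f2 := h'.count_succ (by norm_num) hU
  rw [if_neg hn] at f2
  obtain ⟨y, hy, z, hz, hyz⟩ := one_lt_card.1 (show 1 < Y.card by omega)
  have hmem : ∀ y ∈ Y, cir' ((A ∪ Y).erase y) := by
    intro y hy
    refine (hold _ (erase_subset _ _) (fun hh => ?_)).1 (hf _ (erase_subset _ _) ?_)
    · have := hh hy
      simp at this
    · rw [card_erase_of_mem (mem_union_right _ hy), hU]
  obtain ⟨T, hT⟩ := card_eq_one.1 f2
  have h1 : ∀ y ∈ Y, (A ∪ Y).erase y = T := by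
    intro y hy
    rw [← mem_singleton, ← hT, mem_filter, mem_powerset]
    exact ⟨erase_subset _ _, hmem y hy⟩
  have h2 : y ∈ (A ∪ Y).erase z := mem_erase.2 ⟨hyz, mem_union_right _ hy⟩
  rw [h1 z hz, ← h1 y hy] at h2
  simp at h2

open Classical in
lemma uniq_split {cir : Finset α → Prop} (h : Cf cir 6 6) {A Y : Finset α} (hdis : Disjoint A Y)
    {a : ℕ} (ha : a + Y.card = 6) :
    ((A ∪ Y).powerset.filter cir).card =
      ((powersetCard a A).filter (fun W => cir (W ∪ Y))).card +
        ((A ∪ Y).powerset.filter (fun C => cir C ∧ ¬ Y ⊆ C)).card := by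
  rw [← card_filter_add_card_filter_not (s := (A ∪ Y).powerset.filter cir) (fun C => Y ⊆ C),
    filter_filter, filter_filter]
  congr 1
  symm
  apply card_bij (fun W _ => W ∪ Y)
  · intro W hW
    rw [mem_filter, mem_powersetCard] at hW
    rw [mem_filter, mem_powerset]
    exact ⟨union_subset_union hW.1.1 (Subset.refl _), hW.2, subset_union_right⟩
  · intro W hW W' hW' he
    rw [mem_filter, mem_powersetCard] at hW hW'
    have h1 : Disjoint W Y := hdis.mono_left hW.1.1
    have h2 : Disjoint W' Y := hdis.mono_left hW'.1.1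
    rw [← union_sdiff_cancel_right h1, he, union_sdiff_cancel_right h2]
  · intro C hC
    rw [mem_filter, mem_powerset] at hC
    have h1 : C \ Y ∪ Y = C := sdiff_union_of_subset hC.2.2
    refine ⟨C \ Y, ?_, h1⟩
    rw [mem_filter, mem_powersetCard, h1]
    refine ⟨⟨?_, ?_⟩, hC.2.1⟩
    · intro x hx
      rcases mem_union.1 (hC.1 (mem_sdiff.1 hx).1) with h3 | h3
      · exact h3
      · exact absurd h3 (mem_sdiff.1 hx).2
    · have h2 := card_sdiff_add_card_eq_card hC.2.2
      have h3 := h.card _ hC.2.1
      omega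

/-- Induction on `j = |S \ F|`.  For `j ≥ 3` fix `Y = S \ F`.  For `A ⊆ F` with `7 - j` points the
7-set `A ∪ Y` has 1 or 7 circuits (`count_succ`); the number of those of the form
`A ∪ Y.erase y` is known by induction and decides the number of those of the form `W ∪ Y`
(if at least two then all; if one then none; if none then one).  Apply `incl_inj` to the
difference of the indicator functions of `cir (W ∪ Y)` and `cir' (W ∪ Y)`. -/
theorem Cf.unique {cir cir' : Finset α → Prop} (h : Cf cir 6 6) (h' : Cf cir' 6 6) {F : Finset α}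
    (hF : F.card = 7) (h2 : ∀ S : Finset α, S.card = 6 → (S \ F).card ≤ 2 → (cir S ↔ cir' S))
    (S : Finset α) : cir S ↔ cir' S := by
  classical
  by_cases hS : S.card = 6
  swap
  · exact ⟨fun hh => absurd (h.card _ hh) hS, fun hh => absurd (h'.card _ hh) hS⟩
  induction hj : (S \ F).card using Nat.strong_induction_on generalizing S with
  | _ j ih =>
  by_cases hj2 : j ≤ 2
  · exact h2 S hS (by omega)
  set Y := S \ F with hY
  have hYF : ∀ y ∈ Y, y ∉ F := fun y hy => (mem_sdiff.1 hy).2
  have hc : (S ∩ F).card + j = 6 := by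
    rw [← hj, hY, card_inter_add_card_sdiff, hS]
  have main := incl_inj (S ∩ F).card F (by omega)
    (fun W => (if cir (W ∪ Y) then 1 else 0) - (if cir' (W ∪ Y) then 1 else 0)) (by
      intro A hA hAc
      have hdis : Disjoint A Y := by
        rw [disjoint_left]
        intro x hx hx'
        exact hYF x hx' (hA hx)
      have hU : (A ∪ Y).card = 6 + 1 := by
        rw [card_union_of_disjoint hdis]; omega
      have hold : ∀ C, C ⊆ A ∪ Y → ¬ Y ⊆ C → (cir C ↔ cir' C) := by
        intro C hC hYC
        by_cases hC6 : C.card = 6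
        swap
        · exact ⟨fun hh => absurd (h.card _ hh) hC6, fun hh => absurd (h'.card _ hh) hC6⟩
        refine ih _ ?_ C hC6 rfl
        rw [← hj]
        apply card_lt_card
        refine ⟨?_, fun hh => hYC (hh.trans sdiff_subset)⟩
        intro x hx
        rcases mem_union.1 (hC (mem_sdiff.1 hx).1) with h3 | h3
        · exact absurd (hA h3) (mem_sdiff.1 hx).2
        · exact h3
      have e1 := uniq_count h h' hdis hU (by omega) hold
      have e2 := uniq_count h' h hdis hU (by omega) (fun C h1 h2 => (hold C h1 h2).symm)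
      have e3 : ((A ∪ Y).powerset.filter cir).card = ((A ∪ Y).powerset.filter cir').card := by
        have f1 := h.count_succ (by norm_num) hU
        have f2 := h'.count_succ (by norm_num) hU
        have f3 : Full cir 6 (A ∪ Y) ↔ Full cir' 6 (A ∪ Y) := ⟨e1, e2⟩
        by_cases f4 : Full cir 6 (A ∪ Y)
        · rw [if_pos f4] at f1
          rw [if_pos (f3.1 f4)] at f2
          convert f1.trans f2.symm
        · rw [if_neg f4] at f1
          rw [if_neg (fun hh => f4 (f3.2 hh))] at f2
          convert f1.trans f2.symm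
      have e4 := uniq_split h hdis (a := (S ∩ F).card) (by omega)
      have e5 := uniq_split h' hdis (a := (S ∩ F).card) (by omega)
      have e6 : ((A ∪ Y).powerset.filter (fun C => cir C ∧ ¬ Y ⊆ C)) =
          ((A ∪ Y).powerset.filter (fun C => cir' C ∧ ¬ Y ⊆ C)) := by
        apply filter_congr
        intro C hC
        rw [mem_powerset] at hC
        exact ⟨fun hh => ⟨(hold C hC hh.2).1 hh.1, hh.2⟩, fun hh => ⟨(hold C hC hh.2).2 hh.1, hh.2⟩⟩
      rw [e6] at e4
      rw [sum_sub_distrib, sum_boole, sum_boole]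
      have e7 : ((powersetCard (S ∩ F).card A).filter (fun W => cir (W ∪ Y))).card =
          ((powersetCard (S ∩ F).card A).filter (fun W => cir' (W ∪ Y))).card := by
        omega
      rw [e7, sub_self]) (S ∩ F) inter_subset_right rfl
  have hSS : S ∩ F ∪ Y = S := by
    rw [hY, union_comm, sdiff_union_inter]
  simp only [hSS] at main
  by_cases h3 : cir S <;> by_cases h4 : cir' S <;> simp [h3, h4] at main ⊢

end Pool.Agent.MP_337c4e_co

end
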