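import Pool.Agent.MP_337c4e_co.Check
import Pool.Agent.MP_337c4e_co.CoB

section

/-! The thirty Fano planes on seven points, given by the complements of their lines. -/

set_option linter.unusedSectionVars false
set_option linter.unusedVariables false

namespace Pool.Agent.MP_337c4e_co

open Finset RkFn

/-- the thirty systems, as lists of bit masks -/
def tabL : List (List ℕ) :=
  [[27, 45, 54, 78, 85, 99, 120], [30, 45, 51, 71, 89, 106, 116], [23, 45, 58, 75, 92, 102, 113],
   [23, 46, 57, 77, 90, 99, 116], [15, 53, 58, 86, 89, 99, 108], [29, 39, 58, 78, 83, 105, 116],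
   [23, 43, 60, 78, 89, 101, 114], [30, 39, 57, 75, 85, 108, 114], [15, 51, 60, 85, 90, 102, 105],
   [30, 43, 53, 77, 83, 102, 120], [29, 46, 51, 75, 86, 101, 120], [15, 54, 57, 83, 92, 101, 106],
   [29, 43, 54, 71, 90, 108, 113], [27, 39, 60, 77, 86, 106, 113], [27, 46, 53, 71, 92, 105, 114],
   [27, 46, 53, 77, 86, 99, 120], [29, 46, 51, 71, 90, 105, 116], [23, 46, 57, 75, 92, 101, 114],
   [23, 45, 58, 78, 89, 99, 116], [15, 54, 57, 85, 90, 99, 108], [30, 39, 57, 77, 83, 106, 116],
   [23, 43, 60, 77, 90, 102, 113], [29, 39, 58, 75, 86, 108, 113], [15, 51, 60, 86, 89, 101, 106],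
   [29, 43, 54, 78, 83, 101, 120], [30, 45, 51, 75, 85, 102, 120], [15, 53, 58, 83, 92, 102, 105],
   [30, 43, 53, 71, 89, 108, 114], [27, 39, 60, 78, 85, 105, 114], [27, 45, 54, 71, 92, 106, 113]]

/-- system number `i` -/
def tab (i : ℕ) : List ℕ := tabL.getD i []

/-- Use `Nat.ofBits` or `∑ i ∈ S, 2 ^ i`. -/
lemma exists_ofMask {n : ℕ} (S : Finset (Fin n)) : ∃ m, m < 2 ^ n ∧ ofMask n m = S := by
  refine ⟨Nat.ofBits fun i : Fin n => decide (i ∈ S), Nat.ofBits_lt_two_pow _, ?_⟩
  ext i
  rw [mem_ofMask, Nat.testBit_ofBits_lt _ _ i.2]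
  simp

lemma ofMask_inj {n m m' : ℕ} (h : m < 2 ^ n) (h' : m' < 2 ^ n) (e : ofMask n m = ofMask n m') :
    m = m' := by
  apply Nat.eq_of_testBit_eq
  intro x
  by_cases hx : x < n
  · have := congrArg (fun S => (⟨x, hx⟩ : Fin n) ∈ S) e
    simp only [mem_ofMask, eq_iff_iff] at this
    exact Bool.eq_iff_iff.2 this
  · have hp : 2 ^ n ≤ 2 ^ x := Nat.pow_le_pow_right (by norm_num) (not_lt.1 hx)
    rw [Nat.testBit_lt_two_pow (h.trans_le hp), Nat.testBit_lt_two_pow (h'.trans_le hp)]

lemma tab_mem : ∀ i < 30, ∀ m ∈ tab i, m < 128 ∧ pc 7 m = 4 := by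
  decide +kernel

/-- the number whose bits are the members of `c` and the bits of `n` -/
def fano_or (n : ℕ) (c : List ℕ) : ℕ := c.foldr (fun j a => a ||| 2 ^ j) n

lemma fano_or_bit (n : ℕ) (c : List ℕ) (x : ℕ) :
    (fano_or n c).testBit x = true ↔ n.testBit x = true ∨ x ∈ c := by
  induction c with
  | nil => simp [fano_or]
  | cons j c ih =>
    have e : fano_or n (j :: c) = fano_or n c ||| 2 ^ j := rfl
    rw [e, Nat.testBit_or, Bool.or_eq_true, ih, Nat.testBit_two_pow, decide_eq_true_eq,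
      List.mem_cons]
    constructor
    · rintro ((h | h) | h)
      exacts [Or.inl h, Or.inr (Or.inr h), Or.inr (Or.inl h.symm)]
    · rintro (h | h | h)
      exacts [Or.inl (Or.inl h), Or.inr h.symm, Or.inl (Or.inr h)]

/-- the exact cover search -/
def fano_ec (f : ℕ → ℕ → Bool) : List (List ℕ) → ℕ → ℕ → Bool
  | [], p, n => f p n
  | c :: cs, p, n => c.all fun i => n.testBit i || c.any (fun j => j != i && p.testBit j) ||
      fano_ec f cs (p ||| 2 ^ i) (fano_or n (c.filter (fun j => j != i)))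

lemma fano_ec_ok (f : ℕ → ℕ → Bool) (g : ℕ → Prop) (cs : List (List ℕ))
    (h1 : ∀ c ∈ cs, ∃ i ∈ c, g i) (h2 : ∀ c ∈ cs, ∀ i ∈ c, ∀ j ∈ c, g i → g j → i = j)
    (p n : ℕ) (hp : ∀ x, p.testBit x = true → g x) (hn : ∀ x, n.testBit x = true → ¬ g x)
    (h : fano_ec f cs p n = true) :
    ∃ p' n', (∀ x, p'.testBit x = true → g x) ∧ (∀ x, n'.testBit x = true → ¬ g x) ∧
      f p' n' = true := by
  induction cs generalizing p n with
  | nil => exact ⟨p, n, hp, hn, h⟩
  | cons c cs ih =>
    obtain ⟨i, hi, gi⟩ := h1 c List.mem_cons_self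
    have u := h2 c List.mem_cons_self
    rw [fano_ec, List.all_eq_true] at h
    have h' := h i hi
    rw [Bool.or_eq_true, Bool.or_eq_true] at h'
    rcases h' with (h' | h') | h'
    · exact absurd gi (hn i h')
    · obtain ⟨j, hj, h''⟩ := List.any_eq_true.1 h'
      rw [Bool.and_eq_true, bne_iff_ne] at h''
      exact absurd (u j hj i hi (hp j h''.2) gi) h''.1
    · refine ih (fun c hc => h1 c (List.mem_cons_of_mem _ hc))
        (fun c hc => h2 c (List.mem_cons_of_mem _ hc)) _ _ (fun x hx => ?_) (fun x hx => ?_) h'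
      · rw [Nat.testBit_or, Bool.or_eq_true, Nat.testBit_two_pow, decide_eq_true_eq] at hx
        rcases hx with hx | rfl
        exacts [hp x hx, gi]
      · rcases (fano_or_bit _ _ _).1 hx with hx | hx
        · exact hn x hx
        · rw [List.mem_filter, bne_iff_ne] at hx
          exact fun gx => hx.2 (u x hx.1 i hi gx gi)

/-- the masks with four bits -/
def fano_four : List ℕ :=
  [15, 23, 27, 29, 30, 39, 43, 45, 46, 51, 53, 54, 57, 58, 60, 71, 75, 77, 78, 83, 85, 86, 89,
   90, 92, 99, 101, 102, 105, 106, 108, 113, 114, 116, 120]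

/-- the masks with five bits -/
def fano_five : List ℕ :=
  [31, 47, 55, 59, 61, 62, 79, 87, 91, 93, 94, 103, 107, 109, 110, 115, 117, 118, 121, 122, 124]

/-- the constraints -/
def fano_cs : List (List ℕ) :=
  [[15, 23, 27, 29, 30], [15, 39, 43, 45, 46], [23, 39, 51, 53, 54], [27, 43, 51, 57, 58],
   [29, 45, 53, 57, 60], [30, 46, 54, 58, 60], [15, 71, 75, 77, 78], [23, 71, 83, 85, 86],
   [27, 75, 83, 89, 90], [29, 77, 85, 89, 92], [30, 78, 86, 90, 92], [39, 71, 99, 101, 102],
   [43, 75, 99, 105, 106], [45, 77, 101, 105, 108], [46, 78, 102, 106, 108],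
   [51, 83, 99, 113, 114], [53, 85, 101, 113, 116], [54, 86, 102, 114, 116],
   [57, 89, 105, 113, 120], [58, 90, 106, 114, 120], [60, 92, 108, 116, 120]]

/-- the systems as numbers -/
def fano_P : List (ℕ × ℕ) :=
  [(0, 1329228629649203844719129182532009984), (1, 83157879993944229566402287804350464),
   (2, 10389669271268504536316596761657344), (3, 83077384799948511328206349993508864),
   (4, 325153075299813236747884409421824), (5, 83117314565738183697387452905816064),
   (6, 20771723354612019223449074174787584), (7, 21093706026521142544551970995175424),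
   (8, 45636698233882926675594225680384), (9, 1329233066397139308114797905559158784),
   (10, 1329230531163525360752131447124393984), (11, 83669901046627001066501991071744),
   (12, 10709113508670482470489053540122624), (13, 10465723433006631274466931988496384),
   (14, 20809757205109132188809982371692544), (15, 1329228629687738355210373472593117184),
   (16, 83117315793706945868279714586558464), (17, 20771727687137703190494592309919744),
   (18, 83077384181129607557048044894552064), (19, 325153655584206516661899447271424),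
   (20, 83157879384794371166668331222564864), (21, 10389665557561724340429383725481984),
   (22, 10709112348137113659274299466317824), (23, 83665635956336393698491462877184),
   (24, 1329230531096089967392453939517456384), (25, 1329233066426040190983231123104989184),
   (26, 45640383039780254129589716025344), (27, 21093706606770118075852710031130624),
   (28, 20809752292334472690463725200605184), (29, 10465728307246780281568899098476544)]

/-- the final test of the search -/
def fano_fin (p n : ℕ) : Bool :=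
  fano_P.any fun a => fano_four.all fun m => (a.2.testBit m && p.testBit m) ||
    (!a.2.testBit m && n.testBit m)

lemma fano_four_iff : ∀ m < 128, pc 7 m = 4 → m ∈ fano_four := by decide +kernel

lemma fano_four_mem : ∀ m ∈ fano_four, m < 128 ∧ pc 7 m = 4 := by decide +kernel

lemma fano_five_mem : ∀ a ∈ fano_five, pc 7 a = 5 := by decide +kernel

lemma fano_cs_eq :
    fano_cs = fano_five.map fun a => fano_four.filter fun m => m &&& a == m := by decide +kernel

lemma fano_P_mem : ∀ i < 30, (i, fano_or 0 (tab i)) ∈ fano_P := by decide +kernel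

lemma fano_P_eq : ∀ a ∈ fano_P, a.1 < 30 ∧ a.2 = fano_or 0 (tab a.1) := by decide +kernel

lemma fano_run : fano_ec fano_fin fano_cs 0 0 = true := by decide +kernel

lemma fano_bit (i x : ℕ) : (fano_or 0 (tab i)).testBit x = true ↔ x ∈ tab i := by
  rw [fano_or_bit]
  simp

/-- Exact cover search in the kernel.  Put `g m := W (ofMask 7 m)`.  For each of the 21 masks `a`
with five bits exactly one of the five masks `a - 2 ^ j` satisfies `g`.  Define
`ec : List (List ℕ) → ℕ → ℕ → Bool` on the list of these 21 constraints with two bit sets `p`, `n`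
(masks known to satisfy `g`, known not to): for the first constraint `c` and each `i ∈ c`, either
`i ∈ n`, or `p` contains another member of `c`, or the recursive call with `i` added to `p` and the
other members of `c` added to `n` succeeds; at the end some `i < 30` has `m ∈ tab i → m ∈ p` and
`m ∉ tab i → m ∈ n` for all 35 masks with four bits.  Prove soundness by induction on the list and
run it by `decide +kernel`. -/
theorem fano30 (W : Finset (Fin 7) → Prop)
    (h : ∀ A : Finset (Fin 7), A.card = 5 → ∃! S, S ⊆ A ∧ S.card = 4 ∧ W S) :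
    ∃ i < 30, ∀ m < 128, pc 7 m = 4 → (W (ofMask 7 m) ↔ m ∈ tab i) := by
  have hc : ∀ c ∈ fano_cs, ∃ a, pc 7 a = 5 ∧ ∀ m, m ∈ c ↔ m ∈ fano_four ∧ m &&& a = m := by
    intro c hc
    rw [fano_cs_eq, List.mem_map] at hc
    obtain ⟨a, ha, rfl⟩ := hc
    exact ⟨a, fano_five_mem a ha, fun m => by rw [List.mem_filter, beq_iff_eq]⟩
  obtain ⟨p, n, hp, hn, hf⟩ := fano_ec_ok fano_fin (fun m => W (ofMask 7 m)) fano_cs
    (fun c hc' => by
      obtain ⟨a, ha, hm⟩ := hc c hc'
      obtain ⟨S, ⟨s1, s2, s3⟩, -⟩ := h (ofMask 7 a) (by rw [card_ofMask, ha])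
      obtain ⟨m, m1, rfl⟩ := exists_ofMask S
      refine ⟨m, (hm m).2 ⟨fano_four_iff m m1 (by rw [← card_ofMask, s2]), ?_⟩, s3⟩
      refine ofMask_inj (n := 7) (Nat.and_le_left.trans_lt m1) m1 ?_
      rw [ofMask_land, inter_eq_left.2 s1])
    (fun c hc' i hi j hj gi gj => by
      obtain ⟨a, ha, hm⟩ := hc c hc'
      have k : ∀ m ∈ c, m < 2 ^ 7 ∧ ofMask 7 m ⊆ ofMask 7 a ∧ (ofMask 7 m).card = 4 := by
        intro m hm'
        obtain ⟨m1, m2⟩ := (hm m).1 hm'
        refine ⟨(fano_four_mem m m1).1, ?_, by rw [card_ofMask, (fano_four_mem m m1).2]⟩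
        rw [← m2, ofMask_land]
        exact inter_subset_right
      exact ofMask_inj (k i hi).1 (k j hj).1
        ((h (ofMask 7 a) (by rw [card_ofMask, ha])).unique
          ⟨(k i hi).2.1, (k i hi).2.2, gi⟩ ⟨(k j hj).2.1, (k j hj).2.2, gj⟩))
    0 0 (by simp) (by simp) fano_run
  obtain ⟨a, ha, hf'⟩ := List.any_eq_true.1 hf
  obtain ⟨a1, a2⟩ := fano_P_eq a ha
  refine ⟨a.1, a1, fun m hm h4 => ?_⟩
  have := List.all_eq_true.1 hf' m (fano_four_iff m hm h4)
  rw [a2, Bool.or_eq_true, Bool.and_eq_true, Bool.and_eq_true, Bool.not_eq_true',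
    ← Bool.not_eq_true, fano_bit] at this
  rcases this with ⟨t1, t2⟩ | ⟨t1, t2⟩
  · exact ⟨fun _ => t1, fun _ => hp m t2⟩
  · exact ⟨fun w => absurd w (hn m t2), fun w => absurd w t1⟩

/-- the test of all triples -/
def fano_tri : Bool :=
  fano_P.all fun a => fano_P.all fun b =>
    !((a.2 &&& b.2) &&& ((a.2 &&& b.2) - 1) == 0) || fano_P.all fun c =>
      !((a.2 &&& b.2) &&& c.2 == a.2 &&& b.2) || !((a.2 &&& c.2) &&& b.2 == a.2 &&& c.2) ||
        !((b.2 &&& c.2) &&& a.2 == b.2 &&& c.2) ||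
        (a.1 / 15 == b.1 / 15 && a.1 / 15 == c.1 / 15 &&
          (a.1 % 15 + 1) ^^^ (b.1 % 15 + 1) == c.1 % 15 + 1)

lemma fano_tri_run : fano_tri = true := by decide +kernel

lemma fano_sub {i j l : ℕ} (h : ∀ m, m ∈ tab i → m ∈ tab j → m ∈ tab l) :
    (fano_or 0 (tab i) &&& fano_or 0 (tab j)) &&& fano_or 0 (tab l) =
      fano_or 0 (tab i) &&& fano_or 0 (tab j) := by
  apply Nat.eq_of_testBit_eq
  intro x
  rw [Bool.eq_iff_iff]
  simp only [Nat.testBit_and, Bool.and_eq_true, fano_bit]
  exact ⟨fun h' => h'.1, fun h' => ⟨h', h x h'.1 h'.2⟩⟩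

lemma fano_one {x : ℕ} (h : ∀ m m', x.testBit m = true → x.testBit m' = true → m = m') :
    x &&& (x - 1) = 0 := by
  by_cases h0 : x = 0
  · simp [h0]
  · obtain ⟨m, hm⟩ := Nat.exists_testBit_of_ne_zero h0
    have e : x = 2 ^ m := by
      apply Nat.eq_of_testBit_eq
      intro y
      rw [Bool.eq_iff_iff, Nat.testBit_two_pow, decide_eq_true_eq]
      exact ⟨fun hy => h m y hm hy, fun hy => hy ▸ hm⟩
    rw [e, Nat.and_two_pow_sub_one_eq_mod, Nat.mod_self]

/-- A check of 27000 cases; encode `tab i` as the number `∑ m ∈ tab i, 2 ^ m` and use `land` and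
`fewBits 1` in a Boolean test run by `decide +kernel`. -/
theorem tab_compat (i j l : ℕ) (hi : i < 30) (hj : j < 30) (hl : l < 30)
    (h1 : ∀ m, m ∈ tab i → m ∈ tab j → m ∈ tab l) (h2 : ∀ m, m ∈ tab i → m ∈ tab l → m ∈ tab j)
    (h3 : ∀ m, m ∈ tab j → m ∈ tab l → m ∈ tab i)
    (h4 : ∀ m m', m ∈ tab i → m ∈ tab j → m' ∈ tab i → m' ∈ tab j → m = m') :
    i / 15 = j / 15 ∧ i / 15 = l / 15 ∧ (i % 15 + 1) ^^^ (j % 15 + 1) = l % 15 + 1 := by
  have t := List.all_eq_true.1 (List.all_eq_true.1 fano_tri_run _ (fano_P_mem i hi)) _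
    (fano_P_mem j hj)
  have o : (fano_or 0 (tab i) &&& fano_or 0 (tab j)) &&&
      ((fano_or 0 (tab i) &&& fano_or 0 (tab j)) - 1) = 0 := fano_one fun m m' hm hm' => by
    rw [Nat.testBit_and, Bool.and_eq_true, fano_bit, fano_bit] at hm hm'
    exact h4 m m' hm.1 hm.2 hm'.1 hm'.2
  simp only [o, beq_self_eq_true, Bool.not_true, Bool.false_or] at t
  have t' := List.all_eq_true.1 t _ (fano_P_mem l hl)
  simp only [fano_sub h1, fano_sub h2, fano_sub h3, beq_self_eq_true, Bool.not_true, Bool.false_or,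
    Bool.and_eq_true, beq_iff_eq] at t'
  exact ⟨t'.1.1, t'.1.2, t'.2⟩

/-- Two members of a system meet in two points. -/
lemma tab_inter : ∀ i < 30, ∀ m ∈ tab i, ∀ m' ∈ tab i, m ≠ m' →
    (ofMask 7 m ∩ ofMask 7 m').card = 2 := by
  have k : ∀ i < 30, ∀ m ∈ tab i, ∀ m' ∈ tab i, m ≠ m' → pc 7 (m &&& m') = 2 := by
    decide +kernel
  intro i hi m hm m' hm' hne
  rw [← ofMask_land, card_ofMask, k i hi m hm m' hm' hne]

/-- exchange of the two lowest bits -/
def fano_sw (m : ℕ) : ℕ := m - m % 4 + m % 2 * 2 + m / 2 % 2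

lemma fano_sw_bit : ∀ m < 128, fano_sw m < 128 ∧ ∀ x : Fin 7,
    m.testBit (Equiv.swap (0 : Fin 7) 1 x).val = (fano_sw m).testBit x.val := by decide +kernel

lemma fano_sw_tab : ∀ i < 15, ∀ m < 128, (m ∈ tab i ↔ fano_sw m ∈ tab (i + 15)) := by
  decide +kernel

/-- The second class is the image of the first under the transposition of `0` and `1`. -/
lemma tab_swap : ∀ i < 15, ∀ m < 128, ∀ m' < 128,
    (ofMask 7 m).map (Equiv.swap (0 : Fin 7) 1).toEmbedding = ofMask 7 m' →
      (m ∈ tab i ↔ m' ∈ tab (i + 15)) := by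
  intro i hi m hm m' hm' e
  have e' : ofMask 7 (fano_sw m) = ofMask 7 m' := by
    rw [← e]
    ext x
    rw [mem_map_equiv, Equiv.symm_swap, mem_ofMask, mem_ofMask, (fano_sw_bit m hm).2 x]
  rw [← ofMask_inj (n := 7) (fano_sw_bit m hm).1 hm' e']
  exact fano_sw_tab i hi m hm

end Pool.Agent.MP_337c4e_co

end

section

/-! A checker for proofs about circuit families on small sets. -/

set_option linter.unusedSectionVars false
set_option linter.unusedVariables false

namespace Pool.Agent.MP_337c4e_co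

open Finset RkFn

/-- bit test -/
noncomputable def tb (x i : ℕ) : Bool := Nat.beq (Nat.land 1 (Nat.shiftRight x i)) 1

lemma tb_eq (x i : ℕ) : tb x i = x.testBit i := by
  have h : tb x i = Nat.beq (1 &&& (x >>> i)) 1 := rfl
  rw [h, Nat.testBit, Nat.one_and_eq_mod_two]
  rcases Nat.mod_two_eq_zero_or_one (x >>> i) with h | h <;> rw [h] <;> rfl

/-- a test for all set bits below `m` -/
noncomputable def allBits (m U : ℕ) (f : ℕ → Bool) : Bool :=
  Nat.rec true (fun i ih => Bool.rec ih (Bool.rec false ih (f i)) (tb U i)) m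

lemma allBits_sound (m U : ℕ) (f : ℕ → Bool) (h : allBits m U f = true) :
    ∀ i < m, U.testBit i = true → f i = true := by
  induction m with
  | zero => intro i hi; omega
  | succ m ih =>
    have h' : (Bool.rec (allBits m U f) (Bool.rec false (allBits m U f) (f m)) (tb U m) : Bool)
      = true := h
    rw [tb_eq] at h'
    intro i hi hU
    cases h1 : U.testBit m with
    | false =>
      rw [h1] at h'
      rcases Nat.lt_succ_iff_lt_or_eq.1 hi with h2 | rfl
      · exact ih h' i h2 hU
      · rw [h1] at hU; exact absurd hU (by simp)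
    | true =>
      rw [h1] at h'
      cases h3 : f m with
      | false => rw [h3] at h'; exact absurd h' (by simp)
      | true =>
        rw [h3] at h'
        rcases Nat.lt_succ_iff_lt_or_eq.1 hi with h2 | rfl
        · exact ih h' i h2 hU
        · exact h3

/-- number of set bits below `m` -/
noncomputable def pcf (m x : ℕ) : ℕ :=
  Nat.rec 0 (fun i ih => Bool.rec ih (Nat.succ ih) (tb x i)) m

lemma pcf_eq (m x : ℕ) : pcf m x = pc m x := by
  induction m with
  | zero => rfl
  | succ m ih =>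
    have h' : pcf (m + 1) x = (Bool.rec (pcf m x) (pcf m x + 1) (tb x m) : ℕ) := rfl
    rw [h', tb_eq, ih, pc]
    cases x.testBit m <;> rfl

lemma ofMask_xor {m U : ℕ} (i : Fin m) (h : U.testBit i.val = true) :
    ofMask m (U ^^^ 2 ^ i.val) = (ofMask m U).erase i := by
  ext j
  simp only [mem_ofMask, mem_erase, Nat.testBit_xor, Nat.testBit_two_pow]
  by_cases e : j = i
  · subst e; simp [h]
  · have : i.val ≠ j.val := fun h' => e (Fin.ext h'.symm)
    simp [e, this]

lemma ofMask_lor (m a b : ℕ) : ofMask m (a ||| b) = ofMask m a ∪ ofMask m b := by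
  ext i; simp [mem_ofMask]

/-- all masks obtained from `U` by removing `j` bits are in the bit set `n` -/
noncomputable def allIn (m n j : ℕ) : ℕ → Bool :=
  Nat.rec (fun U => tb n U)
    (fun _ ih U => allBits m U (fun i => strict ih (Nat.xor U (Nat.pow 2 i)))) j

lemma allIn_sound (m n j : ℕ) : ∀ U, allIn m n j U = true → ∀ Z, Z ⊆ ofMask m U →
    Z.card + j = (ofMask m U).card → ∃ s, n.testBit s = true ∧ ofMask m s = Z := by
  induction j with
  | zero =>
    intro U h Z hZ hc
    have h' : tb n U = true := h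
    exact ⟨U, tb_eq n U ▸ h', (eq_of_subset_of_card_le hZ (by omega)).symm⟩
  | succ j ih =>
    intro U h Z hZ hc
    have h' : allBits m U (fun i => strict (allIn m n j) (U ^^^ 2 ^ i)) = true := h
    obtain ⟨i, hi, hiZ⟩ : ∃ i ∈ ofMask m U, i ∉ Z := by
      by_contra hcon
      push Not at hcon
      have := card_le_card (show ofMask m U ⊆ Z from hcon)
      omega
    have h1 := allBits_sound _ _ _ h' i.val i.2 (mem_ofMask.1 hi)
    rw [strict_eq] at h1
    apply ih _ h1 Z
    · rw [ofMask_xor i (mem_ofMask.1 hi)]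
      exact subset_erase.2 ⟨hZ, hiZ⟩
    · rw [ofMask_xor i (mem_ofMask.1 hi), card_erase_of_mem hi]; omega

/-- the members of `p` are circuits, the members of `n` are not -/
def Good {m : ℕ} (cir : Finset (Fin m) → Prop) (p n : ℕ) : Prop :=
  (∀ s, p.testBit s = true → cir (ofMask m s)) ∧ (∀ s, n.testBit s = true → ¬ cir (ofMask m s))

lemma testBit_add {p S s : ℕ} (h : (p ||| 2 ^ S).testBit s = true) :
    p.testBit s = true ∨ s = S := by
  rw [Nat.testBit_or, Bool.or_eq_true, Nat.testBit_two_pow] at h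
  rcases h with h | h
  · exact Or.inl h
  · exact Or.inr (of_decide_eq_true h).symm

variable {m : ℕ} {cir : Finset (Fin m) → Prop} {p n : ℕ}

lemma Good.pos (h : Good cir p n) {S : ℕ} (hS : cir (ofMask m S)) : Good cir (p ||| 2 ^ S) n :=
  ⟨fun s hs => (testBit_add hs).elim (h.1 s) (fun e => e ▸ hS), h.2⟩

lemma Good.neg (h : Good cir p n) {S : ℕ} (hS : ¬ cir (ofMask m S)) : Good cir p (n ||| 2 ^ S) :=
  ⟨h.1, fun s hs => (testBit_add hs).elim (h.2 s) (fun e => e ▸ hS)⟩

/-- `U` has `6 + j` bits and all its submasks with six bits are in `n` -/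
noncomputable def cl6 (m n j U : ℕ) : Bool :=
  Bool.rec false (allIn m n j U) (Nat.beq (pcf m U) (Nat.add 6 j))

lemma cl6_sound {j U : ℕ} (h : cl6 m n j U = true) : (ofMask m U).card = 6 + j ∧
    ∀ Z, Z ⊆ ofMask m U → Z.card = 6 → ∃ s, n.testBit s = true ∧ ofMask m s = Z := by
  have h' : (Bool.rec false (allIn m n j U) (Nat.beq (pcf m U) (6 + j)) : Bool) = true := h
  cases h1 : Nat.beq (pcf m U) (6 + j) with
  | false => rw [h1] at h'; exact absurd h' (by simp)
  | true =>
    rw [h1] at h'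
    have h2 := Nat.eq_of_beq_eq_true h1
    rw [pcf_eq, ← card_ofMask] at h2
    exact ⟨h2, fun Z hZ hc => allIn_sound m n j U h' Z hZ (by omega)⟩

/-- the elimination clause of `a` and `b` at `e` -/
noncomputable def elimCl (m n j a b e : ℕ) : Bool :=
  Bool.rec false (Bool.rec false
    (strict (cl6 m n j) (Nat.xor (Nat.lor a b) (Nat.pow 2 e))) (Nat.blt e m))
    (tb (Nat.land a b) e)

lemma elimCl_sound (hc : Cf cir 6 7) {j a b e : ℕ} (h : elimCl m n j a b e = true)
    (ha : cir (ofMask m a)) (hb : cir (ofMask m b)) :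
    ∃ s, n.testBit s = true ∧ cir (ofMask m s) := by
  have h' : (Bool.rec false (Bool.rec false (strict (cl6 m n j) ((a ||| b) ^^^ 2 ^ e))
    (Nat.blt e m)) (tb (a &&& b) e) : Bool) = true := h
  cases h1 : tb (a &&& b) e with
  | false => rw [h1] at h'; exact absurd h' (by simp)
  | true =>
    cases h2 : Nat.blt e m with
    | false => rw [h1, h2] at h'; exact absurd h' (by simp)
    | true =>
      rw [h1, h2] at h'
      have h3 : strict (cl6 m n j) ((a ||| b) ^^^ 2 ^ e) = true := h'
      rw [strict_eq] at h3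
      have he : e < m := by rwa [Nat.blt_eq] at h2
      rw [tb_eq, Nat.testBit_and, Bool.and_eq_true] at h1
      obtain ⟨h4, h5⟩ := cl6_sound h3
      have e1 : ofMask m ((a ||| b) ^^^ 2 ^ e) = (ofMask m a ∪ ofMask m b).erase ⟨e, he⟩ := by
        rw [← ofMask_lor]
        exact ofMask_xor ⟨e, he⟩ (by simp [h1.1])
      rw [e1] at h4 h5
      have m1 : (⟨e, he⟩ : Fin m) ∈ ofMask m a := mem_ofMask.2 h1.1
      have m2 : (⟨e, he⟩ : Fin m) ∈ ofMask m b := mem_ofMask.2 h1.2
      have hne : ofMask m a ≠ ofMask m b := by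
        intro e2
        rw [← e2, union_self, card_erase_of_mem m1, hc.card _ ha] at h4
        omega
      obtain ⟨Z, hZ, hZ'⟩ := hc.elim' ha hb hne m1 m2
      obtain ⟨s, hs, rfl⟩ := h5 Z hZ' (hc.card _ hZ)
      exact ⟨s, hs, hZ⟩

/-- states of the checker -/
abbrev CtSt : Type := ℕ × ℕ × List (ℕ × ℕ)

/-- strict application -/
noncomputable def strictS (f : ℕ → CtSt) (x : ℕ) : CtSt :=
  Nat.rec (f 0) (fun n _ => f (Nat.succ n)) x

lemma strictS_eq (f : ℕ → CtSt) (x : ℕ) : strictS f x = f x := by cases x <;> rfl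

/-- continue if the test succeeds -/
noncomputable def guardS (b : Bool) (s : CtSt) : CtSt := Bool.rec (0, 0, []) s b

/-- continue with the next open branch -/
noncomputable def popSt (k : ℕ → ℕ → List (ℕ × ℕ) → CtSt) (st : List (ℕ × ℕ)) : CtSt :=
  List.rec (1, 1, []) (fun x st' _ => k x.1 x.2 st') st

/-- one step of a certificate -/
noncomputable def stepCt (m : ℕ) (G : ℕ → ℕ → ℕ → Bool) (k : ℕ → ℕ → List (ℕ × ℕ) → CtSt)
    (p n : ℕ) (st : List (ℕ × ℕ)) (t j e S a b : ℕ) : CtSt :=
  Nat.rec (guardS (strict (fun n' => cl6 m n' 2 a) (Nat.lor n (Nat.pow 2 S)))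
      (strictS (fun p' => k p' n st) (Nat.lor p (Nat.pow 2 S))))
    (fun t _ => Nat.rec
      (guardS (Bool.rec false (Bool.rec false
        (strict (fun n' => elimCl m n' j a b e) (Nat.lor n (Nat.pow 2 S))) (tb p b)) (tb p a))
        (strictS (fun p' => k p' n st) (Nat.lor p (Nat.pow 2 S))))
      (fun t _ => Nat.rec
        (guardS (Bool.rec false (elimCl m n j S a e) (tb p a))
          (strictS (fun n' => k p n' st) (Nat.lor n (Nat.pow 2 S))))
        (fun t _ => Nat.rec
          (strictS (fun p' => strictS (fun n' => k p' n ((p, n') :: st)) (Nat.lor n (Nat.pow 2 S)))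
            (Nat.lor p (Nat.pow 2 S)))
          (fun t _ => Nat.rec (guardS (G S p n) (popSt k st))
            (fun _ _ => guardS (Nat.blt 0 (Nat.land p n)) (popSt k st)) t) t) t) t) t

/-- run one part of a certificate -/
noncomputable def runCt (m : ℕ) (G : ℕ → ℕ → ℕ → Bool) (l : List ℕ) :
    ℕ → ℕ → List (ℕ × ℕ) → CtSt :=
  List.rec (fun p n st => (p, n, st)) (fun c _ k p n st =>
    strictS (fun e => strictS (fun S => strictS (fun a => strictS (fun b =>
      stepCt m G k p n st (Nat.land c 7) (Nat.land (Nat.shiftRight c 3) 3) e S a b)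
      (Nat.shiftRight c 35)) (Nat.land (Nat.shiftRight c 22) 8191))
      (Nat.land (Nat.shiftRight c 9) 8191)) (Nat.land (Nat.shiftRight c 5) 15)) l

/-- run a certificate -/
noncomputable def runAll (m : ℕ) (G : ℕ → ℕ → ℕ → Bool) (L : List (List ℕ)) :
    ℕ → ℕ → List (ℕ × ℕ) → Bool :=
  List.rec (fun p n st => List.rec (Nat.blt 0 (Nat.land p n)) (fun _ _ _ => false) st)
    (fun l _ k p n st => Prod.rec (fun p' r => Prod.rec (fun n' st' => k p' n' st') r)
      (runCt m G l p n st)) L

lemma brec_true {a b : Bool} (h : (Bool.rec false a b : Bool) = true) : a = true ∧ b = true := by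
  cases b
  · exact absurd h (by simp)
  · exact ⟨h, rfl⟩

/-- the invariant of the checker -/
def CtInv (cir : Finset (Fin m) → Prop) (Q : Prop) (s : CtSt) : Prop :=
  Q ∨ Good cir s.1 s.2.1 ∨ ∃ x ∈ s.2.2, Good cir x.1 x.2

lemma guardS_inv {Q : Prop} {b : Bool} {s : CtSt} (h : b = true → CtInv cir Q s) :
    CtInv cir Q (guardS b s) := by
  cases b
  · exact Or.inr (Or.inl ⟨by simp [guardS], by simp [guardS]⟩)
  · exact h rfl

lemma Good.not_blt (hg : Good cir p n) : ¬ Nat.blt 0 (Nat.land p n) = true := by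
  intro h
  rw [Nat.blt_eq] at h
  obtain ⟨s, hs⟩ := Nat.exists_testBit_of_ne_zero (show p &&& n ≠ 0 from h.ne')
  rw [Nat.testBit_and, Bool.and_eq_true] at hs
  exact absurd (hg.1 s hs.1) (hg.2 s hs.2)

lemma stepCt_sound (hc : Cf cir 6 7) (G : ℕ → ℕ → ℕ → Bool) (Q : Prop)
    (hG : ∀ i p n, G i p n = true → Good cir p n → Q) (k : ℕ → ℕ → List (ℕ × ℕ) → CtSt)
    (hk : ∀ p n st, CtInv cir Q (p, n, st) → CtInv cir Q (k p n st))
    (p n : ℕ) (st : List (ℕ × ℕ)) (t j e S a b : ℕ) (hg : CtInv cir Q (p, n, st)) :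
    CtInv cir Q (stepCt m G k p n st t j e S a b) := by
  have pop : (Good cir p n → Q) → CtInv cir Q (popSt k st) := by
    intro h1
    have h2 : Q ∨ ∃ x ∈ st, Good cir x.1 x.2 := by
      rcases hg with h | h | h
      exacts [Or.inl h, Or.inl (h1 h), Or.inr h]
    cases st with
    | nil => exact Or.inl (by simpa using h2)
    | cons x st' =>
      apply hk
      rcases h2 with h2 | ⟨y, hy, hy'⟩
      · exact Or.inl h2
      · rcases List.mem_cons.1 hy with rfl | hy
        · exact Or.inr (Or.inl hy')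
        · exact Or.inr (Or.inr ⟨y, hy, hy'⟩)
  rcases t with _ | _ | _ | _ | _ | t
  · refine guardS_inv fun h2 => ?_
    rw [strict_eq] at h2
    rw [strictS_eq]
    refine hk _ _ _ (hg.imp_right (Or.imp_left fun hg => hg.pos ?_))
    obtain ⟨h3, h4⟩ := cl6_sound h2
    obtain ⟨C, hC, hC'⟩ := hc.big _ h3
    obtain ⟨s, hs, rfl⟩ := h4 C hC (hc.card _ hC')
    rcases testBit_add hs with h5 | rfl
    · exact absurd hC' (hg.2 s h5)
    · exact hC'
  · refine guardS_inv fun h => ?_
    obtain ⟨h0, ha⟩ := brec_true h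
    obtain ⟨h2, hb⟩ := brec_true h0
    rw [strict_eq] at h2
    rw [tb_eq] at ha hb
    rw [strictS_eq]
    refine hk _ _ _ (hg.imp_right (Or.imp_left fun hg => hg.pos ?_))
    obtain ⟨s, hs, hs'⟩ := elimCl_sound hc h2 (hg.1 a ha) (hg.1 b hb)
    rcases testBit_add hs with h5 | rfl
    · exact absurd hs' (hg.2 s h5)
    · exact hs'
  · refine guardS_inv fun h => ?_
    obtain ⟨h2, ha⟩ := brec_true h
    rw [tb_eq] at ha
    rw [strictS_eq]
    refine hk _ _ _ (hg.imp_right (Or.imp_left fun hg => hg.neg fun hS => ?_))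
    obtain ⟨s, hs, hs'⟩ := elimCl_sound hc h2 hS (hg.1 a ha)
    exact hg.2 s hs hs'
  · change CtInv cir Q (strictS (fun p' => strictS (fun n' => k p' n ((p, n') :: st)) (n ||| 2 ^ S))
      (p ||| 2 ^ S))
    rw [strictS_eq, strictS_eq]
    apply hk
    rcases hg with hg | hg | ⟨x, hx, hx'⟩
    · exact Or.inl hg
    · by_cases hS : cir (ofMask m S)
      · exact Or.inr (Or.inl (hg.pos hS))
      · exact Or.inr (Or.inr ⟨_, List.mem_cons_self, hg.neg hS⟩)
    · exact Or.inr (Or.inr ⟨x, List.mem_cons_of_mem _ hx, hx'⟩)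
  · exact guardS_inv fun h => pop (hG _ _ _ h)
  · exact guardS_inv fun h => pop fun hg => absurd h hg.not_blt

lemma runCt_sound (hc : Cf cir 6 7) (G : ℕ → ℕ → ℕ → Bool) (Q : Prop)
    (hG : ∀ i p n, G i p n = true → Good cir p n → Q) (l : List ℕ) :
    ∀ p n st, CtInv cir Q (p, n, st) → CtInv cir Q (runCt m G l p n st) := by
  induction l with
  | nil => intro p n st h; exact h
  | cons c l ih =>
    intro p n st hg
    change CtInv cir Q (strictS (fun e => strictS (fun S => strictS (fun a => strictS (fun b =>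
      stepCt m G (runCt m G l) p n st (Nat.land c 7) (Nat.land (Nat.shiftRight c 3) 3) e S a b)
      (Nat.shiftRight c 35)) (Nat.land (Nat.shiftRight c 22) 8191))
      (Nat.land (Nat.shiftRight c 9) 8191)) (Nat.land (Nat.shiftRight c 5) 15))
    simp only [strictS_eq]
    exact stepCt_sound hc G Q hG _ ih _ _ _ _ _ _ _ _ _ hg

theorem runAll_sound (hc : Cf cir 6 7) (G : ℕ → ℕ → ℕ → Bool) (Q : Prop)
    (hG : ∀ i p n, G i p n = true → Good cir p n → Q) (L : List (List ℕ)) :
    ∀ p n st, runAll m G L p n st = true → CtInv cir Q (p, n, st) → Q := by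
  induction L with
  | nil =>
    intro p n st h hg
    cases st with
    | nil =>
      rcases hg with hg | hg | hg
      · exact hg
      · exact absurd h hg.not_blt
      · simp at hg
    | cons x st => exact absurd h (by simp [runAll])
  | cons l L ih =>
    intro p n st h hg
    exact ih _ _ _ h (runCt_sound hc G Q hG l p n st hg)

/-- a test for all numbers below `N` -/
noncomputable def allUp (N : ℕ) (f : ℕ → Bool) : Bool :=
  Nat.rec true (fun i ih => Bool.rec false ih (f i)) N

lemma allUp_sound (N : ℕ) (f : ℕ → Bool) (h : allUp N f = true) : ∀ i < N, f i = true := by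
  induction N with
  | zero => intro i hi; omega
  | succ N ih =>
    obtain ⟨h1, h2⟩ := brec_true h
    intro i hi
    rcases Nat.lt_succ_iff_lt_or_eq.1 hi with h3 | rfl
    · exact ih h1 i h3
    · exact h2

end Pool.Agent.MP_337c4e_co

end

section

/-! Labels in a four-dimensional space over the field with two elements. -/

set_option linter.unusedSectionVars false
set_option linter.unusedVariables false

namespace Pool.Agent.MP_337c4e_co

open Finset RkFn

variable {α : Type} [Fintype α] [DecidableEq α] {cir : Finset α → Prop}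

namespace Cf

lemma lab_notMem {F : Finset α} {φ : Fin 7 ↪ α} (hφ : ∀ i, φ i ∈ F) {x : α} (hx : x ∉ F)
    (S : Finset (Fin 7)) : x ∉ S.map φ := by
  intro h
  obtain ⟨i, -, rfl⟩ := mem_map.1 h
  exact hx (hφ i)

lemma lab_one {F : Finset α} (hcl : Closed cir F) {φ : Fin 7 ↪ α} (hφ : ∀ i, φ i ∈ F) {x : α}
    (hx : x ∉ F) (S : Finset (Fin 7)) : ¬ cir (insert x (S.map φ)) := by
  intro h
  apply hcl _ h
  rw [card_eq_one]
  refine ⟨x, ?_⟩
  ext t
  simp only [mem_sdiff, mem_insert, mem_singleton]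
  constructor
  · rintro ⟨h1 | h1, h2⟩
    · exact h1
    · exact absurd h1 (lab_notMem hφ h2 S)
  · rintro rfl
    exact ⟨Or.inl rfl, hx⟩

lemma lab_full (h : Cf cir 6 6) {W : Finset α} (hW : W.card = 4) {x y z : α} (hx : x ∉ W)
    (h1 : cir (insert x (insert y W))) (h2 : cir (insert x (insert z W))) :
    Full cir 6 (insert x (insert y (insert z W))) := by
  have h3 : insert x W ⊆ insert x (insert y W) ∩ insert x (insert z W) :=
    subset_inter (insert_subset_insert _ (subset_insert _ _))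
      (insert_subset_insert _ (subset_insert _ _))
  have h4 := card_le_card h3
  rw [card_insert_of_notMem hx, hW] at h4
  have h5 := h.full_union (by norm_num) (h.cf_full_self h1) (h.cf_full_self h2) (by omega)
  have h6 : insert x (insert y W) ∪ insert x (insert z W) = insert x (insert y (insert z W)) := by
    ext t; simp only [mem_union, mem_insert]; tauto
  rwa [h6] at h5

lemma lab_third (h : Cf cir 6 6) {W : Finset α} (hW : W.card = 4) {x y z : α} (hx : x ∉ W)
    (hy : y ∉ W) (hz : z ∉ W) (hyz : y ≠ z)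
    (h1 : cir (insert x (insert y W))) (h2 : cir (insert x (insert z W))) :
    cir (insert y (insert z W)) := by
  apply lab_full h hW hx h1 h2 _ (subset_insert _ _)
  rw [card_insert_of_notMem (by simp [hyz, hy]), card_insert_of_notMem hz, hW]

/-- For `A` with five points the 7-set `A.map φ ∪ {x, y}` contains the non-circuits
`insert x (A.map φ)`, `insert y (A.map φ)` (closedness), so exactly one circuit (`count_succ`);
apply `fano30`. -/
lemma pair_tab (h : Cf cir 6 6) {F : Finset α} (hcl : Closed cir F) (φ : Fin 7 ↪ α)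
    (hφ : ∀ i, φ i ∈ F) {x y : α} (hx : x ∉ F) (hy : y ∉ F) (hxy : x ≠ y) :
    ∃ i < 30, ∀ m < 128, pc 7 m = 4 →
      (cir (insert x (insert y ((ofMask 7 m).map φ))) ↔ m ∈ tab i) := by
  classical
  apply fano30 (fun S => cir (insert x (insert y (S.map φ))))
  intro A hA
  have hxA := lab_notMem hφ hx
  have hyA := lab_notMem hφ hy
  have hxy' : ∀ S : Finset (Fin 7), x ∉ insert y (S.map φ) := fun S => by
    rw [mem_insert]; exact fun hh => hh.elim hxy (hxA S)
  have hU : (insert x (insert y (A.map φ))).card = 6 + 1 := by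
    rw [card_insert_of_notMem (hxy' A), card_insert_of_notMem (hyA A), card_map, hA]
  have hcx : (insert x (A.map φ)).card = 6 := by
    rw [card_insert_of_notMem (hxA A), card_map, hA]
  have hcy : (insert y (A.map φ)).card = 6 := by
    rw [card_insert_of_notMem (hyA A), card_map, hA]
  have hnf : ¬ Full cir 6 (insert x (insert y (A.map φ))) := fun hf =>
    lab_one hcl hφ hy A (hf _ (subset_insert _ _) hcy)
  have hc := h.count_succ (by norm_num) hU
  rw [if_neg hnf, card_eq_one] at hc
  obtain ⟨C, hC⟩ := hc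
  have hmem : ∀ Z, (Z ⊆ insert x (insert y (A.map φ)) ∧ cir Z) ↔ Z = C := by
    intro Z
    rw [← mem_singleton, ← hC, mem_filter, mem_powerset]
  obtain ⟨hCU, hCc⟩ := (hmem C).2 rfl
  have hC6 := h.card C hCc
  have hxC : x ∈ C := by
    by_contra hn
    have h1 : C ⊆ insert y (A.map φ) := fun t ht =>
      (mem_insert.1 (hCU ht)).resolve_left (fun e => hn (e ▸ ht))
    have h2 : C = insert y (A.map φ) := eq_of_subset_of_card_le h1 (by omega)
    exact lab_one hcl hφ hy A (h2 ▸ hCc)
  have hyC : y ∈ C := by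
    by_contra hn
    rw [insert_comm] at hCU
    have h1 : C ⊆ insert x (A.map φ) := fun t ht =>
      (mem_insert.1 (hCU ht)).resolve_left (fun e => hn (e ▸ ht))
    have h2 : C = insert x (A.map φ) := eq_of_subset_of_card_le h1 (by omega)
    exact lab_one hcl hφ hx A (h2 ▸ hCc)
  have hyC' : y ∈ C.erase x := mem_erase.2 ⟨hxy.symm, hyC⟩
  have h1 : (C.erase x).erase y ⊆ A.map φ := by
    intro t ht
    simp only [mem_erase] at ht
    have := hCU ht.2.2
    simp only [mem_insert] at this
    tauto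
  obtain ⟨S, hSA, hS⟩ := subset_map_iff.1 h1
  have h2 : insert x (insert y (S.map φ)) = C := by
    rw [← hS, insert_erase hyC', insert_erase hxC]
  have h3 : S.card = 4 := by
    have := congrArg Finset.card hS
    rw [card_erase_of_mem hyC', card_erase_of_mem hxC, card_map, hC6] at this
    omega
  refine ⟨S, ⟨hSA, h3, h2 ▸ hCc⟩, ?_⟩
  rintro S' ⟨a, -, c⟩
  have h4 := (hmem _).1 ⟨insert_subset_insert _ (insert_subset_insert _ (map_subset_map.2 a)), c⟩
  apply map_injective φ
  rw [← hS, ← h4, erase_insert (hxy' S'), erase_insert (hyA S')]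

/-- Two circuits `W ∪ {x, y}`, `W ∪ {x, z}` make `W ∪ {x, y, z}` full (`full_union`); two such `W`
meet in two points (`tab_inter`) and give a full set with nine points.  Apply `tab_compat`. -/
lemma triple_tab (h : Cf cir 6 6) (h8 : ∀ U, Full cir 6 U → U.card ≤ 8) {F : Finset α}
    (φ : Fin 7 ↪ α) (hφ : ∀ i, φ i ∈ F) {x y z : α} (hx : x ∉ F) (hy : y ∉ F) (hz : z ∉ F)
    (hxy : x ≠ y) (hxz : x ≠ z) (hyz : y ≠ z) {i j l : ℕ} (hi : i < 30) (hj : j < 30) (hl : l < 30)
    (ei : ∀ m < 128, pc 7 m = 4 → (cir (insert x (insert y ((ofMask 7 m).map φ))) ↔ m ∈ tab i))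
    (ej : ∀ m < 128, pc 7 m = 4 → (cir (insert x (insert z ((ofMask 7 m).map φ))) ↔ m ∈ tab j))
    (el : ∀ m < 128, pc 7 m = 4 → (cir (insert y (insert z ((ofMask 7 m).map φ))) ↔ m ∈ tab l)) :
    i / 15 = j / 15 ∧ i / 15 = l / 15 ∧ (i % 15 + 1) ^^^ (j % 15 + 1) = l % 15 + 1 := by
  have hxA := lab_notMem hφ hx
  have hyA := lab_notMem hφ hy
  have hzA := lab_notMem hφ hz
  have hc : ∀ m, pc 7 m = 4 → ((ofMask 7 m).map φ).card = 4 := fun m hm => by
    rw [card_map, card_ofMask, hm]
  apply tab_compat i j l hi hj hl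
  · intro m h1 h2
    obtain ⟨a, b⟩ := tab_mem i hi m h1
    exact (el m a b).1 (lab_third h (hc m b) (hxA _) (hyA _) (hzA _) hyz ((ei m a b).2 h1)
      ((ej m a b).2 h2))
  · intro m h1 h2
    obtain ⟨a, b⟩ := tab_mem i hi m h1
    exact (ej m a b).1 (lab_third h (hc m b) (hyA _) (hxA _) (hzA _) hxz
      (insert_comm x y _ ▸ (ei m a b).2 h1) ((el m a b).2 h2))
  · intro m h1 h2
    obtain ⟨a, b⟩ := tab_mem j hj m h1
    exact (ei m a b).1 (lab_third h (hc m b) (hzA _) (hxA _) (hyA _) hxy
      (insert_comm x z _ ▸ (ej m a b).2 h1) (insert_comm y z _ ▸ (el m a b).2 h2))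
  · intro m m' h1 h2 h3 h4
    by_contra hne
    obtain ⟨a, b⟩ := tab_mem i hi m h1
    obtain ⟨a', b'⟩ := tab_mem i hi m' h3
    have f1 := lab_full h (hc m b) (hxA _) ((ei m a b).2 h1) ((ej m a b).2 h2)
    have f2 := lab_full h (hc m' b') (hxA _) ((ei m' a' b').2 h3) ((ej m' a' b').2 h4)
    have hI := tab_inter i hi m h1 m' h3 hne
    have hcard : ∀ S : Finset (Fin 7),
        (insert x (insert y (insert z (S.map φ)))).card = S.card + 3 := by
      intro S
      rw [card_insert_of_notMem, card_insert_of_notMem, card_insert_of_notMem (hzA S), card_map]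
      · rw [mem_insert]; exact fun hh => hh.elim hyz (hyA S)
      · rw [mem_insert, mem_insert]
        exact fun hh => hh.elim hxy (fun hh => hh.elim hxz (hxA S))
    have hmono : ∀ S T : Finset (Fin 7), S ⊆ T →
        insert x (insert y (insert z (S.map φ))) ⊆ insert x (insert y (insert z (T.map φ))) :=
      fun S T hST => insert_subset_insert _ (insert_subset_insert _
        (insert_subset_insert _ (map_subset_map.2 hST)))
    have h5 := card_le_card (subset_inter (hmono _ _ (inter_subset_left (s₂ := ofMask 7 m')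
      (s₁ := ofMask 7 m))) (hmono _ _ inter_subset_right))
    rw [hcard, hI] at h5
    have h6 := h8 _ (h.full_union (by norm_num) f1 f2 (by omega))
    have h7 : insert x (insert y (insert z ((ofMask 7 m ∪ ofMask 7 m').map φ))) ⊆
        insert x (insert y (insert z ((ofMask 7 m).map φ))) ∪
          insert x (insert y (insert z ((ofMask 7 m').map φ))) := by
      intro t
      rw [map_union]
      simp only [mem_union, mem_insert]
      tauto
    have h9 := card_le_card h7
    have h10 := card_union_add_card_inter (ofMask 7 m) (ofMask 7 m')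
    rw [hI, card_ofMask, card_ofMask, b, b'] at h10
    rw [hcard] at h9
    omega

/-- Fix `x0 ≠ y0` outside `F`.  After composing `φ` with the transposition of `0` and `1` if
necessary (`tab_swap`) the system of `x0, y0` has index below 15.  Put `u x0 = 0` and
`u y = 1 +` the index of `x0, y`; use `triple_tab` for `x0, y0, y` and for `x0, y, z`. -/
theorem labels (h : Cf cir 6 6) (h8 : ∀ U, Full cir 6 U → U.card ≤ 8) {F : Finset α}
    (hcl : Closed cir F) (h7 : 7 ≤ F.card) (h2 : F.card + 2 ≤ Fintype.card α) :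
    ∃ (φ : Fin 7 ↪ α) (u : α → ℕ), (∀ i, φ i ∈ F) ∧ (∀ x, u x < 16) ∧ (∃ x, x ∉ F ∧ u x = 0) ∧
      ∀ x y, x ∉ F → y ∉ F → x ≠ y → u x ≠ u y ∧ ∀ m < 128, pc 7 m = 4 →
        (cir (insert x (insert y ((ofMask 7 m).map φ))) ↔ m ∈ tab ((u x ^^^ u y) - 1)) := by
  classical
  obtain ⟨φ0, hφ0⟩ : ∃ φ : Fin 7 ↪ α, ∀ i, φ i ∈ F := by
    obtain ⟨f, hf⟩ := Function.Embedding.exists_of_card_le_finset (α := Fin 7) (s := F)
      (by simpa using h7)
    exact ⟨f, fun i => hf ⟨i, rfl⟩⟩
  obtain ⟨x0, hx0, y0, hy0, hxy0⟩ : ∃ x ∈ Fᶜ, ∃ y ∈ Fᶜ, x ≠ y := by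
    apply one_lt_card.1
    rw [card_compl]; omega
  rw [mem_compl] at hx0 hy0
  obtain ⟨φ, hφ, i0, hi0, e0⟩ : ∃ φ : Fin 7 ↪ α, (∀ i, φ i ∈ F) ∧ ∃ i < 15, ∀ m < 128,
      pc 7 m = 4 → (cir (insert x0 (insert y0 ((ofMask 7 m).map φ))) ↔ m ∈ tab i) := by
    obtain ⟨i, hi, e⟩ := pair_tab h hcl φ0 hφ0 hx0 hy0 hxy0
    by_cases hlt : i < 15
    · exact ⟨φ0, hφ0, i, hlt, e⟩
    · refine ⟨(Equiv.swap (0 : Fin 7) 1).toEmbedding.trans φ0, fun i => hφ0 _, i - 15, by omega, ?_⟩
      intro m hm hp
      obtain ⟨m', hm', em⟩ :=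
        exists_ofMask ((ofMask 7 m).map (Equiv.swap (0 : Fin 7) 1).toEmbedding)
      have hp' : pc 7 m' = 4 := by rw [← card_ofMask, em, card_map, card_ofMask, hp]
      rw [← map_map, ← em, e m' (by omega) hp',
        tab_swap (i - 15) (by omega) m hm m' (by omega) em.symm, Nat.sub_add_cancel (by omega)]
  have hex : ∀ y, ∃ i < 15, y ∉ F → y ≠ x0 → ∀ m < 128, pc 7 m = 4 →
      (cir (insert x0 (insert y ((ofMask 7 m).map φ))) ↔ m ∈ tab i) := by
    intro y
    by_cases hy : y ∈ F
    · exact ⟨0, by omega, fun hh => absurd hy hh⟩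
    by_cases hyx : y = x0
    · exact ⟨0, by omega, fun _ hh => absurd hyx hh⟩
    by_cases hyy : y = y0
    · exact ⟨i0, hi0, fun _ _ => hyy ▸ e0⟩
    obtain ⟨j, hj, ej⟩ := pair_tab h hcl φ hφ hx0 hy (Ne.symm hyx)
    obtain ⟨l, hl, el⟩ := pair_tab h hcl φ hφ hy0 hy (Ne.symm hyy)
    have := (triple_tab h h8 φ hφ hx0 hy0 hy hxy0 (Ne.symm hyx) (Ne.symm hyy) (by omega) hj hl
      e0 ej el).1
    exact ⟨j, by omega, fun _ _ => ej⟩
  choose idx hidx eidx using hex
  refine ⟨φ, fun y => if y = x0 then 0 else idx y + 1, hφ, ?_, ⟨x0, hx0, by simp⟩, ?_⟩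
  · intro y
    have := hidx y
    dsimp only
    split_ifs <;> omega
  · intro x y hx hy hxy
    dsimp only
    by_cases h1 : x = x0
    · subst h1
      rw [if_pos rfl, if_neg hxy.symm, Nat.zero_xor, Nat.add_sub_cancel]
      exact ⟨by omega, eidx y hy hxy.symm⟩
    by_cases h2 : y = x0
    · subst h2
      rw [if_pos rfl, if_neg h1, Nat.xor_zero, Nat.add_sub_cancel]
      refine ⟨by omega, fun m hm hp => ?_⟩
      rw [insert_comm]
      exact eidx x hx h1 m hm hp
    rw [if_neg h1, if_neg h2]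
    obtain ⟨l, hl, el⟩ := pair_tab h hcl φ hφ hx hy hxy
    have a := hidx x
    have b := hidx y
    obtain ⟨-, c, d⟩ := triple_tab h h8 φ hφ hx0 hx hy (Ne.symm h1) (Ne.symm h2) hxy
      (by omega : idx x < 30) (by omega : idx y < 30) hl (eidx x hx h1) (eidx y hy h2) el
    rw [Nat.mod_eq_of_lt a, Nat.mod_eq_of_lt b, Nat.mod_eq_of_lt (by omega : l < 15)] at d
    rw [d, Nat.add_sub_cancel]
    refine ⟨fun e => ?_, el⟩
    rw [e, Nat.xor_self] at d
    omega

end Cf

end Pool.Agent.MP_337c4e_co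

end
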