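import Pool.Agent.MP_337c4e_co.Check

namespace Pool.Agent.MP_337c4e_co

def dAG42 : List ℕ :=
  [255, 3855, 4080, 13107, 13260, 15420, 15555, 21845, 21930, 23130, 23205, 26214, 26265,
   26985, 27030, 38505, 38550, 39270, 39321, 42330, 42405, 43605, 43690, 49980, 50115, 52275,
   52428, 61455, 61680, 65280]

theorem mat_30_16 : Matroidal 30 16 15 8 7 :=
  matroidal_of_test _ _ _ _ _ dAG42 (by decide +kernel) (by norm_num) (by norm_num)
    (by norm_num) (by norm_num)

def dPG42 : List ℕ :=
  [127, 1927, 6553, 7777, 10922, 11602, 13132, 13492, 19252, 19660, 21202, 21802, 25057,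
   26137, 30727, 491527, 1671193, 1966177, 2785322, 2949202, 3342412, 3440692, 4915252,
   5013580, 5406802, 5570602, 6389857, 6684697, 7864327, 25264513, 25560577, 26744833,
   31481857, 42107522, 42272002, 44574722, 47206402, 50529412, 50627332, 53495812, 55062532,
   75694852, 75793540, 78655492, 80234500, 84051202, 84214402, 86528002, 89139202, 100763137,
   101056897, 102260737, 106960897, 125829127, 143165576, 143724808, 144843272, 147080200,
   151589008, 152078608, 153371152, 155329552, 168435872, 169099552, 169904672, 172037152,
   202129600, 202514752, 203493952, 205556800, 277416208, 277909648, 279192592, 281166352,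
   285774088, 286328968, 287458312, 289677832, 302784832, 303186112, 304155712, 306221632,
   336216352, 336863392, 337679392, 339806752, 402757633, 403070977, 404226433, 408946177,
   427819033, 503316577, 545917472, 546575392, 547397792, 549536032, 554439232, 554830912,
   555827392, 557883712, 570991112, 571556872, 572655752, 574886152, 604586512, 605070352,
   606343312, 608307472, 671262722, 671436802, 673710722, 676332802, 713031722, 754974802,
   805521412, 805613572, 808453252, 810025732, 855638092, 880803892, 1082920000, 1083314752,
   1084301632, 1086374080, 1091179552, 1091832352, 1092665632, 1094787232, 1107895312,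
   1108394512, 1109657872, 1111625872, 1141425160, 1141973512, 1143083272, 1145309320,
   1208168452, 1208272900, 1211106052, 1212679300, 1258291252, 1283457100, 1342361602,
   1342515202, 1344800002, 1347420802, 1384120402, 1426063402, 1610735617, 1611012097,
   1612187137, 1616904577, 1635778657, 1711276057, 2013265927]

theorem mat_155_31 : Matroidal 155 31 35 7 7 :=
  matroidal_of_test _ _ _ _ _ dPG42 (by decide +kernel) (by norm_num) (by norm_num)
    (by norm_num) (by norm_num)

def dVer : List ℕ :=
  [499, 699, 719, 757, 875, 998, 1207, 1398, 1438, 1465, 1514, 1567, 1750, 1931, 1996, 2237,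
   2414, 2607, 2796, 2843, 2876, 2930, 2993, 3028, 3134, 3159, 3181, 3313, 3427, 3500, 3529,
   3659, 3781, 3862, 3921, 3992, 4345, 4445, 4455, 4474, 4533, 4699, 4828, 4879, 5061, 5214,
   5399, 5517, 5592, 5675, 5686, 5752, 5809, 5860, 5925, 5986, 6056, 6268, 6318, 6323, 6362,
   6445, 6535, 6626, 6795, 6854, 6933, 7000, 7058, 7257, 7318, 7363, 7493, 7562, 7724, 7777,
   7842, 7984]

theorem mat_78_13 : Matroidal 78 13 42 7 21 :=
  matroidal_of_test _ _ _ _ _ dVer (by decide +kernel) (by norm_num) (by norm_num)
    (by norm_num) (by norm_num)

end Pool.Agent.MP_337c4e_co
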