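import Pool.Agent.MP_337c4e_co.ExD
import Pool.Agent.MP_337c4e_co.ExC
import Pool.Agent.MP_337c4e_co.Basic

set_option linter.unusedSectionVars false
set_option linter.unusedVariables false

namespace Pool.Agent.MP_337c4e_co

open Finset RkFn

section Witt

variable {α : Type} [Fintype α] [DecidableEq α]

/-- an octad together with a further point -/
def plusOne (𝓞 : Finset (Finset α)) : Finset (Finset α) :=
  univ.filter (fun H => ∃ O ∈ 𝓞, ∃ y, y ∉ O ∧ H = insert y O)

lemma mem_plusOne {𝓞 : Finset (Finset α)} {H : Finset α} :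
    H ∈ plusOne 𝓞 ↔ ∃ O ∈ 𝓞, ∃ y, y ∉ O ∧ H = insert y O := by
  simp only [plusOne, mem_filter, mem_univ, true_and]

variable {𝓞 : Finset (Finset α)} (hv : Fintype.card α = 24) (hk : ∀ O ∈ 𝓞, O.card = 8)
  (hint : ∀ O ∈ 𝓞, ∀ O' ∈ 𝓞, O ≠ O' → (O ∩ O').card < 5)
  (hcov : ∀ T : Finset α, T.card = 5 → (𝓞.filter (fun O => T ⊆ O)).card = 1)

include hv hk hint hcov

lemma seven_set (T : Finset α) (hT : T.card = 7) : ∃ O ∈ 𝓞, 6 ≤ (T ∩ O).card := by
  by_contra hc
  push Not at hc
  obtain ⟨a, ha⟩ : T.Nonempty := card_pos.1 (by omega)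
  have hex : ∀ c, c ∈ T.erase a → ∃ O ∈ 𝓞, (T.erase a).erase c ⊆ O := by
    intro c hc'
    obtain ⟨O, hO⟩ := card_pos.1 (by
      rw [hcov ((T.erase a).erase c) (by rw [card_erase_of_mem hc', card_erase_of_mem ha, hT])]
      omega : 0 < (𝓞.filter (fun O => (T.erase a).erase c ⊆ O)).card)
    exact ⟨O, (mem_filter.1 hO).1, (mem_filter.1 hO).2⟩
  choose! O hO1 hO2 using hex
  have h1 : ∀ c ∈ T.erase a, 3 ≤ (O c \ T).card := by
    intro c hc'
    have e1 := card_sdiff_add_card_inter (O c) T
    have e2 := hc (O c) (hO1 c hc')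
    rw [inter_comm] at e2
    rw [hk _ (hO1 c hc')] at e1
    omega
  have h2 : ((T.erase a : Finset α) : Set α).PairwiseDisjoint (fun c => O c \ T) := by
    intro c hc1 c' hc2 hne
    rw [Function.onFun, disjoint_left]
    intro z hz hz'
    rw [mem_sdiff] at hz hz'
    have hc1' : c ∈ T.erase a := hc1
    have hc2' : c' ∈ T.erase a := hc2
    by_cases heq : O c = O c'
    · have e1 : T.erase a ⊆ T ∩ O c := by
        intro w hw
        rw [mem_inter]
        refine ⟨mem_of_mem_erase hw, ?_⟩
        by_cases hwc : w = c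
        · rw [heq]; exact hO2 c' hc2' (mem_erase.2 ⟨hwc ▸ hne, hw⟩)
        · exact hO2 c hc1' (mem_erase.2 ⟨hwc, hw⟩)
      have e2 := card_le_card e1
      have e3 := hc _ (hO1 c hc1')
      rw [card_erase_of_mem ha, hT] at e2
      omega
    · have e1 : insert z (((T.erase a).erase c).erase c') ⊆ O c ∩ O c' := by
        apply insert_subset (mem_inter.2 ⟨hz.1, hz'.1⟩)
        apply subset_inter ((erase_subset _ _).trans (hO2 c hc1'))
        rw [erase_right_comm]
        exact (erase_subset _ _).trans (hO2 c' hc2')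
      have e2 := card_le_card e1
      have e3 := hint _ (hO1 c hc1') _ (hO1 c' hc2') heq
      rw [card_insert_of_notMem (fun h => hz.2
        (mem_of_mem_erase (mem_of_mem_erase (mem_of_mem_erase h)))),
        card_erase_of_mem (mem_erase.2 ⟨hne.symm, hc2'⟩), card_erase_of_mem hc1',
        card_erase_of_mem ha, hT] at e2
      omega
  have h3 : (T.erase a).biUnion (fun c => O c \ T) ⊆ Tᶜ := by
    intro z hz
    obtain ⟨c, -, h⟩ := mem_biUnion.1 hz
    exact mem_compl.2 (mem_sdiff.1 h).2
  have h4 := card_le_card h3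
  rw [card_biUnion h2, card_compl, hv, hT] at h4
  have h5 := card_nsmul_le_sum (T.erase a) (fun c => (O c \ T).card) 3 h1
  rw [card_erase_of_mem ha, hT] at h5
  simp only [smul_eq_mul] at h5
  omega

lemma plusOne_card : ∀ H ∈ plusOne 𝓞, H.card = 9 := by
  intro H hH
  obtain ⟨O, hO, y, hy, rfl⟩ := mem_plusOne.1 hH
  rw [card_insert_of_notMem hy, hk O hO]

lemma plusOne_elim : Elim (plusOne 𝓞) := by
  intro H1 h1 H2 h2 hne x hx1 hx2
  obtain ⟨O1, hO1, y1, hy1, rfl⟩ := mem_plusOne.1 h1
  obtain ⟨O2, hO2, y2, hy2, rfl⟩ := mem_plusOne.1 h2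
  by_cases hO : O1 = O2
  · subst hO
    refine ⟨insert x O1, mem_plusOne.2 ⟨O1, hO1, x, fun h => hx1 (mem_insert_of_mem h), rfl⟩, ?_,
      mem_insert_self _ _⟩
    intro z hz
    simp only [mem_inter, mem_insert] at hz ⊢
    obtain ⟨h3 | h3, h4 | h4⟩ := hz
    · exact absurd (by rw [← h3, ← h4]) hne
    · exact Or.inr h4
    · exact Or.inr h3
    · exact Or.inr h3
  · have e1 : insert x (insert y1 O1 ∩ insert y2 O2) ⊆ insert x (insert y1 (insert y2 (O1 ∩ O2))) := by
      intro z hz
      simp only [mem_inter, mem_insert] at hz ⊢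
      tauto
    have e2 := card_le_card e1
    have e3 := card_insert_le x (insert y1 (insert y2 (O1 ∩ O2)))
    have e4 := card_insert_le y1 (insert y2 (O1 ∩ O2))
    have e5 := card_insert_le y2 (O1 ∩ O2)
    have e6 := hint O1 hO1 O2 hO2 hO
    obtain ⟨T, hT1, -, hT2⟩ := exists_subsuperset_card_eq (n := 7)
      (subset_univ (insert x (insert y1 O1 ∩ insert y2 O2))) (by omega)
      (by rw [card_univ, hv]; omega)
    obtain ⟨O, hO', h6⟩ := seven_set hv hk hint hcov T hT2
    have e7 := card_sdiff_add_card_inter T O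
    have : ∃ y, y ∉ O ∧ T ⊆ insert y O := by
      by_cases h0 : T ⊆ O
      · obtain ⟨y, hy⟩ : Oᶜ.Nonempty := card_pos.1 (by rw [card_compl, hv, hk O hO']; omega)
        exact ⟨y, mem_compl.1 hy, h0.trans (subset_insert _ _)⟩
      · obtain ⟨y, hy, hy'⟩ := not_subset.1 h0
        refine ⟨y, hy', ?_⟩
        intro z hz
        rw [mem_insert]
        by_contra hz'
        push Not at hz'
        exact hz'.1 (card_le_one.1 (show (T \ O).card ≤ 1 by omega) z (mem_sdiff.2 ⟨hz, hz'.2⟩) y
          (mem_sdiff.2 ⟨hy, hy'⟩))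
    obtain ⟨y, hy, hT3⟩ := this
    exact ⟨insert y O, mem_plusOne.2 ⟨O, hO', y, hy, rfl⟩,
      (subset_insert _ _).trans (hT1.trans hT3), hT3 (hT1 (mem_insert_self _ _))⟩

lemma plusOne_five (J : Finset α) (hJ : J.card = 5) :
    ((plusOne 𝓞).filter (fun H => J ⊆ H)).card = 36 := by
  have four := fam_step_down 𝓞 24 8 4 1 5 hv hk (by omega) (by norm_num) hcov
  let Pairs : Finset (Finset α × α) := (𝓞 ×ˢ univ).filter (fun p => p.2 ∉ p.1 ∧ J ⊆ insert p.2 p.1)
  have e1 : (plusOne 𝓞).filter (fun H => J ⊆ H) = Pairs.image (fun p => insert p.2 p.1) := by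
    ext H
    simp only [Pairs, mem_filter, mem_plusOne, mem_image, mem_product, mem_univ, and_true,
      Prod.exists]
    constructor
    · rintro ⟨⟨O, hO, y, hy, rfl⟩, h⟩; exact ⟨O, y, ⟨hO, hy, h⟩, rfl⟩
    · rintro ⟨O, y, ⟨hO, hy, h⟩, rfl⟩; exact ⟨⟨O, hO, y, hy, rfl⟩, h⟩
  rw [e1, card_image_of_injOn]
  · obtain ⟨OJ, hOJ⟩ := card_eq_one.1 (hcov J hJ)
    have hOJ' : OJ ∈ 𝓞.filter (fun O => J ⊆ O) := by rw [hOJ]; simp
    rw [mem_filter] at hOJ'
    rw [card_eq_sum_card_fiberwise (f := fun p => p.2) (t := univ) (fun _ _ => mem_univ _)]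
    have e2 : ∀ y, (Pairs.filter (fun p => p.2 = y)).card =
        (𝓞.filter (fun O => y ∉ O ∧ J ⊆ insert y O)).card := by
      intro y
      symm
      apply card_bij (fun O _ => (O, y))
      · intro O hO
        simp only [Pairs, mem_filter, mem_product, mem_univ, and_true] at hO ⊢
        exact hO
      · intro O _ O' _ h; exact congrArg Prod.fst h
      · rintro ⟨O, y'⟩ hp
        simp only [Pairs, mem_filter, mem_product, mem_univ, and_true] at hp
        obtain ⟨h1, rfl⟩ := hp
        exact ⟨O, mem_filter.2 h1, rfl⟩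
    have e3 : ∀ y, (𝓞.filter (fun O => y ∉ O ∧ J ⊆ insert y O)).card =
        (if y ∈ J then 4 else 0) + (if y ∈ OJᶜ then 1 else 0) := by
      intro y
      by_cases hyJ : y ∈ J
      · have h1 := four (J.erase y) (by rw [card_erase_of_mem hyJ, hJ])
        have h2 := card_filter_add_card_filter_not (s := 𝓞.filter (fun O => J.erase y ⊆ O))
          (fun O => y ∈ O)
        rw [h1, filter_filter, filter_filter] at h2
        have h3 : 𝓞.filter (fun O => J.erase y ⊆ O ∧ y ∈ O) = 𝓞.filter (fun O => J ⊆ O) := by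
          apply filter_congr
          intro O _
          constructor
          · rintro ⟨h4, h5⟩
            rw [← insert_erase hyJ]; exact insert_subset h5 h4
          · intro h4; exact ⟨(erase_subset _ _).trans h4, h4 hyJ⟩
        have h4 : 𝓞.filter (fun O => y ∉ O ∧ J ⊆ insert y O) =
            𝓞.filter (fun O => J.erase y ⊆ O ∧ y ∉ O) := by
          apply filter_congr
          intro O _
          rw [subset_insert_iff]; tauto
        rw [h3, hcov J hJ] at h2
        rw [h4, if_pos hyJ, if_neg (by simpa using hOJ'.2 hyJ)]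
        omega
      · have h4 : 𝓞.filter (fun O => y ∉ O ∧ J ⊆ insert y O) =
            (𝓞.filter (fun O => J ⊆ O)).filter (fun O => y ∉ O) := by
          rw [filter_filter]
          apply filter_congr
          intro O _
          rw [subset_insert_iff_of_notMem hyJ]; tauto
        rw [h4, hOJ, if_neg hyJ, filter_singleton]
        by_cases hy : y ∈ OJ <;> simp [hy]
    simp only [e2, e3, sum_add_distrib]
    rw [← sum_filter, ← sum_filter, filter_mem_eq_inter, filter_mem_eq_inter, univ_inter,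
      univ_inter, sum_const, sum_const, hJ, card_compl, hv, hk OJ hOJ'.1]
    rfl
  · rintro ⟨O, y⟩ h1 ⟨O', y'⟩ h2 h
    simp only [Pairs, coe_filter, mem_product, mem_univ, and_true, Set.mem_ofPred_eq] at h1 h2 h
    have hOO : O = O' := by
      by_contra hne
      have e2 := hint O h1.1 O' h2.1 hne
      have e3 : O ⊆ insert y' (O ∩ O') := by
        intro z hz
        have : z ∈ insert y' O' := h ▸ mem_insert_of_mem hz
        simp only [mem_insert, mem_inter] at this ⊢
        tauto
      have e4 := card_le_card e3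
      have e5 := card_insert_le y' (O ∩ O')
      rw [hk O h1.1] at e4
      omega
    subst hOO
    have : y ∈ insert y' O := h ▸ mem_insert_self _ _
    rw [mem_insert] at this
    rw [this.resolve_right h1.2.1]

end Witt

/-- contraction of a set of points -/
theorem matroidal_contract {α : Type} [Fintype α] [DecidableEq α] (𝓗 : Finset (Finset α))
    (J : Finset α) (b v r k lam : ℕ) (hv : Fintype.card α = v + J.card) (hkv : k < v) (h2k : 2 ≤ k)
    (hk : ∀ H ∈ 𝓗, H.card = k + J.card) (hE : Elim 𝓗)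
    (hl : ∀ X : Finset α, X.card = J.card + 2 → (𝓗.filter (fun H => X ⊆ H)).card = lam)
    (hr : r * (k - 1) = lam * (v - 1)) (hb : b * k = r * v) : Matroidal b v r k lam := by
  let f : Finset α → Finset {y // y ∉ J} := fun H => H.subtype (fun y => y ∉ J)
  have hf : ∀ H (y : {y // y ∉ J}), y ∈ f H ↔ (y : α) ∈ H := fun H y => mem_subtype
  have hinj : ∀ H H', J ⊆ H → J ⊆ H' → f H = f H' → H = H' := by
    intro H H' h1 h2 h
    ext z
    by_cases hz : z ∈ J
    · exact ⟨fun _ => h2 hz, fun _ => h1 hz⟩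
    · rw [← hf H ⟨z, hz⟩, ← hf H' ⟨z, hz⟩, h]
  apply matroidal_of_family ((𝓗.filter (fun H => J ⊆ H)).image f) b v r k lam _ hkv h2k _ _ _ hr hb
  · rw [Fintype.card_subtype_compl, Fintype.card_coe, hv]; omega
  · intro H hH
    obtain ⟨H', hH', rfl⟩ := mem_image.1 hH
    rw [mem_filter] at hH'
    rw [card_subtype, ← sdiff_eq_filter, card_sdiff_of_subset hH'.2, hk H' hH'.1]; omega
  · intro H1 h1 H2 h2 hne x hx1 hx2
    obtain ⟨H1, h1', rfl⟩ := mem_image.1 h1
    obtain ⟨H2, h2', rfl⟩ := mem_image.1 h2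
    rw [mem_filter] at h1' h2'
    obtain ⟨H, hH, h3, h4⟩ := hE H1 h1'.1 H2 h2'.1 (fun h => hne (by rw [h])) x
      (by rwa [← hf]) (by rwa [← hf])
    refine ⟨f H, mem_image_of_mem _ (mem_filter.2 ⟨hH, (subset_inter h1'.2 h2'.2).trans h3⟩), ?_,
      (hf _ _).2 h4⟩
    intro z hz
    rw [mem_inter, hf, hf] at hz
    exact (hf _ _).2 (h3 (mem_inter.2 hz))
  · intro X hX
    have e1 : (J ∪ X.map (Function.Embedding.subtype _)).card = J.card + 2 := by
      rw [card_union_of_disjoint, card_map, hX]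
      rw [disjoint_left]
      intro z hz hz'
      obtain ⟨w, -, rfl⟩ := mem_map.1 hz'
      exact w.2 hz
    rw [← hl _ e1, filter_image, card_image_of_injOn, filter_filter]
    · congr 1
      apply filter_congr
      intro H _
      rw [union_subset_iff]
      apply and_congr_right
      intro _
      constructor
      · intro h z hz
        obtain ⟨w, hw, rfl⟩ := mem_map.1 hz
        exact (hf _ _).1 (h hw)
      · intro h w hw
        exact (hf _ _).2 (h (mem_map_of_mem _ hw))
    · intro H h1 H' h2 h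
      simp only [coe_filter, mem_filter, Set.mem_ofPred_eq] at h1 h2
      exact hinj H H' h1.1.2 h2.1.2 h

theorem witt_designs : Matroidal 504 21 144 6 36 ∧ Matroidal 1584 22 504 7 144 ∧
    Matroidal 4554 23 1584 8 504 ∧ Matroidal 12144 24 4554 9 1584 := by
  obtain ⟨hk, hint, hcov⟩ := steiner_of_test 24 4 8 dGolay (by norm_num) golay_test
  have hv := Fintype.card_fin 24
  have c9 := plusOne_card hv hk hint hcov
  have hE := plusOne_elim hv hk hint hcov
  have h5 := plusOne_five hv hk hint hcov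
  have h4 := fam_step_down _ 24 9 4 36 144 hv c9 (by omega) (by norm_num) h5
  have h3 := fam_step_down _ 24 9 3 144 504 hv c9 (by omega) (by norm_num) h4
  have h2 := fam_step_down _ 24 9 2 504 1584 hv c9 (by omega) (by norm_num) h3
  refine ⟨?_, ?_, ?_, ?_⟩
  · exact matroidal_contract _ {0, 1, 2} _ _ _ _ _ hv (by norm_num) (by norm_num) c9 hE h5
      (by norm_num) (by norm_num)
  · exact matroidal_contract _ {0, 1} _ _ _ _ _ hv (by norm_num) (by norm_num) c9 hE h4
      (by norm_num) (by norm_num)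
  · exact matroidal_contract _ {0} _ _ _ _ _ hv (by norm_num) (by norm_num) c9 hE h3
      (by norm_num) (by norm_num)
  · exact matroidal_of_family _ _ _ _ _ _ hv (by norm_num) (by norm_num) c9 hE h2
      (by norm_num) (by norm_num)

section Perfect

variable {α : Type} [Fintype α] [DecidableEq α] {R : RkFn α} {b v r k lam : ℕ}

lemma perfect_deg (h : IsDes R b v r k lam)
    (hp : ∀ F G, R.Flat F → R.Flat G → R.rk F = R.rk G → F.card = G.card) (m : ℕ) :
    ∀ F G, R.Flat F → R.Flat G → R.rk F = R.rk G → R.rk F + m + 1 = R.rk univ →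
      R.deg F = R.deg G := by
  induction m with
  | zero =>
    intro F G hF hG h1 h2
    rw [deg_eq_one (by omega), deg_eq_one (by omega)]
  | succ m ih =>
    intro F G hF hG h1 h2
    obtain ⟨x, -, hx⟩ := exists_notMem_of_rk_lt (R := R) (F := F) (T := univ) (by omega)
    have key : ∀ G, R.Flat G → R.rk F = R.rk G →
        R.deg G * (k - F.card) = (v - F.card) * R.deg (insert x F) := by
      intro G hG h1
      rw [hp F G hF hG h1, ← h.double G, sum_congr rfl (g := fun _ => R.deg (insert x F))]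
      · rw [sum_const, card_sdiff_of_subset (subset_univ _), card_univ, h.hv, smul_eq_mul]
      · intro y hy
        have hy' := (mem_sdiff.1 hy).2
        rw [← deg_cl, ← deg_cl (insert x F)]
        apply ih _ _ (cl_flat _) (cl_flat _)
        · rw [hG.rk_cl_insert hy', hF.rk_cl_insert hx, h1]
        · rw [hG.rk_cl_insert hy']; omega
    have h3 := h.flat_card_lt hF (by omega)
    apply Nat.eq_of_mul_eq_mul_right (show 0 < k - F.card by omega)
    rw [key F hF rfl, key G hG h1]

/-- one step up the chain of flats in a perfect matroid design -/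
lemma perfect_step (h : IsDes R b v r k lam)
    (hp : ∀ F G, R.Flat F → R.Flat G → R.rk F = R.rk G → F.card = G.card)
    (a c : ℕ) (hex : ∃ F, R.Flat F ∧ F.card = a ∧ R.deg F = c) (hc : 2 ≤ c) :
    ∃ a' c', (∃ F, R.Flat F ∧ F.card = a' ∧ R.deg F = c') ∧
      a < a' ∧ a' ≤ k ∧ (a' - a) ∣ (k - a) ∧ (a' - a) ∣ (v - a) ∧ c' * (v - a) = c * (k - a) ∧
      (a' = k → c' ≤ 1) := by
  obtain ⟨F, hF, rfl, rfl⟩ := hex
  have h1 : R.rk F + 2 ≤ R.rk univ := by
    by_contra hcon
    by_cases h2 : R.rk F + 1 = R.rk univ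
    · rw [deg_eq_one h2] at hc; omega
    · rw [deg_eq_zero (by omega)] at hc; omega
  obtain ⟨x, -, hx⟩ := exists_notMem_of_rk_lt (R := R) (F := F) (T := univ) (by omega)
  have hG := cl_flat (R := R) (insert x F)
  have hGr := hF.rk_cl_insert hx
  have cov : ∀ T, R.Flat T → F ⊆ T → ((R.cl (insert x F)).card - F.card) ∣ (T.card - F.card) := by
    intro T hT hFT
    have h2 := sum_cov_card hF hT hFT
    rw [card_sdiff_of_subset hFT] at h2
    rw [← h2]
    apply dvd_sum
    intro G hG'
    rw [mem_cov] at hG'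
    rw [card_sdiff_of_subset hG'.2.1, hp G _ hG'.1 hG (by omega)]
  obtain ⟨H, hH1, hH2, -, hH3⟩ := hG.exists_rk flat_univ (subset_univ _) (R.rk univ - 1)
    (by omega) (by omega)
  have hH : H ∈ R.hyp := mem_hyp.2 ⟨hH1, by omega⟩
  refine ⟨_, _, ⟨_, hG, rfl, rfl⟩, ?_, ?_, ?_, ?_, ?_, ?_⟩
  · exact card_lt_card ⟨subset_cl_insert _ _, fun h' => hx (h' (mem_cl_insert _ _))⟩
  · rw [← h.hk H hH]; exact card_le_card hH2
  · rw [← h.hk H hH]; exact cov H hH1 ((subset_cl_insert _ _).trans hH2)
  · rw [← h.hv, ← card_univ]; exact cov univ flat_univ (subset_univ _)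
  · rw [← h.double F, sum_congr rfl (g := fun _ => R.deg (R.cl (insert x F)))]
    · rw [sum_const, card_sdiff_of_subset (subset_univ _), card_univ, h.hv, smul_eq_mul, mul_comm]
    · intro y hy
      have hy' := (mem_sdiff.1 hy).2
      rw [← deg_cl]
      apply perfect_deg h hp (R.rk univ - R.rk F - 2) _ _ (cl_flat _) (cl_flat _)
      · rw [hF.rk_cl_insert hy', hGr]
      · rw [hF.rk_cl_insert hy']; omega
  · intro hk'
    have : R.cl (insert x F) = H := eq_of_subset_of_card_le hH2 (by rw [hk', h.hk H hH])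
    rw [this, deg_eq_one (mem_hyp.1 hH).2]

/-- `true` if no chain of flat sizes starting from `(a, c)` can be completed -/
def deadEnd (v k : ℕ) : ℕ → ℕ → ℕ → Bool
  | 0, _, _ => false
  | n + 1, a, c => decide (2 ≤ c) && (decide (¬ (v - a) ∣ c * (k - a)) ||
      (List.range (k + 1)).all (fun a' => decide (a' ≤ a) || decide (¬ (a' - a) ∣ (k - a)) ||
        decide (¬ (a' - a) ∣ (v - a)) || (decide (a' = k) && decide (1 < c * (k - a) / (v - a))) ||
        deadEnd v k n a' (c * (k - a) / (v - a))))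

lemma not_deadEnd (h : IsDes R b v r k lam) (hkv : k < v)
    (hp : ∀ F G, R.Flat F → R.Flat G → R.rk F = R.rk G → F.card = G.card) (n : ℕ) :
    ∀ a c, (∃ F, R.Flat F ∧ F.card = a ∧ R.deg F = c) → deadEnd v k n a c = true → False := by
  induction n with
  | zero => intro a c _ hd; simp [deadEnd] at hd
  | succ n ih =>
    intro a c hex hd
    simp only [deadEnd, Bool.and_eq_true, Bool.or_eq_true, decide_eq_true_eq, List.all_eq_true,
      List.mem_range] at hd
    obtain ⟨a', c', hex', h1, h2, h3, h4, h5, h6⟩ := perfect_step h hp a c hex hd.1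
    have e : c * (k - a) / (v - a) = c' := by rw [← h5, Nat.mul_div_cancel _ (by omega)]
    rcases hd.2 with h7 | h7
    · exact h7 ⟨c', by rw [← h5, mul_comm]⟩
    · rw [e] at h7
      rcases h7 a' (by omega) with (((h8 | h8) | h8) | h8) | h8
      · omega
      · exact h8 h3
      · exact h8 h4
      · have := h6 h8.1; omega
      · exact ih a' c' hex' h8

end Perfect

theorem not_perfect {α : Type} [Fintype α] (M : Matroid α) {b v r k lam : ℕ}
    (h : IsMatroidDesign M b v r k lam) (hb : v < b) (hl : 1 ≤ lam) (n : ℕ)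
    (hd : deadEnd v k n 1 r = true) : ¬ IsPerfect M := by
  classical
  intro hp
  have hE := h.1
  rw [isMatroidDesign_iff M hE] at h
  obtain ⟨x, -, -⟩ := h.exists_pair hb
  have := h.k_lt hb
  refine not_deadEnd h (by omega) ?_ n 1 r ⟨{x}, h.flat_single hb hl x, rfl, h.hr x⟩ hd
  intro F G hF hG hr
  have := hp F G ((rkOf_flat M hE F).1 hF) ((rkOf_flat M hE G).1 hG)
    (by rw [← rkOf_rk, ← rkOf_rk, hr])
  simpa using this

end Pool.Agent.MP_337c4e_co
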