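import Pool.Agent.MP_337c4e_co.CoC
import Pool.Agent.MP_337c4e_co.NonPerfect

section

/-! Six-point subsets of octads. -/

set_option linter.unusedSectionVars false
set_option linter.unusedVariables false

namespace Pool.Agent.MP_337c4e_co

open Finset RkFn

/-- weak elimination implies strong elimination -/
lemma strong_of_weak {α : Type} [DecidableEq α] {cir : Finset α → Prop} {c : ℕ}
    (hc : ∀ C, cir C → C.card = c)
    (hw : ∀ C C' e, cir C → cir C' → C ≠ C' → e ∈ C → e ∈ C' → ∃ Z, cir Z ∧ Z ⊆ (C ∪ C').erase e)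
    (N : ℕ) : ∀ C C' e f, (C ∪ C').card ≤ N → cir C → cir C' → e ∈ C → e ∈ C' → f ∈ C → f ∉ C' →
      ∃ Z, cir Z ∧ Z ⊆ C ∪ C' ∧ e ∉ Z ∧ f ∈ Z := by
  induction N with
  | zero =>
    intro C C' e f h _ _ he
    have := card_pos.2 ⟨e, mem_union_left C' he⟩
    omega
  | succ N ih =>
    intro C1 C2 e f hN h1 h2 e1 e2 f1 f2
    obtain ⟨C3, h3, s3⟩ := hw C1 C2 e h1 h2 (fun h => f2 (h ▸ f1)) e1 e2
    obtain ⟨s3, e3⟩ := subset_erase.1 s3
    by_cases f3 : f ∈ C3
    · exact ⟨C3, h3, s3, e3, f3⟩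
    obtain ⟨g, g3, g1⟩ : ∃ g ∈ C3, g ∉ C1 := by
      by_contra hcon
      push Not at hcon
      have := eq_of_subset_of_card_le (show C3 ⊆ C1 from hcon) (by rw [hc _ h1, hc _ h3])
      exact e3 (this ▸ e1)
    have g2 : g ∈ C2 := (mem_union.1 (s3 g3)).resolve_left g1
    have lt : ∀ U x, U ⊆ C1 ∪ C2 → x ∈ C1 ∪ C2 → x ∉ U → U.card ≤ N := by
      intro U x hU hx hx'
      have := card_lt_card (show U ⊂ C1 ∪ C2 from ⟨hU, fun h => hx' (h hx)⟩)
      omega
    have u23 : C2 ∪ C3 ⊆ C1 ∪ C2 := union_subset subset_union_right s3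
    obtain ⟨C4, h4, s4, g4, e4⟩ := ih C2 C3 g e (lt _ f u23 (mem_union_left _ f1)
      (by simp [f2, f3])) h2 h3 g2 g3 e2 e3
    have u14 : C1 ∪ C4 ⊆ C1 ∪ C2 := union_subset subset_union_left (s4.trans u23)
    obtain ⟨C5, h5, s5, e5, f5⟩ := ih C1 C4 e f (lt _ g u14 (mem_union_right _ g2)
      (by simp [g1, g4])) h1 h4 e1 e4 f1 (fun h => by simpa [f2, f3] using s4 h)
    exact ⟨C5, h5, s5.trans u14, e5, f5⟩

/-- a relabelling of the points; the first eight form an octad -/
def sigL : List (Fin 24) :=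
  [0, 1, 2, 3, 4, 7, 10, 12, 5, 6, 8, 18, 9, 14, 20, 19, 11, 23, 13, 15, 17, 22, 16, 21]

/-- the relabelling as an embedding -/
def sig : Fin 24 ↪ Fin 24 := ⟨fun i => sigL.getD i.val 0, by decide⟩

/-- six points of an octad -/
def gcir (S : Finset (Fin 24)) : Prop := S.card = 6 ∧ ∃ O ∈ famOf 24 dGolay, S.map sig ⊆ O

open Classical in
/-- the number of circuits inside `X` -/
noncomputable def gcnt (X : Finset (Fin 24)) : ℕ := (X.powerset.filter gcir).card

lemma gol_big (U : Finset (Fin 24)) (hU : 7 ≤ U.card) : ∃ C, C ⊆ U ∧ gcir C := by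
  obtain ⟨hk, hint, hcov⟩ := steiner_of_test 24 4 8 dGolay (by norm_num) golay_test
  obtain ⟨T, hT, hT'⟩ := exists_subset_card_eq hU
  obtain ⟨O, hO, h6⟩ := seven_set (Fintype.card_fin 24) hk hint hcov (T.map sig)
    (by rw [card_map, hT'])
  have e : T.map sig ∩ O = (T.filter (fun i => sig i ∈ O)).map sig := by
    ext z
    simp only [mem_inter, mem_map, mem_filter]
    constructor
    · rintro ⟨⟨a, ha, rfl⟩, h⟩; exact ⟨a, ⟨ha, h⟩, rfl⟩
    · rintro ⟨a, ⟨ha, h⟩, rfl⟩; exact ⟨⟨a, ha, rfl⟩, h⟩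
  rw [e, card_map] at h6
  obtain ⟨C, hC, hC'⟩ := exists_subset_card_eq h6
  refine ⟨C, hC.trans ((filter_subset _ _).trans hT), hC', O, hO, ?_⟩
  intro z hz
  obtain ⟨a, ha, rfl⟩ := mem_map.1 hz
  exact (mem_filter.1 (hC ha)).2

lemma gol_same {S : Finset (Fin 24)} (h5 : 5 ≤ S.card) {O O' : Finset (Fin 24)}
    (hO : O ∈ famOf 24 dGolay) (hO' : O' ∈ famOf 24 dGolay) (h : S.map sig ⊆ O)
    (h' : S.map sig ⊆ O') : O = O' := by
  obtain ⟨hk, hint, hcov⟩ := steiner_of_test 24 4 8 dGolay (by norm_num) golay_test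
  by_contra hne
  have h1 := hint O hO O' hO' hne
  have h2 := card_le_card (subset_inter h h')
  rw [card_map] at h2
  omega

theorem gcir_cf : Cf gcir 6 6 := by
  refine ⟨fun C h => h.1, fun C C' e f => strong_of_weak (fun C h => h.1) ?_ _ C C' e f le_rfl,
    fun U hU => gol_big U hU.ge⟩
  rintro C C' e ⟨c1, O, hO, s1⟩ ⟨c2, O', hO', s2⟩ hne e1 e2
  have h1 := card_union_add_card_inter C C'
  have h2 : ((C ∪ C').erase e).card + 1 = (C ∪ C').card := card_erase_add_one (mem_union_left _ e1)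
  have h3 : (C ∩ C').card < 6 := by
    by_contra h
    exact hne ((eq_of_subset_of_card_le (inter_subset_left (s₁ := C) (s₂ := C')) (by omega)).symm.trans
      (eq_of_subset_of_card_le inter_subset_right (by omega)))
  by_cases h4 : (C ∩ C').card = 5
  · obtain rfl := gol_same h4.ge hO hO' ((map_subset_map.2 inter_subset_left).trans s1)
      ((map_subset_map.2 inter_subset_right).trans s2)
    refine ⟨_, ⟨by omega, O, hO, ?_⟩, subset_rfl⟩
    refine (map_subset_map.2 (erase_subset _ _)).trans ?_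
    rw [map_union]
    exact union_subset s1 s2
  · obtain ⟨Z, hZ, hZ'⟩ := gol_big ((C ∪ C').erase e) (by omega)
    exact ⟨Z, hZ', hZ⟩

lemma gol_first : ofMask 24 5279 ∈ famOf 24 dGolay := mem_famOf.2 ⟨5279, List.mem_cons_self, rfl⟩

lemma gol_first_map : (ofMask 24 255).map sig = ofMask 24 5279 := by decide +kernel

theorem gcir_full : Full gcir 6 (ofMask 24 255) := fun C hC h6 =>
  ⟨h6, _, gol_first, gol_first_map ▸ map_subset_map.2 hC⟩

theorem gcir_closed : Closed gcir (ofMask 24 255) := by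
  rintro C ⟨h6, O, hO, hs⟩ h1
  have h2 := card_sdiff_add_card_inter C (ofMask 24 255)
  obtain rfl := gol_same (S := C ∩ ofMask 24 255) (by omega) hO gol_first
    ((map_subset_map.2 inter_subset_left).trans hs)
    (gol_first_map ▸ map_subset_map.2 inter_subset_right)
  rw [← gol_first_map, map_subset_map, ← sdiff_eq_empty_iff_subset] at hs
  rw [hs] at h1
  simp at h1

lemma gol_nodup : (dGolay.map (ofMask 24)).Nodup := by
  have l1 : ∀ s ∈ dGolay, s < 2 ^ 24 := by decide +kernel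
  have l2 : dGolay.IsChain (· < ·) := by decide +kernel
  exact List.Nodup.map_on (fun x hx y hy => ofMask_inj (l1 x hx) (l1 y hy))
    ((List.isChain_iff_pairwise.1 l2).imp Nat.ne_of_lt)

/-- the number of points of `X` on the octad `O` -/
def onOct (X : Finset (Fin 24)) (O : ℕ) : ℕ := ∑ i ∈ X, (O.testBit (sig i).val).toNat

lemma onOct_eq (X : Finset (Fin 24)) (O : ℕ) :
    onOct X O = (X.filter (fun i => sig i ∈ ofMask 24 O)).card := by
  rw [card_filter, onOct]
  refine sum_congr rfl fun i _ => ?_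
  simp only [mem_ofMask]
  cases O.testBit (sig i).val <;> rfl

lemma onOct_le (X : Finset (Fin 24)) {O : ℕ} (hO : O ∈ dGolay) : onOct X O ≤ 8 := by
  obtain ⟨hk, -, -⟩ := steiner_of_test 24 4 8 dGolay (by norm_num) golay_test
  rw [onOct_eq, ← hk _ (mem_famOf.2 ⟨O, hO, rfl⟩), ← card_map sig]
  apply card_le_card
  intro z hz
  obtain ⟨a, ha, rfl⟩ := mem_map.1 hz
  exact (mem_filter.1 ha).2

lemma gcnt_eq (X : Finset (Fin 24)) :
    gcnt X = (dGolay.map (fun O => (onOct X O).choose 6)).sum := by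
  classical
  have e : X.powerset.filter gcir = (famOf 24 dGolay).biUnion
      (fun O => powersetCard 6 (X.filter (fun i => sig i ∈ O))) := by
    ext S
    simp only [mem_filter, mem_powerset, mem_biUnion, mem_powersetCard, gcir]
    constructor
    · rintro ⟨h1, h2, O, hO, h3⟩
      exact ⟨O, hO, fun i hi => mem_filter.2 ⟨h1 hi, h3 (mem_map_of_mem _ hi)⟩, h2⟩
    · rintro ⟨O, hO, h1, h2⟩
      refine ⟨h1.trans (filter_subset _ _), h2, O, hO, fun z hz => ?_⟩
      obtain ⟨a, ha, rfl⟩ := mem_map.1 hz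
      exact (mem_filter.1 (h1 ha)).2
  have e' : gcnt X = (X.powerset.filter gcir).card := by unfold gcnt; congr
  rw [e', e, card_biUnion, famOf, List.sum_toFinset _ gol_nodup, List.map_map]
  · congr 1
    apply List.map_congr_left
    intro O _
    simp only [Function.comp, card_powersetCard, onOct_eq]
  · intro O hO O' hO' hne
    rw [Function.onFun, disjoint_left]
    intro S h1 h2
    rw [mem_powersetCard] at h1 h2
    refine hne (gol_same (S := S) (by omega) hO hO' ?_ ?_) <;> intro z hz <;>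
      obtain ⟨a, ha, rfl⟩ := mem_map.1 hz
    exacts [(mem_filter.1 (h1.1 ha)).2, (mem_filter.1 (h2.1 ha)).2]

/-- the values of `f` on a list as digits in base `2 ^ 10` -/
noncomputable def pk (f : ℕ → ℕ) (l : List ℕ) : ℕ :=
  List.rec 0 (fun a _ ih => Nat.add (f a) (Nat.mul 1024 ih)) l

lemma pk_cons (f : ℕ → ℕ) (a : ℕ) (l : List ℕ) : pk f (a :: l) = f a + 1024 * pk f l := rfl

lemma pk_add (f g : ℕ → ℕ) (l : List ℕ) : pk f l + pk g l = pk (fun a => f a + g a) l := by
  induction l with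
  | nil => rfl
  | cons a l ih => simp only [pk_cons, ← ih]; ring

lemma pk_mul (c : ℕ) (f : ℕ → ℕ) (l : List ℕ) : c * pk f l = pk (fun a => c * f a) l := by
  induction l with
  | nil => rfl
  | cons a l ih => simp only [pk_cons, ← ih]; ring

lemma pk_congr {f g : ℕ → ℕ} {l : List ℕ} (h : ∀ a ∈ l, f a = g a) : pk f l = pk g l := by
  induction l with
  | nil => rfl
  | cons a l ih =>
    rw [pk_cons, pk_cons, h a List.mem_cons_self, ih fun b hb => h b (List.mem_cons_of_mem _ hb)]

lemma land_digit (w a b x y : ℕ) (ha : a < 2 ^ w) (hb : b < 2 ^ w) :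
    (a + 2 ^ w * x) &&& (b + 2 ^ w * y) = (a &&& b) + 2 ^ w * (x &&& y) := by
  have hab : a &&& b < 2 ^ w := lt_of_le_of_lt Nat.and_le_left ha
  apply Nat.eq_of_testBit_eq
  intro i
  rw [Nat.testBit_and, add_comm a, add_comm b, add_comm (a &&& b), Nat.testBit_two_pow_mul_add _ ha,
    Nat.testBit_two_pow_mul_add _ hb, Nat.testBit_two_pow_mul_add _ hab]
  split_ifs <;> simp

lemma pk_land {f g : ℕ → ℕ} {l : List ℕ} (hf : ∀ a ∈ l, f a < 2 ^ 10) (hg : ∀ a ∈ l, g a < 2 ^ 10) :
    pk f l &&& pk g l = pk (fun a => f a &&& g a) l := by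
  induction l with
  | nil => exact Nat.zero_and _
  | cons a l ih =>
    rw [pk_cons, pk_cons, pk_cons, ← ih (fun b hb => hf b (List.mem_cons_of_mem _ hb))
      (fun b hb => hg b (List.mem_cons_of_mem _ hb))]
    exact land_digit 10 _ _ _ _ (hf a List.mem_cons_self) (hg a List.mem_cons_self)

lemma pk_mod (f : ℕ → ℕ) (l : List ℕ) : pk f l % 1023 = (l.map f).sum % 1023 := by
  induction l with
  | nil => rfl
  | cons a l ih => rw [pk_cons, List.map_cons, List.sum_cons]; omega

lemma pk_sum {ι : Type} [DecidableEq ι] (X : Finset ι) (f : ι → ℕ → ℕ) (l : List ℕ) :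
    ∑ i ∈ X, pk (f i) l = pk (fun a => ∑ i ∈ X, f i a) l := by
  induction l with
  | nil => simp [pk]
  | cons a l ih => simp only [pk_cons, ← ih, sum_add_distrib, mul_sum]

/-- constant digits, shifted -/
noncomputable def gConst (c : ℕ) (l : List ℕ) : ℕ := Nat.mul 1099511627776 (pk (fun _ => c) l)

/-- the number of digits with the bit of value eight -/
noncomputable def gbit (l : List ℕ) (P : ℕ) : ℕ :=
  Nat.mod (Nat.mul (Nat.mod (Nat.land P (Nat.add 1099511627775 (gConst 8 l))) 1023) 128) 1023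

lemma gbit_spec (l : List ℕ) (hl : l.length = 759) (m : ℕ → ℕ) (hm : ∀ O ∈ l, m O ≤ 15) (t : ℕ)
    (ht : t < 2 ^ 24) :
    gbit l (1023 * t + 2 ^ 40 * pk m l) = (l.map (fun O => m O / 8)).sum := by
  have e : ∀ P, gbit l P = (P &&& ((2 ^ 40 - 1) + 2 ^ 40 * pk (fun _ => 8) l)) % 1023 * 128 % 1023 :=
    fun _ => rfl
  have e2 : pk (fun O => m O &&& 8) l = pk (fun O => 8 * (m O / 8)) l := by
    apply pk_congr
    intro a ha
    have : ∀ x ≤ 15, x &&& 8 = 8 * (x / 8) := by decide
    exact this _ (hm a ha)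
  have e3 := pk_mod (fun O => 8 * (m O / 8)) l
  have e4 : (l.map (fun O => m O / 8)).sum ≤ 759 * 1 := by
    have h1 := List.sum_le_card_nsmul (l.map (fun O => m O / 8)) 1 (by
      intro x hx
      obtain ⟨a, ha, rfl⟩ := List.mem_map.1 hx
      have := hm a ha
      omega)
    rwa [List.length_map, hl] at h1
  rw [List.sum_map_mul_left] at e3
  rw [e, land_digit 40 _ _ _ _ (by omega) (by omega), Nat.and_two_pow_sub_one_eq_mod,
    Nat.mod_eq_of_lt (show 1023 * t < 2 ^ 40 by omega), pk_land, e2]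
  · generalize pk (fun O => 8 * (m O / 8)) l = a at *
    omega
  · intro a ha; have := hm a ha; omega
  · intro a _; norm_num

/-- evaluation of a sum of columns -/
noncomputable def gevL (l : List ℕ) (P : ℕ) : ℕ :=
  Nat.add (gbit l (Nat.add P (gConst 2 l)))
    (Nat.add (Nat.mul 6 (gbit l (Nat.add P (gConst 1 l)))) (Nat.mul 21 (gbit l P)))

lemma gevL_spec (l : List ℕ) (hl : l.length = 759) (m : ℕ → ℕ) (hm : ∀ O ∈ l, m O ≤ 8) (t : ℕ)
    (ht : t < 2 ^ 24) :
    gevL l (1023 * t + 2 ^ 40 * pk m l) = (l.map (fun O => (m O).choose 6)).sum := by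
  have e : ∀ P, gevL l P = gbit l (P + 2 ^ 40 * pk (fun _ => 2) l) +
      (6 * gbit l (P + 2 ^ 40 * pk (fun _ => 1) l) + 21 * gbit l P) := fun _ => rfl
  rw [e, add_assoc, add_assoc, ← mul_add, ← mul_add, pk_add, pk_add,
    gbit_spec l hl _ (fun O hO => by have := hm O hO; omega) t ht,
    gbit_spec l hl _ (fun O hO => by have := hm O hO; omega) t ht,
    gbit_spec l hl _ (fun O hO => by have := hm O hO; omega) t ht,
    ← List.sum_map_mul_left, ← List.sum_map_mul_left, ← List.sum_map_add, ← List.sum_map_add]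
  congr 1
  apply List.map_congr_left
  intro a ha
  have : ∀ x ≤ 8, (x + 2) / 8 + (6 * ((x + 1) / 8) + 21 * (x / 8)) = x.choose 6 := by decide
  exact this _ (hm a ha)

/-- the column of a point, above a tag -/
noncomputable def gcolL (l : List ℕ) (i : ℕ) : ℕ :=
  Nat.add (Nat.mul 1023 (Nat.pow 2 i))
    (Nat.mul 1099511627776 (pk (fun O => Bool.rec 0 1 (tb O (sigL.getD i 0).val)) l))

lemma gcolL_eq (l : List ℕ) (i : Fin 24) : gcolL l i.val = 1023 * 2 ^ i.val +
    2 ^ 40 * pk (fun O => (O.testBit (sig i).val).toNat) l := by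
  have : (fun O => (Bool.rec 0 1 (tb O (sigL.getD i 0).val) : ℕ)) =
      fun O : ℕ => (O.testBit (sig i).val).toNat := by
    funext O
    rw [tb_eq]
    change (Bool.rec 0 1 (O.testBit (sig i).val) : ℕ) = _
    cases O.testBit (sig i).val <;> rfl
  rw [← this]; rfl

/-- evaluation for the octads -/
noncomputable def gev (P : ℕ) : ℕ := gevL dGolay P

/-- columns for the octads -/
noncomputable def gcol (i : ℕ) : ℕ := gcolL dGolay i

/-- the sum of the columns of `X` -/
noncomputable def gsum (X : Finset (Fin 24)) : ℕ := ∑ i ∈ X, gcol i.val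

theorem gev_gsum (X : Finset (Fin 24)) : gev (gsum X) = gcnt X := by
  have ht : ∑ i ∈ X, 2 ^ i.val < 2 ^ 24 := by
    refine lt_of_le_of_lt (sum_le_sum_of_subset (subset_univ X)) ?_
    decide +kernel
  rw [gcnt_eq, ← gevL_spec dGolay (by decide +kernel) (onOct X) (fun O hO => onOct_le X hO) _ ht,
    gsum, gev]
  simp only [gcol, gcolL_eq, sum_add_distrib, ← mul_sum, pk_sum]
  congr 3

end Pool.Agent.MP_337c4e_co

end

section

/-! Counting six-point subsets of octads. -/

set_option linter.unusedSectionVars false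
set_option linter.unusedVariables false

namespace Pool.Agent.MP_337c4e_co

open Finset RkFn

/-- the sum of the columns of a mask -/
noncomputable def gmask (n m : ℕ) : ℕ :=
  Nat.rec 0 (fun i ih => Bool.rec ih (Nat.add ih (gcol i)) (tb m i)) n

lemma gsum_ofMask (m : ℕ) : gsum (ofMask 24 m) = gmask 24 m := by
  unfold gsum ofMask
  rw [sum_filter, Fin.sum_univ_eq_sum_range (fun i => if m.testBit i = true then gcol i else 0)]
  generalize 24 = n
  induction n with
  | zero => rfl
  | succ n ih =>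
    have h : gmask (n + 1) m = (Bool.rec (gmask n m) (gmask n m + gcol n) (tb m n) : ℕ) := rfl
    rw [sum_range_succ, ih, h, tb_eq]
    cases m.testBit n <;> rfl

lemma gsum_erase {X : Finset (Fin 24)} {i : Fin 24} (h : i ∈ X) :
    gsum (X.erase i) = gsum X - gcol i.val := by
  unfold gsum
  rw [← add_sum_erase X _ h]
  omega

lemma gcnt_six {S : Finset (Fin 24)} (h : S.card = 6) : gcir S ↔ gcnt S ≠ 0 := by
  classical
  have e' : gcnt S = (S.powerset.filter gcir).card := by unfold gcnt; congr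
  rw [e', card_ne_zero]
  constructor
  · intro h1; exact ⟨S, mem_filter.2 ⟨mem_powerset_self _, h1⟩⟩
  · rintro ⟨T, hT⟩
    rw [mem_filter, mem_powerset] at hT
    exact eq_of_subset_of_card_le hT.1 (by rw [h, hT.2.1]) ▸ hT.2

/-- the masks with four of seven bits -/
def fourL : List ℕ :=
  [15, 23, 27, 29, 30, 39, 43, 45, 46, 51, 53, 54, 57, 58, 60, 71, 75, 77, 78, 83, 85, 86, 89, 90,
   92, 99, 101, 102, 105, 106, 108, 113, 114, 116, 120]

/-- the test for `gcir_pair` -/
noncomputable def pairTest (u w : ℕ) : Bool :=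
  Bool.rec (strict (fun P => allL (fun m => Bool.rec (Nat.beq (gev (Nat.add P (gmask 24 m))) 0)
      (Nat.beq (gev (Nat.add P (gmask 24 m))) 1) ((tab (Nat.sub (Nat.xor u w) 1)).contains m)) fourL)
    (Nat.add (gcol (Nat.add 8 u)) (gcol (Nat.add 8 w)))) true (Nat.ble u w)

lemma pair_run : allUp 16 (fun u => allUp 16 (pairTest u)) = true := by decide +kernel

theorem gcir_pair (u w : ℕ) (hu : u < 16) (hw : w < 16) (hne : u ≠ w) (m : ℕ) (hm : m < 128)
    (h4 : pc 7 m = 4) :
    gcir (insert ⟨8 + u, by omega⟩ (insert ⟨8 + w, by omega⟩ (ofMask 24 m))) ↔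
      m ∈ tab ((u ^^^ w) - 1) := by
  wlog hlt : w < u generalizing u w
  · rw [insert_comm, Nat.xor_comm]
    exact this w u hw hu hne.symm (by omega)
  have h1 := allUp_sound _ _ (allUp_sound _ _ pair_run u hu) w hw
  have h2 : Nat.ble u w = false := by
    cases h : Nat.ble u w
    · rfl
    · have := Nat.le_of_ble_eq_true h; omega
  unfold pairTest at h1
  rw [h2] at h1
  have h3 : strict (fun P => allL (fun m => Bool.rec (Nat.beq (gev (P + gmask 24 m)) 0)
      (Nat.beq (gev (P + gmask 24 m)) 1) ((tab ((u ^^^ w) - 1)).contains m)) fourL)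
    (gcol (8 + u) + gcol (8 + w)) = true := h1
  rw [strict_eq] at h3
  have h5 : ∀ m < 128, pc 7 m = 4 → m ∈ fourL ∧ pc 24 m = 4 := by decide +kernel
  have h6 := forall_of_allL _ _ h3 m (h5 m hm h4).1
  have n1 : ∀ x (hx : x < 16), (⟨8 + x, by omega⟩ : Fin 24) ∉ ofMask 24 m := by
    intro x hx h
    rw [mem_ofMask, Nat.testBit_lt_two_pow (lt_of_lt_of_le (show m < 2 ^ 7 from hm)
      (Nat.pow_le_pow_right (by norm_num) (by simp only; omega)))] at h
    exact absurd h (by simp)
  have n2 : (⟨8 + u, by omega⟩ : Fin 24) ∉ insert (⟨8 + w, by omega⟩ : Fin 24) (ofMask 24 m) := by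
    rw [mem_insert, not_or]
    exact ⟨fun h => hne (by simpa using h), n1 u hu⟩
  rw [gcnt_six (by rw [card_insert_of_notMem n2, card_insert_of_notMem (n1 w hw), card_ofMask,
    (h5 m hm h4).2]), ← gev_gsum, gsum, sum_insert n2, sum_insert (n1 w hw), ← add_assoc]
  change gev (gcol (8 + u) + gcol (8 + w) + gsum (ofMask 24 m)) ≠ 0 ↔ _
  rw [gsum_ofMask, ← List.contains_iff_mem]
  cases h7 : (tab ((u ^^^ w) - 1)).contains m with
  | false =>
    simp only [h7] at h6
    simp [Nat.eq_of_beq_eq_true h6]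
  | true =>
    simp only [h7] at h6
    simp [Nat.eq_of_beq_eq_true h6]

/-- the test for `gcnt_pairs` -/
noncomputable def lamTest (X lam : ℕ) : Bool :=
  strict (fun P => allBits 24 X (fun i => allBits i X (fun j =>
    Nat.beq (gev (Nat.sub (Nat.sub P (gcol i)) (gcol j))) lam))) (gmask 24 X)

lemma lamTest_sound {X lam : ℕ} (h : lamTest X lam = true) :
    ∀ i ∈ ofMask 24 X, ∀ j ∈ ofMask 24 X, i ≠ j → gcnt (((ofMask 24 X).erase i).erase j) = lam := by
  intro i hi j hj hne
  wlog hlt : j < i generalizing i j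
  · rw [erase_right_comm]
    exact this j hj i hi hne.symm (lt_of_le_of_ne (not_lt.1 hlt) hne)
  rw [lamTest, strict_eq] at h
  have h1 := allBits_sound _ _ _ (allBits_sound _ _ _ h i.val i.2 (mem_ofMask.1 hi)) j.val hlt
    (mem_ofMask.1 hj)
  rw [← gev_gsum, gsum_erase (mem_erase.2 ⟨hne.symm, hj⟩), gsum_erase hi, gsum_ofMask]
  exact Nat.eq_of_beq_eq_true h1

theorem gcnt_pairs : ∀ p ∈ [(22238, 4), (87774, 12), (218846, 30), (16776704, 276),
    (16776960, 483), (2097151, 4284), (4194303, 6120), (8388607, 8568), (16777215, 11781)],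
    ∀ i ∈ ofMask 24 p.1, ∀ j ∈ ofMask 24 p.1, i ≠ j →
      gcnt (((ofMask 24 p.1).erase i).erase j) = p.2 := by
  intro p hp
  apply lamTest_sound
  revert p
  decide +kernel

/-- the test at one subset -/
noncomputable def leafTest (ev col : ℕ → ℕ) (P v : ℕ) : Bool :=
  strict (fun b => Bool.rec true
    (Bool.rec true ([(15, 805), (16, 1288), (21, 8568), (22, 11781), (23, 15939),
        (24, 21252)].contains (v, b))
      (Nat.beq (Nat.mul b (Nat.sub v 6)) (Nat.mul (ev (Nat.sub P (col 0))) v)))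
    (Nat.beq (Nat.mod (Nat.mul (Nat.mul b (Nat.sub v 6)) (Nat.sub v 7)) (Nat.mul v (Nat.sub v 1))) 0))
    (ev P)

/-- the test at all subsets -/
noncomputable def goTest (ev col : ℕ → ℕ) (l : List ℕ) : ℕ → ℕ → Bool :=
  List.rec (leafTest ev col) (fun c _ ih P v => Bool.rec false
    (ih (Nat.add P (col c)) (Nat.succ v)) (ih P v)) l

lemma goTest_cons (ev col : ℕ → ℕ) (c : ℕ) (l : List ℕ) (P v : ℕ) : goTest ev col (c :: l) P v = true ↔
    goTest ev col l P v = true ∧ goTest ev col l (P + col c) (v + 1) = true := by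
  have h : goTest ev col (c :: l) P v = (Bool.rec false
    (goTest ev col l (P + col c) (v + 1)) (goTest ev col l P v) : Bool) := rfl
  rw [h]
  cases goTest ev col l P v <;> simp

lemma goTest_sound (ev col : ℕ → ℕ) (l : List (Fin 24)) : ∀ B : Finset (Fin 24), l.Nodup → (∀ i ∈ l, i ∉ B) →
    goTest ev col (l.map Fin.val) (∑ i ∈ B, col i.val) B.card = true → ∀ X, B ⊆ X → (∀ i ∈ X, i ∈ B ∨ i ∈ l) →
      leafTest ev col (∑ i ∈ X, col i.val) X.card = true := by
  induction l with
  | nil =>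
    intro B _ _ h X h1 h2
    obtain rfl : B = X := subset_antisymm h1 fun i hi => by simpa using h2 i hi
    exact h
  | cons c l ih =>
    intro B hn hd h X h1 h2
    rw [List.map_cons, goTest_cons] at h
    rw [List.nodup_cons] at hn
    have hc := hd c List.mem_cons_self
    by_cases hX : c ∈ X
    · refine ih (insert c B) hn.2 ?_ ?_ X (insert_subset hX h1) ?_
      · intro i hi h3
        rcases mem_insert.1 h3 with rfl | h3
        · exact hn.1 hi
        · exact hd i (List.mem_cons_of_mem _ hi) h3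
      · rw [card_insert_of_notMem hc, sum_insert hc, add_comm]
        exact h.2
      · intro i hi
        have := h2 i hi
        simp only [List.mem_cons, mem_insert] at this ⊢
        tauto
    · refine ih B hn.2 (fun i hi => hd i (List.mem_cons_of_mem _ hi)) h.1 X h1 fun i hi => ?_
      rcases h2 i hi with h3 | h3
      · exact Or.inl h3
      · exact Or.inr ((List.mem_cons.1 h3).resolve_left fun e => hX (e ▸ hi))

lemma go_run0 : goTest gev gcol [11, 12, 13, 14, 15, 16, 17, 18, 19, 20, 21, 22, 23]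
    (gmask 24 383) (8) = true := by decide +kernel

lemma go_run1 : goTest gev gcol [11, 12, 13, 14, 15, 16, 17, 18, 19, 20, 21, 22, 23]
    (gmask 24 383 + gcol 10) (8 + 1) = true := by decide +kernel

lemma go_run2 : goTest gev gcol [11, 12, 13, 14, 15, 16, 17, 18, 19, 20, 21, 22, 23]
    (gmask 24 383 + gcol 9) (8 + 1) = true := by decide +kernel

lemma go_run3 : goTest gev gcol [11, 12, 13, 14, 15, 16, 17, 18, 19, 20, 21, 22, 23]
    (gmask 24 383 + gcol 9 + gcol 10) (8 + 1 + 1) = true := by decide +kernel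

lemma go_run4 : goTest gev gcol [11, 12, 13, 14, 15, 16, 17, 18, 19, 20, 21, 22, 23]
    (gmask 24 383 + gcol 7) (8 + 1) = true := by decide +kernel

lemma go_run5 : goTest gev gcol [11, 12, 13, 14, 15, 16, 17, 18, 19, 20, 21, 22, 23]
    (gmask 24 383 + gcol 7 + gcol 10) (8 + 1 + 1) = true := by decide +kernel

lemma go_run6 : goTest gev gcol [11, 12, 13, 14, 15, 16, 17, 18, 19, 20, 21, 22, 23]
    (gmask 24 383 + gcol 7 + gcol 9) (8 + 1 + 1) = true := by decide +kernel

lemma go_run7 : goTest gev gcol [11, 12, 13, 14, 15, 16, 17, 18, 19, 20, 21, 22, 23]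
    (gmask 24 383 + gcol 7 + gcol 9 + gcol 10) (8 + 1 + 1 + 1) = true := by decide +kernel

lemma leafTest_sound {ev col : ℕ → ℕ} {P v k r lam : ℕ} (h : leafTest ev col P v = true)
    (hv : v = k + 6) (e0 : ev (P - col 0) = r) (h1 : ev P * k = r * v)
    (h2 : r * (k - 1) = lam * (v - 1)) :
    (v, ev P) ∈ [(15, 805), (16, 1288), (21, 8568), (22, 11781), (23, 15939), (24, 21252)] := by
  unfold leafTest at h
  rw [strict_eq] at h
  have e3 : ev (Nat.sub P (col 0)) = r := e0
  rw [e3] at h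
  generalize ev P = b at *
  have e1 : Nat.beq (Nat.mod (Nat.mul (Nat.mul b (Nat.sub v 6)) (Nat.sub v 7))
      (Nat.mul v (Nat.sub v 1))) 0 = true := by
    rw [Nat.beq_eq]
    change b * (v - 6) * (v - 7) % (v * (v - 1)) = 0
    rw [show v - 6 = k by omega, show v - 7 = k - 1 by omega, h1, mul_right_comm, h2,
      mul_assoc, mul_comm (v - 1)]
    exact Nat.mul_mod_left _ _
  have e2 : Nat.beq (Nat.mul b (Nat.sub v 6)) (Nat.mul r v) = true := by
    rw [Nat.beq_eq]
    change b * (v - 6) = r * v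
    rw [show v - 6 = k by omega, h1]
  rw [e1, e2] at h
  exact List.contains_iff_mem.1 h

lemma go_all : goTest gev gcol [7, 9, 10, 11, 12, 13, 14, 15, 16, 17, 18, 19, 20, 21, 22, 23]
    (gmask 24 383) 8 = true :=
  (goTest_cons _ _ _ _ _ _).2 ⟨(goTest_cons _ _ _ _ _ _).2 ⟨(goTest_cons _ _ _ _ _ _).2 ⟨go_run0, go_run1⟩,
    (goTest_cons _ _ _ _ _ _).2 ⟨go_run2, go_run3⟩⟩, (goTest_cons _ _ _ _ _ _).2
      ⟨(goTest_cons _ _ _ _ _ _).2 ⟨go_run4, go_run5⟩, (goTest_cons _ _ _ _ _ _).2 ⟨go_run6, go_run7⟩⟩⟩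

theorem gcnt_cases (X : Finset (Fin 24)) (hX : ofMask 24 383 ⊆ X) {k lam : ℕ}
    (hv : X.card = k + 6) (h1 : gcnt X * k = gcnt (X.erase 0) * X.card)
    (h2 : gcnt (X.erase 0) * (k - 1) = lam * (X.card - 1)) :
    (X.card, gcnt X) ∈ [(15, 805), (16, 1288), (21, 8568), (22, 11781), (23, 15939), (24, 21252)] := by
  have c8 : (ofMask 24 383).card = 8 := by decide +kernel
  have el : List.map Fin.val ([7, 9, 10, 11, 12, 13, 14, 15, 16, 17, 18, 19, 20, 21, 22, 23] :
      List (Fin 24)) = [7, 9, 10, 11, 12, 13, 14, 15, 16, 17, 18, 19, 20, 21, 22, 23] := by decide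
  have hall : ∀ i : Fin 24, i ∈ ofMask 24 383 ∨ i ∈ ([7, 9, 10, 11, 12, 13, 14, 15, 16, 17, 18, 19,
    20, 21, 22, 23] : List (Fin 24)) := by decide +kernel
  have h0 := go_all
  rw [← el, ← gsum_ofMask, ← c8] at h0
  have h3 := goTest_sound _ _ _ _ (by decide +kernel) (by decide +kernel) h0 X hX (fun i _ => hall i)
  have m0 : (0 : Fin 24) ∈ X := hX (by decide +kernel)
  have e0 := gev_gsum (X.erase 0)
  rw [gsum_erase m0] at e0
  rw [← gev_gsum X] at h1 ⊢
  exact leafTest_sound h3 hv e0 h1 h2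

end Pool.Agent.MP_337c4e_co

end
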