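import Pool.Agent.MP_337c4e_co.CoD
import Pool.Agent.MP_337c4e_co.CoE
import Pool.Agent.MP_337c4e_co.CoC
import Pool.Agent.MP_337c4e_co.CoB
import Pool.Agent.MP_337c4e_co.CoA

section

/-! Transfer of the finite facts to an arbitrary type. -/

set_option linter.unusedSectionVars false
set_option linter.unusedVariables false

namespace Pool.Agent.MP_337c4e_co

open Finset RkFn

variable {α : Type} [Fintype α] [DecidableEq α] {cir : Finset α → Prop} {A B C : Finset α}
  {e f a b c a' b' c' : α}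

lemma thb_third (hA : A.card = 3) (ha : a ∈ A) (ha' : a' ∈ A) (na : a ≠ a') :
    ∃ x, x ≠ a ∧ x ≠ a' ∧ A = {a, a', x} := by
  have h1 : ((A.erase a).erase a').card = 1 := by
    rw [card_erase_of_mem (mem_erase.2 ⟨na.symm, ha'⟩), card_erase_of_mem ha, hA]
  obtain ⟨x, hx⟩ := card_eq_one.1 h1
  have h2 : x ∈ (A.erase a).erase a' := hx ▸ mem_singleton_self x
  simp only [mem_erase] at h2
  refine ⟨x, h2.2.1, h2.1, ?_⟩
  rw [← hx, insert_erase (mem_erase.2 ⟨na.symm, ha'⟩), insert_erase ha]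

lemma thb_other (hA : A.card = 3) (a : α) : ∃ x ∈ A, a ≠ x := by
  obtain ⟨x, hx, h⟩ := exists_mem_ne (s := A) (by omega) a
  exact ⟨x, hx, h.symm⟩

/-- Write `A = {a, a', a''}` and so on; the embedding is `i ↦ l[i]` for the list
`l = [a, a', a'', b, b', b'', c, c', c''] ++ E`, which has no duplicates. -/
lemma Th.exists_emb (ht : Th cir A B C) (ha : a ∈ A) (ha' : a' ∈ A) (hb : b ∈ B) (hb' : b' ∈ B)
    (hc : c ∈ C) (hc' : c' ∈ C) (na : a ≠ a') (nb : b ≠ b') (nc : c ≠ c') (m : ℕ)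
    (E : Fin m → α) (hE : Function.Injective E) (hE' : ∀ i, E i ∉ A ∪ B ∪ C) :
    ∃ φ : Fin (m + 9) ↪ α, ({0, 1, 2} : Finset (Fin (m + 9))).map φ = A ∧
      ({3, 4, 5} : Finset (Fin (m + 9))).map φ = B ∧ ({6, 7, 8} : Finset (Fin (m + 9))).map φ = C ∧
      φ 0 = a ∧ φ 1 = a' ∧ φ 3 = b ∧ φ 4 = b' ∧ φ 6 = c ∧ φ 7 = c' ∧
      ∀ i : Fin m, φ ⟨i.val + 9, by omega⟩ = E i := by
  obtain ⟨x, x1, x2, hA⟩ := thb_third ht.cA ha ha' na
  obtain ⟨y, y1, y2, hB⟩ := thb_third ht.cB hb hb' nb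
  obtain ⟨z, z1, z2, hC⟩ := thb_third ht.cC hc hc' nc
  let v : Fin 9 → α := ![a, a', x, b, b', y, c, c', z]
  have hU : univ.image v = A ∪ B ∪ C := by
    rw [hA, hB, hC]
    ext t
    simp only [v, mem_image, mem_univ, true_and, Fin.exists_fin_succ, mem_union, mem_insert,
      mem_singleton, Matrix.cons_val_zero, Matrix.cons_val_succ, IsEmpty.exists_iff, or_false,
      or_assoc, eq_comm (b := t)]
  have hv : Function.Injective v := by
    have h9 : (univ.image v).card = (univ : Finset (Fin 9)).card := by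
      rw [hU, card_union_of_disjoint (disjoint_union_left.2 ⟨ht.dAC, ht.dBC⟩),
        card_union_of_disjoint ht.dAB, ht.cA, ht.cB, ht.cC]
      rfl
    exact fun i j hij => card_image_iff.1 h9 (mem_coe.2 (mem_univ i)) (mem_coe.2 (mem_univ j)) hij
  have hm : ∀ i, v i ∈ A ∪ B ∪ C := fun i => hU ▸ mem_image_of_mem v (mem_univ i)
  let g : Fin (m + 9) → α := fun i =>
    if h : i.val < 9 then v ⟨i.val, h⟩ else E ⟨i.val - 9, by omega⟩
  have hg : Function.Injective g := by
    intro i j hij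
    simp only [g] at hij
    split_ifs at hij with h1 h2 h2
    · exact Fin.ext (by simpa using hv hij)
    · exact absurd (hij ▸ hm _) (hE' _)
    · exact absurd (hij ▸ hm _) (hE' _)
    · have := congrArg Fin.val (hE hij)
      simp only at this
      exact Fin.ext (by omega)
  have hk : ∀ k : Fin 9, g (Fin.ofNat (m + 9) k.val) = v k := fun k => by
    have h1 : (Fin.ofNat (m + 9) k.val).val = k.val := Nat.mod_eq_of_lt (by omega)
    simp only [g, h1, k.isLt, dif_pos]
  have g0 : g 0 = a := hk 0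
  have g1 : g 1 = a' := hk 1
  have g2 : g 2 = x := hk 2
  have g3 : g 3 = b := hk 3
  have g4 : g 4 = b' := hk 4
  have g5 : g 5 = y := hk 5
  have g6 : g 6 = c := hk 6
  have g7 : g 7 = c' := hk 7
  have g8 : g 8 = z := hk 8
  refine ⟨⟨g, hg⟩, ?_, ?_, ?_, g0, g1, g3, g4, g6, g7, fun i => ?_⟩
  · simp only [map_insert, map_singleton, Function.Embedding.coeFn_mk, g0, g1, g2, ← hA]
  · simp only [map_insert, map_singleton, Function.Embedding.coeFn_mk, g3, g4, g5, ← hB]
  · simp only [map_insert, map_singleton, Function.Embedding.coeFn_mk, g6, g7, g8, ← hC]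
  · simp [g]

/-- `exists_emb`, `Cf.map`, `Th.comap`, `t1F`, `pat_map_iff`. -/
theorem Th.pat (h : Cf cir 6 7) (ht : Th cir A B C) (he : e ∉ A ∪ B ∪ C) :
    ∃ a b c, Pat cir A B C e a b c := by
  obtain ⟨a, ha⟩ := card_pos.1 (ht.cA ▸ (by norm_num : 0 < 3))
  obtain ⟨b, hb⟩ := card_pos.1 (ht.cB ▸ (by norm_num : 0 < 3))
  obtain ⟨c, hc⟩ := card_pos.1 (ht.cC ▸ (by norm_num : 0 < 3))
  obtain ⟨a', ha', na⟩ := thb_other ht.cA a
  obtain ⟨b', hb', nb⟩ := thb_other ht.cB b
  obtain ⟨c', hc', nc⟩ := thb_other ht.cC c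
  obtain ⟨φ, rfl, rfl, rfl, -, -, -, -, -, -, hE⟩ := ht.exists_emb ha ha' hb hb' hc hc' na nb nc 1
    (fun _ => e) (Function.injective_of_subsingleton _) (fun _ => he)
  obtain ⟨x, y, z, hp⟩ := t1F _ (h.map φ) (Th.comap φ ht)
  have h9 : φ 9 = e := hE 0
  exact ⟨_, _, _, h9 ▸ (pat_map_iff φ).1 hp⟩

theorem Th.same (h : Cf cir 6 7) (ht : Th cir A B C) (he : e ∉ A ∪ B ∪ C) (hf : f ∉ A ∪ B ∪ C)
    (h1 : Pat cir A B C e a b c) (h2 : Pat cir A B C f a b c) : e = f := by
  by_contra hne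
  obtain ⟨a', ha', na⟩ := thb_other ht.cA a
  obtain ⟨b', hb', nb⟩ := thb_other ht.cB b
  obtain ⟨c', hc', nc⟩ := thb_other ht.cC c
  have hE : Function.Injective ![e, f] := by
    intro i j hij
    fin_cases i <;> fin_cases j <;> simp_all [eq_comm]
  have hE' : ∀ i, ![e, f] i ∉ A ∪ B ∪ C := fun i => by fin_cases i <;> assumption
  obtain ⟨φ, rfl, rfl, rfl, rfl, -, rfl, -, rfl, -, hφ⟩ := ht.exists_emb h1.ha ha' h1.hb hb' h1.hc hc'
    na nb nc 2 _ hE hE'
  obtain rfl : φ 9 = e := hφ 0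
  obtain rfl : φ 10 = f := hφ 1
  exact sameF _ (h.map φ) (Th.comap φ ht) ((pat_map_iff φ).2 h1) ((pat_map_iff φ).2 h2)

theorem Th.far (h : Cf cir 6 7) (ht : Th cir A B C) (he : e ∉ A ∪ B ∪ C) (hf : f ∉ A ∪ B ∪ C)
    (hne : e ≠ f) (h1 : Pat cir A B C e a b c) (h2 : Pat cir A B C f a' b' c') :
    a = a' ∨ b = b' ∨ c = c' := by
  by_contra hn
  push Not at hn
  have hE : Function.Injective ![e, f] := by
    intro i j hij
    fin_cases i <;> fin_cases j <;> simp_all [eq_comm]
  have hE' : ∀ i, ![e, f] i ∉ A ∪ B ∪ C := fun i => by fin_cases i <;> assumption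
  obtain ⟨φ, rfl, rfl, rfl, rfl, rfl, rfl, rfl, rfl, rfl, hφ⟩ := ht.exists_emb h1.ha h2.ha h1.hb
    h2.hb h1.hc h2.hc hn.1 hn.2.1 hn.2.2 2 _ hE hE'
  obtain rfl : φ 9 = e := hφ 0
  obtain rfl : φ 10 = f := hφ 1
  exact farF _ (h.map φ) (Th.comap φ ht) ((pat_map_iff φ).2 h1) ((pat_map_iff φ).2 h2)

open Classical in
/-- The embedding of `Fin 13` is a bijection, so the numbers of circuits agree. -/
theorem Th.tet (h : Cf cir 6 7) (ht : Th cir A B C) (hv : Fintype.card α = 13) {e1 e2 e3 e4 : α}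
    (hn : [e1, e2, e3, e4].Nodup) (he : ∀ x ∈ [e1, e2, e3, e4], x ∉ A ∪ B ∪ C) (na : a ≠ a')
    (nb : b ≠ b') (nc : c ≠ c') (h1 : Pat cir A B C e1 a b c) (h2 : Pat cir A B C e2 a b' c')
    (h3 : Pat cir A B C e3 a' b c') (h4 : Pat cir A B C e4 a' b' c) :
    (univ.filter cir).card = 78 := by
  have hE : Function.Injective [e1, e2, e3, e4].get := List.nodup_iff_injective_get.1 hn
  obtain ⟨φ, rfl, rfl, rfl, rfl, rfl, rfl, rfl, rfl, rfl, hφ⟩ := ht.exists_emb h1.ha h3.ha h1.hb
    h2.hb h1.hc h2.hc na nb nc 4 [e1, e2, e3, e4].get hE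
    (fun i => he _ (List.get_mem [e1, e2, e3, e4] i))
  obtain rfl : φ 9 = e1 := hφ 0
  obtain rfl : φ 10 = e2 := hφ 1
  obtain rfl : φ 11 = e3 := hφ 2
  obtain rfl : φ 12 = e4 := hφ 3
  have hs : Function.Surjective φ :=
    ((Fintype.bijective_iff_injective_and_card φ).2 ⟨φ.injective, by simp [hv]⟩).2
  have key := tetF _ (h.map φ) (Th.comap φ ht) ((pat_map_iff φ).2 h1) ((pat_map_iff φ).2 h2)
    ((pat_map_iff φ).2 h3) ((pat_map_iff φ).2 h4)
  rw [← key]
  symm
  refine card_bij (fun S _ => S.map φ) (fun S hS => by simpa using hS)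
    (fun S _ T _ hST => map_injective φ hST) (fun T hT => ?_)
  have hT' : (T.preimage φ φ.injective.injOn).map φ = T := by
    ext t
    obtain ⟨i, rfl⟩ := hs t
    simp
  exact ⟨T.preimage φ φ.injective.injOn, by simpa [hT'] using hT, hT'⟩

end Pool.Agent.MP_337c4e_co

end

section

/-! The case `v - k = 6` with a coline of type three. -/

set_option linter.unusedSectionVars false
set_option linter.unusedVariables false

namespace Pool.Agent.MP_337c4e_co

open Finset RkFn

namespace IsDes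

variable {α : Type} [Fintype α] [DecidableEq α] {R : RkFn α} {b v r k lam : ℕ}

open Classical in
lemma card_cir (h : IsDes R b v r k lam) : (univ.filter (fun C : Finset α => Cᶜ ∈ R.hyp)).card = b := by
  rw [← h.hb]
  apply card_bij (fun C _ => Cᶜ)
  · intro C hC; simpa using hC
  · intro C _ C' _ hh; exact compl_injective hh
  · intro H hH; exact ⟨Hᶜ, by simpa using hH, compl_compl H⟩

lemma thc_ex (h : IsDes R b v r k lam) {X : Finset α} (hX : X.card < v) : ∃ z, z ∉ X := by
  by_contra hc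
  push Not at hc
  have : X = univ := eq_univ_of_forall hc
  rw [this, card_univ, h.hv] at hX
  omega

lemma thc_two (h : IsDes R b v r k lam) {F L L' : Finset α} (hF : R.Flat F)
    (hr : R.rk F + 3 = R.rk univ) (hL : L ∈ R.cov F univ) (hL' : L' ∈ R.cov F univ)
    (hne : L ≠ L') : L.card + L'.card ≤ k + F.card ∧
      (L.card + L'.card + 1 = k + F.card → ∃ M ∈ R.cov F univ, M.card ≤ F.card + 1) := by
  obtain ⟨H, hH, h1, h2⟩ := exists_hyp_cov hF hr hL hL'
  have hi := cov_inter hF hL hL' hne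
  have hc := card_union_add_card_inter L L'
  rw [hi] at hc
  have hs : L ∪ L' ⊆ H := union_subset h1 h2
  have hk := h.hk H hH
  have hle := card_le_card hs
  refine ⟨by omega, fun he => ?_⟩
  have hd : (H \ (L ∪ L')).card = 1 := by rw [card_sdiff_of_subset hs]; omega
  obtain ⟨x, hx⟩ := card_eq_one.1 hd
  have hx1 : x ∈ H \ (L ∪ L') := by rw [hx]; exact mem_singleton_self x
  rw [mem_sdiff, mem_union, not_or] at hx1
  have hFL : F ⊆ L := (mem_cov.1 hL).2.1
  have hxF : x ∉ F := fun hh => hx1.2.1 (hFL hh)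
  have hM := cl_insert_mem_cov hF flat_univ (subset_univ _) (mem_univ x) hxF
  refine ⟨_, hM, ?_⟩
  have hMH : R.cl (insert x F) ⊆ H :=
    (mem_hyp.1 hH).1.cl_subset (insert_subset hx1.1 (hFL.trans h1))
  have n1 : R.cl (insert x F) ≠ L := fun hh => hx1.2.1 (hh ▸ mem_cl_insert F x)
  have n2 : R.cl (insert x F) ≠ L' := fun hh => hx1.2.2 (hh ▸ mem_cl_insert F x)
  have i1 := cov_inter hF hM hL n1
  have i2 := cov_inter hF hM hL' n2
  have : R.cl (insert x F) ⊆ insert x F := by
    intro y hy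
    rw [mem_insert]
    by_cases y1 : y ∈ L
    · right; rw [← i1]; exact mem_inter.2 ⟨hy, y1⟩
    by_cases y2 : y ∈ L'
    · right; rw [← i2]; exact mem_inter.2 ⟨hy, y2⟩
    left
    rw [← mem_singleton, ← hx, mem_sdiff, mem_union, not_or]
    exact ⟨hMH hy, y1, y2⟩
  exact (card_le_card this).trans (card_insert_le _ _)

/-- A flat `F ⊆ L` of corank three has `k - 4` points, or it has `k - 6` points and all its covers
have `k - 3` points.  Let `s = k - |F| ≥ 5`.  By `apex_card` no cover has `k - 1` points, so covers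
have `s - 3` or `s - 2` new points (`coline_d`); two covers lie in a hyperplane (`exists_hyp_cov`,
`cov_inter`), which gives `s ≤ 6` and the claim for `s = 6`.  For `s = 5` covers have two or three
new points; two of the same kind are impossible (a hyperplane has five new points, split among its
covers by `sum_cov_card`), but there are eleven points outside `F`. -/
lemma theta_cov (h : IsDes R b v r k lam) (hb : v < b) (hc : v = k + 6) {F L : Finset α}
    (hF : R.Flat F) (hr : R.rk F + 3 = R.rk univ) (hL : L ∈ R.cov F univ) (h3 : L.card + 3 = k) :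
    F.card + 4 = k ∨ (F.card + 6 = k ∧ ∀ L' ∈ R.cov F univ, L'.card + 3 = k) := by
  by_cases h4 : F.card + 4 = k
  · exact Or.inl h4
  right
  have hL0 := mem_cov.1 hL
  have hlt : F.card < L.card := by
    apply card_lt_card
    refine ⟨hL0.2.1, fun hh => ?_⟩
    have := R.mono hh
    omega
  have hd : ∀ M ∈ R.cov F univ, M.card + 2 = k ∨ M.card + 3 = k := by
    intro M hM
    have hM0 := mem_cov.1 hM
    obtain ⟨d, d1, d2, d3, d4, -⟩ := h.coline_d hb hc hM0.1 (by omega)
    have : d ≠ 1 := by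
      rintro rfl
      have := h.apex_card hb hF hr hM d2 hL (by rintro rfl; omega)
      omega
    omega
  have hnew : ∀ X : Finset α, F ⊆ X → X.card < v → ∃ M ∈ R.cov F univ, ¬ M ⊆ X := by
    intro X hFX hX
    obtain ⟨z, hz⟩ := h.thc_ex hX
    exact ⟨_, cl_insert_mem_cov hF flat_univ (subset_univ _) (mem_univ z) (fun hh => hz (hFX hh)),
      fun hh => hz (hh (mem_cl_insert F z))⟩
  obtain ⟨M, hM, hML⟩ := hnew L hL0.2.1 (by omega)
  have n1 : L ≠ M := by rintro rfl; exact hML subset_rfl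
  have t1 := (h.thc_two hF hr hL hM n1).1
  have dM := hd M hM
  by_cases h6 : F.card + 6 = k
  · refine ⟨h6, fun L' hL' => ?_⟩
    by_cases e : L = L'
    · rw [← e]; exact h3
    have := (h.thc_two hF hr hL hL' e).1
    have := hd L' hL'
    omega
  exfalso
  have h5 : F.card + 5 = k := by omega
  have hk2 : ∀ M ∈ R.cov F univ, L ≠ M → M.card + 2 = k := by
    intro M hM hne
    rcases hd M hM with e | e
    · exact e
    obtain ⟨N, hN, hN'⟩ := (h.thc_two hF hr hL hM hne).2 (by omega)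
    have := hd N hN
    omega
  have cM := hk2 M hM n1
  have hu : (L ∪ M).card < v := by
    have := card_union_add_card_inter L M
    rw [cov_inter hF hL hM n1] at this
    omega
  obtain ⟨N, hN, hNL⟩ := hnew (L ∪ M) (hL0.2.1.trans subset_union_left) hu
  have n2 : L ≠ N := by rintro rfl; exact hNL subset_union_left
  have n3 : M ≠ N := by rintro rfl; exact hNL subset_union_right
  have cN := hk2 N hN n2
  have := (h.thc_two hF hr hM hN n3).1
  omega

lemma thc_three (h : IsDes R b v r k lam) (hb : v < b) (hc : v = k + 6) {L : Finset α}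
    (hL : R.Flat L) (hr : R.rk L + 2 = R.rk univ) (h3 : L.card + 3 = k) :
    ∃ H1 ∈ R.hyp, ∃ H2 ∈ R.hyp, ∃ H3 ∈ R.hyp, H1 ∩ H2 = L ∧ H1 ∩ H3 = L ∧ H2 ∩ H3 = L ∧
      (∀ H ∈ R.hyp, L ⊆ H → H = H1 ∨ H = H2 ∨ H = H3) ∧ ∀ z, z ∈ H1 ∨ z ∈ H2 ∨ z ∈ H3 := by
  obtain ⟨d, d1, d2, d3, d4, d5⟩ := h.coline_d hb hc hL hr
  have e3 : d = 3 := by omega
  subst e3
  have hdeg : (R.hyp.filter (fun H => L ⊆ H)).card = 3 := by
    unfold RkFn.deg at d5; omega
  obtain ⟨H1, H2, H3, n12, n13, n23, he⟩ := card_eq_three.1 hdeg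
  have hm : ∀ H, H ∈ R.hyp ∧ L ⊆ H ↔ H = H1 ∨ H = H2 ∨ H = H3 := by
    intro H
    rw [← mem_filter (p := fun H => L ⊆ H), he]
    simp
  have hcv : ∀ H, H = H1 ∨ H = H2 ∨ H = H3 → H ∈ R.cov L univ := by
    intro H hH
    rw [cov_eq_of_coline hr, mem_filter]
    exact (hm H).2 hH
  have c1 := hcv H1 (by simp)
  have c2 := hcv H2 (by simp)
  have c3 := hcv H3 (by simp)
  refine ⟨H1, ((hm H1).2 (by simp)).1, H2, ((hm H2).2 (by simp)).1, H3, ((hm H3).2 (by simp)).1,
    cov_inter hL c1 c2 n12, cov_inter hL c1 c3 n13, cov_inter hL c2 c3 n23,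
    fun H hH hLH => (hm H).1 ⟨hH, hLH⟩, fun z => ?_⟩
  by_cases hz : z ∈ L
  · exact Or.inl ((mem_cov.1 c1).2.1 hz)
  have hH : R.cl (insert z L) ∈ R.hyp := cl_mem_hyp (by rw [hL.rk_insert hz]; omega)
  have hz' := mem_cl_insert (R := R) L z
  rcases (hm _).1 ⟨hH, subset_cl_insert _ _⟩ with e | e | e <;> rw [e] at hz' <;> simp [hz']

/-- the new points of a hyperplane over `L` lie in the closure of `insert z (Y.erase y)` -/
lemma thc_proj (h : IsDes R b v r k lam) (hb : v < b) (hc : v = k + 6) {L Y H : Finset α} {x y z : α}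
    (hL : R.Flat L) (hr : R.rk L + 2 = R.rk univ) (h3 : L.card + 3 = k) (hY : R.Ind Y)
    (hYL : Y ⊆ L) (hYc : Y.card = R.rk L) (hy : y ∈ Y) (hx : x ∈ L) (hxY : x ∉ Y)
    (hxy : x ∉ R.cl (Y.erase y)) :
    (R.cl (Y.erase y)).card + 6 = k ∧ ∀ H ∈ R.hyp, L ⊆ H → ∀ z ∈ H, z ∉ L →
      H \ L ⊆ R.cl (insert z (Y.erase y)) := by
  have hF := cl_flat (R := R) (Y.erase y)
  have hFL : R.cl (Y.erase y) ⊆ L := hL.cl_subset ((erase_subset _ _).trans hYL)
  have hrk : R.rk (R.cl (Y.erase y)) + 1 = R.rk L := by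
    rw [rk_cl, hY.subset (erase_subset y Y), ← hYc]
    exact card_erase_add_one hy
  have hcov : L ∈ R.cov (R.cl (Y.erase y)) univ := mem_cov.2 ⟨hL, hFL, subset_univ _, hrk.symm⟩
  have hyF : y ∉ R.cl (Y.erase y) := by
    have := hY.notMem_cl (T := {y}) hy (mem_singleton_self y)
    rwa [sdiff_singleton_eq_erase] at this
  have hne : x ≠ y := fun e => hxY (e ▸ hy)
  have hsm : (R.cl (Y.erase y)).card + 2 ≤ L.card := by
    have : insert x (insert y (R.cl (Y.erase y))) ⊆ L :=
      insert_subset hx (insert_subset (hYL hy) hFL)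
    have := card_le_card this
    rwa [card_insert_of_notMem (by simp [hne, hxy]), card_insert_of_notMem hyF] at this
  rcases h.theta_cov hb hc hF (by omega) hcov h3 with e | ⟨e, hall⟩
  · omega
  refine ⟨e, fun H hH hLH z hz hzL => ?_⟩
  have hzF : z ∉ R.cl (Y.erase y) := fun hh => hzL (hFL hh)
  have hM := cl_insert_mem_cov hF flat_univ (subset_univ _) (mem_univ z) hzF
  have cM := hall _ hM
  have hi := hF.cl_insert_inter hL hFL hzL
  have hMH : R.cl (insert z (R.cl (Y.erase y))) ⊆ H :=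
    (mem_hyp.1 hH).1.cl_subset (insert_subset hz (hFL.trans hLH))
  have e1 : R.cl (insert z (R.cl (Y.erase y))) \ L = H \ L := by
    apply eq_of_subset_of_card_le (sdiff_subset_sdiff hMH subset_rfl)
    have a1 := card_sdiff_add_card_inter (R.cl (insert z (R.cl (Y.erase y)))) L
    rw [hi] at a1
    rw [card_sdiff_of_subset hLH, h.hk H hH]
    omega
  rw [← e1]
  refine sdiff_subset.trans ((cl_flat _).cl_subset (insert_subset (mem_cl_insert _ _) ?_))
  exact cl_mono (subset_insert _ _)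

/-- Let `Y` be a basis of `L` and suppose `x ∈ L \ Y`.  There are `y ≠ y'` in `Y` with
`x ∉ cl (Y.erase y)`, `x ∉ cl (Y.erase y')` (`Ind.mem_cl_sdiff`, `flat_empty`, `flat_single`), so
the second case of `theta_cov` holds for `F = cl (Y.erase y)` and `F' = cl (Y.erase y')`, and
`G = F ∩ F' = cl (Y \ {y, y'})` has at least `k - 8` points.  For `z ∉ L` let
`T z = cl (insert z L) \ L`, three points.  Then `cl (insert z F) = F ∪ T z` (it lies in
`cl (insert z L)`, meets `L` in `F` and has three new points), the same for `F'`, so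
`T z ⊆ cl (insert z (Y \ {y, y'}))` (`Ind.cl_inter` in `insert z Y`).  Take `z1, z2, z3` in the three
hyperplanes over `L`; a hyperplane containing `G, z1, z2, z3` has at least `k - 8 + 9` points. -/
lemma theta_rank (h : IsDes R b v r k lam) (hb : v < b) (hl : 1 ≤ lam) (hc : v = k + 6)
    {L : Finset α} (hL : R.Flat L) (hr : R.rk L + 2 = R.rk univ) (h3 : L.card + 3 = k) :
    v = R.rk univ + 7 := by
  obtain ⟨Y, -, hYL, hY, hYc⟩ := exists_ind_between (R := R) (X := ∅) (F := L)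
    (by simp [RkFn.Ind, R.rk_empty]) (empty_subset _)
  by_cases hYe : L ⊆ Y
  · have := subset_antisymm hYe hYL
    rw [← this] at hYc
    omega
  exfalso
  obtain ⟨x, hx, hxY⟩ := not_subset.1 hYe
  have hcl : R.cl Y = L := by
    apply (cl_flat Y).eq_of_subset_of_rk_le (hL.cl_subset hYL)
    rw [rk_cl, hY, hYc]
  set T := Y.filter (fun y => x ∈ R.cl (Y.erase y)) with hT
  have hxT : x ∈ R.cl (Y \ T) :=
    hY.mem_cl_sdiff (filter_subset _ _) (hcl ▸ hx) (fun y hy => (mem_filter.1 hy).2)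
  have h2 : 1 < (Y \ T).card := by
    by_contra hle
    have hle' : (Y \ T).card = 0 ∨ (Y \ T).card = 1 := by omega
    rcases hle' with e | e
    · rw [card_eq_zero.1 e, h.flat_empty hb] at hxT
      simp at hxT
    · obtain ⟨y, hy⟩ := card_eq_one.1 e
      have hy' : y ∈ Y \ T := by rw [hy]; exact mem_singleton_self y
      rw [hy, h.flat_single hb hl y, mem_singleton] at hxT
      exact hxY (hxT ▸ (mem_sdiff.1 hy').1)
  obtain ⟨y, hy, y', hy', hne⟩ := one_lt_card.1 h2
  rw [mem_sdiff, hT, mem_filter, not_and] at hy hy'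
  obtain ⟨c1, p1⟩ := h.thc_proj (H := L) (z := x) hb hc hL hr h3 hY hYL hYc hy.1 hx hxY (hy.2 hy.1)
  obtain ⟨c2, p2⟩ := h.thc_proj (H := L) (z := x) hb hc hL hr h3 hY hYL hYc hy'.1 hx hxY
    (hy'.2 hy'.1)
  set W := Y.erase y ∩ Y.erase y' with hW
  have hG : R.cl (Y.erase y) ∩ R.cl (Y.erase y') = R.cl W :=
    hY.cl_inter (erase_subset _ _) (erase_subset _ _)
  have hWY : W ⊆ Y := inter_subset_left.trans (erase_subset _ _)
  have hGL : R.cl W ⊆ L := hL.cl_subset (hWY.trans hYL)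
  have hGc : k ≤ (R.cl W).card + 8 := by
    have a1 := card_union_add_card_inter (R.cl (Y.erase y)) (R.cl (Y.erase y'))
    rw [hG] at a1
    have a2 : R.cl (Y.erase y) ∪ R.cl (Y.erase y') ⊆ L.erase x := by
      apply union_subset <;> rw [subset_erase]
      · exact ⟨hL.cl_subset ((erase_subset _ _).trans hYL), hy.2 hy.1⟩
      · exact ⟨hL.cl_subset ((erase_subset _ _).trans hYL), hy'.2 hy'.1⟩
    have a3 := card_le_card a2
    have a4 := card_erase_add_one hx
    omega
  have hWc : W.card + 2 ≤ Y.card := by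
    have : insert y (insert y' W) ⊆ Y := insert_subset hy.1 (insert_subset hy'.1 hWY)
    have := card_le_card this
    rwa [card_insert_of_notMem (by simp [hW, hne]), card_insert_of_notMem (by simp [hW])] at this
  have key : ∀ H ∈ R.hyp, L ⊆ H → ∃ z, H \ L ⊆ R.cl (insert z W) := by
    intro H hH hLH
    have : (H \ L).Nonempty := by
      rw [← card_pos, card_sdiff_of_subset hLH, h.hk H hH]; omega
    obtain ⟨z, hz⟩ := this
    rw [mem_sdiff] at hz
    refine ⟨z, ?_⟩
    have hzY : z ∉ Y := fun hh => hz.2 (hYL hh)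
    have hI : R.Ind (insert z Y) := by
      unfold RkFn.Ind
      rw [rk_insert_of_notMem_cl (by rw [hcl]; exact hz.2), card_insert_of_notMem hzY, hY]
    have := hI.cl_inter (insert_subset_insert z (erase_subset y Y))
      (insert_subset_insert z (erase_subset y' Y))
    rw [← insert_inter_distrib] at this
    rw [← this]
    exact subset_inter (p1 H hH hLH z hz.1 hz.2) (p2 H hH hLH z hz.1 hz.2)
  obtain ⟨H1, m1, H2, m2, H3, m3, i12, i13, i23, -, hall⟩ := h.thc_three hb hc hL hr h3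
  obtain ⟨z1, q1⟩ := key H1 m1 (i12 ▸ inter_subset_left)
  obtain ⟨z2, q2⟩ := key H2 m2 (i12 ▸ inter_subset_right)
  obtain ⟨z3, q3⟩ := key H3 m3 (i13 ▸ inter_subset_right)
  set X := insert z1 (insert z2 (insert z3 W)) with hX
  have hXr : R.rk (R.cl X) + 1 ≤ R.rk univ := by
    rw [rk_cl]
    have a1 := R.rk_insert_le z1 (insert z2 (insert z3 W))
    have a2 := R.rk_insert_le z2 (insert z3 W)
    have a3 := R.rk_insert_le z3 W
    have a4 := rk_le_card (R := R) W
    rw [← hX] at a1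
    omega
  obtain ⟨K, hK, hXK, -, hKr⟩ := (cl_flat (R := R) X).exists_rk flat_univ (subset_univ _) (R.rk univ - 1)
    (by omega) (by omega)
  have hKc := h.hk K (mem_hyp.2 ⟨hK, by omega⟩)
  have hs : R.cl W ∪ Lᶜ ⊆ K := by
    refine Subset.trans (union_subset (cl_mono ?_) ?_) hXK
    · intro w hw; simp [hX, hw]
    · intro w hw
      rw [mem_compl] at hw
      rcases hall w with e | e | e
      · refine cl_mono ?_ (q1 (mem_sdiff.2 ⟨e, hw⟩))
        intro u hu; rw [mem_insert] at hu; rcases hu with hu | hu <;> simp [hX, hu]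
      · refine cl_mono ?_ (q2 (mem_sdiff.2 ⟨e, hw⟩))
        intro u hu; rw [mem_insert] at hu; rcases hu with hu | hu <;> simp [hX, hu]
      · refine cl_mono ?_ (q3 (mem_sdiff.2 ⟨e, hw⟩))
        intro u hu; rw [mem_insert] at hu; rcases hu with hu | hu <;> simp [hX, hu]
  have := card_le_card hs
  rw [card_union_of_disjoint (disjoint_compl_right.mono_left hGL), card_compl, h.hv] at this
  omega

lemma thc_compl {L H1 H2 H3 : Finset α} (i13 : H1 ∩ H3 = L) (i23 : H2 ∩ H3 = L)
    (hall : ∀ z, z ∈ H1 ∨ z ∈ H2 ∨ z ∈ H3) : (H1 \ L ∪ H2 \ L)ᶜ = H3 := by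
  ext z
  have a1 : z ∈ H1 ∩ H3 ↔ z ∈ L := by rw [i13]
  have a2 : z ∈ H2 ∩ H3 ↔ z ∈ L := by rw [i23]
  have a3 := hall z
  simp only [mem_inter] at a1 a2
  simp only [mem_compl, mem_union, mem_sdiff]
  tauto

lemma thc_disj {L H1 H2 : Finset α} (i12 : H1 ∩ H2 = L) : Disjoint (H1 \ L) (H2 \ L) := by
  rw [disjoint_left]
  intro z h1 h2
  rw [mem_sdiff] at h1 h2
  exact h1.2 (i12 ▸ mem_inter.2 ⟨h1.1, h2.1⟩)

/-- `L` lies in three hyperplanes `L ∪ A`, `L ∪ B`, `L ∪ C` (`coline_d`, `cov_eq_of_coline`,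
`cov_inter`). -/
lemma theta_setup (h : IsDes R b v r k lam) (hb : v < b) (hc : v = k + 6) {L : Finset α}
    (hL : R.Flat L) (hr : R.rk L + 2 = R.rk univ) (h3 : L.card + 3 = k) :
    ∃ A B C, Th (fun S => Sᶜ ∈ R.hyp) A B C ∧ A ∪ B ∪ C = Lᶜ := by
  obtain ⟨H1, m1, H2, m2, H3, m3, i12, i13, i23, honly, hall⟩ := h.thc_three hb hc hL hr h3
  have s1 : L ⊆ H1 := i12 ▸ inter_subset_left
  have s2 : L ⊆ H2 := i12 ▸ inter_subset_right
  have s3 : L ⊆ H3 := i13 ▸ inter_subset_right
  have e3 := thc_compl i13 i23 hall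
  have e2 : (H1 \ L ∪ H3 \ L)ᶜ = H2 :=
    thc_compl i12 (by rw [inter_comm, i23]) (fun z => by have := hall z; tauto)
  have e1 : (H2 \ L ∪ H3 \ L)ᶜ = H1 :=
    thc_compl (by rw [inter_comm, i12]) (by rw [inter_comm, i13]) (fun z => by have := hall z; tauto)
  have hU : H1 \ L ∪ H2 \ L ∪ H3 \ L = Lᶜ := by
    ext z
    have a3 := hall z
    simp only [mem_compl, mem_union, mem_sdiff]
    tauto
  have cd : ∀ H ∈ R.hyp, L ⊆ H → (H \ L).card = 3 := by
    intro H hH hs
    rw [card_sdiff_of_subset hs, h.hk H hH]; omega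
  refine ⟨H1 \ L, H2 \ L, H3 \ L, ⟨cd H1 m1 s1, cd H2 m2 s2, cd H3 m3 s3, thc_disj i12,
    thc_disj i13, thc_disj i23, by rw [e3]; exact m3, by rw [e2]; exact m2, by rw [e1]; exact m1,
    fun S hS hc => ?_⟩, hU⟩
  rw [hU] at hS
  have hLS : L ⊆ Sᶜ := by
    intro z hz
    rw [mem_compl]
    intro hh
    exact (mem_compl.1 (hS hh)) hz
  rcases honly _ hc hLS with e | e | e
  · right; right; apply compl_injective; rw [e, e1]
  · right; left; apply compl_injective; rw [e, e2]
  · left; apply compl_injective; rw [e, e3]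

lemma thc_coord (h : IsDes R b v r k lam) (hb : v < b) (hc : v = k + 6) {L A B C : Finset α}
    (h3 : L.card + 3 = k) (hcf : Cf (fun S => Sᶜ ∈ R.hyp) 6 7)
    (ht : Th (fun S => Sᶜ ∈ R.hyp) A B C) (hU : ∀ e, e ∉ A ∪ B ∪ C ↔ e ∈ L) (ta tb tc : α → α)
    (hp : ∀ e, e ∉ A ∪ B ∪ C → Pat (fun S => Sᶜ ∈ R.hyp) A B C e (ta e) (tb e) (tc e)) :
    ∀ a ∈ A, 8 + L.card ≤ 5 * (1 + (L.filter (fun e => ta e ≠ a)).card) := by
  intro a ha
  have c2 : (A.erase a).card = 2 := by rw [card_erase_of_mem ha, ht.cA]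
  obtain ⟨x, y, hxy, e⟩ := card_eq_two.1 c2
  have hxA : x ∈ A := mem_of_mem_erase (by rw [e]; simp)
  have hxL : x ∉ L := by rw [← hU]; simp [hxA]
  have := h.avoid_le hb hc (x := x) (S := insert y (L.filter (fun e => ta e ≠ a)))
    (by simp [hxy, hxL]) (by
      intro H hH hx
      rcases ht.cover_coord hcf ta tb tc hp e ha (Z := Hᶜ) (by simpa using hH) (mem_compl.2 hx)
        with q | ⟨f, q1, q2, q3⟩
      · exact ⟨y, mem_insert_self _ _, mem_compl.1 q⟩
      · exact ⟨f, mem_insert_of_mem (mem_filter.2 ⟨(hU f).1 q2, q3⟩), mem_compl.1 q1⟩)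
  have a1 := card_insert_le y (L.filter (fun e => ta e ≠ a))
  omega

/-- `theta_rank`, `cf`, `theta_setup`, `Th.pat` with choice, and `triples`: `|L| ≥ 2` by
`four_le_rank`, `v - 1 = 8 + |L|`; `iA`, `iB`, `iC` from `avoid_le` and `Th.cover_coord` (with
`swap`, `rot`), `iZ` from `avoid_le` and `Th.cover_triple`, `iZ'` from `avoid_lt` with the circuit
`p6`.  Then `Th.tet` and `card_cir`. -/
theorem theta_case (h : IsDes R b v r k lam) (hb : v < b) (hl : 2 ≤ lam) (hc : v = k + 6)
    {L : Finset α} (hL : R.Flat L) (hr : R.rk L + 2 = R.rk univ) (h3 : L.card + 3 = k) :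
    v = 13 ∧ b = 78 := by
  have hρ := h.theta_rank hb (by omega) hc hL hr h3
  have hcf := h.cf hb hc hρ
  obtain ⟨A, B, C, ht, hU0⟩ := h.theta_setup hb hc hL hr h3
  have hU : ∀ e, e ∉ A ∪ B ∪ C ↔ e ∈ L := by intro e; rw [hU0]; simp
  have hne : Nonempty α := by
    obtain ⟨x, -⟩ := h.exists_pair hb
    exact ⟨x⟩
  choose! ta tb tc hp using fun e (he : e ∉ A ∪ B ∪ C) => ht.pat hcf he
  have hp' : ∀ e ∈ L, Pat (fun S => Sᶜ ∈ R.hyp) A B C e (ta e) (tb e) (tc e) :=
    fun e he => hp e ((hU e).2 he)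
  have h2 : 2 ≤ L.card := by
    have := h.four_le_rank hb hl
    have := rk_le_card (R := R) L
    omega
  have u1 : B ∪ A ∪ C = A ∪ B ∪ C := by rw [union_comm B A]
  have u2 : C ∪ A ∪ B = A ∪ B ∪ C := by rw [union_assoc, union_comm C]
  have hz : ∀ a ∈ A, ∀ b' ∈ B, ∀ c ∈ C,
      a ∉ insert b' (insert c (L.filter (fun e => ¬ DistOne (ta e) (tb e) (tc e) a b' c))) ∧
      (∀ H ∈ R.hyp, a ∉ H → ∃ y ∈ insert b' (insert c
        (L.filter (fun e => ¬ DistOne (ta e) (tb e) (tc e) a b' c))), y ∉ H) ∧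
      (insert b' (insert c (L.filter (fun e => ¬ DistOne (ta e) (tb e) (tc e) a b' c)))).card ≤
        2 + (L.filter (fun e => ¬ DistOne (ta e) (tb e) (tc e) a b' c)).card := by
    intro a ha b' hb' c hc'
    refine ⟨?_, ?_, ?_⟩
    · have haL : a ∉ L := by rw [← hU]; simp [ha]
      have n1 : a ≠ b' := fun e => disjoint_left.1 ht.dAB ha (e ▸ hb')
      have n2 : a ≠ c := fun e => disjoint_left.1 ht.dAC ha (e ▸ hc')
      simp [haL, n1, n2]
    · intro H hH hx
      rcases ht.cover_triple hcf ta tb tc hp ha hb' hc' (Z := Hᶜ) (by simpa using hH)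
        (mem_compl.2 hx) with q | q | ⟨f, q1, q2, q3⟩
      · exact ⟨b', mem_insert_self _ _, mem_compl.1 q⟩
      · exact ⟨c, mem_insert_of_mem (mem_insert_self _ _), mem_compl.1 q⟩
      · exact ⟨f, mem_insert_of_mem (mem_insert_of_mem (mem_filter.2 ⟨(hU f).1 q2, q3⟩)),
          mem_compl.1 q1⟩
    · have a1 := card_insert_le b' (insert c
        (L.filter (fun e => ¬ DistOne (ta e) (tb e) (tc e) a b' c)))
      have a2 := card_insert_le c (L.filter (fun e => ¬ DistOne (ta e) (tb e) (tc e) a b' c))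
      omega
  obtain ⟨e1, e2, e3, e4, hLe, hn, na, nb, nc, q1, q2, q3, q4, q5, q6⟩ :=
    triples L A B C ht.cA ht.cB ht.cC ta tb tc (fun e he => (hp' e he).ha)
      (fun e he => (hp' e he).hb) (fun e he => (hp' e he).hc) h2
      (fun e he f hf a1 a2 a3 => ht.same hcf ((hU e).2 he) ((hU f).2 hf) (hp' e he)
        (by rw [a1, a2, a3]; exact hp' f hf))
      (fun e he f hf => by
        by_cases hef : e = f
        · left; rw [hef]
        · exact ht.far hcf ((hU e).2 he) ((hU f).2 hf) hef (hp' e he) (hp' f hf))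
      (h.thc_coord hb hc h3 hcf ht hU ta tb tc hp)
      (h.thc_coord hb hc h3 hcf ht.swap (by rw [u1]; exact hU) tb ta tc
        (fun e he => (hp e (u1 ▸ he)).swap))
      (h.thc_coord hb hc h3 hcf ht.rot.rot (by rw [u2]; exact hU) tc ta tb
        (fun e he => (hp e (u2 ▸ he)).rot.rot))
      (fun a ha b' hb' c hc' => by
        obtain ⟨z1, z2, z3⟩ := hz a ha b' hb' c hc'
        have := h.avoid_le hb hc z1 z2
        omega)
      (fun f hf => by
        have P := hp' f hf
        obtain ⟨z1, z2, z3⟩ := hz _ P.ha _ P.hb _ P.hc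
        have := h.avoid_lt hb hc z1 z2 P.p6 (by simp) (mem_insert_self _ _)
          (mem_insert_of_mem (mem_insert_self _ _))
          (fun e => disjoint_left.1 ht.dBC P.hb (e ▸ P.hc)) (by simp) (by simp [P.hc])
        omega)
  have hL4 : L.card = 4 := by
    have := List.toFinset_card_of_nodup hn
    rw [hLe]
    simpa using this
  have hv : v = 13 := by omega
  refine ⟨hv, ?_⟩
  have m1 : e1 ∈ L := by simp [hLe]
  have m2 : e2 ∈ L := by simp [hLe]
  have m3 : e3 ∈ L := by simp [hLe]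
  have m4 : e4 ∈ L := by simp [hLe]
  have := ht.tet hcf (h.hv.trans hv) hn (fun x hx => (hU x).2 (by rw [hLe]; simpa using hx))
    na nb nc (hp' e1 m1) (q1 ▸ hp' e2 m2) (q2 ▸ q3 ▸ hp' e3 m3) (q4 ▸ q5 ▸ q6 ▸ hp' e4 m4)
  rw [← h.card_cir]
  convert this

end IsDes

end Pool.Agent.MP_337c4e_co

end

section

/-! Embedding into the large Witt design. -/

set_option linter.unusedSectionVars false
set_option linter.unusedVariables false

namespace Pool.Agent.MP_337c4e_co

open Finset RkFn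

variable {α : Type} [Fintype α] [DecidableEq α] {cir : Finset α → Prop}

lemma emb_255 : ∀ i : Fin 24, i ∈ ofMask 24 255 ↔ i.val < 8 := by
  simp only [mem_ofMask]
  decide

lemma emb_383 : ∀ i : Fin 24, i ∈ ofMask 24 383 → i.val < 7 ∨ i.val = 8 := by
  simp only [mem_ofMask]
  decide

lemma emb_exists {F : Finset α} (hF : F.card ≤ 8) (φ : Fin 7 ↪ α) (u : α → ℕ) (h1 : ∀ i, φ i ∈ F)
    (h2 : ∀ x, u x < 16) (h3 : ∀ x y, x ∉ F → y ∉ F → x ≠ y → u x ≠ u y) :
    ∃ ψ : α ↪ Fin 24, (∀ i, (ψ (φ i)).val = i.val) ∧ (∀ x ∈ F, (ψ x).val < 8) ∧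
      ∀ x, x ∉ F → (ψ x).val = 8 + u x := by
  classical
  let p : α → ℕ := fun x => if h : ∃ i, φ i = x then h.choose.val else if x ∈ F then 7 else 8 + u x
  have p1 : ∀ i, p (φ i) = i.val := fun i => by
    have h : ∃ j, φ j = φ i := ⟨i, rfl⟩
    simp only [p, dif_pos h]
    rw [φ.injective h.choose_spec]
  have p2 : ∀ x ∈ F, (¬ ∃ i, φ i = x) → p x = 7 := fun x hx h => by
    simp only [p, dif_neg h, if_pos hx]
  have p3 : ∀ x, x ∉ F → p x = 8 + u x := fun x hx => by
    have h : ¬ ∃ i, φ i = x := by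
      rintro ⟨i, rfl⟩
      exact hx (h1 i)
    simp only [p, dif_neg h, if_neg hx]
  have p4 : ∀ x ∈ F, p x < 8 := fun x hx => by
    by_cases h : ∃ i, φ i = x
    · obtain ⟨i, rfl⟩ := h
      have := i.2
      rw [p1]; omega
    · rw [p2 x hx h]; omega
  have p5 : ∀ x, p x < 24 := fun x => by
    by_cases hx : x ∈ F
    · have := p4 x hx
      omega
    · have := h2 x
      rw [p3 x hx]; omega
  have p6 : (F \ univ.map φ).card ≤ 1 := by
    rw [card_sdiff_of_subset (fun x hx => by obtain ⟨i, -, rfl⟩ := mem_map.1 hx; exact h1 i)]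
    simp only [card_map, card_univ, Fintype.card_fin]
    omega
  refine ⟨⟨fun x => ⟨p x, p5 x⟩, fun x y e => ?_⟩, p1, p4, p3⟩
  have e' : p x = p y := congrArg Fin.val e
  by_cases hx : x ∈ F <;> by_cases hy : y ∈ F
  · by_cases ax : ∃ i, φ i = x <;> by_cases ay : ∃ i, φ i = y
    · obtain ⟨i, rfl⟩ := ax
      obtain ⟨j, rfl⟩ := ay
      rw [p1, p1] at e'
      rw [Fin.ext e']
    · obtain ⟨i, rfl⟩ := ax
      have := i.2
      rw [p1, p2 y hy ay] at e'
      omega
    · obtain ⟨i, rfl⟩ := ay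
      have := i.2
      rw [p1, p2 x hx ax] at e'
      omega
    · exact card_le_one.1 p6 x (by simpa [hx] using ax) y (by simpa [hy] using ay)
  · have := p4 x hx
    rw [p3 y hy] at e'
    omega
  · have := p4 y hy
    rw [p3 x hx] at e'
    omega
  · by_contra hne
    rw [p3 x hx, p3 y hy] at e'
    exact h3 x y hx hy hne (by omega)

/-- Take `φ`, `u` from `labels`.  Send `φ i` to `i`, the point of `F` outside the image `F0` of `φ`
(at most one) to `7` and `x ∉ F` to `8 + u x`.  Apply `Cf.unique` with the 7-set `F0` to `cir` and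
`fun S => gcir (S.map ψ)` (`gcir_cf`, `Cf.map`).  For `S` with six points, at most two outside `F0`:
if `S ⊆ F` both hold (`gcir_full`); if exactly one point is outside `F` both fail
(`gcir_closed`); otherwise `S = insert x (insert y W)` with `W ⊆ F0` and `gcir_pair` applies. -/
theorem Cf.embed (h : Cf cir 6 6) (h8 : ∀ U, Full cir 6 U → U.card ≤ 8) {F : Finset α}
    (hF : Full cir 6 F) (hcl : Closed cir F) (h7 : 7 ≤ F.card)
    (h2 : F.card + 2 ≤ Fintype.card α) :
    ∃ ψ : α ↪ Fin 24, ofMask 24 383 ⊆ univ.map ψ ∧ ∀ S, cir S ↔ gcir (S.map ψ) := by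
  obtain ⟨φ, u, a1, a2, ⟨x0, a3, a4⟩, a5⟩ := h.labels h8 hcl h7 h2
  obtain ⟨ψ, b1, b2, b3⟩ := emb_exists (h8 F hF) φ u a1 a2 (fun x y hx hy e => (a5 x y hx hy e).1)
  have b4 : ∀ x, ψ x ∈ ofMask 24 255 ↔ x ∈ F := fun x => by
    rw [emb_255]
    refine ⟨fun hh => ?_, b2 x⟩
    by_contra hx
    rw [b3 x hx] at hh
    omega
  refine ⟨ψ, fun i hi => ?_, h.unique (gcir_cf.map ψ) (F := univ.map φ) (by simp) ?_⟩
  · rcases emb_383 i hi with h1 | h1
    · exact mem_map.2 ⟨φ ⟨i.val, h1⟩, mem_univ _, Fin.ext (b1 _)⟩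
    · exact mem_map.2 ⟨x0, mem_univ _, Fin.ext (by rw [b3 x0 a3, a4, h1])⟩
  intro S hS h1
  have c1 : S \ F ⊆ S \ univ.map φ := sdiff_subset_sdiff subset_rfl (fun x hx => by
    obtain ⟨i, -, rfl⟩ := mem_map.1 hx
    exact a1 i)
  have c2 := card_le_card c1
  have c3 : S.map ψ \ ofMask 24 255 = (S \ F).map ψ := by
    ext i
    simp only [mem_sdiff, mem_map]
    constructor
    · rintro ⟨⟨x, hx, rfl⟩, hh⟩
      exact ⟨x, ⟨hx, fun e => hh ((b4 x).2 e)⟩, rfl⟩
    · rintro ⟨x, hx, rfl⟩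
      exact ⟨⟨x, hx.1, rfl⟩, fun e => hx.2 ((b4 x).1 e)⟩
  obtain c4 | c4 | c4 : (S \ F).card = 0 ∨ (S \ F).card = 1 ∨ (S \ F).card = 2 := by omega
  · rw [card_eq_zero] at c4
    rw [c4, map_empty] at c3
    exact iff_of_true (hF S (sdiff_eq_empty_iff_subset.1 c4) hS)
      (gcir_full _ (sdiff_eq_empty_iff_subset.1 c3) (by rw [card_map, hS]))
  · exact iff_of_false (fun hh => hcl S hh c4)
      (fun hh => gcir_closed _ hh (by rw [c3, card_map, c4]))
  have c5 : S \ F = S \ univ.map φ := eq_of_subset_of_card_le c1 (by omega)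
  obtain ⟨x, y, hxy, e⟩ := card_eq_two.1 c4
  have hx : x ∈ S \ F := by rw [e]; simp
  have hy : y ∈ S \ F := by rw [e]; simp
  rw [mem_sdiff] at hx hy
  obtain ⟨m, hm, em⟩ := exists_ofMask (univ.filter fun i : Fin 7 => φ i ∈ S)
  have d1 : (ofMask 7 m).map φ = S ∩ univ.map φ := by
    ext z
    simp only [em, mem_map, mem_filter, mem_univ, true_and, mem_inter]
    constructor
    · rintro ⟨i, hi, rfl⟩
      exact ⟨hi, i, rfl⟩
    · rintro ⟨hz, i, rfl⟩
      exact ⟨i, hz, rfl⟩
  have d2 : pc 7 m = 4 := by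
    have := card_sdiff_add_card_inter S (univ.map φ)
    rw [← d1, card_map, card_ofMask, ← c5] at this
    omega
  have d3 : S = insert x (insert y ((ofMask 7 m).map φ)) := by
    rw [d1, insert_eq, insert_eq, ← union_assoc, ← insert_eq, ← e, c5, sdiff_union_inter]
  have d4 : ((ofMask 7 m).map φ).map ψ = ofMask 24 m := by
    ext i
    simp only [mem_map, mem_ofMask]
    constructor
    · rintro ⟨_, ⟨j, hj, rfl⟩, rfl⟩
      rwa [b1]
    · intro hi
      have h3 : i.val < 7 := by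
        by_contra hn
        rw [Nat.testBit_lt_two_pow (lt_of_lt_of_le hm
          (Nat.pow_le_pow_right (by norm_num) (by omega)))] at hi
        exact absurd hi (by simp)
      exact ⟨_, ⟨⟨i.val, h3⟩, hi, rfl⟩, Fin.ext (b1 _)⟩
  obtain ⟨f1, f2⟩ := a5 x y hx.2 hy.2 hxy
  have f3 := gcir_pair (u x) (u y) (a2 x) (a2 y) f1 m hm d2
  rw [d3, f2 m hm d2, ← f3, map_insert, map_insert, d4]
  have g1 : ψ x = ⟨8 + u x, by have := a2 x; omega⟩ := Fin.ext (b3 x hx.2)
  have g2 : ψ y = ⟨8 + u y, by have := a2 y; omega⟩ := Fin.ext (b3 y hy.2)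
  rw [g1, g2]

open Classical in
/-- `card_bij` along `S ↦ S.map ψ`. -/
lemma card_filter_map {β : Type} [Fintype β] [DecidableEq β] (ψ : α ↪ β) (g : Finset β → Prop)
    (U : Finset α) :
    (U.powerset.filter (fun S => g (S.map ψ))).card = ((U.map ψ).powerset.filter g).card := by
  refine card_bij (fun S _ => S.map ψ) ?_ ?_ ?_
  · intro S hS
    rw [mem_filter, mem_powerset] at hS ⊢
    exact ⟨map_subset_map.2 hS.1, hS.2⟩
  · intro S _ S' _ e
    exact map_injective ψ e
  · intro T hT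
    rw [mem_filter, mem_powerset, subset_map_iff] at hT
    obtain ⟨⟨S, h1, rfl⟩, h2⟩ := hT
    exact ⟨S, mem_filter.2 ⟨mem_powerset.2 h1, h2⟩, rfl⟩

open Classical in
/-- `matroidal_of_family` for the complements of the circuits (`Cf.elim'`). -/
theorem Cf.matroidal {c ρ : ℕ} (h : Cf cir c ρ) (b v r k lam : ℕ) (hv : Fintype.card α = v)
    (hc : v = k + c) (h1 : 1 ≤ c) (h2 : 2 ≤ k)
    (hl : ∀ x y : α, x ≠ y → (((univ.erase x).erase y).powerset.filter cir).card = lam)
    (hr : r * (k - 1) = lam * (v - 1)) (hb : b * k = r * v) : Matroidal b v r k lam := by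
  refine matroidal_of_family (univ.filter fun H : Finset α => cir Hᶜ) b v r k lam hv (by omega) h2
    ?_ ?_ ?_ hr hb
  · intro H hH
    have e1 := h.card _ (mem_filter.1 hH).2
    have e2 := card_add_card_compl H
    omega
  · intro H1 m1 H2 m2 hne x x1 x2
    obtain ⟨Z, hZ, hs⟩ := h.elim' (mem_filter.1 m1).2 (mem_filter.1 m2).2
      (fun e => hne (compl_injective e)) (mem_compl.2 x1) (mem_compl.2 x2)
    rw [subset_erase] at hs
    refine ⟨Zᶜ, by simpa using hZ, fun z hz => mem_compl.2 fun hh => ?_, mem_compl.2 hs.2⟩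
    have := hs.1 hh
    simp only [mem_union, mem_compl, mem_inter] at this hz
    tauto
  · intro X hX
    obtain ⟨x, y, hxy, rfl⟩ := card_eq_two.1 hX
    rw [← hl x y hxy]
    refine card_bij (fun H _ => Hᶜ) ?_ ?_ ?_
    · intro H hH
      simp only [mem_filter, mem_univ, true_and, insert_subset_iff, singleton_subset_iff] at hH
      refine mem_filter.2 ⟨mem_powerset.2 fun z hz => ?_, hH.1⟩
      rw [mem_compl] at hz
      simp only [mem_erase, mem_univ, and_true]
      exact ⟨fun e => hz (e ▸ hH.2.2), fun e => hz (e ▸ hH.2.1)⟩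
    · intro S _ S' _ e
      exact compl_injective e
    · intro T hT
      rw [mem_filter, mem_powerset] at hT
      refine ⟨Tᶜ, ?_, compl_compl T⟩
      simp only [mem_filter, mem_univ, true_and, insert_subset_iff, singleton_subset_iff,
        compl_compl, mem_compl]
      exact ⟨hT.2, fun e => by simpa using hT.1 e, fun e => by simpa using hT.1 e⟩

/-- `Cf.matroidal` on the subtype of `X`, with `Cf.map` and `card_filter_map`. -/
theorem matroidal_of_gcnt (X : Finset (Fin 24)) (b v r k lam : ℕ) (hv : X.card = v)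
    (hc : v = k + 6) (h2 : 2 ≤ k)
    (hl : ∀ i ∈ X, ∀ j ∈ X, i ≠ j → gcnt ((X.erase i).erase j) = lam)
    (hr : r * (k - 1) = lam * (v - 1)) (hb : b * k = r * v) : Matroidal b v r k lam := by
  refine (gcir_cf.map (Function.Embedding.subtype (· ∈ X))).matroidal b v r k lam
    (by rw [Fintype.card_coe, hv]) hc (by norm_num) h2 (fun x y hxy => ?_) hr hb
  rw [← hl x.1 x.2 y.1 y.2 (fun e => hxy (Subtype.ext e)), gcnt]
  have e : ((univ.erase x).erase y).map (Function.Embedding.subtype (· ∈ X)) =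
      (X.erase x.1).erase y.1 := by
    rw [map_erase, map_erase]
    congr 2
    ext z
    simp
  rw [← e, ← card_filter_map]

/-- `matroidal_of_gcnt`, `gcnt_pairs`, `card_ofMask`. -/
theorem golay_designs : Matroidal 30 10 12 4 4 ∧ Matroidal 66 11 30 5 12 ∧
    Matroidal 132 12 66 6 30 ∧ Matroidal 805 15 483 9 276 ∧ Matroidal 1288 16 805 10 483 ∧
    Matroidal 8568 21 6120 15 4284 ∧ Matroidal 11781 22 8568 16 6120 ∧
    Matroidal 15939 23 11781 17 8568 ∧ Matroidal 21252 24 15939 18 11781 := by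
  have key : ∀ p ∈ [(22238, 4), (87774, 12), (218846, 30), (16776704, 276),
      (16776960, 483), (2097151, 4284), (4194303, 6120), (8388607, 8568), (16777215, 11781)],
      ∀ b v r k : ℕ, pc 24 p.1 = v → v = k + 6 → 2 ≤ k → r * (k - 1) = p.2 * (v - 1) →
        b * k = r * v → Matroidal b v r k p.2 := fun p hp b v r k e1 e2 e3 e4 e5 =>
    matroidal_of_gcnt (ofMask 24 p.1) b v r k p.2 (by rw [card_ofMask, e1]) e2 e3
      (gcnt_pairs p hp) e4 e5
  exact ⟨key (22238, 4) (by simp) _ _ _ _ (by decide) rfl (by norm_num) rfl rfl,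
    key (87774, 12) (by simp) _ _ _ _ (by decide) rfl (by norm_num) rfl rfl,
    key (218846, 30) (by simp) _ _ _ _ (by decide) rfl (by norm_num) rfl rfl,
    key (16776704, 276) (by simp) _ _ _ _ (by decide) rfl (by norm_num) rfl rfl,
    key (16776960, 483) (by simp) _ _ _ _ (by decide) rfl (by norm_num) rfl rfl,
    key (2097151, 4284) (by simp) _ _ _ _ (by decide) rfl (by norm_num) rfl rfl,
    key (4194303, 6120) (by simp) _ _ _ _ (by decide) rfl (by norm_num) rfl rfl,
    key (8388607, 8568) (by simp) _ _ _ _ (by decide) rfl (by norm_num) rfl rfl,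
    key (16777215, 11781) (by simp) _ _ _ _ (by decide) rfl (by norm_num) rfl rfl⟩

end Pool.Agent.MP_337c4e_co

end

section

/-! The case `v - k = 6`. -/

set_option linter.unusedSectionVars false
set_option linter.unusedVariables false

namespace Pool.Agent.MP_337c4e_co

open Finset RkFn

namespace IsDes

variable {α : Type} [Fintype α] [DecidableEq α] {R : RkFn α} {b v r k lam : ℕ}

open Classical in
lemma card_cir_erase (h : IsDes R b v r k lam) (x : α) :
    ((univ.erase x).powerset.filter (fun C : Finset α => Cᶜ ∈ R.hyp)).card = r := by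
  rw [← h.hr x, deg]
  refine card_bij (fun C _ => Cᶜ) ?_ ?_ ?_
  · intro C hC
    simp only [mem_filter, mem_powerset] at hC ⊢
    refine ⟨hC.2, singleton_subset_iff.2 (mem_compl.2 fun hx => ?_)⟩
    simpa using hC.1 hx
  · intro C _ C' _ e
    exact compl_injective e
  · intro H hH
    simp only [mem_filter, singleton_subset_iff] at hH
    refine ⟨Hᶜ, ?_, compl_compl H⟩
    simp only [mem_filter, mem_powerset, compl_compl]
    refine ⟨fun y hy => mem_erase.2 ⟨?_, mem_univ _⟩, hH.1⟩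
    rintro rfl
    exact mem_compl.1 hy hH.2

/-- `v ≥ 10` by `four_le_rank`; some 6-set is not a circuit, so `Cf.card_le_two_mul` gives
`v ≤ 12`, and `Cf.count` for `univ` gives `b * (v - 6) = v.choose 7`. -/
lemma six_none (h : IsDes R b v r k lam) (hb : v < b) (hl : 2 ≤ lam) (hc : v = k + 6)
    (hn : R.rk univ = k)
    (hf : ∀ W : Finset α, W.card = 7 → ¬ Full (fun C => Cᶜ ∈ R.hyp) 6 W) :
    (v, b) ∈ [(10, 30), (11, 66), (12, 132)] := by
  classical
  have h4 := h.four_le_rank hb hl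
  have hcf : Cf (fun C => Cᶜ ∈ R.hyp) 6 6 := h.cf hb hc (by omega)
  have hv := h.hv
  obtain ⟨W, -, hW⟩ : ∃ W : Finset α, W ⊆ univ ∧ W.card = 7 :=
    exists_subset_card_eq (by rw [card_univ]; omega)
  have h1 := hf W hW
  unfold Full at h1
  push Not at h1
  obtain ⟨T, -, hT, hT'⟩ := h1
  have h2 := hcf.card_le_two_mul (by norm_num) hT hT' hf
  have h3 := hcf.count (by norm_num) univ
  have h5 : ∀ {inst : DecidablePred (Full (fun C : Finset α => Cᶜ ∈ R.hyp) 6)},
      (@filter _ (Full (fun C : Finset α => Cᶜ ∈ R.hyp) 6) inst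
        (powersetCard (6 + 1) univ)).card = 0 := by
    intro inst
    rw [card_eq_zero, filter_eq_empty_iff]
    intro U hU
    exact hf U (mem_powersetCard.1 hU).2
  rw [h5, powerset_univ, card_univ, hv] at h3
  have h6 : b * (v - 6) = v.choose 7 := by
    rw [← h.card_cir]
    convert h3 using 3
    · exact filter_congr_decidable _ _ _ |>.symm
    · rfl
  have h7 : v = 10 ∨ v = 11 ∨ v = 12 := by omega
  rcases h7 with rfl | rfl | rfl
  · have : Nat.choose 10 7 = 120 := by decide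
    have : b = 30 := by omega
    simp [this]
  · have : Nat.choose 11 7 = 330 := by decide
    have : b = 66 := by omega
    simp [this]
  · have : Nat.choose 12 7 = 792 := by decide
    have : b = 132 := by omega
    simp [this]

/-- `exists_closed`, `full_le` (full sets have at most eight points), `Cf.embed`, and `gcnt_cases`
for `X = univ.map ψ` with `card_filter_map`, `card_cir`, `card_cir_erase`, `eq_bk`, `eq_rk`. -/
lemma six_full (h : IsDes R b v r k lam) (hb : v < b) (hl : 2 ≤ lam) (hc : v = k + 6)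
    (hn : R.rk univ = k) (hk : b ≠ v.choose k) {W : Finset α} (hW : W.card = 7)
    (hf : Full (fun C => Cᶜ ∈ R.hyp) 6 W) :
    (v, b) ∈ [(15, 805), (16, 1288), (21, 8568), (22, 11781), (23, 15939), (24, 21252)] := by
  classical
  have h4 := h.four_le_rank hb hl
  have hcf : Cf (fun C => Cᶜ ∈ R.hyp) 6 6 := h.cf hb hc (by omega)
  have hv := h.hv
  obtain ⟨F, hWF, hF, hcl⟩ := hcf.exists_closed hf
  have h8 : ∀ U, Full (fun C : Finset α => Cᶜ ∈ R.hyp) 6 U → U.card ≤ 8 := by
    intro U hU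
    by_cases h6 : 6 ≤ U.card + 1
    · have := h.full_le hb hc hk hU h6
      omega
    · omega
  have h7 : 7 ≤ F.card := hW ▸ card_le_card hWF
  have h9 := h8 F hF
  obtain ⟨ψ, hψ, hiff⟩ := hcf.embed h8 hF hcl h7 (by omega)
  have hX : (univ.map ψ).card = v := by rw [card_map, card_univ, hv]
  have h0 : (0 : Fin 24) ∈ univ.map ψ := hψ (by decide)
  obtain ⟨x, -, hx⟩ := mem_map.1 h0
  have e1 : gcnt (univ.map ψ) = b := by
    rw [gcnt, ← h.card_cir]
    have := card_filter_map ψ gcir univ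
    rw [powerset_univ] at this
    convert this.symm using 2
    ext S
    simp only [mem_filter, mem_univ, true_and]
    exact hiff S
  have e2 : gcnt ((univ.map ψ).erase 0) = r := by
    rw [gcnt, ← h.card_cir_erase x, ← hx, ← map_erase]
    have := card_filter_map ψ gcir (univ.erase x)
    convert this.symm using 2
    ext S
    simp only [mem_filter]
    exact and_congr_right fun _ => hiff S
  have key := gcnt_cases (univ.map ψ) hψ (k := k) (lam := lam) (by omega)
    (by rw [e1, e2, hX]; exact h.eq_bk) (by rw [e2, hX]; exact h.eq_rk x)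
  rwa [e1, hX] at key

/-- `coline_d`, `theta_case`, `small_d`, `rank_le`, `complete_of_rank`, `six_none`, `six_full`. -/
theorem six_case (h : IsDes R b v r k lam) (hb : v < b) (hl : 2 ≤ lam) (hc : v = k + 6) :
    b = v.choose k ∨ (v, b) ∈ [(10, 30), (11, 66), (12, 132), (13, 78), (15, 805), (16, 1288),
      (21, 8568), (22, 11781), (23, 15939), (24, 21252)] := by
  by_cases h3 : ∃ L, R.Flat L ∧ R.rk L + 2 = R.rk univ ∧ L.card + 3 = k
  · obtain ⟨L, hL, hr, h3⟩ := h3
    obtain ⟨rfl, rfl⟩ := h.theta_case hb hl hc hL hr h3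
    right
    simp
  have hd : ∀ L, R.Flat L → R.rk L + 2 = R.rk univ → k ≤ L.card + 2 := by
    intro L hL hr
    obtain ⟨d, -, h1, -, h2, -⟩ := h.coline_d hb hc hL hr
    by_contra hlt
    exact h3 ⟨L, hL, hr, by omega⟩
  have h1 := h.small_d hb (by omega) hc (by norm_num) hd
  have h2 := h.rank_le hb
  by_cases hk : b = v.choose k
  · exact Or.inl hk
  right
  have hn : R.rk univ = k := by
    by_contra hne
    exact hk (h.complete_of_rank hb (by omega))
  by_cases hf : ∃ W : Finset α, W.card = 7 ∧ Full (fun C => Cᶜ ∈ R.hyp) 6 W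
  · obtain ⟨W, hW, hf⟩ := hf
    have := h.six_full hb hl hc hn hk hW hf
    simp only [List.mem_cons, List.not_mem_nil, or_false] at this ⊢
    tauto
  · have := h.six_none hb hl hc hn (fun W hW hF => hf ⟨W, hW, hF⟩)
    simp only [List.mem_cons, List.not_mem_nil, or_false] at this ⊢
    tauto

end IsDes

end Pool.Agent.MP_337c4e_co

end
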