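import Pool.Agent.MP_337c4e_co.CoF
import Pool.Agent.MP_337c4e_co.ExA

namespace Pool.Agent.Results.MP_337c4e_co.CoSize

open Pool.Agent.MP_337c4e_co

/-- The non-symmetric matroidal parameter sets with `lam ≥ 2` for which `v - k` is at most nine,
a prime or the square of a prime. -/
theorem result (b v r k lam : ℕ) (hb : v < b) (hl : 2 ≤ lam)
    (hc : v - k ≤ 9 ∨ (v - k).Prime ∨ ∃ p : ℕ, p.Prime ∧ v - k = p ^ 2) :
    Matroidal b v r k lam ↔
      (b = v.choose k ∧ r = (v - 1).choose (k - 1) ∧ lam = (v - 2).choose (k - 2)) ∨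
      (b, v, r, k, lam) ∈
        [(14, 8, 7, 4, 3), (30, 10, 12, 4, 4), (66, 11, 30, 5, 12), (132, 12, 66, 6, 30),
         (78, 13, 42, 7, 21), (805, 15, 483, 9, 276), (1288, 16, 805, 10, 483),
         (8568, 21, 6120, 15, 4284), (11781, 22, 8568, 16, 6120), (15939, 23, 11781, 17, 8568),
         (21252, 24, 15939, 18, 11781), (30, 16, 15, 8, 7)] := by
  constructor
  · intro h
    obtain ⟨α, _, _, R, hR⟩ := h.exists_des
    have h1 := hR.k_lt hb
    have hl1 : 1 ≤ lam := by omega
    by_cases hk : b = v.choose k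
    · exact Or.inl ⟨hk, hR.complete_params hb hl1 hk⟩
    right
    obtain ⟨x, -, -⟩ := hR.exists_pair hb
    have e1 := hR.eq_bk
    have e2 := hR.eq_rk x
    have pr : ∀ c : ℕ, c.Prime → v ≠ k + c := fun c hp e => hk (hR.prime_case hb hl1 e hp)
    have key : (v = k + 4 ∧ v = 8 ∧ b = 14) ∨ v = k + 6 ∨ v = k + 8 := by
      have sq : ∀ p : ℕ, p.Prime → v = k + p ^ 2 → v = k + 4 ∧ v = 8 ∧ b = 14 := by
        intro p hp e
        obtain ⟨rfl, h2, h3⟩ := (hR.sq_case hb hl1 hp e).resolve_left hk
        exact ⟨e, h2, h3⟩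
      rcases hc with hc | hc | ⟨p, hp, hc⟩
      · have p2 := pr 2 Nat.prime_two
        have p3 := pr 3 Nat.prime_three
        have p5 := pr 5 Nat.prime_five
        have p7 := pr 7 (by norm_num)
        have s2 := sq 2 Nat.prime_two
        have s3 := sq 3 Nat.prime_three
        omega
      · exact absurd (by omega) (pr _ hc)
      · exact Or.inl (sq p hp (by omega))
    have er : r = b * k / v := by rw [e1, Nat.mul_div_cancel _ (by omega)]
    have el : lam = b * k / v * (k - 1) / (v - 1) := by
      rw [← er, e2, Nat.mul_div_cancel _ (by omega)]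
    rw [el, er]
    rcases key with ⟨h2, h3, h4⟩ | h2 | h2
    · rw [show k = 4 by omega, h3, h4]
      decide
    · have h3 := (hR.six_case hb hl h2).resolve_left hk
      simp only [List.mem_cons, Prod.mk.injEq, List.not_mem_nil, or_false] at h3
      rw [show k = v - 6 by omega]
      rcases h3 with h | h | h | h | h | h | h | h | h | h <;> rw [h.1, h.2] <;> decide
    · obtain ⟨h3, h4⟩ := (hR.eight_case hb hl h2).resolve_left hk
      rw [show k = 8 by omega, h3, h4]
      decide
  · rintro (⟨rfl, rfl, rfl⟩ | h)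
    · apply matroidal_complete
      · by_contra h
        rw [show k - 2 = 0 by omega, Nat.choose_zero_right] at hl
        omega
      · by_contra h
        rcases Nat.lt_or_ge (v - 2) (k - 2) with h1 | h1
        · rw [Nat.choose_eq_zero_of_lt h1] at hl; omega
        · rw [show v - 2 = k - 2 by omega, Nat.choose_self] at hl; omega
    · obtain ⟨g1, g2, g3, g4, g5, g6, g7, g8, g9⟩ := golay_designs
      simp only [List.mem_cons, Prod.mk.injEq, List.not_mem_nil, or_false] at h
      rcases h with h | h | h | h | h | h | h | h | h | h | h | h <;>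
        obtain ⟨rfl, rfl, rfl, rfl, rfl⟩ := h
      exacts [mat_14_8, g1, g2, g3, mat_78_13, g4, g5, g6, g7, g8, g9, mat_30_16]

end Pool.Agent.Results.MP_337c4e_co.CoSize
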