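import Mathlib

namespace Pool.Agent.MP_337c4e_co

/-- `H` is a hyperplane of `M`: a flat whose rank is one less than the rank of `M`. -/
def IsHyperplane {α : Type} (M : Matroid α) (H : Set α) : Prop :=
  M.IsFlat H ∧ M.eRk H + 1 = M.eRank

/-- `M` is a matroid on the whole finite type `α` whose hyperplanes are the blocks of a
BIBD with parameters `(b, v, r, k, lam)`. -/
def IsMatroidDesign {α : Type} [Fintype α] (M : Matroid α) (b v r k lam : ℕ) : Prop :=
  M.E = Set.univ ∧
  Fintype.card α = v ∧
  {H : Set α | IsHyperplane M H}.ncard = b ∧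
  (∀ H : Set α, IsHyperplane M H → H.ncard = k) ∧
  (∀ x : α, {H : Set α | IsHyperplane M H ∧ x ∈ H}.ncard = r) ∧
  (∀ x y : α, x ≠ y → {H : Set α | IsHyperplane M H ∧ x ∈ H ∧ y ∈ H}.ncard = lam)

/-- The parameter set `(b, v, r, k, lam)` is matroidal: some matroid design has it. -/
def Matroidal (b v r k lam : ℕ) : Prop :=
  ∃ (α : Type) (_ : Fintype α) (M : Matroid α), IsMatroidDesign M b v r k lam

/-- A perfect matroid design: any two flats of the same rank have the same number of elements. -/
def IsPerfect {α : Type} (M : Matroid α) : Prop :=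
  ∀ F G : Set α, M.IsFlat F → M.IsFlat G → M.eRk F = M.eRk G → F.ncard = G.ncard

end Pool.Agent.MP_337c4e_co
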