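import Mathlib

set_option linter.unusedSectionVars false
set_option linter.unusedVariables false

namespace Pool.Agent.MP_337c4e_co

open Finset

/-- existence and uniqueness of parallels in an affine plane of order three -/
theorem playfair_three {β : Type} [DecidableEq β] (P : Finset β) (𝓛 : Finset (Finset β))
    (hP : P.card = 9) (hL : ∀ l ∈ 𝓛, l ⊆ P ∧ l.card = 3)
    (hex : ∀ x ∈ P, ∀ y ∈ P, x ≠ y → ∃ l ∈ 𝓛, x ∈ l ∧ y ∈ l)
    (hun : ∀ x y, x ≠ y → ∀ l ∈ 𝓛, ∀ m ∈ 𝓛, x ∈ l → y ∈ l → x ∈ m → y ∈ m → l = m) :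
    ∀ x ∈ P, ∀ m ∈ 𝓛, x ∉ m → (𝓛.filter (fun l => x ∈ l ∧ ¬ (l ∩ m).Nonempty)).card = 1 := by
  classical
  have count : ∀ x ∈ P, ∀ (A : Finset β) (c : ℕ), A ⊆ P → x ∉ A →
      (∀ l ∈ 𝓛, x ∈ l → (l ∩ A).Nonempty → (l ∩ A).card = c) →
      (𝓛.filter (fun l => x ∈ l ∧ (l ∩ A).Nonempty)).card * c = A.card := by
    intro x hx A c hA hxA hc
    have h1 : A = (𝓛.filter (fun l => x ∈ l ∧ (l ∩ A).Nonempty)).biUnion (fun l => l ∩ A) := by
      ext y
      simp only [mem_biUnion, mem_filter, mem_inter]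
      constructor
      · intro hy
        obtain ⟨l, hl, h1, h2⟩ := hex x hx y (hA hy) (fun h => hxA (h ▸ hy))
        exact ⟨l, ⟨hl, h1, ⟨y, mem_inter.2 ⟨h2, hy⟩⟩⟩, h2, hy⟩
      · rintro ⟨l, -, -, h⟩; exact h
    conv_rhs => rw [h1]
    rw [card_biUnion, sum_congr rfl (g := fun _ => c)]
    · simp
    · intro l hl
      rw [mem_filter] at hl
      exact hc l hl.1 hl.2.1 hl.2.2
    · intro l hl m hm hlm
      simp only [coe_filter, Set.mem_ofPred_eq] at hl hm
      rw [Function.onFun, disjoint_left]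
      intro y h1 h2
      rw [mem_inter] at h1 h2
      exact hlm (hun x y (fun h => hxA (h ▸ h1.2)) l hl.1 m hm.1 hl.2.1 h1.1 hm.2.1 h2.1)
  have four : ∀ x ∈ P, (𝓛.filter (fun l => x ∈ l)).card = 4 := by
    intro x hx
    have hc : ∀ l ∈ 𝓛, x ∈ l → (l ∩ P.erase x).card = 2 := by
      intro l hl hxl
      have : l ∩ P.erase x = l.erase x := by
        ext y; simp only [mem_inter, mem_erase]
        constructor
        · tauto
        · rintro ⟨h1, h2⟩; exact ⟨h2, h1, (hL l hl).1 h2⟩
      rw [this, card_erase_of_mem hxl, (hL l hl).2]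
    have h1 := count x hx (P.erase x) 2 (erase_subset _ _) (notMem_erase _ _)
      (fun l hl hxl _ => hc l hl hxl)
    rw [card_erase_of_mem hx, hP] at h1
    have h2 : 𝓛.filter (fun l => x ∈ l ∧ (l ∩ P.erase x).Nonempty) = 𝓛.filter (fun l => x ∈ l) := by
      apply filter_congr
      intro l hl
      refine ⟨fun h => h.1, fun h => ⟨h, card_pos.1 ?_⟩⟩
      rw [hc l hl h]; omega
    rw [h2] at h1
    omega
  intro x hx m hm hxm
  have h1 := count x hx m 1 (hL m hm).1 hxm (by
    intro l hl hxl hne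
    obtain ⟨y, hy⟩ := hne
    rw [card_eq_one]
    refine ⟨y, eq_singleton_iff_unique_mem.2 ⟨hy, ?_⟩⟩
    intro z hz
    by_contra hzy
    rw [mem_inter] at hy hz
    exact hxm ((hun z y hzy l hl m hm hz.1 hy.1 hz.2 hy.2) ▸ hxl))
  rw [(hL m hm).2, mul_one] at h1
  have h2 := card_filter_add_card_filter_not (s := 𝓛.filter (fun l => x ∈ l))
    (fun l => (l ∩ m).Nonempty)
  rw [four x hx, filter_filter, filter_filter, h1] at h2
  omega

lemma nine_dvd_card {α : Type} [DecidableEq α] (f g : α → α) (X : Finset α)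
    (hf : ∀ x ∈ X, f x ∈ X) (hg : ∀ x ∈ X, g x ∈ X) (hc : ∀ x ∈ X, g (f x) = f (g x))
    (f3 : ∀ x ∈ X, f (f (f x)) = x) (g3 : ∀ x ∈ X, g (g (g x)) = x)
    (free : ∀ x ∈ X, f x ≠ x ∧ g x ≠ x ∧ f (g x) ≠ x ∧ f (g (g x)) ≠ x) : 9 ∣ X.card := by
  induction X using Finset.strongInduction with
  | H X ih =>
    rcases X.eq_empty_or_nonempty with rfl | ⟨x, hx⟩
    · simp
    · let act : Fin 3 × Fin 3 → α → α := fun u y => f^[u.1.val] (g^[u.2.val] y)
      have hact : ∀ u, ∀ y ∈ X, act u y ∈ X := by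
        rintro ⟨i, j⟩ y hy
        have m1 := hg y hy
        have m2 := hg _ m1
        fin_cases i <;> fin_cases j <;> simp [act, hf, hy, m1, m2]
      have hF : ∀ u, ∀ y ∈ X, f (act u y) = act ((1, 0) + u) y := by
        rintro ⟨i, j⟩ y hy
        have m1 := hg y hy
        have m2 := hg _ m1
        fin_cases i <;> fin_cases j <;> simp [act, f3, hy, m1, m2]
      have hG : ∀ u, ∀ y ∈ X, g (act u y) = act ((0, 1) + u) y := by
        rintro ⟨i, j⟩ y hy
        have m1 := hg y hy
        have m2 := hg _ m1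
        fin_cases i <;> fin_cases j <;> simp [act, g3, hc, hf, hy, m1, m2]
      have hadd : ∀ u w, ∀ y ∈ X, act u (act w y) = act (u + w) y := by
        rintro ⟨i, j⟩ w y hy
        have e : ∀ z, act (i, j) z = f^[i.val] (g^[j.val] z) := fun z => rfl
        rw [e]
        fin_cases i <;> fin_cases j <;>
          simp only [Fin.zero_eta, Fin.mk_one, Fin.reduceFinMk, Fin.isValue,
            Function.iterate_succ, Function.iterate_zero,
            Function.comp_apply, id_eq, hF _ y hy, hG _ y hy, ← add_assoc] <;> congr 1 <;>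
          simp [Prod.ext_iff]
      have hfree : ∀ u, ∀ y ∈ X, act u y = y → u = 0 := by
        rintro ⟨i, j⟩ y hy h
        obtain ⟨h1, h2, h3, h4⟩ := free y hy
        have k1 : f (f y) ≠ y := fun h => h1 (by have := f3 y hy; rwa [h] at this)
        have k2 : g (g y) ≠ y := fun h => h2 (by have := g3 y hy; rwa [h] at this)
        have k3 : f (f (g y)) ≠ y := by
          intro h
          have e1 : f y = g y := by
            have := f3 (g y) (hg y hy); rwa [h] at this
          apply h4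
          rw [← hc (g y) (hg y hy), ← hc y hy, e1, g3 y hy]
        have k4 : f (f (g (g y))) ≠ y := by
          intro h
          have e1 : f y = g (g y) := by
            have := f3 (g (g y)) (hg _ (hg y hy)); rwa [h] at this
          apply h3
          rw [← hc y hy, e1, g3 y hy]
        fin_cases i <;> fin_cases j <;> simp [act, h1, h2, h3, h4, k1, k2, k3, k4] at h ⊢
      let O := (univ : Finset (Fin 3 × Fin 3)).image (fun u => act u x)
      have hO : O.card = 9 := by
        rw [card_image_of_injective]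
        · simp
        · intro u w h
          have h1 : act (u - w) (act w x) = act w x := by
            rw [hadd _ _ x hx, sub_add_cancel]; exact h
          exact sub_eq_zero.1 (hfree _ _ (hact w x hx) h1)
      have hOX : O ⊆ X := by
        intro y hy
        obtain ⟨u, -, rfl⟩ := mem_image.1 hy
        exact hact u x hx
      have hOf : ∀ y ∈ O, f y ∈ O := by
        intro y hy
        obtain ⟨u, -, rfl⟩ := mem_image.1 hy
        exact mem_image.2 ⟨_, mem_univ _, (hF u x hx).symm⟩
      have hOg : ∀ y ∈ O, g y ∈ O := by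
        intro y hy
        obtain ⟨u, -, rfl⟩ := mem_image.1 hy
        exact mem_image.2 ⟨_, mem_univ _, (hG u x hx).symm⟩
      have hss : X \ O ⊂ X := sdiff_ssubset hOX (card_pos.1 (by omega))
      have := ih (X \ O) hss ?_ ?_ (fun y hy => hc y (mem_sdiff.1 hy).1)
        (fun y hy => f3 y (mem_sdiff.1 hy).1) (fun y hy => g3 y (mem_sdiff.1 hy).1)
        (fun y hy => free y (mem_sdiff.1 hy).1)
      · have e := card_sdiff_add_card_eq_card hOX
        omega
      · intro y hy
        rw [mem_sdiff] at hy ⊢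
        refine ⟨hf y hy.1, fun h => hy.2 ?_⟩
        rw [← f3 y hy.1]; exact hOf _ (hOf _ h)
      · intro y hy
        rw [mem_sdiff] at hy ⊢
        refine ⟨hg y hy.1, fun h => hy.2 ?_⟩
        rw [← g3 y hy.1]; exact hOg _ (hOg _ h)

lemma heis {G : Type} [Group G] (s t : G) (hs : s * s * s = 1) (ht : t * t * t = 1)
    (h1 : s * t * (s * t) * (s * t) = 1) (h2 : s * t⁻¹ * (s * t⁻¹) * (s * t⁻¹) = 1) :
    s * (t * s * t⁻¹) = (t * s * t⁻¹) * s ∧ t * (s * t * s⁻¹) = (s * t * s⁻¹) * t := by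
  have a1 : s * t * s = t⁻¹ * s⁻¹ * t⁻¹ := by
    calc s * t * s = (s * t * (s * t) * (s * t)) * (t⁻¹ * s⁻¹ * t⁻¹) := by group
      _ = _ := by rw [h1, one_mul]
  have a2 : s * t⁻¹ * s = t * s⁻¹ * t := by
    calc s * t⁻¹ * s = (s * t⁻¹ * (s * t⁻¹) * (s * t⁻¹)) * (t * s⁻¹ * t) := by group
      _ = _ := by rw [h2, one_mul]
  have a3 : t * s * t = s⁻¹ * t⁻¹ * s⁻¹ := by
    calc t * s * t = s⁻¹ * (s * t * (s * t) * (s * t)) * (t⁻¹ * s⁻¹) := by group
      _ = _ := by rw [h1]; group
  have t2 : t⁻¹ * t⁻¹ = t := by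
    calc t⁻¹ * t⁻¹ = t⁻¹ * t⁻¹ * (t * t * t) := by rw [ht, mul_one]
      _ = t := by group
  have t3 : t * t = t⁻¹ := by
    calc t * t = (t * t * t) * t⁻¹ := by group
      _ = _ := by rw [ht, one_mul]
  have s2 : s⁻¹ * s⁻¹ = s := by
    calc s⁻¹ * s⁻¹ = s⁻¹ * s⁻¹ * (s * s * s) := by rw [hs, mul_one]
      _ = s := by group
  have s3 : s * s = s⁻¹ := by
    calc s * s = (s * s * s) * s⁻¹ := by group
      _ = _ := by rw [hs, one_mul]
  constructor
  · calc s * (t * s * t⁻¹) = (s * t * s) * t⁻¹ := by group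
      _ = t⁻¹ * s⁻¹ * (t⁻¹ * t⁻¹) := by rw [a1]; group
      _ = (t * t) * s⁻¹ * t := by rw [t2, t3]
      _ = t * (t * s⁻¹ * t) := by group
      _ = _ := by rw [← a2]; group
  · calc t * (s * t * s⁻¹) = (t * s * t) * s⁻¹ := by group
      _ = s⁻¹ * t⁻¹ * (s⁻¹ * s⁻¹) := by rw [a3]; group
      _ = (s * s) * t⁻¹ * s := by rw [s2, s3]
      _ = s * (s * t⁻¹ * s) := by group
      _ = _ := by rw [a2]; group

/-- the order of a non-trivial Hall triple system is divisible by nine -/
theorem hall_nine {α : Type} [Fintype α] [DecidableEq α] (op : α → α → α)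
    (hcomm : ∀ x y, op x y = op y x) (hinv : ∀ x y, op x (op x y) = y)
    (hdist : ∀ x y z, op x (op y z) = op (op x y) (op x z))
    (a b c : α) (hab : a ≠ b) (hac : a ≠ c) (hbc : b ≠ c) (habc : c ≠ op a b) :
    9 ∣ Fintype.card α := by
  let τ : α → Equiv.Perm α := fun x => ⟨op x, op x, hinv x, hinv x⟩
  have τa : ∀ x y, τ x y = op x y := fun x y => rfl
  have τ2 : ∀ x, τ x * τ x = 1 := fun x => Equiv.ext (hinv x)
  have τi : ∀ x, (τ x)⁻¹ = τ x := fun x => inv_eq_of_mul_eq_one_left (τ2 x)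
  have τc : ∀ x y, τ x * τ y * τ x = τ (op x y) := by
    intro x y
    ext w
    simp only [Equiv.Perm.mul_apply, τa]
    rw [hdist, hinv]
  have τ3 : ∀ x y, τ x * τ y * (τ x * τ y) * (τ x * τ y) = 1 := by
    intro x y
    calc τ x * τ y * (τ x * τ y) * (τ x * τ y) = (τ x * τ y * τ x) * (τ y * τ x * τ y) := by group
      _ = 1 := by rw [τc, τc, hcomm x y, τ2]
  have τf : ∀ x y w, x ≠ y → (τ x * τ y) w ≠ w := by
    intro x y w hxy h
    apply hxy
    simp only [Equiv.Perm.mul_apply, τa] at h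
    have h1 : op y w = op x w := by rw [← hinv x (op y w), h]
    rw [← hinv w x, ← hinv w y, hcomm w x, hcomm w y, h1]
  have conj : ∀ (p q : Equiv.Perm α), (∀ w, p w ≠ w) → ∀ w, (q * p * q⁻¹) w ≠ w := by
    intro p q hp w h
    apply hp (q⁻¹ w)
    simp only [Equiv.Perm.mul_apply] at h
    rw [← Equiv.Perm.eq_inv_iff_eq] at h
    exact h
  set s := τ b * τ a with hs
  set t := τ c * τ a with ht
  have e1 : s * t = τ b * τ (op a c) := by rw [← τc, hs, ht]; group
  have e2 : s * t⁻¹ = τ b * τ c := by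
    rw [hs, ht, mul_inv_rev, τi, τi]
    calc τ b * τ a * (τ a * τ c) = τ b * (τ a * τ a) * τ c := by group
      _ = _ := by rw [τ2, mul_one]
  have hs3 : s * s * s = 1 := τ3 b a
  have ht3 : t * t * t = 1 := τ3 c a
  obtain ⟨c1, c2⟩ := heis s t hs3 ht3 (by rw [e1]; exact τ3 _ _) (by rw [e2]; exact τ3 _ _)
  have t3 : t * t = t⁻¹ := by
    calc t * t = (t * t * t) * t⁻¹ := by group
      _ = _ := by rw [ht3, one_mul]
  set z := s * t * s⁻¹ * t⁻¹ with hz
  have zs : s * z = z * s := by
    have h1 : Commute s (t * s * t⁻¹) := c1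
    have h2 : z = s * (t * s * t⁻¹)⁻¹ := by rw [hz]; group
    rw [h2]
    exact ((Commute.refl s).mul_right h1.inv_right).eq
  have zt : t * z = z * t := by
    have h1 : Commute t (s * t * s⁻¹) := c2
    exact (h1.mul_right (Commute.refl t).inv_right).eq
  have z3 : z * z * z = 1 := by
    have h1 : Commute s (t * s * t⁻¹)⁻¹ := Commute.inv_right c1
    have h2 : z = s * (t * s * t⁻¹)⁻¹ := by rw [hz]; group
    have h3 : z ^ 3 = s ^ 3 * ((t * s * t⁻¹)⁻¹) ^ 3 := by rw [h2, h1.mul_pow]
    have h4 : ((t * s * t⁻¹)⁻¹) ^ 3 = (t * (s * s * s) * t⁻¹)⁻¹ := by rw [pow_three]; group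
    rw [h4, pow_three' s, hs3, pow_three'] at h3
    simpa using h3
  have hbac : b ≠ op a c := fun h => habc (by rw [h, hinv])
  have fs : ∀ w, s w ≠ w := fun w => τf b a w hab.symm
  have ft : ∀ w, t w ≠ w := fun w => τf c a w hac.symm
  have fst : ∀ w, (s * t) w ≠ w := fun w => e1 ▸ τf _ _ w hbac
  have fstt : ∀ w, (s * (t * t)) w ≠ w := fun w => by rw [t3, e2]; exact τf _ _ w hbc
  have zi : z * z = z⁻¹ := by
    calc z * z = (z * z * z) * z⁻¹ := by group
      _ = _ := by rw [z3, one_mul]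
  have e3 : t * s * t⁻¹ = s * (z * z) := by
    have h1 : Commute s z := zs
    rw [zi, h1.inv_right.eq, hz]; group
  have e4 : t * (t * s * t⁻¹) * t⁻¹ = s * z := by
    have h1 : Commute t z := zt
    calc t * (t * s * t⁻¹) * t⁻¹ = t * (s * (z * z)) * t⁻¹ := by rw [e3]
      _ = t * s * t⁻¹ * (t * (z * z) * t⁻¹) := by group
      _ = s * (z * z) * (z * z) := by rw [e3, (h1.mul_right h1).eq]; group
      _ = s * (z * z * z) * z := by group
      _ = _ := by rw [z3, mul_one]
  have fszz : ∀ w, (s * (z * z)) w ≠ w := e3 ▸ conj s t fs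
  have fsz : ∀ w, (s * z) w ≠ w := e4 ▸ conj _ t (conj s t fs)
  have ap : ∀ {p q : Equiv.Perm α}, p = q → ∀ w, p w = q w := fun h w => by rw [h]
  have d1 : 9 ∣ (univ.filter (fun w => z w = w)).card := by
    apply nine_dvd_card s t
    · intro x hx
      simp only [mem_filter, mem_univ, true_and] at hx ⊢
      have := ap zs x
      simp only [Equiv.Perm.mul_apply] at this
      rw [← this, hx]
    · intro x hx
      simp only [mem_filter, mem_univ, true_and] at hx ⊢
      have := ap zt x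
      simp only [Equiv.Perm.mul_apply] at this
      rw [← this, hx]
    · intro x hx
      simp only [mem_filter, mem_univ, true_and] at hx
      have h1 : s * t = t * s * z := by
        have h2 : Commute z (t * s) := (Commute.mul_right zt.symm zs.symm)
        rw [← h2.eq, hz]; group
      have := ap h1 x
      simp only [Equiv.Perm.mul_apply] at this
      rw [this, hx]
    · intro x _; exact ap hs3 x
    · intro x _; exact ap ht3 x
    · intro x _; exact ⟨fs x, ft x, fst x, fstt x⟩
  have d2 : 9 ∣ (univ.filter (fun w => ¬ z w = w)).card := by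
    apply nine_dvd_card s z
    · intro x hx
      simp only [mem_filter, mem_univ, true_and] at hx ⊢
      have := ap zs x
      simp only [Equiv.Perm.mul_apply] at this
      rw [← this]
      intro h; exact hx (s.injective h)
    · intro x hx
      simp only [mem_filter, mem_univ, true_and] at hx ⊢
      intro h; exact hx (z.injective h)
    · intro x _; exact (ap zs x).symm
    · intro x _; exact ap hs3 x
    · intro x _; exact ap z3 x
    · intro x hx
      simp only [mem_filter, mem_univ, true_and] at hx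
      exact ⟨fs x, hx, fsz x, fszz x⟩
  rw [← card_univ, ← card_filter_add_card_filter_not (fun w => z w = w)]
  exact dvd_add d1 d2

end Pool.Agent.MP_337c4e_co
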