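import Mathlib

set_option linter.unusedSectionVars false
set_option linter.unusedVariables false

namespace Pool.Agent.MP_337c4e_co

open Finset

lemma cancel_squares (n : ℕ) (L : Fin n → (Fin (n + 1) → ℚ) →ₗ[ℚ] ℚ) :
    ∃ y : Fin (n + 1) → ℚ, y (Fin.last n) = 1 ∧ ∀ i, (L i y) ^ 2 = (y i.castSucc) ^ 2 := by
  induction n with
  | zero => exact ⟨fun _ => 1, rfl, fun i => i.elim0⟩
  | succ n ih =>
    let s0 : (Fin (n + 1) → ℚ) →ₗ[ℚ] (Fin (n + 2) → ℚ) :=
      LinearMap.pi (fun i => Fin.cases 0 (fun j => LinearMap.proj j) i)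
    let a : ℚ := L 0 (Pi.single 0 1)
    let c : ℚ := if a = 1 then -1 / 2 else 1 / (1 - a)
    let s : (Fin (n + 1) → ℚ) →ₗ[ℚ] (Fin (n + 2) → ℚ) :=
      s0 + (c • ((L 0).comp s0)).smulRight (Pi.single 0 1)
    obtain ⟨y, hy1, hy2⟩ := ih (fun i => (L i.succ).comp s)
    have hs0 : ∀ j : Fin (n + 1), s y j.succ = y j := by
      intro j
      simp [s, s0]
    have hs1 : s y 0 = c * L 0 (s0 y) := by
      simp [s, s0]
    have hs2 : L 0 (s y) = L 0 (s0 y) + c * L 0 (s0 y) * a := by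
      simp [s, a]
    refine ⟨s y, ?_, ?_⟩
    · rw [← Fin.succ_last, hs0, hy1]
    · intro i
      refine Fin.cases ?_ (fun j => ?_) i
      · rw [Fin.castSucc_zero, hs1, hs2]
        by_cases ha : a = 1
        · simp only [c, ha, if_true]; ring
        · have : 1 - a ≠ 0 := sub_ne_zero.2 (Ne.symm ha)
          simp only [c, ha, if_false]
          field_simp
          ring
      · have := hy2 j
        rw [LinearMap.comp_apply] at this
        rw [this, ← Fin.succ_castSucc, hs0]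

lemma zmod3_sq : ∀ a b : ZMod 3, a ^ 2 + b ^ 2 = 0 → a = 0 ∧ b = 0 := by decide

lemma six_not_sum_sq (t w : ℚ) : 6 * t ^ 2 ≠ 1 + w ^ 2 := by
  intro h
  have ht : t ≠ 0 := by
    rintro rfl
    nlinarith [sq_nonneg w]
  have hw : (1 + w ^ 2) ≠ 0 := by positivity
  have : Fact (Nat.Prime 3) := ⟨Nat.prime_three⟩
  have h1 : padicValRat 3 (6 * t ^ 2) = 1 + 2 * padicValRat 3 t := by
    rw [padicValRat.mul (by norm_num) (pow_ne_zero _ ht), padicValRat.pow]
    have : padicValRat 3 6 = 1 := by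
      have : (6 : ℚ) = ((6 : ℕ) : ℚ) := by norm_num
      rw [this, padicValRat.of_nat]
      have : padicValNat 3 6 = 1 := by
        rw [show (6 : ℕ) = 3 * 2 by norm_num, padicValNat.mul (by norm_num) (by norm_num),
          padicValNat_self, padicValNat.eq_zero_of_not_dvd (by norm_num)]
      rw [this]; rfl
    rw [this]; norm_num
  have h2 : 1 + w ^ 2 = ((w.den : ℤ) ^ 2 + w.num ^ 2 : ℤ) / ((w.den : ℚ) ^ 2) := by
    have hd : (w.den : ℚ) ≠ 0 := by exact_mod_cast w.den_ne_zero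
    conv_lhs => rw [← Rat.num_div_den w]
    push_cast
    field_simp
  have h3 : ¬ (3 : ℤ) ∣ (w.den : ℤ) ^ 2 + w.num ^ 2 := by
    intro hdvd
    have hc := zmod3_sq
    have h4 : (((w.den : ℤ) ^ 2 + w.num ^ 2 : ℤ) : ZMod 3) = 0 :=
      (ZMod.intCast_zmod_eq_zero_iff_dvd _ 3).2 hdvd
    push_cast at h4
    obtain ⟨h5, h6⟩ := hc _ _ h4
    have h7 : 3 ∣ w.den := (ZMod.natCast_eq_zero_iff _ 3).1 h5
    have h8 : (3 : ℤ) ∣ w.num := (ZMod.intCast_zmod_eq_zero_iff_dvd _ 3).1 h6
    have h9 : 3 ∣ w.num.natAbs := Int.natCast_dvd.1 h8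
    have h10 := Nat.dvd_gcd h9 h7
    rw [w.reduced] at h10
    omega
  have h4 : (((w.den : ℤ) ^ 2 + w.num ^ 2 : ℤ) : ℚ) ≠ 0 := by
    intro h0
    apply h3
    have : ((w.den : ℤ) ^ 2 + w.num ^ 2 : ℤ) = 0 := by exact_mod_cast h0
    rw [this]; exact dvd_zero _
  have hd : (w.den : ℚ) ≠ 0 := by exact_mod_cast w.den_ne_zero
  have h5 : padicValRat 3 (1 + w ^ 2) = - (2 * padicValRat 3 (w.den : ℚ)) := by
    rw [h2, padicValRat.div h4 (pow_ne_zero _ hd), padicValRat.pow, padicValRat.of_int,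
      padicValInt.eq_zero_of_not_dvd h3]
    norm_num
  rw [h, h5] at h1
  omega

lemma exists_six_map : ∃ T : (Fin 44 → ℚ) →ₗ[ℚ] (Fin 44 → ℚ),
    ∀ y, 6 * ∑ i, (T y i) ^ 2 = ∑ i, (y i) ^ 2 := by
  let e : Fin 11 × Fin 4 ≃ Fin 44 := finProdFinEquiv
  let Q : Matrix (Fin 4) (Fin 4) ℚ := !![2, 1, 1, 0; -1, 2, 0, -1; -1, 0, 2, 1; 0, 1, -1, 2]
  refine ⟨LinearMap.pi (fun i => ∑ j : Fin 4,
    (Q (e.symm i).2 j / 6) • LinearMap.proj (e ((e.symm i).1, j))), ?_⟩
  intro y
  rw [← e.sum_comp, ← e.sum_comp, Fintype.sum_prod_type, Fintype.sum_prod_type, mul_sum]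
  apply sum_congr rfl
  intro a _
  simp [Fin.sum_univ_four, Q]
  ring

lemma brc_six {ι κ : Type} [Fintype ι] [Fintype κ] [DecidableEq ι] (hι : Fintype.card ι = 43)
    (hκ : Fintype.card κ = 43) (B : ι → κ → ℚ)
    (hB : ∀ i i', ∑ j, B i j * B i' j = if i = i' then 7 else 1) : False := by
  obtain ⟨T, hT⟩ := exists_six_map
  let e : Fin 43 ≃ ι := (Fintype.equivFinOfCardEq hι).symm
  let f : Fin 43 ≃ κ := (Fintype.equivFinOfCardEq hκ).symm
  obtain ⟨y, hy1, hy2⟩ := cancel_squares 43 (fun j => ∑ i : Fin 43,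
    B (e i) (f j) • (LinearMap.proj i.castSucc).comp T)
  simp only [LinearMap.coe_sum, Finset.sum_apply, LinearMap.smul_apply, LinearMap.comp_apply,
    LinearMap.proj_apply, smul_eq_mul] at hy2
  have h1 := hT y
  rw [Fin.sum_univ_castSucc, Fin.sum_univ_castSucc (f := fun i => y i ^ 2), hy1] at h1
  set x : Fin 43 → ℚ := fun i => T y i.castSucc with hx
  have h2 : ∑ j : Fin 43, (∑ i, B (e i) (f j) * x i) ^ 2 = 6 * ∑ i, x i ^ 2 + (∑ i, x i) ^ 2 := by
    have e1 : ∀ j, (∑ i, B (e i) (f j) * x i) ^ 2 =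
        ∑ i, ∑ i', x i * x i' * (B (e i) (f j) * B (e i') (f j)) := by
      intro j
      rw [sq, sum_mul_sum]
      apply sum_congr rfl; intro i _
      apply sum_congr rfl; intro i' _
      ring
    simp only [e1]
    rw [sum_comm]
    have e2 : ∀ i, ∑ j, ∑ i', x i * x i' * (B (e i) (f j) * B (e i') (f j)) =
        6 * x i ^ 2 + ∑ i', x i * x i' := by
      intro i
      rw [sum_comm]
      have e3 : ∀ i', ∑ j, x i * x i' * (B (e i) (f j) * B (e i') (f j)) =
          (if i = i' then 6 * x i ^ 2 else 0) + x i * x i' := by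
        intro i'
        rw [← mul_sum, f.sum_comp (fun j => B (e i) j * B (e i') j), hB]
        by_cases h : i = i'
        · subst h; simp; ring
        · simp [h]
      simp only [e3]
      rw [sum_add_distrib]
      simp
    simp only [e2]
    rw [sum_add_distrib, ← mul_sum, sq (∑ i, x i), sum_mul_sum]
  have h3 : ∑ j : Fin 43, (∑ i, B (e i) (f j) * x i) ^ 2 = ∑ j : Fin 43, y j.castSucc ^ 2 :=
    sum_congr rfl (fun j _ => hy2 j)
  apply six_not_sum_sq (T y (Fin.last 43)) (∑ i, x i)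
  linarith

theorem no_affine_six {β : Type} [DecidableEq β] (P : Finset β) (𝓛 : Finset (Finset β))
    (hP : P.card = 36) (hL : ∀ l ∈ 𝓛, l ⊆ P ∧ l.card = 6)
    (hex : ∀ x ∈ P, ∀ y ∈ P, x ≠ y → ∃ l ∈ 𝓛, x ∈ l ∧ y ∈ l)
    (hun : ∀ x y, x ≠ y → ∀ l ∈ 𝓛, ∀ m ∈ 𝓛, x ∈ l → y ∈ l → x ∈ m → y ∈ m → l = m) : False := by
  classical
  -- lines through a point meeting a set in a transversal way
  have count : ∀ x ∈ P, ∀ (A : Finset β) (c : ℕ), A ⊆ P → x ∉ A →
      (∀ l ∈ 𝓛, x ∈ l → (l ∩ A).Nonempty → (l ∩ A).card = c) →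
      (𝓛.filter (fun l => x ∈ l ∧ (l ∩ A).Nonempty)).card * c = A.card := by
    intro x hx A c hA hxA hc
    have h1 : A = (𝓛.filter (fun l => x ∈ l ∧ (l ∩ A).Nonempty)).biUnion (fun l => l ∩ A) := by
      ext y
      simp only [mem_biUnion, mem_filter, mem_inter]
      constructor
      · intro hy
        obtain ⟨l, hl, h1, h2⟩ := hex x hx y (hA hy) (fun h => hxA (h ▸ hy))
        exact ⟨l, ⟨hl, h1, ⟨y, mem_inter.2 ⟨h2, hy⟩⟩⟩, h2, hy⟩
      · rintro ⟨l, -, -, h⟩; exact h
    conv_rhs => rw [h1]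
    rw [card_biUnion, sum_congr rfl (g := fun _ => c)]
    · simp
    · intro l hl
      rw [mem_filter] at hl
      exact hc l hl.1 hl.2.1 hl.2.2
    · intro l hl m hm hlm
      simp only [coe_filter, Set.mem_ofPred_eq] at hl hm
      rw [Function.onFun, disjoint_left]
      intro y h1 h2
      rw [mem_inter] at h1 h2
      exact hlm (hun x y (fun h => hxA (h ▸ h1.2)) l hl.1 m hm.1 hl.2.1 h1.1 hm.2.1 h2.1)
  have seven : ∀ x ∈ P, (𝓛.filter (fun l => x ∈ l)).card = 7 := by
    intro x hx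
    have hc : ∀ l ∈ 𝓛, x ∈ l → (l ∩ P.erase x).card = 5 := by
      intro l hl hxl
      have : l ∩ P.erase x = l.erase x := by
        ext y; simp only [mem_inter, mem_erase]
        constructor
        · tauto
        · rintro ⟨h1, h2⟩; exact ⟨h2, h1, (hL l hl).1 h2⟩
      rw [this, card_erase_of_mem hxl, (hL l hl).2]
    have h1 := count x hx (P.erase x) 5 (erase_subset _ _) (notMem_erase _ _)
      (fun l hl hxl _ => hc l hl hxl)
    rw [card_erase_of_mem hx, hP] at h1
    have h2 : 𝓛.filter (fun l => x ∈ l ∧ (l ∩ P.erase x).Nonempty) = 𝓛.filter (fun l => x ∈ l) := by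
      apply filter_congr
      intro l hl
      refine ⟨fun h => h.1, fun h => ⟨h, card_pos.1 ?_⟩⟩
      rw [hc l hl h]; omega
    rw [h2] at h1
    omega
  let par : Finset β → Finset β → Prop := fun l m => l = m ∨ ¬ (l ∩ m).Nonempty
  have one : ∀ x ∈ P, ∀ m ∈ 𝓛, (𝓛.filter (fun l => x ∈ l ∧ par l m)).card = 1 := by
    intro x hx m hm
    by_cases hxm : x ∈ m
    · rw [card_eq_one]
      refine ⟨m, ?_⟩
      ext l
      simp only [mem_filter, mem_singleton, par]
      constructor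
      · rintro ⟨h1, h2, h3 | h3⟩
        · exact h3
        · exact absurd ⟨x, mem_inter.2 ⟨h2, hxm⟩⟩ h3
      · rintro rfl; exact ⟨hm, hxm, Or.inl rfl⟩
    · have h1 := count x hx m 1 (hL m hm).1 hxm (by
        intro l hl hxl hne
        obtain ⟨y, hy⟩ := hne
        rw [card_eq_one]
        refine ⟨y, eq_singleton_iff_unique_mem.2 ⟨hy, ?_⟩⟩
        intro z hz
        by_contra hzy
        rw [mem_inter] at hy hz
        exact hxm ((hun z y hzy l hl m hm hz.1 hy.1 hz.2 hy.2) ▸ hxl))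
      rw [(hL m hm).2, mul_one] at h1
      have h2 := card_filter_add_card_filter_not (s := 𝓛.filter (fun l => x ∈ l))
        (fun l => (l ∩ m).Nonempty)
      rw [seven x hx, filter_filter, filter_filter, h1] at h2
      have h3 : 𝓛.filter (fun l => x ∈ l ∧ par l m) =
          𝓛.filter (fun l => x ∈ l ∧ ¬ (l ∩ m).Nonempty) := by
        apply filter_congr
        intro l hl
        simp only [par]
        constructor
        · rintro ⟨h1, h2 | h2⟩
          · exact absurd (h2 ▸ h1) hxm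
          · exact ⟨h1, h2⟩
        · rintro ⟨h1, h2⟩; exact ⟨h1, Or.inr h2⟩
      rw [h3]; omega
  have uniq : ∀ x ∈ P, ∀ m ∈ 𝓛, ∀ l ∈ 𝓛, ∀ l' ∈ 𝓛, x ∈ l → x ∈ l' → par l m → par l' m → l = l' := by
    intro x hx m hm l hl l' hl' h1 h2 h3 h4
    exact card_le_one.1 (one x hx m hm).le l (mem_filter.2 ⟨hl, h1, h3⟩) l'
      (mem_filter.2 ⟨hl', h2, h4⟩)
  have psymm : ∀ l m, par l m → par m l := by
    intro l m h
    rcases h with h | h
    · exact Or.inl h.symm
    · exact Or.inr (by rwa [inter_comm])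
  have six : ∀ m ∈ 𝓛, (𝓛.filter (fun l => par l m)).card = 6 := by
    intro m hm
    have h1 : ∑ x ∈ P, ((𝓛.filter (fun l => par l m)).filter (fun l => x ∈ l)).card =
        ∑ l ∈ 𝓛.filter (fun l => par l m), (P.filter (fun x => x ∈ l)).card :=
      sum_card_bipartiteAbove_eq_sum_card_bipartiteBelow (fun x l => x ∈ l)
    rw [sum_congr (s₁ := P) rfl (g := fun _ => 1),
      sum_congr (s₁ := 𝓛.filter (fun l => par l m)) rfl (g := fun _ => 6)] at h1
    · simp only [sum_const, smul_eq_mul, hP] at h1; omega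
    · intro l hl
      rw [mem_filter] at hl
      rw [filter_mem_eq_inter, inter_eq_right.2 (hL l hl.1).1, (hL l hl.1).2]
    · intro x hx
      rw [filter_filter, ← one x hx m hm]
      congr 1
      apply filter_congr
      intro l _; tauto
  have hLcard : 𝓛.card = 42 := by
    have h1 : ∑ x ∈ P, (𝓛.filter (fun l => x ∈ l)).card =
        ∑ l ∈ 𝓛, (P.filter (fun x => x ∈ l)).card :=
      sum_card_bipartiteAbove_eq_sum_card_bipartiteBelow (fun x l => x ∈ l)
    rw [sum_congr (s₁ := P) rfl (g := fun _ => 7),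
      sum_congr (s₁ := 𝓛) rfl (g := fun _ => 6)] at h1
    · simp only [sum_const, smul_eq_mul, hP] at h1; omega
    · intro l hl
      rw [filter_mem_eq_inter, inter_eq_right.2 (hL l hl).1, (hL l hl).2]
    · exact seven
  obtain ⟨o, ho⟩ : P.Nonempty := card_pos.1 (by omega)
  let C := 𝓛.filter (fun l => o ∈ l)
  let inc : (↥P ⊕ ↥C) → Finset β → Prop :=
    fun i l => Sum.elim (fun x : ↥P => (x : β) ∈ l) (fun c : ↥C => par l c) i
  let inf : (↥P ⊕ ↥C) → ℚ := Sum.elim (fun _ => 0) (fun _ => 1)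
  apply brc_six (ι := ↥P ⊕ ↥C) (κ := ↥𝓛 ⊕ Unit) _ _
    (fun i j => Sum.elim (fun l : ↥𝓛 => if inc i l then (1 : ℚ) else 0) (fun _ => inf i) j)
  · intro i i'
    rw [Fintype.sum_sum_type]
    simp only [Sum.elim_inl, Sum.elim_inr, univ_unique, sum_singleton]
    have e1 : ∑ l : ↥𝓛, (if inc i l then (1 : ℚ) else 0) * (if inc i' l then (1 : ℚ) else 0) =
        ((𝓛.filter (fun l => inc i l ∧ inc i' l)).card : ℚ) := by
      rw [Finset.sum_coe_sort 𝓛 (fun l => (if inc i l then (1 : ℚ) else 0) *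
        (if inc i' l then (1 : ℚ) else 0)), card_filter]
      push_cast
      apply sum_congr rfl
      intro l _
      by_cases h1 : inc i l <;> by_cases h2 : inc i' l <;> simp [h1, h2]
    rw [e1]
    rcases i with x | c <;> rcases i' with y | c'
    · simp only [inc, inf, Sum.elim_inl, Sum.inl.injEq]
      by_cases hxy : x = y
      · subst hxy
        simp only [and_self, if_true]
        rw [seven x x.2]; norm_num
      · rw [if_neg hxy]
        have hxy' : (x : β) ≠ y := fun h => hxy (Subtype.ext h)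
        obtain ⟨l, hl, h1, h2⟩ := hex x x.2 y y.2 hxy'
        have : 𝓛.filter (fun l => (x : β) ∈ l ∧ (y : β) ∈ l) = {l} := by
          ext m
          simp only [mem_filter, mem_singleton]
          constructor
          · rintro ⟨h3, h4, h5⟩; exact hun x y hxy' m h3 l hl h4 h5 h1 h2
          · rintro rfl; exact ⟨hl, h1, h2⟩
        rw [this]; simp
    · simp only [inc, inf, Sum.elim_inl, Sum.elim_inr]
      rw [one x x.2 c' (mem_filter.1 c'.2).1]; simp
    · simp only [inc, inf, Sum.elim_inl, Sum.elim_inr]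
      have := one y y.2 c (mem_filter.1 c.2).1
      rw [filter_congr (q := fun l => par l c ∧ (y : β) ∈ l) (fun l _ => and_comm)] at this
      rw [this]; simp
    · simp only [inc, inf, Sum.elim_inr, Sum.inr.injEq]
      by_cases hcc : c = c'
      · subst hcc
        simp only [and_self, if_true]
        rw [six c (mem_filter.1 c.2).1]; norm_num
      · rw [if_neg hcc]
        have : 𝓛.filter (fun l => par l c ∧ par l c') = ∅ := by
          rw [filter_eq_empty_iff]
          rintro l hl ⟨h1, h2⟩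
          apply hcc
          apply Subtype.ext
          exact uniq o ho l hl c (mem_filter.1 c.2).1 c' (mem_filter.1 c'.2).1
            (mem_filter.1 c.2).2 (mem_filter.1 c'.2).2 (psymm _ _ h1) (psymm _ _ h2)
        rw [this]; simp
  · rw [Fintype.card_sum, Fintype.card_coe, Fintype.card_coe, hP, seven o ho]
  · rw [Fintype.card_sum, Fintype.card_coe, hLcard]; rfl

end Pool.Agent.MP_337c4e_co
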