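import Pool.Agent.MP_337c4e_co.RankFive
import Pool.Agent.MP_337c4e_co.NoSix
import Pool.Agent.MP_337c4e_co.Hall

set_option linter.unusedSectionVars false
set_option linter.unusedVariables false

namespace Pool.Agent.MP_337c4e_co

open Finset RkFn

variable {α : Type} [Fintype α] [DecidableEq α]

namespace IsDes

variable {R : RkFn α} {b v r k lam : ℕ}

lemma line_eq_cl (h : IsDes R b v r k lam) (hb : v < b) (hl : 1 ≤ lam) {L : Finset α}
    (hL : R.Flat L) (hr : R.rk L = 2) {x y : α} (hxy : x ≠ y) (hx : x ∈ L) (hy : y ∈ L) :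
    R.cl {x, y} = L := by
  apply (cl_flat _).eq_of_subset_of_rk_le
    (hL.cl_subset (insert_subset hx (singleton_subset_iff.2 hy)))
  rw [rk_cl, h.rk_pair hb hl hxy, hr]

lemma rk_cl_pair (h : IsDes R b v r k lam) (hb : v < b) (hl : 1 ≤ lam) {x y : α} (hxy : x ≠ y) :
    R.rk (R.cl {x, y}) = 2 := by rw [rk_cl, h.rk_pair hb hl hxy]

lemma left_mem_cl_pair (x y : α) : x ∈ R.cl {x, y} := subset_cl _ (by simp)

lemma right_mem_cl_pair (x y : α) : y ∈ R.cl {x, y} := subset_cl _ (by simp)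

/-- the lines inside a flat -/
def linesIn (R : RkFn α) (T : Finset α) : Finset (Finset α) :=
  univ.filter (fun L => R.Flat L ∧ R.rk L = 2 ∧ L ⊆ T)

lemma mem_linesIn {T L : Finset α} : L ∈ linesIn R T ↔ R.Flat L ∧ R.rk L = 2 ∧ L ⊆ T := by
  simp [linesIn]

lemma linesIn_ex (h : IsDes R b v r k lam) (hb : v < b) (hl : 1 ≤ lam) {T : Finset α}
    (hT : R.Flat T) : ∀ x ∈ T, ∀ y ∈ T, x ≠ y → ∃ l ∈ linesIn R T, x ∈ l ∧ y ∈ l := by
  intro x hx y hy hxy
  exact ⟨R.cl {x, y}, mem_linesIn.2 ⟨cl_flat _, h.rk_cl_pair hb hl hxy,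
    hT.cl_subset (insert_subset hx (singleton_subset_iff.2 hy))⟩, left_mem_cl_pair _ _,
    right_mem_cl_pair _ _⟩

lemma linesIn_un (h : IsDes R b v r k lam) (hb : v < b) (hl : 1 ≤ lam) (T : Finset α) :
    ∀ x y, x ≠ y → ∀ l ∈ linesIn R T, ∀ m ∈ linesIn R T, x ∈ l → y ∈ l → x ∈ m → y ∈ m →
      l = m := by
  intro x y hxy l hl' m hm h1 h2 h3 h4
  rw [mem_linesIn] at hl' hm
  rw [← h.line_eq_cl hb hl hl'.1 hl'.2.1 hxy h1 h2, ← h.line_eq_cl hb hl hm.1 hm.2.1 hxy h3 h4]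

lemma not_216 (h : IsDes R b v r 36 lam) (hb : v < b) (hl : 1 ≤ lam)
    (hline : ∀ L, R.Flat L → R.rk L = 2 → L.card = 6) : False := by
  obtain ⟨π, hπ⟩ : R.hyp.Nonempty := card_pos.1 (by rw [h.hb]; omega)
  refine no_affine_six π (linesIn R π) (h.hk π hπ) ?_ (h.linesIn_ex hb hl (mem_hyp.1 hπ).1)
    (h.linesIn_un hb hl π)
  intro l hl'
  rw [mem_linesIn] at hl'
  exact ⟨hl'.2.2, hline l hl'.1 hl'.2.1⟩

lemma not_37 (h : IsDes R b 37 r 7 lam) (hb : 37 < b) (hl : 1 ≤ lam) (hn : R.rk univ = 4)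
    (hline : ∀ L, R.Flat L → R.rk L = 2 → L.card = 2) : False := by
  obtain ⟨x, -, -⟩ := h.exists_pair hb
  have key : ∀ y z, y ≠ x → z ≠ x → y ≠ z → R.rk (insert x {y, z}) + 1 = R.rk univ := by
    intro y z hy hz hyz
    have h1 := hline _ (cl_flat _) (h.rk_cl_pair hb hl hyz)
    have h2 : ({y, z} : Finset α) = R.cl {y, z} :=
      eq_of_subset_of_card_le (subset_cl _) (by rw [h1, card_pair hyz])
    rw [rk_insert_of_notMem_cl, h.rk_pair hb hl hyz, hn]
    rw [← h2]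
    simp [hy.symm, hz.symm]
  apply no_affine_six (univ.erase x) ((R.hyp.filter (fun H => x ∈ H)).image (fun H => H.erase x))
  · rw [card_erase_of_mem (mem_univ x), card_univ, h.hv]
  · intro l hl'
    obtain ⟨H, hH, rfl⟩ := mem_image.1 hl'
    rw [mem_filter] at hH
    exact ⟨erase_subset_erase _ (subset_univ _), by rw [card_erase_of_mem hH.2, h.hk H hH.1]⟩
  · intro y hy z hz hyz
    have hy' := ne_of_mem_erase hy
    have hz' := ne_of_mem_erase hz
    refine ⟨(R.cl (insert x {y, z})).erase x, mem_image_of_mem _ (mem_filter.2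
      ⟨cl_mem_hyp (key y z hy' hz' hyz), mem_cl_insert _ _⟩), ?_, ?_⟩
    · exact mem_erase.2 ⟨hy', subset_cl_insert _ _ (by simp)⟩
    · exact mem_erase.2 ⟨hz', subset_cl_insert _ _ (by simp)⟩
  · intro y z hyz l hl' m hm h1 h2 h3 h4
    obtain ⟨H, hH, rfl⟩ := mem_image.1 hl'
    obtain ⟨H', hH', rfl⟩ := mem_image.1 hm
    rw [mem_filter] at hH hH'
    rw [mem_erase] at h1 h2 h3 h4
    have e := key y z h1.1 h2.1 hyz
    rw [hyp_eq_cl e hH.1 (insert_subset hH.2 (insert_subset h1.2 (singleton_subset_iff.2 h2.2))),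
      hyp_eq_cl e hH'.1 (insert_subset hH'.2 (insert_subset h3.2 (singleton_subset_iff.2 h4.2)))]

lemma nine_dvd (h : IsDes R b v r 9 lam) (hb : v < b) (hl : 1 ≤ lam) (hn : R.rk univ = 4)
    (hline : ∀ L, R.Flat L → R.rk L = 2 → L.card = 3) : 9 ∣ v := by
  classical
  have third : ∀ x y : α, ∃ z, (x = y → z = x) ∧ (x ≠ y → R.cl {x, y} = {x, y, z} ∧ z ≠ x ∧ z ≠ y) := by
    intro x y
    by_cases hxy : x = y
    · exact ⟨x, fun _ => rfl, fun h => absurd hxy h⟩
    · have h1 := hline _ (cl_flat _) (h.rk_cl_pair hb hl hxy)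
      have h2 : (R.cl {x, y} \ {x, y}).card = 1 := by
        rw [card_sdiff_of_subset (subset_cl _), h1, card_pair hxy]
      obtain ⟨z, hz⟩ := card_eq_one.1 h2
      have h3 : z ∈ R.cl {x, y} \ {x, y} := by rw [hz]; simp
      simp only [mem_sdiff, mem_insert, mem_singleton, not_or] at h3
      refine ⟨z, fun h => absurd h hxy, fun _ => ⟨?_, h3.2.1, h3.2.2⟩⟩
      rw [← union_sdiff_of_subset (subset_cl (R := R) {x, y}), hz]
      ext w; simp
  choose op hop1 hop2 using third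
  have idem : ∀ x, op x x = x := fun x => hop1 x x rfl
  -- characterisation of the third point
  have uniq : ∀ x y z L, x ≠ y → R.Flat L → R.rk L = 2 → x ∈ L → y ∈ L → z ∈ L → z ≠ x → z ≠ y →
      z = op x y := by
    intro x y z L hxy hL hL2 hx hy hz hzx hzy
    rw [← h.line_eq_cl hb hl hL hL2 hxy hx hy, (hop2 x y hxy).1] at hz
    simpa [hzx, hzy] using hz
  have omem : ∀ x y L, R.Flat L → x ∈ L → y ∈ L → op x y ∈ L := by
    intro x y L hL hx hy
    by_cases hxy : x = y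
    · rw [hop1 x y hxy]; exact hx
    · apply hL.cl_subset (insert_subset hx (singleton_subset_iff.2 hy))
      rw [(hop2 x y hxy).1]; simp
  have hcomm : ∀ x y, op x y = op y x := by
    intro x y
    by_cases hxy : x = y
    · rw [hxy]
    · exact uniq y x _ _ (Ne.symm hxy) (cl_flat _) (h.rk_cl_pair hb hl hxy)
        (right_mem_cl_pair _ _) (left_mem_cl_pair _ _)
        (omem _ _ _ (cl_flat _) (left_mem_cl_pair _ _) (right_mem_cl_pair _ _))
        (hop2 x y hxy).2.2 (hop2 x y hxy).2.1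
  have hinv : ∀ x y, op x (op x y) = y := by
    intro x y
    by_cases hxy : x = y
    · rw [← hxy, idem, idem]
    · exact (uniq x (op x y) y _ (hop2 x y hxy).2.1.symm (cl_flat _) (h.rk_cl_pair hb hl hxy)
        (left_mem_cl_pair _ _)
        (omem _ _ _ (cl_flat _) (left_mem_cl_pair _ _) (right_mem_cl_pair _ _))
        (right_mem_cl_pair _ _) (Ne.symm hxy) (hop2 x y hxy).2.2.symm).symm
  have hinj : ∀ x y z, op x y = op x z → y = z := by
    intro x y z h
    rw [← hinv x y, h, hinv]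
  have hdist : ∀ x y z, op x (op y z) = op (op x y) (op x z) := by
    intro x y z
    by_cases hyz : y = z
    · rw [hyz, idem, idem]
    by_cases hx : x ∈ R.cl {y, z}
    · rw [(hop2 y z hyz).1] at hx
      simp only [mem_insert, mem_singleton] at hx
      rcases hx with rfl | rfl | rfl
      · rw [idem]
      · rw [idem, hcomm y x, hcomm (op x y) x]
      · rw [idem, hcomm (op y z) y, hinv, hcomm (op y z) z, hcomm y z, hinv]
    · set l := R.cl {y, z} with hl0
      have hlf : R.Flat l := cl_flat _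
      have hl2 : R.rk l = 2 := h.rk_cl_pair hb hl hyz
      set π := R.cl (insert x l) with hπ0
      have hπ : π ∈ R.hyp := cl_mem_hyp (by rw [hlf.rk_insert hx]; omega)
      have hπf : R.Flat π := cl_flat _
      have hlπ : l ⊆ π := subset_cl_insert _ _
      have hxπ : x ∈ π := mem_cl_insert _ _
      have hlm : l ∈ linesIn R π := mem_linesIn.2 ⟨hlf, hl2, hlπ⟩
      have pf := playfair_three π (linesIn R π) (h.hk π hπ) (by
        intro l hl'
        rw [mem_linesIn] at hl'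
        exact ⟨hl'.2.2, hline l hl'.1 hl'.2.1⟩) (h.linesIn_ex hb hl hπf) (h.linesIn_un hb hl π)
      have hyl : y ∈ l := left_mem_cl_pair _ _
      have hzl : z ∈ l := right_mem_cl_pair _ _
      have hwl : op y z ∈ l := omem _ _ _ hlf hyl hzl
      have notl : ∀ u ∈ l, op x u ∉ l := by
        intro u hu hh
        apply hx
        have := omem _ _ _ hlf hu hh
        rwa [hcomm x u, hinv] at this
      have inπ : ∀ u ∈ l, op x u ∈ π := fun u hu => omem _ _ _ hπf hxπ (hlπ hu)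
      obtain ⟨n, hn'⟩ := card_eq_one.1 (pf x hxπ l hlm hx)
      obtain ⟨m, hm'⟩ := card_eq_one.1 (pf (op x y) (inπ y hyl) l hlm (notl y hyl))
      have hn1 : n ∈ (linesIn R π).filter (fun l' => x ∈ l' ∧ ¬ (l' ∩ l).Nonempty) := by
        rw [hn']; simp
      have hm1 : m ∈ (linesIn R π).filter (fun l' => op x y ∈ l' ∧ ¬ (l' ∩ l).Nonempty) := by
        rw [hm']; simp
      rw [mem_filter] at hn1 hm1
      have hn2 := mem_linesIn.1 hn1.1
      have hm2 := mem_linesIn.1 hm1.1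
      have notn : ∀ u ∈ l, op x u ∉ n := by
        intro u hu hh
        apply hn1.2.2
        have := omem _ _ _ hn2.1 hn1.2.1 hh
        rw [hinv] at this
        exact ⟨u, mem_inter.2 ⟨this, hu⟩⟩
      have hmn : ∀ u ∈ m, u ∉ n := by
        intro u hu hun
        have hul : u ∉ l := fun hh => hn1.2.2 ⟨u, mem_inter.2 ⟨hun, hh⟩⟩
        have := card_le_one.1 (pf u (hn2.2.2 hun) l hlm hul).le m
          (mem_filter.2 ⟨hm1.1, hu, hm1.2.2⟩) n (mem_filter.2 ⟨hn1.1, hun, hn1.2.2⟩)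
        exact notn y hyl (this ▸ hm1.2.1)
      have hc : (π \ (l ∪ n)).card = 3 := by
        rw [card_sdiff_of_subset (union_subset hlπ hn2.2.2), card_union_of_disjoint, h.hk π hπ,
          hline l hlf hl2, hline n hn2.1 hn2.2.1]
        rw [disjoint_left]
        intro u h1 h2
        exact hn1.2.2 ⟨u, mem_inter.2 ⟨h2, h1⟩⟩
      have hmeq : m = π \ (l ∪ n) := by
        apply eq_of_subset_of_card_le
        · intro u hu
          rw [mem_sdiff, mem_union, not_or]
          exact ⟨hm2.2.2 hu, fun hh => hm1.2.2 ⟨u, mem_inter.2 ⟨hu, hh⟩⟩, hmn u hu⟩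
        · rw [hc, hline m hm2.1 hm2.2.1]
      have inm : ∀ u ∈ l, op x u ∈ m := by
        intro u hu
        rw [hmeq, mem_sdiff, mem_union, not_or]
        exact ⟨inπ u hu, notl u hu, notn u hu⟩
      exact uniq _ _ _ m (fun hh => hyz (hinj _ _ _ hh)) hm2.1 hm2.2.1 (inm y hyl) (inm z hzl)
        (inm _ hwl) (fun hh => (hop2 y z hyz).2.1 (hinj _ _ _ hh))
        (fun hh => (hop2 y z hyz).2.2 (hinj _ _ _ hh))
  obtain ⟨a, b', hab⟩ := h.exists_pair hb
  obtain ⟨c, -, hc⟩ := exists_notMem_of_rk_lt (R := R) (F := R.cl {a, b'}) (T := univ)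
    (by rw [h.rk_cl_pair hb hl hab]; omega)
  rw [(hop2 a b' hab).1] at hc
  simp only [mem_insert, mem_singleton, not_or] at hc
  rw [← h.hv]
  exact hall_nine op hcomm hinv hdist a b' c hab (Ne.symm hc.1) (Ne.symm hc.2.1) hc.2.2

end IsDes

/-- the candidate list -/
def smallList : List (ℕ × ℕ × ℕ × ℕ × ℕ) :=
  [(10, 5, 6, 3, 3), (14, 8, 7, 4, 3),
   (20, 6, 10, 3, 4), (30, 10, 12, 4, 4), (39, 27, 13, 9, 4),
   (35, 7, 15, 3, 5), (68, 17, 20, 5, 5), (77, 22, 21, 6, 5), (84, 64, 21, 16, 5),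
   (15, 6, 10, 4, 6), (56, 8, 21, 3, 6), (91, 14, 26, 4, 6), (130, 26, 30, 6, 6),
   (155, 125, 31, 25, 6),
   (30, 16, 15, 8, 7), (84, 9, 28, 3, 7), (140, 16, 35, 4, 7), (155, 31, 35, 7, 7),
   (120, 10, 36, 3, 8), (260, 26, 50, 5, 8), (350, 50, 56, 8, 8), (399, 343, 57, 49, 8),
   (165, 11, 45, 3, 9), (285, 20, 57, 4, 9), (520, 65, 72, 9, 9), (584, 512, 73, 64, 9)]

/-- the arithmetic test for the rank four case -/
def arithOK (lam s l : ℕ) : Bool :=
  let k := 1 + s * (l - 1)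
  let v := l + lam * (k - l)
  let r := lam * (v - 1) / (k - 1)
  let b := r * v / k
  decide (s ≤ lam → l ≤ s → 3 ≤ lam → 2 ≤ l → r * (k - 1) = lam * (v - 1) → b * k = r * v → v < b →
    ((b, v, r, k, lam) ∈ smallList ∨ (l = 2 ∧ v = 37 ∧ k = 7) ∨ (l = 6 ∧ k = 36) ∨
      (l = 3 ∧ k = 9 ∧ v = 57)))

lemma rank_four_arith (lam s l : ℕ) (h1 : lam ≤ 9) (h2 : s ≤ lam) (h3 : l ≤ s) (h4 : 3 ≤ lam)
    (h5 : 2 ≤ l) (b v r k : ℕ) (hk : k = 1 + s * (l - 1)) (hv : v = l + lam * (k - l))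
    (hr : r * (k - 1) = lam * (v - 1)) (hb : b * k = r * v) (hbv : v < b) :
    (b, v, r, k, lam) ∈ smallList ∨ (l = 2 ∧ v = 37 ∧ k = 7) ∨ (l = 6 ∧ k = 36) ∨
      (l = 3 ∧ k = 9 ∧ v = 57) := by
  have key : ∀ lam < 10, ∀ s < 10, ∀ l < 10, arithOK lam s l = true := by
    decide +kernel
  have hk1 : 0 < k - 1 := by
    have : 0 < s * (l - 1) := Nat.mul_pos (by omega) (by omega)
    omega
  have e1 : r = lam * (v - 1) / (k - 1) := by rw [← hr, Nat.mul_div_cancel _ hk1]
  have e2 : b = r * v / k := by rw [← hb, Nat.mul_div_cancel _ (by omega)]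
  have := key lam (by omega) s (by omega) l (by omega)
  simp only [arithOK, decide_eq_true_eq] at this
  rw [← hk, ← hv, ← e1, ← e2] at this
  exact this h2 h3 h4 h5 hr hb hbv

theorem IsDes.mem_smallList {R : RkFn α} {b v r k lam : ℕ} (h : IsDes R b v r k lam) (hb : v < b)
    (h3 : 3 ≤ lam) (h9 : lam ≤ 9) : (b, v, r, k, lam) ∈ smallList := by
  have h4 := h.four_le_rank hb (by omega)
  by_cases hn4 : R.rk univ = 4
  · obtain ⟨l, s, e1, e2, e3, e4, e5, hline⟩ := h.rank_four hb (by omega) hn4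
    obtain ⟨x, -, -⟩ := h.exists_pair hb
    rcases rank_four_arith lam s l h9 e3 e2 h3 e1 b v r k e4 e5 (h.eq_rk x) h.eq_bk hb with
      h' | ⟨rfl, rfl, rfl⟩ | ⟨rfl, rfl⟩ | ⟨rfl, rfl, rfl⟩
    · exact h'
    · exact (h.not_37 hb (by omega) hn4 hline).elim
    · exact (h.not_216 hb (by omega) hline).elim
    · have := h.nine_dvd hb (by omega) hn4 hline
      omega
  · by_cases hn5 : R.rk univ = 5
    · rcases h.rank_five hb (by omega) h9 hn5 with h' | h' <;> rw [h'] <;> decide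
    · have := h.ten_le_lam hb (by omega) (by omega)
      omega

end Pool.Agent.MP_337c4e_co
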