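import Pool.Agent.MP_337c4e_co.CoA

section
set_option linter.unusedSectionVars false
set_option linter.unusedVariables false

namespace Pool.Agent.MP_337c4e_co

open Finset RkFn

namespace RkFn

variable {α : Type} [Fintype α] [DecidableEq α] {R : RkFn α}

/-- flats of `T` of rank one less -/
def sub (R : RkFn α) (T : Finset α) : Finset (Finset α) :=
  univ.filter (fun F => R.Flat F ∧ F ⊆ T ∧ R.rk F + 1 = R.rk T)

lemma mem_subf {T F : Finset α} : F ∈ R.sub T ↔ R.Flat F ∧ F ⊆ T ∧ R.rk F + 1 = R.rk T := by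
  simp [sub]

/-- the number of points on a line of a contraction is at most the largest coline degree -/
lemma cov_card_le {m : ℕ} (hm : ∀ C, R.Flat C → R.rk C + 2 = R.rk univ → R.deg C ≤ m) :
    ∀ (j : ℕ) (F T : Finset α), R.Flat F → R.Flat T → F ⊆ T → R.rk T = R.rk F + 2 →
      R.rk T + j = R.rk univ → (R.cov F T).card ≤ m := by
  intro j
  induction j with
  | zero =>
    intro F T hF hT hFT h2 hj
    have hTu : T = univ := hT.eq_of_subset_of_rk_le (subset_univ _) (by omega)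
    subst hTu
    rw [cov_eq_of_coline (by omega)]
    exact hm F hF (by omega)
  | succ j ih =>
    intro F T hF hT hFT h2 hj
    obtain ⟨x, -, hx⟩ := exists_notMem_of_rk_lt (R := R) (F := T) (T := univ) (by omega)
    have hxF : x ∉ F := fun h => hx (hFT h)
    have h3 := ih (R.cl (insert x F)) (R.cl (insert x T)) (cl_flat _) (cl_flat _)
      (cl_mono (insert_subset_insert _ hFT))
      (by rw [hF.rk_cl_insert hxF, hT.rk_cl_insert hx]; omega)
      (by rw [hT.rk_cl_insert hx]; omega)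
    refine le_trans ?_ h3
    refine card_le_card_of_injOn (fun G => R.cl (insert x G)) (fun G hG => ?_) fun G hG G' hG' e => ?_
    · have hG' := mem_cov.1 (mem_coe.1 hG)
      have hxG : x ∉ G := fun h => hx (hG'.2.2.1 h)
      refine mem_coe.2 (mem_cov.2 ⟨cl_flat _, cl_mono (insert_subset_insert _ hG'.2.1),
        cl_mono (insert_subset_insert _ hG'.2.2.1), ?_⟩)
      rw [hG'.1.rk_cl_insert hxG, hF.rk_cl_insert hxF, hG'.2.2.2]
    · have h1 := mem_cov.1 (mem_coe.1 hG)
      have h2 := mem_cov.1 (mem_coe.1 hG')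
      have e' : R.cl (insert x G) = R.cl (insert x G') := e
      rw [← h1.1.cl_insert_inter hT h1.2.2.1 hx, ← h2.1.cl_insert_inter hT h2.2.2.1 hx, e']

/-- Motzkin's lemma -/
lemma motzkin {β γ : Type} [DecidableEq β] [DecidableEq γ] (P : Finset β) (L : Finset γ)
    (I : β → γ → Prop) [∀ x F, Decidable (I x F)]
    (h1 : ∀ x ∈ P, ∃ F ∈ L, ¬ I x F) (h2 : ∀ F ∈ L, ∃ x ∈ P, ¬ I x F)
    (h3 : ∀ F ∈ L, ∃ x ∈ P, I x F)
    (h : ∀ x ∈ P, ∀ F ∈ L, ¬ I x F →
      (P.filter (fun y => I y F)).card ≤ (L.filter (fun G => I x G)).card) :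
    P.card ≤ L.card := by
  by_contra hc
  push Not at hc
  have hP : 0 < P.card := by omega
  obtain ⟨x0, hx0⟩ := card_pos.1 hP
  obtain ⟨F0, hF0, hn0⟩ := h1 x0 hx0
  have hL : 0 < L.card := card_pos.2 ⟨F0, hF0⟩
  set v : ℝ := (P.card : ℝ) with hv
  set b : ℝ := (L.card : ℝ) with hb
  have hv0 : 0 < v := by rw [hv]; exact_mod_cast hP
  have hb0 : 0 < b := by rw [hb]; exact_mod_cast hL
  have hbv : b < v := by rw [hv, hb]; exact_mod_cast hc
  let A : β → ℝ := fun x => ((L.filter (fun G => ¬ I x G)).card : ℝ)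
  let C : γ → ℝ := fun F => ((P.filter (fun y => ¬ I y F)).card : ℝ)
  have hA : ∀ x ∈ P, 0 < A x := by
    intro x hx
    obtain ⟨F, hF, hn⟩ := h1 x hx
    have : 0 < (L.filter (fun G => ¬ I x G)).card := card_pos.2 ⟨F, mem_filter.2 ⟨hF, hn⟩⟩
    simp only [A]; exact_mod_cast this
  have hC : ∀ F ∈ L, 0 < C F := by
    intro F hF
    obtain ⟨x, hx, hn⟩ := h2 F hF
    have : 0 < (P.filter (fun y => ¬ I y F)).card := card_pos.2 ⟨x, mem_filter.2 ⟨hx, hn⟩⟩
    simp only [C]; exact_mod_cast this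
  have key : ∀ x ∈ P, ∀ F ∈ L, ¬ I x F → 1 / (b * C F) < 1 / (v * A x) := by
    intro x hx F hF hn
    apply one_div_lt_one_div_of_lt (mul_pos hv0 (hA x hx))
    have e1 := card_filter_add_card_filter_not (s := L) (fun G => I x G)
    have e2 := card_filter_add_card_filter_not (s := P) (fun y => I y F)
    have e3 := h x hx F hF hn
    obtain ⟨y, hy, hy'⟩ := h3 F hF
    have e4 : 0 < (P.filter (fun y => I y F)).card := card_pos.2 ⟨y, mem_filter.2 ⟨hy, hy'⟩⟩
    have f1 : ((L.filter (fun G => I x G)).card : ℝ) + A x = b := by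
      simp only [A, hb]; exact_mod_cast e1
    have f2 : ((P.filter (fun y => I y F)).card : ℝ) + C F = v := by
      simp only [C, hv]; exact_mod_cast e2
    have f3 : ((P.filter (fun y => I y F)).card : ℝ) ≤ ((L.filter (fun G => I x G)).card : ℝ) := by
      exact_mod_cast e3
    have f4 : (0 : ℝ) < ((P.filter (fun y => I y F)).card : ℝ) := by exact_mod_cast e4
    nlinarith
  have s1 : ∑ x ∈ P, ∑ F ∈ L.filter (fun G => ¬ I x G), 1 / (v * A x) = 1 := by
    rw [sum_congr rfl (g := fun _ => 1 / v)]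
    · rw [sum_const, nsmul_eq_mul, ← hv]; field_simp
    · intro x hx
      rw [sum_const, nsmul_eq_mul]
      have := hA x hx
      simp only [A] at this ⊢
      field_simp
  have s2 : ∑ x ∈ P, ∑ F ∈ L.filter (fun G => ¬ I x G), 1 / (b * C F) = 1 := by
    rw [Finset.sum_comm' (t' := L) (s' := fun F => P.filter (fun y => ¬ I y F))]
    · rw [sum_congr rfl (g := fun _ => 1 / b)]
      · rw [sum_const, nsmul_eq_mul, ← hb]; field_simp
      · intro F hF
        rw [sum_const, nsmul_eq_mul]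
        have := hC F hF
        simp only [C] at this ⊢
        field_simp
    · intro x F
      simp only [mem_filter]
      tauto
  have s3 : ∑ x ∈ P, ∑ F ∈ L.filter (fun G => ¬ I x G), 1 / (b * C F) <
      ∑ x ∈ P, ∑ F ∈ L.filter (fun G => ¬ I x G), 1 / (v * A x) := by
    apply sum_lt_sum_of_nonempty ⟨x0, hx0⟩
    intro x hx
    apply sum_lt_sum_of_nonempty
    · obtain ⟨F, hF, hn⟩ := h1 x hx
      exact ⟨F, mem_filter.2 ⟨hF, hn⟩⟩
    · intro F hF
      exact key x hx F (mem_filter.1 hF).1 (mem_filter.1 hF).2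
  linarith

/-- a simple matroid of rank at least two has at least as many hyperplanes as points -/
lemma card_le_sub (h0 : R.Flat ∅) (h1 : ∀ x, R.Flat {x}) :
    ∀ (j : ℕ) (T : Finset α), R.Flat T → R.rk T = j + 2 → T.card ≤ (R.sub T).card := by
  have hs : ∀ x, R.rk {x} = 1 := by
    intro x
    have := h0.rk_insert (notMem_empty x)
    rwa [insert_empty_eq, R.rk_empty] at this
  intro j
  induction j with
  | zero =>
    intro T hT hr
    refine card_le_card_of_injOn (fun x => {x}) (fun x hx => ?_) fun x _ y _ e => ?_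
    · exact mem_coe.2 (mem_subf.2 ⟨h1 x, singleton_subset_iff.2 (mem_coe.1 hx), by rw [hs]; omega⟩)
    · exact singleton_injective e
  | succ j ih =>
    intro T hT hr
    apply motzkin T (R.sub T) (fun x F => x ∈ F)
    · intro x hx
      obtain ⟨G, hG, -, h2, h3, h4⟩ := h0.exists_avoid hT (empty_subset _) hx (notMem_empty x)
      exact ⟨G, mem_subf.2 ⟨hG, h2, h4⟩, h3⟩
    · intro F hF
      rw [mem_subf] at hF
      exact exists_notMem_of_rk_lt (R := R) (by omega)
    · intro F hF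
      rw [mem_subf] at hF
      obtain ⟨x, hx, -⟩ := exists_notMem_of_rk_lt (R := R) (F := ∅) (T := F)
        (by rw [R.rk_empty]; omega)
      exact ⟨x, hF.2.1 hx, hx⟩
    · intro x hx F hF hxF
      rw [mem_subf] at hF
      have e1 : T.filter (fun y => y ∈ F) = F := by
        ext y; simp only [mem_filter]
        exact ⟨fun h => h.2, fun h => ⟨hF.2.1 h, h⟩⟩
      rw [e1]
      refine (ih F hF.1 (by omega)).trans ?_
      refine card_le_card_of_injOn (fun G => R.cl (insert x G)) (fun G hG => ?_)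
        fun G hG G' hG' e => ?_
      · have hG' := mem_subf.1 (mem_coe.1 hG)
        have hxG : x ∉ G := fun h => hxF (hG'.2.1 h)
        refine mem_coe.2 (mem_filter.2 ⟨mem_subf.2 ⟨cl_flat _,
          hT.cl_subset (insert_subset hx (hG'.2.1.trans hF.2.1)), ?_⟩, mem_cl_insert _ _⟩)
        rw [hG'.1.rk_cl_insert hxG]; omega
      · have h1 := mem_subf.1 (mem_coe.1 hG)
        have h2 := mem_subf.1 (mem_coe.1 hG')
        have e' : R.cl (insert x G) = R.cl (insert x G') := e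
        rw [← h1.1.cl_insert_inter hF.1 h1.2.1 hxF, ← h2.1.cl_insert_inter hF.1 h2.2.1 hxF, e']

/-- a flat between `F` and a cover `G` of `F` is one of them -/
lemma inter_eq_of_cov {F G K : Finset α} (hF : R.Flat F) (hG : R.Flat G) (hK : R.Flat K)
    (hFG : F ⊆ G) (hr : R.rk F + 1 = R.rk G) (hFK : F ⊆ K) (hGK : ¬ G ⊆ K) : G ∩ K = F := by
  apply subset_antisymm _ (subset_inter hFG hFK)
  intro x hx
  by_contra hxF
  rw [mem_inter] at hx
  apply hGK
  rw [← hF.eq_cl_insert hG hFG hr.symm hx.1 hxF]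
  exact hK.cl_subset (insert_subset hx.2 hFK)

/-- two different hyperplanes over a coline meet in it -/
lemma hyp_inter {C H H' : Finset α} (hC : R.Flat C) (hr : R.rk C + 2 = R.rk univ)
    (hH : H ∈ R.hyp) (hH' : H' ∈ R.hyp) (h1 : C ⊆ H) (h2 : C ⊆ H') (hne : H ≠ H') :
    H ∩ H' = C := by
  have m1 := mem_hyp.1 hH
  have m2 := mem_hyp.1 hH'
  exact inter_eq_of_cov hC m1.1 m2.1 h1 (by omega) h2 (fun h => hne (hyp_eq_of_subset hH hH' h))

/-- a point outside a coline lies in exactly one hyperplane over it -/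
lemma hyp_unique {C H H' : Finset α} {p : α} (hC : R.Flat C) (hr : R.rk C + 2 = R.rk univ)
    (hH : H ∈ R.hyp) (hH' : H' ∈ R.hyp) (h1 : C ⊆ H) (h2 : C ⊆ H') (hp : p ∉ C) (p1 : p ∈ H)
    (p2 : p ∈ H') : H = H' := by
  by_contra hne
  apply hp
  rw [← hyp_inter hC hr hH hH' h1 h2 hne]
  exact mem_inter.2 ⟨p1, p2⟩

/-- the hyperplanes over a coline split every set -/
lemma sum_hyp_inter {C : Finset α} (hC : R.Flat C) (hr : R.rk C + 2 = R.rk univ) (Y : Finset α) :
    ∑ H ∈ R.hyp.filter (fun H => C ⊆ H), ((H ∩ Y) \ C).card = (Y \ C).card := by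
  rw [card_eq_sum_card_fiberwise (s := Y \ C) (t := R.hyp.filter (fun H => C ⊆ H))
    (f := fun p => R.cl (insert p C))]
  · apply sum_congr rfl
    intro H hH
    rw [mem_filter] at hH
    congr 1
    ext p
    simp only [mem_sdiff, mem_inter, mem_filter]
    constructor
    · rintro ⟨⟨h1, h2⟩, h3⟩
      refine ⟨⟨h2, h3⟩, ?_⟩
      symm
      exact hyp_eq_cl (by rw [hC.rk_insert h3]; omega) hH.1 (insert_subset h1 hH.2)
    · rintro ⟨⟨h1, h2⟩, h3⟩
      exact ⟨⟨h3 ▸ mem_cl_insert _ _, h1⟩, h2⟩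
  · intro p hp
    have hp' := (mem_sdiff.1 (mem_coe.1 hp)).2
    exact mem_coe.2 (mem_filter.2 ⟨cl_mem_hyp (by rw [hC.rk_insert hp']; omega),
      subset_cl_insert _ _⟩)

end RkFn

end Pool.Agent.MP_337c4e_co

end

section
set_option linter.unusedSectionVars false
set_option linter.unusedVariables false

namespace Pool.Agent.MP_337c4e_co

open Finset RkFn

variable {α : Type} [Fintype α] [DecidableEq α]

/-- normalised deviation of an intersection size from its mean `k ^ 2 / v` -/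
noncomputable def dv (v k s : ℕ) : ℝ := ((v : ℝ) * s - (k : ℝ) ^ 2) / ((k : ℝ) * ((v : ℝ) - k))

namespace IsDes

variable {R : RkFn α} {b v r k lam : ℕ}

lemma sum_inter (h : IsDes R b v r k lam) (Y : Finset α) :
    ∑ H ∈ R.hyp, (Y ∩ H).card = Y.card * r := by
  have : ∑ H ∈ R.hyp, (Y ∩ H).card = ∑ y ∈ Y, R.deg {y} := by
    unfold deg
    simp only [card_eq_sum_ones]
    rw [Finset.sum_comm' (t' := Y) (s' := fun y => R.hyp.filter (fun H => {y} ⊆ H))]
    intro H y
    simp only [mem_inter, mem_filter, singleton_subset_iff]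
    tauto
  rw [this, sum_congr rfl (g := fun _ => r) (fun y _ => h.hr y), sum_const, smul_eq_mul]

lemma sum_inter_pt (h : IsDes R b v r k lam) (Y : Finset α) {y : α} (hy : y ∈ Y) :
    ∑ H ∈ R.hyp.filter (fun H => y ∈ H), (Y ∩ H).card = r + (Y.card - 1) * lam := by
  have : ∑ H ∈ R.hyp.filter (fun H => y ∈ H), (Y ∩ H).card = ∑ z ∈ Y, R.deg {y, z} := by
    unfold deg
    simp only [card_eq_sum_ones]
    rw [Finset.sum_comm' (t' := Y) (s' := fun z => R.hyp.filter (fun H => {y, z} ⊆ H))]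
    intro H z
    simp only [mem_inter, mem_filter, insert_subset_iff, singleton_subset_iff]
    tauto
  rw [this, ← add_sum_erase Y _ hy, pair_eq_singleton, h.hr,
    sum_congr rfl (g := fun _ => lam), sum_const, smul_eq_mul, card_erase_of_mem hy]
  intro z hz
  exact h.hl y z (mem_erase.1 hz).1.symm

lemma card_pt (h : IsDes R b v r k lam) (y : α) : (R.hyp.filter (fun H => y ∈ H)).card = r := by
  rw [← h.hr y]
  unfold deg
  simp only [singleton_subset_iff]

lemma sum_inter_sq (h : IsDes R b v r k lam) (Y : Finset α) :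
    ∑ H ∈ R.hyp, (Y ∩ H).card ^ 2 = Y.card * (r + (Y.card - 1) * lam) := by
  have : ∑ H ∈ R.hyp, (Y ∩ H).card ^ 2 =
      ∑ y ∈ Y, ∑ H ∈ R.hyp.filter (fun H => y ∈ H), (Y ∩ H).card := by
    rw [Finset.sum_comm' (t' := R.hyp) (s' := fun H => Y ∩ H)]
    · apply sum_congr rfl
      intro H _
      rw [sum_const, smul_eq_mul, sq]
    · intro y H
      simp only [mem_inter, mem_filter]
      tauto
  rw [this, sum_congr rfl (g := fun _ => r + (Y.card - 1) * lam)
    (fun y hy => h.sum_inter_pt Y hy), sum_const, smul_eq_mul]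

lemma real_facts (h : IsDes R b v r k lam) (hb : v < b) (hl : 1 ≤ lam) :
    (2 : ℝ) ≤ k ∧ (k : ℝ) + 2 ≤ v ∧ (b : ℝ) * k = r * v ∧ (r : ℝ) * (k - 1) = lam * (v - 1) ∧
      (v : ℝ) < b ∧ (k : ℝ) < r := by
  have h1 := h.two_le_k hb hl
  have h2 := h.k_lt hb
  obtain ⟨x, y, -⟩ := h.exists_pair hb
  have h3 := h.eq_bk
  have h4 := h.eq_rk x
  have h5 := h.k_lt_r hb hl
  refine ⟨by exact_mod_cast h1, by exact_mod_cast h2, by exact_mod_cast h3, ?_,
    by exact_mod_cast hb, by exact_mod_cast h5⟩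
  have : ((r * (k - 1) : ℕ) : ℝ) = ((lam * (v - 1) : ℕ) : ℝ) := by rw [h4]
  rw [Nat.cast_mul, Nat.cast_mul, Nat.cast_sub (by omega), Nat.cast_sub (by omega)] at this
  simpa using this

/-- the variance identity -/
lemma variance (h : IsDes R b v r k lam) (hb : v < b) (hl : 1 ≤ lam) {H : Finset α}
    (hH : H ∈ R.hyp) : ∑ H' ∈ R.hyp, dv v k (H ∩ H').card ^ 2 = (b : ℝ) / (v - 1) := by
  obtain ⟨f1, f2, f3, f4, f5, f6⟩ := h.real_facts hb hl
  have h1 := h.two_le_k hb hl
  have s1 : ∑ H' ∈ R.hyp, ((H ∩ H').card : ℝ) = k * r := by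
    have := h.sum_inter H
    rw [h.hk H hH] at this
    exact_mod_cast this
  have s2 : ∑ H' ∈ R.hyp, ((H ∩ H').card : ℝ) ^ 2 = k * (r + (k - 1) * lam) := by
    have := h.sum_inter_sq H
    rw [h.hk H hH] at this
    have e : ((∑ H' ∈ R.hyp, (H ∩ H').card ^ 2 : ℕ) : ℝ) = ((k * (r + (k - 1) * lam) : ℕ) : ℝ) := by
      rw [this]
    push_cast [Nat.cast_sub (show 1 ≤ k by omega)] at e
    exact e
  have s0 : ∑ H' ∈ R.hyp, (1 : ℝ) = b := by simp [h.hb]
  have hk0 : (k : ℝ) ≠ 0 := by linarith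
  have hc0 : (v : ℝ) - k ≠ 0 := by linarith
  have hv1 : (v : ℝ) - 1 ≠ 0 := by linarith
  have hv0 : (v : ℝ) ≠ 0 := by linarith
  have e : ∀ H' ∈ R.hyp, dv v k (H ∩ H').card ^ 2 =
      ((v : ℝ) ^ 2 * ((H ∩ H').card : ℝ) ^ 2 - 2 * v * k ^ 2 * ((H ∩ H').card : ℝ) + k ^ 4 * 1) /
        ((k : ℝ) * (v - k)) ^ 2 := by
    intro H' _
    unfold dv
    field_simp
    ring
  rw [sum_congr rfl e, ← sum_div, sum_add_distrib, sum_sub_distrib, ← mul_sum, ← mul_sum,
    ← mul_sum, s0, s1, s2]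
  have hr : (r : ℝ) = b * k / v := by field_simp; linarith
  have hlam : (lam : ℝ) = b * k / v * (k - 1) / (v - 1) := by
    rw [← hr]; field_simp; linarith
  rw [hlam, hr]
  field_simp
  ring

/-- size of a coline -/
lemma coline_real (h : IsDes R b v r k lam) (hb : v < b) {C : Finset α} (hC : R.Flat C)
    (hr : R.rk C + 2 = R.rk univ) :
    ((R.deg C : ℝ) - 1) * (k - C.card) = v - k ∧ (2 : ℝ) ≤ (R.deg C : ℝ) - 1 ∧
      (C.card : ℝ) < k := by
  have h1 := h.coline_eq hC hr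
  have h2 := h.flat_card_lt hC (by omega)
  have h3 := h.k_lt hb
  have h4 := h.three_le_deg hb hC hr
  have e : ((R.deg C * (k - C.card) : ℕ) : ℝ) = ((v - C.card : ℕ) : ℝ) := by rw [h1]
  push_cast [Nat.cast_sub (show C.card ≤ k by omega), Nat.cast_sub (show C.card ≤ v by omega)] at e
  have h5 : (3 : ℝ) ≤ R.deg C := by exact_mod_cast h4
  exact ⟨by linarith, by linarith, by exact_mod_cast h2⟩

lemma dv_coline (h : IsDes R b v r k lam) (hb : v < b) (hl : 1 ≤ lam) {C : Finset α}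
    (hC : R.Flat C) (hr : R.rk C + 2 = R.rk univ) :
    dv v k C.card = 1 - ((v : ℝ) / k) / ((R.deg C : ℝ) - 1) := by
  obtain ⟨f1, f2, -⟩ := h.real_facts hb hl
  obtain ⟨g1, g2, g3⟩ := h.coline_real hb hC hr
  have hk0 : (k : ℝ) ≠ 0 := by linarith
  have hc0 : (v : ℝ) - k ≠ 0 := by linarith
  have ha : (R.deg C : ℝ) - 1 ≠ 0 := by linarith
  have e : (C.card : ℝ) = k - (v - k) / ((R.deg C : ℝ) - 1) := by
    field_simp; linarith
  unfold dv
  rw [e]
  field_simp
  ring

/-- the hyperplanes meeting `H` exactly in a coline `C` -/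
lemma card_fiber {H C : Finset α} (hH : H ∈ R.hyp) (hC : R.Flat C)
    (hr : R.rk C + 2 = R.rk univ) (hCH : C ⊆ H) :
    (R.hyp.filter (fun H' => H ∩ H' = C)).card + 1 = R.deg C := by
  have : R.hyp.filter (fun H' => H ∩ H' = C) = (R.hyp.filter (fun H' => C ⊆ H')).erase H := by
    ext H'
    simp only [mem_filter, mem_erase]
    constructor
    · rintro ⟨h1, h2⟩
      refine ⟨?_, h1, h2 ▸ inter_subset_right⟩
      rintro rfl
      rw [inter_self] at h2
      have := (mem_hyp.1 hH).2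
      rw [h2] at this
      omega
    · rintro ⟨h1, h2, h3⟩
      exact ⟨h2, hyp_inter hC hr hH h2 hCH h3 (Ne.symm h1)⟩
  rw [this]
  exact card_erase_add_one (mem_filter.2 ⟨hH, hCH⟩)

/-- the cost inequality for colines -/
lemma cost_sub (h : IsDes R b v r k lam) (hb : v < b) (hl : 1 ≤ lam) {H : Finset α}
    (hH : H ∈ R.hyp) :
    ∑ C ∈ R.sub H, ((R.deg C : ℝ) - 1 - (v : ℝ) / k) ^ 2 / ((R.deg C : ℝ) - 1) ≤
      (b : ℝ) / (v - 1) := by
  rw [← h.variance hb hl hH]
  have hH' := mem_hyp.1 hH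
  refine le_trans (le_of_eq ?_) (sum_fiberwise_le_sum_of_sum_fiber_nonneg (s := R.hyp)
    (t := R.sub H) (g := fun H' => H ∩ H') (f := fun H' => dv v k (H ∩ H').card ^ 2)
    (fun y _ => sum_nonneg (fun _ _ => sq_nonneg _)))
  apply sum_congr rfl
  intro C hC
  rw [mem_subf] at hC
  have hr : R.rk C + 2 = R.rk univ := by omega
  rw [sum_congr rfl (g := fun _ => dv v k C.card ^ 2), sum_const, nsmul_eq_mul,
    h.dv_coline hb hl hC.1 hr]
  · have e := card_fiber hH hC.1 hr hC.2.1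
    have e' : ((R.hyp.filter (fun H' => H ∩ H' = C)).card : ℝ) = (R.deg C : ℝ) - 1 := by
      rw [← e]; push_cast; ring
    obtain ⟨-, g2, -⟩ := h.coline_real hb hC.1 hr
    have ha : (R.deg C : ℝ) - 1 ≠ 0 := by linarith
    rw [e']
    field_simp
  · intro H' hH'
    rw [(mem_filter.1 hH').2]

/-- a typical coline -/
lemma exists_typical (h : IsDes R b v r k lam) (hb : v < b) (hl : 2 ≤ lam)
    (h0 : 120 * ((b : ℝ) / (v - 1)) ≤ (k : ℝ) ^ 2 / v) :
    ∃ C, R.Flat C ∧ R.rk C + 2 = R.rk univ ∧ |(R.deg C : ℝ) - 1 - (v : ℝ) / k| ≤ 1 / 10 := by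
  have hl1 : 1 ≤ lam := by omega
  obtain ⟨f1, f2, -⟩ := h.real_facts hb hl1
  obtain ⟨H, hH⟩ : R.hyp.Nonempty := card_pos.1 (by rw [h.hb]; omega)
  have hH' := mem_hyp.1 hH
  have hn := h.four_le_rank hb hl
  have h1 := card_le_sub (h.flat_empty hb) (h.flat_single hb hl1) (R.rk univ - 3) H hH'.1
    (by omega)
  rw [h.hk H hH] at h1
  have h2 := h.cost_sub hb hl1 hH
  by_contra hc
  push Not at hc
  have hx1 : (1 : ℝ) ≤ (v : ℝ) / k := by rw [le_div_iff₀ (by linarith)]; linarith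
  set x : ℝ := (v : ℝ) / k with hx
  have h3 : ∀ C ∈ R.sub H, 1 / (110 * x) ≤ ((R.deg C : ℝ) - 1 - x) ^ 2 / ((R.deg C : ℝ) - 1) := by
    intro C hC
    rw [mem_subf] at hC
    have hr : R.rk C + 2 = R.rk univ := by omega
    have h4 := hc C hC.1 hr
    obtain ⟨-, g2, -⟩ := h.coline_real hb hC.1 hr
    generalize (R.deg C : ℝ) - 1 = a at h4 g2
    rw [div_le_div_iff₀ (by positivity) (by linarith)]
    have h5 : a - x ≤ |a - x| := le_abs_self _
    rw [← sq_abs (a - x)]
    generalize |a - x| = t at h4 h5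
    have h6 : 1 + t ≤ 110 * t ^ 2 := by nlinarith
    nlinarith
  have h4 := card_nsmul_le_sum _ _ _ h3
  rw [nsmul_eq_mul] at h4
  have h5 : (k : ℝ) ≤ (R.sub H).card := by exact_mod_cast h1
  have h6 : (k : ℝ) ^ 2 / v = k / x := by rw [hx]; field_simp
  rw [h6] at h0
  have h7 : (k : ℝ) * (1 / (110 * x)) ≤ (b : ℝ) / (v - 1) :=
    le_trans (mul_le_mul_of_nonneg_right h5 (by positivity)) (h4.trans h2)
  have h8 : (k : ℝ) * (1 / (110 * x)) = (k / x) / 110 := by field_simp
  have h9 : 0 < (k : ℝ) / x := by positivity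
  linarith

end IsDes

end Pool.Agent.MP_337c4e_co

end

section
set_option linter.unusedSectionVars false
set_option linter.unusedVariables false

namespace Pool.Agent.MP_337c4e_co

open Finset RkFn

variable {α : Type} [Fintype α] [DecidableEq α]

lemma cost_aux (S q Q x : ℝ) (hq : 2 ≤ q) (hx : x ≤ q + 1 / 10) (c2 : Q ≤ 2 * x * (q + 1))
    (h5 : 1 / 4 ≤ (q + 1) * S) : (Q + 1) / (24 * q ^ 3) ≤ S := by
  have hq0 : 0 < q := by linarith
  rw [div_le_iff₀ (by positivity)]
  have h7 : Q + 1 ≤ 2 * (q + 1 / 10) * (q + 1) + 1 := by nlinarith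
  have h8 : (2 * (q + 1 / 10) * (q + 1) + 1) * (q + 1) ≤ 6 * q ^ 3 := by
    nlinarith [mul_nonneg (sub_nonneg.2 hq) (sq_nonneg q), mul_nonneg (sub_nonneg.2 hq) hq0.le]
  have h9 : (Q + 1) * (q + 1) ≤ 6 * q ^ 3 :=
    (mul_le_mul_of_nonneg_right h7 (by linarith)).trans h8
  have h10 : (Q + 1) * (q + 1) ≤ (S * (24 * q ^ 3)) * (q + 1) := by
    have := mul_le_mul_of_nonneg_right h5 (show 0 ≤ 24 * q ^ 3 by positivity)
    linarith
  exact le_of_mul_le_mul_right h10 (by linarith)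

lemma cost_real {ι : Type} [DecidableEq ι] (s T : Finset ι) (y : ι → ℝ) (u q Q x : ℝ)
    (hT : T ⊆ s) (hy0 : ∀ i ∈ s, i ∉ T → y i = 0) (hTc : (T.card : ℝ) ≤ q + 1)
    (hsum : ∑ i ∈ s, y i = 1 - u) (hy : ∀ i ∈ s, y i ≤ x / Q) (hs : (s.card : ℝ) = Q + 1)
    (hQ : q + 1 ≤ Q) (hq : 2 ≤ q) (hx0 : 0 < x) (hx : x ≤ q + 1 / 10) (hu : u < 1) :
    (Q + 1) / (24 * q ^ 3) ≤ ∑ i ∈ s, (u + y i) ^ 2 := by
  have hq0 : 0 < q := by linarith
  have hQ0 : 0 < Q := by linarith
  have e1 : ∑ i ∈ T, y i = 1 - u := by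
    rw [← hsum]
    exact sum_subset hT hy0
  have hne : (1 : ℝ) ≤ T.card := by
    have : T.Nonempty := by
      by_contra hc
      rw [not_nonempty_iff_eq_empty] at hc
      rw [hc, sum_empty] at e1
      linarith
    exact_mod_cast card_pos.2 this
  have e2 : ∑ i ∈ s, (u + y i) ^ 2 = ∑ i ∈ s \ T, (u + y i) ^ 2 + ∑ i ∈ T, (u + y i) ^ 2 :=
    (sum_sdiff hT).symm
  have e3 : ∑ i ∈ s \ T, (u + y i) ^ 2 = ((s.card : ℝ) - T.card) * u ^ 2 := by
    rw [sum_congr rfl (g := fun _ => u ^ 2), sum_const, nsmul_eq_mul, card_sdiff_of_subset hT,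
      Nat.cast_sub (card_le_card hT)]
    intro i hi
    rw [mem_sdiff] at hi
    rw [hy0 i hi.1 hi.2, add_zero]
  have n1 : 0 ≤ ∑ i ∈ T, (u + y i) ^ 2 := sum_nonneg (fun _ _ => sq_nonneg _)
  have n2 : (Q - q) * u ^ 2 ≤ ((s.card : ℝ) - T.card) * u ^ 2 :=
    mul_le_mul_of_nonneg_right (by linarith) (sq_nonneg _)
  have n3 : 0 ≤ (Q - q) * u ^ 2 := mul_nonneg (by linarith) (sq_nonneg _)
  have big : ∀ w : ℝ, 1 / (4 * q ^ 2) ≤ w → (Q + 1) / (24 * q ^ 3) ≤ (Q - q) * w := by
    intro w hw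
    refine le_trans ?_ (mul_le_mul_of_nonneg_left hw (by linarith))
    rw [mul_one_div, div_le_div_iff₀ (by positivity) (by positivity)]
    have : Q + 1 ≤ (Q - q) * (6 * q) := by nlinarith
    nlinarith [mul_le_mul_of_nonneg_right this (show 0 ≤ 4 * q ^ 2 by positivity)]
  by_cases c1 : u ≤ -(1 / (2 * q))
  · have : 1 / (4 * q ^ 2) ≤ u ^ 2 := by
      have h1 : 0 ≤ 1 / (2 * q) := by positivity
      have h2 : 1 / (4 * q ^ 2) = (1 / (2 * q)) ^ 2 := by field_simp; norm_num
      rw [h2]; nlinarith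
    linarith [big _ this]
  by_cases c2 : 2 * x * (q + 1) < Q
  · have h1 : ∑ i ∈ T, y i ≤ T.card * (x / Q) := by
      have := sum_le_card_nsmul T y (x / Q) (fun i hi => hy i (hT hi))
      rwa [nsmul_eq_mul] at this
    have h2 : (T.card : ℝ) * (x / Q) ≤ (q + 1) * (x / Q) :=
      mul_le_mul_of_nonneg_right hTc (by positivity)
    have h3 : (q + 1) * (x / Q) ≤ 1 / 2 := by
      rw [← mul_div_assoc, div_le_iff₀ hQ0]; linarith
    have h4 : 1 / (4 * q ^ 2) ≤ u ^ 2 := by
      have h5 : 1 / (4 * q ^ 2) ≤ 1 / 4 :=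
        one_div_le_one_div_of_le (by norm_num) (by nlinarith)
      nlinarith
    linarith [big _ h4]
  push Not at c1 c2
  have h1 : ∑ i ∈ T, (u + y i) = 1 + (T.card - 1) * u := by
    rw [sum_add_distrib, sum_const, nsmul_eq_mul, e1]; ring
  have h2 : 1 / 2 ≤ ∑ i ∈ T, (u + y i) := by
    rw [h1]
    have h3 : ((T.card : ℝ) - 1) * (-(1 / (2 * q))) ≤ (T.card - 1) * u :=
      mul_le_mul_of_nonneg_left c1.le (by linarith)
    have h4 : ((T.card : ℝ) - 1) * (1 / (2 * q)) ≤ q * (1 / (2 * q)) :=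
      mul_le_mul_of_nonneg_right (by linarith) (by positivity)
    have h5 : q * (1 / (2 * q)) = 1 / 2 := by field_simp
    linarith
  have h3 := sq_sum_le_card_mul_sum_sq (s := T) (f := fun i => u + y i)
  have h4 : (T.card : ℝ) * ∑ i ∈ T, (u + y i) ^ 2 ≤ (q + 1) * ∑ i ∈ T, (u + y i) ^ 2 :=
    mul_le_mul_of_nonneg_right hTc n1
  have h5 : 1 / 4 ≤ (q + 1) * ∑ i ∈ T, (u + y i) ^ 2 := by
    have := pow_le_pow_left₀ (by norm_num) h2 2
    linarith
  linarith [cost_aux _ q Q x hq hx c2 h5]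

namespace IsDes

variable {R : RkFn α} {b v r k lam : ℕ}

/-- cost of a short hyperplane `H'` against the hyperplanes over a heavy coline `G` -/
lemma line_cost (h : IsDes R b v r k lam) (hb : v < b) (hl : 1 ≤ lam) {q : ℕ} (hq : 2 ≤ q)
    (hx : (v : ℝ) / k ≤ q + 1 / 10) {G F H' : Finset α} (hG : R.Flat G)
    (hr : R.rk G + 2 = R.rk univ) (hQ : q + 2 ≤ R.deg G) (hF : F ∈ R.sub G) (hH' : H' ∈ R.hyp)
    (hGH : G ∩ H' = F) (ht : (R.cov F H').card ≤ q + 1) :
    (R.deg G : ℝ) / (24 * (q : ℝ) ^ 3) ≤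
      ∑ H ∈ R.hyp.filter (fun H => G ⊆ H), dv v k (H ∩ H').card ^ 2 := by
  obtain ⟨f1, f2, -⟩ := h.real_facts hb hl
  obtain ⟨g1, g2, g3⟩ := h.coline_real hb hG hr
  rw [mem_subf] at hF
  have hFH : F ⊆ H' := hGH ▸ inter_subset_right
  have hk0 : (0 : ℝ) < k := by linarith
  have hc0 : (0 : ℝ) < (v : ℝ) - k := by linarith
  have hfk : F.card < k := h.flat_card_lt hF.1 (by omega)
  have hGH' : ¬ G ⊆ H' := by
    intro hh
    rw [inter_eq_left.2 hh] at hGH
    have := hF.2.2
    rw [← hGH] at this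
    omega
  set s := R.hyp.filter (fun H => G ⊆ H) with hs
  let w : Finset α → ℕ := fun H => ((H ∩ H') \ G).card
  have hw : ∀ H ∈ s, (H ∩ H').card = F.card + w H := by
    intro H hH
    rw [hs, mem_filter] at hH
    have e := card_sdiff_add_card_inter (H ∩ H') G
    have e2 : H ∩ H' ∩ G = F := by
      rw [← hGH]
      ext p
      simp only [mem_inter]
      exact ⟨fun hh => ⟨hh.2, hh.1.2⟩, fun hh => ⟨⟨hH.2 hh.1, hh.2⟩, hh.1⟩⟩
    rw [e2] at e
    simp only [w]
    omega
  have hsum : ∑ H ∈ s, w H = k - F.card := by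
    have e := sum_hyp_inter hG hr H'
    have e2 := card_sdiff_add_card_inter H' G
    rw [inter_comm H' G, hGH, h.hk H' hH'] at e2
    have e3 : ∑ H ∈ s, w H = (H' \ G).card := e
    omega
  have key := cost_real s (s.filter (fun H => H ∩ H' ≠ F))
    (fun H => (v : ℝ) / (k * (v - k)) * w H) (dv v k F.card) q ((R.deg G : ℝ) - 1) ((v : ℝ) / k)
    (filter_subset _ _) ?_ ?_ ?_ ?_ ?_ ?_ (by exact_mod_cast hq) (div_pos (by linarith) hk0) hx ?_
  · rw [sub_add_cancel] at key
    refine key.trans (le_of_eq (sum_congr rfl ?_))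
    intro H hH
    rw [hw H hH]
    unfold dv
    push_cast
    congr 1
    field_simp
    ring
  · intro H hH hH2
    have e : H ∩ H' = F := by
      by_contra hc
      exact hH2 (mem_filter.2 ⟨hH, hc⟩)
    have := hw H hH
    rw [e] at this
    have e2 : w H = 0 := by omega
    simp [e2]
  · have : (s.filter (fun H => H ∩ H' ≠ F)).card ≤ (R.cov F H').card := by
      have ex : ∀ H ∈ s.filter (fun H => H ∩ H' ≠ F), ∃ p ∈ H ∩ H', p ∉ G := by
        intro H hH
        rw [mem_filter] at hH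
        by_contra hc
        push Not at hc
        apply hH.2
        apply subset_antisymm
        · intro p hp
          rw [← hGH]
          exact mem_inter.2 ⟨hc p hp, (mem_inter.1 hp).2⟩
        · exact subset_inter (hF.2.1.trans (mem_filter.1 hH.1).2) hFH
      refine card_le_card_of_injOn (fun H => H ∩ H') (fun H hH => ?_) fun H hH K hK e => ?_
      · have hH2 := mem_coe.1 hH
        obtain ⟨p, hp, hpG⟩ := ex H hH2
        have m1 := mem_filter.1 (mem_filter.1 hH2).1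
        have m2 := mem_hyp.1 m1.1
        have m3 := mem_hyp.1 hH'
        have hsub : F ⊆ H ∩ H' := subset_inter (hF.2.1.trans m1.2) hFH
        refine mem_coe.2 (mem_cov.2 ⟨m2.1.inter m3.1, hsub, inter_subset_right, ?_⟩)
        have r1 := R.mono (insert_subset hp hsub)
        rw [hF.1.rk_insert (fun hh => hpG (hF.2.1 hh))] at r1
        have r2 : R.rk (H ∩ H') < R.rk H := by
          by_contra hc
          have := (m2.1.inter m3.1).eq_of_subset_of_rk_le inter_subset_left (not_lt.1 hc)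
          exact hGH' (m1.2.trans (this ▸ inter_subset_right))
        show R.rk (H ∩ H') = R.rk F + 1
        omega
      · have hH2 := mem_coe.1 hH
        have hK2 := mem_coe.1 hK
        obtain ⟨p, hp, hpG⟩ := ex H hH2
        have m1 := mem_filter.1 (mem_filter.1 hH2).1
        have m2 := mem_filter.1 (mem_filter.1 hK2).1
        have e' : H ∩ H' = K ∩ H' := e
        exact hyp_unique hG hr m1.1 m2.1 m1.2 m2.2 hpG (mem_inter.1 hp).1
          (mem_inter.1 (e' ▸ hp)).1
    exact_mod_cast this.trans ht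
  · rw [← mul_sum, ← Nat.cast_sum, hsum, Nat.cast_sub hfk.le]
    unfold dv
    field_simp
    ring
  · intro H hH
    rw [hs, mem_filter] at hH
    have e1 : w H ≤ (H \ G).card := card_le_card (sdiff_subset_sdiff inter_subset_left subset_rfl)
    rw [card_sdiff_of_subset hH.2, h.hk H hH.1] at e1
    have e2 : (w H : ℝ) ≤ k - G.card := by
      have : G.card ≤ k := by exact_mod_cast g3.le
      rw [← Nat.cast_sub this]; exact_mod_cast e1
    have e3 : (k : ℝ) - G.card = (v - k) / ((R.deg G : ℝ) - 1) := by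
      rw [eq_div_iff (by linarith)]; linarith
    refine (mul_le_mul_of_nonneg_left e2 (by positivity)).trans (le_of_eq ?_)
    rw [e3]
    field_simp
  · rw [sub_add_cancel]; rfl
  · have : ((q + 2 : ℕ) : ℝ) ≤ R.deg G := by exact_mod_cast hQ
    push_cast at this
    linarith
  · unfold dv
    rw [div_lt_one (by positivity)]
    have : (F.card : ℝ) < k := by exact_mod_cast hfk
    nlinarith

/-- many hyperplanes over `F` avoid two given colines over `F` -/
lemma many_lines (h : IsDes R b v r k lam) (hb : v < b) (hl : 1 ≤ lam) {q : ℕ} (hq : 2 ≤ q)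
    (hx : (q : ℝ) - 1 / 10 ≤ (v : ℝ) / k) {G F z : Finset α} (hF : R.Flat F)
    (hr : R.rk F + 3 = R.rk univ) (hG : G ∈ R.cov F univ) (hz : z ∈ R.cov F univ) :
    (q : ℝ) ^ 2 / 5 ≤ ((R.hyp.filter (fun H' => G ∩ H' = F)).filter (fun H' => ¬ z ⊆ H')).card := by
  obtain ⟨f1, f2, -⟩ := h.real_facts hb hl
  have hk0 : (0 : ℝ) < k := by linarith
  obtain ⟨K, hK, hGK, hzK⟩ := exists_hyp_cov hF hr hG hz
  have mG := mem_cov.1 hG
  have mz := mem_cov.1 hz
  set L := (R.hyp.filter (fun H' => G ∩ H' = F)).filter (fun H' => ¬ z ⊆ H') with hL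
  have h1 : ∀ p ∈ univ \ K, max 1 (q - 2) ≤ (L.filter (fun H' => p ∈ H')).card := by
    intro p hp
    have hpK := (mem_sdiff.1 hp).2
    have hpF : p ∉ F := fun hh => hpK (hGK (mG.2.1 hh))
    have hr' : R.rk (R.cl (insert p F)) + 2 = R.rk univ := by rw [hF.rk_cl_insert hpF]; omega
    obtain ⟨g1, g2, g3⟩ := h.coline_real hb (cl_flat _) hr'
    have d3 := h.three_le_deg hb (cl_flat _) hr'
    have dq : q ≤ R.deg (R.cl (insert p F)) := by
      have e0 : (0 : ℝ) ≤ (R.cl (insert p F)).card := Nat.cast_nonneg _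
      have e1 : (v : ℝ) / k ≤ R.deg (R.cl (insert p F)) := by
        rw [div_le_iff₀ hk0]; nlinarith
      have e2 : (q : ℝ) < R.deg (R.cl (insert p F)) + 1 := by linarith
      have e3 : q < R.deg (R.cl (insert p F)) + 1 := by exact_mod_cast e2
      omega
    have hsub : R.hyp.filter (fun H => R.cl (insert p F) ⊆ H) ⊆
        insert (R.cl (insert p G)) (insert (R.cl (insert p z)) (L.filter (fun H' => p ∈ H'))) := by
      intro H hH
      rw [mem_filter] at hH
      have hpH : p ∈ H := hH.2 (mem_cl_insert _ _)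
      have hFH : F ⊆ H := (subset_cl_insert _ _).trans hH.2
      simp only [mem_insert, hL, mem_filter]
      by_cases c1 : G ⊆ H
      · left
        exact hyp_eq_cl (by rw [mG.1.rk_insert (fun hh => hpK (hGK hh))]; omega) hH.1
          (insert_subset hpH c1)
      by_cases c2 : z ⊆ H
      · right; left
        exact hyp_eq_cl (by rw [mz.1.rk_insert (fun hh => hpK (hzK hh))]; omega) hH.1
          (insert_subset hpH c2)
      right; right
      exact ⟨⟨⟨hH.1, inter_eq_of_cov hF mG.1 (mem_hyp.1 hH.1).1 mG.2.1 (by omega) hFH c1⟩, c2⟩,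
        hpH⟩
    have c1 := card_le_card hsub
    have c2 := card_insert_le (R.cl (insert p G))
      (insert (R.cl (insert p z)) (L.filter (fun H' => p ∈ H')))
    have c3 := card_insert_le (R.cl (insert p z)) (L.filter (fun H' => p ∈ H'))
    unfold deg at d3 dq
    omega
  have h2 := card_nsmul_le_sum _ _ _ h1
  have h3 : ∑ p ∈ univ \ K, (L.filter (fun H' => p ∈ H')).card = ∑ H' ∈ L, (H' \ K).card := by
    simp only [card_eq_sum_ones]
    rw [Finset.sum_comm' (t' := L) (s' := fun H' => H' \ K)]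
    intro p H'
    simp only [mem_sdiff, mem_univ, true_and, mem_filter]
    tauto
  have h4 : ∑ H' ∈ L, (H' \ K).card ≤ L.card • k := by
    apply sum_le_card_nsmul
    intro H' hH'
    rw [hL, mem_filter, mem_filter] at hH'
    rw [← h.hk H' hH'.1.1]
    exact card_le_card sdiff_subset
  rw [card_sdiff_of_subset (subset_univ _), card_univ, h.hv, h.hk K hK, smul_eq_mul, h3] at h2
  rw [smul_eq_mul] at h4
  have h5 : (((v - k) * max 1 (q - 2) : ℕ) : ℝ) ≤ ((L.card * k : ℕ) : ℝ) := by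
    exact_mod_cast h2.trans h4
  have hkv := h.k_lt hb
  rw [Nat.cast_mul, Nat.cast_mul, Nat.cast_sub (by omega)] at h5
  have h6 : ((q : ℝ) - 11 / 10) * k ≤ v - k := by
    rw [le_div_iff₀ hk0] at hx; linarith
  have h7 : (q : ℝ) ^ 2 / 5 ≤ ((q : ℝ) - 11 / 10) * ((max 1 (q - 2) : ℕ) : ℝ) := by
    rcases (show q = 2 ∨ q = 3 ∨ 4 ≤ q by omega) with rfl | rfl | h8
    · norm_num
    · norm_num
    · rw [max_eq_right (by omega), Nat.cast_sub hq]
      have : (4 : ℝ) ≤ q := by exact_mod_cast h8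
      push_cast
      nlinarith
  have h8 : (0 : ℝ) ≤ ((max 1 (q - 2) : ℕ) : ℝ) := Nat.cast_nonneg _
  have h9 : (q : ℝ) ^ 2 / 5 * k ≤ L.card * k := by nlinarith
  exact le_of_mul_le_mul_right h9 hk0

/-- cost over a flat of corank three below a heavy coline -/
lemma flat_cost (h : IsDes R b v r k lam) (hb : v < b) (hl : 1 ≤ lam) {q : ℕ} (hq : 2 ≤ q)
    (hx : |(q : ℝ) - (v : ℝ) / k| ≤ 1 / 10) {G F : Finset α} (hG : R.Flat G)
    (hr : R.rk G + 2 = R.rk univ) (hQ : q + 2 ≤ R.deg G) (hF : F ∈ R.sub G) :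
    (R.deg G : ℝ) / (120 * q) ≤ ∑ H' ∈ R.hyp.filter (fun H' => G ∩ H' = F),
      ∑ H ∈ R.hyp.filter (fun H => G ⊆ H), dv v k (H ∩ H').card ^ 2 := by
  have mF := mem_subf.1 hF
  have hq' : (2 : ℝ) ≤ q := by exact_mod_cast hq
  rw [abs_le] at hx
  have hGc : G ∈ R.cov F univ := mem_cov.2 ⟨hG, mF.2.1, subset_univ _, by omega⟩
  by_cases hc : ∃ z ∈ R.cov F univ, R.deg z ≤ q + 1
  · obtain ⟨z, hz, hzq⟩ := hc
    have h1 := h.many_lines hb hl hq (by linarith) mF.1 (by omega) hGc hz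
    refine le_trans ?_ (sum_le_sum_of_subset_of_nonneg (filter_subset (fun H' => ¬ z ⊆ H') _)
      (fun _ _ _ => sum_nonneg (fun _ _ => sq_nonneg _)))
    have h2 := card_nsmul_le_sum ((R.hyp.filter (fun H' => G ∩ H' = F)).filter (fun H' => ¬ z ⊆ H'))
      (fun H' => ∑ H ∈ R.hyp.filter (fun H => G ⊆ H), dv v k (H ∩ H').card ^ 2)
      ((R.deg G : ℝ) / (24 * (q : ℝ) ^ 3)) (by
        intro H' hH'
        rw [mem_filter, mem_filter] at hH'
        apply h.line_cost hb hl hq (by linarith) hG hr hQ hF hH'.1.1 hH'.1.2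
        exact (cov_le_deg mF.1 (by omega) hH'.1.1 (hH'.1.2 ▸ inter_subset_right) hz hH'.2).trans
          hzq)
    rw [nsmul_eq_mul] at h2
    refine le_trans ?_ h2
    refine le_trans (le_of_eq ?_) (mul_le_mul_of_nonneg_right h1 (by positivity))
    field_simp
    ring
  · push Not at hc
    rw [sum_comm]
    have h2 := card_nsmul_le_sum (R.hyp.filter (fun H => G ⊆ H))
      (fun H => ∑ H' ∈ R.hyp.filter (fun H' => G ∩ H' = F), dv v k (H ∩ H').card ^ 2)
      (1 / (120 * q)) (by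
        intro H hH
        rw [mem_filter] at hH
        have mH := mem_hyp.1 hH.1
        obtain ⟨p, hp, hpG⟩ := exists_notMem_of_rk_lt (R := R) (F := G) (T := H) (by omega)
        have hpF : p ∉ F := fun hh => hpG (mF.2.1 hh)
        have hz := cl_insert_mem_cov mF.1 flat_univ (subset_univ _) (mem_univ p) hpF
        have hzH : R.cl (insert p F) ⊆ H := mH.1.cl_subset (insert_subset hp (mF.2.1.trans hH.2))
        have hne : G ≠ R.cl (insert p F) := fun e => hpG (e ▸ mem_cl_insert _ _)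
        have hi := cov_inter mF.1 hGc hz hne
        have hd := hc _ hz
        generalize R.cl (insert p F) = z at hz hzH hne hi hd
        have mz := mem_cov.1 hz
        have hr' : R.rk z + 2 = R.rk univ := by omega
        have hsub : R.hyp.filter (fun H' => H ∩ H' = z) ⊆ R.hyp.filter (fun H' => G ∩ H' = F) := by
          intro H' hH'
          rw [mem_filter] at hH' ⊢
          refine ⟨hH'.1, ?_⟩
          rw [← hi, ← hH'.2, ← inter_assoc, inter_eq_left.2 hH.2]
        refine le_trans ?_ (sum_le_sum_of_subset_of_nonneg hsub (fun _ _ _ => sq_nonneg _))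
        rw [sum_congr rfl (g := fun _ => dv v k z.card ^ 2) (fun H' hH' => by
          rw [(mem_filter.1 hH').2]), sum_const, nsmul_eq_mul, h.dv_coline hb hl mz.1 hr']
        have e := card_fiber hH.1 mz.1 hr' hzH
        have e' : ((R.hyp.filter (fun H' => H ∩ H' = z)).card : ℝ) = (R.deg z : ℝ) - 1 := by
          rw [← e]; push_cast; ring
        rw [e']
        have e2 : ((q + 2 : ℕ) : ℝ) ≤ R.deg z := by exact_mod_cast hd
        push_cast at e2
        have e3 : (q : ℝ) + 1 ≤ (R.deg z : ℝ) - 1 := by linarith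
        generalize (R.deg z : ℝ) - 1 = a at e3
        generalize (v : ℝ) / k = x at hx
        have ha : 0 < a := by linarith
        have e4 : a * (1 - x / a) ^ 2 = (a - x) ^ 2 / a := by field_simp
        rw [e4, div_le_div_iff₀ (by positivity) ha]
        have e5 : 9 / 10 * (a - q) ≤ a - x := by linarith
        have e6 : (9 / 10 * (a - q)) ^ 2 ≤ (a - x) ^ 2 := pow_le_pow_left₀ (by linarith) e5 2
        have e7 : a ≤ (9 / 10 * (a - q)) ^ 2 * (120 * q) := by
          have : 1 ≤ a - q := by linarith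
          nlinarith [mul_le_mul this this (by norm_num) (by linarith : (0:ℝ) ≤ a - q),
            mul_nonneg (sub_nonneg.2 this) (sub_nonneg.2 hq')]
        nlinarith)
    rw [nsmul_eq_mul] at h2
    refine le_trans (le_of_eq ?_) h2
    rw [mul_one_div]; rfl

lemma sub_card_le (h : IsDes R b v r k lam) (hb : v < b) (hl1 : 1 ≤ lam) {q : ℕ} (hq : 2 ≤ q)
    (hx : |(q : ℝ) - (v : ℝ) / k| ≤ 1 / 10) {G : Finset α} (hG : R.Flat G)
    (hr : R.rk G + 2 = R.rk univ) (hQ' : q + 2 ≤ R.deg G) :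
    ((R.sub G).card : ℝ) ≤ 120 * q * ((b : ℝ) / (v - 1)) := by
  have hq' : (2 : ℝ) ≤ q := by exact_mod_cast hq
  have c2 := card_nsmul_le_sum (R.sub G) _ _ (fun F hF => h.flat_cost hb hl1 hq hx hG hr hQ' hF)
  have c3 := sum_fiberwise_le_sum_of_sum_fiber_nonneg (s := R.hyp) (t := R.sub G)
    (g := fun H' => G ∩ H')
    (f := fun H' => ∑ H ∈ R.hyp.filter (fun H => G ⊆ H), dv v k (H ∩ H').card ^ 2)
    (fun y _ => sum_nonneg (fun _ _ => sum_nonneg (fun _ _ => sq_nonneg _)))
  rw [sum_comm (s := R.hyp), sum_congr rfl (g := fun _ => (b : ℝ) / (v - 1))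
    (fun H hH => h.variance hb hl1 (mem_filter.1 hH).1), sum_const, nsmul_eq_mul] at c3
  rw [nsmul_eq_mul] at c2
  have c4 : ((R.hyp.filter (fun H => G ⊆ H)).card : ℝ) = R.deg G := rfl
  rw [c4] at c3
  have d0 : ((q + 2 : ℕ) : ℝ) ≤ R.deg G := by exact_mod_cast hQ'
  push_cast at d0
  have c5 := c2.trans c3
  have e : ((R.sub G).card : ℝ) * ((R.deg G : ℝ) / (120 * q)) =
    R.deg G * ((R.sub G).card / (120 * q)) := by ring
  rw [e] at c5
  have := le_of_mul_le_mul_left c5 (by linarith)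
  rwa [div_le_iff₀' (by positivity)] at this

lemma heavy_size (h : IsDes R b v r k lam) (hb : v < b) (hl1 : 1 ≤ lam) {q : ℕ} (hq : 2 ≤ q)
    (hx : |(q : ℝ) - (v : ℝ) / k| ≤ 1 / 10) {G : Finset α} (hG : R.Flat G)
    (hr : R.rk G + 2 = R.rk univ) (hQ' : q + 2 ≤ R.deg G) : (k : ℝ) ^ 2 / v ≤ G.card := by
  obtain ⟨f1, f2, -, -, f5, -⟩ := h.real_facts hb hl1
  have hq' : (2 : ℝ) ≤ q := by exact_mod_cast hq
  have d0 : ((q + 2 : ℕ) : ℝ) ≤ R.deg G := by exact_mod_cast hQ'
  push_cast at d0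
  rw [abs_le] at hx
  have e := h.dv_coline hb hl1 hG hr
  have e2 : ((v : ℝ) / k) / ((R.deg G : ℝ) - 1) ≤ 1 := by
    rw [div_le_one (by linarith)]; linarith
  have e3 : 0 ≤ dv v k G.card := by linarith
  unfold dv at e3
  rw [le_div_iff₀ (mul_pos (by linarith) (by linarith))] at e3
  rw [div_le_iff₀ (by linarith)]
  linarith

/-- there are no heavy colines -/
theorem no_heavy (h : IsDes R b v r k lam) (hb : v < b) (hl : 2 ≤ lam) {q : ℕ} (hq : 2 ≤ q)
    (hx : |(q : ℝ) - (v : ℝ) / k| ≤ 1 / 10)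
    (h1 : 130 * ((b : ℝ) / (v - 1)) * ((v : ℝ) / k) ≤ (k : ℝ) ^ 2 / v)
    (G : Finset α) (hG : R.Flat G) (hr : R.rk G + 2 = R.rk univ) : R.deg G ≤ q + 1 := by
  have hl1 : 1 ≤ lam := by omega
  by_contra hQ
  have hQ' : q + 2 ≤ R.deg G := by omega
  obtain ⟨f1, f2, -, -, f5, -⟩ := h.real_facts hb hl1
  have hn := h.four_le_rank hb hl
  have hq' : (2 : ℝ) ≤ q := by exact_mod_cast hq
  have c1 := card_le_sub (h.flat_empty hb) (h.flat_single hb hl1) (R.rk univ - 4) G hG (by omega)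
  have c6 : (G.card : ℝ) ≤ 120 * q * ((b : ℝ) / (v - 1)) :=
    le_trans (by exact_mod_cast c1) (h.sub_card_le hb hl1 hq hx hG hr hQ')
  have c7 := h.heavy_size hb hl1 hq hx hG hr hQ'
  rw [abs_le] at hx
  have hB : 0 < (b : ℝ) / (v - 1) := div_pos (by linarith) (by linarith)
  generalize (b : ℝ) / (v - 1) = B at *
  nlinarith

end IsDes

end Pool.Agent.MP_337c4e_co

end

section
set_option linter.unusedSectionVars false
set_option linter.unusedVariables false

namespace Pool.Agent.MP_337c4e_co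

open Finset RkFn

variable {α : Type} [Fintype α] [DecidableEq α]

/-- excess of a size over the threshold `k - (v - k) / (q - 1)`, scaled by `q - 1` -/
def psi (v k q s : ℕ) : ℤ := ((q : ℤ) - 1) * s - ((q : ℤ) * k - v)

namespace IsDes

variable {R : RkFn α} {b v r k lam : ℕ}

lemma cov_int {F T : Finset α} (hF : R.Flat F) (hT : R.Flat T) (hFT : F ⊆ T) (m : ℤ)
    (hm : ∀ G ∈ R.cov F T, (G.card : ℤ) = m) :
    ((R.cov F T).card : ℤ) * (m - F.card) = T.card - F.card := by
  have h1 := sum_cov_card hF hT hFT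
  have h2 : ((∑ G ∈ R.cov F T, (G \ F).card : ℕ) : ℤ) = ((T \ F).card : ℕ) := by rw [h1]
  rw [Nat.cast_sum, sum_congr rfl (g := fun _ => m - F.card), sum_const, nsmul_eq_mul,
    card_sdiff_of_subset hFT, Nat.cast_sub (card_le_card hFT)] at h2
  · exact h2
  · intro G hG
    have := (mem_cov.1 hG).2.1
    rw [card_sdiff_of_subset this, Nat.cast_sub (card_le_card this), hm G hG]

lemma psi_mono {q : ℕ} (hq : 2 ≤ q) {F G : Finset α} (hFG : F ⊆ G) :
    psi v k q F.card ≤ psi v k q G.card := by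
  unfold psi
  have h1 : (F.card : ℤ) ≤ G.card := by exact_mod_cast card_le_card hFG
  have h2 : (2 : ℤ) ≤ q := by exact_mod_cast hq
  nlinarith

/-- large flats have the sizes of a projective geometry -/
lemma good (h : IsDes R b v r k lam) (hb : v < b) {q : ℕ} (hq : 2 ≤ q)
    (hm : ∀ C, R.Flat C → R.rk C + 2 = R.rk univ → R.deg C ≤ q + 1) :
    ∀ (j : ℕ) (F : Finset α), R.Flat F → R.rk F + j = R.rk univ → 0 < psi v k q F.card →
      (q : ℤ) ^ j * psi v k q F.card = q * ((v : ℤ) - k) := by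
  intro j
  induction j using Nat.strong_induction_on with
  | _ j ih =>
    intro F hF hr hp
    rcases (show j = 0 ∨ j = 1 ∨ 2 ≤ j by omega) with rfl | rfl | hj
    · have : F = univ := hF.eq_of_subset_of_rk_le (subset_univ _) (by omega)
      rw [this, card_univ, h.hv]
      unfold psi; ring
    · rw [h.hk F (mem_hyp.2 ⟨hF, hr⟩)]
      unfold psi; ring
    obtain ⟨i, rfl⟩ : ∃ i, j = i + 2 := ⟨j - 2, by omega⟩
    obtain ⟨T, hT, hFT, -, rT⟩ := hF.exists_rk flat_univ (subset_univ _) (R.rk F + 2) (by omega)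
      (by omega)
    obtain ⟨G0, hG0, hFG, hGT, rG⟩ := hF.exists_rk hT hFT (R.rk F + 1) (by omega) (by omega)
    have hq' : (2 : ℤ) ≤ q := by exact_mod_cast hq
    have hq0 : (q : ℤ) ^ (i + 1) ≠ 0 := pow_ne_zero _ (by omega)
    have e0 := ih (i + 1) (by omega) G0 hG0 (by omega) (hp.trans_le (psi_mono hq hFG))
    have eT := ih i (by omega) T hT (by omega) (hp.trans_le (psi_mono hq hFT))
    have e1 : ∀ G ∈ R.cov F T, (G.card : ℤ) = G0.card := by
      intro G hG
      rw [mem_cov] at hG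
      have e := ih (i + 1) (by omega) G hG.1 (by omega) (hp.trans_le (psi_mono hq hG.2.1))
      have e' := mul_left_cancel₀ hq0 (e.trans e0.symm)
      unfold psi at e'
      exact mul_left_cancel₀ (show (q : ℤ) - 1 ≠ 0 by omega) (by linarith)
    have e2 := cov_int hF hT hFT _ e1
    have e3 := cov_card_le hm i F T hF hT hFT rT (by omega)
    have e4 : psi v k q T.card = q * psi v k q G0.card := by
      apply mul_left_cancel₀ (pow_ne_zero i (show (q : ℤ) ≠ 0 by omega))
      rw [eT, ← e0]; ring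
    have e5 : (F.card : ℤ) < G0.card := by
      have : F.card < G0.card := card_lt_card ⟨hFG, fun hh => by have := R.mono hh; omega⟩
      exact_mod_cast this
    have e6 : ((R.cov F T).card : ℤ) ≤ q + 1 := by exact_mod_cast e3
    have e7 : ((R.cov F T).card : ℤ) * (psi v k q G0.card - psi v k q F.card) =
        psi v k q T.card - psi v k q F.card := by
      unfold psi
      linear_combination ((q : ℤ) - 1) * e2
    have e8 : psi v k q F.card < psi v k q G0.card := by
      unfold psi; nlinarith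
    rw [e4] at e7
    generalize psi v k q G0.card = P at *
    generalize psi v k q F.card = p at *
    generalize ((R.cov F T).card : ℤ) = t at *
    have e9 : t = q + 1 := by
      by_contra hc
      have h1 : t ≤ q := by omega
      nlinarith [mul_le_mul_of_nonneg_right h1 (show 0 ≤ P - p by linarith)]
    rw [e9] at e7
    have e10 : P = q * p := by linarith
    rw [← e0, e10]; ring

lemma good_cov (h : IsDes R b v r k lam) (hb : v < b) {q : ℕ} (hq : 2 ≤ q)
    (hm : ∀ C, R.Flat C → R.rk C + 2 = R.rk univ → R.deg C ≤ q + 1) {F G T : Finset α}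
    (hF : R.Flat F) (hp : 0 < psi v k q F.card) (hG : G ∈ R.cov F T) :
    psi v k q G.card = q * psi v k q F.card ∧ (G.card : ℤ) = F.card + psi v k q F.card := by
  rw [mem_cov] at hG
  have hle := rk_le_univ (R := R) G
  have e0 := h.good hb hq hm (R.rk univ - R.rk G + 1) F hF (by omega) hp
  have e1 := h.good hb hq hm (R.rk univ - R.rk G) G hG.1 (by omega)
    (hp.trans_le (psi_mono hq hG.2.1))
  have hq' : (2 : ℤ) ≤ q := by exact_mod_cast hq
  have e2 : psi v k q G.card = q * psi v k q F.card := by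
    apply mul_left_cancel₀ (pow_ne_zero (R.rk univ - R.rk G) (show (q : ℤ) ≠ 0 by omega))
    rw [e1, ← e0]; ring
  refine ⟨e2, mul_left_cancel₀ (show (q : ℤ) - 1 ≠ 0 by omega) ?_⟩
  have e3 : psi v k q G.card - psi v k q F.card = ((q : ℤ) - 1) * (G.card - F.card) := by
    unfold psi; ring
  linear_combination e2 - e3

/-- two hyperplanes with a large intersection meet in a coline -/
lemma meet (h : IsDes R b v r k lam) (hb : v < b) {q : ℕ} (hq : 2 ≤ q)
    (hm : ∀ C, R.Flat C → R.rk C + 2 = R.rk univ → R.deg C ≤ q + 1) {H H' : Finset α}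
    (hH : H ∈ R.hyp) (hH' : H' ∈ R.hyp) (hne : H ≠ H') (hp : 0 < psi v k q (H ∩ H').card) :
    R.rk (H ∩ H') + 2 = R.rk univ := by
  have m1 := mem_hyp.1 hH
  have m2 := mem_hyp.1 hH'
  have hF : R.Flat (H ∩ H') := m1.1.inter m2.1
  have r2 : R.rk (H ∩ H') < R.rk H := by
    by_contra hc
    have := hF.eq_of_subset_of_rk_le inter_subset_left (not_lt.1 hc)
    exact hne (hyp_eq_of_subset hH hH' (this ▸ inter_subset_right))
  by_contra hc
  obtain ⟨j, hj⟩ : ∃ j, R.rk (H ∩ H') + (j + 3) = R.rk univ :=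
    ⟨R.rk univ - R.rk (H ∩ H') - 3, by omega⟩
  set F := H ∩ H' with hFdef
  obtain ⟨p, hp1, hp2⟩ := exists_notMem_of_rk_lt (R := R) (F := F) (T := H') (by omega)
  have hpH : p ∉ H := fun hh => hp2 (mem_inter.2 ⟨hh, hp1⟩)
  have hz := cl_insert_mem_cov hF m2.1 inter_subset_right hp1 hp2
  have mz := mem_cov.1 hz
  obtain ⟨L, hL, hzL, hLH, rL⟩ := mz.1.exists_rk m2.1 mz.2.2.1 (R.rk F + 2) (by omega) (by omega)
  have hq' : (2 : ℤ) ≤ q := by exact_mod_cast hq
  obtain ⟨z1, z2⟩ := h.good_cov hb hq hm hF hp hz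
  have hpz : 0 < psi v k q (R.cl (insert p F)).card := by rw [z1]; positivity
  have c1 := cov_int hF m1.1 inter_subset_left _ (fun G hG => (h.good_cov hb hq hm hF hp hG).2)
  have c2 := cov_int mz.1 flat_univ (subset_univ _) _
    (fun G hG => (h.good_cov hb hq hm mz.1 hpz hG).2)
  rw [h.hk H hH] at c1
  rw [card_univ, h.hv, z1, z2] at c2
  have c3 : (R.cov F H).card = (R.cov (R.cl (insert p F)) univ).card := by
    have : ((R.cov F H).card : ℤ) = (R.cov (R.cl (insert p F)) univ).card := by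
      apply mul_right_cancel₀ (show (q : ℤ) * psi v k q F.card ≠ 0 by positivity)
      have e : psi v k q F.card = ((q : ℤ) - 1) * F.card - ((q : ℤ) * k - v) := rfl
      linear_combination (q : ℤ) * c1 - c2 + e
    exact_mod_cast this
  have hsurj := surj_on_of_inj_on_of_card_le (s := R.cov F H) (t := R.cov (R.cl (insert p F)) univ)
    (fun y _ => R.cl (insert p y)) (by
      intro y hy
      rw [mem_cov] at hy
      refine mem_cov.2 ⟨cl_flat _, cl_mono (insert_subset_insert _ hy.2.1), subset_univ _, ?_⟩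
      rw [hy.1.rk_cl_insert (fun hh => hpH (hy.2.2.1 hh))]
      omega) (by
      intro y y' hy hy' e
      rw [mem_cov] at hy hy'
      rw [← hy.1.cl_insert_inter m1.1 hy.2.2.1 hpH, ← hy'.1.cl_insert_inter m1.1 hy'.2.2.1 hpH, e])
    c3.ge
  obtain ⟨y, hy, e⟩ := hsurj L (mem_cov.2 ⟨hL, hzL, subset_univ _, by omega⟩)
  rw [mem_cov] at hy
  have : y ⊆ F := subset_inter hy.2.2.1 ((subset_cl_insert y p).trans (e ▸ hLH))
  have := R.mono this
  omega

/-- size of a large intersection -/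
lemma meet_card (h : IsDes R b v r k lam) (hb : v < b) {q : ℕ} (hq : 2 ≤ q)
    (hm : ∀ C, R.Flat C → R.rk C + 2 = R.rk univ → R.deg C ≤ q + 1) {H H' : Finset α}
    (hH : H ∈ R.hyp) (hH' : H' ∈ R.hyp) (hne : H ≠ H') (hp : 0 < psi v k q (H ∩ H').card) :
    (q : ℤ) * (H ∩ H').card = q * k - (v - k) := by
  have e := h.good hb hq hm 2 _ ((mem_hyp.1 hH).1.inter (mem_hyp.1 hH').1)
    (h.meet hb hq hm hH hH' hne hp) hp
  have hq' : (2 : ℤ) ≤ q := by exact_mod_cast hq
  apply mul_left_cancel₀ (show (q : ℤ) * (q - 1) ≠ 0 by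
    apply mul_ne_zero <;> omega)
  unfold psi at e
  linear_combination e

lemma int_facts (h : IsDes R b v r k lam) (hb : v < b) (hl : 1 ≤ lam) :
    (2 : ℤ) ≤ k ∧ (k : ℤ) + 2 ≤ v ∧ (b : ℤ) * k = r * v ∧ (r : ℤ) * (k - 1) = lam * (v - 1) ∧
      (v : ℤ) < b ∧ (k : ℤ) < r := by
  obtain ⟨f1, f2, f3, f4, f5, f6⟩ := h.real_facts hb hl
  exact ⟨by exact_mod_cast f1, by exact_mod_cast f2, by exact_mod_cast f3, by exact_mod_cast f4,
    by exact_mod_cast f5, by exact_mod_cast f6⟩

/-- the pointed identity: only small intersections contribute -/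
lemma sigma_id (h : IsDes R b v r k lam) (hb : v < b) (hl : 1 ≤ lam) {q : ℕ} (hq : 2 ≤ q)
    (hm : ∀ C, R.Flat C → R.rk C + 2 = R.rk univ → R.deg C ≤ q + 1) {H : Finset α}
    (hH : H ∈ R.hyp) {y : α} (hy : y ∈ H) :
    ∑ H' ∈ (R.hyp.filter (fun H' => psi v k q (H ∩ H').card ≤ 0)).filter (fun H' => y ∈ H'),
      ((q : ℤ) * k - (v - k) - q * (H ∩ H').card) = ((v : ℤ) - k) * (q * lam - r + 1) := by
  obtain ⟨f1, f2, f3, f4, f5, f6⟩ := h.int_facts hb hl
  have h2k := h.two_le_k hb hl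
  have e1 : ∑ H' ∈ R.hyp.filter (fun H' => y ∈ H'), ((H ∩ H').card : ℤ) = r + (k - 1) * lam := by
    have := h.sum_inter_pt H hy
    rw [h.hk H hH] at this
    have e : ((∑ H' ∈ R.hyp.filter (fun H' => y ∈ H'), (H ∩ H').card : ℕ) : ℤ) =
      ((r + (k - 1) * lam : ℕ) : ℤ) := by rw [this]
    push_cast [Nat.cast_sub (show 1 ≤ k by omega)] at e
    exact e
  have hmem : H ∈ R.hyp.filter (fun H' => y ∈ H') := mem_filter.2 ⟨hH, hy⟩
  have e2 : ∑ H' ∈ R.hyp.filter (fun H' => y ∈ H'), ((q : ℤ) * k - (v - k) - q * (H ∩ H').card) =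
      r * ((q : ℤ) * k - (v - k)) - q * (r + (k - 1) * lam) := by
    rw [sum_sub_distrib, sum_const, h.card_pt, nsmul_eq_mul, ← mul_sum, e1]
  rw [← add_sum_erase _ _ hmem, inter_self, h.hk H hH] at e2
  have e3 : ∑ H' ∈ (R.hyp.filter (fun H' => psi v k q (H ∩ H').card ≤ 0)).filter (fun H' => y ∈ H'),
      ((q : ℤ) * k - (v - k) - q * (H ∩ H').card) =
      ∑ H' ∈ (R.hyp.filter (fun H' => y ∈ H')).erase H,
        ((q : ℤ) * k - (v - k) - q * (H ∩ H').card) := by
    apply sum_subset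
    · intro H' hH'
      simp only [mem_filter, mem_erase] at hH' ⊢
      refine ⟨?_, hH'.1.1, hH'.2⟩
      rintro rfl
      have := hH'.1.2
      rw [inter_self, h.hk _ hH] at this
      unfold psi at this
      linarith
    · intro H' h1 h2
      simp only [mem_filter, mem_erase] at h1 h2
      have : 0 < psi v k q (H ∩ H').card := by
        by_contra hc
        exact h2 ⟨⟨h1.2.1, not_lt.1 hc⟩, h1.2.2⟩
      rw [h.meet_card hb hq hm hH h1.2.1 (Ne.symm h1.1) this, sub_self]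
  rw [e3]
  linear_combination e2 + (q : ℤ) * f4

lemma thr_aux (k x B q ε σ S : ℝ) (hk : 0 < k) (hq : 2 ≤ q) (hx1 : q - 1 / 10 ≤ x)
    (hx2 : x ≤ q + 1 / 10) (hB : 1 ≤ B) (h0 : 120 * B ≤ k / x) (hε : 1 ≤ ε)
    (hσ : σ = 1 + B / x * (q - 1) * (ε - 1)) (hS : S * (3 / 5) ≤ B * (x - 1) ^ 2) (hS0 : 0 ≤ S)
    (h : k * (k * (x - 1) * σ) ≤ S * (ε * (11 / 10 * k))) : False := by
  have hx0 : 0 < x := by linarith
  have h1 : 1 / 3 ≤ B / x * (q - 1) := by
    rw [div_mul_eq_mul_div, le_div_iff₀ hx0]; nlinarith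
  have h2 : ε / 3 ≤ σ := by
    have := mul_le_mul_of_nonneg_right h1 (show 0 ≤ ε - 1 by linarith)
    linarith
  have h3 : k * (x - 1) * σ ≤ S * ε * (11 / 10) := by
    apply le_of_mul_le_mul_left _ hk
    linarith
  have h4 : k * (x - 1) * (ε / 3) ≤ k * (x - 1) * σ :=
    mul_le_mul_of_nonneg_left h2 (mul_nonneg hk.le (by linarith))
  have h5 : k * (x - 1) / 3 ≤ S * (11 / 10) := by
    apply le_of_mul_le_mul_right _ (show 0 < ε by linarith)
    linarith
  have h6 : k / 3 ≤ 2 * B * (x - 1) := by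
    apply le_of_mul_le_mul_right _ (show 0 < x - 1 by linarith)
    nlinarith
  rw [le_div_iff₀ hx0] at h0
  nlinarith

/-- the threshold is below one -/
theorem thr_lt (h : IsDes R b v r k lam) (hb : v < b) (hl : 1 ≤ lam) {q : ℕ} (hq : 2 ≤ q)
    (hx : |(q : ℝ) - (v : ℝ) / k| ≤ 1 / 10)
    (hm : ∀ C, R.Flat C → R.rk C + 2 = R.rk univ → R.deg C ≤ q + 1)
    (h0 : 120 * ((b : ℝ) / (v - 1)) ≤ (k : ℝ) ^ 2 / v) : (q : ℤ) * k - v < q - 1 := by
  by_contra hc
  push Not at hc
  obtain ⟨f1, f2, f3, f4, f5, f6⟩ := h.real_facts hb hl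
  obtain ⟨H, hH⟩ : R.hyp.Nonempty := card_pos.1 (by rw [h.hb]; omega)
  have hq' : (2 : ℝ) ≤ q := by exact_mod_cast hq
  have hk0 : (0 : ℝ) < k := by linarith
  have hv0 : (0 : ℝ) < v := by linarith
  have hc' : (q : ℝ) - 1 ≤ q * k - v := by exact_mod_cast hc
  rw [abs_le] at hx
  set S := R.hyp.filter (fun H' => psi v k q (H ∩ H').card ≤ 0) with hS
  set ε : ℝ := (q * k - v) / (q - 1) with hε
  have hv : (v : ℝ) = (v : ℝ) / k * k := by field_simp
  have he1 : (q : ℝ) * k - v ≤ k / 10 := by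
    have := mul_le_mul_of_nonneg_right hx.2 hk0.le
    nlinarith
  have hs : ∀ H' ∈ S, ((H ∩ H').card : ℝ) ≤ ε := by
    intro H' hH'
    have := (mem_filter.1 hH').2
    unfold psi at this
    have e : ((q : ℝ) - 1) * (H ∩ H').card - (q * k - v) ≤ 0 := by exact_mod_cast this
    rw [hε, le_div_iff₀ (by linarith)]
    linarith
  have s1 : ∑ y ∈ H, ∑ H' ∈ S.filter (fun H' => y ∈ H'),
      ((q : ℝ) * k - (v - k) - q * (H ∩ H').card) = k * (((v : ℝ) - k) * (q * lam - r + 1)) := by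
    rw [sum_congr rfl (g := fun _ => ((v : ℝ) - k) * (q * lam - r + 1)), sum_const, nsmul_eq_mul,
      h.hk H hH]
    intro y hy
    exact_mod_cast h.sigma_id hb hl hq hm hH hy
  rw [Finset.sum_comm' (t' := S) (s' := fun H' => H ∩ H') (by
    intro y H'
    simp only [mem_inter, mem_filter]
    tauto)] at s1
  have hε1 : 1 ≤ ε := by rw [hε, le_div_iff₀ (by linarith)]; linarith
  have s2 := sum_le_card_nsmul S (fun H' => ∑ y ∈ H ∩ H',
      ((q : ℝ) * k - (v - k) - q * (H ∩ H').card)) (ε * (11 / 10 * k)) (by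
    intro H' hH'
    rw [sum_const, nsmul_eq_mul]
    have e0 : (0 : ℝ) ≤ (H ∩ H').card := Nat.cast_nonneg _
    have e1 : (q : ℝ) * k - (v - k) - q * (H ∩ H').card ≤ 11 / 10 * k := by nlinarith
    exact (mul_le_mul_of_nonneg_left e1 e0).trans
      (mul_le_mul_of_nonneg_right (hs H' hH') (by positivity)))
  rw [s1, nsmul_eq_mul] at s2
  have s3 := card_nsmul_le_sum S (fun H' => dv v k (H ∩ H').card ^ 2)
      (3 / 5 / ((v : ℝ) / k - 1) ^ 2) (by
    intro H' hH'
    have e0 := hs H' hH'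
    have e1 : ε * v ≤ 21 / 100 * k ^ 2 := by
      rw [hε, div_mul_eq_mul_div, div_le_iff₀ (by linarith)]
      have a1 : (v : ℝ) ≤ (q + 1 / 10) * k := by
        have := mul_le_mul_of_nonneg_right hx.1 hk0.le
        nlinarith
      have a2 : ((q : ℝ) * k - v) * v ≤ k / 10 * ((q + 1 / 10) * k) :=
        mul_le_mul he1 a1 hv0.le (by positivity)
      nlinarith [mul_nonneg (sub_nonneg.2 hq') (sq_nonneg (k : ℝ))]
    have e2 : 79 / 100 * (k : ℝ) ^ 2 ≤ k ^ 2 - v * (H ∩ H').card := by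
      nlinarith [mul_le_mul_of_nonneg_right e0 hv0.le]
    have e3 := pow_le_pow_left₀ (by positivity) e2 2
    have hc0 : (0 : ℝ) < (v : ℝ) - k := by linarith
    have e4 : 3 / 5 / ((v : ℝ) / k - 1) ^ 2 = 3 / 5 * k ^ 4 / (k * (v - k)) ^ 2 := by
      have : (v : ℝ) / k - 1 = (v - k) / k := by field_simp
      rw [this]; field_simp
    unfold dv
    rw [e4, div_pow]
    apply div_le_div_of_nonneg_right _ (by positivity)
    nlinarith [pow_nonneg hk0.le 4])
  have s4 : ∑ H' ∈ S, dv v k (H ∩ H').card ^ 2 ≤ (b : ℝ) / (v - 1) := by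
    rw [← h.variance hb hl hH]
    exact sum_le_sum_of_subset_of_nonneg (filter_subset _ _) (fun _ _ _ => sq_nonneg _)
  rw [nsmul_eq_mul] at s3
  have hx1 : (0 : ℝ) < (v : ℝ) / k - 1 := by linarith
  apply thr_aux k ((v : ℝ) / k) ((b : ℝ) / (v - 1)) q ε (q * lam - r + 1) S.card hk0 hq'
    (by linarith) (by linarith) ?_ ?_ hε1 ?_ ?_ (Nat.cast_nonneg _) ?_
  · rw [le_div_iff₀ (by linarith)]; linarith
  · refine h0.trans (le_of_eq ?_); field_simp
  · have hv1 : (v : ℝ) - 1 ≠ 0 := by linarith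
    have hq1 : (q : ℝ) - 1 ≠ 0 := by linarith
    have hbk : (b : ℝ) = r * v / k := by field_simp; linarith
    have hlam : (lam : ℝ) = r * (k - 1) / (v - 1) := by field_simp; linarith
    rw [hε, hbk, hlam]
    field_simp
    ring
  · have := s3.trans s4
    rw [← mul_div_assoc, div_le_iff₀ (by positivity)] at this
    exact this
  · have : (k : ℝ) * ((v : ℝ) / k - 1) = v - k := by field_simp
    rw [this]; exact s2

end IsDes

end Pool.Agent.MP_337c4e_co

end

section
set_option linter.unusedSectionVars false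
set_option linter.unusedVariables false

namespace Pool.Agent.MP_337c4e_co

open Finset RkFn

variable {α : Type} [Fintype α] [DecidableEq α]

/-- `1 + q + ... + q ^ (m - 1)` -/
def th (q m : ℕ) : ℕ := ∑ i ∈ range m, q ^ i

lemma th_succ (q m : ℕ) : th q (m + 1) = q * th q m + 1 := by
  unfold th
  rw [sum_range_succ', mul_sum]
  simp [pow_succ, mul_comm]

lemma th_succ' (q m : ℕ) : th q (m + 1) = th q m + q ^ m := sum_range_succ _ _

lemma th_mul (q m : ℕ) : ((q : ℤ) - 1) * th q m = (q : ℤ) ^ m - 1 := by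
  induction m with
  | zero => simp [th]
  | succ m ih => rw [th_succ']; push_cast; linear_combination ih

lemma arith_four (q w s r v k : ℕ) (hw : 1 ≤ w) (hs : 2 ≤ s) (hsw : s ≤ w) (hq : q = s * (w + 1))
    (hk : k = 1 + w * (q + 1)) (hr : r = q * (q + 1) + 1) (hv : v = 1 + w * r) (b : ℕ)
    (h : b * k = r * v) : False := by
  obtain ⟨d, hd⟩ : ∃ d, w + 1 = s + d := ⟨w + 1 - s, by omega⟩
  have h1 : ((1 + w * s : ℕ) : ℤ) ∣ (s : ℤ) ^ 2 * ((w + 1) * d) := by
    have hw' : (w : ℤ) + 1 ≠ 0 := by omega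
    have hd' : (d : ℤ) = w + 1 - s := by omega
    have h' : (b : ℤ) * k = r * v := by exact_mod_cast h
    have hk' : (k : ℤ) = (w + 1) * (1 + w * s) := by rw [hk, hq]; push_cast; ring
    refine ⟨b - r - (q : ℤ) ^ 3 + s ^ 2 * (w + 1), mul_left_cancel₀ hw' ?_⟩
    have hq' : (q : ℤ) = s * (w + 1) := by exact_mod_cast hq
    have hr' : (r : ℤ) = q * (q + 1) + 1 := by exact_mod_cast hr
    have hv' : (v : ℤ) = 1 + w * r := by exact_mod_cast hv
    rw [hk', hv', hr', hq'] at h'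
    rw [hd', hr', hq']
    push_cast
    linear_combination -h'
  have h2 : IsCoprime ((1 + w * s : ℕ) : ℤ) ((s : ℤ) ^ 2) := by
    apply IsCoprime.pow_right
    exact ⟨1, -w, by push_cast; ring⟩
  obtain ⟨A, hA⟩ := h2.dvd_of_dvd_mul_left h1
  push_cast at hA
  have hw' : (1 : ℤ) ≤ w := by exact_mod_cast hw
  have hs' : (2 : ℤ) ≤ s := by exact_mod_cast hs
  have hd1 : (1 : ℤ) ≤ d := by omega
  have hd2 : (d : ℤ) < w := by omega
  have hA0 : 0 < A := by
    by_contra hc
    have : (1 + w * s) * A ≤ 0 := mul_nonpos_of_nonneg_of_nonpos (by positivity) (by omega)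
    nlinarith
  have hA1 : A < d := by
    by_contra hc
    have h3 : (1 + w * s) * d ≤ (1 + w * s) * A :=
      mul_le_mul_of_nonneg_left (by omega) (by positivity)
    have h4 : ((w : ℤ) + 1) * d < (1 + w * s) * d :=
      mul_lt_mul_of_pos_right (by nlinarith) (by omega)
    linarith
  have h3 : (d : ℤ) - A = w * (s * A - d) := by linear_combination hA
  have h4 : 0 < (s : ℤ) * A - d := by
    by_contra hc
    have : (w : ℤ) * (s * A - d) ≤ 0 := mul_nonpos_of_nonneg_of_nonpos (by omega) (by omega)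
    omega
  have : (w : ℤ) * 1 ≤ w * (s * A - d) := mul_le_mul_of_nonneg_left (by omega) (by omega)
  omega

lemma arith_big (q w s r v k b : ℝ) (hw : 1 ≤ w) (hs : w + 1 ≤ s) (hq : q = s * (w + 1))
    (hk : k = 1 + w * (q + 1)) (hr : r = q * (q + 1) + 1) (hv : v = 1 + w * r)
    (h : b * k = r * v) (h0 : 120 * (b / (v - 1)) ≤ k ^ 2 / v) : False := by
  have hq4 : 4 ≤ q := by nlinarith
  have hr0 : q ^ 2 ≤ r := by nlinarith
  have hr1 : 16 ≤ r := by nlinarith
  have hv0 : w * q ^ 2 ≤ v - 1 := by nlinarith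
  have hv1 : 0 < v - 1 := by nlinarith
  have hk0 : 0 < k := by nlinarith
  have hb : b = r * v / k := by field_simp; linarith
  rw [hb, le_div_iff₀ (by linarith)] at h0
  have h1 : 120 * (r * v / k / (v - 1)) * v = 120 * r * v * (v / (v - 1)) / k := by field_simp
  rw [h1, div_le_iff₀ hk0] at h0
  have h2 : 1 ≤ v / (v - 1) := by rw [le_div_iff₀ hv1]; linarith
  have h3 : 120 * r * v ≤ k ^ 2 * k :=
    le_trans (le_mul_of_one_le_right (by nlinarith) h2) h0
  have h4 : k ≤ 4 * (w * q) := by nlinarith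
  have h5 : k ^ 3 ≤ (4 * (w * q)) ^ 3 := pow_le_pow_left₀ hk0.le h4 3
  have h6 : q ^ 2 * (w * q ^ 2) ≤ r * v := mul_le_mul hr0 (by linarith) (by positivity) (by linarith)
  have h7 : w ^ 2 ≤ q := by nlinarith
  have h8 : w * q ^ 3 * w ^ 2 ≤ w * q ^ 3 * q := mul_le_mul_of_nonneg_left h7 (by positivity)
  have h9 : 0 < w * q ^ 3 * q := by positivity
  nlinarith

namespace IsDes

variable {R : RkFn α} {b v r k lam : ℕ}

lemma psi_pos {q : ℕ} (hq : 2 ≤ q) (ht : (q : ℤ) * k - v < q - 1) {F : Finset α}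
    (hF : F.Nonempty) : 0 < psi v k q F.card := by
  have h1 : (1 : ℤ) ≤ F.card := by exact_mod_cast card_pos.2 hF
  have h2 : (2 : ℤ) ≤ q := by exact_mod_cast hq
  unfold psi
  nlinarith

lemma sizes (h : IsDes R b v r k lam) (hb : v < b) (hl : 1 ≤ lam) {q w : ℕ} (hq : 2 ≤ q)
    (hm : ∀ C, R.Flat C → R.rk C + 2 = R.rk univ → R.deg C ≤ q + 1) (hw1 : 1 ≤ w)
    (hw : (w : ℤ) = q - 1 - (q * k - v)) :
    ∀ (i : ℕ) (F : Finset α), R.Flat F → R.rk F = i + 1 → F.card = 1 + w * th q i := by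
  intro i
  induction i with
  | zero =>
    intro F hF hr
    obtain ⟨x, hx, -⟩ := exists_notMem_of_rk_lt (R := R) (F := ∅) (T := F)
      (by rw [R.rk_empty]; omega)
    have := (h.flat_single hb hl x).eq_of_subset_of_rk_le (singleton_subset_iff.2 hx)
      (by rw [h.rk_single hb]; omega)
    rw [← this]; simp [th]
  | succ i ih =>
    intro F hF hr
    obtain ⟨G, hG, -, hGF, rG⟩ := (h.flat_empty hb).exists_rk hF (empty_subset _) (i + 1)
      (by rw [R.rk_empty]; omega) (by omega)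
    have e1 := ih G hG rG
    have e2 := (h.good_cov hb hq hm hG (psi_pos hq (by omega) (card_pos.1 (by omega)))
      (mem_cov.2 ⟨hF, hGF, subset_univ _, by omega⟩)).2
    have e3 := th_mul q i
    unfold psi at e2
    rw [e1] at e2
    push_cast at e2
    have : (F.card : ℤ) = 1 + w * (th q i + q ^ i) := by linear_combination e2 + (w : ℤ) * e3 - hw
    rw [th_succ']
    exact_mod_cast this

/-- the parameters are those of an affine space -/
theorem params (h : IsDes R b v r k lam) (hb : v < b) (hl : 2 ≤ lam) {q : ℕ} (hq : 2 ≤ q)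
    (hx : |(q : ℝ) - (v : ℝ) / k| ≤ 1 / 10)
    (hm : ∀ C, R.Flat C → R.rk C + 2 = R.rk univ → R.deg C ≤ q + 1)
    (h0 : 120 * ((b : ℝ) / (v - 1)) ≤ (k : ℝ) ^ 2 / v) :
    (∀ (i : ℕ) (F : Finset α), R.Flat F → R.rk F = i + 1 → F.card = q ^ i) ∧
      ∃ j, R.rk univ = j + 4 ∧ v = q ^ (j + 3) ∧ k = q ^ (j + 2) ∧ r = th q (j + 3) ∧
        lam = th q (j + 2) ∧ b = q * r := by
  have hl1 : 1 ≤ lam := by omega
  have ht := h.thr_lt hb hl1 hq hx hm h0
  obtain ⟨w, hw⟩ : ∃ w : ℕ, (w : ℤ) = q - 1 - (q * k - v) :=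
    ⟨(q - 1 - (q * k - v) : ℤ).toNat, Int.toNat_of_nonneg (by omega)⟩
  have hw1 : 1 ≤ w := by omega
  have sz := h.sizes hb hl1 hq hm hw1 hw
  obtain ⟨j, hj⟩ : ∃ j, R.rk univ = j + 4 := ⟨R.rk univ - 4, by have := h.four_le_rank hb hl; omega⟩
  obtain ⟨H, hH⟩ : R.hyp.Nonempty := card_pos.1 (by rw [h.hb]; omega)
  have mH := mem_hyp.1 hH
  have ev : v = 1 + w * th q (j + 3) := by
    rw [← sz (j + 3) univ flat_univ hj, card_univ, h.hv]
  have ek : k = 1 + w * th q (j + 2) := by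
    rw [← sz (j + 2) H mH.1 (by omega), h.hk H hH]
  obtain ⟨f1, f2, f3, f4, f5, f6⟩ := h.int_facts hb hl1
  have t3 := th_succ q (j + 2)
  have t2 := th_succ q (j + 1)
  have t1 := th_succ q j
  have er : (r : ℤ) = q * lam + 1 := by
    obtain ⟨y, hy⟩ : H.Nonempty := card_pos.1 (by rw [h.hk H hH]; omega)
    have e := h.sigma_id hb hl1 hq hm hH hy
    rw [sum_eq_zero] at e
    · have := (mul_eq_zero.1 e.symm).resolve_left (by omega)
      omega
    · intro H' hH'
      rw [mem_filter, mem_filter] at hH'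
      have := psi_pos (v := v) (k := k) hq ht (F := H ∩ H') ⟨y, mem_inter.2 ⟨hy, hH'.2⟩⟩
      omega
  have ev' : (v : ℤ) = 1 + w * (q * th q (j + 2) + 1) := by rw [ev, t3]; push_cast; ring
  have ek' : (k : ℤ) = 1 + w * th q (j + 2) := by exact_mod_cast ek
  have el : (lam : ℤ) = th q (j + 2) := by
    apply mul_left_cancel₀ (show (w : ℤ) ≠ 0 by omega)
    rw [er, ev', ek'] at f4
    linear_combination -f4
  have el' : lam = th q (j + 2) := by exact_mod_cast el
  have er' : r = th q (j + 3) := by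
    rw [t3, ← el']; exact_mod_cast er
  have hwq : w < q := by
    have e1 := h.k_lt_r hb hl1
    rw [er', ek, t3] at e1
    by_contra hc
    have := Nat.mul_le_mul_right (th q (j + 2)) (not_lt.1 hc)
    omega
  have hi : ∀ K ∈ R.hyp, ∀ K' ∈ R.hyp, K ≠ K' → (K ∩ K').Nonempty →
      (K ∩ K').card = 1 + w * th q (j + 1) := by
    intro K hK K' hK' hne hn
    apply sz (j + 1) _ ((mem_hyp.1 hK).1.inter (mem_hyp.1 hK').1)
    have := h.meet hb hq hm hK hK' hne (psi_pos hq ht hn)
    omega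
  obtain ⟨H', hH', hd⟩ : ∃ H' ∈ R.hyp, H ∩ H' = ∅ := by
    by_contra hc
    push Not at hc
    have e1 := h.sum_inter H
    rw [← add_sum_erase _ _ hH, inter_self, h.hk H hH, sum_congr rfl
      (g := fun _ => 1 + w * th q (j + 1)) (fun K hK => hi H hH K (mem_erase.1 hK).2
        (mem_erase.1 hK).1.symm (hc K (mem_erase.1 hK).2)), sum_const, card_erase_of_mem hH,
      h.hb, smul_eq_mul] at e1
    have e2 : ((k + (b - 1) * (1 + w * th q (j + 1)) : ℕ) : ℤ) = ((k * r : ℕ) : ℤ) := by rw [e1]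
    push_cast [Nat.cast_sub (show 1 ≤ b by omega)] at e2
    have t2' : (th q (j + 2) : ℤ) = q * th q (j + 1) + 1 := by exact_mod_cast t2
    have hA : (0 : ℤ) ≤ th q (j + 1) := Nat.cast_nonneg _
    rw [el, t2'] at er
    rw [t2'] at ev' ek'
    generalize (th q (j + 1) : ℤ) = A at *
    have e3 : (w : ℤ) * (1 + (q - 1) * (q * A + 1)) ^ 2 * (q - w) = 0 := by
      have e4 : ((r : ℤ) * v - k) * (1 + w * A) = k ^ 2 * (r - 1) := by
        linear_combination (k : ℤ) * e2 - (1 + w * A) * f3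
      rw [er, ev', ek'] at e4
      linear_combination (q : ℤ) * e4
    have hq' : (1 : ℤ) ≤ (q : ℤ) - 1 := by omega
    have : 0 < (w : ℤ) * (1 + (q - 1) * (q * A + 1)) ^ 2 * (q - w) := by
      have : 0 < (q : ℤ) - w := by omega
      have : 0 < (w : ℤ) := by omega
      positivity
    omega
  have mH' := mem_hyp.1 hH'
  obtain ⟨G, hG, -, hGH, rG⟩ := (h.flat_empty hb).exists_rk mH'.1 (empty_subset _) (j + 2)
    (by rw [R.rk_empty]; omega) (by omega)
  have hGd : ∀ p ∈ H, p ∉ G := fun p hp hp' => by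
    have : p ∈ H ∩ H' := mem_inter.2 ⟨hp, hGH hp'⟩
    rw [hd] at this
    exact notMem_empty _ this
  have hdvd : 1 + w * th q (j + 1) ∣ k := by
    have e1 := sum_hyp_inter hG (by omega) H
    rw [sdiff_eq_self_of_disjoint (disjoint_left.2 hGd), h.hk H hH] at e1
    rw [← e1]
    apply dvd_sum
    intro K hK
    rw [mem_filter] at hK
    rw [sdiff_eq_self_of_disjoint (disjoint_left.2 (fun p hp => hGd p (mem_inter.1 hp).2))]
    rcases (K ∩ H).eq_empty_or_nonempty with e | e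
    · simp [e]
    · rw [hi K hK.1 H hH _ e]
      rintro rfl
      obtain ⟨x, hx, -⟩ := exists_notMem_of_rk_lt (R := R) (F := ∅) (T := G)
        (by rw [R.rk_empty]; omega)
      exact hGd x (hK.2 hx) hx
  have hwq' : q = w + 1 := by
    by_contra hc
    obtain ⟨e, he⟩ : ∃ e, q = w + 2 + e := ⟨q - w - 2, by omega⟩
    have e1 : k + (e + 1) = q * (1 + w * th q (j + 1)) := by
      rw [ek, t2]; generalize th q (j + 1) = A; rw [he]; ring
    have e2 : 1 + w * th q (j + 1) ∣ e + 1 :=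
      (Nat.dvd_add_right hdvd).1 (e1 ▸ Dvd.intro_left _ rfl)
    have e3 := Nat.le_of_dvd (by omega) e2
    have e4 : th q (j + 1) ≤ w * th q (j + 1) := Nat.le_mul_of_pos_left _ hw1
    have hj0 : j = 0 := by
      by_contra hc
      obtain ⟨i, rfl⟩ : ∃ i, j = i + 1 := ⟨j - 1, by omega⟩
      have := th_succ q i
      have : q * 1 ≤ q * th q (i + 1) := Nat.mul_le_mul_left _ (by omega)
      omega
    subst hj0
    have u1 : th q (0 + 1) = 1 := by simp [th]
    rw [u1] at t2 e2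
    rw [t2] at t3 ek
    rw [t3] at er' ev
    rw [mul_one] at e2 ek er' ev
    obtain ⟨s, hs⟩ := e2
    have hs1 : 1 ≤ s := by
      by_contra hc
      have : s = 0 := by omega
      simp [this] at hs
    have hqs : q = (s + 1) * (w + 1) := by linarith
    by_cases hsw : s + 1 ≤ w
    · exact arith_four q w (s + 1) r v k hw1 (by omega) hsw hqs ek er' (by rw [er']; exact ev) b
        h.eq_bk
    · refine arith_big q w (s + 1) r v k b (by exact_mod_cast hw1) ?_ (by exact_mod_cast hqs)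
        (by exact_mod_cast ek) (by exact_mod_cast er') ?_ (by exact_mod_cast h.eq_bk) h0
      · have : w + 1 ≤ s + 1 := by omega
        exact_mod_cast this
      · rw [← er'] at ev; exact_mod_cast ev
  have pw : ∀ i, 1 + w * th q i = q ^ i := by
    intro i
    have e := th_mul q i
    have : (1 : ℤ) + w * th q i = q ^ i := by
      have : (w : ℤ) = q - 1 := by omega
      rw [this]; linear_combination e
    exact_mod_cast this
  refine ⟨fun i F hF hr => (sz i F hF hr).trans (pw i), j, hj, ev.trans (pw _), ek.trans (pw _),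
    er', el', ?_⟩
  have e := h.eq_bk
  rw [ev, ek, pw, pw] at e
  apply Nat.eq_of_mul_eq_mul_right (pow_pos (show 0 < q by omega) (j + 2))
  rw [e]; ring

end IsDes

end Pool.Agent.MP_337c4e_co

end
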