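import Pool.Agent.MP_337c4e_co.Few1

section
set_option linter.unusedSectionVars false
set_option linter.unusedVariables false

namespace Pool.Agent.MP_337c4e_co

open Finset Matrix

section AG

variable {F : Type} [Field F] [Fintype F] [DecidableEq F] {n : ℕ}

/-- an affine hyperplane -/
def hpl (a : Fin n → F) (c : F) : Finset (Fin n → F) := univ.filter (fun x => a ⬝ᵥ x = c)

lemma mem_hpl {a x : Fin n → F} {c : F} : x ∈ hpl a c ↔ a ⬝ᵥ x = c := by simp [hpl]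

/-- all affine hyperplanes -/
def hpls (F : Type) [Field F] [Fintype F] [DecidableEq F] (n : ℕ) : Finset (Finset (Fin n → F)) :=
  univ.filter (fun H => ∃ a c, a ≠ 0 ∧ H = hpl a c)

lemma mem_hpls {H : Finset (Fin n → F)} : H ∈ hpls F n ↔ ∃ a c, a ≠ 0 ∧ H = hpl a c := by
  simp only [hpls, mem_filter, mem_univ, true_and]

lemma hpl_smul (a : Fin n → F) (c t : F) (ht : t ≠ 0) : hpl (t • a) (t * c) = hpl a c := by
  ext x
  simp [mem_hpl, ht]

lemma card_hpl (a : Fin (n + 1) → F) (ha : a ≠ 0) (c : F) :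
    (hpl a c).card = Fintype.card F ^ n := by
  obtain ⟨i, hi⟩ := Function.ne_iff.1 ha
  have hi' : a i ≠ 0 := hi
  let e : Fin (n + 1) → F := Pi.single i (a i)⁻¹
  have he : a ⬝ᵥ e = 1 := by simp [e, hi']
  have h1 : ∀ c, (hpl a c).card = (hpl a 0).card := by
    intro c
    symm
    apply card_bij (fun x _ => x + c • e)
    · intro x hx
      rw [mem_hpl] at hx ⊢
      simp [hx, he]
    · intro x _ y _ h; simpa using h
    · intro y hy
      rw [mem_hpl] at hy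
      exact ⟨y - c • e, by rw [mem_hpl]; simp [hy, he], by simp⟩
  have h2 : (univ : Finset (Fin (n + 1) → F)).card = ∑ c : F, (hpl a c).card :=
    card_eq_sum_card_fiberwise (f := fun x => a ⬝ᵥ x) (fun x _ => mem_univ _)
  simp only [h1, sum_const, card_univ, smul_eq_mul, Fintype.card_fun, Fintype.card_fin] at h2
  rw [h1]
  apply Nat.eq_of_mul_eq_mul_left (Fintype.card_pos (α := F))
  rw [← h2]; ring

lemma hpls_elim : Elim (hpls F n) := by
  intro H1 h1 H2 h2 hne x hx1 hx2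
  obtain ⟨a, c, ha, rfl⟩ := mem_hpls.1 h1
  obtain ⟨a', c', ha', rfl⟩ := mem_hpls.1 h2
  rw [mem_hpl, ← ne_eq, ← sub_ne_zero] at hx1 hx2
  set u := a ⬝ᵥ x - c with hu
  set u' := a' ⬝ᵥ x - c' with hu'
  have hx : (u • a' - u' • a) ⬝ᵥ x = u * c' - u' * c := by
    simp only [sub_dotProduct, smul_dotProduct, smul_eq_mul]
    rw [hu, hu']; ring
  refine ⟨hpl (u • a' - u' • a) (u * c' - u' * c), mem_hpls.2 ⟨_, _, ?_, rfl⟩, ?_,
    mem_hpl.2 hx⟩
  · intro h0
    apply hne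
    rw [h0, zero_dotProduct, eq_comm, sub_eq_zero] at hx
    rw [sub_eq_zero] at h0
    rw [← hpl_smul a c u' hx2, ← hpl_smul a' c' u hx1, h0, hx]
  · intro y hy
    rw [mem_inter, mem_hpl, mem_hpl] at hy
    rw [mem_hpl]
    simp [hy.1, hy.2]

lemma prop_of_hpl {a a' x : Fin n → F} (ha : a ≠ 0) (h : hpl a (a ⬝ᵥ x) = hpl a' (a' ⬝ᵥ x)) :
    ∃ t : F, a' = t • a := by
  obtain ⟨i, hi⟩ := Function.ne_iff.1 ha
  have hi' : a i ≠ 0 := hi
  refine ⟨a' i / a i, ?_⟩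
  ext j
  have h1 : x + (Pi.single j (a i) - Pi.single i (a j)) ∈ hpl a (a ⬝ᵥ x) := by
    rw [mem_hpl]; simp [mul_comm]
  rw [h, mem_hpl] at h1
  simp only [dotProduct_add, dotProduct_sub, dotProduct_single, add_eq_left] at h1
  simp only [Pi.smul_apply, smul_eq_mul]
  field_simp
  linear_combination h1

lemma hpls_pair (X : Finset (Fin (n + 1) → F)) (hX : X.card = 2) :
    ((hpls F (n + 1)).filter (fun H => X ⊆ H)).card = th (Fintype.card F) n := by
  obtain ⟨x, y, hxy, rfl⟩ := card_eq_two.1 hX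
  have hp : y - x ≠ 0 := sub_ne_zero.2 hxy.symm
  have h1 : ((hpl (y - x) 0).erase 0).card =
      ∑ H ∈ (hpls F (n + 1)).filter (fun H => {x, y} ⊆ H),
        (((hpl (y - x) 0).erase 0).filter (fun a => hpl a (a ⬝ᵥ x) = H)).card := by
    apply card_eq_sum_card_fiberwise
    intro a ha
    rw [mem_coe, mem_erase, mem_hpl, sub_dotProduct, sub_eq_zero] at ha
    rw [mem_coe, mem_filter]
    refine ⟨mem_hpls.2 ⟨_, _, ha.1, rfl⟩, insert_subset (mem_hpl.2 rfl) ?_⟩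
    rw [singleton_subset_iff, mem_hpl, dotProduct_comm, ha.2, dotProduct_comm]
  rw [sum_congr rfl (g := fun _ => Fintype.card F - 1), sum_const, smul_eq_mul,
    card_erase_of_mem (mem_hpl.2 (dotProduct_zero _)), card_hpl _ hp] at h1
  · have hq : 1 < Fintype.card F := Fintype.one_lt_card
    generalize Fintype.card F = q at h1 hq ⊢
    have e := th_mul q n
    have h2 : 1 ≤ q ^ n := Nat.one_le_pow _ _ (by omega)
    apply Nat.eq_of_mul_eq_mul_right (show 0 < q - 1 by omega)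
    rw [← h1]
    zify [h2, hq.le]
    linear_combination -e
  · intro H hH
    rw [mem_filter] at hH
    obtain ⟨a, c, ha, rfl⟩ := mem_hpls.1 hH.1
    have m1 := mem_hpl.1 (hH.2 (mem_insert_self _ _))
    have m2 := mem_hpl.1 (hH.2 (mem_insert_of_mem (mem_singleton_self _)))
    subst m1
    rw [← card_univ, ← card_erase_of_mem (mem_univ (0 : F))]
    symm
    apply card_bij (fun t _ => t • a)
    · intro t ht
      have ht0 : t ≠ 0 := (mem_erase.1 ht).1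
      rw [mem_filter, mem_erase, mem_hpl]
      refine ⟨⟨smul_ne_zero ht0 ha, ?_⟩, ?_⟩
      · rw [dotProduct_comm, smul_dotProduct, dotProduct_sub, m2, sub_self, smul_zero]
      · rw [smul_dotProduct, smul_eq_mul, hpl_smul _ _ _ ht0]
    · intro s _ t _ h
      exact smul_left_injective F ha h
    · intro a' ha'
      rw [mem_filter, mem_erase] at ha'
      obtain ⟨t, ht⟩ := prop_of_hpl ha ha'.2.symm
      refine ⟨t, mem_erase.2 ⟨?_, mem_univ _⟩, ht.symm⟩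
      rintro rfl
      exact ha'.1.1 (by rw [ht, zero_smul])

end AG

theorem matroidal_ag (F : Type) [Field F] [Fintype F] (q n : ℕ) (hq : Fintype.card F = q) :
    Matroidal (q * th q (n + 2)) (q ^ (n + 2)) (th q (n + 2)) (q ^ (n + 1)) (th q (n + 1)) := by
  classical
  have hq1 : 1 < q := hq ▸ Fintype.one_lt_card
  apply matroidal_of_family (hpls F (n + 2))
  · rw [Fintype.card_fun, Fintype.card_fin, hq]
  · exact Nat.pow_lt_pow_right hq1 (by omega)
  · exact le_trans hq1 (Nat.le_self_pow (by omega) _)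
  · intro H hH
    obtain ⟨a, c, ha, rfl⟩ := mem_hpls.1 hH
    rw [card_hpl a ha c, hq]
  · exact hpls_elim
  · intro X hX; rw [hpls_pair X hX, hq]
  · have e1 := th_mul q (n + 1)
    have e2 := th_mul q (n + 2)
    have h1 : 1 ≤ q ^ (n + 1) := Nat.one_le_pow _ _ (by omega)
    have h2 : 1 ≤ q ^ (n + 2) := Nat.one_le_pow _ _ (by omega)
    zify [h1, h2]
    rw [← e1, ← e2]; ring
  · ring

theorem matroidal_ag_primePow (q n : ℕ) (hq : IsPrimePow q) :
    Matroidal (q * th q (n + 2)) (q ^ (n + 2)) (th q (n + 2)) (q ^ (n + 1)) (th q (n + 1)) := by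
  obtain ⟨p, m, hp, hm, rfl⟩ := (isPrimePow_nat_iff q).1 hq
  have : Fact p.Prime := ⟨hp⟩
  let _ : Fintype (GaloisField p m) := Fintype.ofFinite _
  apply matroidal_ag (GaloisField p m)
  rw [← Nat.card_eq_fintype_card, GaloisField.card p m hm.ne']

end Pool.Agent.MP_337c4e_co

end

section
set_option linter.unusedSectionVars false
set_option linter.unusedVariables false

namespace Pool.Agent.MP_337c4e_co

open Finset RkFn

section Transl

variable {X D : Type} [Fintype X] [DecidableEq X] (E : D → X → X → Prop)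

/-- permutations keeping every direction -/
def Dil (τ : Equiv.Perm X) : Prop := ∀ d u w, E d u w → E d (τ u) (τ w)

variable {E}

lemma Dil.inv (ex : ∀ x y, ∃ d, E d x y) (hE : ∀ d, Equivalence (E d))
    (un : ∀ d d' x y, x ≠ y → E d x y → E d' x y → d = d') {τ : Equiv.Perm X} (h : Dil E τ) :
    Dil E τ⁻¹ := by
  intro d u w huw
  by_cases e : u = w
  · rw [e]; exact (hE d).refl _
  · obtain ⟨d', hd'⟩ := ex (τ⁻¹ u) (τ⁻¹ w)
    have h1 := h d' _ _ hd'
    simp only [Equiv.Perm.coe_inv, Equiv.apply_symm_apply] at h1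
    rwa [un d d' u w e huw h1]

/-- the translations in direction `d` -/
def trans (ex : ∀ x y, ∃ d, E d x y) (hE : ∀ d, Equivalence (E d))
    (un : ∀ d d' x y, x ≠ y → E d x y → E d' x y → d = d') (d : D) :
    Subgroup (Equiv.Perm X) where
  carrier := {τ | Dil E τ ∧ ∀ u, E d u (τ u)}
  one_mem' := ⟨fun _ _ _ h => h, fun u => (hE d).refl u⟩
  mul_mem' := fun {a b} ha hb =>
    ⟨fun d u w h => ha.1 _ _ _ (hb.1 _ _ _ h), fun u => (hE d).trans (hb.2 u) (ha.2 _)⟩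
  inv_mem' := fun {a} ha => ⟨ha.1.inv ex hE un, fun u => by
    have := ha.2 (a⁻¹ u)
    simp only [Equiv.Perm.coe_inv, Equiv.apply_symm_apply] at this
    exact (hE d).symm this⟩

theorem primePow_of_trans [Nonempty X] [Nontrivial D] (q : ℕ) (hq : 2 ≤ q)
    (ex : ∀ x y, ∃ d, E d x y) (hE : ∀ d, Equivalence (E d))
    (un : ∀ d d' x y, x ≠ y → E d x y → E d' x y → d = d')
    (sz : ∀ d x, ∃ s : Finset X, s.card = q ∧ ∀ y, y ∈ s ↔ E d x y)
    (tr : ∀ d x y, E d x y → ∃ τ : Equiv.Perm X, Dil E τ ∧ (∀ u, E d u (τ u)) ∧ τ x = y) :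
    IsPrimePow q := by
  classical
  obtain ⟨o⟩ := ‹Nonempty X›
  set T := trans ex hE un with hT
  have mT : ∀ d τ, τ ∈ T d ↔ Dil E τ ∧ ∀ u, E d u (τ u) := fun d τ => Iff.rfl
  have fr0 : ∀ d, ∀ τ ∈ T d, ∀ x y, τ x = x → ¬ E d x y → τ y = y := by
    intro d τ hτ x y hx hy
    obtain ⟨d', hd'⟩ := ex x y
    have h1 := hτ.1 d' _ _ hd'
    rw [hx] at h1
    by_contra hc
    have := un d d' y (τ y) (Ne.symm hc) (hτ.2 y) ((hE d').trans ((hE d').symm hd') h1)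
    exact hy (this ▸ hd')
  have fr : ∀ d, ∀ τ ∈ T d, ∀ x, τ x = x → τ = 1 := by
    intro d τ hτ x hx
    obtain ⟨d', hd'⟩ := exists_ne d
    obtain ⟨s, hs, hs'⟩ := sz d' x
    obtain ⟨z, hz, hzx⟩ := exists_mem_ne (show 1 < s.card by omega) x
    have hz' : ¬ E d x z := fun hc => hd' (un d' d x z hzx.symm ((hs' z).1 hz) hc)
    have h1 := fr0 d τ hτ x z hx hz'
    ext y
    by_cases hy : E d x y
    · exact fr0 d τ hτ z y h1 (fun hc => hz' ((hE d).trans hy ((hE d).symm hc)))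
    · exact fr0 d τ hτ x y hx hy
  have cT : ∀ d, Nat.card (T d) = q := by
    intro d
    obtain ⟨s, hs, hs'⟩ := sz d o
    rw [← hs, ← Nat.card_eq_finsetCard]
    apply Nat.card_congr
    refine Equiv.ofBijective (fun τ => ⟨τ.1 o, (hs' _).2 (τ.2.2 o)⟩) ⟨?_, ?_⟩
    · intro a b hab
      have h1 : a.1 o = b.1 o := congrArg Subtype.val hab
      have h2 := fr d (b.1⁻¹ * a.1) ((T d).mul_mem ((T d).inv_mem b.2) a.2) o (by simp [h1])
      exact Subtype.ext (inv_mul_eq_one.1 h2).symm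
    · rintro ⟨y, hy⟩
      obtain ⟨τ, h1, h2, h3⟩ := tr d o y ((hs' y).1 hy)
      exact ⟨⟨τ, h1, h2⟩, Subtype.ext h3⟩
  have cm : ∀ d d', d ≠ d' → ∀ a ∈ T d, ∀ b ∈ T d', Commute a b := by
    intro d d' hd a ha b hb
    ext x
    simp only [Equiv.Perm.coe_mul, Function.comp_apply]
    by_contra hc
    apply hd
    apply un d d' _ _ hc
    · exact (hE d).trans ((hE d).symm (ha.2 _)) (hb.1 d _ _ (ha.2 x))
    · exact (hE d').trans ((hE d').symm (ha.1 d' _ _ (hb.2 x))) (hb.2 _)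
  obtain ⟨d, d', hd⟩ := exists_pair_ne D
  obtain ⟨p, hp, hpq⟩ := Nat.exists_prime_and_dvd (show q ≠ 1 by omega)
  have := Fact.mk hp
  obtain ⟨⟨a, ha⟩, hap⟩ := exists_prime_orderOf_dvd_card' (G := T d) p (by rw [cT]; exact hpq)
  have ha1 : a ≠ 1 := by
    rintro rfl
    rw [show (⟨1, ha⟩ : T d) = 1 from rfl, orderOf_one] at hap
    exact hp.one_lt.ne hap
  have hap' : a ^ p = 1 := by
    have := pow_orderOf_eq_one (⟨a, ha⟩ : T d)
    rw [hap] at this
    exact congrArg Subtype.val this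
  have key : ∀ b ∈ T d', b ^ p = 1 := by
    intro b hb
    by_cases hb1 : b = 1
    · rw [hb1, one_pow]
    obtain ⟨e, he⟩ := ex o (a (b o))
    obtain ⟨c, c1, c2, c3⟩ := tr e _ _ he
    have hc : c ∈ T e := ⟨c1, c2⟩
    have hab := cm d d' hd a ha b hb
    have e1 : e ≠ d := by
      rintro rfl
      apply hd
      exact un _ _ o (b o) (fun h => hb1 (fr _ b hb o h.symm))
        ((hE e).trans he ((hE e).symm (ha.2 _))) (hb.2 o)
    have e2 : e ≠ d' := by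
      rintro rfl
      apply hd
      have h1 : a (b o) = b (a o) := congrArg (fun f : Equiv.Perm X => f o) hab
      rw [h1] at he
      exact un _ _ o (a o) (fun h => ha1 (fr _ a ha o h.symm)) (ha.2 o)
        ((hE e).trans he ((hE e).symm (hb.2 _)))
    have hca := cm e d e1 _ ((T e).inv_mem hc) a ha
    have hcb := cm e d' e2 _ ((T e).inv_mem hc) b hb
    have h1 : (c⁻¹ * (a * b)) o = o := by simp [← c3]
    have h2 : ((c⁻¹ * (a * b)) ^ p) o = o := Equiv.Perm.pow_apply_eq_self_of_apply_eq_self h1 p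
    rw [(hca.mul_right hcb).mul_pow, hab.mul_pow, hap', one_mul, inv_pow] at h2
    have h3 : (b ^ p) o = (c ^ p) o := by
      have := congrArg (c ^ p) h2
      simpa using this
    apply fr d' _ ((T d').pow_mem hb p) o
    by_contra h4
    apply e2
    refine un _ _ o ((b ^ p) o) (Ne.symm h4) ?_ (((T d').pow_mem hb p).2 o)
    rw [h3]; exact ((T e).pow_mem hc p).2 o
  have hP : IsPGroup p (T d') := fun b => ⟨1, by
    rw [pow_one]; exact Subtype.ext (key b.1 b.2)⟩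
  obtain ⟨m, hm⟩ := IsPGroup.iff_card.1 hP
  rw [cT] at hm
  refine (isPrimePow_nat_iff q).2 ⟨p, m, hp, ?_, hm.symm⟩
  by_contra h0
  rw [show m = 0 by omega, pow_zero] at hm
  omega

end Transl


variable {α : Type} [Fintype α] [DecidableEq α]

lemma sum_cov_inter {R : RkFn α} {F T Y : Finset α} (hF : R.Flat F) (hT : R.Flat T) (h : F ⊆ T)
    (hY : Y ⊆ T) (hd : ∀ y ∈ Y, y ∉ F) : ∑ G ∈ R.cov F T, (G ∩ Y).card = Y.card := by
  rw [card_eq_sum_card_fiberwise (s := Y) (t := R.cov F T) (f := fun p => R.cl (insert p F))]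
  · apply sum_congr rfl
    intro G hG
    rw [mem_cov] at hG
    congr 1
    ext y
    rw [mem_inter, mem_filter]
    constructor
    · rintro ⟨h1, h2⟩
      exact ⟨h2, hF.eq_cl_insert hG.1 hG.2.1 hG.2.2.2 h1 (hd y h2)⟩
    · rintro ⟨h1, h2⟩
      exact ⟨h2 ▸ mem_cl_insert _ _, h1⟩
  · intro y hy
    exact cl_insert_mem_cov hF hT h (hY hy) (hd y hy)

lemma one_zero {β : Type} [DecidableEq β] (C : Finset β) (f : β → ℕ) (q c : ℕ) (hc : 0 < c)
    (hC : C.card = q + 1) (hf : ∀ G ∈ C, f G = 0 ∨ f G = c) (hs : ∑ G ∈ C, f G = q * c) :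
    ∃! G, G ∈ C ∧ f G = 0 := by
  rw [← sum_filter_add_sum_filter_not C (fun G => f G = 0), sum_eq_zero
    (fun G hG => (mem_filter.1 hG).2), zero_add, sum_congr rfl (g := fun _ => c)
    (fun G hG => (hf G (mem_filter.1 hG).1).resolve_left (mem_filter.1 hG).2), sum_const,
    smul_eq_mul] at hs
  have h1 := Nat.eq_of_mul_eq_mul_right hc hs
  have h2 := card_filter_add_card_filter_not (s := C) (fun G => f G = 0)
  obtain ⟨G, hG⟩ := card_eq_one.1 (show (C.filter (fun G => f G = 0)).card = 1 by omega)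
  refine ⟨G, mem_filter.1 (hG ▸ mem_singleton_self G), fun G' hG' => ?_⟩
  exact mem_singleton.1 (hG ▸ mem_filter.2 hG')

lemma rk_inter_lt {R : RkFn α} {F G : Finset α} (hF : R.Flat F) (hG : R.Flat G) (h : ¬ F ⊆ G) :
    R.rk (F ∩ G) < R.rk F := by
  by_contra hc
  have := (hF.inter hG).eq_of_subset_of_rk_le inter_subset_left (not_lt.1 hc)
  exact h (this ▸ inter_subset_right)

/-- a rank four flat in a geometry whose flats have the sizes of affine subspaces -/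
structure Aff (R : RkFn α) (q : ℕ) (S : Finset α) : Prop where
  q3 : 3 ≤ q
  f0 : R.Flat ∅
  sz : ∀ (i : ℕ) (F : Finset α), R.Flat F → R.rk F = i + 1 → F.card = q ^ i
  fS : R.Flat S
  rS : R.rk S = 4

/-- lines -/
def Ln (R : RkFn α) (L : Finset α) : Prop := R.Flat L ∧ R.rk L = 2

/-- planes inside `S` -/
def Pl (R : RkFn α) (S P : Finset α) : Prop := R.Flat P ∧ R.rk P = 3 ∧ P ⊆ S

/-- equal or disjoint -/
def Par (L M : Finset α) : Prop := L = M ∨ ∀ x ∈ L, x ∉ M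

lemma Par.symm {L M : Finset α} (h : Par L M) : Par M L :=
  h.elim (fun e => Or.inl e.symm) (fun e => Or.inr (fun x h1 h2 => e x h2 h1))

namespace Aff

variable {R : RkFn α} {q : ℕ} {S : Finset α}

lemma rk1 (h : Aff R q S) (x : α) : R.rk {x} = 1 := by
  have := h.f0.rk_insert (notMem_empty x)
  rw [R.rk_empty] at this
  simpa using this

lemma f1 (h : Aff R q S) (x : α) : R.Flat {x} := by
  have h1 := h.sz 0 _ (cl_flat {x}) (by rw [rk_cl, h.rk1])
  exact (eq_of_subset_of_card_le (subset_cl _) (by simp [h1])).symm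

lemma card_ln (h : Aff R q S) {L : Finset α} (hL : Ln R L) : L.card = q := by
  simpa using h.sz 1 L hL.1 hL.2

lemma card_pl (h : Aff R q S) {P : Finset α} (hP : Pl R S P) : P.card = q ^ 2 :=
  h.sz 2 P hP.1 hP.2.1

lemma ln_line (h : Aff R q S) {x y : α} (hxy : x ≠ y) : Ln R (R.cl {x, y}) :=
  ⟨cl_flat _, by rw [(h.f1 y).rk_cl_insert (by simpa using hxy), h.rk1]⟩

lemma ln_eq (h : Aff R q S) {L : Finset α} {x y : α} (hL : Ln R L) (hxy : x ≠ y) (hx : x ∈ L)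
    (hy : y ∈ L) : R.cl {x, y} = L :=
  (h.f1 y).eq_cl_insert hL.1 (singleton_subset_iff.2 hy) (by rw [hL.2, h.rk1]) hx
    (by simpa using hxy)

lemma line_eq (h : Aff R q S) {L M : Finset α} {x y : α} (hL : Ln R L) (hM : Ln R M) (hxy : x ≠ y)
    (hx : x ∈ L) (hy : y ∈ L) (hx' : x ∈ M) (hy' : y ∈ M) : L = M :=
  (h.ln_eq hL hxy hx hy).symm.trans (h.ln_eq hM hxy hx' hy')

lemma ln_sub {F : Finset α} {x y : α} (hF : R.Flat F) (hx : x ∈ F) (hy : y ∈ F) :
    R.cl {x, y} ⊆ F :=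
  hF.cl_subset (insert_subset hx (singleton_subset_iff.2 hy))

lemma line_sub (h : Aff R q S) {L F : Finset α} {x y : α} (hL : Ln R L) (hF : R.Flat F)
    (hxy : x ≠ y) (hx : x ∈ L) (hy : y ∈ L) (hx' : x ∈ F) (hy' : y ∈ F) : L ⊆ F :=
  h.ln_eq hL hxy hx hy ▸ ln_sub hF hx' hy'

lemma mem_ln_left (x y : α) : x ∈ R.cl {x, y} := subset_cl _ (by simp)

lemma mem_ln_right (x y : α) : y ∈ R.cl {x, y} := subset_cl _ (by simp)

lemma pl_plane (h : Aff R q S) {L : Finset α} {z : α} (hL : Ln R L) (hLS : L ⊆ S) (hz : z ∈ S)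
    (hzL : z ∉ L) : Pl R S (R.cl (insert z L)) :=
  ⟨cl_flat _, by rw [hL.1.rk_cl_insert hzL, hL.2], h.fS.cl_subset (insert_subset hz hLS)⟩

lemma plane_eq {L P Q : Finset α} {z : α} (hL : Ln R L) (hP : Pl R S P) (hQ : Pl R S Q)
    (h1 : L ⊆ P) (h2 : L ⊆ Q) (hz : z ∉ L) (z1 : z ∈ P) (z2 : z ∈ Q) : P = Q :=
  (hL.1.eq_cl_insert hP.1 h1 (by rw [hP.2.1, hL.2]) z1 hz).symm.trans
    (hL.1.eq_cl_insert hQ.1 h2 (by rw [hQ.2.1, hL.2]) z2 hz)

lemma exists_line (h : Aff R q S) {P : Finset α} {x : α} (hP : Pl R S P) (hx : x ∈ P) :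
    ∃ L, Ln R L ∧ x ∈ L ∧ L ⊆ P := by
  obtain ⟨L, h1, h2, h3, h4⟩ := (h.f1 x).exists_rk hP.1 (singleton_subset_iff.2 hx) 2
    (by rw [h.rk1]; omega) (by rw [hP.2.1]; omega)
  exact ⟨L, ⟨h1, h4⟩, singleton_subset_iff.1 h2, h3⟩

lemma cov_pt (h : Aff R q S) {P : Finset α} {x : α} (hP : Pl R S P) (hx : x ∈ P) :
    (R.cov {x} P).card = q + 1 := by
  have := h.q3
  have e := cov_card_mul (w := q - 1) (h.f1 x) hP.1 (singleton_subset_iff.2 hx) (fun G hG => by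
    rw [h.card_ln ⟨(mem_cov.1 hG).1, by rw [(mem_cov.1 hG).2.2.2, h.rk1]⟩, card_singleton]; omega)
  rw [h.card_pl hP, card_singleton] at e
  apply Nat.eq_of_mul_eq_mul_right (show 0 < q - 1 by omega)
  zify [show 1 ≤ q by omega] at e ⊢
  linear_combination e

lemma cov_pl {L G : Finset α} (hL : Ln R L) (hG : G ∈ R.cov L S) : Pl R S G :=
  ⟨(mem_cov.1 hG).1, by rw [(mem_cov.1 hG).2.2.2, hL.2], (mem_cov.1 hG).2.2.1⟩

lemma cov_ln (h : Aff R q S) {L : Finset α} (hL : Ln R L) (hS : L ⊆ S) :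
    (R.cov L S).card = q + 1 := by
  have := h.q3
  have h2 : q < q ^ 2 := by nlinarith
  have e := cov_card_mul (w := q ^ 2 - q) hL.1 h.fS hS (fun G hG => by
    rw [h.card_pl (cov_pl hL hG), h.card_ln hL]; omega)
  rw [h.card_ln hL, h.sz 3 S h.fS h.rS] at e
  apply Nat.eq_of_mul_eq_mul_right (show 0 < q ^ 2 - q by omega)
  zify [h2.le] at e ⊢
  linear_combination e

/-- two planes with a common point have a common line -/
lemma inter_line (h : Aff R q S) {P Q : Finset α} {x : α} (hP : Pl R S P) (hQ : Pl R S Q)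
    (hne : P ≠ Q) (xP : x ∈ P) (xQ : x ∈ Q) : Ln R (P ∩ Q) := by
  have aux : ∀ P Q, Pl R S P → Pl R S Q → P ≠ Q → x ∈ P → x ∈ Q →
      R.rk (P ∩ Q) = 1 ∨ R.rk (P ∩ Q) = 2 := by
    intro P Q hP hQ hne xP xQ
    have h1 := rk_inter_lt hP.1 hQ.1
      (fun hc => hne (hP.1.eq_of_subset_of_rk_le hc (by rw [hP.2.1, hQ.2.1])))
    have h2 := R.mono (singleton_subset_iff.2 (mem_inter.2 ⟨xP, xQ⟩))
    rw [h.rk1] at h2
    have := hP.2.1
    omega
  refine ⟨hP.1.inter hQ.1, (aux P Q hP hQ hne xP xQ).resolve_left fun h1 => ?_⟩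
  have h2 : {x} = P ∩ Q := (h.f1 x).eq_of_subset_of_rk_le
    (singleton_subset_iff.2 (mem_inter.2 ⟨xP, xQ⟩)) (by rw [h.rk1, h1])
  have h3 : ∀ y ∈ Q.erase x, y ∉ P := fun y hy hy' =>
    (mem_erase.1 hy).1 (mem_singleton.1 (h2 ▸ mem_inter.2 ⟨hy', (mem_erase.1 hy).2⟩))
  obtain ⟨L, hL, xL, LP⟩ := h.exists_line hP xP
  have e := sum_cov_inter hL.1 h.fS (LP.trans hP.2.2) ((erase_subset x Q).trans hQ.2.2)
    (fun y hy hy' => h3 y hy (LP hy'))
  have hPc : P ∈ R.cov L S := mem_cov.2 ⟨hP.1, LP, hP.2.2, by rw [hP.2.1, hL.2]⟩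
  have hq := h.q3
  rw [← add_sum_erase _ _ hPc, card_erase_of_mem xQ, h.card_pl hQ,
    card_eq_zero.2 (eq_empty_of_forall_notMem (s := P ∩ Q.erase x)
      (fun y hy => h3 y (mem_inter.1 hy).2 (mem_inter.1 hy).1)), zero_add] at e
  have e2 := sum_le_card_nsmul ((R.cov L S).erase P) (fun G => (G ∩ Q.erase x).card) (q - 1) (by
    intro G hG
    have hG' := (mem_erase.1 hG).2
    have pG := cov_pl hL hG'
    have xG : x ∈ G := (mem_cov.1 hG').2.1 xL
    have hGQ : G ≠ Q := by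
      rintro rfl
      have := card_le_card (h2 ▸ subset_inter LP (mem_cov.1 hG').2.1 : L ⊆ {x})
      rw [h.card_ln hL, card_singleton] at this
      omega
    rw [inter_erase, card_erase_of_mem (mem_inter.2 ⟨xG, xQ⟩)]
    rcases aux G Q pG hQ hGQ xG xQ with e | e
    · rw [h.sz 0 _ (pG.1.inter hQ.1) e]; simp
    · rw [h.card_ln ⟨pG.1.inter hQ.1, e⟩])
  rw [e, card_erase_of_mem hPc, h.cov_ln hL (LP.trans hP.2.2), smul_eq_mul] at e2
  zify [show 1 ≤ q by omega, Nat.one_le_pow 2 q (by omega), show 1 ≤ q + 1 by omega] at e2 hq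
  nlinarith

lemma playfair (h : Aff R q S) {P L : Finset α} {x : α} (hP : Pl R S P) (hL : Ln R L)
    (LP : L ⊆ P) (xP : x ∈ P) (xL : x ∉ L) :
    ∃! M, Ln R M ∧ M ⊆ P ∧ x ∈ M ∧ ∀ y ∈ M, y ∉ L := by
  have e := sum_cov_inter (h.f1 x) hP.1 (singleton_subset_iff.2 xP) LP
    (fun y hy hy' => xL (mem_singleton.1 hy' ▸ hy))
  have hc : ∀ M, M ∈ R.cov {x} P ↔ Ln R M ∧ M ⊆ P ∧ x ∈ M := fun M => by
    rw [mem_cov, h.rk1, singleton_subset_iff, Ln]; tauto
  have := one_zero _ (fun G => (G ∩ L).card) q 1 one_pos (h.cov_pt hP xP) (by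
    intro G hG
    rw [hc] at hG
    have : (G ∩ L).card ≤ 1 := card_le_one.2 fun a ha b hb => by
      by_contra hab
      rw [mem_inter] at ha hb
      exact xL (h.line_eq hG.1 hL hab ha.1 hb.1 ha.2 hb.2 ▸ hG.2.2)
    omega) (by rw [e, h.card_ln hL, mul_one])
  simpa only [hc, card_eq_zero, eq_empty_iff_forall_notMem, mem_inter, not_and, and_assoc]
    using this

lemma exists_par (h : Aff R q S) {P L : Finset α} {x : α} (hP : Pl R S P) (hL : Ln R L)
    (LP : L ⊆ P) (xP : x ∈ P) : ∃ M, Ln R M ∧ M ⊆ P ∧ x ∈ M ∧ Par M L := by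
  by_cases xL : x ∈ L
  · exact ⟨L, hL, LP, xL, Or.inl rfl⟩
  · obtain ⟨M, h1, h2, h3, h4⟩ := (h.playfair hP hL LP xP xL).exists
    exact ⟨M, h1, h2, h3, Or.inr h4⟩

lemma par_unique (h : Aff R q S) {P L M N : Finset α} {x : α} (hP : Pl R S P) (hL : Ln R L)
    (LP : L ⊆ P) (hM : Ln R M) (MP : M ⊆ P) (hN : Ln R N) (NP : N ⊆ P) (xM : x ∈ M) (xN : x ∈ N)
    (p1 : Par M L) (p2 : Par N L) : M = N := by
  by_cases xL : x ∈ L
  · exact (p1.resolve_right fun e => e x xM xL).trans (p2.resolve_right fun e => e x xN xL).symm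
  · exact (h.playfair hP hL LP (MP xM) xL).unique
      ⟨hM, MP, xM, p1.resolve_left fun e => xL (e ▸ xM)⟩
      ⟨hN, NP, xN, p2.resolve_left fun e => xL (e ▸ xN)⟩

lemma par_trans (h : Aff R q S) {P L M N : Finset α} (hP : Pl R S P) (hL : Ln R L)
    (LP : L ⊆ P) (hM : Ln R M) (MP : M ⊆ P) (hN : Ln R N) (NP : N ⊆ P)
    (p1 : Par M L) (p2 : Par L N) : Par M N := by
  by_cases e : ∀ x ∈ M, x ∉ N
  · exact Or.inr e
  · push Not at e
    obtain ⟨x, xM, xN⟩ := e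
    exact Or.inl (h.par_unique hP hL LP hM MP hN NP xM xN p1 p2.symm)

lemma par_plane (h : Aff R q S) {P : Finset α} {z : α} (hP : Pl R S P) (zS : z ∈ S) (zP : z ∉ P) :
    ∃ Q, Pl R S Q ∧ z ∈ Q ∧ ∀ y ∈ Q, y ∉ P := by
  have hq := h.q3
  obtain ⟨x, xP⟩ : P.Nonempty := card_pos.1 (by rw [h.card_pl hP]; positivity)
  obtain ⟨m, hm, -, mP⟩ := h.exists_line hP xP
  have zm : z ∉ m := fun e => zP (mP e)
  have hW := h.pl_plane hm (mP.trans hP.2.2) zS zm
  obtain ⟨L, hL, LW, zL, Lm⟩ :=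
    (h.playfair hW hm (subset_cl_insert _ _) (mem_cl_insert _ _) zm).exists
  have LP : ∀ y ∈ P, y ∉ L := fun y yP yL =>
    Lm y yL (hm.1.cl_insert_inter hP.1 mP zP ▸ mem_inter.2 ⟨LW yL, yP⟩)
  have e := sum_cov_inter hL.1 h.fS (LW.trans hW.2.2) hP.2.2 LP
  obtain ⟨Q, hQ, hQ'⟩ := (one_zero _ (fun G => (G ∩ P).card) q q (by omega)
    (h.cov_ln hL (LW.trans hW.2.2)) (by
      intro G hG
      rcases (G ∩ P).eq_empty_or_nonempty with e | ⟨y, hy⟩
      · left; simp [e]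
      · right
        exact h.card_ln (h.inter_line (cov_pl hL hG) hP
          (fun e => zP (e ▸ (mem_cov.1 hG).2.1 zL)) (mem_inter.1 hy).1 (mem_inter.1 hy).2))
    (by rw [e, h.card_pl hP, sq])).exists
  refine ⟨Q, cov_pl hL hQ, (mem_cov.1 hQ).2.1 zL, fun y h1 h2 => ?_⟩
  exact notMem_empty y (card_eq_zero.1 hQ' ▸ mem_inter.2 ⟨h1, h2⟩)

lemma meets (h : Aff R q S) {A B L : Finset α} {x : α} (hA : Pl R S A) (hB : Pl R S B)
    (AB : ∀ y ∈ A, y ∉ B) (hL : Ln R L) (LS : L ⊆ S) (xL : x ∈ L) (xA : x ∈ A) (LA : ¬ L ⊆ A) :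
    ∃ y ∈ L, y ∈ B := by
  by_contra hc
  push Not at hc
  have hq := h.q3
  obtain ⟨y, yB⟩ : B.Nonempty := card_pos.1 (by rw [h.card_pl hB]; positivity)
  have hW := h.pl_plane hL LS (hB.2.2 yB) (fun e => hc y e yB)
  have LW : L ⊆ R.cl (insert y L) := subset_cl_insert _ _
  have m1 := h.inter_line hW hB (fun e => AB x xA (e ▸ LW xL)) (mem_cl_insert _ _) yB
  have m2 := h.inter_line hW hA (fun e => LA (e ▸ LW)) (LW xL) xA
  have := h.par_unique hW m1 inter_subset_left hL LW m2 inter_subset_left xL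
    (mem_inter.2 ⟨LW xL, xA⟩) (Or.inr fun u h1 h2 => hc u h1 (mem_inter.1 h2).2)
    (Or.inr fun u h1 h2 => AB u (mem_inter.1 h1).2 (mem_inter.1 h2).2)
  exact LA (this ▸ inter_subset_right)

lemma three_planes (h : Aff R q S) : ∃ A B C, Pl R S A ∧ Pl R S B ∧ Pl R S C ∧
    (∀ y ∈ A, y ∉ B) ∧ (∀ y ∈ A, y ∉ C) ∧ (∀ y ∈ B, y ∉ C) := by
  have hq := h.q3
  obtain ⟨A, a1, -, a2, a3⟩ := h.f0.exists_rk h.fS (empty_subset _) 3
    (by rw [R.rk_empty]; omega) (by rw [h.rS]; omega)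
  have hA : Pl R S A := ⟨a1, a3, a2⟩
  obtain ⟨z, zS, zA⟩ := exists_notMem_of_rk_lt (R := R) (F := A) (T := S) (by rw [h.rS]; omega)
  obtain ⟨B, hB, -, BA⟩ := h.par_plane hA zS zA
  obtain ⟨w, wS, hw⟩ : ∃ w ∈ S, w ∉ A ∪ B := by
    apply exists_mem_notMem_of_card_lt_card
    refine lt_of_le_of_lt (card_union_le _ _) ?_
    rw [h.card_pl hA, h.card_pl hB, h.sz 3 S h.fS h.rS]
    nlinarith [Nat.mul_le_mul_left (q ^ 2) hq, Nat.one_le_pow 2 q (by omega)]
  rw [mem_union, not_or] at hw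
  obtain ⟨C, hC, wC, CA⟩ := h.par_plane hA wS hw.1
  refine ⟨A, B, C, hA, hB, hC, fun y h1 h2 => BA y h2 h1, fun y h1 h2 => CA y h2 h1, ?_⟩
  intro x xB xC
  have hne : x ≠ w := fun e => hw.2 (e ▸ xB)
  have LC := ln_sub hC.1 xC wC
  obtain ⟨y, h1, h2⟩ := h.meets hB hA BA (h.ln_line hne) (LC.trans hC.2.2) (mem_ln_left _ _) xB
    (fun e => hw.2 (e (mem_ln_right _ _)))
  exact CA y (LC h1) h2

lemma proj_unique (h : Aff R q S) {B : Finset α} {z x y y' : α} (hB : R.Flat B) (zB : z ∉ B)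
    (zx : z ≠ x) (yB : y ∈ B) (yB' : y' ∈ B) (h1 : y ∈ R.cl {z, x}) (h2 : y' ∈ R.cl {z, x}) :
    y = y' := by
  by_contra hc
  exact zB (h.line_sub (h.ln_line zx) hB hc h1 h2 yB yB' (mem_ln_left _ _))

/-- central projection -/
lemma exists_proj (h : Aff R q S) {A B : Finset α} {z : α} (hA : Pl R S A) (hB : Pl R S B)
    (AB : ∀ y ∈ A, y ∉ B) (zS : z ∈ S) (zA : z ∉ A) (zB : z ∉ B) :
    ∃ e : A ≃ B, ∀ x : A, (e x).1 ∈ R.cl {z, x.1} := by
  have ex : ∀ x : A, ∃ y : B, y.1 ∈ R.cl {z, x.1} := fun x => by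
    have zx : z ≠ x.1 := fun e => zA (e ▸ x.2)
    obtain ⟨y, h1, h2⟩ := h.meets hA hB AB (h.ln_line zx) (ln_sub h.fS zS (hA.2.2 x.2))
      (mem_ln_right _ _) x.2 (fun e => zA (e (mem_ln_left _ _)))
    exact ⟨⟨y, h2⟩, h1⟩
  choose f hf using ex
  have hi : Function.Injective f := by
    intro x x' e
    have zx : ∀ x : A, z ≠ x.1 := fun x e => zA (e ▸ x.2)
    have zf : z ≠ (f x).1 := fun e => zB (e ▸ (f x).2)
    have e1 := h.line_eq (h.ln_line (zx x)) (h.ln_line (zx x')) zf (mem_ln_left _ _) (hf x)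
      (mem_ln_left _ _) (e ▸ hf x')
    exact Subtype.ext (h.proj_unique hA.1 zA (zx x) x.2 x'.2 (mem_ln_right _ _)
      (e1 ▸ mem_ln_right _ _))
  exact ⟨Equiv.ofBijective f ((Fintype.bijective_iff_injective_and_card f).2
    ⟨hi, by simp [h.card_pl hA, h.card_pl hB]⟩), hf⟩

lemma proj_line (h : Aff R q S) {A B M : Finset α} {z : α} (hA : Pl R S A) (hB : Pl R S B)
    (zS : z ∈ S) (zA : z ∉ A) (zB : z ∉ B) (e : A ≃ B) (he : ∀ x : A, (e x).1 ∈ R.cl {z, x.1})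
    (hM : Ln R M) (MA : M ⊆ A) :
    ∃ W, Pl R S W ∧ W ∩ A = M ∧ Ln R (W ∩ B) ∧ ∀ x : A, x.1 ∈ M → (e x).1 ∈ W ∩ B := by
  have hq := h.q3
  have hW := h.pl_plane hM (MA.trans hA.2.2) zS (fun e => zA (MA e))
  have h1 : ∀ x : A, x.1 ∈ M → (e x).1 ∈ R.cl (insert z M) ∩ B := fun x hx =>
    mem_inter.2 ⟨ln_sub hW.1 (mem_cl_insert _ _) (subset_cl_insert _ _ hx) (he x), (e x).2⟩
  obtain ⟨x, xM⟩ : M.Nonempty := card_pos.1 (by rw [h.card_ln hM]; omega)
  have h2 := mem_inter.1 (h1 ⟨x, MA xM⟩ xM)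
  exact ⟨_, hW, hM.1.cl_insert_inter hA.1 MA zA,
    h.inter_line hW hB (fun e => zB (e ▸ mem_cl_insert _ _)) h2.1 h2.2, h1⟩

theorem primePow (h : Aff R q S) : IsPrimePow q := by
  have hq := h.q3
  obtain ⟨A, B, C, hA, hB, hC, AB, AC, BC⟩ := h.three_planes
  obtain ⟨o, oA⟩ : A.Nonempty := card_pos.1 (by rw [h.card_pl hA]; positivity)
  have : Nonempty A := ⟨⟨o, oA⟩⟩
  have : Nontrivial {L // Ln R L ∧ o ∈ L ∧ L ⊆ A} := by
    obtain ⟨l1, h1, l2, h2, hne⟩ := one_lt_card.1 (show 1 < (R.cov {o} A).card by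
      rw [h.cov_pt hA oA]; omega)
    rw [mem_cov, h.rk1, singleton_subset_iff] at h1 h2
    exact ⟨⟨l1, ⟨h1.1, h1.2.2.2⟩, h1.2.1, h1.2.2.1⟩, ⟨l2, ⟨h2.1, h2.2.2.2⟩, h2.2.1, h2.2.2.1⟩,
      fun e => hne (congrArg Subtype.val e)⟩
  apply primePow_of_trans (X := A) (D := {L // Ln R L ∧ o ∈ L ∧ L ⊆ A})
    (E := fun L x y => ∃ M, Ln R M ∧ M ⊆ A ∧ x.1 ∈ M ∧ y.1 ∈ M ∧ Par M L.1) q (by omega)
  · intro x y
    obtain ⟨M, hM, MA, xM, yM⟩ : ∃ M, Ln R M ∧ M ⊆ A ∧ x.1 ∈ M ∧ y.1 ∈ M := by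
      by_cases e : x.1 = y.1
      · obtain ⟨M, h1, h2, h3⟩ := h.exists_line hA x.2
        exact ⟨M, h1, h3, h2, e ▸ h2⟩
      · exact ⟨_, h.ln_line e, ln_sub hA.1 x.2 y.2, mem_ln_left _ _, mem_ln_right _ _⟩
    obtain ⟨L, h1, h2, h3, h4⟩ := h.exists_par hA hM MA oA
    exact ⟨⟨L, h1, h3, h2⟩, M, hM, MA, xM, yM, h4.symm⟩
  · rintro ⟨L, hL, oL, LA⟩
    refine ⟨fun x => ?_, ?_, ?_⟩
    · obtain ⟨M, h1, h2, h3, h4⟩ := h.exists_par hA hL LA x.2
      exact ⟨M, h1, h2, h3, h3, h4⟩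
    · rintro x y ⟨M, h1, h2, h3, h4, h5⟩
      exact ⟨M, h1, h2, h4, h3, h5⟩
    · rintro x y w ⟨M, h1, h2, h3, h4, h5⟩ ⟨N, g1, g2, g3, g4, g5⟩
      obtain rfl := h.par_unique hA hL LA h1 h2 g1 g2 h4 g3 h5 g5
      exact ⟨M, h1, h2, h3, g4, h5⟩
  · rintro ⟨L, hL, oL, LA⟩ ⟨L', hL', oL', LA'⟩ x y xy ⟨M, h1, h2, h3, h4, h5⟩
      ⟨N, g1, g2, g3, g4, g5⟩
    obtain rfl := h.line_eq h1 g1 (fun e => xy (Subtype.ext e)) h3 h4 g3 g4
    exact Subtype.ext (h.par_unique hA h1 h2 hL LA hL' LA' oL oL' h5.symm g5.symm)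
  · rintro ⟨L, hL, oL, LA⟩ x
    obtain ⟨M, h1, h2, h3, h4⟩ := h.exists_par hA hL LA x.2
    refine ⟨M.subtype (· ∈ A), ?_, fun y => ?_⟩
    · rw [card_subtype, filter_true_of_mem h2, h.card_ln h1]
    · rw [mem_subtype]
      refine ⟨fun e => ⟨M, h1, h2, h3, e, h4⟩, ?_⟩
      rintro ⟨N, g1, g2, g3, g4, g5⟩
      exact h.par_unique hA hL LA h1 h2 g1 g2 h3 g3 h4 g5 ▸ g4
  · rintro ⟨L, hL, oL, LA⟩ x y ⟨M, hM, MA, xM, yM, ML⟩
    by_cases xy : x = y
    · refine ⟨1, fun _ _ _ e => e, fun u => ?_, xy⟩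
      obtain ⟨N, h1, h2, h3, h4⟩ := h.exists_par hA hL LA u.2
      exact ⟨N, h1, h2, h3, h3, h4⟩
    have xy' : x.1 ≠ y.1 := fun e => xy (Subtype.ext e)
    have BA : ∀ y ∈ B, y ∉ A := fun y h1 h2 => AB y h2 h1
    obtain ⟨z, zC⟩ : C.Nonempty := card_pos.1 (by rw [h.card_pl hC]; positivity)
    have zA : z ∉ A := fun e => AC z e zC
    have zB : z ∉ B := fun e => BC z e zC
    obtain ⟨e1, he1⟩ := h.exists_proj hA hB AB (hC.2.2 zC) zA zB
    have n1 : (e1 x).1 ≠ y.1 := fun e => AB _ y.2 (e ▸ (e1 x).2)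
    obtain ⟨w, hw, wC⟩ := h.meets hA hC AC (h.ln_line n1)
      (ln_sub h.fS (hB.2.2 (e1 x).2) (hA.2.2 y.2)) (mem_ln_right _ _) y.2
      (fun e => BA _ (e1 x).2 (e (mem_ln_left _ _)))
    have wA : w ∉ A := fun e => AC w e wC
    have wB : w ∉ B := fun e => BC w e wC
    obtain ⟨e2, he2⟩ := h.exists_proj hB hA BA (hC.2.2 wC) wB wA
    have n2 : w ≠ (e1 x).1 := fun e => wB (e ▸ (e1 x).2)
    have l2 : R.cl {w, (e1 x).1} = R.cl {(e1 x).1, y.1} :=
      h.ln_eq (h.ln_line n1) n2 hw (mem_ln_left _ _)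
    have zw : z ≠ w := by
      rintro rfl
      have zx : z ≠ x.1 := fun e => zA (e ▸ x.2)
      have l3 := h.ln_eq (h.ln_line zx) n2 (mem_ln_left _ _) (he1 x)
      exact xy' (h.proj_unique hA.1 zA zx x.2 y.2 (mem_ln_right _ _)
        (by rw [← l3, l2]; exact mem_ln_right _ _))
    have txy : e2 (e1 x) = y := Subtype.ext (h.proj_unique hA.1 wA n2 (e2 _).2 y.2 (he2 _)
      (l2 ▸ mem_ln_right _ _))
    refine ⟨e1.trans e2, ?_, ?_, txy⟩
    · rintro ⟨K, hK, oK, KA⟩ u u' ⟨N, hN, NA, uN, uN', NK⟩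
      obtain ⟨W, hW, WA, WB, m1⟩ := h.proj_line hA hB (hC.2.2 zC) zA zB e1 he1 hN NA
      obtain ⟨V, hV, VB, VA, m2⟩ := h.proj_line hB hA (hC.2.2 wC) wB wA e2 he2 WB
        inter_subset_right
      refine ⟨V ∩ A, VA, inter_subset_right, m2 _ (m1 u uN), m2 _ (m1 u' uN'),
        h.par_trans hA hN NA VA inter_subset_right hK KA ?_ NK⟩
      by_cases e : ∀ a ∈ V ∩ A, a ∉ N
      · exact Or.inr e
      · push Not at e
        obtain ⟨a, a1, a2⟩ := e
        left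
        rw [← WA] at a2 ⊢
        rw [plane_eq WB hV hW (VB ▸ inter_subset_left) inter_subset_left
          (fun e => AB a (mem_inter.1 a1).2 (mem_inter.1 e).2) (mem_inter.1 a1).1
          (mem_inter.1 a2).1]
    · have hn := h.ln_line zw
      have nC := ln_sub hC.1 zC wC
      have tr : ∀ u : A, Pl R S (R.cl (insert u.1 (R.cl {z, w}))) ∧
          Ln R (R.cl (insert u.1 (R.cl {z, w})) ∩ A) ∧
          (e2 (e1 u)).1 ∈ R.cl (insert u.1 (R.cl {z, w})) := fun u => by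
        have hW := h.pl_plane hn (nC.trans hC.2.2) (hA.2.2 u.2) (fun e => AC _ u.2 (nC e))
        have zW := subset_cl_insert (R := R) _ u.1 (mem_ln_left (R := R) z w)
        have wW := subset_cl_insert (R := R) _ u.1 (mem_ln_right (R := R) z w)
        exact ⟨hW, h.inter_line hW hA (fun e => zA (e ▸ zW)) (mem_cl_insert _ _) u.2,
          ln_sub hW.1 wW (ln_sub hW.1 zW (mem_cl_insert _ _) (he1 u)) (he2 _)⟩
      intro u
      obtain ⟨u1, u2, u3⟩ := tr u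
      obtain ⟨x1, x2, x3⟩ := tr x
      rw [txy] at x3
      refine ⟨_, u2, inter_subset_right, mem_inter.2 ⟨mem_cl_insert _ _, u.2⟩,
        mem_inter.2 ⟨u3, (e2 _).2⟩, h.par_trans hA hM MA u2 inter_subset_right hL LA ?_ ML⟩
      rw [h.line_eq hM x2 xy' xM yM (mem_inter.2 ⟨mem_cl_insert _ _, x.2⟩) (mem_inter.2 ⟨x3, y.2⟩)]
      by_cases e : ∀ a ∈ R.cl (insert u.1 (R.cl {z, w})) ∩ A,
          a ∉ R.cl (insert x.1 (R.cl {z, w})) ∩ A
      · exact Or.inr e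
      · push Not at e
        obtain ⟨a, a1, a2⟩ := e
        left
        rw [plane_eq hn u1 x1 (subset_cl_insert _ _) (subset_cl_insert _ _)
          (fun e => AC a (mem_inter.1 a1).2 (nC e)) (mem_inter.1 a1).1 (mem_inter.1 a2).1]

end Aff

theorem primePow_of_sizes {R : RkFn α} {q : ℕ} (hq : 2 ≤ q) (f0 : R.Flat ∅)
    (sz : ∀ (i : ℕ) (F : Finset α), R.Flat F → R.rk F = i + 1 → F.card = q ^ i)
    (h4 : 4 ≤ R.rk univ) : IsPrimePow q := by
  by_cases h2 : q = 2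
  · rw [h2]; exact Nat.prime_two.isPrimePow
  obtain ⟨S, h1, -, -, h3⟩ := f0.exists_rk flat_univ (empty_subset _) 4
    (by rw [R.rk_empty]; omega) h4
  exact Aff.primePow ⟨by omega, f0, sz, h1, h3⟩

end Pool.Agent.MP_337c4e_co

end

section
set_option linter.unusedSectionVars false
set_option linter.unusedVariables false

namespace Pool.Agent.MP_337c4e_co

open Finset RkFn

variable {α : Type} [Fintype α] [DecidableEq α]

namespace IsDes

variable {R : RkFn α} {b v r k lam : ℕ}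

lemma lam_le (h : IsDes R b v r k lam) (hb : v < b) (hl : 1 ≤ lam) :
    (lam : ℝ) ≤ (b : ℝ) / (v - 1) * ((k : ℝ) ^ 2 / v) := by
  obtain ⟨f1, f2, f3, f4, f5, f6⟩ := h.real_facts hb hl
  rw [div_mul_div_comm, le_div_iff₀ (by nlinarith)]
  have : (lam : ℝ) * ((v - 1) * v) = b * k * (k - 1) := by
    linear_combination (-(k : ℝ) + 1) * f3 - v * f4
  rw [this]
  nlinarith

lemma x_le_deg (h : IsDes R b v r k lam) (hb : v < b) (hl : 1 ≤ lam) {C : Finset α}
    (hC : R.Flat C) (hr : R.rk C + 2 = R.rk univ) : (v : ℝ) / k ≤ R.deg C := by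
  obtain ⟨f1, f2, -⟩ := h.real_facts hb hl
  obtain ⟨g1, g2, g3⟩ := h.coline_real hb hC hr
  rw [div_le_iff₀ (by linarith)]
  have : (0 : ℝ) ≤ C.card := Nat.cast_nonneg _
  nlinarith

lemma xsq_le_deg (h : IsDes R b v r k lam) (hb : v < b) (hl : 1 ≤ lam) {F : Finset α}
    (hF : R.Flat F) (hr : R.rk F + 3 = R.rk univ) : ((v : ℝ) / k) ^ 2 ≤ R.deg F := by
  obtain ⟨f1, f2, -⟩ := h.real_facts hb hl
  have h1 := h.double F
  have h2 := h.flat_card_lt hF (by omega)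
  have h3 := h.k_lt hb
  have e : ((∑ x ∈ univ \ F, R.deg (insert x F) : ℕ) : ℝ) = ((R.deg F * (k - F.card) : ℕ) : ℝ) := by
    rw [h1]
  push_cast [Nat.cast_sub h2.le] at e
  have h4 := card_nsmul_le_sum (univ \ F) (fun x => (R.deg (insert x F) : ℝ)) ((v : ℝ) / k) (by
    intro x hx
    rw [← deg_cl]
    exact h.x_le_deg hb hl (cl_flat _) (by rw [hF.rk_cl_insert (mem_sdiff.1 hx).2]; omega))
  rw [e, card_sdiff_of_subset (subset_univ _), card_univ, h.hv, nsmul_eq_mul,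
    Nat.cast_sub (by omega)] at h4
  have h5 : (F.card : ℝ) < k := by exact_mod_cast h2
  have h6 : (0 : ℝ) ≤ F.card := Nat.cast_nonneg _
  have hx1 : (1 : ℝ) ≤ (v : ℝ) / k := by rw [le_div_iff₀ (by linarith)]; linarith
  have hv : (v : ℝ) = v / k * k := by field_simp
  generalize (v : ℝ) / k = x at *
  apply le_of_mul_le_mul_right _ (sub_pos.2 h5)
  refine le_trans ?_ h4
  rw [hv]
  nlinarith [mul_nonneg (mul_nonneg h6 (sub_nonneg.2 hx1)) (by linarith : 0 ≤ x)]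

lemma var_le (h : IsDes R b v r k lam) (hb : v < b) (hl : 1 ≤ lam) (Y : Finset α) :
    ∑ H ∈ R.hyp, (((Y ∩ H).card : ℝ) - Y.card / ((v : ℝ) / k)) ^ 2 ≤ Y.card * r := by
  obtain ⟨f1, f2, f3, f4, f5, f6⟩ := h.real_facts hb hl
  have s1 : ∑ H ∈ R.hyp, ((Y ∩ H).card : ℝ) = Y.card * r := by exact_mod_cast h.sum_inter Y
  have s2 : ∑ H ∈ R.hyp, ((Y ∩ H).card : ℝ) ^ 2 = Y.card * (r + (Y.card - 1) * lam) := by
    rcases Nat.eq_zero_or_pos Y.card with e | e
    · simp [card_eq_zero.1 e]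
    have e1 : ((∑ H ∈ R.hyp, (Y ∩ H).card ^ 2 : ℕ) : ℝ) =
      ((Y.card * (r + (Y.card - 1) * lam) : ℕ) : ℝ) := by rw [h.sum_inter_sq Y]
    push_cast [Nat.cast_sub (show 1 ≤ Y.card from e)] at e1
    exact e1
  have s0 : ∑ H ∈ R.hyp, (1 : ℝ) = b := by simp [h.hb]
  have hv0 : (0 : ℝ) < v := by linarith
  have hy : (0 : ℝ) ≤ Y.card := Nat.cast_nonneg _
  have hl0 : (0 : ℝ) ≤ lam := Nat.cast_nonneg _
  have e0 : (Y.card : ℝ) / ((v : ℝ) / k) = Y.card * (k / v) := by field_simp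
  rw [e0, sum_congr rfl (g := fun H => ((Y ∩ H).card : ℝ) ^ 2 -
    2 * (Y.card * (k / v)) * ((Y ∩ H).card : ℝ) + (Y.card * (k / v)) ^ 2 * 1) (fun H _ => by ring),
    sum_add_distrib, sum_sub_distrib, ← mul_sum, ← mul_sum, s0, s1, s2]
  have e1 : (b : ℝ) * (k / v) = r := by field_simp; linarith
  have e2 : (lam : ℝ) ≤ r * (k / v) := by
    rw [← mul_div_assoc, le_div_iff₀ hv0]
    apply le_of_mul_le_mul_right _ (show (0 : ℝ) < v - 1 by linarith)
    nlinarith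
  generalize (k : ℝ) / v = t at *
  have e3 : ((Y.card : ℝ) * t) ^ 2 * b = Y.card ^ 2 * (r * t) := by rw [← e1]; ring
  rw [e3]
  nlinarith [mul_le_mul_of_nonneg_left e2 (sq_nonneg (Y.card : ℝ)), mul_nonneg hy hl0]

lemma cheb (h : IsDes R b v r k lam) (hb : v < b) (hl : 1 ≤ lam) (Y : Finset α)
    (S : Finset (Finset α)) (hS : S ⊆ R.hyp) (t : ℝ) (ht : 0 ≤ t)
    (h1 : ∀ H ∈ S, t ≤ |((Y ∩ H).card : ℝ) - Y.card / ((v : ℝ) / k)|) :
    S.card * t ^ 2 ≤ Y.card * r := by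
  refine le_trans ?_ ((sum_le_sum_of_subset_of_nonneg hS (fun _ _ _ => sq_nonneg _)).trans
    (h.var_le hb hl Y))
  rw [← nsmul_eq_mul]
  apply card_nsmul_le_sum
  intro H hH
  rw [← sq_abs (_ - _)]
  exact pow_le_pow_left₀ ht (h1 H hH) 2

lemma cover_sum {G T : Finset α} (hG : R.Flat G) (hT : R.Flat T) (hTG : T ⊆ G)
    (hr : R.rk T + 2 ≤ R.rk G) : G.card ≤ ∑ F ∈ (R.sub G).filter (fun F => T ⊆ F), F.card := by
  refine le_trans (card_le_card ?_) card_biUnion_le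
  intro p hp
  have h1 := R.rk_insert_le p T
  obtain ⟨F, hF, h2, h3, h4⟩ := (cl_flat (insert p T)).exists_rk hG
    (hG.cl_subset (insert_subset hp hTG)) (R.rk G - 1) (by rw [rk_cl]; omega) (by omega)
  exact mem_biUnion.2 ⟨F, mem_filter.2 ⟨mem_subf.2 ⟨hF, h3, by omega⟩,
    (subset_cl_insert _ _).trans h2⟩, h2 (mem_cl_insert _ _)⟩

lemma heavy_arith (b r x m B q g D N W s0 s1 s2 s3 : ℝ) (hx : 690 ≤ x) (hq1 : q ≤ x + 1 / 10)
    (hq2 : x - 1 / 10 ≤ q) (hB : 1 ≤ B) (hm1 : 300 * x ≤ m) (hm2 : 90000 * B ≤ m) (hg : m ≤ g)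
    (hr : r * x = b) (hb : b = B * (x ^ 2 * m - 1)) (hD0 : 0 ≤ D) (hD : D ≤ 101 / 100 * x)
    (hN0 : 0 ≤ N) (hN : N ≤ 120 * q * B) (h0 : s0 ≤ D) (h1 : s1 * (g / x / 4) ^ 2 ≤ g * r)
    (h2 : s2 ≤ N * D ^ 2) (h3 : g * s3 ≤ 16 * r * x ^ 2 / (g * m) * W)
    (hW : W ≤ 2 * N * (g / x) ^ 2 + 10 * g * r / q ^ 2) (hs : b ≤ s0 + s1 + s2 + s3) : False := by
  have hx0 : 0 < x := by linarith
  have hm0 : 0 < m := by linarith
  have hg0 : 0 < g := by linarith
  have hq0 : 0 < q := by linarith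
  have hxm : 300 * x ^ 3 ≤ x ^ 2 * m := by
    linarith [mul_le_mul_of_nonneg_left hm1 (sq_nonneg x)]
  have hx3 : 690 * x ≤ x ^ 3 := by
    linarith [mul_nonneg (mul_pos hx0 hx0).le (show 0 ≤ x - 1 by linarith),
      mul_le_mul_of_nonneg_left hx hx0.le]
  have hB0 : 0 < B := by linarith
  have hx4 : x ^ 3 ≤ B * x ^ 3 := le_mul_of_one_le_left (by positivity) hB
  have hb1 : 299 * (B * x ^ 3) ≤ b := by
    linarith [mul_le_mul_of_nonneg_left (show 299 * x ^ 3 ≤ x ^ 2 * m - 1 by linarith) hB0.le]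
  have hb0 : 0 < b := by linarith
  have hb2 : b ≤ B * (x ^ 2 * m) := by linarith
  have hr0 : 0 < r := (mul_pos_iff_of_pos_right hx0).1 (hr ▸ hb0)
  have hN1 : N ≤ 121 * (x * B) := by
    linarith [mul_le_mul_of_nonneg_right (show 120 * q ≤ 121 * x by linarith) hB0.le]
  have a0 : s0 ≤ b / 100 := by linarith
  have a1 : s1 ≤ b / 10 := by
    have e : s1 * (g / x / 4) ^ 2 = s1 * g ^ 2 / (16 * x ^ 2) := by field_simp; ring
    rw [e, div_le_iff₀ (by positivity)] at h1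
    have e2 : s1 * g ≤ 16 * b * x := by
      apply le_of_mul_le_mul_right _ hg0
      rw [← hr]; linarith
    apply le_of_mul_le_mul_right _ hg0
    linarith [mul_le_mul_of_nonneg_left (hm1.trans hg) hb0.le, mul_pos hb0 hx0]
  have a2 : s2 ≤ b / 2 := by
    have e : D ^ 2 ≤ (101 / 100 * x) ^ 2 := pow_le_pow_left₀ hD0 hD 2
    have e2 : N * D ^ 2 ≤ 121 * (x * B) * (101 / 100 * x) ^ 2 :=
      mul_le_mul hN1 e (by positivity) (by positivity)
    linarith
  have a3 : s3 ≤ b / 10 := by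
    have e1 : 10 * g * r / q ^ 2 ≤ 11 * B / x * g ^ 2 := by
      rw [div_mul_eq_mul_div, div_le_div_iff₀ (by positivity) hx0]
      have e2 : 10 * x ^ 2 ≤ 11 * q ^ 2 := by
        linarith [pow_le_pow_left₀ (by positivity) (show 99 / 100 * x ≤ q by linarith) 2,
          sq_nonneg x]
      have e3 : b ≤ B * (x ^ 2 * g) := hb2.trans (by gcongr)
      calc 10 * g * r * x = 10 * g * b := by rw [← hr]; ring
        _ ≤ 10 * g * (B * (x ^ 2 * g)) := by gcongr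
        _ = B * g ^ 2 * (10 * x ^ 2) := by ring
        _ ≤ B * g ^ 2 * (11 * q ^ 2) := by gcongr
        _ = _ := by ring
    have e2 : 2 * N * (g / x) ^ 2 ≤ 242 * B / x * g ^ 2 := by
      calc 2 * N * (g / x) ^ 2 ≤ 2 * (121 * (x * B)) * (g / x) ^ 2 := by gcongr
        _ = _ := by field_simp; ring
    have e3 : W ≤ 253 * B / x * g ^ 2 := by
      have : 253 * B / x * g ^ 2 = 242 * B / x * g ^ 2 + 11 * B / x * g ^ 2 := by ring
      linarith
    have e4 : 16 * r * x ^ 2 / (g * m) * W ≤ g * (4048 * b * B / m) := by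
      calc 16 * r * x ^ 2 / (g * m) * W ≤ 16 * r * x ^ 2 / (g * m) * (253 * B / x * g ^ 2) := by
            gcongr
        _ = _ := by rw [← hr]; field_simp; ring
    have e5 := le_of_mul_le_mul_left (h3.trans e4) hg0
    refine e5.trans ?_
    rw [div_le_iff₀ hm0]
    linarith [mul_le_mul_of_nonneg_left hm2 hb0.le, mul_pos hb0 hB0]
  linarith

lemma key1 {n r x g m f : ℝ} (hx : 0 < x) (hm : 0 < m) (hg : m ≤ g) (hr : 0 ≤ r) (hf : 0 ≤ f)
    (h : n * (g / x / 4) ^ 2 ≤ f * r) : n ≤ 16 * r * x ^ 2 / (g * m) * f := by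
  have hg0 : 0 < g := by linarith
  have e4 : n ≤ 16 * r * x ^ 2 / (g * g) * f := by
    rw [← le_div_iff₀ (by positivity)] at h
    refine h.trans (le_of_eq ?_)
    field_simp; ring
  refine e4.trans ?_
  gcongr

lemma key2 {n r x g m f w : ℝ} (hx : 0 < x) (hm : 0 < m) (hg : m ≤ g) (hr : 0 ≤ r)
    (hf : g / 2 ≤ f) (hw : m / 2 ≤ w) (h : n * (w / x) ^ 2 ≤ w * r) :
    n ≤ 16 * r * x ^ 2 / (g * m) * f := by
  have hg0 : 0 < g := by linarith
  have hw0 : 0 < w := by linarith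
  have e4 : n ≤ r * x ^ 2 / w := by
    rw [← le_div_iff₀ (by positivity)] at h
    refine h.trans (le_of_eq ?_)
    field_simp
  calc n ≤ r * x ^ 2 / (m / 2) := e4.trans (by gcongr)
    _ = 4 * r * x ^ 2 / (g * m) * (g / 2) := by field_simp; ring
    _ ≤ _ := by gcongr; linarith

/-- there are no heavy colines when there are few hyperplanes -/
theorem no_heavy' (h : IsDes R b v r k lam) (hb : v < b) (hl : 2 ≤ lam) {q : ℕ} (hq : 2 ≤ q)
    (hx : |(q : ℝ) - (v : ℝ) / k| ≤ 1 / 10)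
    (h0 : 90000 * ((b : ℝ) / (v - 1)) ≤ (k : ℝ) ^ 2 / v)
    (h5 : ((v : ℝ) / k) ^ 2 ≤ (b : ℝ) / (v - 1) * ((k : ℝ) ^ 2 / v))
    (G0 : Finset α) (hG0 : R.Flat G0) (hr0 : R.rk G0 + 2 = R.rk univ) : R.deg G0 ≤ q + 1 := by
  by_cases h1 : 130 * ((b : ℝ) / (v - 1)) * ((v : ℝ) / k) ≤ (k : ℝ) ^ 2 / v
  · exact h.no_heavy hb hl hq hx h1 G0 hG0 hr0
  have hl1 : 1 ≤ lam := by omega
  by_contra hQ0
  obtain ⟨G, hGm, hmax⟩ := exists_max_image
    (univ.filter (fun C => R.Flat C ∧ R.rk C + 2 = R.rk univ)) R.deg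
    ⟨G0, mem_filter.2 ⟨mem_univ _, hG0, hr0⟩⟩
  obtain ⟨hG, hr⟩ := (mem_filter.1 hGm).2
  have hm : ∀ C, R.Flat C → R.rk C + 2 = R.rk univ → R.deg C ≤ R.deg G := fun C h1 h2 =>
    hmax C (mem_filter.2 ⟨mem_univ _, h1, h2⟩)
  have hQ : q + 2 ≤ R.deg G := by have := hm G0 hG0 hr0; omega
  obtain ⟨f1, f2, f3, f4, f5, f6⟩ := h.real_facts hb hl1
  have hn := h.four_le_rank hb hl
  have c1 : (G.card : ℝ) ≤ (R.sub G).card := by
    exact_mod_cast card_le_sub (h.flat_empty hb) (h.flat_single hb hl1) (R.rk univ - 4) G hG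
      (by omega)
  have hN := h.sub_card_le hb hl1 hq hx hG hr hQ
  have hg := h.heavy_size hb hl1 hq hx hG hr hQ
  obtain ⟨g1, g2, g3⟩ := h.coline_real hb hG hr
  have hsz : ∀ C, R.Flat C → R.rk C + 2 = R.rk univ → C.card ≤ G.card := by
    intro C h1 h2
    obtain ⟨u1, u2, u3⟩ := h.coline_real hb h1 h2
    have u4 : (R.deg C : ℝ) ≤ R.deg G := by exact_mod_cast hm C h1 h2
    have : (C.card : ℝ) ≤ G.card := by
      apply le_of_mul_le_mul_left _ (show (0 : ℝ) < R.deg G - 1 by linarith)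
      linarith [mul_le_mul_of_nonneg_right u4 (sub_pos.2 u3).le]
    exact_mod_cast this
  have hml := fun F (hF : F ∈ R.sub G) => h.many_lines hb hl1 hq
    (by rw [abs_le] at hx; linarith) (mem_subf.1 hF).1 (by have := (mem_subf.1 hF).2.2; omega)
    (mem_cov.2 ⟨hG, (mem_subf.1 hF).2.1, subset_univ _, (mem_subf.1 hF).2.2.symm⟩)
    (mem_cov.2 ⟨hG, (mem_subf.1 hF).2.1, subset_univ _, (mem_subf.1 hF).2.2.symm⟩)
  have hch := h.cheb hb hl1
  have hvar := h.var_le hb hl1 G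
  have hB : (1 : ℝ) ≤ (b : ℝ) / (v - 1) := by rw [le_div_iff₀ (by linarith)]; linarith
  have hk : (k : ℝ) = (v : ℝ) / k * ((k : ℝ) ^ 2 / v) := by
    have : (v : ℝ) ≠ 0 := by linarith
    field_simp
  have hv : (v : ℝ) = (v : ℝ) / k * k := by field_simp
  have hrx : (r : ℝ) * ((v : ℝ) / k) = b := by field_simp; linarith
  have hbB : (b : ℝ) = (b : ℝ) / (v - 1) * (v - 1) := by
    have : (v : ℝ) - 1 ≠ 0 := by linarith
    field_simp
  rw [abs_le] at hx
  generalize (v : ℝ) / k = x at *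
  generalize (k : ℝ) ^ 2 / v = m at *
  generalize (b : ℝ) / (v - 1) = B at *
  have x1 : 690 ≤ x := by
    apply le_of_mul_le_mul_left _ (show (0 : ℝ) < 130 * B by linarith)
    linarith
  have hx0 : 0 < x := by linarith
  have hm0 : 0 < m := by linarith
  have m1 : 300 * x ≤ m := by
    apply le_of_sq_le_sq _ hm0.le
    linarith [mul_le_mul_of_nonneg_right h0 hm0.le]
  have hg0 : (0 : ℝ) < G.card := by linarith
  have hq0 : (0 : ℝ) < q := by linarith
  have hr0' : (0 : ℝ) ≤ r := Nat.cast_nonneg _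
  have g4 : (G.card : ℝ) ≤ k / 700 := by
    have : 120 * (q : ℝ) * B ≤ 120 * (x + 1 / 10) * (m / 90000) := by gcongr <;> linarith
    linarith [mul_le_mul_of_nonneg_right x1 hm0.le]
  have hD : (R.deg G : ℝ) ≤ 101 / 100 * x := by
    have e : ((R.deg G : ℝ) - 1) * (699 / 700 * k) ≤ (x - 1) * k := by
      linarith [mul_le_mul_of_nonneg_left g4 (show (0 : ℝ) ≤ R.deg G - 1 by linarith)]
    have e2 : ((R.deg G : ℝ) - 1) * (699 / 700) ≤ x - 1 :=
      le_of_mul_le_mul_right (by linarith) (show (0 : ℝ) < k by linarith)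
    linarith
  have hD0 : (0 : ℝ) < R.deg G := by linarith
  -- degrees of the flats below `G`
  have hdF : ∀ F ∈ R.sub G, (R.deg F : ℝ) ≤ (R.deg G : ℝ) ^ 2 := by
    intro F hF
    have mF := mem_subf.1 hF
    have e1 := h.double F
    have e2 := sum_le_card_nsmul (univ \ F) (fun p => R.deg (insert p F)) (R.deg G) (by
      intro p hp
      rw [← deg_cl]
      exact hm _ (cl_flat _) (by rw [mF.1.rk_cl_insert (mem_sdiff.1 hp).2]; omega))
    have e3 := h.flat_card_lt mF.1 (by omega)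
    have e4 := h.k_lt hb
    rw [e1, card_sdiff_of_subset (subset_univ _), card_univ, h.hv, smul_eq_mul] at e2
    have e5 : ((R.deg F * (k - F.card) : ℕ) : ℝ) ≤ (((v - F.card) * R.deg G : ℕ) : ℝ) := by
      exact_mod_cast e2
    push_cast [Nat.cast_sub e3.le, Nat.cast_sub (show F.card ≤ v by omega)] at e5
    have e6 : (F.card : ℝ) ≤ G.card := by exact_mod_cast card_le_card mF.2.1
    apply le_of_mul_le_mul_right _ (show (0 : ℝ) < k - F.card by linarith)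
    refine e5.trans ?_
    have e7 : (v : ℝ) - F.card ≤ R.deg G * (k - F.card) := by
      linarith [mul_le_mul_of_nonneg_left e6 (show (0 : ℝ) ≤ R.deg G - 1 by linarith)]
    linarith [mul_le_mul_of_nonneg_right e7 hD0.le]
  -- the flats below `G` miss many points of `G`
  have hgap : ∀ F ∈ R.sub G, m / 2 ≤ ((G \ F).card : ℝ) := by
    intro F hF
    have mF := mem_subf.1 hF
    obtain ⟨H, hH, hGH, -, rH⟩ := hG.exists_rk flat_univ (subset_univ _) (R.rk univ - 1)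
      (by omega) (by omega)
    have e1 := sum_cov_card mF.1 hH (mF.2.1.trans hGH)
    have e2 := cov_card_le hm 1 F H mF.1 hH (mF.2.1.trans hGH) (by omega) (by omega)
    have e3 := sum_le_card_nsmul (R.cov F H) (fun C => (C \ F).card) (G \ F).card (by
      intro C hC
      have mC := mem_cov.1 hC
      rw [card_sdiff_of_subset mC.2.1, card_sdiff_of_subset mF.2.1]
      exact Nat.sub_le_sub_right (hsz C mC.1 (by omega)) _)
    rw [e1, smul_eq_mul, card_sdiff_of_subset (mF.2.1.trans hGH),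
      h.hk H (mem_hyp.2 ⟨hH, by omega⟩)] at e3
    have e4 := h.flat_card_lt mF.1 (by omega)
    have e5 : ((k - F.card : ℕ) : ℝ) ≤ ((R.deg G * (G \ F).card : ℕ) : ℝ) := by
      exact_mod_cast e3.trans (Nat.mul_le_mul_right _ e2)
    push_cast [Nat.cast_sub e4.le] at e5
    have e6 : (F.card : ℝ) ≤ G.card := by exact_mod_cast card_le_card mF.2.1
    have e7 : (0 : ℝ) ≤ (G \ F).card := Nat.cast_nonneg _
    have e8 : (R.deg G : ℝ) * (G \ F).card ≤ 101 / 100 * x * (G \ F).card :=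
      mul_le_mul_of_nonneg_right hD e7
    apply le_of_mul_le_mul_left _ hx0
    linarith [mul_nonneg hx0.le e7]
  have hW : ∑ F ∈ R.sub G, (F.card : ℝ) ^ 2 ≤
      2 * (R.sub G).card * (G.card / x) ^ 2 + 10 * G.card * r / (q : ℝ) ^ 2 := by
    have c3 := sum_fiberwise_le_sum_of_sum_fiber_nonneg (s := R.hyp) (t := R.sub G)
      (g := fun H' => G ∩ H') (f := fun H' => (((G ∩ H').card : ℝ) - G.card / x) ^ 2)
      (fun y _ => sum_nonneg (fun _ _ => sq_nonneg _))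
    have c4 : ∑ F ∈ R.sub G, (q : ℝ) ^ 2 / 5 * ((F.card : ℝ) - G.card / x) ^ 2 ≤
        (G.card : ℝ) * (r : ℝ) := by
      refine le_trans (sum_le_sum ?_) (c3.trans hvar)
      intro F hF
      rw [sum_congr rfl (g := fun _ => ((F.card : ℝ) - G.card / x) ^ 2)
        (fun H hH => by rw [(mem_filter.1 hH).2]), sum_const, nsmul_eq_mul]
      apply mul_le_mul_of_nonneg_right _ (sq_nonneg _)
      exact (hml F hF).trans (by exact_mod_cast card_filter_le _ _)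
    rw [← mul_sum] at c4
    have c5 : ∑ F ∈ R.sub G, ((F.card : ℝ) - G.card / x) ^ 2 ≤ 5 * G.card * r / (q : ℝ) ^ 2 := by
      rw [le_div_iff₀ (pow_pos hq0 2)]; linarith
    have c6 : ∑ F ∈ R.sub G, (F.card : ℝ) ^ 2 ≤
        ∑ F ∈ R.sub G, (2 * ((G.card : ℝ) / x) ^ 2 + 2 * ((F.card : ℝ) - G.card / x) ^ 2) :=
      sum_le_sum fun F _ => by linarith [sq_nonneg ((F.card : ℝ) - 2 * (G.card / x))]
    rw [sum_add_distrib, sum_const, nsmul_eq_mul, ← mul_sum] at c6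
    have : 10 * G.card * r / (q : ℝ) ^ 2 = 2 * (5 * G.card * r / (q : ℝ) ^ 2) := by ring
    linarith
  set S1 := R.hyp.filter (fun H => ((G ∩ H).card : ℝ) < 3 / 4 * (G.card / x)) with hS1
  set S2 := R.hyp.filter (fun H => G ∩ H ∈ R.sub G) with hS2
  set S3 := R.hyp.filter (fun H => 3 / 4 * (G.card / x) ≤ ((G ∩ H).card : ℝ) ∧
    R.rk (G ∩ H) + 2 ≤ R.rk G) with hS3
  have hτ : 0 ≤ (G.card : ℝ) / x / 4 := div_nonneg (div_pos hg0 hx0).le (by norm_num)
  have s1 := hch G S1 (filter_subset _ _) (G.card / x / 4) hτ (fun H hH => by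
    have := (mem_filter.1 hH).2
    rw [abs_sub_comm]
    exact le_trans (by linarith) (le_abs_self _))
  have s2 : (S2.card : ℝ) ≤ (R.sub G).card * (R.deg G : ℝ) ^ 2 := by
    rw [card_eq_sum_card_fiberwise (s := S2) (f := fun H => G ∩ H) (t := R.sub G)
      (fun H hH => mem_coe.2 (mem_filter.1 (mem_coe.1 hH)).2), Nat.cast_sum, ← nsmul_eq_mul]
    apply sum_le_card_nsmul
    intro F hF
    refine le_trans ?_ (hdF F hF)
    have : (S2.filter (fun H => G ∩ H = F)).card ≤ R.deg F := card_le_card (fun H hH => by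
      rw [mem_filter] at hH ⊢
      exact ⟨(mem_filter.1 hH.1).1, hH.2 ▸ inter_subset_right⟩)
    exact_mod_cast this
  have s3 : (G.card : ℝ) * S3.card ≤
      16 * r * x ^ 2 / (G.card * m) * ∑ F ∈ R.sub G, (F.card : ℝ) ^ 2 := by
    have e1 := card_nsmul_le_sum S3 (fun H => ∑ F ∈ (R.sub G).filter (fun F => G ∩ H ⊆ F), F.card)
      G.card (fun H hH => cover_sum hG (hG.inter (mem_hyp.1 (mem_filter.1 hH).1).1)
        inter_subset_left (mem_filter.1 hH).2.2)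
    rw [sum_comm' (t' := R.sub G) (s' := fun F => S3.filter (fun H => G ∩ H ⊆ F))
      (fun H F => by simp only [mem_filter]; tauto), smul_eq_mul] at e1
    have e2 : ((S3.card * G.card : ℕ) : ℝ) ≤
      ((∑ F ∈ R.sub G, ∑ H ∈ S3.filter (fun H => G ∩ H ⊆ F), F.card : ℕ) : ℝ) := by
      exact_mod_cast e1
    push_cast at e2
    rw [mul_comm, mul_sum]
    refine e2.trans (sum_le_sum fun F hF => ?_)
    rw [sum_const, nsmul_eq_mul]
    have mF := mem_subf.1 hF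
    have hsub : S3.filter (fun H => G ∩ H ⊆ F) ⊆ R.hyp :=
      (filter_subset _ _).trans (filter_subset _ _)
    have hf0 : (0 : ℝ) ≤ F.card := Nat.cast_nonneg _
    have key : ((S3.filter (fun H => G ∩ H ⊆ F)).card : ℝ) ≤
        16 * r * x ^ 2 / (G.card * m) * F.card := by
      by_cases hf : (F.card : ℝ) ≤ G.card / 2
      · have e3 := hch F _ hsub (G.card / x / 4) hτ (fun H hH => by
          rw [mem_filter, mem_filter] at hH
          have e4 : ((G ∩ H).card : ℝ) ≤ (F ∩ H).card := by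
            exact_mod_cast card_le_card (subset_inter hH.2 inter_subset_right)
          have e5 : (F.card : ℝ) / x ≤ G.card / x / 2 := by
            rw [div_right_comm]; exact div_le_div_of_nonneg_right hf hx0.le
          exact le_trans (by linarith [hH.1.2.1]) (le_abs_self _))
        exact key1 hx0 hm0 hg hr0' hf0 e3
      · have e2 := hgap F hF
        have e3 := hch (G \ F) _ hsub ((G \ F).card / x) (div_nonneg (Nat.cast_nonneg _) hx0.le) (fun H hH => by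
          rw [mem_filter] at hH
          rw [card_eq_zero.2 (eq_empty_of_forall_notMem (s := (G \ F) ∩ H) (fun p hp => by
            rw [mem_inter, mem_sdiff] at hp
            exact hp.1.2 (hH.2 (mem_inter.2 ⟨hp.1.1, hp.2⟩)))), abs_sub_comm]
          exact le_trans (by simp) (le_abs_self _))
        exact key2 hx0 hm0 hg hr0' (not_le.1 hf).le e2 e3
    rw [sq (F.card : ℝ), ← mul_assoc]
    exact mul_le_mul_of_nonneg_right key hf0
  have hs : (b : ℝ) ≤ R.deg G + S1.card + S2.card + S3.card := by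
    have : R.hyp ⊆ R.hyp.filter (fun H => G ⊆ H) ∪ S1 ∪ S2 ∪ S3 := by
      intro H hH
      simp only [mem_union, hS1, hS2, hS3, mem_filter, hH, true_and, mem_subf]
      by_cases c1 : G ⊆ H
      · exact Or.inl (Or.inl (Or.inl c1))
      have c2 := rk_inter_lt hG (mem_hyp.1 hH).1 c1
      by_cases c3 : R.rk (G ∩ H) + 1 = R.rk G
      · exact Or.inl (Or.inr ⟨hG.inter (mem_hyp.1 hH).1, inter_subset_left, c3⟩)
      rcases lt_or_ge ((G ∩ H).card : ℝ) (3 / 4 * (G.card / x)) with c4 | c4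
      · exact Or.inl (Or.inl (Or.inr c4))
      · exact Or.inr ⟨c4, by omega⟩
    have e := (card_le_card this).trans ((card_union_le _ _).trans (Nat.add_le_add_right
      ((card_union_le _ _).trans (Nat.add_le_add_right (card_union_le _ _) _)) _))
    rw [h.hb] at e
    exact_mod_cast e
  exact heavy_arith b r x m B q G.card (R.deg G) (R.sub G).card _ _ _ _ _ x1 (by linarith)
    (by linarith) hB m1 h0 hg hrx (by rw [hbB, hv, hk]; ring) hD0.le hD (Nat.cast_nonneg _) hN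
    le_rfl s1 s2 s3 hW hs

/-- the density conditions -/
lemma conds (h : IsDes R b v r k lam) (hb : v < b) (hl : 2 ≤ lam)
    (hc : 10 ^ 5 * b ≤ k ^ 2 ∨ (100 * b) ^ 5 ≤ v ^ 6) :
    120 * ((b : ℝ) / (v - 1)) ≤ (k : ℝ) ^ 2 / v ∧ (R.rk univ = 4 ∨
      (90000 * ((b : ℝ) / (v - 1)) ≤ (k : ℝ) ^ 2 / v ∧
        ((v : ℝ) / k) ^ 2 ≤ (b : ℝ) / (v - 1) * ((k : ℝ) ^ 2 / v))) := by
  have hl1 : 1 ≤ lam := by omega
  obtain ⟨f1, f2, f3, f4, f5, f6⟩ := h.real_facts hb hl1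
  have hx1 : (1 : ℝ) ≤ (v : ℝ) / k := by rw [le_div_iff₀ (by linarith)]; linarith
  have hB1 : (1 : ℝ) ≤ (b : ℝ) / (v - 1) := by rw [le_div_iff₀ (by linarith)]; linarith
  have h4 := h.lam_le hb hl1
  have hn := h.four_le_rank hb hl
  obtain ⟨L, hL, -, -, rL⟩ := (h.flat_empty hb).exists_rk flat_univ (empty_subset _) 2
    (by rw [R.rk_empty]; omega) (by omega)
  have dL : (R.deg L : ℝ) = lam := by exact_mod_cast (h.line_deg hb hl1 hL rL).1
  have hm : 0 ≤ (k : ℝ) ^ 2 / v := by positivity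
  have h6 : R.rk univ ≠ 4 → ((v : ℝ) / k) ^ 2 ≤ (b : ℝ) / (v - 1) * ((k : ℝ) ^ 2 / v) := by
    intro h5
    obtain ⟨F, hF, hLF, -, rF⟩ := hL.exists_rk flat_univ (subset_univ _) (R.rk univ - 3)
      (by omega) (by omega)
    have h6 := h.xsq_le_deg hb hl1 hF (by omega)
    have h8 : (R.deg F : ℝ) ≤ R.deg L := by exact_mod_cast deg_anti hLF
    linarith
  suffices hs : (R.rk univ = 4 → 120 * ((b : ℝ) / (v - 1)) ≤ (k : ℝ) ^ 2 / v) ∧
      (R.rk univ ≠ 4 → 90000 * ((b : ℝ) / (v - 1)) ≤ (k : ℝ) ^ 2 / v) by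
    by_cases h5 : R.rk univ = 4
    · exact ⟨hs.1 h5, Or.inl h5⟩
    · exact ⟨by linarith [hs.2 h5], Or.inr ⟨hs.2 h5, h6 h5⟩⟩
  rcases hc with hc | hc
  · have hc' : 10 ^ 5 * (b : ℝ) ≤ (k : ℝ) ^ 2 := by exact_mod_cast hc
    have h2 : (10 : ℝ) ≤ v := by
      by_contra h3
      nlinarith
    have h3 : 90000 * ((b : ℝ) / (v - 1)) ≤ (k : ℝ) ^ 2 / v := by
      rw [← mul_div_assoc, div_le_div_iff₀ (by linarith) (by linarith)]
      have h4 : 10 ^ 5 * (b : ℝ) * (v - 1) ≤ (k : ℝ) ^ 2 * (v - 1) :=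
        mul_le_mul_of_nonneg_right hc' (by linarith)
      have h5 : 0 ≤ (b : ℝ) * (v - 10) := mul_nonneg (by linarith) (by linarith)
      nlinarith
    exact ⟨fun _ => by linarith, fun _ => h3⟩
  · have hc' : (100 * (b : ℝ)) ^ 5 ≤ (v : ℝ) ^ 6 := by exact_mod_cast hc
    have h1 : (v : ℝ) ^ 5 ≤ (b : ℝ) ^ 5 := pow_le_pow_left₀ (by linarith) f5.le 5
    have h7 : (0 : ℝ) < (v : ℝ) ^ 5 := pow_pos (by linarith) 5
    have h2 : (100 : ℝ) ≤ v := by
      by_contra h3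
      have : (v : ℝ) ^ 6 ≤ v ^ 5 * 100 := by nlinarith
      nlinarith
    have h3 : 90000 ^ 2 * ((b : ℝ) / (v - 1)) ^ 5 ≤ v := by
      rw [div_pow, ← mul_div_assoc, div_le_iff₀ (pow_pos (by linarith) 5)]
      have h4 : (99 / 100 * (v : ℝ)) ^ 5 ≤ (v - 1) ^ 5 :=
        pow_le_pow_left₀ (by linarith) (by linarith) 5
      have h5 : (v : ℝ) * (99 / 100 * (v : ℝ)) ^ 5 ≤ v * (v - 1) ^ 5 :=
        mul_le_mul_of_nonneg_left h4 (by linarith)
      nlinarith
    have hv : (v : ℝ) = ((v : ℝ) / k) ^ 2 * ((k : ℝ) ^ 2 / v) := by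
      have : (v : ℝ) ≠ 0 := by linarith
      field_simp
    replace h3 := h3.trans hv.le
    have h8 : R.rk univ = 4 → (v : ℝ) / k ≤ R.deg L := fun h5 => h.x_le_deg hb hl1 hL (by omega)
    generalize (v : ℝ) / k = x at *
    generalize (k : ℝ) ^ 2 / v = m at *
    generalize (b : ℝ) / (v - 1) = B at *
    have h13 : 0 < B ^ 5 := by positivity
    constructor
    · intro h5
      have h6 := h8 h5
      by_contra h8
      have h9 : x ≤ 120 * B ^ 2 := by nlinarith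
      have h11 : x ^ 2 * m ≤ (120 * B ^ 2) ^ 2 * (120 * B) :=
        mul_le_mul (pow_le_pow_left₀ (by linarith) h9 2) (by linarith) hm (by positivity)
      nlinarith
    · intro h5
      have h6 := h6 h5
      by_contra h8
      push Not at h8
      have h9 : x ^ 2 * m ≤ B * m ^ 2 := by nlinarith
      have h10 : B * m ^ 2 < B * (90000 * B) ^ 2 :=
        mul_lt_mul_of_pos_left (pow_lt_pow_left₀ h8 hm (by norm_num)) (by linarith)
      have h12 : B ^ 3 ≤ B ^ 5 := pow_le_pow_right₀ hB1 (by norm_num)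
      nlinarith

theorem few_blocks (h : IsDes R b v r k lam) (hb : v < b) (hl : 2 ≤ lam)
    (hc : 10 ^ 5 * b ≤ k ^ 2 ∨ (100 * b) ^ 5 ≤ v ^ 6) :
    ∃ q j, IsPrimePow q ∧ v = q ^ (j + 3) ∧ k = q ^ (j + 2) ∧ r = th q (j + 3) ∧
      lam = th q (j + 2) ∧ b = q * r := by
  have hl1 : 1 ≤ lam := by omega
  obtain ⟨h0, h1⟩ := h.conds hb hl hc
  obtain ⟨C, hC, rC, hx⟩ := h.exists_typical hb hl h0
  have h3 := h.three_le_deg hb hC rC
  obtain ⟨q, hq⟩ : ∃ q, R.deg C = q + 1 := ⟨R.deg C - 1, by omega⟩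
  have hq2 : 2 ≤ q := by omega
  rw [hq] at hx
  push_cast at hx
  rw [add_sub_cancel_right] at hx
  have hm : ∀ G, R.Flat G → R.rk G + 2 = R.rk univ → R.deg G ≤ q + 1 := by
    rcases h1 with h1 | h1
    · intro G hG rG
      rw [← hq, (h.line_deg hb hl1 hG (by omega)).1, (h.line_deg hb hl1 hC (by omega)).1]
    · exact h.no_heavy' hb hl hq2 hx h1.1 h1.2
  obtain ⟨sz, j, hj, e⟩ := h.params hb hl hq2 hx hm h0
  exact ⟨q, j, primePow_of_sizes hq2 (h.flat_empty hb) sz (by omega), e⟩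

end IsDes

end Pool.Agent.MP_337c4e_co

end
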