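import Pool.Agent.MP_337c4e_co.CoB

section

/-! Equidistant codes over arbitrary alphabets (the argument of Deza and van Lint). -/

set_option linter.unusedSectionVars false
set_option linter.unusedVariables false

namespace Pool.Agent.MP_337c4e_co

open Finset

variable {α β γ : Type} [DecidableEq α] [DecidableEq β] [DecidableEq γ]

/-- The agreement form of a map is a sum of squares over its fibres. -/
lemma class_sq (D : Finset α) (φ : α → β) (u : α → ℤ) (K : β) :
    (∑ x ∈ D.filter (fun x => φ x = K), u x) ^ 2 ≤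
      ∑ x ∈ D, ∑ x' ∈ D, if φ x = φ x' then u x * u x' else 0 := by
  have hm : ∀ x ∈ D, φ x ∈ insert K (D.image φ) := fun x hx =>
    mem_insert_of_mem (mem_image_of_mem φ hx)
  rw [← sum_fiberwise_of_maps_to hm]
  have e : ∀ K' ∈ insert K (D.image φ),
      ∑ x ∈ D.filter (fun x => φ x = K'), ∑ x' ∈ D, (if φ x = φ x' then u x * u x' else 0) =
        (∑ x ∈ D.filter (fun x => φ x = K'), u x) ^ 2 := by
    intro K' _
    rw [sq, sum_mul]
    apply sum_congr rfl
    intro x hx
    rw [mul_sum, sum_filter]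
    apply sum_congr rfl
    intro x' _
    rw [(mem_filter.1 hx).2]
    by_cases h : φ x' = K'
    · simp [h]
    · rw [if_neg h, if_neg (fun hh => h hh.symm)]
  rw [sum_congr rfl e]
  exact single_le_sum (f := fun K' => (∑ x ∈ D.filter (fun x => φ x = K'), u x) ^ 2)
    (fun _ _ => sq_nonneg _) (mem_insert_self _ _)

/-- In an equidistant code a value of a coordinate taken `s` times has `s (g - s) ≤ δ g`. -/
lemma class_size (D : Finset α) (Q : Finset γ) (f : γ → α → β) (δ : ℕ)
    (hδ : ∀ x ∈ D, ∀ x' ∈ D, x ≠ x' → (Q.filter fun y => f y x ≠ f y x').card = δ)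
    {y : γ} (hy : y ∈ Q) (K : β) :
    ((D.filter fun x => f y x = K).card : ℤ) * (D.card - (D.filter fun x => f y x = K).card) ≤
      δ * D.card := by
  set s : ℤ := ((D.filter fun x => f y x = K).card : ℤ) with hs
  set g : ℤ := (D.card : ℤ) with hg
  have hsg : ((D.filter fun x => ¬ f y x = K).card : ℤ) = g - s := by
    have := card_filter_add_card_filter_not (s := D) (fun x => f y x = K)
    omega
  have hs0 : 0 ≤ s := by positivity
  have hs1 : 0 ≤ g - s := by rw [← hsg]; positivity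
  let u : α → ℤ := fun x => if f y x = K then g - s else -s
  have u1 : ∑ x ∈ D, u x = 0 := by
    simp only [u]
    rw [sum_ite, sum_const, sum_const, nsmul_eq_mul, nsmul_eq_mul, hsg, ← hs]
    ring
  have u2 : ∑ x ∈ D, u x * u x = s * (g - s) * g := by
    have : ∀ x ∈ D, u x * u x = if f y x = K then (g - s) * (g - s) else s * s := by
      intro x _
      simp only [u]
      split_ifs <;> ring
    rw [sum_congr rfl this, sum_ite, sum_const, sum_const, nsmul_eq_mul, nsmul_eq_mul, hsg, ← hs]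
    ring
  have u3 : ∑ x ∈ D.filter (fun x => f y x = K), u x = s * (g - s) := by
    have : ∀ x ∈ D.filter (fun x => f y x = K), u x = g - s := by
      intro x hx
      simp only [u]
      rw [if_pos (mem_filter.1 hx).2]
    rw [sum_congr rfl this, sum_const, nsmul_eq_mul, ← hs]
  have t1 : ∑ y' ∈ Q, ∑ x ∈ D, ∑ x' ∈ D, (if f y' x = f y' x' then u x * u x' else 0) =
      δ * (s * (g - s) * g) := by
    rw [sum_comm]
    have : ∀ x ∈ D, ∑ y' ∈ Q, ∑ x' ∈ D, (if f y' x = f y' x' then u x * u x' else 0) =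
        ((Q.card : ℤ) - δ) * u x * (∑ x' ∈ D, u x') + δ * (u x * u x) := by
      intro x hx
      rw [sum_comm, mul_sum]
      have h2 : ∀ x' ∈ D, ∑ y' ∈ Q, (if f y' x = f y' x' then u x * u x' else 0) =
          ((Q.card : ℤ) - δ) * u x * u x' + if x = x' then δ * (u x * u x) else 0 := by
        intro x' hx'
        rw [← sum_filter, sum_const, nsmul_eq_mul]
        by_cases hxx : x = x'
        · subst hxx
          simp only [filter_true, if_true]
          ring
        · have h3 := hδ x hx x' hx' hxx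
          have h4 := card_filter_add_card_filter_not (s := Q) (fun y' => f y' x = f y' x')
          have h5 : ((Q.filter fun y' => f y' x = f y' x').card : ℤ) = Q.card - δ := by
            simp only [ne_eq] at h3
            omega
          rw [h5, if_neg hxx]
          ring
      rw [sum_congr rfl h2, sum_add_distrib, sum_ite_eq, if_pos hx]
    rw [sum_congr rfl this, sum_add_distrib, ← sum_mul, u1, mul_zero, ← mul_sum, u2]
    ring
  have t2 : (s * (g - s)) ^ 2 ≤ δ * (s * (g - s) * g) := by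
    rw [← t1, ← u3]
    refine (class_sq D (f y) u K).trans ?_
    exact single_le_sum
      (f := fun y' => ∑ x ∈ D, ∑ x' ∈ D, (if f y' x = f y' x' then u x * u x' else 0))
      (fun y' _ => (sq_nonneg _).trans (class_sq D (f y') u K)) hy
  rcases (mul_nonneg hs0 hs1).eq_or_lt with h0 | h0
  · rw [← h0]; positivity
  · have : s * (g - s) * (s * (g - s)) ≤ s * (g - s) * (δ * g) := by nlinarith
    exact le_of_mul_le_mul_left this h0

/-- A large equidistant code is a sunflower. -/
lemma deza (D : Finset α) (Q : Finset γ) (f : γ → α → β) (δ : ℕ)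
    (hδ : ∀ x ∈ D, ∀ x' ∈ D, x ≠ x' → (Q.filter fun y => f y x ≠ f y x').card = δ) :
    D.card ≤ (δ + 1) ^ 2 + 1 ∨ D.card ≤ Q.card ∨
      ∃ L, ∀ x ∈ D, ∀ x' ∈ D, x ≠ x' → (Q.filter fun y => f y x ≠ f y x') = L := by
  classical
  by_contra hcon
  rw [not_or, not_or] at hcon
  obtain ⟨hg, hQ, hL⟩ := hcon
  have hg' : δ * δ + 2 * δ + 3 ≤ D.card := by nlinarith
  obtain ⟨x0, hx0⟩ : D.Nonempty := card_pos.1 (by omega)
  let P : γ → Prop := fun y => ∃ K, D.card ≤ (D.filter fun x => f y x = K).card + δ + 1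
  have hch : ∀ y, ∃ K : β, P y → D.card ≤ (D.filter fun x => f y x = K).card + δ + 1 := by
    intro y
    by_cases hy : P y
    · obtain ⟨K, hK⟩ := hy
      exact ⟨K, fun _ => hK⟩
    · exact ⟨f y x0, fun h => absurd h hy⟩
  choose hv hhv using hch
  have F1 : ∀ y ∈ Q, ¬ P y → ∀ K, (D.filter fun x => f y x = K).card ≤ δ + 1 := by
    intro y hy hP K
    have h1 := class_size D Q f δ hδ hy K
    have h2 : ¬ D.card ≤ (D.filter fun x => f y x = K).card + δ + 1 := fun h => hP ⟨K, h⟩
    by_contra h3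
    have h4 : (δ : ℤ) + 2 ≤ (D.filter fun x => f y x = K).card := by omega
    have h5 : ((D.filter fun x => f y x = K).card : ℤ) + δ + 2 ≤ D.card := by omega
    have h6 : (δ : ℤ) * δ + 2 * δ + 3 ≤ D.card := by exact_mod_cast hg'
    have h7 : (0 : ℤ) ≤ δ := by positivity
    nlinarith [mul_nonneg (sub_nonneg.2 h4) (sub_nonneg.2 h5)]
  have F2 : ∀ y, P y → (D.filter fun x => ¬ f y x = hv y).card ≤ δ + 1 := by
    intro y hy
    have h1 := hhv y hy
    have := card_filter_add_card_filter_not (s := D) (fun x => f y x = hv y)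
    omega
  let w : γ → α → ℕ := fun y x => if P y then (if f y x = hv y then 0 else 2) else 1
  let j : γ → α → α → ℕ := fun y x x' =>
    if P y then (if f y x = hv y ∨ f y x' = hv y then 0 else if f y x = f y x' then 2 else 1)
    else if f y x = f y x' then 1 else 0
  have G1 : ∀ x ∈ D, ∀ x' ∈ D, x ≠ x' →
      2 * ∑ y ∈ Q, j y x x' + 2 * δ = ∑ y ∈ Q, w y x + ∑ y ∈ Q, w y x' := by
    intro x hx x' hx' hxx
    rw [← hδ x hx x' hx' hxx, card_filter, mul_sum, mul_sum, ← sum_add_distrib, ← sum_add_distrib]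
    apply sum_congr rfl
    intro y _
    simp only [j, w]
    by_cases h1 : P y <;> by_cases h2 : f y x = hv y <;> by_cases h3 : f y x' = hv y <;>
      by_cases h4 : f y x = f y x' <;> simp_all
  have G2 : ∀ x ∈ D, ∑ x' ∈ D.erase x, ∑ y ∈ Q, j y x x' ≤ δ * ∑ y ∈ Q, w y x := by
    intro x hx
    rw [sum_comm, mul_sum]
    apply sum_le_sum
    intro y hy
    by_cases h1 : P y
    · by_cases h2 : f y x = hv y
      · simp [j, w, h1, h2]
      · have h3 : ∀ x' ∈ D.erase x, j y x x' ≤ if ¬ f y x' = hv y then 2 else 0 := by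
          intro x' _
          simp only [j]
          by_cases h4 : f y x' = hv y
          · simp [h1, h4]
          · simp only [h1, h2, h4, or_self, if_true, if_false, not_false_eq_true]
            split_ifs <;> omega
        refine (sum_le_sum h3).trans ?_
        rw [← sum_filter, sum_const, smul_eq_mul, filter_erase]
        have h5 := F2 y h1
        have h6 := card_erase_add_one (s := D.filter fun x => ¬ f y x = hv y) (a := x)
          (mem_filter.2 ⟨hx, h2⟩)
        simp only [w, h1, h2, if_true, if_false]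
        omega
    · have h3 : ∀ x' ∈ D.erase x, j y x x' = if f y x' = f y x then 1 else 0 := by
        intro x' _
        simp only [j, h1, if_false, eq_comm]
      rw [sum_congr rfl h3, ← card_filter, filter_erase]
      have h5 := F1 y hy h1 (f y x)
      have h6 := card_erase_add_one (s := D.filter fun x' => f y x' = f y x) (a := x)
        (mem_filter.2 ⟨hx, rfl⟩)
      simp only [w, h1, if_false]
      omega
  have G3 : ∀ x ∈ D, ∀ x' ∈ D, x ≠ x' → ∑ y ∈ Q, j y x x' = 0 := by
    intro x1 hx1 x2 hx2 h12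
    by_contra hne
    obtain ⟨x, hx, hmax⟩ := exists_max_image D (fun x => ∑ y ∈ Q, w y x) ⟨x0, hx0⟩
    have a1 := G1 x1 hx1 x2 hx2 h12
    have a2 := hmax x1 hx1
    have a3 := hmax x2 hx2
    obtain ⟨e, he⟩ : ∃ e, ∑ y ∈ Q, w y x = δ + e + 1 := ⟨∑ y ∈ Q, w y x - δ - 1, by omega⟩
    have b1 : (D.filter fun x' => ∑ y ∈ Q, w y x' < δ).card ≤ 1 := by
      rw [card_le_one]
      intro a ha a' ha'
      by_contra haa
      have := G1 a (mem_filter.1 ha).1 a' (mem_filter.1 ha').1 haa
      have := (mem_filter.1 ha).2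
      have := (mem_filter.1 ha').2
      omega
    have b2 : D.card ≤ (D.erase x \ D.filter fun x' => ∑ y ∈ Q, w y x' < δ).card + 2 := by
      have := le_card_sdiff (D.filter fun x' => ∑ y ∈ Q, w y x' < δ) (D.erase x)
      have := card_erase_add_one hx
      omega
    have b3 : ∀ x' ∈ D.erase x \ D.filter fun x' => ∑ y ∈ Q, w y x' < δ,
        max (e + 1) 2 ≤ 2 * ∑ y ∈ Q, j y x x' := by
      intro x' hx'
      rw [mem_sdiff, mem_erase, mem_filter] at hx'
      have := G1 x hx x' hx'.1.2 (Ne.symm hx'.1.1)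
      have : ¬ ∑ y ∈ Q, w y x' < δ := fun h => hx'.2 ⟨hx'.1.2, h⟩
      omega
    have b4 := card_nsmul_le_sum _ _ _ b3
    rw [smul_eq_mul, ← mul_sum] at b4
    have b5 : ∑ x' ∈ D.erase x \ D.filter fun x' => ∑ y ∈ Q, w y x' < δ, ∑ y ∈ Q, j y x x' ≤
        ∑ x' ∈ D.erase x, ∑ y ∈ Q, j y x x' := sum_le_sum_of_subset sdiff_subset
    have b6 := G2 x hx
    rw [he] at b6
    have b7 : (δ * δ + 2 * δ + 1) * max (e + 1) 2 ≤ 2 * (δ * (δ + e + 1)) :=
      (Nat.mul_le_mul_right _ (by omega)).trans (b4.trans (by omega))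
    rcases Nat.eq_zero_or_pos e with rfl | hpos
    · rw [show max (0 + 1) 2 = 2 by rfl] at b7
      nlinarith
    · rw [max_eq_left (by omega)] at b7
      nlinarith [Nat.mul_le_mul_left (δ * δ) hpos]
  have G4 : ∀ x ∈ D, ∑ y ∈ Q, w y x = δ := by
    intro x hx
    obtain ⟨a, ha, a', ha', haa⟩ := one_lt_card.1
      (show 1 < (D.erase x).card by have := card_erase_add_one hx; omega)
    rw [mem_erase] at ha ha'
    have c1 := G1 x hx a ha.2 (Ne.symm ha.1)
    have c2 := G1 x hx a' ha'.2 (Ne.symm ha'.1)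
    have c3 := G1 a ha.2 a' ha'.2 haa
    rw [G3 x hx a ha.2 (Ne.symm ha.1)] at c1
    rw [G3 x hx a' ha'.2 (Ne.symm ha'.1)] at c2
    rw [G3 a ha.2 a' ha'.2 haa] at c3
    omega
  have G5 : ∀ x, ∑ y ∈ Q, w y x = (Q.filter fun y => ¬ P y).card +
      2 * (Q.filter fun y => P y ∧ ¬ f y x = hv y).card := by
    intro x
    rw [card_filter, card_filter, mul_sum, ← sum_add_distrib]
    apply sum_congr rfl
    intro y _
    simp only [w]
    by_cases h1 : P y <;> by_cases h2 : f y x = hv y <;> simp [h1, h2]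
  by_cases hT : ∀ x ∈ D, ∃ y, y ∈ Q.filter fun y => P y ∧ ¬ f y x = hv y
  · have : Nonempty γ := ⟨(hT x0 hx0).choose⟩
    choose! t ht using hT
    apply hQ
    apply card_le_card_of_injOn t (fun x hx => (mem_filter.1 (ht x hx)).1)
    intro x hx x' hx' hxx
    by_contra hne
    have h1 := mem_filter.1 (ht x hx)
    have h2 := mem_filter.1 (ht x' hx')
    rw [← hxx] at h2
    have h3 := sum_eq_zero_iff.1 (G3 x hx x' hx' hne) _ h1.1
    simp only [j, h1.2.1, h1.2.2, h2.2.2, or_self, if_true, if_false] at h3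
    split_ifs at h3
  · push Not at hT
    obtain ⟨x1, hx1, h1⟩ := hT
    have h2 : (Q.filter fun y => P y ∧ ¬ f y x1 = hv y).card = 0 :=
      card_eq_zero.2 (eq_empty_of_forall_notMem h1)
    have h3 := G5 x1
    rw [G4 x1 hx1, h2] at h3
    have h4 : ∀ x ∈ D, ∀ y ∈ Q, P y → f y x = hv y := by
      intro x hx y hy hP
      have h5 := G5 x
      rw [G4 x hx] at h5
      by_contra h6
      have := card_pos.2 (show (Q.filter fun y => P y ∧ ¬ f y x = hv y).Nonempty from
        ⟨y, mem_filter.2 ⟨hy, hP, h6⟩⟩)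
      omega
    apply hL
    refine ⟨Q.filter fun y => ¬ P y, fun x hx x' hx' hxx => ?_⟩
    apply eq_of_subset_of_card_le
    · intro y hy
      rw [mem_filter] at hy ⊢
      exact ⟨hy.1, fun hP => hy.2 ((h4 x hx y hy.1 hP).trans (h4 x' hx' y hy.1 hP).symm)⟩
    · rw [hδ x hx x' hx' hxx]; omega

end Pool.Agent.MP_337c4e_co

end

section

/-! The quadratic bound for `v` in terms of `c = v - k`. -/

set_option linter.unusedSectionVars false
set_option linter.unusedVariables false

namespace Pool.Agent.MP_337c4e_co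

open Finset RkFn

variable {α : Type} [Fintype α] [DecidableEq α]

/-- Let every `insert x Q`, `x ∈ D`, be a basis.  The circuits in `Q ∪ {x, x'}` define an
equidistant code of distance `c - 2` with one word for each point of `D`. -/
lemma Cf.code {cir : Finset α → Prop} {c ρ : ℕ} (h : Cf cir c ρ) {D Q : Finset α}
    (hDQ : ∀ x ∈ D, x ∉ Q) (hQ : Q.card + 1 = ρ)
    (hind : ∀ x ∈ D, ∀ C, cir C → ¬ C ⊆ insert x Q) :
    D.card ≤ (c - 2 + 1) ^ 2 + 1 ∨ D.card ≤ Q.card ∨
      ∃ U, Full cir c U ∧ U.card = D.card + (c - 2) := by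
  classical
  have hex : ∀ x x' : α, ∃ C : Finset α, x ∈ D → x' ∈ D → x ≠ x' →
      C ⊆ insert x (insert x' Q) ∧ cir C := by
    intro x x'
    by_cases hh : x ∈ D ∧ x' ∈ D ∧ x ≠ x'
    · obtain ⟨C, h1, h2⟩ := h.big (insert x (insert x' Q)) (by
        rw [card_insert_of_notMem (by simp [hh.2.2, hDQ x hh.1]),
          card_insert_of_notMem (hDQ x' hh.2.1)]
        omega)
      exact ⟨C, fun _ _ _ => ⟨h1, h2⟩⟩
    · exact ⟨∅, fun h1 h2 h3 => absurd ⟨h1, h2, h3⟩ hh⟩
  choose C hC using hex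
  have m1 : ∀ x ∈ D, ∀ x' ∈ D, ∀ Z, cir Z → Z ⊆ insert x (insert x' Q) → x ∈ Z := by
    intro x hx x' hx' Z hZ hs
    by_contra hn
    exact hind x' hx' Z hZ ((subset_insert_iff_of_notMem hn).1 hs)
  have uq : ∀ x ∈ D, ∀ x' ∈ D, x ≠ x' → ∀ Z, cir Z → Z ⊆ insert x (insert x' Q) → Z = C x x' := by
    intro x hx x' hx' hxx Z hZ hs
    obtain ⟨h1, h2⟩ := hC x x' hx hx' hxx
    by_contra hne
    obtain ⟨W, hW, h3⟩ := h.elim' hZ h2 hne (m1 x hx x' hx' Z hZ hs) (m1 x hx x' hx' _ h2 h1)
    apply hind x' hx' W hW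
    intro z hz
    have h4 := mem_erase.1 (h3 hz)
    have h5 : z ∈ insert x (insert x' Q) := by
      rcases mem_union.1 h4.2 with h6 | h6
      exacts [hs h6, h1 h6]
    exact (mem_insert.1 h5).resolve_left h4.1
  have sy : ∀ x ∈ D, ∀ x' ∈ D, x ≠ x' → C x' x = C x x' := by
    intro x hx x' hx' hxx
    obtain ⟨h1, h2⟩ := hC x' x hx' hx hxx.symm
    exact uq x hx x' hx' hxx _ h2 (by rwa [insert_comm])
  have tr : ∀ x ∈ D, ∀ x' ∈ D, ∀ z ∈ D, x ≠ x' → x' ≠ z → x ≠ z → ∀ y, y ∉ C x x' → y ∉ C x' z →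
      y ∉ C x z := by
    intro x hx x' hx' z hz h1 h2 h3 y hy hy'
    obtain ⟨a1, a2⟩ := hC x x' hx hx' h1
    obtain ⟨b1, b2⟩ := hC x' z hx' hz h2
    have c1 : x' ∈ C x x' := m1 x' hx' x hx _ a2 (by rwa [insert_comm])
    have c2 : x' ∈ C x' z := m1 x' hx' z hz _ b2 b1
    have c3 : C x x' ≠ C x' z := by
      intro he
      have := b1 (he ▸ m1 x hx x' hx' _ a2 a1)
      simp [h1, h3, hDQ x hx] at this
    obtain ⟨W, hW, h4⟩ := h.elim' a2 b2 c3 c1 c2
    have c4 : W = C x z := by
      apply uq x hx z hz h3 W hW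
      intro u hu
      have h5 := mem_erase.1 (h4 hu)
      rcases mem_union.1 h5.2 with h6 | h6
      · have := a1 h6
        simp only [mem_insert] at this ⊢
        tauto
      · have := b1 h6
        simp only [mem_insert] at this ⊢
        tauto
    intro hyz
    have := mem_union.1 (mem_erase.1 (h4 (c4 ▸ hyz))).2
    tauto
  let f : α → α → Finset α := fun y x => D.filter fun z => z = x ∨ y ∉ C x z
  have fe : ∀ x ∈ D, ∀ x' ∈ D, x ≠ x' → ∀ y, (f y x ≠ f y x' ↔ y ∈ C x x') := by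
    intro x hx x' hx' hxx y
    rw [← not_iff_not, not_ne_iff]
    constructor
    · intro he
      have : x' ∈ f y x := he ▸ mem_filter.2 ⟨hx', Or.inl rfl⟩
      exact (mem_filter.1 this).2.resolve_left hxx.symm
    · intro hy
      have hy' : y ∉ C x' x := by rwa [sy x hx x' hx' hxx]
      ext z
      simp only [f, mem_filter]
      refine and_congr_right fun hz => ?_
      by_cases h1 : z = x
      · subst h1; simp [hy']
      · by_cases h2 : z = x'
        · subst h2; simp [hy]
        · simp only [h1, h2, false_or]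
          exact ⟨tr x' hx' x hx z hz hxx.symm (Ne.symm h1) (Ne.symm h2) y hy',
            tr x hx x' hx' z hz hxx (Ne.symm h2) (Ne.symm h1) y hy⟩
  have ce : ∀ x ∈ D, ∀ x' ∈ D, x ≠ x' →
      C x x' = insert x (insert x' (Q.filter fun y => f y x ≠ f y x')) := by
    intro x hx x' hx' hxx
    obtain ⟨a1, a2⟩ := hC x x' hx hx' hxx
    ext z
    simp only [mem_insert, mem_filter, fe x hx x' hx' hxx]
    constructor
    · intro hz
      have := a1 hz
      simp only [mem_insert] at this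
      tauto
    · rintro (rfl | rfl | hz)
      exacts [m1 z hx x' hx' _ a2 a1, m1 z hx' x hx _ a2 (by rwa [insert_comm]), hz.2]
  have hδ : ∀ x ∈ D, ∀ x' ∈ D, x ≠ x' → (Q.filter fun y => f y x ≠ f y x').card = c - 2 := by
    intro x hx x' hx' hxx
    have h1 := h.card _ (hC x x' hx hx' hxx).2
    rw [ce x hx x' hx' hxx, card_insert_of_notMem (by simp [hxx, hDQ x hx]),
      card_insert_of_notMem (by simp [hDQ x' hx'])] at h1
    omega
  rcases deza D Q f (c - 2) hδ with h1 | h1 | ⟨L, hL⟩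
  · exact Or.inl h1
  · exact Or.inr (Or.inl h1)
  by_cases h2 : D.card ≤ 1
  · exact Or.inl (by omega)
  obtain ⟨x0, hx0, x1, hx1, h01⟩ := one_lt_card.1 (not_le.1 h2)
  have cl : ∀ x ∈ D, ∀ x' ∈ D, x ≠ x' → cir (insert x (insert x' L)) := by
    intro x hx x' hx' hxx
    rw [← hL x hx x' hx' hxx, ← ce x hx x' hx' hxx]
    exact (hC x x' hx hx' hxx).2
  have hLQ : L ⊆ Q := hL x0 hx0 x1 hx1 h01 ▸ filter_subset _ _
  have hLc : L.card = c - 2 := hL x0 hx0 x1 hx1 h01 ▸ hδ x0 hx0 x1 hx1 h01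
  have key : ∀ S : Finset α, S ⊆ D → Full cir c (S ∪ insert x1 (insert x0 L)) := by
    intro S
    induction S using Finset.induction_on with
    | empty => intro _; rw [empty_union]; exact h.cf_full_self (cl x1 hx1 x0 hx0 h01.symm)
    | insert x S hx ih =>
      intro hS
      have h3 := ih ((subset_insert _ _).trans hS)
      rw [insert_union]
      by_cases h4 : x = x0
      · rw [insert_eq_of_mem (by simp [h4])]; exact h3
      · refine h.full_insert h3 (cl x (hS (mem_insert_self _ _)) x0 hx0 h4) (mem_insert_self _ _) ?_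
        exact insert_subset_insert _ ((subset_insert _ _).trans subset_union_right)
  refine Or.inr (Or.inr ⟨_, key D subset_rfl, ?_⟩)
  have e : D ∪ insert x1 (insert x0 L) = D ∪ L := by
    ext z
    simp only [mem_union, mem_insert]
    constructor
    · rintro (h3 | rfl | rfl | h3)
      exacts [Or.inl h3, Or.inl hx1, Or.inl hx0, Or.inr h3]
    · tauto
  rw [e, card_union_of_disjoint (disjoint_left.2 fun x hx hx' => hDQ x hx (hLQ hx')), hLc]

namespace IsDes

variable {R : RkFn α} {b v r k lam c ρ : ℕ}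

/-- Every point outside a basis has a long fundamental circuit (`avoid_le`). -/
lemma quad_deg (h : IsDes R b v r k lam) (hb : v < b) (hc : v = k + c) {Y : Finset α}
    (hY : R.Ind Y) (hn : Y.card = R.rk univ) {x : α} (hx : x ∈ Yᶜ) :
    v - 1 ≤ (Y.filter (fun y => x ∉ R.cl (Y.erase y))).card * (c - 1) := by
  apply h.avoid_le hb hc (x := x) (fun hh => mem_compl.1 hx (mem_filter.1 hh).1)
  intro H hH hxH
  by_contra hcon
  push Not at hcon
  have hxY : x ∈ R.cl Y := by
    rw [mem_cl]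
    have b1 := rk_le_univ (R := R) (insert x Y)
    have b2 := R.mono (subset_insert x Y)
    have b3 : R.rk Y = Y.card := hY
    omega
  have b1 := hY.mem_cl_sdiff (filter_subset (fun y => x ∈ R.cl (Y.erase y)) Y) hxY
    (fun y hy => (mem_filter.1 hy).2)
  apply hxH
  refine (mem_hyp.1 hH).1.cl_subset ?_ b1
  intro y hy
  rw [mem_sdiff] at hy
  exact hcon y (mem_filter.2 ⟨hy.1, fun hh => hy.2 (mem_filter.2 ⟨hy.1, hh⟩)⟩)

/-- Two fundamental cocircuits share at least `c / 2` points (`coline_d`). -/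
lemma quad_inter (h : IsDes R b v r k lam) (hb : v < b) (hc : v = k + c) {Y : Finset α}
    (hY : R.Ind Y) (hn : Y.card = R.rk univ) {y y' : α} (hy : y ∈ Y) (hy' : y' ∈ Y)
    (hyy : y ≠ y') :
    c ≤ 2 * ((R.cl (Y.erase y))ᶜ.erase y ∩ (R.cl (Y.erase y'))ᶜ.erase y').card := by
  have hv := h.hv
  obtain ⟨b1, b2, b3, b4⟩ := bound_val h hc hY hn hy
  obtain ⟨c1, c2, c3, c4⟩ := bound_val h hc hY hn hy'
  have d1 := hY.cl_inter (erase_subset y Y) (erase_subset y' Y)
  have d2 : Y.erase y ∩ Y.erase y' = (Y.erase y).erase y' := by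
    ext z; simp only [mem_inter, mem_erase]; tauto
  have d3 : y' ∈ Y.erase y := mem_erase.2 ⟨hyy.symm, hy'⟩
  have d4 : y ∈ Y.erase y' := mem_erase.2 ⟨hyy, hy⟩
  have d5 : R.rk ((Y.erase y).erase y') = ((Y.erase y).erase y').card :=
    hY.subset ((erase_subset _ _).trans (erase_subset _ _))
  have d6 := card_erase_add_one d3
  have d7 := card_erase_add_one hy
  rw [d2] at d1
  obtain ⟨d, e1, e2, e3, e4, -⟩ := h.coline_d hb hc (cl_flat ((Y.erase y).erase y'))
    (by rw [rk_cl]; omega)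
  rw [← d1] at e2
  have f1 : (R.cl (Y.erase y))ᶜ.erase y ∩ (R.cl (Y.erase y'))ᶜ.erase y' =
      (R.cl (Y.erase y) ∪ R.cl (Y.erase y'))ᶜ := by
    ext z
    simp only [mem_inter, mem_erase, mem_compl, mem_union, not_or]
    refine ⟨fun hh => ⟨hh.1.2, hh.2.2⟩, fun hh => ⟨⟨?_, hh.1⟩, ?_, hh.2⟩⟩
    · rintro rfl; exact hh.2 (subset_cl _ d4)
    · rintro rfl; exact hh.1 (subset_cl _ d3)
  have f2 := card_add_card_compl (R.cl (Y.erase y) ∪ R.cl (Y.erase y'))
  have f3 := card_union_add_card_inter (R.cl (Y.erase y)) (R.cl (Y.erase y'))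
  have f4 := h.hk _ b1
  have f5 := h.hk _ c1
  rw [f1]; omega

/-- Double counting of the pairs `(x, y)` with `x ∈ S` outside `cl (Y.erase y)`. -/
lemma quad_sum {Y S : Finset α} (hS : S ⊆ Yᶜ) :
    ∑ x ∈ S, (Y.filter (fun y => x ∉ R.cl (Y.erase y))).card =
      ∑ y ∈ Y, (S ∩ (R.cl (Y.erase y))ᶜ.erase y).card := by
  simp only [card_filter]
  rw [sum_comm]
  apply sum_congr rfl
  intro y hy
  rw [← card_filter]
  congr 1
  ext x
  simp only [mem_filter, mem_inter, mem_erase, mem_compl]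
  exact ⟨fun hh => ⟨hh.1, fun he => mem_compl.1 (hS hh.1) (he ▸ hy), hh.2⟩,
    fun hh => ⟨hh.1, hh.2.2⟩⟩

/-- `Cf.code` for a fundamental circuit, `full_le`. -/
lemma quad_circ (h : IsDes R b v r k lam) (hb : v < b) (hc : v = k + c) (hk : b ≠ v.choose k)
    {Y : Finset α} (hY : R.Ind Y) (hn : Y.card = R.rk univ) {x : α} (hx : x ∈ Yᶜ) :
    (Y.filter (fun y => x ∉ R.cl (Y.erase y))).card ≤ (c - 1) ^ 2 ∨
      (Y.filter (fun y => x ∉ R.cl (Y.erase y))).card + 2 ≤ Yᶜ.card := by
  have hv := h.hv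
  have hk2 := h.k_lt hb
  have hYc := card_add_card_compl Y
  have hcf := h.cf (ρ := Yᶜ.card) hb hc (by omega)
  have hxY : x ∉ Y := mem_compl.1 hx
  have hD : (insert x (Y.filter (fun y => x ∉ R.cl (Y.erase y)))).card =
      (Y.filter (fun y => x ∉ R.cl (Y.erase y))).card + 1 :=
    card_insert_of_notMem (fun hh => hxY (mem_filter.1 hh).1)
  have hQ := card_erase_add_one hx
  have hr : R.rk Y = Y.card := hY
  rcases hcf.code (D := insert x (Y.filter (fun y => x ∉ R.cl (Y.erase y)))) (Q := Yᶜ.erase x)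
    (by
      intro z hz hz'
      rw [mem_erase, mem_compl] at hz'
      exact hz'.2 (mem_filter.1 ((mem_insert.1 hz).resolve_left hz'.1)).1) hQ
    (by
      intro z hz C hC hs
      have h1 := (mem_hyp.1 hC).2
      rcases mem_insert.1 hz with rfl | hz
      · rw [insert_erase hx] at hs
        have := R.mono (show Y ⊆ Cᶜ from fun y hy => mem_compl.2 fun hh => mem_compl.1 (hs hh) hy)
        omega
      · rw [mem_filter] at hz
        have h2 := rk_insert_of_notMem_cl hz.2
        have h3 : R.rk (Y.erase z) = (Y.erase z).card := hY.subset (erase_subset _ _)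
        have h4 := card_erase_add_one hz.1
        have := R.mono (show insert x (Y.erase z) ⊆ Cᶜ by
          intro y hy
          rw [mem_compl]
          intro hh
          have h5 := hs hh
          simp only [mem_insert, mem_erase, mem_compl] at hy h5
          rcases hy with rfl | hy
          · rcases h5 with rfl | h5
            exacts [hxY hz.1, h5.1 rfl]
          · tauto)
        omega) with h1 | h1 | ⟨U, h1, h2⟩
  · left
    rw [show c - 2 + 1 = c - 1 by omega] at h1
    omega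
  · right; omega
  · left
    have := h.full_le hb hc hk h1 (by omega)
    have := Nat.le_self_pow (two_ne_zero) (c - 1)
    omega

lemma quad_ar1 {e m t a s1 s2 : ℕ} (h1 : m * (e + 3) + 2 * (e + 2) ≤ 2 * s1)
    (h2 : s2 + s1 ≤ (m + 1) * (e + 2)) (h3 : a * (m + 1 + t) ≤ s2 * (e + 2)) :
    2 * a + 2 ≤ (e + 1) * (e + 2) := by
  have s5 : 2 * a < (e + 1) * (e + 2) := by
    by_contra hcon
    have g1 := Nat.mul_le_mul_right (m + 1 + t) (not_lt.1 hcon)
    have g2 : 2 * s2 ≤ m * (e + 1) := by nlinarith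
    have g3 := Nat.mul_le_mul_right (e + 2) g2
    have g4 : (e + 1) * (e + 2) * (m + 1 + t) ≤ (e + 1) * (e + 2) * m := by nlinarith
    have g5 := Nat.le_of_mul_le_mul_left g4 (by positivity)
    omega
  obtain ⟨u, hu⟩ := Nat.even_mul_succ_self (e + 1)
  rw [show e + 1 + 1 = e + 2 by omega] at hu
  omega

lemma quad_ar2 {e m s1 : ℕ} (h1 : m * (e + 3) + 2 * (e + 2) ≤ 2 * s1)
    (h2 : s1 ≤ (e + 2) * (e + 2) ^ 2) : m ≤ 2 * ((e + 1) * (e + 2)) := by
  have g1 : m * (e + 3) ≤ 2 * ((e + 1) * (e + 2)) * (e + 3) := by nlinarith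
  exact Nat.le_of_mul_le_mul_right g1 (by omega)

lemma quad_ar3 {e a d : ℕ} (h1 : 2 * a + 2 ≤ (e + 1) * (e + 2)) (h2 : d + 2 ≤ a + (e + 2)) :
    d ≤ (e + 2) ^ 2 := by nlinarith

lemma quad_ar4 {e a m v : ℕ} (h1 : 2 * a + 2 ≤ (e + 1) * (e + 2))
    (h2 : m ≤ 2 * ((e + 1) * (e + 2))) (h3 : v = m + 1 + (a + (e + 2))) :
    2 * v ≤ (e + 2) * (5 * e + 7) := by nlinarith

/-- Fix a basis `Y` with `n` points, `y0 ∈ Y` and the trace `A` of its fundamental cocircuit.
Counting on `Yᶜ \\ A` gives `2 ρ < c (c - 1)`, counting on `A` gives `n ≤ 2 (c - 1) (c - 2) + 1`. -/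
theorem bound_quad (h : IsDes R b v r k lam) (hb : v < b) (hc : v = k + c)
    (hk : b ≠ v.choose k) : 2 * v ≤ (c - 1) * (5 * c - 8) := by
  have hv := h.hv
  have hk2 := h.k_lt hb
  by_cases hc2 : c = 2
  · have := h.bound_primePow hb hc hk (hc2 ▸ Nat.prime_two.isPrimePow)
    rw [hc2] at this
    omega
  obtain ⟨e, rfl⟩ : ∃ e, c = e + 3 := ⟨c - 3, by omega⟩
  obtain ⟨Y, hY, hn⟩ := bound_basis R
  have hYc := card_add_card_compl Y
  have hrk := h.rank_le hb
  obtain ⟨y0, hy0⟩ : Y.Nonempty := by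
    obtain ⟨H, hH⟩ : R.hyp.Nonempty := card_pos.1 (by rw [h.hb]; omega)
    have := (mem_hyp.1 hH).2
    exact card_pos.1 (by omega)
  obtain ⟨-, -, a3, a4⟩ := bound_val h hc hY hn hy0
  obtain ⟨A, hA⟩ : ∃ A, A = (R.cl (Y.erase y0))ᶜ.erase y0 := ⟨_, rfl⟩
  rw [← hA] at a3 a4
  replace a3 : A.card = e + 2 := a3
  obtain ⟨m, hm⟩ : ∃ m, Y.card = m + 1 := ⟨_, (card_erase_add_one hy0).symm⟩
  have hme : (Y.erase y0).card = m := by have := card_erase_add_one hy0; omega
  have s1 : m * (e + 3) + 2 * (e + 2) ≤ 2 * ∑ y ∈ Y, (A ∩ (R.cl (Y.erase y))ᶜ.erase y).card := by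
    have := card_nsmul_le_sum (Y.erase y0)
      (fun y => 2 * (A ∩ (R.cl (Y.erase y))ᶜ.erase y).card) (e + 3)
      (fun y hy => hA ▸ h.quad_inter hb hc hY hn hy0 (mem_erase.1 hy).2 (mem_erase.1 hy).1.symm)
    rw [hme, smul_eq_mul, ← mul_sum] at this
    rw [← add_sum_erase _ _ hy0, ← hA, inter_self, a3]
    omega
  have s2 : ∑ y ∈ Y, ((Yᶜ \ A) ∩ (R.cl (Y.erase y))ᶜ.erase y).card +
      ∑ y ∈ Y, (A ∩ (R.cl (Y.erase y))ᶜ.erase y).card ≤ (m + 1) * (e + 2) := by
    rw [← sum_add_distrib, ← hm, ← smul_eq_mul]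
    apply sum_le_card_nsmul
    intro y hy
    have h1 := (bound_val h hc hY hn hy).2.2.1
    rw [← card_union_of_disjoint (disjoint_of_subset_left inter_subset_left
      (disjoint_of_subset_right inter_subset_left sdiff_disjoint))]
    refine (card_le_card (union_subset inter_subset_right inter_subset_right)).trans ?_
    omega
  have s3 := card_nsmul_le_sum (Yᶜ \ A)
    (fun x => (Y.filter (fun y => x ∉ R.cl (Y.erase y))).card * (e + 3 - 1)) (v - 1)
    (fun x hx => h.quad_deg hb hc hY hn (mem_sdiff.1 hx).1)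
  have s4 := card_sdiff_add_card_eq_card a4
  obtain ⟨t, ht⟩ : ∃ t, v - 1 = m + 1 + t := ⟨v - 1 - (m + 1), by omega⟩
  rw [← sum_mul, quad_sum sdiff_subset, smul_eq_mul, show e + 3 - 1 = e + 2 by omega, ht] at s3
  have s6 := quad_ar1 s1 s2 s3
  have s7 : ∑ x ∈ A, (Y.filter (fun y => x ∉ R.cl (Y.erase y))).card ≤ A.card • (e + 2) ^ 2 := by
    apply sum_le_card_nsmul
    intro x hx
    rcases h.quad_circ hb hc hk hY hn (a4 hx) with h1 | h1
    · exact h1
    · exact quad_ar3 s6 (by omega)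
  rw [quad_sum a4, a3, smul_eq_mul] at s7
  rw [show e + 3 - 1 = e + 2 by omega, show 5 * (e + 3) - 8 = 5 * e + 7 by omega]
  exact quad_ar4 s6 (quad_ar2 s1 s7) (by omega)

end IsDes

end Pool.Agent.MP_337c4e_co

end
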