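import Pool.Agent.MP_337c4e_co.Ranks

set_option linter.unusedSectionVars false
set_option linter.unusedVariables false

namespace Pool.Agent.MP_337c4e_co

open Finset RkFn

lemma weight_cases {w e p κ d : ℕ} (h1 : w + e = κ) (h2 : 1 ≤ w) (h3 : p * e = e + d)
    (h4 : 3 ≤ p) (h5 : p ≤ 6) :
    (p = 3 ∧ 2 * w + d = 2 * κ) ∨ (p = 4 ∧ 3 * w + d = 3 * κ) ∨ (p = 5 ∧ 4 * w + d = 4 * κ) ∨
      (p = 6 ∧ 5 * w + d = 5 * κ) := by
  interval_cases p <;> omega

lemma local_five {ι : Type} [DecidableEq ι] (T N : Finset ι) (w p : ι → ℕ) (κ d lam : ℕ)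
    (hd : 0 < d) (hlam : lam ≤ 9)
    (hw : ∀ i ∈ T, 1 ≤ w i ∧ ((p i = 3 ∧ 2 * w i + d = 2 * κ) ∨ (p i = 4 ∧ 3 * w i + d = 3 * κ) ∨
      (p i = 5 ∧ 4 * w i + d = 4 * κ) ∨ (p i = 6 ∧ 5 * w i + d = 5 * κ)))
    (hs1 : ∑ i ∈ T, w i = κ + d) (hs2 : ∑ i ∈ T, w i * p i = lam * κ)
    (hK : ∀ i ∈ T, ∀ j ∈ T, i ≠ j → w i + w j ≤ κ)
    (g : ι) (hg : g ∈ T) (hmax : ∀ i ∈ T, p i ≤ p g)
    (hN : N ⊆ T) (hgN : g ∉ N) (hN2 : 2 ≤ N.card) (hN3 : ∑ i ∈ N, w i = κ)
    (hN4 : p g + 1 + ∑ i ∈ N, (p i - 2) ≤ lam) :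
    (∃ i ∈ T, p i = 3) ∧ ((lam = 6 ∧ κ = d) ∨ (lam = 7 ∧ 4 * κ = 3 * d) ∨
      (lam = 9 ∧ 3 * κ = 2 * d)) := by
  have hcard : N.card ≤ ∑ i ∈ N, (p i - 2) := by
    rw [card_eq_sum_ones]
    apply sum_le_sum
    intro i hi
    have := hw i (hN hi)
    omega
  have hwg := hw g hg
  by_cases h3 : p g = 3
  · refine ⟨⟨g, hg, h3⟩, ?_⟩
    have hall : ∀ i ∈ T, p i = 3 ∧ w i = w g := by
      intro i hi
      have h1 := hw i hi
      have h2 := hmax i hi
      omega
    have e1 : ∑ i ∈ T, w i * p i = 3 * ∑ i ∈ T, w i := by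
      rw [mul_sum]
      apply sum_congr rfl
      intro i hi
      rw [(hall i hi).1, mul_comm]
    have e2 : ∑ i ∈ N, w i = N.card * w g := by
      rw [sum_congr rfl (fun i hi => (hall i (hN hi)).2)]
      simp
    rw [e1, hs1] at hs2
    rw [e2] at hN3
    have h4 : N.card ≤ 5 := by omega
    generalize N.card = s at hN3 hcard hN2 h4
    have h5 : 6 ≤ lam := by omega
    interval_cases lam <;> interval_cases s <;> omega
  · have hne : ∀ i ∈ N, g ≠ i := fun i hi h => hgN (h ▸ hi)
    have key : (4 * κ = 3 * d) ∨ (3 * κ = 2 * d ∧ lam = 9 ∧ p g = 4) := by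
      have h4 : N.card = 2 ∨ N.card = 3 ∨ N.card = 4 := by omega
      rcases h4 with h4 | h4 | h4
      · obtain ⟨a, b, hab, rfl⟩ := card_eq_two.1 h4
        rw [sum_pair hab] at hN3 hN4
        have ha : a ∈ T := hN (by simp)
        have hb : b ∈ T := hN (by simp)
        have h5 := hw a ha
        have h6 := hw b hb
        have h7 := hK g hg a ha (hne a (by simp))
        have h8 := hK g hg b hb (hne b (by simp))
        have h9 := hmax a ha
        have h10 := hmax b hb
        omega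
      · obtain ⟨a, b, c, hab, hac, hbc, rfl⟩ := card_eq_three.1 h4
        rw [sum_insert (by simp [hab, hac]), sum_pair hbc] at hN3 hN4
        have ha : a ∈ T := hN (by simp)
        have hb : b ∈ T := hN (by simp)
        have hc : c ∈ T := hN (by simp)
        have h5 := hw a ha
        have h6 := hw b hb
        have h7 := hw c hc
        omega
      · have hall : ∀ i ∈ N, p i = 3 := by
          intro i hi
          have e1 := add_sum_erase N (fun i => p i - 2) hi
          have e2 : (N.erase i).card ≤ ∑ j ∈ N.erase i, (p j - 2) := by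
            rw [card_eq_sum_ones]
            apply sum_le_sum
            intro j hj
            have := hw j (hN (mem_of_mem_erase hj))
            omega
          rw [card_erase_of_mem hi] at e2
          have := hw i (hN hi)
          omega
        have e2 : ∑ i ∈ N, (2 * w i + d) = ∑ i ∈ N, 2 * κ := by
          apply sum_congr rfl
          intro i hi
          have h5 := hw i (hN hi)
          have h6 := hall i hi
          omega
        rw [sum_add_distrib, ← mul_sum, hN3, sum_const, sum_const, h4] at e2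
        simp only [smul_eq_mul] at e2
        omega
    rcases key with key | ⟨k1, k2, k3⟩
    · exfalso
      have hall : ∀ i ∈ T.erase g, p i = 3 := by
        intro i hi
        rw [mem_erase] at hi
        have h5 := hw i hi.2
        have h6 := hK g hg i hi.2 (Ne.symm hi.1)
        omega
      have e1 := add_sum_erase T w hg
      have e2 := add_sum_erase T (fun i => w i * p i) hg
      have e3 : ∑ i ∈ T.erase g, w i * p i = 3 * ∑ i ∈ T.erase g, w i := by
        rw [mul_sum]
        apply sum_congr rfl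
        intro i hi
        rw [hall i hi, mul_comm]
      rw [e3, hs2] at e2
      rw [hs1] at e1
      have h5 : 6 ≤ lam := by omega
      generalize ∑ i ∈ T.erase g, w i = S at e1 e2
      rcases hwg with ⟨h6, h7 | h7 | h7 | h7⟩ <;> rw [h7.1] at e2 <;> interval_cases lam <;> omega
    · refine ⟨?_, Or.inr (Or.inr ⟨k2, k1⟩)⟩
      by_contra hc
      push Not at hc
      have hall : ∀ i ∈ T, p i = 4 := by
        intro i hi
        have h5 := hw i hi
        have h6 := hmax i hi
        have h7 := hc i hi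
        omega
      have e1 : ∑ i ∈ T, w i * p i = 4 * ∑ i ∈ T, w i := by
        rw [mul_sum]
        apply sum_congr rfl
        intro i hi
        rw [hall i hi, mul_comm]
      rw [e1, hs1, k2] at hs2
      omega

variable {α : Type} [Fintype α] [DecidableEq α]

namespace IsDes

variable {R : RkFn α} {b v r k lam : ℕ}

lemma rank_five_line (h : IsDes R b v r k lam) (hb : v < b) (hl : 1 ≤ lam) (hl9 : lam ≤ 9)
    (hn : R.rk univ = 5) {L : Finset α} (hL : R.Flat L) (hL2 : R.rk L = 2) :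
    (∃ P, R.Flat P ∧ R.rk P = 3 ∧ 2 * (k - P.card) = v - k ∧ P.card < k) ∧
      ((lam = 6 ∧ k - L.card = v - k) ∨ (lam = 7 ∧ 4 * (k - L.card) = 3 * (v - k)) ∨
      (lam = 9 ∧ 3 * (k - L.card) = 2 * (v - k))) := by
  have hkv := h.k_lt hb
  have hLd := (h.line_deg hb hl hL hL2).1
  have hLk := h.flat_card_lt hL (by omega)
  have hTne : (R.cov L univ).Nonempty := by
    obtain ⟨x, hx, hx'⟩ := exists_notMem_of_rk_lt (R := R) (F := L) (T := univ) (by omega)
    exact ⟨_, cl_insert_mem_cov hL flat_univ (subset_univ _) hx hx'⟩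
  obtain ⟨g, hg, hmax⟩ := (R.cov L univ).exists_max_image R.deg hTne
  have hg' := mem_cov.1 hg
  obtain ⟨x, hx, hx'⟩ := exists_notMem_of_rk_lt (R := R) (F := L) (T := g) (by omega)
  obtain ⟨π, hπ, h1, h2⟩ := exists_hyp_avoid hL hx'
  have hπ' := mem_hyp.1 hπ
  have hgπ : ¬ g ⊆ π := fun h => h2 (h hx)
  have hsum : ∀ H ∈ R.hyp, L ⊆ H → ∑ P ∈ R.cov L H, (P \ L).card = k - L.card := by
    intro H hH hLH
    rw [sum_cov_card hL (mem_hyp.1 hH).1 hLH, card_sdiff_of_subset hLH, h.hk H hH]
  have hfacts : ∀ P ∈ R.cov L univ, L.card < P.card ∧ P.card < k ∧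
      R.deg P * (k - P.card) = v - P.card ∧ 3 ≤ R.deg P ∧ R.deg P ≤ 6 := by
    intro P hP
    have hP' := mem_cov.1 hP
    have e1 := h.corank3_deg hb hL (by omega) hP
    refine ⟨?_, h.flat_card_lt hP'.1 (by omega), h.coline_eq hP'.1 (by omega),
      h.three_le_deg hb hP'.1 (by omega), by omega⟩
    apply card_lt_card
    refine ⟨hP'.2.1, fun h' => ?_⟩
    have := R.mono h'
    omega
  have main := local_five (R.cov L univ) (R.cov L π) (fun P => (P \ L).card) R.deg
    (k - L.card) (v - k) lam (by omega) hl9 ?_ ?_ ?_ ?_ g hg hmax ?_ ?_ ?_ (hsum π hπ h1)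
    (h.corank3_ineq hL (by omega) hg hπ h1 hgπ |>.trans hLd.le)
  · obtain ⟨⟨P, hP, hP3⟩, h3⟩ := main
    refine ⟨⟨P, (mem_cov.1 hP).1, by have := (mem_cov.1 hP).2.2.2; omega, ?_, (hfacts P hP).2.1⟩, h3⟩
    have := hfacts P hP
    rw [hP3] at this
    omega
  · intro P hP
    obtain ⟨e1, e2, e3, e4, e5⟩ := hfacts P hP
    have e6 : (P \ L).card = P.card - L.card := card_sdiff_of_subset (mem_cov.1 hP).2.1
    refine ⟨by omega, weight_cases (e := k - P.card) (by omega) (by omega) (by omega) e4 e5⟩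
  · rw [sum_cov_card hL flat_univ (subset_univ _), card_sdiff_of_subset (subset_univ _),
      card_univ, h.hv]
    omega
  · rw [← sum_cov hL flat_univ (subset_univ _) R.deg, ← hLd, ← h.double L]
    apply sum_congr rfl
    intro x hx
    exact deg_cl _
  · intro P hP Q hQ hPQ
    have hP' := mem_cov.1 hP
    have hQ' := mem_cov.1 hQ
    have : ∃ y ∈ Q, y ∉ P := by
      by_contra hc
      push Not at hc
      exact hPQ (hQ'.1.eq_of_subset_of_rk_le hc (by omega)).symm
    obtain ⟨y, hy, hy'⟩ := this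
    have hH : R.cl (insert y P) ∈ R.hyp := cl_mem_hyp (by rw [hP'.1.rk_insert hy']; omega)
    have hPH : P ⊆ R.cl (insert y P) := subset_cl_insert _ _
    have hQH : Q ⊆ R.cl (insert y P) := by
      rw [← hL.eq_cl_insert hQ'.1 hQ'.2.1 hQ'.2.2.2 hy (fun h => hy' (hP'.2.1 h))]
      exact cl_mono (insert_subset_insert _ hP'.2.1)
    rw [← hsum _ hH (hP'.2.1.trans hPH), ← sum_pair (f := fun P => (P \ L).card) hPQ]
    apply sum_le_sum_of_subset
    exact insert_subset (mem_cov.2 ⟨hP'.1, hP'.2.1, hPH, hP'.2.2.2⟩)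
      (singleton_subset_iff.2 (mem_cov.2 ⟨hQ'.1, hQ'.2.1, hQH, hQ'.2.2.2⟩))
  · intro P hP
    have hP' := mem_cov.1 hP
    exact mem_cov.2 ⟨hP'.1, hP'.2.1, subset_univ _, hP'.2.2.2⟩
  · intro hh
    exact hgπ (mem_cov.1 hh).2.2.1
  · obtain ⟨l1, l2, hne, hl1, hl2⟩ := two_colines hL hπ'.1 h1 (by omega)
    rw [← card_pair hne]
    exact card_le_card (insert_subset hl1 (singleton_subset_iff.2 hl2))

theorem rank_five (h : IsDes R b v r k lam) (hb : v < b) (hl : 1 ≤ lam) (hl9 : lam ≤ 9)
    (hn : R.rk univ = 5) :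
    (b, v, r, k, lam) = (15, 6, 10, 4, 6) ∨ (b, v, r, k, lam) = (30, 16, 15, 8, 7) := by
  have hkv := h.k_lt hb
  obtain ⟨L0, hL0, hL02⟩ := h.exists_line hb hl
  obtain ⟨⟨P, hP, hP3, hPk, hPk'⟩, hc0⟩ := h.rank_five_line hb hl hl9 hn hL0 hL02
  have hL0k := h.flat_card_lt hL0 (by omega)
  have hline : ∀ L, R.Flat L → R.rk L = 2 → L.card = L0.card := by
    intro L hL hL2
    have hc := (h.rank_five_line hb hl hl9 hn hL hL2).2
    have hLk := h.flat_card_lt hL (by omega)
    omega
  obtain ⟨s, hs1, hs2⟩ := h.plane_count hb hl _ hline hP hP3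
  have hl2 := (h.line_deg hb hl hL0 hL02).2
  have hP3' : 3 ≤ P.card := hP3 ▸ rk_le_card P
  obtain ⟨x, y, hxy⟩ := h.exists_pair hb
  have hrk := h.eq_rk x
  have hbk := h.eq_bk
  have hkr := h.k_lt_r hb hl
  generalize L0.card = l at hL0k hs1 hs2 hl2 hc0
  generalize P.card = π at hPk hPk' hs1 hP3'
  clear hline hP hP3 hL0 hL02 hn h hxy
  obtain ⟨m, rfl⟩ : ∃ m, l = m + 1 := ⟨l - 1, by omega⟩
  obtain ⟨c, rfl⟩ : ∃ c, s = c + 1 := ⟨s - 1, by omega⟩
  simp only [Nat.add_sub_cancel] at hs1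
  have hm : 0 < m := by omega
  have e0 : (c + 1) * m = c * m + m := by ring
  rcases hc0 with ⟨rfl, hc⟩ | ⟨rfl, hc⟩ | ⟨rfl, hc⟩
  · have e1 : k - 1 = (1 + 2 * c) * m := by
      have : (1 + 2 * c) * m = m + 2 * (c * m) := by ring
      omega
    have e2 : v - 1 = (1 + 4 * c) * m := by
      have : (1 + 4 * c) * m = m + 4 * (c * m) := by ring
      omega
    rw [e1, e2, ← mul_assoc, ← mul_assoc] at hrk
    have e3 := Nat.eq_of_mul_eq_mul_right hm hrk
    have e4 : r < 12 := by
      by_contra hc'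
      have : 12 * (1 + 2 * c) ≤ r * (1 + 2 * c) := Nat.mul_le_mul_right _ (by omega)
      omega
    have e5 : c = 1 ∧ r = 10 := by interval_cases r <;> omega
    obtain ⟨rfl, rfl⟩ := e5
    have e6 : m = 1 := by omega
    subst e6
    have e7 : k = 4 := by omega
    have e8 : v = 6 := by omega
    subst e7 e8
    left
    have : b = 15 := by omega
    rw [this]
  · have e1 : k - 1 = (1 + 3 * c) * m := by
      have : (1 + 3 * c) * m = m + 3 * (c * m) := by ring
      omega
    have e2 : v - 1 = (1 + 7 * c) * m := by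
      have : (1 + 7 * c) * m = m + 7 * (c * m) := by ring
      omega
    rw [e1, e2, ← mul_assoc, ← mul_assoc] at hrk
    have e3 := Nat.eq_of_mul_eq_mul_right hm hrk
    have e4 : r < 17 := by
      by_contra hc'
      have : 17 * (1 + 3 * c) ≤ r * (1 + 3 * c) := Nat.mul_le_mul_right _ (by omega)
      omega
    have e5 : (c = 1 ∧ r = 14) ∨ (c = 2 ∧ r = 15) ∨ (c = 9 ∧ r = 16) := by
      interval_cases r <;> omega
    rcases e5 with ⟨rfl, rfl⟩ | ⟨rfl, rfl⟩ | ⟨rfl, rfl⟩
    · have e6 : m = 1 := by omega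
      subst e6
      have e7 : k = 5 := by omega
      have e8 : v = 9 := by omega
      subst e7 e8
      omega
    · have e6 : m = 1 := by omega
      subst e6
      have e7 : k = 8 := by omega
      have e8 : v = 16 := by omega
      subst e7 e8
      right
      have : b = 30 := by omega
      rw [this]
    · omega
  · have e1 : k - 1 = (1 + 4 * c) * m := by
      have : (1 + 4 * c) * m = m + 4 * (c * m) := by ring
      omega
    have e2 : v - 1 = (1 + 10 * c) * m := by
      have : (1 + 10 * c) * m = m + 10 * (c * m) := by ring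
      omega
    rw [e1, e2, ← mul_assoc, ← mul_assoc] at hrk
    have e3 := Nat.eq_of_mul_eq_mul_right hm hrk
    have e4 : r < 23 := by
      by_contra hc'
      have : 23 * (1 + 4 * c) ≤ r * (1 + 4 * c) := Nat.mul_le_mul_right _ (by omega)
      omega
    have e5 : c = 2 ∧ r = 21 := by interval_cases r <;> omega
    obtain ⟨rfl, rfl⟩ := e5
    have e6 : m = 1 ∨ m = 2 := by omega
    rcases e6 with rfl | rfl
    · have e7 : k = 10 := by omega
      have e8 : v = 22 := by omega
      subst e7 e8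
      omega
    · have e7 : k = 19 := by omega
      have e8 : v = 43 := by omega
      subst e7 e8
      omega

end IsDes

end Pool.Agent.MP_337c4e_co
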