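import Pool.Agent.MP_337c4e_co.Basic

set_option linter.unusedSectionVars false
set_option linter.unusedVariables false

namespace Pool.Agent.MP_337c4e_co

open Finset RkFn

variable {α : Type} [Fintype α] [DecidableEq α]

lemma two_colines {R : RkFn α} {F T : Finset α} (hF : R.Flat F) (hT : R.Flat T) (hFT : F ⊆ T)
    (hr : R.rk F + 2 = R.rk T) :
    ∃ l1 l2, l1 ≠ l2 ∧ l1 ∈ R.cov F T ∧ l2 ∈ R.cov F T := by
  obtain ⟨y, hy, hy'⟩ := exists_notMem_of_rk_lt (R := R) (F := F) (T := T) (by omega)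
  obtain ⟨l1, h1, h2, h3, h4, h5⟩ := hF.exists_avoid hT hFT hy hy'
  refine ⟨l1, R.cl (insert y F), ?_, mem_cov.2 ⟨h1, h2, h3, by omega⟩,
    cl_insert_mem_cov hF hT hFT hy hy'⟩
  intro h
  exact h4 (h ▸ mem_cl_insert _ _)

lemma cov_card_mul {R : RkFn α} {F T : Finset α} (hF : R.Flat F) (hT : R.Flat T) (hFT : F ⊆ T)
    (m : ℕ) (hm : ∀ G ∈ R.cov F T, G.card = m) :
    (R.cov F T).card * (m - F.card) = T.card - F.card := by
  have h1 := sum_cov_card hF hT hFT
  rw [card_sdiff_of_subset hFT, Finset.sum_congr rfl (g := fun _ => m - F.card)] at h1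
  · simpa using h1
  · intro G hG
    rw [card_sdiff_of_subset (mem_cov.1 hG).2.1, hm G hG]

namespace IsDes

variable {R : RkFn α} {b v r k lam : ℕ}

/-- the basic inequality at a flat of corank three -/
lemma corank3_ineq (h : IsDes R b v r k lam) {F P π : Finset α} (hF : R.Flat F)
    (hr : R.rk F + 3 = R.rk univ) (hP : P ∈ R.cov F univ) (hπ : π ∈ R.hyp) (hFπ : F ⊆ π)
    (hPπ : ¬ P ⊆ π) :
    R.deg P + 1 + ∑ l ∈ R.cov F π, (R.deg l - 2) ≤ R.deg F := by
  obtain ⟨x, hx, hx'⟩ := not_subset.1 hPπ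
  rw [mem_cov] at hP
  have h1 := deg_ineq hπ hFπ hx' (R.cov F π) (by
    intro l hl
    rw [mem_cov] at hl
    exact ⟨hl.1, hl.2.1, hl.2.2.1, by omega⟩)
  have h2 : R.cl (insert x F) = P :=
    hF.eq_cl_insert hP.1 hP.2.1 hP.2.2.2 hx (fun h => hx' (hFπ h))
  rwa [← deg_cl (insert x F), h2] at h1

lemma corank3_deg (h : IsDes R b v r k lam) (hb : v < b) {F P : Finset α} (hF : R.Flat F)
    (hr : R.rk F + 3 = R.rk univ) (hP : P ∈ R.cov F univ) : R.deg P + 3 ≤ R.deg F := by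
  have hP' := mem_cov.1 hP
  obtain ⟨x, hx, hx'⟩ := exists_notMem_of_rk_lt (R := R) (F := F) (T := P) (by omega)
  obtain ⟨π, hπ, h1, h2⟩ := exists_hyp_avoid hF hx'
  have h3 := h.corank3_ineq hF hr hP hπ h1 (fun h => h2 (h hx))
  have hπ' := mem_hyp.1 hπ
  obtain ⟨l1, l2, hne, hl1, hl2⟩ := two_colines hF hπ'.1 h1 (by omega)
  have h4 : ∑ l ∈ ({l1, l2} : Finset (Finset α)), (R.deg l - 2) ≤
      ∑ l ∈ R.cov F π, (R.deg l - 2) :=
    sum_le_sum_of_subset (insert_subset hl1 (singleton_subset_iff.2 hl2))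
  rw [sum_pair hne] at h4
  rw [mem_cov] at hl1 hl2
  have h5 := h.three_le_deg hb hl1.1 (by omega)
  have h6 := h.three_le_deg hb hl2.1 (by omega)
  omega

lemma corank3_six (h : IsDes R b v r k lam) (hb : v < b) {F : Finset α} (hF : R.Flat F)
    (hr : R.rk F + 3 = R.rk univ) : 6 ≤ R.deg F := by
  obtain ⟨x, hx, hx'⟩ := exists_notMem_of_rk_lt (R := R) (F := F) (T := univ) (by omega)
  have hP := cl_insert_mem_cov hF flat_univ (subset_univ _) hx hx'
  have h1 := h.corank3_deg hb hF hr hP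
  have hP' := mem_cov.1 hP
  have h2 := h.three_le_deg hb hP'.1 (by omega)
  omega

lemma corank4_ten (h : IsDes R b v r k lam) (hb : v < b) {G : Finset α} (hG : R.Flat G)
    (hr : R.rk G + 4 = R.rk univ) : 10 ≤ R.deg G := by
  obtain ⟨x, hx, hx'⟩ := exists_notMem_of_rk_lt (R := R) (F := G) (T := univ) (by omega)
  obtain ⟨π, hπ, h1, h2⟩ := exists_hyp_avoid hG hx'
  have hπ' := mem_hyp.1 hπ
  obtain ⟨y, hy, hy'⟩ := exists_notMem_of_rk_lt (R := R) (F := G) (T := π) (by omega)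
  have hg := cl_insert_mem_cov hG hπ'.1 h1 hy hy'
  rw [mem_cov] at hg
  obtain ⟨l1, l2, hne, hl1, hl2⟩ := two_colines hg.1 hπ'.1 hg.2.2.1 (by omega)
  rw [mem_cov] at hl1 hl2
  obtain ⟨l3, h3, h4, h5, h6, h7⟩ := hG.exists_avoid hπ'.1 h1 hy hy'
  have hne1 : l1 ≠ l3 := fun h => h6 (h ▸ hl1.2.1 (mem_cl_insert _ _))
  have hne2 : l2 ≠ l3 := fun h => h6 (h ▸ hl2.2.1 (mem_cl_insert _ _))
  have h8 := deg_ineq hπ h1 h2 {l1, l2, l3} (by
    intro l hl
    simp only [mem_insert, mem_singleton] at hl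
    rcases hl with rfl | rfl | rfl
    · exact ⟨hl1.1, hg.2.1.trans hl1.2.1, hl1.2.2.1, by omega⟩
    · exact ⟨hl2.1, hg.2.1.trans hl2.2.1, hl2.2.2.1, by omega⟩
    · exact ⟨h3, h4, h5, by omega⟩)
  rw [sum_insert (by simp [hne, hne1]), sum_pair hne2] at h8
  have h9 := h.three_le_deg hb hl1.1 (by omega)
  have h10 := h.three_le_deg hb hl2.1 (by omega)
  have h11 := h.three_le_deg hb h3 (by omega)
  have h12 := h.corank3_six hb (cl_flat (insert x G)) (by rw [hG.rk_cl_insert hx']; omega)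
  rw [deg_cl] at h12
  omega

lemma exists_line (h : IsDes R b v r k lam) (hb : v < b) (hl : 1 ≤ lam) :
    ∃ L, R.Flat L ∧ R.rk L = 2 := by
  obtain ⟨x, y, hxy⟩ := h.exists_pair hb
  exact ⟨R.cl {x, y}, cl_flat _, by rw [rk_cl, h.rk_pair hb hl hxy]⟩

lemma ten_le_lam (h : IsDes R b v r k lam) (hb : v < b) (hl : 1 ≤ lam) (hn : 6 ≤ R.rk univ) :
    10 ≤ lam := by
  obtain ⟨L, hL, hL2⟩ := h.exists_line hb hl
  obtain ⟨G, h1, h2, -, h3⟩ := hL.exists_rk flat_univ (subset_univ _) (R.rk univ - 4)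
    (by omega) (by omega)
  have h4 := h.corank4_ten hb h1 (by omega)
  have h5 := deg_anti (R := R) h2
  rw [(h.line_deg hb hl hL hL2).1] at h5
  omega

/-- in a plane all of whose lines have `l` points, the number `s` of lines through a point
is at least `l` -/
lemma plane_count (h : IsDes R b v r k lam) (hb : v < b) (hl : 1 ≤ lam) (l : ℕ)
    (hline : ∀ L, R.Flat L → R.rk L = 2 → L.card = l) {T : Finset α} (hT : R.Flat T)
    (hr : R.rk T = 3) : ∃ s, s * (l - 1) = T.card - 1 ∧ l ≤ s := by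
  obtain ⟨L, hL1, -, hL2, hL3⟩ := (h.flat_empty hb).exists_rk hT (empty_subset _) 2
    (by rw [R.rk_empty]; omega) (by omega)
  obtain ⟨x, hx, hx'⟩ := exists_notMem_of_rk_lt (R := R) (F := L) (T := T) (by omega)
  have hx1 := h.flat_single hb hl x
  have hx2 := h.rk_single hb x
  refine ⟨(R.cov {x} T).card, ?_, ?_⟩
  · have := cov_card_mul hx1 hT (singleton_subset_iff.2 hx) l (by
      intro G hG
      rw [mem_cov] at hG
      exact hline G hG.1 (by omega))
    simpa using this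
  · rw [← hline L hL1 hL3]
    apply card_le_card_of_injOn (fun y => R.cl (insert x {y}))
    · intro y hy
      have hy' : y ∈ L := hy
      have hyx : y ∉ ({x} : Finset α) := by
        rw [mem_singleton]; rintro rfl; exact hx' hy'
      have := cl_insert_mem_cov hx1 hT (singleton_subset_iff.2 hx) (hL2 hy') hyx
      rw [pair_comm] at this
      exact this
    · intro y hy y' hy' hyy
      have e1 := (h.flat_single hb hl y).cl_insert_inter hL1 (singleton_subset_iff.2 hy) hx'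
      have e2 := (h.flat_single hb hl y').cl_insert_inter hL1 (singleton_subset_iff.2 hy') hx'
      simp only at hyy
      rw [hyy, e2] at e1
      exact (singleton_injective e1).symm

/-- structure of the rank four case -/
lemma rank_four (h : IsDes R b v r k lam) (hb : v < b) (hl : 2 ≤ lam) (hn : R.rk univ = 4) :
    ∃ l s, 2 ≤ l ∧ l ≤ s ∧ s ≤ lam ∧ k = 1 + s * (l - 1) ∧ v = l + lam * (k - l) ∧
      ∀ L, R.Flat L → R.rk L = 2 → L.card = l := by
  have hl1 : 1 ≤ lam := by omega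
  have hkv := h.k_lt hb
  have key : ∀ L, R.Flat L → R.rk L = 2 → v = L.card + lam * (k - L.card) ∧ L.card < k := by
    intro L hL hL2
    have h1 := h.coline_eq hL (by omega)
    have h2 := h.flat_card_lt hL (by omega)
    rw [(h.line_deg hb hl1 hL hL2).1] at h1
    omega
  obtain ⟨L0, hL0, hL02⟩ := h.exists_line hb hl1
  have hline : ∀ L, R.Flat L → R.rk L = 2 → L.card = L0.card := by
    intro L hL hL2
    obtain ⟨h1, h2⟩ := key L hL hL2
    obtain ⟨h3, h4⟩ := key L0 hL0 hL02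
    obtain ⟨a, ha⟩ := Nat.exists_eq_add_of_lt h2
    obtain ⟨c, hc⟩ := Nat.exists_eq_add_of_lt h4
    have e1 : k - L.card = a + 1 := by omega
    have e2 : k - L0.card = c + 1 := by omega
    rw [e1] at h1
    rw [e2] at h3
    rcases lt_trichotomy a c with h' | h' | h'
    · nlinarith
    · omega
    · nlinarith
  obtain ⟨π, hπ⟩ : R.hyp.Nonempty := card_pos.1 (by rw [h.hb]; omega)
  have hπ' := mem_hyp.1 hπ
  obtain ⟨s, hs1, hs2⟩ := h.plane_count hb hl1 _ hline hπ'.1 (by omega)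
  have hl2 := (h.line_deg hb hl1 hL0 hL02).2
  have h2k := h.two_le_k hb hl1
  rw [h.hk π hπ] at hs1
  refine ⟨L0.card, s, hl2, hs2, ?_, by omega, (key L0 hL0 hL02).1, hline⟩
  obtain ⟨x, hx⟩ : π.Nonempty := card_pos.1 (by rw [h.hk π hπ]; omega)
  obtain ⟨z, -, hz⟩ := exists_notMem_of_rk_lt (R := R) (F := π) (T := univ) (by omega)
  have hx1 := h.flat_single hb hl1 x
  have hx2 := h.rk_single hb x
  have e1 := cov_card_mul hx1 hπ'.1 (singleton_subset_iff.2 hx) L0.card (by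
      intro G hG
      rw [mem_cov] at hG
      exact hline G hG.1 (by omega))
  rw [card_singleton, h.hk π hπ, ← hs1] at e1
  have e2 : (R.cov {x} π).card = s := Nat.eq_of_mul_eq_mul_right (by omega) e1
  have hxz : x ≠ z := by rintro rfl; exact hz hx
  rw [← e2, ← h.hl x z hxz]
  unfold deg
  apply card_le_card_of_injOn (fun L => R.cl (insert z L))
  · intro L hL
    have hL' := mem_cov.1 hL
    have hzL : z ∉ L := fun h => hz (hL'.2.2.1 h)
    simp only [coe_filter, Set.mem_ofPred_eq]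
    refine ⟨cl_mem_hyp (by rw [hL'.1.rk_insert hzL]; omega), ?_⟩
    exact insert_subset (subset_cl_insert _ _ (hL'.2.1 (mem_singleton_self x)))
      (singleton_subset_iff.2 (mem_cl_insert _ _))
  · intro L hL L' hL' hLL
    have h1 := mem_cov.1 hL
    have h2 := mem_cov.1 hL'
    have e3 := h1.1.cl_insert_inter hπ'.1 h1.2.2.1 hz
    have e4 := h2.1.cl_insert_inter hπ'.1 h2.2.2.1 hz
    simp only at hLL
    rw [hLL, e4] at e3
    exact e3.symm

/-- the bound in rank at least five -/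
lemma rank_ge_five (h : IsDes R b v r k lam) (hb : v < b) (hl : 1 ≤ lam) (hn : 5 ≤ R.rk univ) :
    6 ≤ lam ∧ v ≤ 3 + (lam - 3) * (k - 3) := by
  obtain ⟨L, hL, hL2⟩ := h.exists_line hb hl
  obtain ⟨F, h1, h2, -, h3⟩ := hL.exists_rk flat_univ (subset_univ _) (R.rk univ - 3)
    (by omega) (by omega)
  have h5 := deg_anti (R := R) h2
  rw [(h.line_deg hb hl hL hL2).1] at h5
  have h6 := h.corank3_six hb h1 (by omega)
  refine ⟨by omega, ?_⟩
  obtain ⟨x, hx, hx'⟩ := exists_notMem_of_rk_lt (R := R) (F := F) (T := univ) (by omega)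
  have hP := cl_insert_mem_cov h1 flat_univ (subset_univ _) hx hx'
  have h7 := h.corank3_deg hb h1 (by omega) hP
  have hP' := mem_cov.1 hP
  have h8 := h.coline_eq hP'.1 (by omega)
  have h9 := h.flat_card_lt hP'.1 (by omega)
  have h10 := rk_le_card (R := R) (R.cl (insert x F))
  have h11 := h.three_le_deg hb hP'.1 (by omega)
  have hkv := h.k_lt hb
  have h12 : 3 ≤ (R.cl (insert x F)).card := by omega
  have h13 : R.deg (R.cl (insert x F)) + 3 ≤ lam := by omega
  generalize R.deg (R.cl (insert x F)) = p at h8 h11 h13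
  generalize (R.cl (insert x F)).card = c at h8 h9 h12
  clear h10 h7 hP hP' h6 h5 h3 h2 h1 hL hL2 hn h
  obtain ⟨a, ha⟩ := Nat.exists_eq_add_of_lt h9
  obtain ⟨c', hc'⟩ : ∃ c', c = c' + 3 := ⟨c - 3, by omega⟩
  obtain ⟨q, hq⟩ : ∃ q, lam - 3 = p + q := ⟨lam - 3 - p, by omega⟩
  have e1 : k - c = a + 1 := by omega
  have e2 : k - 3 = c' + a + 1 := by omega
  have e3 : v = c' + 3 + p * (a + 1) := by rw [e1] at h8; omega
  rw [e2, hq, e3]
  have e4 : c' ≤ p * c' := Nat.le_mul_of_pos_left _ (by omega)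
  have e5 : (p + q) * (c' + a + 1) = p * c' + p * (a + 1) + q * (c' + a + 1) := by ring
  omega

theorem cube_bound (h : IsDes R b v r k lam) (hb : v < b) (hl : 2 ≤ lam) :
    v ≤ (lam - 1) ^ 3 := by
  have hn := h.four_le_rank hb hl
  have hkr := h.k_lt_r hb (by omega)
  obtain ⟨x, y, hxy⟩ := h.exists_pair hb
  have hrk := h.eq_rk x
  by_cases h4 : R.rk univ = 4
  · obtain ⟨l, s, h1, h2, h3, h5, h6, -⟩ := h.rank_four hb hl h4
    obtain ⟨l', rfl⟩ : ∃ l', l = l' + 1 := ⟨l - 1, by omega⟩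
    obtain ⟨s', rfl⟩ : ∃ s', s = s' + 1 := ⟨s - 1, by omega⟩
    obtain ⟨q, rfl⟩ : ∃ q, lam = q + 1 := ⟨lam - 1, by omega⟩
    simp only [Nat.add_sub_cancel] at h5 h6 ⊢
    have e1 : k - (l' + 1) = s' * l' := by rw [h5]; ring_nf; omega
    rw [e1] at h6
    by_cases hs : s' = q
    · subst hs
      by_cases hl' : l' = s'
      · subst hl'
        exfalso
        have e2 : k - 1 = (l' + 1) * l' := by omega
        have e3 : v - 1 = l' * (1 + (l' + 1) * l') := by rw [h6]; ring_nf; omega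
        rw [e2, e3] at hrk
        have e4 : r * ((l' + 1) * l') = (1 + (l' + 1) * l') * ((l' + 1) * l') := by
          rw [hrk]; ring
        have e5 := Nat.eq_of_mul_eq_mul_right (Nat.mul_pos (by omega) (by omega)) e4
        omega
      · obtain ⟨t, ht⟩ : ∃ t, s' = l' + 1 + t := ⟨s' - l' - 1, by omega⟩
        rw [h6, ht]
        nlinarith [Nat.zero_le (t * t * t), Nat.zero_le (t * t), Nat.zero_le (t * l' * l'),
          Nat.zero_le (t * t * l'), Nat.zero_le (t * l')]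
    · obtain ⟨t, ht⟩ : ∃ t, q = s' + 1 + t := ⟨q - s' - 1, by omega⟩
      obtain ⟨u, hu⟩ : ∃ u, s' = l' + u := ⟨s' - l', by omega⟩
      rw [h6, ht, hu]
      have : l' + 1 + (l' + u + 1 + t + 1) * ((l' + u) * l') ≤ (l' + u + 1 + t) ^ 3 := by
        have e : (l' + u + 1 + t) ^ 3 = l' + 1 + (l' + u + 1 + t + 1) * ((l' + u) * l') +
            (l' ^ 2 + 2 * l' + l' ^ 2 * u + 2 * l' * u ^ 2 + u ^ 3 + 4 * l' * u + 3 * u ^ 2 + 3 * u
              + 2 * t * l' ^ 2 + 5 * t * l' * u + 3 * t * u ^ 2 + 6 * t * l' + 6 * t * u + 3 * t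
              + 3 * t ^ 2 * l' + 3 * t ^ 2 * u + 3 * t ^ 2 + t ^ 3) := by ring
        omega
      exact this
  · obtain ⟨h6, h7⟩ := h.rank_ge_five hb (by omega) (by omega)
    obtain ⟨m, rfl⟩ : ∃ m, lam = m + 6 := ⟨lam - 6, by omega⟩
    have hkv := h.k_lt hb
    have e1 : m + 6 - 3 = m + 3 := by omega
    have e2 : m + 6 - 1 = m + 5 := by omega
    rw [e1] at h7
    rw [e2]
    by_cases hk3 : k ≤ 3
    · have : k - 3 = 0 := by omega
      rw [this] at h7
      have : 5 ^ 3 ≤ (m + 5) ^ 3 := Nat.pow_le_pow_left (by omega) 3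
      omega
    · obtain ⟨j, rfl⟩ : ∃ j, k = j + 3 := ⟨k - 3, by omega⟩
      simp only [Nat.add_sub_cancel] at h7
      have e3 : j + 3 - 1 = j + 2 := by omega
      rw [e3] at hrk
      have h8 : (j + 4) * (j + 2) ≤ (m + 6) * (2 + (m + 3) * j) := by
        calc (j + 4) * (j + 2) ≤ r * (j + 2) := Nat.mul_le_mul_right _ (by omega)
          _ = (m + 6) * (v - 1) := hrk
          _ ≤ (m + 6) * (2 + (m + 3) * j) := Nat.mul_le_mul_left _ (by omega)
      have h9 : j ≤ (m + 6) * (m + 3) - 4 := by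
        by_contra hc
        have h10 : (m + 6) * (m + 3) ≤ j + 3 := by omega
        nlinarith
      have h10 : j + 4 ≤ (m + 6) * (m + 3) := by
        have : 18 ≤ (m + 6) * (m + 3) := by nlinarith
        omega
      nlinarith

end IsDes

end Pool.Agent.MP_337c4e_co
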